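import Pool.Agent.MP_35f30a_al.C74.Fr

/-!
ROW BL1.  Principal blow-up `A[X^{-1} p]`.  Blueprint section 3 (BL1).

Inside `Fr A = A[1/X]` let `y := X^{-1} p`.  `y a = a y + X^{-1}[p,a]` and `X^{-1}[p,a] ∈ X A ⊆ A` (gap 2), so
`A' := {Σ a_i y^i}` is a ring (note `y^i = X^{-i} p^i`).
KEY CLAIM: if `Σ_{i ≤ n} a_i X^{-i} p^i = X Σ_{i ≤ n'} b_i X^{-i} p^i` in `Fr A` then all `π a_i ∈ (π p)`.
 Proof.  Double induction.  If `n' ≥ n+2`: multiply by `X^{n'-1}`; the left side is in `X A`, the right side is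
 `≡ b_{n'} p^{n'}`; so `π b_{n'} (π p)^{n'} = 0`, `b_{n'} = X b'`, and
 `b_{n'} X^{-n'} p^{n'} = (b' p) X^{-(n'-1)} p^{n'-1}` is absorbed: `n'` decreases.  Once `n' ≤ n+1` (pad to
 `n' = n+1`) multiply by `X^n`: residues give `π a_n (π p)^n = π b_{n+1} (π p)^{n+1}`, so
 `π a_n = π b_{n+1} π p` and `a_n = b_{n+1} p + X c`.  Then
 `a_n X^{-n} p^n = X b_{n+1} X^{-(n+1)} p^{n+1} + X c X^{-n} p^n`; subtract: the same situation with `n-1`.
Hence `π'(Σ a_i y^i) := Σ [π a_i] Y^i` is well defined (apply the claim to differences; right side `0`);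
it is a ring hom since `y a ≡ a y mod X A'`.
If all `π a_i ∈ (π p)`: `a_i = b_i p + X c_i`, `a_i y^i = X (b_i y^{i+1} + c_i y^i) ∈ X A'`.
`kerX`: the claim.
-/

set_option autoImplicit false

open scoped TensorProduct Polynomial

namespace C74

variable {k : Type} [Field k]
variable {A : Type} [Ring A] [Algebra k[X] A] {S : Type} [CommRing S] [Algebra k S] {π : A →+* S}

/-- `∑_{i < n} X^{n-1-i} a_i p^i` -/
noncomputable def BL1_G (k : Type) [Field k] {A : Type} [Ring A] [Algebra k[X] A] (p : A)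
    (a : ℕ → A) : ℕ → A
  | 0 => 0
  | n + 1 => tX k • BL1_G k p a n + a n * p ^ n

theorem BL1_G_succ (p : A) (a : ℕ → A) (n : ℕ) :
    BL1_G k p a (n + 1) = tX k • BL1_G k p a n + a n * p ^ n := rfl

theorem BL1_G_congr (p : A) {a b : ℕ → A} (n : ℕ) (h : ∀ i < n, a i = b i) :
    BL1_G k p a n = BL1_G k p b n := by
  induction n with
  | zero => rfl
  | succ n ih =>
    rw [BL1_G_succ, BL1_G_succ, ih (fun i hi => h i (by omega)), h n (by omega)]

theorem BL1_G_update (p : A) (b : ℕ → A) (m : ℕ) (d : A) :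
    BL1_G k p (Function.update b m (b m + d)) (m + 1) = BL1_G k p b (m + 1) + d * p ^ m := by
  rw [BL1_G_succ, BL1_G_succ, Function.update_self,
    BL1_G_congr p (b := b) m (fun i hi => Function.update_of_ne (by omega) _ _), add_mul, add_assoc]

theorem BL1_G_zero (p : A) (n : ℕ) : BL1_G k p (fun _ => (0 : A)) n = 0 := by
  induction n with
  | zero => rfl
  | succ n ih => rw [BL1_G_succ, ih, smul_zero, zero_mul, add_zero]

theorem BL1_cancel (hπ : IsQC k π) {a b : A} (h : tX k • a = tX k • b) : a = b := by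
  have h1 : tX k • (a - b) = 0 := by rw [smul_sub, h, sub_self]
  exact sub_eq_zero.1 (hπ.reg _ h1)

theorem BL1_nzd {s : S} (hs : s ∈ nonZeroDivisors S) {x : S} (n : ℕ) (h : x * s ^ n = 0) :
    x = 0 := by
  have h1 : s ^ n ∈ nonZeroDivisors S := pow_mem hs n
  exact (mul_right_mem_nonZeroDivisors_eq_zero_iff h1).1 h

/-- the key claim -/
theorem BL1_claim (hπ : IsQC k π) (p : A) (hp : π p ∈ nonZeroDivisors S) :
    ∀ (n m : ℕ) (a b : ℕ → A), (tX k) ^ m • BL1_G k p a n = BL1_G k p b (n + 1 + m) →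
      ∀ i < n, π (a i) ∈ Ideal.span {π p} := by
  intro n
  induction n with
  | zero =>
    intro m a b _ i hi
    exact absurd hi (by omega)
  | succ n ihn =>
    intro m
    induction m with
    | zero =>
      intro a b h
      rw [pow_zero, one_smul, add_zero, BL1_G_succ, BL1_G_succ p b (n + 1)] at h
      have h1 := congrArg π h
      rw [map_add, map_add, hπ.kerX, hπ.kerX, zero_add, zero_add, map_mul, map_mul, map_pow,
        map_pow] at h1
      have h2 : π (a n) = π (b (n + 1)) * π p := by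
        have h3 : (π (a n) - π (b (n + 1)) * π p) * π p ^ n = 0 := by
          rw [sub_mul, h1, pow_succ']; ring
        exact sub_eq_zero.1 (BL1_nzd hp n h3)
      obtain ⟨c, hc⟩ := hπ.ker (a n - b (n + 1) * p) (by rw [map_sub, map_mul, h2, sub_self])
      have h4 : a n = b (n + 1) * p + tX k • c := by rw [← hc]; abel
      have h5 : BL1_G k p a n + c * p ^ n = BL1_G k p b (n + 1) := by
        apply BL1_cancel hπ
        have h6 : a n * p ^ n = b (n + 1) * p ^ (n + 1) + tX k • (c * p ^ n) := by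
          rw [h4, add_mul, pow_succ', ← mul_assoc, smul_mul_assoc]
        rw [h6] at h
        rw [smul_add]
        have h7 : tX k • BL1_G k p a n + tX k • (c * p ^ n) + b (n + 1) * p ^ (n + 1) =
            tX k • BL1_G k p b (n + 1) + b (n + 1) * p ^ (n + 1) := by
          rw [← h]; abel
        exact add_right_cancel h7
      have h8 : (tX k) ^ 0 • BL1_G k p a n =
          BL1_G k p (Function.update b n (b n + -c)) (n + 1 + 0) := by
        rw [pow_zero, one_smul, add_zero, BL1_G_update, ← h5, neg_mul]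
        abel
      intro i hi
      rcases Nat.lt_succ_iff_lt_or_eq.1 hi with hi | rfl
      · exact ihn 0 a _ h8 i hi
      · rw [h2]
        exact Ideal.mul_mem_left _ _ (Ideal.subset_span rfl)
    | succ m ihm =>
      intro a b h
      rw [← add_assoc, BL1_G_succ p b (n + 1 + 1 + m), pow_succ', mul_smul] at h
      have h1 := congrArg π h
      rw [map_add, hπ.kerX, hπ.kerX, zero_add, map_mul, map_pow] at h1
      have h2 := BL1_nzd hp _ h1.symm
      obtain ⟨c, hc⟩ := hπ.ker _ h2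
      have h3 : (tX k) ^ m • BL1_G k p a (n + 1) =
          BL1_G k p b (n + 1 + 1 + m) + c * p ^ (n + 1 + 1 + m) := by
        apply BL1_cancel hπ
        rw [h, hc, smul_add, smul_mul_assoc]
      have h4 : n + 1 + 1 + m = (n + 1 + m) + 1 := by omega
      refine ihm a (Function.update b (n + 1 + m) (b (n + 1 + m) + c * p)) ?_
      rw [h4, BL1_G_update, h3, h4, pow_succ', mul_assoc]

section
variable (k)

/-- the element `X⁻¹ p` -/
noncomputable def BL1_y (p : A) : Fr k A := Fr.tz (-1) * Fr.ι p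

/-- evaluation at `X⁻¹ p` -/
noncomputable def BL1_ev (p : A) (q : Polynomial A) : Fr k A :=
  Polynomial.eval₂ ((Fr.ι : A →ₐ[k[X]] Fr k A) : A →+* Fr k A) (BL1_y k p) q

end

theorem BL1_X_y (p : A) : tX k • BL1_y k p = Fr.ι p := by
  rw [BL1_y, Algebra.smul_def, ← Fr.tz_one, ← mul_assoc, Fr.tz_mul_neg, one_mul]

theorem BL1_smul_eq_zero {d : Fr k A} (h : tX k • d = 0) : d = 0 := by
  rw [Algebra.smul_def] at h
  exact (Fr.isUnit_X (k := k) (A := A)).mul_right_eq_zero.1 h

theorem BL1_sum (p : A) (a : ℕ → A) (n : ℕ) :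
    tX k • (Fr.ι (BL1_G k p a n) : Fr k A) =
      (tX k) ^ n • ∑ i ∈ Finset.range n, Fr.ι (a i) * BL1_y k p ^ i := by
  induction n with
  | zero => simp [BL1_G]
  | succ n ih =>
    have h1 : (Fr.ι (p ^ n) : Fr k A) = (tX k) ^ n • BL1_y k p ^ n := by
      rw [map_pow, ← BL1_X_y, smul_pow]
    rw [BL1_G_succ, map_add, map_smul, map_mul, smul_add, ih, Finset.sum_range_succ, smul_add, h1,
      smul_smul, ← pow_succ', mul_smul_comm, smul_smul, ← pow_succ']

theorem BL1_ev_eq (p : A) (q : Polynomial A) : BL1_ev k p q =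
    ∑ i ∈ Finset.range (q.natDegree + 1), Fr.ι (q.coeff i) * BL1_y k p ^ i := by
  rw [BL1_ev, Polynomial.eval₂_eq_sum_range]
  rfl

/-- the residue -/
noncomputable def BL1_res (π : A →+* S) (p : A) :
    Polynomial A →+* Polynomial (S ⧸ Ideal.span {π p}) :=
  Polynomial.mapRingHom ((Ideal.Quotient.mk (Ideal.span {π p})).comp π)

theorem BL1_res_zero (hπ : IsQC k π) (p : A) (hp : π p ∈ nonZeroDivisors S) (q : Polynomial A)
    (h : BL1_ev k p q = 0) : BL1_res π p q = 0 := by
  have h1 := BL1_sum (k := k) p q.coeff (q.natDegree + 1)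
  rw [← BL1_ev_eq, h, smul_zero] at h1
  have h2 := BL1_smul_eq_zero h1
  have h3 : BL1_G k p q.coeff (q.natDegree + 1) = 0 := by
    apply Fr.ι_injective (k := k) hπ.reg
    rw [h2, map_zero]
  have h4 := BL1_claim hπ p hp (q.natDegree + 1) 0 q.coeff (fun _ => 0) (by
    rw [h3, smul_zero, BL1_G_zero])
  ext i
  rw [BL1_res, Polynomial.coe_mapRingHom, Polynomial.coeff_map, Polynomial.coeff_zero]
  by_cases hi : i < q.natDegree + 1
  · exact Ideal.Quotient.eq_zero_iff_mem.2 (h4 i hi)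
  · rw [Polynomial.coeff_eq_zero_of_natDegree_lt (by omega), map_zero]

theorem BL1_ev_add (p : A) (q r : Polynomial A) :
    BL1_ev k p (q + r) = BL1_ev k p q + BL1_ev k p r := Polynomial.eval₂_add _ _

theorem BL1_ev_neg (p : A) (q : Polynomial A) : BL1_ev k p (-q) = -BL1_ev k p q := by
  have h1 := BL1_ev_add (k := k) p (-q) q
  rw [neg_add_cancel] at h1
  have h2 : BL1_ev k p (0 : Polynomial A) = 0 := Polynomial.eval₂_zero _ _
  rw [h2] at h1
  exact eq_neg_of_add_eq_zero_left h1.symm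

theorem BL1_ev_monomial (p : A) (i : ℕ) (a : A) :
    BL1_ev k p (Polynomial.monomial i a) = Fr.ι a * BL1_y k p ^ i :=
  Polynomial.eval₂_monomial _ _

theorem BL1_ev_C (p : A) (a : A) : BL1_ev k p (Polynomial.C a) = Fr.ι a :=
  Polynomial.eval₂_C _ _

theorem BL1_ev_C_mul (p : A) (a : A) (r : Polynomial A) :
    BL1_ev k p (Polynomial.C a * r) = Fr.ι a * BL1_ev k p r := by
  induction r using Polynomial.induction_on' with
  | add r₁ r₂ h₁ h₂ => rw [mul_add, BL1_ev_add, BL1_ev_add, h₁, h₂, mul_add]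
  | monomial i b =>
    rw [Polynomial.C_mul_monomial, BL1_ev_monomial, BL1_ev_monomial, map_mul, mul_assoc]

theorem BL1_res_eq (hπ : IsQC k π) (p : A) (hp : π p ∈ nonZeroDivisors S) {q r : Polynomial A}
    (h : BL1_ev k p q = BL1_ev k p r) : BL1_res π p q = BL1_res π p r := by
  have h1 : BL1_ev k p (q + -r) = 0 := by rw [BL1_ev_add, BL1_ev_neg, h, add_neg_cancel]
  have h2 := BL1_res_zero hπ p hp _ h1
  rw [map_add, map_neg] at h2
  exact add_neg_eq_zero.1 h2

theorem BL1_res_X_smul (hπ : IsQC k π) (p : A) (i : ℕ) (a : A) :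
    BL1_res π p (Polynomial.monomial i (tX k • a)) = 0 := by
  rw [BL1_res, Polynomial.coe_mapRingHom, Polynomial.map_monomial, RingHom.comp_apply, hπ.kerX,
    map_zero, Polynomial.monomial_zero_right]

theorem BL1_y_mul (hπ : IsQC k π) (hg : Gap k 2 A) (p : A) (q : Polynomial A) :
    ∃ r : Polynomial A, BL1_y k p * BL1_ev k p q = BL1_ev k p r ∧
      BL1_res π p r = Polynomial.X * BL1_res π p q := by
  induction q using Polynomial.induction_on' with
  | add q₁ q₂ h₁ h₂ =>
    obtain ⟨r₁, h1, h2⟩ := h₁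
    obtain ⟨r₂, h3, h4⟩ := h₂
    refine ⟨r₁ + r₂, ?_, ?_⟩
    · rw [BL1_ev_add, BL1_ev_add, mul_add, h1, h3]
    · rw [map_add, map_add, h2, h4, mul_add]
  | monomial i a =>
    obtain ⟨c, hc⟩ := hg p a
    have h1 : BL1_y k p * Fr.ι a = Fr.ι a * BL1_y k p + Fr.ι (tX k • c) := by
      have h2 : tX k • (BL1_y k p * Fr.ι a) =
          tX k • (Fr.ι a * BL1_y k p + Fr.ι (tX k • c) : Fr k A) := by
        rw [← smul_mul_assoc, BL1_X_y, smul_add, ← mul_smul_comm, BL1_X_y, ← map_mul, ← map_mul,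
          ← map_smul, smul_smul, ← pow_two, ← hc, ← map_add]
        congr 1
        abel
      have h3 : tX k • (BL1_y k p * Fr.ι a - (Fr.ι a * BL1_y k p + Fr.ι (tX k • c)) : Fr k A)
          = 0 := by rw [smul_sub, h2, sub_self]
      exact sub_eq_zero.1 (BL1_smul_eq_zero h3)
    refine ⟨Polynomial.monomial (i + 1) a + Polynomial.monomial i (tX k • c), ?_, ?_⟩
    · rw [BL1_ev_monomial, BL1_ev_add, BL1_ev_monomial, BL1_ev_monomial, ← mul_assoc, h1, add_mul,
        pow_succ', ← mul_assoc]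
    · rw [map_add, BL1_res_X_smul hπ, add_zero, BL1_res, Polynomial.coe_mapRingHom,
        Polynomial.map_monomial, Polynomial.map_monomial, Polynomial.X_mul_monomial]

theorem BL1_mul (hπ : IsQC k π) (hg : Gap k 2 A) (p : A) (q s : Polynomial A) :
    ∃ r : Polynomial A, BL1_ev k p q * BL1_ev k p s = BL1_ev k p r ∧
      BL1_res π p r = BL1_res π p q * BL1_res π p s := by
  induction q using Polynomial.induction_on' with
  | add q₁ q₂ h₁ h₂ =>
    obtain ⟨r₁, h1, h2⟩ := h₁
    obtain ⟨r₂, h3, h4⟩ := h₂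
    refine ⟨r₁ + r₂, ?_, ?_⟩
    · rw [BL1_ev_add, BL1_ev_add, add_mul, h1, h3]
    · rw [map_add, map_add, h2, h4, add_mul]
  | monomial i a =>
    have key : ∃ r : Polynomial A, BL1_y k p ^ i * BL1_ev k p s = BL1_ev k p r ∧
        BL1_res π p r = Polynomial.X ^ i * BL1_res π p s := by
      clear a
      induction i with
      | zero => exact ⟨s, by rw [pow_zero, one_mul], by rw [pow_zero, one_mul]⟩
      | succ i ih =>
        obtain ⟨r, h1, h2⟩ := ih
        obtain ⟨r', h3, h4⟩ := BL1_y_mul hπ hg p r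
        refine ⟨r', ?_, ?_⟩
        · rw [pow_succ', mul_assoc, h1, h3]
        · rw [h4, h2, pow_succ', mul_assoc]
    obtain ⟨r, h1, h2⟩ := key
    refine ⟨Polynomial.C a * r, ?_, ?_⟩
    · rw [BL1_ev_monomial, mul_assoc, h1, BL1_ev_C_mul]
    · rw [map_mul, h2, ← mul_assoc]
      congr 1
      rw [BL1_res, Polynomial.coe_mapRingHom, Polynomial.map_monomial, Polynomial.map_C,
        Polynomial.C_mul_X_pow_eq_monomial]

/-- the blow-up -/
noncomputable def BL1_alg (hπ : IsQC k π) (hg : Gap k 2 A) (p : A) : Subalgebra k[X] (Fr k A) where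
  carrier := {d | ∃ q : Polynomial A, d = BL1_ev k p q}
  mul_mem' := by
    rintro _ _ ⟨q, rfl⟩ ⟨s, rfl⟩
    obtain ⟨r, hr, _⟩ := BL1_mul hπ hg p q s
    exact ⟨r, hr⟩
  add_mem' := by
    rintro _ _ ⟨q, rfl⟩ ⟨s, rfl⟩
    exact ⟨q + s, (BL1_ev_add p q s).symm⟩
  algebraMap_mem' r := ⟨Polynomial.C (algebraMap k[X] A r), by
    rw [BL1_ev_C, AlgHom.commutes]⟩

/-- the residue map of the blow-up -/
noncomputable def BL1_pi (hπ : IsQC k π) (hg : Gap k 2 A) (p : A)
    (hp : π p ∈ nonZeroDivisors S) :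
    BL1_alg hπ hg p →+* Polynomial (S ⧸ Ideal.span {π p}) where
  toFun x := BL1_res π p x.2.choose
  map_one' := by
    have h1 : BL1_ev k p (Exists.choose (1 : BL1_alg hπ hg p).2) =
        BL1_ev k p (Polynomial.C (1 : A)) := by
      rw [← Exists.choose_spec (1 : BL1_alg hπ hg p).2, BL1_ev_C, map_one]
      rfl
    rw [BL1_res_eq hπ p hp h1, Polynomial.C_1, map_one]
  map_mul' x y := by
    obtain ⟨r, hr, hr'⟩ := BL1_mul hπ hg p x.2.choose y.2.choose
    have h1 : BL1_ev k p (Exists.choose (x * y).2) = BL1_ev k p r := by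
      rw [← Exists.choose_spec (x * y).2, ← hr, ← Exists.choose_spec x.2,
        ← Exists.choose_spec y.2]
      rfl
    rw [BL1_res_eq hπ p hp h1, hr']
  map_zero' := by
    have h1 : BL1_ev k p (Exists.choose (0 : BL1_alg hπ hg p).2) =
        BL1_ev k p (Polynomial.C (0 : A)) := by
      rw [← Exists.choose_spec (0 : BL1_alg hπ hg p).2, BL1_ev_C, map_zero]
      rfl
    rw [BL1_res_eq hπ p hp h1, Polynomial.C_0, map_zero]
  map_add' x y := by
    have h1 : BL1_ev k p (Exists.choose (x + y).2) =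
        BL1_ev k p (x.2.choose + y.2.choose) := by
      rw [← Exists.choose_spec (x + y).2, BL1_ev_add, ← Exists.choose_spec x.2,
        ← Exists.choose_spec y.2]
      rfl
    rw [BL1_res_eq hπ p hp h1, map_add]

theorem BL1_pi_eq (hπ : IsQC k π) (hg : Gap k 2 A) (p : A)
    (hp : π p ∈ nonZeroDivisors S) (x : BL1_alg hπ hg p) (q : Polynomial A)
    (h : (x : Fr k A) = BL1_ev k p q) : BL1_pi hπ hg p hp x = BL1_res π p q := by
  have h1 : BL1_ev k p (Exists.choose x.2) = BL1_ev k p q := by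
    rw [← Exists.choose_spec x.2, h]
  exact BL1_res_eq hπ p hp h1

/-- the kernel of the residue map -/
theorem BL1_ker (hπ : IsQC k π) (p : A) (q : Polynomial A) (h : BL1_res π p q = 0) :
    ∃ r : Polynomial A, BL1_ev k p q = tX k • BL1_ev k p r := by
  have h1 : ∀ i, ∃ b c : A, q.coeff i = b * p + tX k • c := by
    intro i
    have h2 := congrArg (fun P => Polynomial.coeff P i) h
    simp only [BL1_res, Polynomial.coe_mapRingHom, Polynomial.coeff_map,
      Polynomial.coeff_zero] at h2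
    have h3 : π (q.coeff i) ∈ Ideal.span {π p} := Ideal.Quotient.eq_zero_iff_mem.1 h2
    obtain ⟨s, hs⟩ := Ideal.mem_span_singleton'.1 h3
    obtain ⟨b, rfl⟩ := hπ.surj s
    obtain ⟨c, hc⟩ := hπ.ker (q.coeff i - b * p) (by rw [map_sub, map_mul, hs, sub_self])
    exact ⟨b, c, by rw [← hc]; abel⟩
  choose b c hbc using h1
  have key : ∀ n : ℕ, ∃ r : Polynomial A,
      ∑ i ∈ Finset.range n, (Fr.ι (q.coeff i) : Fr k A) * BL1_y k p ^ i =
        tX k • BL1_ev k p r := by
    intro n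
    induction n with
    | zero =>
      refine ⟨0, ?_⟩
      have h2 : BL1_ev k p (0 : Polynomial A) = 0 := Polynomial.eval₂_zero _ _
      rw [h2, smul_zero, Finset.range_zero, Finset.sum_empty]
    | succ n ih =>
      obtain ⟨r, hr⟩ := ih
      refine ⟨r + (Polynomial.monomial (n + 1) (b n) + Polynomial.monomial n (c n)), ?_⟩
      rw [Finset.sum_range_succ, hr, BL1_ev_add, smul_add, BL1_ev_add, BL1_ev_monomial,
        BL1_ev_monomial, hbc n, map_add, map_mul, map_smul, ← BL1_X_y (k := k) p, smul_add,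
        add_mul, mul_smul_comm, smul_mul_assoc, smul_mul_assoc, pow_succ', mul_assoc]
  obtain ⟨r, hr⟩ := key (q.natDegree + 1)
  exact ⟨r, by rw [BL1_ev_eq, hr]⟩

/-- BL1: principal blow-up `A[X^{-1} p]` -/
theorem exists_bl1 (hπ : IsQC k π) (hg : Gap k 2 A) (p : A) (hp : π p ∈ nonZeroDivisors S) :
    ∃ (A' : Type) (_ : Ring A') (_ : Algebra k[X] A')
      (π' : A' →+* Polynomial (S ⧸ Ideal.span {π p})) (c : A →ₐ[k[X]] A') (y : A')
      (emb : A' →ₐ[k[X]] Fr k A),
      IsQC k π' ∧ (∀ a, π' (c a) = Polynomial.C (Ideal.Quotient.mk _ (π a))) ∧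
      tX k • y = c p ∧ π' y = Polynomial.X ∧
      Function.Injective emb ∧ (∀ a, emb (c a) = Fr.ι a) ∧
      (∀ x : A', ∃ (n : ℕ) (a : ℕ → A), x = ∑ i ∈ Finset.range n, c (a i) * y ^ i) := by
  have hc : ∀ a : A, (Fr.ι a : Fr k A) ∈ BL1_alg hπ hg p := fun a =>
    ⟨Polynomial.C a, (BL1_ev_C p a).symm⟩
  have hy : BL1_y k p ∈ BL1_alg hπ hg p := ⟨Polynomial.X, by
    rw [BL1_ev, Polynomial.eval₂_X]⟩
  let c : A →ₐ[k[X]] BL1_alg hπ hg p := (Fr.ι : A →ₐ[k[X]] Fr k A).codRestrict _ hc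
  have hcv : ∀ a, ((c a : BL1_alg hπ hg p) : Fr k A) = Fr.ι a := fun a => rfl
  refine ⟨BL1_alg hπ hg p, inferInstance, inferInstance, BL1_pi hπ hg p hp, c, ⟨_, hy⟩,
    (BL1_alg hπ hg p).val, ⟨?_, ?_, ?_, ?_, ?_⟩, ?_, ?_, ?_, ?_, ?_, ?_⟩
  · intro x hx
    apply Subtype.ext
    apply BL1_smul_eq_zero (k := k)
    exact congrArg Subtype.val hx
  · intro P
    obtain ⟨q, hq⟩ := Polynomial.map_surjective
      ((Ideal.Quotient.mk (Ideal.span {π p})).comp π)
      (Ideal.Quotient.mk_surjective.comp hπ.surj) P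
    refine ⟨⟨BL1_ev k p q, q, rfl⟩, ?_⟩
    rw [BL1_pi_eq hπ hg p hp _ q rfl]
    exact hq
  · intro x hx
    obtain ⟨q, hq⟩ := x.2
    rw [BL1_pi_eq hπ hg p hp x q hq] at hx
    obtain ⟨r, hr⟩ := BL1_ker (k := k) hπ p q hx
    refine ⟨⟨BL1_ev k p r, r, rfl⟩, ?_⟩
    apply Subtype.ext
    rw [hq, hr]
    rfl
  · intro x
    obtain ⟨q, hq⟩ := x.2
    have h1 : ((tX k • x : BL1_alg hπ hg p) : Fr k A) =
        BL1_ev k p (Polynomial.C (algebraMap k[X] A (tX k)) * q) := by
      rw [BL1_ev_C_mul, AlgHom.commutes, ← Algebra.smul_def, ← hq]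
      rfl
    rw [BL1_pi_eq hπ hg p hp _ _ h1, map_mul]
    have h2 : π (algebraMap k[X] A (tX k)) = 0 := by
      rw [Algebra.algebraMap_eq_smul_one, hπ.kerX]
    have h3 : BL1_res π p (Polynomial.C (algebraMap k[X] A (tX k))) = 0 := by
      rw [BL1_res, Polynomial.coe_mapRingHom, Polynomial.map_C, RingHom.comp_apply, h2, map_zero,
        map_zero]
    rw [h3, zero_mul]
  · intro r
    have h1 : ((algebraMap k[X] (BL1_alg hπ hg p) (Polynomial.C r) : BL1_alg hπ hg p) : Fr k A) =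
        BL1_ev k p (Polynomial.C (algebraMap k[X] A (Polynomial.C r))) := by
      rw [BL1_ev_C, AlgHom.commutes]
      rfl
    rw [BL1_pi_eq hπ hg p hp _ _ h1, BL1_res, Polynomial.coe_mapRingHom, Polynomial.map_C,
      RingHom.comp_apply, hπ.scal]
    rfl
  · intro a
    rw [BL1_pi_eq hπ hg p hp _ (Polynomial.C a) (by rw [BL1_ev_C, hcv]), BL1_res,
      Polynomial.coe_mapRingHom, Polynomial.map_C, RingHom.comp_apply]
  · apply Subtype.ext
    rw [hcv]
    exact BL1_X_y p
  · rw [BL1_pi_eq hπ hg p hp _ Polynomial.X (by rw [BL1_ev, Polynomial.eval₂_X]), BL1_res,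
      Polynomial.coe_mapRingHom, Polynomial.map_X]
  · exact Subtype.val_injective
  · intro a
    exact hcv a
  · intro x
    obtain ⟨q, hq⟩ := x.2
    refine ⟨q.natDegree + 1, q.coeff, ?_⟩
    apply Subtype.ext
    rw [hq, BL1_ev_eq]
    simp only [AddSubmonoidClass.coe_finsetSum, MulMemClass.coe_mul, SubmonoidClass.coe_pow, hcv]

end C74
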