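import Pool.Agent.MP_35f30a_al.C74.BL1

/-!
ROW BLT1.  Blow-up along a finite regular family.  Blueprint section 3 (BLt).

`BLs A P` is the subalgebra of `A[1/X]` generated by `A` and `X^{-1} p`, `p ∈ P`.
Induction on the finite set `F`: `F = ∅`: `BLs = range ι ≅ A`, `MvPolynomial ∅ (S/0) ≅ S`.
Step `F → insert x F`: `A_F := BLs (p '' F)` is QC with residue `S_F := MvPolynomial F (S/(p_F))`; it has gap `2`
(`Gap k 4 A`: generators `a`, `X^{-1} p_y`; `[X^{-1} p_y, X^{-1} p_z] = X^{-2} [p_y,p_z] ∈ X^2 A`; the set of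
`u` with `[u, v] ∈ X^2 A_F` for all generators `v` is a subalgebra).  The residue of `p_x` in `S_F` is the
constant `[π p_x]`, a nonzerodivisor in `MvPolynomial F (S/(p_F))` by `hreg`.  Apply `exists_bl1` to `A_F`:
`A''` with `emb : A'' → Fr A_F ⊆ Fr A`, whose image is `BLs (p '' insert x F)`; residue
`Polynomial (S_F ⧸ ([p_x])) ≅ MvPolynomial (insert x F) (S/(p_{insert x F}))`.
-/

set_option autoImplicit false

open scoped TensorProduct Polynomial

namespace C74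

/-- the subalgebra of `A[1/X]` generated by `A` and `X^{-1} p`, `p ∈ P` -/
noncomputable def BLs (k : Type) [Field k] {A : Type} [Ring A] [Algebra k[X] A] (P : Set A) :
    Subalgebra k[X] (Fr k A) :=
  Algebra.adjoin k[X] (Set.range (Fr.ι : A → Fr k A) ∪
    {d | ∃ p ∈ P, d = (Fr.tz (-1) : Fr k A) * Fr.ι p})

lemma ι_mem_BLs {k : Type} [Field k] {A : Type} [Ring A] [Algebra k[X] A] (P : Set A) (a : A) :
    (Fr.ι a : Fr k A) ∈ BLs k P :=
  Algebra.subset_adjoin (Or.inl ⟨a, rfl⟩)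

lemma y_mem_BLs {k : Type} [Field k] {A : Type} [Ring A] [Algebra k[X] A] (P : Set A) {p : A}
    (hp : p ∈ P) : (Fr.tz (-1) * Fr.ι p : Fr k A) ∈ BLs k P :=
  Algebra.subset_adjoin (Or.inr ⟨p, hp, rfl⟩)

variable {k : Type} [Field k]
variable {A : Type} [Ring A] [Algebra k[X] A] {S : Type} [CommRing S] [Algebra k S] {π : A →+* S}

/-! ### auxiliary lemmas -/

lemma BLT1_smul (n : ℕ) (d : Fr k A) : (tX k) ^ n • d = Fr.tz (n : ℤ) * d := by
  rw [Fr.tz_nat, Algebra.smul_def]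

lemma BLT1_smul_one (d : Fr k A) : tX k • d = Fr.tz 1 * d := by
  rw [Fr.tz_one, Algebra.smul_def]

/-- `X^a ι u` and `X^b ι v` commute up to `X^(a+b) ι [u,v]` -/
lemma BLT1_comm (a b : ℤ) (u v : A) :
    (Fr.tz a * Fr.ι u) * (Fr.tz b * Fr.ι v) - (Fr.tz b * Fr.ι v) * (Fr.tz a * Fr.ι u) =
      (Fr.tz (a + b) * Fr.ι (u * v - v * u) : Fr k A) := by
  have h1 : (Fr.tz a * Fr.ι u) * (Fr.tz b * Fr.ι v) = (Fr.tz (a + b) * Fr.ι (u * v) : Fr k A) := by
    rw [Fr.tz_add, map_mul, mul_assoc, ← mul_assoc (Fr.ι u), ← Fr.tz_comm b (Fr.ι u)]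
    simp only [mul_assoc]
  have h2 : (Fr.tz b * Fr.ι v) * (Fr.tz a * Fr.ι u) = (Fr.tz (a + b) * Fr.ι (v * u) : Fr k A) := by
    rw [add_comm, Fr.tz_add, map_mul, mul_assoc, ← mul_assoc (Fr.ι v), ← Fr.tz_comm a (Fr.ι v)]
    simp only [mul_assoc]
  rw [h1, h2, map_sub, mul_sub]

/-- the generators have commutators in `X^2 A` -/
lemma BLT1_gen (hg : Gap k 4 A) (P : Set A) (g h : Fr k A)
    (hg1 : g ∈ (Set.range (Fr.ι : A → Fr k A) ∪ {d | ∃ p ∈ P, d = (Fr.tz (-1) : Fr k A) * Fr.ι p}))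
    (hh1 : h ∈ (Set.range (Fr.ι : A → Fr k A) ∪ {d | ∃ p ∈ P, d = (Fr.tz (-1) : Fr k A) * Fr.ι p})) :
    ∃ c ∈ BLs k P, g * h - h * g = (tX k) ^ 2 • c := by
  have hrep : ∀ g : Fr k A, g ∈ (Set.range (Fr.ι : A → Fr k A) ∪
      {d | ∃ p ∈ P, d = (Fr.tz (-1) : Fr k A) * Fr.ι p}) →
      ∃ (a : ℤ) (u : A), (a = 0 ∨ a = -1) ∧ g = Fr.tz a * Fr.ι u := by
    rintro g (⟨u, rfl⟩ | ⟨u, -, rfl⟩)
    · exact ⟨0, u, Or.inl rfl, by rw [Fr.tz_zero, one_mul]⟩
    · exact ⟨-1, u, Or.inr rfl, rfl⟩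
  obtain ⟨a, u, ha, rfl⟩ := hrep g hg1
  obtain ⟨b, v, hb, rfl⟩ := hrep h hh1
  obtain ⟨c, hc⟩ := hg u v
  rw [BLT1_comm, hc, map_smul]
  have hn : ∃ n : ℕ, a + b + 4 = 2 + n := by
    rcases ha with rfl | rfl <;> rcases hb with rfl | rfl
    · exact ⟨2, by norm_num⟩
    · exact ⟨1, by norm_num⟩
    · exact ⟨1, by norm_num⟩
    · exact ⟨0, by norm_num⟩
  obtain ⟨n, hn⟩ := hn
  refine ⟨(tX k) ^ n • Fr.ι c, Subalgebra.smul_mem _ (ι_mem_BLs P c) _, ?_⟩
  rw [BLT1_smul, BLT1_smul, BLT1_smul, ← mul_assoc, ← mul_assoc, ← Fr.tz_add, ← Fr.tz_add]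
  congr 2

lemma BLT1_gap (hg : Gap k 4 A) (P : Set A) : Gap k 2 (BLs k P) := by
  have h1 : ∀ a ∈ BLs k P, ∀ b ∈ BLs k P, ∃ c ∈ BLs k P, a * b - b * a = (tX k) ^ 2 • c := by
    intro a ha b hb
    induction ha using Algebra.adjoin_induction with
    | mem g hg1 =>
      induction hb using Algebra.adjoin_induction with
      | mem h hh1 => exact BLT1_gen hg P g h hg1 hh1
      | algebraMap r =>
        exact ⟨0, zero_mem _, by rw [Algebra.commutes, sub_self, smul_zero]⟩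
      | add x y hx hy ihx ihy =>
        obtain ⟨c, hc, hc'⟩ := ihx
        obtain ⟨d, hd, hd'⟩ := ihy
        exact ⟨c + d, add_mem hc hd, by rw [smul_add, ← hc', ← hd']; noncomm_ring⟩
      | mul x y hx hy ihx ihy =>
        obtain ⟨c, hc, hc'⟩ := ihx
        obtain ⟨d, hd, hd'⟩ := ihy
        refine ⟨c * y + x * d, add_mem (mul_mem hc hy) (mul_mem hx hd), ?_⟩
        rw [smul_add, ← smul_mul_assoc, ← mul_smul_comm, ← hc', ← hd']
        noncomm_ring
    | algebraMap r =>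
      exact ⟨0, zero_mem _, by rw [Algebra.commutes, sub_self, smul_zero]⟩
    | add x y hx hy ihx ihy =>
      obtain ⟨c, hc, hc'⟩ := ihx
      obtain ⟨d, hd, hd'⟩ := ihy
      exact ⟨c + d, add_mem hc hd, by rw [smul_add, ← hc', ← hd']; noncomm_ring⟩
    | mul x y hx hy ihx ihy =>
      obtain ⟨c, hc, hc'⟩ := ihx
      obtain ⟨d, hd, hd'⟩ := ihy
      refine ⟨c * y + x * d, add_mem (mul_mem hc hy) (mul_mem hx hd), ?_⟩
      rw [smul_add, ← smul_mul_assoc, ← mul_smul_comm, ← hc', ← hd']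
      noncomm_ring
  intro a b
  obtain ⟨c, hc, hc'⟩ := h1 a a.2 b b.2
  exact ⟨⟨c, hc⟩, Subtype.ext hc'⟩

/-- the map `Fr (subalgebra) → Fr A` -/
noncomputable def BLT1_j (U : Subalgebra k[X] (Fr k A)) : Fr k U →+* Fr k A :=
  Fr.lift (U.val : U →+* Fr k A) Fr.isUnit_X

lemma BLT1_j_ι (U : Subalgebra k[X] (Fr k A)) (a : U) : BLT1_j U (Fr.ι a) = (a : Fr k A) :=
  Fr.lift_ι _ _ a

lemma BLT1_j_algebraMap (U : Subalgebra k[X] (Fr k A)) (r : k[X]) :
    BLT1_j U (algebraMap k[X] (Fr k U) r) = algebraMap k[X] (Fr k A) r := by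
  rw [← AlgHom.commutes (Fr.ι : U →ₐ[k[X]] Fr k U), BLT1_j_ι]
  rfl

lemma BLT1_j_inj (U : Subalgebra k[X] (Fr k A)) : Function.Injective (BLT1_j U) := by
  rw [injective_iff_map_eq_zero]
  intro d hd
  obtain ⟨a, n, h⟩ := Fr.exists_mk d
  have h1 : (a : Fr k A) = 0 := by
    rw [← BLT1_j_ι, ← h, Algebra.smul_def, map_mul, hd, mul_zero]
  have h2 : a = 0 := Subtype.ext h1
  rw [h2, map_zero, Algebra.smul_def, map_pow] at h
  exact ((Fr.isUnit_X (k := k) (A := U)).pow n).mul_left_cancel (by rw [h, mul_zero])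

lemma BLT1_reg (U : Subalgebra k[X] (Fr k A)) (a : U) (h : tX k • a = 0) : a = 0 := by
  apply Subtype.ext
  have h1 : tX k • (a : Fr k A) = 0 := congrArg Subtype.val h
  rw [Algebra.smul_def] at h1
  have h2 : (a : Fr k A) = 0 :=
    (Fr.isUnit_X (k := k) (A := A)).mul_left_cancel (by rw [h1, mul_zero])
  rw [h2]
  rfl

/-- `T` is the polynomial ring over `S / I` in the variables `v z`, `z ∈ F` -/
structure BLT1_Univ {B : Type} (F : Set B) (I : Ideal S) (T : Type) [CommRing T] (a : S →+* T)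
    (v : F → T) : Prop where
  zero : ∀ s ∈ I, a s = 0
  ext : ∀ (R : Type) [CommRing R] (f g : T →+* R), (∀ s, f (a s) = g (a s)) →
    (∀ z, f (v z) = g (v z)) → f = g
  lift : ∀ (R : Type) [CommRing R] (b : S →+* R) (w : F → R), (∀ s ∈ I, b s = 0) →
    ∃ f : T →+* R, (∀ s, f (a s) = b s) ∧ ∀ z, f (v z) = w z

theorem BLT1_univ_mv {B : Type} (F : Set B) (I : Ideal S) :
    BLT1_Univ F I (MvPolynomial F (S ⧸ I)) (MvPolynomial.C.comp (Ideal.Quotient.mk I))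
      MvPolynomial.X where
  zero s hs := by
    rw [RingHom.comp_apply, Ideal.Quotient.eq_zero_iff_mem.2 hs, map_zero]
  ext R _ f g h1 h2 := by
    apply MvPolynomial.ringHom_ext'
    · apply Ideal.Quotient.ringHom_ext
      apply RingHom.ext
      exact h1
    · exact h2
  lift R _ b w hb := by
    refine ⟨MvPolynomial.eval₂Hom (Ideal.Quotient.lift I b hb) w, ?_, ?_⟩
    · intro s
      rw [RingHom.comp_apply, MvPolynomial.eval₂Hom_C, Ideal.Quotient.lift_mk]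
    · intro z
      rw [MvPolynomial.eval₂Hom_X']

theorem BLT1_univ_self {B : Type} (F : Set B) (hF : F = ∅) (I : Ideal S) (hI : I = ⊥) (v : F → S) :
    BLT1_Univ F I S (RingHom.id S) v where
  zero s hs := by
    rw [hI] at hs
    exact hs
  ext R _ f g h1 h2 := RingHom.ext h1
  lift R _ b w hb := by
    have : IsEmpty F := by rw [hF]; infer_instance
    exact ⟨b, fun _ => rfl, fun z => isEmptyElim z⟩

theorem BLT1_univ_iso {B : Type} {F : Set B} {I : Ideal S} {T T' : Type} [CommRing T] [CommRing T']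
    {a : S →+* T} {v : F → T} {a' : S →+* T'} {v' : F → T'} (h : BLT1_Univ F I T a v)
    (h' : BLT1_Univ F I T' a' v') : ∃ m : T →+* T', Function.Bijective m ∧
      (∀ s, m (a s) = a' s) ∧ ∀ z, m (v z) = v' z := by
  obtain ⟨f, hf1, hf2⟩ := h.lift T' a' v' h'.zero
  obtain ⟨g, hg1, hg2⟩ := h'.lift T a v h.zero
  have e1 : g.comp f = RingHom.id T := by
    apply h.ext
    · intro s
      rw [RingHom.comp_apply, hf1, hg1, RingHom.id_apply]
    · intro z
      rw [RingHom.comp_apply, hf2, hg2, RingHom.id_apply]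
  have e2 : f.comp g = RingHom.id T' := by
    apply h'.ext
    · intro s
      rw [RingHom.comp_apply, hg1, hf1, RingHom.id_apply]
    · intro z
      rw [RingHom.comp_apply, hg2, hf2, RingHom.id_apply]
  refine ⟨f, ⟨?_, ?_⟩, hf1, hf2⟩
  · intro x y hxy
    have h3 := congrArg g hxy
    rw [← RingHom.comp_apply, ← RingHom.comp_apply, e1] at h3
    exact h3
  · intro y
    exact ⟨g y, by rw [← RingHom.comp_apply, e2]; rfl⟩

open Classical in
/-- the variables of the blow-up -/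
noncomputable def BLT1_v {B : Type} (F G : Set B) (x : B) (hGF : ∀ z ∈ G, z ≠ x → z ∈ F) {T : Type}
    [CommRing T] (K : Ideal T) (v : F → T) (z : G) : Polynomial (T ⧸ K) :=
  if h : z.1 = x then Polynomial.X else
    Polynomial.C (Ideal.Quotient.mk K (v ⟨z.1, hGF z.1 z.2 h⟩))

theorem BLT1_univ_step {B : Type} (F G : Set B) (x : B) (hFG : F ⊆ G) (hx : x ∈ G)
    (hGF : ∀ z ∈ G, z ≠ x → z ∈ F) (hxF : x ∉ F) (I J : Ideal S) (hIJ : I ≤ J) (s0 : S)
    (hs0 : s0 ∈ J) (hJ : J ≤ I ⊔ Ideal.span {s0}) {T : Type} [CommRing T] (a : S →+* T)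
    (v : F → T) (h : BLT1_Univ F I T a v) (K : Ideal T) (hK : K = Ideal.span {a s0}) :
    BLT1_Univ G J (Polynomial (T ⧸ K)) (Polynomial.C.comp ((Ideal.Quotient.mk K).comp a))
      (BLT1_v F G x hGF K v) where
  zero := by
    have h1 : I ⊔ Ideal.span {s0} ≤
        RingHom.ker (Polynomial.C.comp ((Ideal.Quotient.mk K).comp a)) := by
      rw [sup_le_iff]
      constructor
      · intro s hs
        rw [RingHom.mem_ker, RingHom.comp_apply, RingHom.comp_apply, h.zero s hs, map_zero,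
          map_zero]
      · rw [Ideal.span_singleton_le_iff_mem, RingHom.mem_ker, RingHom.comp_apply,
          RingHom.comp_apply]
        have h2 : Ideal.Quotient.mk K (a s0) = 0 := by
          rw [Ideal.Quotient.eq_zero_iff_mem, hK]
          exact Ideal.subset_span (Set.mem_singleton _)
        rw [h2, map_zero]
    exact fun s hs => h1 (hJ hs)
  ext R _ f g h1 h2 := by
    apply Polynomial.ringHom_ext'
    · apply Ideal.Quotient.ringHom_ext
      apply h.ext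
      · exact h1
      · intro z
        have hz : z.1 ≠ x := fun h => hxF (h ▸ z.2)
        have h3 := h2 ⟨z.1, hFG z.2⟩
        simp only [BLT1_v, dif_neg hz] at h3
        exact h3
    · have h3 := h2 ⟨x, hx⟩
      simp only [BLT1_v, dif_pos] at h3
      exact h3
  lift R _ b w hb := by
    obtain ⟨f, hf1, hf2⟩ := h.lift R b (fun z => w ⟨z.1, hFG z.2⟩) (fun s hs => hb s (hIJ hs))
    have hfK : ∀ t ∈ K, f t = 0 := by
      intro t ht
      rw [hK, Ideal.mem_span_singleton] at ht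
      obtain ⟨c, rfl⟩ := ht
      rw [map_mul, hf1, hb s0 hs0, zero_mul]
    refine ⟨Polynomial.eval₂RingHom (Ideal.Quotient.lift K f hfK) (w ⟨x, hx⟩), ?_, ?_⟩
    · intro s
      rw [RingHom.comp_apply, RingHom.comp_apply, Polynomial.coe_eval₂RingHom, Polynomial.eval₂_C,
        Ideal.Quotient.lift_mk, hf1]
    · intro z
      by_cases hz : z.1 = x
      · simp only [BLT1_v, dif_pos hz]
        rw [Polynomial.coe_eval₂RingHom, Polynomial.eval₂_X]
        congr 1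
        exact Subtype.ext hz.symm
      · simp only [BLT1_v, dif_neg hz]
        rw [Polynomial.coe_eval₂RingHom, Polynomial.eval₂_C, Ideal.Quotient.lift_mk, hf2]

lemma BLT1_nzd {B : Type} (F : Set B) {R : Type} [CommRing R] (r : R) (hr : r ∈ nonZeroDivisors R) :
    (MvPolynomial.C r : MvPolynomial F R) ∈ nonZeroDivisors (MvPolynomial F R) := by
  rw [mem_nonZeroDivisors_iff_right]
  intro f hf
  ext m
  have h1 := congrArg (MvPolynomial.coeff m) hf
  rw [mul_comm, MvPolynomial.coeff_C_mul, MvPolynomial.coeff_zero, mul_comm] at h1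
  rw [MvPolynomial.coeff_zero]
  exact (mem_nonZeroDivisors_iff_right.1 hr) _ h1

lemma BLT1_univ_nzd {B : Type} {F : Set B} {I : Ideal S} {T : Type} [CommRing T]
    {a : S →+* T} {v : F → T} (h : BLT1_Univ F I T a v) (s0 : S)
    (hreg : ∀ s : S, s * s0 ∈ I → s ∈ I) : a s0 ∈ nonZeroDivisors T := by
  obtain ⟨m, hm, hm1, -⟩ := BLT1_univ_iso h (BLT1_univ_mv F I)
  have h1 : Ideal.Quotient.mk I s0 ∈ nonZeroDivisors (S ⧸ I) := by
    rw [mem_nonZeroDivisors_iff_right]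
    intro s hs
    obtain ⟨s, rfl⟩ := Ideal.Quotient.mk_surjective s
    rw [← map_mul, Ideal.Quotient.eq_zero_iff_mem] at hs
    rw [Ideal.Quotient.eq_zero_iff_mem]
    exact hreg s hs
  have h2 := BLT1_nzd F _ h1
  rw [mem_nonZeroDivisors_iff_right] at h2 ⊢
  intro t ht
  apply hm.1
  rw [map_zero]
  apply h2
  have h3 := congrArg m ht
  rw [map_mul, hm1, map_zero] at h3
  exact h3

/-- change of the residue ring -/
theorem BLT1_transfer {U : Subalgebra k[X] (Fr k A)} {T T' : Type} [CommRing T] [Algebra k T]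
    [CommRing T'] [Algebra k T'] {ρ : U →+* T} (h : IsQC k ρ) (m : T →+* T')
    (hm : Function.Bijective m)
    (hs : ∀ c : k, m (ρ (algebraMap k[X] U (Polynomial.C c))) = algebraMap k T' c) :
    IsQC k (m.comp ρ) where
  reg := h.reg
  surj := hm.2.comp h.surj
  ker a ha := h.ker a (hm.1 (by rw [map_zero]; exact ha))
  kerX b := by rw [RingHom.comp_apply, h.kerX, map_zero]
  scal := hs

/-- the blow-up of `BLs k P` along one more element -/
theorem BLT1_blow {T : Type} [CommRing T] [Algebra k T] (hg : Gap k 4 A) (P Q : Set A) (p0 : A)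
    (hPQ : Q = insert p0 P) {ρ : BLs k P →+* T} (hρ : IsQC k ρ)
    (hnz : ρ ⟨Fr.ι p0, ι_mem_BLs _ _⟩ ∈ nonZeroDivisors T) (hle : BLs k P ≤ BLs k Q)
    (hp0 : p0 ∈ Q) :
    ∃ (ρ' : BLs k Q →+* Polynomial (T ⧸ Ideal.span {ρ ⟨Fr.ι p0, ι_mem_BLs _ _⟩})),
      IsQC k ρ' ∧ (∀ (a : Fr k A) (ha : a ∈ BLs k P),
        ρ' ⟨a, hle ha⟩ = Polynomial.C (Ideal.Quotient.mk _ (ρ ⟨a, ha⟩))) ∧
      ρ' ⟨Fr.tz (-1) * Fr.ι p0, y_mem_BLs _ hp0⟩ = Polynomial.X := by
  obtain ⟨A', _, _, π', c, y, emb, hq', hc1, hy1, hy2, hemb, hemb2, hgen⟩ :=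
    exists_bl1 hρ (BLT1_gap hg P) _ hnz
  let g0 : A' →+* Fr k A := (BLT1_j (BLs k P)).comp emb.toRingHom
  have hg0c : ∀ a, g0 (c a) = (a : Fr k A) := by
    intro a
    have h1 : g0 (c a) = BLT1_j (BLs k P) (emb (c a)) := rfl
    rw [h1, hemb2, BLT1_j_ι]
  have hg0r : ∀ r, g0 (algebraMap k[X] A' r) = algebraMap k[X] (Fr k A) r := by
    intro r
    rw [← AlgHom.commutes c, hg0c]
    rfl
  let g : A' →ₐ[k[X]] Fr k A := { g0 with commutes' := hg0r }
  have hgc : ∀ a, g (c a) = (a : Fr k A) := hg0c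
  have hginj : Function.Injective g := (BLT1_j_inj _).comp hemb
  have hgy : g y = Fr.tz (-1) * Fr.ι p0 := by
    have h1 := congrArg g hy1
    rw [map_smul, hgc, BLT1_smul_one] at h1
    have h2 : g y = Fr.tz (-1) * (Fr.tz 1 * g y) := by
      rw [← mul_assoc, Fr.tz_neg_mul, one_mul]
    rw [h2, h1]
  have hr : g.range = BLs k Q := by
    apply le_antisymm
    · rintro _ ⟨a, rfl⟩
      obtain ⟨n, a', rfl⟩ := hgen a
      have h1 : g (∑ i ∈ Finset.range n, c (a' i) * y ^ i) ∈ BLs k Q := by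
        rw [map_sum]
        refine sum_mem fun i _ => ?_
        rw [map_mul, map_pow, hgc, hgy]
        exact mul_mem (hle (a' i).2) (pow_mem (y_mem_BLs _ hp0) i)
      exact h1
    · rw [BLs, Algebra.adjoin_le_iff]
      rintro d (⟨a, rfl⟩ | ⟨q, hq, rfl⟩)
      · exact ⟨c ⟨Fr.ι a, ι_mem_BLs _ _⟩, hgc _⟩
      · rw [hPQ] at hq
        rcases hq with rfl | hq
        · exact ⟨y, hgy⟩
        · exact ⟨c ⟨_, y_mem_BLs _ hq⟩, hgc _⟩
  let Θ : A' ≃ₐ[k[X]] BLs k Q :=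
    (AlgEquiv.ofInjective g hginj).trans (Subalgebra.equivOfEq _ _ hr)
  have hΘs : ∀ (d : BLs k Q) (a : A'), (d : Fr k A) = g a → Θ.symm d = a := by
    intro d a h
    rw [AlgEquiv.symm_apply_eq]
    exact Subtype.ext h
  have hX : XReg k (BLs k Q) := fun a h => BLT1_reg _ a h
  refine ⟨π'.comp Θ.symm.toAlgHom.toRingHom, ⟨hX, ?_, ?_, ?_, ?_⟩, ?_, ?_⟩
  · intro s
    obtain ⟨a, rfl⟩ := hq'.surj s
    refine ⟨Θ a, ?_⟩
    have h1 : (π'.comp Θ.symm.toAlgHom.toRingHom) (Θ a) = π' (Θ.symm (Θ a)) := rfl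
    rw [h1, AlgEquiv.symm_apply_apply]
  · intro a ha
    have h1 : π' (Θ.symm a) = 0 := ha
    obtain ⟨b, hb⟩ := hq'.ker _ h1
    refine ⟨Θ b, ?_⟩
    rw [← map_smul, ← hb, AlgEquiv.apply_symm_apply]
  · intro b
    have h1 : (π'.comp Θ.symm.toAlgHom.toRingHom) (tX k • b) = π' (Θ.symm (tX k • b)) := rfl
    rw [h1, map_smul, hq'.kerX]
  · intro c'
    have h1 : (π'.comp Θ.symm.toAlgHom.toRingHom) (algebraMap k[X] (BLs k Q) (Polynomial.C c')) =
      π' (Θ.symm (algebraMap k[X] (BLs k Q) (Polynomial.C c'))) := rfl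
    rw [h1, AlgEquiv.commutes, hq'.scal]
  · intro a ha
    have h1 : (π'.comp Θ.symm.toAlgHom.toRingHom) ⟨a, hle ha⟩ = π' (Θ.symm ⟨a, hle ha⟩) := rfl
    rw [h1, hΘs _ (c ⟨a, ha⟩) (hgc ⟨a, ha⟩).symm, hc1]
  · have h1 : (π'.comp Θ.symm.toAlgHom.toRingHom) ⟨Fr.tz (-1) * Fr.ι p0, y_mem_BLs _ hp0⟩ =
      π' (Θ.symm ⟨Fr.tz (-1) * Fr.ι p0, y_mem_BLs _ hp0⟩) := rfl
    rw [h1, hΘs _ y hgy.symm, hy2]

lemma BLT1_scal (P : Set A) (c : k) : algebraMap k[X] (BLs k P) (Polynomial.C c) =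
    ⟨Fr.ι (algebraMap k[X] A (Polynomial.C c)), ι_mem_BLs _ _⟩ := by
  apply Subtype.ext
  exact (AlgHom.commutes (Fr.ι : A →ₐ[k[X]] Fr k A) _).symm

/-- the statement for the family `F`, with `I` instead of the ideal generated by it -/
def BLT1_P {B : Type} (k : Type) [Field k] {A : Type} [Ring A] [Algebra k[X] A] {S : Type}
    [CommRing S] [Algebra k S] (π : A →+* S) (p : B → A) (F : Set B) (I : Ideal S) : Prop :=
  ∃ (T : Type) (_ : CommRing T) (_ : Algebra k T) (ρ : BLs k (p '' F) →+* T) (a : S →+* T)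
    (v : F → T), BLT1_Univ F I T a v ∧ IsQC k ρ ∧
      (∀ d, ρ ⟨Fr.ι d, ι_mem_BLs _ d⟩ = a (π d)) ∧
      (∀ (x : F), ρ ⟨Fr.tz (-1) * Fr.ι (p x),
        y_mem_BLs _ (Set.mem_image_of_mem p x.2)⟩ = v x)

/-- the case of the empty family -/
theorem BLT1_empty {B : Type} (hπ : IsQC k π) (p : B → A) (F : Set B) (hF : F = ∅) (I : Ideal S)
    (hI : I = ⊥) : BLT1_P k π p F I := by
  have hinj : Function.Injective (Fr.ι : A →ₐ[k[X]] Fr k A) := Fr.ι_injective hπ.reg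
  have hr : (Fr.ι : A →ₐ[k[X]] Fr k A).range = BLs k (p '' F) := by
    apply le_antisymm
    · rintro _ ⟨a, rfl⟩
      exact ι_mem_BLs _ a
    · rw [BLs, Algebra.adjoin_le_iff]
      rintro d (⟨a, rfl⟩ | ⟨q, hq, -⟩)
      · exact ⟨a, rfl⟩
      · rw [hF, Set.image_empty] at hq
        exact absurd hq (Set.notMem_empty q)
  let Θ : A ≃ₐ[k[X]] BLs k (p '' F) :=
    (AlgEquiv.ofInjective _ hinj).trans (Subalgebra.equivOfEq _ _ hr)
  have hΘs : ∀ a, Θ.symm ⟨Fr.ι a, ι_mem_BLs _ a⟩ = a := by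
    intro a
    rw [AlgEquiv.symm_apply_eq]
    rfl
  have hF' : IsEmpty F := by rw [hF]; infer_instance
  have hX : XReg k (BLs k (p '' F)) := fun a h => BLT1_reg _ a h
  have hc : ∀ a, (π.comp Θ.symm.toAlgHom.toRingHom) ⟨Fr.ι a, ι_mem_BLs _ a⟩ = π a := by
    intro a
    have h1 : (π.comp Θ.symm.toAlgHom.toRingHom) ⟨Fr.ι a, ι_mem_BLs _ a⟩ =
      π (Θ.symm ⟨Fr.ι a, ι_mem_BLs _ a⟩) := rfl
    rw [h1, hΘs]
  refine ⟨S, inferInstance, inferInstance, π.comp Θ.symm.toAlgHom.toRingHom, RingHom.id S,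
    fun z => isEmptyElim z, BLT1_univ_self F hF I hI _, ⟨hX, ?_, ?_, ?_, ?_⟩, hc,
    fun x => isEmptyElim x⟩
  · intro s
    obtain ⟨a, rfl⟩ := hπ.surj s
    refine ⟨Θ a, ?_⟩
    have h1 : (π.comp Θ.symm.toAlgHom.toRingHom) (Θ a) = π (Θ.symm (Θ a)) := rfl
    rw [h1, AlgEquiv.symm_apply_apply]
  · intro a ha
    have h1 : π (Θ.symm a) = 0 := ha
    obtain ⟨b, hb⟩ := hπ.ker _ h1
    refine ⟨Θ b, ?_⟩
    rw [← map_smul, ← hb, AlgEquiv.apply_symm_apply]
  · intro b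
    have h1 : (π.comp Θ.symm.toAlgHom.toRingHom) (tX k • b) = π (Θ.symm (tX k • b)) := rfl
    rw [h1, map_smul, hπ.kerX]
  · intro c
    rw [BLT1_scal, hc, hπ.scal]

/-- the induction step -/
theorem BLT1_step {B : Type} (hg : Gap k 4 A) (p : B → A) (F G : Set B) (x : B)
    (hFG : F ⊆ G) (hx : x ∈ G) (hGF : ∀ z ∈ G, z ≠ x → z ∈ F) (hxF : x ∉ F) (I J : Ideal S)
    (hreg : ∀ s : S, s * π (p x) ∈ I → s ∈ I) (hIJ : I ≤ J) (hxJ : π (p x) ∈ J)
    (hJI : J ≤ I ⊔ Ideal.span {π (p x)})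
    (ih : BLT1_P k π p F I) : BLT1_P k π p G J := by
  obtain ⟨T, _, _, πF, a, v, hU, hqF, hF1, hF2⟩ := ih
  have hnz : πF ⟨Fr.ι (p x), ι_mem_BLs _ _⟩ ∈ nonZeroDivisors T := by
    rw [hF1]
    exact BLT1_univ_nzd hU _ hreg
  have hle : BLs k (p '' F) ≤ BLs k (p '' G) := by
    apply Algebra.adjoin_mono
    rintro d (⟨a, rfl⟩ | ⟨q, hq, rfl⟩)
    · exact Or.inl ⟨a, rfl⟩
    · exact Or.inr ⟨q, Set.image_mono hFG hq, rfl⟩
  have hPQ : p '' G = insert (p x) (p '' F) := by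
    ext d
    constructor
    · rintro ⟨z, hz, rfl⟩
      by_cases hzx : z = x
      · exact Or.inl (by rw [hzx])
      · exact Or.inr ⟨z, hGF z hz hzx, rfl⟩
    · rintro (rfl | ⟨z, hz, rfl⟩)
      · exact ⟨x, hx, rfl⟩
      · exact ⟨z, hFG hz, rfl⟩
  obtain ⟨ρ, hρ, hρ1, hρ2⟩ := BLT1_blow hg (p '' F) (p '' G) (p x) hPQ hqF hnz hle
    (Set.mem_image_of_mem p hx)
  have hK : Ideal.span {πF ⟨Fr.ι (p x), ι_mem_BLs _ _⟩} = Ideal.span {a (π (p x))} := by
    rw [hF1]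
  refine ⟨_, inferInstance, inferInstance, ρ, _, _,
    BLT1_univ_step F G x hFG hx hGF hxF I J hIJ (π (p x)) hxJ hJI a v hU _ hK, hρ, ?_, ?_⟩
  · intro d
    rw [hρ1 (Fr.ι d) (ι_mem_BLs _ d), hF1 d]
    rfl
  · intro z
    by_cases hzx : z.1 = x
    · have h2 : (⟨Fr.tz (-1) * Fr.ι (p z), y_mem_BLs _ (Set.mem_image_of_mem p z.2)⟩ :
          BLs k (p '' G)) = ⟨Fr.tz (-1) * Fr.ι (p x), y_mem_BLs _ (Set.mem_image_of_mem p hx)⟩ := by
        apply Subtype.ext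
        change (Fr.tz (-1) * Fr.ι (p z.1) : Fr k A) = Fr.tz (-1) * Fr.ι (p x)
        rw [hzx]
      rw [h2, hρ2]
      simp only [BLT1_v, dif_pos hzx]
    · have hzF := hGF z.1 z.2 hzx
      have h3 := hρ1 _ (y_mem_BLs _ (Set.mem_image_of_mem p hzF))
      rw [h3]
      have h4 := hF2 ⟨z.1, hzF⟩
      simp only [BLT1_v, dif_neg hzx]
      rw [← h4]

/-- back to the polynomial ring -/
theorem BLT1_final {B : Type} (hπ : IsQC k π) (p : B → A) (F : Set B) (I : Ideal S)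
    (h : BLT1_P k π p F I) :
    ∃ (πF : BLs k (p '' F) →+* MvPolynomial F (S ⧸ I)),
      IsQC k πF ∧
      (∀ a, πF ⟨Fr.ι a, ι_mem_BLs _ a⟩ = MvPolynomial.C (Ideal.Quotient.mk _ (π a))) ∧
      (∀ (x : F), πF ⟨Fr.tz (-1) * Fr.ι (p x),
        y_mem_BLs _ (Set.mem_image_of_mem p x.2)⟩ = MvPolynomial.X x) := by
  obtain ⟨T, _, _, ρ, a, v, hU, hq, h1, h2⟩ := h
  obtain ⟨m, hm, hm1, hm2⟩ := BLT1_univ_iso hU (BLT1_univ_mv F I)
  refine ⟨m.comp ρ, BLT1_transfer hq m hm ?_, ?_, ?_⟩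
  · intro c
    rw [BLT1_scal, h1, hm1, hπ.scal]
    rfl
  · intro d
    rw [RingHom.comp_apply, h1, hm1]
    rfl
  · intro x
    rw [RingHom.comp_apply, h2, hm2]

/-- BLt, finite families -/
theorem exists_bltF {B : Type} (hπ : IsQC k π) (hg : Gap k 4 A) (p : B → A)
    (hreg : ∀ (F : Finset B) (x : B), x ∉ F → ∀ s : S,
      s * π (p x) ∈ Ideal.span ((fun y => π (p y)) '' (F : Set B)) →
        s ∈ Ideal.span ((fun y => π (p y)) '' (F : Set B))) (F : Finset B) :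
    ∃ (πF : BLs k (p '' (F : Set B)) →+*
        MvPolynomial (F : Set B) (S ⧸ Ideal.span ((fun y => π (p y)) '' (F : Set B)))),
      IsQC k πF ∧
      (∀ a, πF ⟨Fr.ι a, ι_mem_BLs _ a⟩ = MvPolynomial.C (Ideal.Quotient.mk _ (π a))) ∧
      (∀ (x : (F : Set B)), πF ⟨Fr.tz (-1) * Fr.ι (p x),
        y_mem_BLs _ (Set.mem_image_of_mem p x.2)⟩ = MvPolynomial.X x) := by
  classical
  apply BLT1_final hπ p (F : Set B) (Ideal.span ((fun y => π (p y)) '' (F : Set B)))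
  induction F using Finset.induction_on with
  | empty =>
    refine BLT1_empty hπ p _ Finset.coe_empty _ ?_
    rw [Finset.coe_empty, Set.image_empty, Ideal.span_empty]
  | insert x F hxF ih =>
    have hx : x ∈ ((insert x F : Finset B) : Set B) := by
      rw [Finset.coe_insert]
      exact Set.mem_insert _ _
    have hFG : (F : Set B) ⊆ ((insert x F : Finset B) : Set B) := by
      rw [Finset.coe_insert]
      exact Set.subset_insert _ _
    have hGF : ∀ z ∈ ((insert x F : Finset B) : Set B), z ≠ x → z ∈ (F : Set B) := by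
      intro z hz hzx
      rw [Finset.coe_insert] at hz
      exact Set.mem_of_mem_insert_of_ne hz hzx
    refine BLT1_step hg p (F : Set B) _ x hFG hx hGF hxF _ _ (hreg F x hxF)
      (Ideal.span_mono (Set.image_mono hFG)) (Ideal.subset_span ⟨x, hx, rfl⟩) ?_ ih
    rw [Ideal.span_le]
    rintro _ ⟨z, hz, rfl⟩
    by_cases hzx : z = x
    · rw [hzx]
      exact Ideal.mem_sup_right (Ideal.mem_span_singleton_self _)
    · exact Ideal.mem_sup_left (Ideal.subset_span ⟨z, hGF z hz hzx, rfl⟩)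

end C74
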