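import Pool.Agent.MP_35f30a_al.C74.BLT1

/-!
ROW BLT2.  Blow-up along a regular family, general case.  Blueprint section 3 (BLt).

`A' := BLs (Set.range p) = ⋃_F BLs (p '' F)` (directed).  `π'` on `BLs (p '' F)` := `πF` followed by
`MvPolynomial F (S/(p_F)) → MvPolynomial B (S/(p_B))`; compatible for `F ⊆ F'` since both sides are ring homs
agreeing on the generators.  Kernel: `x ∈ BLs (p '' F)`, `π' x = 0`: the (finitely many) coefficients of `πF x`
lie in `(p_B)/(p_F)`, hence in `(p_{F'})` for a finite `F' ⊇ F`; then `πF' x = 0` and `x ∈ X BLs (p '' F')`.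
`kerX`: `x = X b`, take `F` with `b ∈ BLs (p '' F)`.
Universal property: `f : A → E` (scale 1) induces `Fr A → Fr E` (`Fr.map`, or `Fr.lift`), it maps the
generators `ι a`, `X^{-1} ι p_x` to `ι (f a)`, `X^{-1} ι (f p_x) = ι (z x)`; so `A'` maps into
`ι E ≅ E` (`Fr.ι_injective`).
-/

set_option autoImplicit false

open scoped TensorProduct Polynomial

namespace C74

variable {k : Type} [Field k]
variable {A : Type} [Ring A] [Algebra k[X] A] {S : Type} [CommRing S] [Algebra k S] {π : A →+* S}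

theorem BLT2_mono {P Q : Set A} (h : P ⊆ Q) : BLs k P ≤ BLs k Q := by
  apply Algebra.adjoin_mono
  rintro d (hd | ⟨p, hp, rfl⟩)
  · exact Or.inl hd
  · exact Or.inr ⟨p, h hp, rfl⟩

/-- induction principle for `BLs` -/
theorem BLT2_ind {P : Set A} {q : ∀ d : Fr k A, d ∈ BLs k P → Prop}
    (h1 : ∀ a, q (Fr.ι a) (ι_mem_BLs P a))
    (h2 : ∀ (p : A) (hp : p ∈ P), q (Fr.tz (-1) * Fr.ι p) (y_mem_BLs P hp))
    (h3 : ∀ x y hx hy, q x hx → q y hy → q (x + y) (add_mem hx hy))
    (h4 : ∀ x y hx hy, q x hx → q y hy → q (x * y) (mul_mem hx hy))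
    {d : Fr k A} (hd : d ∈ BLs k P) : q d hd := by
  unfold BLs at hd
  induction hd using Algebra.adjoin_induction with
  | mem x hx =>
    rcases hx with ⟨a, rfl⟩ | ⟨p, hp, rfl⟩
    · exact h1 a
    · exact h2 p hp
  | algebraMap r =>
    have h := h1 (algebraMap k[X] A r)
    have e : (Fr.ι (algebraMap k[X] A r) : Fr k A) = algebraMap k[X] (Fr k A) r :=
      AlgHom.commutes _ r
    simp only [e] at h
    exact h
  | add x y hx hy ihx ihy => exact h3 x y hx hy ihx ihy
  | mul x y hx hy ihx ihy => exact h4 x y hx hy ihx ihy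

theorem BLT2_exists_F {B : Type} [DecidableEq B] (p : B → A) (d : Fr k A)
    (hd : d ∈ BLs k (Set.range p)) :
    ∃ F : Finset B, d ∈ BLs k (p '' (F : Set B)) := by
  induction hd using BLT2_ind with
  | h1 a => exact ⟨∅, ι_mem_BLs _ a⟩
  | h2 q hq =>
    obtain ⟨x, rfl⟩ := hq
    exact ⟨{x}, y_mem_BLs _ ⟨x, by simp, rfl⟩⟩
  | h3 x y _ _ hx hy =>
    obtain ⟨F, hF⟩ := hx
    obtain ⟨G, hG⟩ := hy
    refine ⟨F ∪ G, add_mem (BLT2_mono ?_ hF) (BLT2_mono ?_ hG)⟩
    · exact Set.image_mono (by simp)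
    · exact Set.image_mono (by simp)
  | h4 x y _ _ hx hy =>
    obtain ⟨F, hF⟩ := hx
    obtain ⟨G, hG⟩ := hy
    refine ⟨F ∪ G, mul_mem (BLT2_mono ?_ hF) (BLT2_mono ?_ hG)⟩
    · exact Set.image_mono (by simp)
    · exact Set.image_mono (by simp)

/-- `MvPolynomial F (S/I) → MvPolynomial G (S/J)` for `F ⊆ G`, `I ≤ J` -/
noncomputable def BLT2_tr {B : Type} {S : Type} [CommRing S] {F G : Set B} (h : F ⊆ G)
    {I J : Ideal S} (hIJ : I ≤ J) : MvPolynomial F (S ⧸ I) →+* MvPolynomial G (S ⧸ J) :=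
  MvPolynomial.eval₂Hom (MvPolynomial.C.comp (Ideal.Quotient.factor hIJ))
    (fun x => MvPolynomial.X (Set.inclusion h x))

/-- `MvPolynomial F (S/I) → MvPolynomial B (S/J)`, `I ≤ J` -/
noncomputable def BLT2_φ {B : Type} {S : Type} [CommRing S] (F : Set B)
    {I J : Ideal S} (hIJ : I ≤ J) : MvPolynomial F (S ⧸ I) →+* MvPolynomial B (S ⧸ J) :=
  MvPolynomial.eval₂Hom (MvPolynomial.C.comp (Ideal.Quotient.factor hIJ))
    (fun x => MvPolynomial.X (x : B))

theorem BLT2_φ_C {B : Type} {S : Type} [CommRing S] (F : Set B)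
    {I J : Ideal S} (hIJ : I ≤ J) (s : S) :
    BLT2_φ F hIJ (MvPolynomial.C (Ideal.Quotient.mk I s)) =
      MvPolynomial.C (Ideal.Quotient.mk J s) := by
  simp [BLT2_φ]

theorem BLT2_φ_X {B : Type} {S : Type} [CommRing S] (F : Set B)
    {I J : Ideal S} (hIJ : I ≤ J) (x : F) :
    BLT2_φ F hIJ (MvPolynomial.X x) = MvPolynomial.X (x : B) := by
  simp [BLT2_φ]

theorem BLT2_tr_C {B : Type} {S : Type} [CommRing S] {F G : Set B} (h : F ⊆ G)
    {I J : Ideal S} (hIJ : I ≤ J) (s : S) :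
    BLT2_tr h hIJ (MvPolynomial.C (Ideal.Quotient.mk I s)) =
      MvPolynomial.C (Ideal.Quotient.mk J s) := by
  simp [BLT2_tr]

theorem BLT2_tr_X {B : Type} {S : Type} [CommRing S] {F G : Set B} (h : F ⊆ G)
    {I J : Ideal S} (hIJ : I ≤ J) (x : F) :
    BLT2_tr h hIJ (MvPolynomial.X x) = MvPolynomial.X (Set.inclusion h x) := by
  simp [BLT2_tr]

theorem BLT2_φ_eq {B : Type} {S : Type} [CommRing S] (F : Set B)
    {I J : Ideal S} (hIJ : I ≤ J) (f : MvPolynomial F (S ⧸ I)) :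
    BLT2_φ F hIJ f = MvPolynomial.rename (Subtype.val : F → B)
      (MvPolynomial.map (Ideal.Quotient.factor hIJ) f) := by
  induction f using MvPolynomial.induction_on with
  | C a => simp [BLT2_φ]
  | add p q hp hq => simp only [map_add, hp, hq]
  | mul_X p x hp =>
    rw [map_mul, map_mul, map_mul, hp, BLT2_φ_X, MvPolynomial.map_X, MvPolynomial.rename_X]

theorem BLT2_tr_eq {B : Type} {S : Type} [CommRing S] {F G : Set B} (h : F ⊆ G)
    {I J : Ideal S} (hIJ : I ≤ J) (f : MvPolynomial F (S ⧸ I)) :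
    BLT2_tr h hIJ f = MvPolynomial.rename (Set.inclusion h)
      (MvPolynomial.map (Ideal.Quotient.factor hIJ) f) := by
  induction f using MvPolynomial.induction_on with
  | C a => simp [BLT2_tr]
  | add p q hp hq => simp only [map_add, hp, hq]
  | mul_X p x hp =>
    rw [map_mul, map_mul, map_mul, hp, BLT2_tr_X, MvPolynomial.map_X, MvPolynomial.rename_X]

theorem BLT2_span {B : Type} [DecidableEq B] {S : Type} [CommRing S] (q : B → S) (s : S)
    (h : s ∈ Ideal.span (Set.range q)) :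
    ∃ F : Finset B, s ∈ Ideal.span (q '' (F : Set B)) := by
  induction h using Submodule.span_induction with
  | mem x hx =>
    obtain ⟨b, rfl⟩ := hx
    exact ⟨{b}, Ideal.subset_span ⟨b, by simp, rfl⟩⟩
  | zero => exact ⟨∅, Ideal.zero_mem _⟩
  | add x y _ _ hx hy =>
    obtain ⟨F, hF⟩ := hx
    obtain ⟨G, hG⟩ := hy
    refine ⟨F ∪ G, Ideal.add_mem _ (Ideal.span_mono ?_ hF) (Ideal.span_mono ?_ hG)⟩
    · exact Set.image_mono (by simp)
    · exact Set.image_mono (by simp)
  | smul a x _ hx =>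
    obtain ⟨F, hF⟩ := hx
    exact ⟨F, Ideal.mul_mem_left _ _ hF⟩

/-- finitely many coefficients -/
theorem BLT2_fin {B : Type} [DecidableEq B] {S : Type} [CommRing S] (q : B → S) (F : Finset B)
    (f : MvPolynomial (F : Set B) (S ⧸ Ideal.span (q '' (F : Set B))))
    (hIJ : Ideal.span (q '' (F : Set B)) ≤ Ideal.span (Set.range q))
    (hf : BLT2_φ (F : Set B) hIJ f = 0) :
    ∃ (G : Finset B) (hFG : (F : Set B) ⊆ (G : Set B))
      (hI : Ideal.span (q '' (F : Set B)) ≤ Ideal.span (q '' (G : Set B))),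
      BLT2_tr hFG hI f = 0 := by
  rw [BLT2_φ_eq] at hf
  have h1 : MvPolynomial.map (Ideal.Quotient.factor hIJ) f = 0 :=
    MvPolynomial.rename_injective _ Subtype.val_injective (by rw [hf, map_zero])
  have h2 : ∀ m, ∃ (G : Finset B) (s : S), f.coeff m = Ideal.Quotient.mk _ s ∧
      s ∈ Ideal.span (q '' (G : Set B)) := by
    intro m
    obtain ⟨s, hs⟩ := Ideal.Quotient.mk_surjective (f.coeff m)
    have h3 : (MvPolynomial.map (Ideal.Quotient.factor hIJ) f).coeff m = 0 := by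
      rw [h1, MvPolynomial.coeff_zero]
    rw [MvPolynomial.coeff_map, ← hs, Ideal.Quotient.factor_mk, Ideal.Quotient.eq_zero_iff_mem] at h3
    obtain ⟨G, hG⟩ := BLT2_span q s h3
    exact ⟨G, s, hs.symm, hG⟩
  choose G s hs hG using h2
  let H : Finset B := F ∪ f.support.biUnion G
  have hFH : (F : Set B) ⊆ (H : Set B) := by
    intro x hx
    exact Finset.mem_coe.mpr (Finset.mem_union_left _ (Finset.mem_coe.mp hx))
  have hI : Ideal.span (q '' (F : Set B)) ≤ Ideal.span (q '' (H : Set B)) :=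
    Ideal.span_mono (Set.image_mono hFH)
  refine ⟨H, hFH, hI, ?_⟩
  rw [BLT2_tr_eq]
  have h4 : MvPolynomial.map (Ideal.Quotient.factor hI) f = 0 := by
    ext m
    rw [MvPolynomial.coeff_map, MvPolynomial.coeff_zero]
    by_cases hm : m ∈ f.support
    · rw [hs m, Ideal.Quotient.factor_mk, Ideal.Quotient.eq_zero_iff_mem]
      refine Ideal.span_mono (Set.image_mono ?_) (hG m)
      intro x hx
      exact Finset.mem_coe.mpr (Finset.mem_union_right _
        (Finset.mem_biUnion.mpr ⟨m, hm, Finset.mem_coe.mp hx⟩))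
    · have h5 : f.coeff m = 0 := by simpa using hm
      rw [h5, map_zero]
  rw [h4, map_zero]

/-- BLt: blow-up `A[X^{-1} p_x : x ∈ B]` along a family that is regular in every order -/
theorem exists_blt {B : Type} (hπ : IsQC k π) (hg : Gap k 4 A) (p : B → A)
    (hreg : ∀ (F : Finset B) (x : B), x ∉ F → ∀ s : S,
      s * π (p x) ∈ Ideal.span ((fun y => π (p y)) '' (F : Set B)) →
        s ∈ Ideal.span ((fun y => π (p y)) '' (F : Set B))) :
    ∃ (A' : Type) (_ : Ring A') (_ : Algebra k[X] A')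
      (π' : A' →+* MvPolynomial B (S ⧸ Ideal.span (Set.range fun y => π (p y))))
      (c : A →ₐ[k[X]] A') (y : B → A'),
      IsQC k π' ∧ (∀ a, π' (c a) = MvPolynomial.C (Ideal.Quotient.mk _ (π a))) ∧
      (∀ x, tX k • y x = c (p x)) ∧ (∀ x, π' (y x) = MvPolynomial.X x) ∧
      (∀ (E : Type) [Ring E] [Algebra k[X] E], XReg k E → ∀ (f : A →ₐ[k[X]] E) (z : B → E),
        (∀ x, tX k • z x = f (p x)) →
          ∃ f' : A' →ₐ[k[X]] E, (∀ a, f' (c a) = f a) ∧ ∀ x, f' (y x) = z x) := by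
  classical
  choose πF hQ hC hX using fun F => exists_bltF hπ hg p hreg F
  have hJ : ∀ F : Finset B, Ideal.span ((fun y => π (p y)) '' (F : Set B)) ≤
      Ideal.span (Set.range fun y => π (p y)) := fun F =>
    Ideal.span_mono (Set.image_subset_range _ _)
  let g : ∀ F : Finset B, BLs k (p '' (F : Set B)) →+*
      MvPolynomial B (S ⧸ Ideal.span (Set.range fun y => π (p y))) :=
    fun F => (BLT2_φ (F : Set B) (hJ F)).comp (πF F)
  have hgC : ∀ F a, g F ⟨Fr.ι a, ι_mem_BLs _ a⟩ = MvPolynomial.C (Ideal.Quotient.mk _ (π a)) := by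
    intro F a
    show BLT2_φ (F : Set B) (hJ F) (πF F _) = _
    rw [hC, BLT2_φ_eq]
    simp
  have hgX : ∀ (F : Finset B) (x : (F : Set B)), g F ⟨Fr.tz (-1) * Fr.ι (p x),
        y_mem_BLs _ (Set.mem_image_of_mem p x.2)⟩ = MvPolynomial.X (x : B) := by
    intro F x
    show BLT2_φ (F : Set B) (hJ F) (πF F _) = _
    rw [hX, BLT2_φ_eq]
    simp
  -- transition
  have htr : ∀ (F G : Finset B) (hFG : (F : Set B) ⊆ (G : Set B))
      (hI : Ideal.span ((fun y => π (p y)) '' (F : Set B)) ≤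
        Ideal.span ((fun y => π (p y)) '' (G : Set B))) (d : Fr k A)
      (hd : d ∈ BLs k (p '' (F : Set B))),
      πF G ⟨d, BLT2_mono (Set.image_mono hFG) hd⟩ = BLT2_tr hFG hI (πF F ⟨d, hd⟩) := by
    intro F G hFG hI d hd
    induction hd using BLT2_ind with
    | h1 a =>
      rw [hC, hC, BLT2_tr_eq]
      simp
    | h2 q hq =>
      obtain ⟨x, hx, rfl⟩ := hq
      rw [hX F ⟨x, hx⟩, hX G ⟨x, hFG hx⟩, BLT2_tr_eq]
      simp
    | h3 x y hx hy ihx ihy =>
      have e1 : (⟨x + y, BLT2_mono (Set.image_mono hFG) (add_mem hx hy)⟩ :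
          BLs k (p '' (G : Set B))) = ⟨x, BLT2_mono (Set.image_mono hFG) hx⟩ +
            ⟨y, BLT2_mono (Set.image_mono hFG) hy⟩ := rfl
      have e2 : (⟨x + y, add_mem hx hy⟩ : BLs k (p '' (F : Set B))) = ⟨x, hx⟩ + ⟨y, hy⟩ := rfl
      rw [e1, e2, map_add, map_add, map_add, ihx, ihy]
    | h4 x y hx hy ihx ihy =>
      have e1 : (⟨x * y, BLT2_mono (Set.image_mono hFG) (mul_mem hx hy)⟩ :
          BLs k (p '' (G : Set B))) = ⟨x, BLT2_mono (Set.image_mono hFG) hx⟩ *
            ⟨y, BLT2_mono (Set.image_mono hFG) hy⟩ := rfl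
      have e2 : (⟨x * y, mul_mem hx hy⟩ : BLs k (p '' (F : Set B))) = ⟨x, hx⟩ * ⟨y, hy⟩ := rfl
      rw [e1, e2, map_mul, map_mul, map_mul, ihx, ihy]
  have hgg : ∀ (F G : Finset B) (hFG : (F : Set B) ⊆ (G : Set B)) (d : Fr k A)
      (hd : d ∈ BLs k (p '' (F : Set B))),
      g G ⟨d, BLT2_mono (Set.image_mono hFG) hd⟩ = g F ⟨d, hd⟩ := by
    intro F G hFG d hd
    have hI : Ideal.span ((fun y => π (p y)) '' (F : Set B)) ≤
        Ideal.span ((fun y => π (p y)) '' (G : Set B)) := Ideal.span_mono (Set.image_mono hFG)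
    show BLT2_φ (G : Set B) (hJ G) (πF G _) = BLT2_φ (F : Set B) (hJ F) (πF F _)
    rw [htr F G hFG hI d hd]
    generalize πF F ⟨d, hd⟩ = f
    induction f using MvPolynomial.induction_on with
    | C a =>
      obtain ⟨s, rfl⟩ := Ideal.Quotient.mk_surjective a
      rw [BLT2_tr_C, BLT2_φ_C, BLT2_φ_C]
    | add p q hp hq => simp only [map_add, hp, hq]
    | mul_X p x hp =>
      rw [map_mul, map_mul, map_mul, hp, BLT2_tr_X, BLT2_φ_X, BLT2_φ_X]
  -- the union
  have hex : ∀ d : BLs k (Set.range p), ∃ F : Finset B, (d : Fr k A) ∈ BLs k (p '' (F : Set B)) :=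
    fun d => BLT2_exists_F p (d : Fr k A) d.2
  choose Fx hFx using hex
  have hπ' : ∀ (d : BLs k (Set.range p)) (F : Finset B)
      (h : (d : Fr k A) ∈ BLs k (p '' (F : Set B))), g (Fx d) ⟨d, hFx d⟩ = g F ⟨d, h⟩ := by
    intro d F h
    have h1 : ((Fx d : Finset B) : Set B) ⊆ ((Fx d ∪ F : Finset B) : Set B) := by simp
    have h2 : ((F : Finset B) : Set B) ⊆ ((Fx d ∪ F : Finset B) : Set B) := by simp
    rw [← hgg _ _ h1, ← hgg _ _ h2]
  let π' : BLs k (Set.range p) →+*
      MvPolynomial B (S ⧸ Ideal.span (Set.range fun y => π (p y))) :=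
    { toFun := fun d => g (Fx d) ⟨d, hFx d⟩
      map_one' := by
        rw [hπ' 1 ∅ (one_mem _)]
        exact map_one (g ∅)
      map_zero' := by
        rw [hπ' 0 ∅ (zero_mem _)]
        exact map_zero (g ∅)
      map_mul' := by
        intro x y
        have h1 : ((Fx x : Finset B) : Set B) ⊆ ((Fx x ∪ Fx y : Finset B) : Set B) := by simp
        have h2 : ((Fx y : Finset B) : Set B) ⊆ ((Fx x ∪ Fx y : Finset B) : Set B) := by simp
        have hx := BLT2_mono (Set.image_mono h1) (hFx x)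
        have hy := BLT2_mono (Set.image_mono h2) (hFx y)
        rw [hπ' x (Fx x ∪ Fx y) hx, hπ' y (Fx x ∪ Fx y) hy,
          hπ' (x * y) (Fx x ∪ Fx y) (mul_mem hx hy), ← map_mul]
        rfl
      map_add' := by
        intro x y
        have h1 : ((Fx x : Finset B) : Set B) ⊆ ((Fx x ∪ Fx y : Finset B) : Set B) := by simp
        have h2 : ((Fx y : Finset B) : Set B) ⊆ ((Fx x ∪ Fx y : Finset B) : Set B) := by simp
        have hx := BLT2_mono (Set.image_mono h1) (hFx x)
        have hy := BLT2_mono (Set.image_mono h2) (hFx y)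
        rw [hπ' x (Fx x ∪ Fx y) hx, hπ' y (Fx x ∪ Fx y) hy,
          hπ' (x + y) (Fx x ∪ Fx y) (add_mem hx hy), ← map_add]
        rfl }
  have hπd : ∀ (d : BLs k (Set.range p)) (F : Finset B)
      (h : (d : Fr k A) ∈ BLs k (p '' (F : Set B))), π' d = g F ⟨d, h⟩ := hπ'
  let c : A →ₐ[k[X]] BLs k (Set.range p) :=
    (Fr.ι : A →ₐ[k[X]] Fr k A).codRestrict _ (fun a => ι_mem_BLs _ a)
  let y : B → BLs k (Set.range p) := fun x => ⟨Fr.tz (-1) * Fr.ι (p x), y_mem_BLs _ ⟨x, rfl⟩⟩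
  have hπc : ∀ a, π' (c a) = MvPolynomial.C (Ideal.Quotient.mk _ (π a)) := by
    intro a
    rw [hπd (c a) ∅ (ι_mem_BLs _ a)]
    exact hgC ∅ a
  have hπy : ∀ x, π' (y x) = MvPolynomial.X x := by
    intro x
    rw [hπd (y x) {x} (y_mem_BLs _ ⟨x, by simp, rfl⟩)]
    exact hgX {x} ⟨x, by simp⟩
  have hXy : ∀ x, tX k • y x = c (p x) := by
    intro x
    apply Subtype.ext
    show tX k • (Fr.tz (-1) * Fr.ι (p x)) = Fr.ι (p x)
    rw [Algebra.smul_def, ← Fr.tz_one, ← mul_assoc, Fr.tz_mul_neg, one_mul]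
  have hreg' : ∀ d : Fr k A, tX k • d = 0 → d = 0 := by
    intro d hd
    rw [Algebra.smul_def] at hd
    exact (Fr.isUnit_X (k := k) (A := A)).mul_left_cancel (by rw [hd, mul_zero])
  refine ⟨BLs k (Set.range p), inferInstance, inferInstance, π', c, y, ⟨?_, ?_, ?_, ?_, ?_⟩, hπc,
    hXy, hπy, ?_⟩
  · intro a ha
    apply Subtype.ext
    exact hreg' _ (congrArg Subtype.val ha)
  · intro f
    induction f using MvPolynomial.induction_on with
    | C a =>
      obtain ⟨s, rfl⟩ := Ideal.Quotient.mk_surjective a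
      obtain ⟨a, rfl⟩ := hπ.surj s
      exact ⟨c a, hπc a⟩
    | add p q hp hq =>
      obtain ⟨a, rfl⟩ := hp
      obtain ⟨b, rfl⟩ := hq
      exact ⟨a + b, map_add _ _ _⟩
    | mul_X p x hp =>
      obtain ⟨a, rfl⟩ := hp
      exact ⟨a * y x, by rw [map_mul, hπy]⟩
  · intro a ha
    obtain ⟨F, hF⟩ := BLT2_exists_F p (a : Fr k A) a.2
    rw [hπd a F hF] at ha
    obtain ⟨G, hFG, hI, hG⟩ := BLT2_fin (fun y => π (p y)) F _ (hJ F) ha
    rw [← htr F G hFG hI] at hG
    obtain ⟨b, hb⟩ := (hQ G).ker _ hG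
    refine ⟨⟨b, BLT2_mono (Set.image_subset_range _ _) b.2⟩, ?_⟩
    apply Subtype.ext
    have h1 : (a : Fr k A) = ((tX k • b : BLs k (p '' (G : Set B))) : Fr k A) :=
      congrArg (Subtype.val : BLs k (p '' (G : Set B)) → Fr k A) hb
    rw [h1]
    rfl
  · intro b
    obtain ⟨F, hF⟩ := BLT2_exists_F p (b : Fr k A) b.2
    have hF' : ((tX k • b : BLs k (Set.range p)) : Fr k A) ∈ BLs k (p '' (F : Set B)) :=
      Subalgebra.smul_mem _ hF _
    rw [hπd _ F hF']
    have := (hQ F).kerX ⟨b, hF⟩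
    show BLT2_φ (F : Set B) (hJ F) (πF F (tX k • ⟨b, hF⟩)) = 0
    rw [this, map_zero]
  · intro r
    have h1 : algebraMap k[X] (BLs k (Set.range p)) (Polynomial.C r) =
        c (algebraMap k[X] A (Polynomial.C r)) := (AlgHom.commutes c _).symm
    rw [h1, hπc, hπ.scal]
    rfl
  · intro E _ _ hE f z hz
    have hsc : IsScale k 1 (f : A →+* E) := by
      intro r
      have : sig k 1 r = r := by
        show Polynomial.expand k 1 r = r
        exact Polynomial.expand_one r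
      rw [this]
      exact f.commutes r
    let G : Fr k A →ₐ[k[X]] Fr k E :=
      { Fr.map (f : A →+* E) hsc with
        commutes' := fun r => by
          show Fr.map (f : A →+* E) hsc (algebraMap k[X] (Fr k A) r) = _
          rw [Fr.map_algebraMap]
          congr 1
          show Polynomial.expand k 1 r = r
          exact Polynomial.expand_one r }
    have hGι : ∀ a, G (Fr.ι a) = Fr.ι (f a) := fun a => Fr.map_ι (f : A →+* E) hsc a
    have hGy : ∀ x, G (Fr.tz (-1) * Fr.ι (p x)) = Fr.ι (z x) := by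
      intro x
      apply (Fr.isUnit_X (k := k) (A := E)).mul_left_cancel
      rw [← Algebra.smul_def, ← Algebra.smul_def, ← map_smul, ← map_smul, hz, ← hGι]
      congr 1
      rw [Algebra.smul_def, ← Fr.tz_one, ← mul_assoc, Fr.tz_mul_neg, one_mul]
    have hmem : ∀ d ∈ BLs k (Set.range p), G d ∈ (Fr.ι : E →ₐ[k[X]] Fr k E).range := by
      intro d hd
      induction hd using BLT2_ind with
      | h1 a => exact ⟨f a, (hGι a).symm⟩
      | h2 q hq =>
        obtain ⟨x, rfl⟩ := hq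
        exact ⟨z x, (hGy x).symm⟩
      | h3 x y _ _ hx hy => rw [map_add]; exact add_mem hx hy
      | h4 x y _ _ hx hy => rw [map_mul]; exact mul_mem hx hy
    let e := AlgEquiv.ofInjective (Fr.ι : E →ₐ[k[X]] Fr k E) (Fr.ι_injective hE)
    let f' : BLs k (Set.range p) →ₐ[k[X]] E :=
      (e.symm : _ →ₐ[k[X]] E).comp
        ((G.comp (BLs k (Set.range p)).val).codRestrict _ (fun d => hmem d d.2))
    have hf' : ∀ d, (Fr.ι (f' d) : Fr k E) = G d := by
      intro d
      have h1 : e (f' d) = ⟨G d, hmem d d.2⟩ := by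
        show e (e.symm _) = _
        rw [AlgEquiv.apply_symm_apply]
        rfl
      have h2 := congrArg Subtype.val h1
      exact h2
    refine ⟨f', fun a => ?_, fun x => ?_⟩
    · apply Fr.ι_injective hE
      rw [hf', ← hGι]
      rfl
    · apply Fr.ι_injective hE
      rw [hf', ← hGy]

end C74
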