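import Pool.Agent.MP_35f30a_al.C74.Ord

/-!
ROW BRG.  `T_1 = Γ ⊗ Γ`, `D_m(T_1) = I^m`, powers of the diagonal ideal.  Blueprint sections 0, 3.1.

* `tp1`: `TP k Γ 1` is by definition `Γ ⊗[k] (TP k Γ 0)` and `TP k Γ 0 = Γ`.
* `Dm_iff`: `dI` is generated by `x ⊗ 1 - 1 ⊗ x` (`KaehlerDifferential.span_range_eq_ideal`), and
  `tp1 (del b 0 y) = (b ⊗ 1 - 1 ⊗ b) * tp1 y` (check on pure tensors).  Induction on `m`: `Dm m 0` is an ideal.
* `dI_pow_sat`: `s ∉ dI`; `μ(s) ≠ 0` where `μ : Γ ⊗ Γ → Γ`; `s' := μ(s)⁻¹ ⊗ 1`; `s' s = 1 - ι`, `ι ∈ dI`;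
  `(1 + ι + ... + ι^{m-1})(1 - ι) = 1 - ι^m`; so `T = (..) s' s T + ι^m T ∈ dI^m`.
* `epsI`: `IsLocalization.lift`.
-/

set_option autoImplicit false

open scoped TensorProduct Polynomial

namespace C74

section comm
variable (k : Type) [Field k] (Γ : Type) [CommRing Γ] [Algebra k Γ]

/-- `T_1 = Γ ⊗ Γ` -/
noncomputable def tp1 : TP k Γ 1 ≃ₗ[k] Γ ⊗[k] Γ := LinearEquiv.refl k (Γ ⊗[k] Γ)

lemma tp1_cons (a b : Γ) : tp1 k Γ (TP.cons a (TP.ofA b)) = a ⊗ₜ[k] b := rfl

/-- the diagonal ideal -/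
noncomputable abbrev dI : Ideal (Γ ⊗[k] Γ) := KaehlerDifferential.ideal k Γ

variable {Γ} in
/-- `δ x = x ⊗ 1 - 1 ⊗ x` -/
noncomputable def dl (x : Γ) : Γ ⊗[k] Γ := x ⊗ₜ 1 - 1 ⊗ₜ x

theorem dI_eq_span : dI k Γ = Ideal.span (Set.range (dl k : Γ → Γ ⊗[k] Γ)) := by
  rw [dI, ← KaehlerDifferential.span_range_eq_ideal k Γ]
  apply le_antisymm
  · rw [Ideal.span_le]
    rintro _ ⟨x, rfl⟩
    have h : (1 : Γ) ⊗ₜ[k] x - x ⊗ₜ[k] (1 : Γ) = -(dl k x) := by
      simp only [dl]; abel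
    simp only [SetLike.mem_coe]
    rw [h]
    exact neg_mem (Ideal.subset_span ⟨x, rfl⟩)
  · rw [Ideal.span_le]
    rintro _ ⟨x, rfl⟩
    have h : dl k x = -((1 : Γ) ⊗ₜ[k] x - x ⊗ₜ[k] (1 : Γ)) := by
      simp only [dl]; abel
    simp only [SetLike.mem_coe]
    rw [h]
    exact neg_mem (Ideal.subset_span ⟨x, rfl⟩)

theorem mem_dI (s : Γ ⊗[k] Γ) : s ∈ dI k Γ ↔ Algebra.TensorProduct.lmul' k (S := Γ) s = 0 :=
  RingHom.mem_ker

theorem tp1_del (b : Γ) (y : TP k Γ 1) : tp1 k Γ (TP.del b 0 y) = dl k b * tp1 k Γ y := by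
  induction y using TP.succ_induction with
  | h0 => simp
  | hc a t =>
    obtain ⟨c, hc⟩ : ∃ c : Γ, t = TP.ofA c := ⟨TP.toA t, rfl⟩
    rw [hc, TP.del_cons, TP.smul_ofA, map_sub, tp1_cons, tp1_cons, tp1_cons, dl, sub_mul,
      Algebra.TensorProduct.tmul_mul_tmul, Algebra.TensorProduct.tmul_mul_tmul, one_mul, one_mul,
      mul_comm a b]
  | ha x y hx hy => rw [map_add, map_add, map_add, mul_add, hx, hy]

theorem Dm_iff (m : ℕ) (s : TP k Γ 1) : s ∈ Dm k Γ m 0 ↔ tp1 k Γ s ∈ (dI k Γ) ^ m := by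
  induction m generalizing s with
  | zero => simp [Dm]
  | succ m ih =>
    constructor
    · intro hs
      rw [Dm] at hs
      induction hs using Submodule.span_induction with
      | mem x hx =>
        obtain ⟨b, y, hy, rfl⟩ := hx
        have hb : dl k b ∈ dI k Γ := by
          rw [dI_eq_span]
          exact Ideal.subset_span ⟨b, rfl⟩
        rw [tp1_del, pow_succ']
        exact Ideal.mul_mem_mul hb ((ih y).1 hy)
      | zero => rw [map_zero]; exact zero_mem _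
      | add x y _ _ hx hy => rw [map_add]; exact add_mem hx hy
      | smul c x _ hx =>
        rw [map_smul]
        exact Submodule.smul_of_tower_mem _ c hx
    · intro hs
      have key : ∀ r ∈ dI k Γ, ∀ z ∈ (dI k Γ) ^ m,
          (tp1 k Γ).symm (r * z) ∈ Dm k Γ (m + 1) 0 := by
        intro r hr
        rw [dI_eq_span] at hr
        induction hr using Submodule.span_induction with
        | mem x hx =>
          obtain ⟨b, rfl⟩ := hx
          intro z hz
          have h1 : (tp1 k Γ).symm (dl k b * z) = TP.del b 0 ((tp1 k Γ).symm z) := by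
            rw [LinearEquiv.symm_apply_eq, tp1_del, LinearEquiv.apply_symm_apply]
          rw [h1, Dm]
          refine Submodule.subset_span ⟨b, _, (ih _).2 ?_, rfl⟩
          rw [LinearEquiv.apply_symm_apply]
          exact hz
        | zero => intro z _; rw [zero_mul, map_zero]; exact zero_mem _
        | add x y _ _ hx hy =>
          intro z hz
          rw [add_mul, map_add]
          exact add_mem (hx z hz) (hy z hz)
        | smul c x _ hx =>
          intro z hz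
          rw [smul_eq_mul, mul_comm c x, mul_assoc]
          exact hx _ (Ideal.mul_mem_left _ _ hz)
      have h2 : ∀ x ∈ (dI k Γ) ^ (m + 1), (tp1 k Γ).symm x ∈ Dm k Γ (m + 1) 0 := by
        intro x hx
        rw [pow_succ'] at hx
        refine Submodule.mul_induction_on hx (fun r hr z hz => key r hr z hz) ?_
        intro x y hx hy
        rw [map_add]
        exact add_mem hx hy
      have h3 := h2 _ hs
      rwa [LinearEquiv.symm_apply_apply] at h3

end comm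

section field
variable (k : Type) [Field k] (Γ : Type) [Field Γ] [Algebra k Γ]

instance dI_isPrime : (dI k Γ).IsPrime :=
  RingHom.ker_isPrime _

/-- powers of `dI` are saturated with respect to elements outside `dI` -/
theorem dI_pow_sat (m : ℕ) (s T : Γ ⊗[k] Γ) (hs : s ∉ dI k Γ) (h : s * T ∈ (dI k Γ) ^ m) :
    T ∈ (dI k Γ) ^ m := by
  have hμ : Algebra.TensorProduct.lmul' k (S := Γ) s ≠ 0 := fun h0 => hs ((mem_dI k Γ s).2 h0)
  set c : Γ := Algebra.TensorProduct.lmul' k (S := Γ) s with hc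
  set u : Γ ⊗[k] Γ := c⁻¹ ⊗ₜ[k] (1 : Γ) with hu
  have hι : 1 - u * s ∈ dI k Γ := by
    rw [mem_dI, map_sub, map_mul, map_one, hu, Algebra.TensorProduct.lmul'_apply_tmul, mul_one,
      ← hc, inv_mul_cancel₀ hμ, sub_self]
  have hgeom := geom_sum_mul_neg (1 - u * s) m
  have hT : T = (∑ i ∈ Finset.range m, (1 - u * s) ^ i) * u * (s * T) + (1 - u * s) ^ m * T := by
    have h1 : (∑ i ∈ Finset.range m, (1 - u * s) ^ i) * u * (s * T) =
        ((∑ i ∈ Finset.range m, (1 - u * s) ^ i) * (1 - (1 - u * s))) * T := by ring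
    rw [h1, hgeom]
    ring
  rw [hT]
  exact add_mem (Ideal.mul_mem_left _ _ h) (Ideal.mul_mem_right _ _ (Ideal.pow_mem_pow hι m))

/-- the local ring of the diagonal -/
abbrev SI : Type := Localization.AtPrime (dI k Γ)

theorem map_dI_pow_iff (m : ℕ) (T : Γ ⊗[k] Γ) :
    algebraMap (Γ ⊗[k] Γ) (SI k Γ) T ∈ (Ideal.map (algebraMap (Γ ⊗[k] Γ) (SI k Γ)) (dI k Γ)) ^ m ↔
      T ∈ (dI k Γ) ^ m := by
  rw [← Ideal.map_pow, IsLocalization.algebraMap_mem_map_algebraMap_iff (dI k Γ).primeCompl]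
  constructor
  · rintro ⟨s, hs, h⟩
    exact dI_pow_sat k Γ m s T hs h
  · intro h
    exact ⟨1, one_mem _, by rwa [one_mul]⟩

/-- the residue map `S_I → Γ` -/
noncomputable def epsI : SI k Γ →+* Γ :=
  IsLocalization.lift (M := (dI k Γ).primeCompl) (S := SI k Γ)
    (g := ((Algebra.TensorProduct.lmul' k (S := Γ) : Γ ⊗[k] Γ →ₐ[k] Γ) : Γ ⊗[k] Γ →+* Γ))
    (fun y => isUnit_iff_ne_zero.mpr (fun h => y.2 ((mem_dI k Γ _).mpr h)))

theorem epsI_tmul (a b : Γ) : epsI k Γ (algebraMap (Γ ⊗[k] Γ) (SI k Γ) (a ⊗ₜ b)) = a * b := by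
  rw [epsI, IsLocalization.lift_eq]
  exact Algebra.TensorProduct.lmul'_apply_tmul a b

theorem epsI_ker (x : SI k Γ) :
    epsI k Γ x = 0 ↔ x ∈ Ideal.map (algebraMap (Γ ⊗[k] Γ) (SI k Γ)) (dI k Γ) := by
  have heq : ∀ z : Γ ⊗[k] Γ, epsI k Γ (algebraMap (Γ ⊗[k] Γ) (SI k Γ) z) =
      Algebra.TensorProduct.lmul' k (S := Γ) z := by
    intro z
    rw [epsI, IsLocalization.lift_eq]
    rfl
  constructor
  · intro h0
    obtain ⟨⟨y, s⟩, hys⟩ := IsLocalization.surj (dI k Γ).primeCompl x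
    simp only at hys
    have h1 : Algebra.TensorProduct.lmul' k (S := Γ) y = 0 := by
      rw [← heq, ← hys, map_mul, h0, zero_mul]
    have h2 : algebraMap (Γ ⊗[k] Γ) (SI k Γ) y ∈
        Ideal.map (algebraMap (Γ ⊗[k] Γ) (SI k Γ)) (dI k Γ) :=
      Ideal.mem_map_of_mem _ ((mem_dI k Γ y).2 h1)
    rw [← hys] at h2
    exact (Ideal.mul_unit_mem_iff_mem _ (IsLocalization.map_units (SI k Γ) s)).1 h2
  · intro hx
    have h1 : Ideal.map (algebraMap (Γ ⊗[k] Γ) (SI k Γ)) (dI k Γ) ≤ RingHom.ker (epsI k Γ) := by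
      rw [Ideal.map_le_iff_le_comap]
      intro z hz
      rw [Ideal.mem_comap, RingHom.mem_ker, heq]
      exact (mem_dI k Γ z).1 hz
    exact h1 hx

end field

end C74
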