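import Pool.Agent.MP_35f30a_al.C74.NX

/-!
ROW CA.  Case A of the ND lemma.  Blueprint section 2.5 (CASE A).

`Y := ` the data of `exists_frac (Q) M''` with `M'' := 2 d + 3` (`χ` with `π' (χ q) = i0 (πQ q)`, `i0` injective, `i := i0 ∘ C`), `a := 1`,
`w'' := Y.w 1 1`, `L'' := L M M''`.
(1) `g_0`-component: `C_{j,0}(w'') g_j`, `j ≥ 1`: `S.gw 1 j ∈ lev (n0 - 1)` (hypothesis; `n0 := L M q0 ∈ ℤ` as `L q0 ∈ ℤ`), after
 transfer level `M'' (n0 - 1) + j ≤ M'' n0 - 1`.  So `st .. 0 = T (g 0) + (smaller)`: exact size `q0`.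
(2) `j1 := ` the largest `j ∈ Js` with `¬ OJ (N0+1) (g j)` (`S.ord'`), `j1 ≤ e` (for `j > e` not `FTx` by `Crit.lt`), `i := j1 - 1`.
 `kX (st .. i) = Σ_j con w'' j i (..)`: `j = i` (if `i ≥ 1`; or `j = i = 0`): `uQ (q0 - i r)` (`uQ_of_FT`, `Crit.le`, for `i = 0` `Crit.zero`);
 `j1 < j ∈ Js`: est2 and transfer: `q0 - i r - (j-i)/(L M) + (j-i)/L'' < q0 - i r + 1/L''`; `j ∉ Js`, `j > i`: est3:
 `q0 - i r - 3/4 μ0 + (j-i)/L'' ≤ q0 - i r` (small1); `j < i`: `con_lt`.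
 `j = j1`: est4 (with `c = 1`) and `uRes_con_tr`: level exactly `M'' p + 1`, residue `map i0 V ≠ 0` (`map_injective_field`), where
 `p = L M (q0 - i r)`.  So the sum has nonzero residue at level `M'' p + 1`, i.e. it is not `uQ (q0 - i r)`
 (`not_uLev_of_uRes`; all other terms have residue `0` there: levels `≤ M'' p`).
(3) `i = 0`: then `S.gw 1 1 = con w 1 0 (..)` has nonzero residue at level `p = n0`, contradicting `CaseA`.
(4) `i ≥ 1`: `i < e`; `NXt.not_FT`: `st .. i ∉ FT (q0 - i r)`; `idx` for the state `st .. g` with `q'' = q0` (use (1), `NXt.top_e`) gives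
 `Crit` with `r'' ≤ r`, `e'' < e`: `Drop` (`NXt.w_F1`).
-/

set_option autoImplicit false

open scoped TensorProduct Polynomial

namespace C74

variable {k : Type} [Field k]


section ca0

/-- level of an element of `T_0` -/
lemma CA_uLev_zero {A : Type} [Ring A] [Algebra k[X] A] {n : ℤ} (T : TP k[X] (Fr k A) 0) :
    uLev k A n T ↔ TP.toA T ∈ Fr.lev k A n := by
  constructor
  · rintro ⟨T', hT'⟩
    exact ⟨TP.toA T', by rw [hT']; rfl⟩
  · rintro ⟨a, ha⟩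
    exact ⟨TP.ofA a, ha⟩

lemma CA_floor (L M M' : ℕ) (p : ℤ) (q : ℚ) (hp : (p : ℚ) = L * M * q) :
    ⌊((L * M * M' : ℕ) : ℚ) * q⌋ = (M' : ℤ) * p := by
  have : ((L * M * M' : ℕ) : ℚ) * q = (((M' : ℤ) * p : ℤ) : ℚ) := by
    push_cast; rw [hp]; ring
  rw [this, Int.floor_intCast]

end ca0

section ca
variable {X : Obj k} {d : ℕ} {g : Fam X} {q0 r : ℚ} {N : ℕ} {δ : ℚ}
    {S : NDS X d g q0 r N δ} (Y : NXt S)

/-- the residue map is compatible with `k` -/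
lemma CA_hik (i0 : MvPolynomial S.Λ X.Γ →+* Y.K') (hi0 : ∀ q, Y.π' (Y.χ q) = i0 (S.πQ q)) (c : k) :
    i0 (algebraMap k (MvPolynomial S.Λ X.Γ) c) = algebraMap k Y.K' ((RingHom.id k) c) := by
  rw [← S.qcQ.scal, ← hi0, Y.hχ, Fr.sig_C, Y.qc.scal, RingHom.id_apply]

/-- `kX` of a transported tensor -/
lemma CA_kX (j : ℕ) (T : TP k X.D j) :
    kX k Y.A' j (Y.ext.T j T) = trT Y.χ Y.hχ j (gQ X S.f S.hf T) :=
  kX_mkExt X S.f S.hf Y.χ Y.hχ Y.qc Y.comp Y.sg Y.hMM Y.i _ T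

lemma CA_L : (Y.obj.L : ℕ) = X.L * S.M * Y.M' := by
  show X.L * (S.M * Y.M') = _
  rw [mul_assoc]

/-- `u`-level of the transport of `g_j` -/
lemma CA_self {j : ℕ} {q : ℚ} {T : TP k X.D j} (hT : T ∈ X.FT j q) :
    uQ k Y.A' (X.L * S.M * Y.M') q (trT Y.χ Y.hχ j (gQ X S.f S.hf T)) := by
  have h := uQ_of_FT ((Y.ext.FT_iff q T).mpr hT)
  rw [CA_L] at h
  rw [← CA_kX]
  exact h

/-- the term `C_{j,i}(w'') g_j` -/
noncomputable def CA_term (j i : ℕ) : TP k[X] (Fr k Y.A') i :=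
  TP.con ((Fr.tz (-((1 : ℕ) : ℤ)) : Fr k Y.A') * Fr.map Y.χ Y.hχ (S.w 1)) j i
    (trT Y.χ Y.hχ j (gQ X S.f S.hf (g j)))

lemma CA_st (i : ℕ) :
    kX k Y.A' i (Y.ext.st d (Y.w 1 1) g i) = ∑ j ∈ Finset.range (d + 1), CA_term Y j i :=
  Y.kX_st 1 1 i

/-- step (1): exact size of the value -/
lemma CA_zero {e : ℕ} (hC : Crit X d g q0 r e) (hA : S.CaseA) (hYM : 2 * d + 3 ≤ Y.M') :
    Y.obj.FTx q0 (Y.ext.st d (Y.w 1 1) g 0) := by
  obtain ⟨n, hn, -, -⟩ := FTx_iff.mp hC.zero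
  have hL : (X.L : ℚ) ≠ 0 := by exact_mod_cast X.Lpos.ne'
  have hM : (S.M : ℚ) ≠ 0 := by
    have := S.hM4
    have h : S.M ≠ 0 := by omega
    exact_mod_cast h
  have hM' : (Y.M' : ℚ) ≠ 0 := by exact_mod_cast Y.hM'.ne'
  have hn1 : q0 * X.L = n := (eq_div_iff hL).mp hn
  have hn0 : (((S.M : ℤ) * n : ℤ) : ℚ) = X.L * S.M * q0 := by
    push_cast; rw [← hn1]; ring
  set n0 : ℤ := (S.M : ℤ) * n with hn0'
  have hlt : Y.obj.FTlt q0 (Y.ext.st d (Y.w 1 1) g 0 - Y.ext.T 0 (g 0)) := by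
    have hpos : (0 : ℚ) < X.L * S.M * Y.M' := by
      have h1 : (0 : ℚ) < X.L := by exact_mod_cast X.Lpos
      have h2 : (0 : ℚ) < S.M := by
        have := S.hM4
        have h : 0 < S.M := by omega
        exact_mod_cast h
      have h3 : (0 : ℚ) < Y.M' := by exact_mod_cast Y.hM'
      positivity
    refine ⟨(((Y.M' : ℤ) * n0 - 1 : ℤ) : ℚ) / (X.L * S.M * Y.M'), ?_, ?_⟩
    · rw [div_lt_iff₀ hpos]
      push_cast
      rw [hn0]
      linarith [show q0 * (X.L * S.M * Y.M') = Y.M' * (X.L * S.M * q0) by ring]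
    · rw [Y.FT_zero_iff]
      have e1 : kX k Y.A' 0 (Y.ext.st d (Y.w 1 1) g 0 - Y.ext.T 0 (g 0)) =
          ∑ j ∈ (Finset.range (d + 1)).erase 0, CA_term Y j 0 := by
        have e0 : kX k Y.A' 0 (Y.ext.st d (Y.w 1 1) g 0 - Y.ext.T 0 (g 0)) =
            kX k Y.A' 0 (Y.ext.st d (Y.w 1 1) g 0) - kX k Y.A' 0 (Y.ext.T 0 (g 0)) :=
          map_sub (kX k Y.A' 0) (Y.ext.st d (Y.w 1 1) g 0 : TP k (Fr k Y.A') 0) (Y.ext.T 0 (g 0))
        rw [e0, CA_st, CA_kX, ← Finset.add_sum_erase _ _ (Finset.mem_range.mpr (Nat.succ_pos d))]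
        have : CA_term Y 0 0 = trT Y.χ Y.hχ 0 (gQ X S.f S.hf (g 0)) := rfl
        rw [this]; abel
      unfold uQ
      have e2 : ⌊((X.L * (S.M * Y.M') : ℕ) : ℚ) *
          ((((Y.M' : ℤ) * n0 - 1 : ℤ) : ℚ) / (X.L * S.M * Y.M'))⌋ = (Y.M' : ℤ) * n0 - 1 := by
        have : ((X.L * (S.M * Y.M') : ℕ) : ℚ) *
          ((((Y.M' : ℤ) * n0 - 1 : ℤ) : ℚ) / (X.L * S.M * Y.M')) = (((Y.M' : ℤ) * n0 - 1 : ℤ) : ℚ) := by
          push_cast; field_simp
        rw [this, Int.floor_intCast]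
      rw [e2]
      have e3 : uLev k Y.A' ((Y.M' : ℤ) * n0 - 1)
          (∑ j ∈ (Finset.range (d + 1)).erase 0, CA_term Y j 0) := by
        refine uLev_sum _ _ ?_
        intro j hj
        rw [Finset.mem_erase, Finset.mem_range] at hj
        have hj1 : 1 ≤ j := Nat.one_le_iff_ne_zero.mpr hj.1
        have hjd : j ≤ d := Nat.lt_succ_iff.mp hj.2
        have h1 := hA j n0 hj1 hjd hn0
        have h2 : uLev k S.Q (n0 - 1) (TP.con (S.w 1) j 0 (gQ X S.f S.hf (g j))) :=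
          (CA_uLev_zero _).mpr h1
        have h3 := uLev_con_tr Y.χ Y.hχ ((1 : ℕ) : ℤ) (S.w 1) (Nat.zero_le j) h2
        refine uLev_mono ?_ h3
        have : (j : ℤ) ≤ d := by exact_mod_cast hjd
        have h4 : (2 * (d : ℤ) + 3) ≤ Y.M' := by exact_mod_cast hYM
        push_cast
        rw [Nat.sub_zero]
        nlinarith
      rw [← e1] at e3
      exact e3
  have h := FTx_add ((Y.ext.FTx_iff q0 (g 0)).mpr hC.zero) hlt
  rwa [add_sub_cancel] at h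

/-- step (2): the residue of the `i`-component -/
lemma CA_res {e i : ℕ} (hC : Crit X d g q0 r e)
    (i0 : MvPolynomial S.Λ X.Γ →+* Y.K') (hi0 : ∀ q, Y.π' (Y.χ q) = i0 (S.πQ q))
    (hinj : Function.Injective i0) (hid : i + 1 ≤ d)
    (hx : X.FTx (q0 - (i + 1 : ℕ) * r) (g (i + 1))) {n : ℤ}
    (hn : (n : ℚ) = X.L * (q0 - (i + 1 : ℕ) * r)) (ho : ¬ OJ X n (S.N0 + 1) (g (i + 1)))
    (hmax : ∀ j, i + 1 < j → j ≤ d → X.FTx (q0 - j * r) (g j) →
      ∀ n : ℤ, (n : ℚ) = X.L * (q0 - j * r) → OJ X n (S.N0 + 1) (g j)) :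
    ¬ uQ k Y.A' (X.L * (S.M * Y.M')) (q0 - i * r) (kX k Y.A' i (Y.ext.st d (Y.w 1 1) g i)) := by
  have hL : (0 : ℚ) < X.L := by exact_mod_cast X.Lpos
  have hM : (0 : ℚ) < S.M := by
    have := S.hM4
    have h : 0 < S.M := by omega
    exact_mod_cast h
  have hM' : (0 : ℚ) < Y.M' := by exact_mod_cast Y.hM'
  obtain ⟨V, p, hV, hp, hres⟩ := S.est4 (one_ne_zero : (1 : k) ≠ 0) hid hx hn ho
  have hfl : ⌊((X.L * S.M * Y.M' : ℕ) : ℚ) * (q0 - i * r)⌋ = (Y.M' : ℤ) * p :=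
    CA_floor _ _ _ _ _ hp
  have hik := CA_hik Y i0 hi0
  have h1 := uRes_con_tr Y.χ Y.hχ S.qcQ Y.qc i0 hi0 hik ((1 : ℕ) : ℤ) (S.w 1) (Nat.le_succ i) hres
  have h2 : ((Y.M' : ℤ) * p + ((i + 1 - i : ℕ) : ℤ) * ((1 : ℕ) : ℤ)) = (Y.M' : ℤ) * p + 1 := by
    rw [Nat.add_sub_cancel_left]; simp
  rw [h2] at h1
  have hother : ∀ j ∈ (Finset.range (d + 1)).erase (i + 1),
      uLev k Y.A' ((Y.M' : ℤ) * p) (CA_term Y j i) := by
    intro j hj
    rw [Finset.mem_erase, Finset.mem_range] at hj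
    have hjd : j ≤ d := Nat.lt_succ_iff.mp hj.2
    rcases lt_trichotomy j i with hji | hji | hji
    · rw [CA_term, TP.con_lt _ _ _ hji]
      exact ⟨0, by rw [map_zero, smul_zero]⟩
    · subst hji
      rw [CA_term, TP.con_self]
      have hmem : g j ∈ X.FT j (q0 - j * r) := by
        rcases Nat.eq_zero_or_pos j with h0 | h0
        · subst h0
          simpa using hC.zero.1
        · exact hC.le j h0 hjd
      have := CA_self Y hmem
      unfold uQ at this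
      rwa [hfl] at this
    · have hj1 : 1 ≤ j := by omega
      have hji' : i + 1 < j := by omega
      have hc1 : ((j - i : ℕ) : ℚ) ≤ (d + 1 : ℕ) := by
        have : j - i ≤ d + 1 := by omega
        exact_mod_cast this
      have hc0 : (0 : ℚ) ≤ ((j - i : ℕ) : ℚ) := Nat.cast_nonneg _
      rw [← hfl]
      show uQ k Y.A' (X.L * S.M * Y.M') (q0 - i * r) (CA_term Y j i)
      by_cases hjx : X.FTx (q0 - j * r) (g j)
      · have h3 := S.est2 1 hj1 hjd hji.le hjx (hmax j hji' hjd hjx)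
        have h4 := uQ_con_tr Y.hM' Y.χ Y.hχ (X.L * S.M)
          (Nat.mul_pos X.Lpos (by have := S.hM4; omega)) 1 (S.w 1) hji.le h3
        refine uQ_mono ?_ h4
        have h5 : ((j - i : ℕ) : ℚ) * ((1 : ℕ) : ℚ) / (((X.L * S.M : ℕ) : ℚ) * Y.M') ≤
            ((j - i : ℕ) : ℚ) / (X.L * S.M) := by
          push_cast
          rw [mul_one]
          apply div_le_div_of_nonneg_left hc0 (by positivity)
          have : (1 : ℚ) ≤ Y.M' := by exact_mod_cast Y.hM'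
          nlinarith [mul_pos hL hM]
        linarith
      · have h3 := S.est3 1 hj1 hjd hji.le hjx
        have h4 := uQ_con_tr Y.hM' Y.χ Y.hχ (X.L * S.M)
          (Nat.mul_pos X.Lpos (by have := S.hM4; omega)) 1 (S.w 1) hji.le h3
        refine uQ_mono ?_ h4
        have h5 : ((j - i : ℕ) : ℚ) * ((1 : ℕ) : ℚ) / (((X.L * S.M : ℕ) : ℚ) * Y.M') ≤
            ((d + 1 : ℕ) * (N + 2 : ℕ) : ℚ) / (X.L * S.M) := by
          push_cast
          rw [mul_one]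
          apply div_le_div₀ (by positivity) ?_ (by positivity) ?_
          · push_cast at hc1
            have : (0 : ℚ) ≤ N := Nat.cast_nonneg _
            have hd : (0 : ℚ) ≤ d := Nat.cast_nonneg _
            nlinarith
          · have : (1 : ℚ) ≤ Y.M' := by exact_mod_cast Y.hM'
            nlinarith [mul_pos hL hM]
        have := S.small1
        have := S.μ0pos
        linarith
  intro hu
  have hsum : uRes Y.qc ((Y.M' : ℤ) * p + 1) (kX k Y.A' i (Y.ext.st d (Y.w 1 1) g i))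
      (TP.map (RingHom.id k) i0 hik i V) := by
    rw [CA_st, ← Finset.add_sum_erase _ _ (Finset.mem_range.mpr (Nat.lt_succ_of_le hid))]
    have h6 : uRes Y.qc ((Y.M' : ℤ) * p + 1)
        (∑ j ∈ (Finset.range (d + 1)).erase (i + 1), CA_term Y j i) 0 := by
      apply uRes_of_uLev_lt
      rw [add_sub_cancel_right]
      exact uLev_sum _ _ hother
    have := uRes_add Y.qc h1 h6
    rw [add_zero] at this
    exact this
  have hne : TP.map (RingHom.id k) i0 hik i V ≠ 0 := by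
    intro h0
    apply hV
    apply TP.map_injective_field i0 hik hinj i
    rw [h0, map_zero]
  have h7 := not_uLev_of_uRes Y.qc Y.comp hsum hne
  apply h7
  rw [add_sub_cancel_right]
  unfold uQ at hu
  rw [← mul_assoc, hfl] at hu
  exact hu

/-- the whole argument for a given extension -/
lemma CA_main {e : ℕ} (hC : Crit X d g q0 r e) (hA : S.CaseA) (hYM : 2 * d + 3 ≤ Y.M')
    (i0 : MvPolynomial S.Λ X.Γ →+* Y.K') (hi0 : ∀ q, Y.π' (Y.χ q) = i0 (S.πQ q))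
    (hinj : Function.Injective i0) : Drop X d g r e := by
  classical
  let P : ℕ → Prop := fun j => 1 ≤ j ∧ X.FTx (q0 - j * r) (g j) ∧
    ∃ n : ℤ, (n : ℚ) = X.L * (q0 - j * r) ∧ ¬ OJ X n (S.N0 + 1) (g j)
  obtain ⟨j0, m0, hj01, hj0d, hj0x, hm0, hj0o⟩ := S.ord'
  have hP0 : P j0 := ⟨hj01, hj0x, m0, hm0, hj0o⟩
  obtain ⟨hj1, hjx, n, hn, hno⟩ : P (Nat.findGreatest P d) := Nat.findGreatest_spec hj0d hP0
  have hjd : Nat.findGreatest P d ≤ d := Nat.findGreatest_le d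
  have hmax : ∀ j, Nat.findGreatest P d < j → j ≤ d → ¬ P j := fun j h1 h2 =>
    Nat.findGreatest_is_greatest h1 h2
  obtain ⟨i, hi⟩ : ∃ i, Nat.findGreatest P d = i + 1 :=
    ⟨Nat.findGreatest P d - 1, by omega⟩
  rw [hi] at hj1 hjx hn hno hjd hmax
  have hmax' : ∀ j, i + 1 < j → j ≤ d → X.FTx (q0 - j * r) (g j) →
      ∀ n : ℤ, (n : ℚ) = X.L * (q0 - j * r) → OJ X n (S.N0 + 1) (g j) := by
    intro j h1 h2 h3 n hn
    by_contra h4
    exact hmax j h1 h2 ⟨by omega, h3, n, hn, h4⟩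
  have hie : i + 1 ≤ e := by
    by_contra hlt
    exact hjx.2 (hC.lt (i + 1) (by omega) hjd)
  rcases Nat.eq_zero_or_pos i with h0 | h0
  · exfalso
    subst h0
    obtain ⟨V, p, hV, hp, hres⟩ := S.est4 (one_ne_zero : (1 : k) ≠ 0) hjd hjx hn hno
    have hp' : (p : ℚ) = X.L * S.M * q0 := by rw [hp]; simp
    have h1 := hA 1 p le_rfl hjd hp'
    exact not_uLev_of_uRes S.qcQ S.compQ hres hV ((CA_uLev_zero _).mpr h1)
  · have h1 := CA_res Y hC i0 hi0 hinj hjd hjx hn hno hmax'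
    have h2 := Y.not_FT h1
    have h3 := CA_zero Y hC hA hYM
    have ha : 1 ≤ Y.M' := Y.hM'
    obtain ⟨h4, h5⟩ := Y.top_e hC 1 ha
    obtain ⟨r'', e'', hr, he, hcrit⟩ := idx hC.one_le hC.le_d h3 le_rfl h4 h5 i h0 (by omega)
      (fun h => h2 (FTlt_FT h)) (fun _ => h2)
    exact ⟨Y.obj, Y.ext, Y.w 1 1, Y.w_F1 1 ha, Or.inr ⟨q0, r'', e'', hr, he, hcrit⟩⟩

end ca

theorem NDS.case_A [IsAlgClosed k] {X : Obj k} {d : ℕ} {g : Fam X} {q0 r : ℚ} {e N : ℕ} {δ : ℚ}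
    (S : NDS X d g q0 r N δ) (hC : Crit X d g q0 r e) (hA : S.CaseA) : Drop X d g r e := by
  obtain ⟨A', rA', aA', K', fK', aK', π', χ, i0, qc, comp, sg, hχ, hinj, hπ, -⟩ :=
    exists_frac S.qcQ S.compQ (SG_laurent X) (2 * d + 3) (by omega)
  exact CA_main (S := S)
    { A' := A', K' := K', π' := π', M' := 2 * d + 3, hM' := by omega, χ := χ,
      i := i0.comp MvPolynomial.C, qc := qc, comp := comp, sg := sg, hχ := hχ,
      hi := fun q γ h => by rw [hπ, h]; rfl } hC hA le_rfl i0 hπ hinj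

end C74
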