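import Pool.Agent.MP_35f30a_al.C74.NX

/-!
ROW CB1.  Case B: the extension defined by a prime factor; (b).  Blueprint section 2.5 (CASE B).

`exists_NXB`: `P` a prime factor of `Φ` (`MvPolynomial` over a field is a UFD; `Φ ≠ 0` because `epsb Φ ≠ 0`, `Φ` is not a unit
because units are constants), `exists_pstep` (`SG_laurent`); `epsb P ≠ 0` since `epsb P ∣ epsb Φ`.
`zero_lt`: `Σ_j S.gw c j = tz (-n0) * ι q`, `πQ q = Φ`, `P ∣ Φ`, so `π' (χ q) = 0` and `Σ_j Fr.map χ (gw c j) ∈ lev (2 n0 - 1)`;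
this is `st .. 0` (`NXt.kX_st`, `NXt.FT_zero_iff`).
`small`: `st .. 0 = 0` would give `Drop`; so it has an exact size `q'' < q0`.  If `¬ FTlt (q0 - i r) (st .. i)` for some `1 ≤ i < e`, then
`idx` (its last hypothesis is void as `q'' ≠ q0`; `NXt.top_e`) gives `Drop` (`NXt.w_F1`).
-/

set_option autoImplicit false

open scoped TensorProduct Polynomial

namespace C74

variable {k : Type} [Field k]

section
variable {X : Obj k} {d : ℕ} {g : Fam X} {q0 r : ℚ} {N : ℕ} {δ : ℚ}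

/-- the output of PSTEP -/
structure NXB (S : NDS X d g q0 r N δ) (Φ : MvPolynomial S.Λ X.Γ) where
  Y : NXt S
  P : MvPolynomial S.Λ X.Γ
  hP : Prime P
  hM' : Y.M' = 2
  dvd : P ∣ Φ
  heps : S.epsb P ≠ 0
  hχ0 : ∀ q, Y.π' (Y.χ q) = 0 ↔ P ∣ S.πQ q
  spec : P.totalDegree = 1 → SpecX Y.i

/-- a nonconstant polynomial is not a unit -/
lemma CB1_not_isUnit {Γ Λ : Type} [Field Γ] {Φ : MvPolynomial Λ Γ}
    (h : Φ ∉ Set.range (MvPolynomial.C : Γ → MvPolynomial Λ Γ)) : ¬ IsUnit Φ := by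
  intro hu
  obtain ⟨W, hW⟩ := hu.exists_right_inv
  have hΦ0 : Φ ≠ 0 := hu.ne_zero
  have hW0 : W ≠ 0 := by
    rintro rfl
    rw [mul_zero] at hW
    exact zero_ne_one hW
  have hdeg := MvPolynomial.totalDegree_mul_of_isDomain hΦ0 hW0
  rw [hW, MvPolynomial.totalDegree_one] at hdeg
  have h0 : Φ.totalDegree = 0 := by omega
  rw [MvPolynomial.totalDegree_eq_zero_iff_eq_C] at h0
  exact h ⟨_, h0.symm⟩

theorem exists_NXB [IsAlgClosed k] (S : NDS X d g q0 r N δ) (Φ : MvPolynomial S.Λ X.Γ)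
    (h1 : Φ ∉ Set.range (MvPolynomial.C : X.Γ → MvPolynomial S.Λ X.Γ)) (h2 : S.epsb Φ ≠ 0) :
    Nonempty (NXB S Φ) := by
  classical
  have hΦ0 : Φ ≠ 0 := by
    rintro rfl
    exact h2 (map_zero _)
  obtain ⟨P, hirr, hdvd⟩ := WfDvdMonoid.exists_irreducible_factor (CB1_not_isUnit h1) hΦ0
  have hP : Prime P := hirr.prime
  have heps : S.epsb P ≠ 0 := by
    intro h
    apply h2
    have := map_dvd S.epsb hdvd
    rw [h] at this
    exact zero_dvd_iff.mp this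
  obtain ⟨A', rA', aA', K', fK', aK', π', χ, i, qc, comp, sg, hχ, hχ0, hi, hspec⟩ :=
    exists_pstep S.qcQ S.compQ (SG_laurent X) P hP
  exact ⟨{ Y := { A' := A', K' := K', π' := π', M' := 2, hM' := by norm_num, χ := χ, i := i,
                  qc := qc, comp := comp, sg := sg, hχ := hχ, hi := hi }
           P := P, hP := hP, hM' := rfl, dvd := hdvd, heps := heps, hχ0 := hχ0, spec := hspec }⟩

variable {S : NDS X d g q0 r N δ} {Φ : MvPolynomial S.Λ X.Γ} (Z : NXB S Φ)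

/-- the value of the transported state -/
lemma CB1_kX_zero (Y : NXt S) (c : k) :
    kX k Y.A' 0 (Y.ext.st d (Y.w c 0) g 0) =
      TP.ofA (Fr.map Y.χ Y.hχ (∑ j ∈ Finset.range (d + 1), S.gw c j)) := by
  rw [Y.kX_st c 0 0, map_sum, map_sum]
  refine Finset.sum_congr rfl fun j _ => ?_
  rw [Nat.cast_zero, neg_zero, Fr.tz_zero, one_mul]
  have h1 := TP.map_con (sig k Y.M') (Fr.map Y.χ Y.hχ) (fun r => Fr.map_algebraMap Y.χ Y.hχ r) (S.w c)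
    j 0 (gQ X S.f S.hf (g j))
  exact h1.symm

theorem NXB.zero_lt {c : k} {n0 : ℤ} (hn0 : (n0 : ℚ) = X.L * S.M * q0)
    (hΦ : Fr.Res S.πQ n0 (∑ j ∈ Finset.range (d + 1), S.gw c j) Φ) :
    Z.Y.obj.FTlt q0 (Z.Y.ext.st d (Z.Y.w c 0) g 0) := by
  obtain ⟨q, hq, hπq⟩ := hΦ
  have hL : (0 : ℚ) < X.L := by exact_mod_cast X.Lpos
  have hM : (0 : ℚ) < S.M := by
    have := S.hM4
    have h : 0 < S.M := by omega
    exact_mod_cast h
  have hzero : Z.Y.π' (Z.Y.χ q) = 0 := by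
    rw [Z.hχ0, hπq]; exact Z.dvd
  obtain ⟨b, hb⟩ := Z.Y.qc.ker _ hzero
  have hval : Fr.map Z.Y.χ Z.Y.hχ (∑ j ∈ Finset.range (d + 1), S.gw c j) =
      (Fr.tz (-(2 * n0 - 1)) : Fr k Z.Y.A') * Fr.ι b := by
    rw [hq, map_mul, map_tz, Fr.map_ι, hb, map_smul, Algebra.smul_def, ← Fr.tz_one, ← mul_assoc,
      ← Fr.tz_add, Z.hM']
    congr 2
    push_cast
    ring
  refine ⟨((2 * n0 - 1 : ℤ) : ℚ) / (X.L * S.M * 2), ?_, ?_⟩
  · rw [div_lt_iff₀ (by positivity)]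
    push_cast
    rw [hn0]
    linarith [show q0 * (X.L * S.M * 2) = 2 * (X.L * S.M * q0) by ring]
  · rw [Z.Y.FT_zero_iff, CB1_kX_zero, hval]
    have e2 : ⌊((X.L * (S.M * Z.Y.M') : ℕ) : ℚ) * (((2 * n0 - 1 : ℤ) : ℚ) / (X.L * S.M * 2))⌋ =
        2 * n0 - 1 := by
      have : ((X.L * (S.M * Z.Y.M') : ℕ) : ℚ) * (((2 * n0 - 1 : ℤ) : ℚ) / (X.L * S.M * 2)) =
          ((2 * n0 - 1 : ℤ) : ℚ) := by
        rw [Z.hM']; push_cast; field_simp
      rw [this, Int.floor_intCast]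
    unfold uQ
    rw [e2]
    exact ⟨TP.ofA b, rfl⟩

theorem NXB.small {e : ℕ} (hC : Crit X d g q0 r e) (hND : ¬ Drop X d g r e) {c : k} {n0 : ℤ}
    (hn0 : (n0 : ℚ) = X.L * S.M * q0)
    (hΦ : Fr.Res S.πQ n0 (∑ j ∈ Finset.range (d + 1), S.gw c j) Φ) :
    Small (Z.Y.ext.st d (Z.Y.w c 0) g) q0 r e := by
  intro i hi
  rcases Nat.eq_zero_or_pos i with h0 | h0
  · subst h0
    rw [Nat.cast_zero, zero_mul, sub_zero]
    exact Z.zero_lt hn0 hΦ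
  · by_contra hlt
    have hw := Z.Y.w_F1 c (Nat.zero_le Z.Y.M')
    have hne : Z.Y.ext.st d (Z.Y.w c 0) g 0 ≠ 0 := fun h =>
      hND ⟨Z.Y.obj, Z.Y.ext, Z.Y.w c 0, hw, Or.inl h⟩
    obtain ⟨q'', hq''⟩ := exists_FTx hne
    have hlt0 : q'' < q0 := (FTx.lt_iff hq'').mp (Z.zero_lt hn0 hΦ)
    obtain ⟨h4, h5⟩ := Z.Y.top_e hC c (Nat.zero_le Z.Y.M')
    obtain ⟨r'', e'', hr, he, hcrit⟩ := idx hC.one_le hC.le_d hq'' hlt0.le h4 h5 i h0 hi hlt
      (fun h => absurd h hlt0.ne)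
    exact hND ⟨Z.Y.obj, Z.Y.ext, Z.Y.w c 0, hw, Or.inr ⟨q'', r'', e'', hr, he, hcrit⟩⟩

end

end C74
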