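import Pool.Agent.MP_35f30a_al.C74.CB1

/-!
ROW CB2.  Case B: `N0 = N`.  Blueprint section 2.5 (CASE B).

Suppose `N0 < N`.  `OJx X ne N (g e)`, so `g e` has order `≥ N0 + 1` (`OJ_anti`).  `e1 := ` the largest `j ∈ Js` with
`¬ OJ X n_j (N0+1) (g j)` (`S.ord'`): `1 ≤ e1 < e` (`j > e` is not in `Js`).  Look at the `e1`-component of the shifted state
(`Small`: size `< q0 - e1 r`).  `kX (st .. e1) = Σ_j con w j e1 (..)` (`NXt.kX_st`, `a = 0`):
`j = e1`: `kX (T (g e1))` has nonzero residue at level `2 M n_{e1}` (`uRes_mkExt`; the decorated residue `s` of `g e1` is nonzero since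
`FTx`, and `TP.map i` is injective): `u`-size exactly `q0 - e1 r`;
`j ∈ Js, j > e1`: est2: `≤ q0 - e1 r - (j-e1)/(L M)`;  `j ∉ Js`, `j > e1`: est3: `≤ q0 - e1 r - 3/4 μ0`;  `j < e1`: `con_lt`.
So the `u`-size of the component is exactly `q0 - e1 r`, contradicting `Small` (`uQ_of_FT`).
-/

set_option autoImplicit false

open scoped TensorProduct Polynomial

namespace C74

variable {k : Type} [Field k]


section cb2

/-- a smaller rational level -/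
lemma CB2_lt {A : Type} [Ring A] [Algebra k[X] A] {L : ℕ} (hL : 0 < L) {q q' : ℚ} (hq : q' < q)
    {P : ℤ} (hP : (L : ℚ) * q = P) {j : ℕ} {T : TP k[X] (Fr k A) j} (h : uQ k A L q' T) :
    uLev k A (P - 1) T := by
  refine uLev_mono ?_ h
  have hL' : (0 : ℚ) < L := by exact_mod_cast hL
  have : ⌊(L : ℚ) * q'⌋ < P := by
    rw [Int.floor_lt, ← hP]
    exact mul_lt_mul_of_pos_left hq hL'
  omega

variable {X : Obj k} {d : ℕ} {g : Fam X} {q0 r : ℚ} {N : ℕ} {δ : ℚ}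
    {S : NDS X d g q0 r N δ} (Y : NXt S)

/-- the term `C_{j,i}(w'') g_j` -/
noncomputable def CB2_term (c : k) (j i : ℕ) : TP k[X] (Fr k Y.A') i :=
  TP.con ((Fr.tz (-((0 : ℕ) : ℤ)) : Fr k Y.A') * Fr.map Y.χ Y.hχ (S.w c)) j i
    (trT Y.χ Y.hχ j (gQ X S.f S.hf (g j)))

lemma CB2_st (c : k) (i : ℕ) :
    kX k Y.A' i (Y.ext.st d (Y.w c 0) g i) = ∑ j ∈ Finset.range (d + 1), CB2_term Y c j i :=
  Y.kX_st c 0 i

/-- the residue of the `e1`-component -/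
lemma CB2_main (c : k) {e1 : ℕ} (h1 : 1 ≤ e1) (hd : e1 ≤ d) (hx : X.FTx (q0 - e1 * r) (g e1))
    (hmax : ∀ j, e1 < j → j ≤ d → X.FTx (q0 - j * r) (g j) →
      ∀ n : ℤ, (n : ℚ) = X.L * (q0 - j * r) → OJ X n (S.N0 + 1) (g j)) :
    ¬ Y.obj.FTlt (q0 - e1 * r) (Y.ext.st d (Y.w c 0) g e1) := by
  have hL : (0 : ℚ) < X.L := by exact_mod_cast X.Lpos
  have hMn : 0 < S.M := by have := S.hM4; omega
  have hM : (0 : ℚ) < S.M := by exact_mod_cast hMn
  have hM' : (0 : ℚ) < Y.M' := by exact_mod_cast Y.hM'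
  obtain ⟨n, hn, hkF, hkF'⟩ := FTx_iff.mp hx
  obtain ⟨σ, hσ⟩ := exists_DRes hkF
  have hσ0 : σ ≠ 0 := by
    rintro rfl
    exact hkF' (kF_of_DRes_zero hkF hσ)
  have hres := uRes_mkExt X Y.qc Y.comp Y.sg (S.M * Y.M') Y.hMM (Y.χ.comp S.f)
    (isScale_comp S.hf Y.hχ) Y.i (fun a => Y.hi _ _ (S.hfr a)) hσ
  have hself : kX k Y.A' e1 (Y.ext.T e1 (g e1)) = CB2_term Y c e1 e1 := by
    rw [CB2_term, TP.con_self]
    exact kX_mkExt X S.f S.hf Y.χ Y.hχ Y.qc Y.comp Y.sg Y.hMM Y.i _ (g e1)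
  have hres' : uRes Y.qc (((S.M * Y.M' : ℕ) : ℤ) * n) (CB2_term Y c e1 e1)
      (TP.map (RingHom.id k) Y.i (mk_i_k X Y.qc (S.M * Y.M') (Y.χ.comp S.f)
        (isScale_comp S.hf Y.hχ) Y.i (fun a => Y.hi _ _ (S.hfr a))) e1 σ) := by
    rw [← hself]
    exact hres
  set P : ℤ := ((S.M * Y.M' : ℕ) : ℤ) * n with hP
  have hn1 : (q0 - e1 * r) * X.L = n := (eq_div_iff hL.ne').mp hn
  have hPq : ((X.L * S.M * Y.M' : ℕ) : ℚ) * (q0 - e1 * r) = P := by
    rw [hP]; push_cast; rw [← hn1]; ring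
  have hother : ∀ j ∈ (Finset.range (d + 1)).erase e1,
      uLev k Y.A' (P - 1) (CB2_term Y c j e1) := by
    intro j hj
    rw [Finset.mem_erase, Finset.mem_range] at hj
    have hjd : j ≤ d := Nat.lt_succ_iff.mp hj.2
    rcases lt_or_gt_of_ne hj.1 with hji | hji
    · rw [CB2_term, TP.con_lt _ _ _ hji]
      exact ⟨0, by rw [map_zero, smul_zero]⟩
    · have hj1 : 1 ≤ j := by omega
      have hc0 : (0 : ℚ) < ((j - e1 : ℕ) : ℚ) := by
        have : 0 < j - e1 := by omega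
        exact_mod_cast this
      by_cases hjx : X.FTx (q0 - j * r) (g j)
      · have h3 := S.est2 c hj1 hjd hji.le hjx (hmax j hji hjd hjx)
        have h4 := uQ_con_tr Y.hM' Y.χ Y.hχ (X.L * S.M)
          (Nat.mul_pos X.Lpos hMn) 0 (S.w c) hji.le h3
        refine CB2_lt (Nat.mul_pos (Nat.mul_pos X.Lpos hMn) Y.hM') ?_ hPq h4
        have : 0 < ((j - e1 : ℕ) : ℚ) / (X.L * S.M) := by positivity
        rw [Nat.cast_zero, mul_zero, zero_div, add_zero]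
        linarith
      · have h3 := S.est3 c hj1 hjd hji.le hjx
        have h4 := uQ_con_tr Y.hM' Y.χ Y.hχ (X.L * S.M)
          (Nat.mul_pos X.Lpos hMn) 0 (S.w c) hji.le h3
        refine CB2_lt (Nat.mul_pos (Nat.mul_pos X.Lpos hMn) Y.hM') ?_ hPq h4
        have := S.μ0pos
        rw [Nat.cast_zero, mul_zero, zero_div, add_zero]
        linarith
  rintro ⟨q', hq', hmem⟩
  have h5 := uQ_of_FT hmem
  have hL2 : (Y.obj.L : ℕ) = X.L * S.M * Y.M' := by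
    show X.L * (S.M * Y.M') = _
    rw [mul_assoc]
  rw [hL2] at h5
  have h6 : uLev k Y.A' (P - 1) (kX k Y.A' e1 (Y.ext.st d (Y.w c 0) g e1)) :=
    CB2_lt (Nat.mul_pos (Nat.mul_pos X.Lpos hMn) Y.hM') hq' hPq h5
  have hsum : uRes Y.qc P (kX k Y.A' e1 (Y.ext.st d (Y.w c 0) g e1))
      (TP.map (RingHom.id k) Y.i (mk_i_k X Y.qc (S.M * Y.M') (Y.χ.comp S.f)
        (isScale_comp S.hf Y.hχ) Y.i (fun a => Y.hi _ _ (S.hfr a))) e1 σ) := by
    rw [CB2_st, ← Finset.add_sum_erase _ _ (Finset.mem_range.mpr (Nat.lt_succ_of_le hd))]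
    have := uRes_add Y.qc hres' (uRes_of_uLev_lt Y.qc (uLev_sum _ _ hother))
    rwa [add_zero] at this
  refine not_uLev_of_uRes Y.qc Y.comp hsum ?_ h6
  intro h0
  apply hσ0
  apply TP.map_injective_field Y.i _ Y.i.injective e1
  rw [h0, map_zero]

end cb2

theorem NXB.N0_eq {X : Obj k} {d : ℕ} {g : Fam X} {q0 r : ℚ} {e N : ℕ} {δ : ℚ}
    {S : NDS X d g q0 r N δ} {Φ : MvPolynomial S.Λ X.Γ} (Z : NXB S Φ)
    (hC : Crit X d g q0 r e) {ne : ℤ}
    (hne : (ne : ℚ) = X.L * (q0 - e * r)) (hN : OJx X ne N (g e)) {c : k}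
    (hS : Small (Z.Y.ext.st d (Z.Y.w c 0) g) q0 r e) : S.N0 = N := by
  classical
  by_contra hne0
  have hlt : S.N0 < N := lt_of_le_of_ne S.hN0 hne0
  have hL : (X.L : ℚ) ≠ 0 := by exact_mod_cast X.Lpos.ne'
  let P : ℕ → Prop := fun j => 1 ≤ j ∧ X.FTx (q0 - j * r) (g j) ∧
    ∃ n : ℤ, (n : ℚ) = X.L * (q0 - j * r) ∧ ¬ OJ X n (S.N0 + 1) (g j)
  obtain ⟨j0, m0, hj01, hj0d, hj0x, hm0, hj0o⟩ := S.ord'
  have hP0 : P j0 := ⟨hj01, hj0x, m0, hm0, hj0o⟩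
  obtain ⟨hj1, hjx, n, hn, hno⟩ : P (Nat.findGreatest P d) := Nat.findGreatest_spec hj0d hP0
  have hjd : Nat.findGreatest P d ≤ d := Nat.findGreatest_le d
  have hmax : ∀ j, Nat.findGreatest P d < j → j ≤ d → ¬ P j := fun j h1 h2 =>
    Nat.findGreatest_is_greatest h1 h2
  generalize Nat.findGreatest P d = e1 at hj1 hjx hn hno hjd hmax
  have hmax' : ∀ j, e1 < j → j ≤ d → X.FTx (q0 - j * r) (g j) →
      ∀ n : ℤ, (n : ℚ) = X.L * (q0 - j * r) → OJ X n (S.N0 + 1) (g j) := by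
    intro j h1 h2 h3 n hn
    by_contra h4
    exact hmax j h1 h2 ⟨by omega, h3, n, hn, h4⟩
  have hie : e1 ≤ e := by
    by_contra h
    exact hjx.2 (hC.lt e1 (by omega) hjd)
  have hie' : e1 ≠ e := by
    rintro rfl
    have h1 : n = ne := by
      have : (n : ℚ) = ne := by rw [hn, hne]
      exact_mod_cast this
    rw [h1] at hno
    exact hno (OJ_anti (by omega) hN.1)
  exact CB2_main Z.Y c hj1 hjd hjx hmax' (hS e1 (by omega))

end C74
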