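import Pool.Agent.MP_35f30a_al.C74.CB2

/-!
ROW CB3.  Case B: conclusion.  Blueprint section 2.5 (CASE B).

`N0 = N`.  `T1` has exact order `N` at level `nT`: `uRes_J1x` with `j = 0` (or directly `S.lin` and `gQ_eq`): `ev (S.w c) (gQ T1)` has residue
`c λ` at level `p := M nT + (s - N) `, `(p:ℚ) = L M (qT + r)`, `qT = nT/L`, `λ ≠ 0` homogeneous of degree `1` (`S.lin`), and `epsb λ = 0`
(`eps w0 = 0`, as in row XC).
`β ∈ E` with `T1(w') - φ β ∈ FTlt (qT + r)` (`hstar`).  `T1(w') ∈ F (qT + r)`, so `φ β ∈ F (qT + r)`, `β ∈ F (qT + r)`, and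
`toQ β ∈ lev p` with residue `C γ` (`γ = mon n b` if `L (qT + r) ∈ ℤ`, `res_toQ`; `γ = 0` otherwise).
`ev (S.w c) (gQ T1) - toQ β = tz (-p) * ι q`, `πQ q = c λ - C γ`; after `χ`: this is `T1(w') - φ β ∈ lev (2 p - 1)`, so `π' (χ q) = 0`,
`P ∣ c λ - C γ`.  This is a nonzero polynomial of degree `1`; `P` is not a constant, so `c λ - C γ = u P` with `u ∈ Γˣ`
(total degree) and `P.totalDegree = 1`.  `epsb`: `- γ = u epsb P ≠ 0`.  So `γ ≠ 0`: `β` has exact size `qT + r`, so has `φ β`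
(`Ext.FTx_iff`), hence `T1(w') = φ β + smaller` (`FTx_add`).  Good: `mkExt_good` with `Z.spec`.
-/

set_option autoImplicit false

open scoped TensorProduct Polynomial

namespace C74

variable {k : Type} [Field k]


section cb3a

lemma CB3_res_sub {A : Type} [Ring A] [Algebra k[X] A] {S' : Type} [CommRing S'] {π : A →+* S'}
    {n : ℤ} {d d' : Fr k A} {s s' : S'} (h : Fr.Res π n d s) (h' : Fr.Res π n d' s') :
    Fr.Res π n (d - d') (s - s') := by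
  obtain ⟨a, ha, hs⟩ := h
  obtain ⟨b, hb, hs'⟩ := h'
  exact ⟨a - b, by rw [ha, hb, map_sub, mul_sub], by rw [map_sub, hs, hs']⟩

/-- transfer of residues of elements -/
lemma CB3_res_map {Q A' : Type} [Ring Q] [Algebra k[X] Q] [Ring A'] [Algebra k[X] A'] {S₁ : Type}
    [CommRing S₁] {πQ : Q →+* S₁} {M' : ℕ} (χ : Q →+* A') (hχ : IsScale k M' χ) {n : ℤ}
    {y : Fr k Q} {s : S₁} (h : Fr.Res πQ n y s) :
    ∃ q, πQ q = s ∧ Fr.map χ hχ y = (Fr.tz (-((M' : ℤ) * n)) : Fr k A') * Fr.ι (χ q) := by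
  obtain ⟨a, ha, hs⟩ := h
  refine ⟨a, hs, ?_⟩
  rw [ha, map_mul, map_tz, Fr.map_ι, mul_neg]

/-- raising the level: the residue is `0` -/
lemma CB3_res_lt {A : Type} [Ring A] [Algebra k[X] A] {S' : Type} [CommRing S'] [Algebra k S']
    {π : A →+* S'} (hπ : IsQC k π) {n p : ℤ} (hnp : n < p) {d : Fr k A} {s : S'}
    (h : Fr.Res π n d s) : Fr.Res π p d 0 := by
  obtain ⟨a, ha, -⟩ := h
  obtain ⟨m, hm⟩ : ∃ m : ℕ, p = n + (m + 1 : ℕ) := ⟨(p - n - 1).toNat, by omega⟩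
  refine ⟨tX k • ((tX k) ^ m • a), ?_, hπ.kerX _⟩
  have h1 : (Fr.ι (tX k • ((tX k) ^ m • a)) : Fr k A) = Fr.tz ((m + 1 : ℕ) : ℤ) * Fr.ι a := by
    rw [smul_smul, ← pow_succ', map_smul, Algebra.smul_def, ← Fr.tz_nat]
  rw [h1, ← mul_assoc, ← Fr.tz_add, ha, hm]
  congr 2
  ring

end cb3a

section cb3b
variable {X : Obj k} {d : ℕ} {g : Fam X} {q0 r : ℚ} {N : ℕ} {δ : ℚ}

/-- powers of `X` are regular -/
lemma CB3_reg {A : Type} [Ring A] [Algebra k[X] A] {S' : Type} [CommRing S'] [Algebra k S']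
    {π : A →+* S'} (hπ : IsQC k π) (m : ℕ) (a : A) (h : (tX k) ^ m • a = 0) : a = 0 := by
  induction m with
  | zero => simpa using h
  | succ m ih =>
    apply ih
    apply hπ.reg
    rw [smul_smul, ← pow_succ']; exact h

/-- `X^{-M n} ..`: the value of `T1` at `w` -/
lemma CB3_ev (S : NDS X d g q0 r N δ) (hN0 : S.N0 = N) {T1 : TP k X.D 1} {nT : ℤ}
    (hT1 : OJx X nT N T1) {c : k} (hc : c ≠ 0) :
    ∃ (lam : MvPolynomial S.Λ X.Γ) (p : ℤ), (p : ℚ) = X.L * S.M * ((nT : ℚ) / X.L + r) ∧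
      lam ≠ 0 ∧ lam.IsHomogeneous 1 ∧ S.epsb lam = 0 ∧
      Fr.Res S.πQ p (TP.ev (S.w c) (gQ X S.f S.hf T1)) lam := by
  have hL : (X.L : ℚ) ≠ 0 := by exact_mod_cast X.Lpos.ne'
  obtain ⟨⟨hkF, σ, hσ, hσJ⟩, hno⟩ := hT1
  have hσJ' : σ ∉ JJ k X.Γ (N + 1) 1 := fun h => hno ⟨hkF, σ, hσ, h⟩
  rw [JJ_one] at hσJ hσJ'
  obtain ⟨T', hT', hg⟩ := gQ_eq X S.f S.hf hσ
  have hNM : N < S.M := by
    have := S.hMN
    nlinarith [Nat.zero_le d, Nat.zero_le N]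
  obtain ⟨u, hu, hhom, hiff⟩ := S.lin N hNM T' (by rw [hT']; exact hσJ)
  have hu0 : S.πQ u ≠ 0 := fun h => hσJ' (by rw [← hT']; exact hiff.mp h)
  -- the value vanishes under `eps`
  have heps : S.epsb (S.πQ u) = 0 := by
    rw [← S.epsr]
    have h1 : S.eps (TP.ev S.w0 (mapX S.f S.hf 1 T')) = 0 := by
      have h2 := TP.map_ev (RingHom.id k[X]) (S.eps : S.Q →+* S.O) (fun r => S.eps.commutes r) S.w0 1
        (mapX S.f S.hf 1 T')
      have h3 : (S.eps : S.Q →+* S.O) S.w0 = 0 := S.epsw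
      rw [h3] at h2
      have h4 : ∀ T : TP k[X] S.O 1, TP.ev (0 : S.O) T = 0 := by
        intro T
        unfold TP.ev
        rw [TP.con_zero _ _ (by norm_num)]; exact map_zero _
      rw [h4] at h2
      exact h2
    rw [hu, map_smul] at h1
    rw [CB3_reg S.qcO _ _ h1, map_zero]
  refine ⟨S.πQ ((Polynomial.C c : k[X]) • u), (S.M : ℤ) * nT + S.s - N, ?_, ?_, ?_, ?_, ?_⟩
  · push_cast
    rw [S.hs, hN0]
    field_simp
    ring
  · have h1 : S.πQ ((Polynomial.C c : k[X]) • u) = algebraMap k _ c * S.πQ u := by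
      rw [Algebra.smul_def, map_mul, S.qcQ.scal]
    rw [h1]
    exact mul_ne_zero ((map_ne_zero_iff _ (algebraMap k (MvPolynomial S.Λ X.Γ)).injective).mpr hc) hu0
  · have h1 : S.πQ ((Polynomial.C c : k[X]) • u) = MvPolynomial.C (algebraMap k X.Γ c) * S.πQ u := by
      rw [Algebra.smul_def, map_mul, S.qcQ.scal]; rfl
    rw [h1]
    have := (MvPolynomial.isHomogeneous_C S.Λ (algebraMap k X.Γ c)).mul hhom
    rwa [zero_add] at this
  · rw [Algebra.smul_def, map_mul, map_mul, heps, mul_zero]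
  · refine ⟨(Polynomial.C c : k[X]) • u, ?_, rfl⟩
    have h1 := con_gQ X S.f S.hf (Nat.zero_le 1) S.s hg (algebraMap k[X] S.Q (Polynomial.C c) * S.w0)
    have h2 : TP.ev (S.w c) (gQ X S.f S.hf T1) =
        (Fr.tz (-((S.M : ℤ) * nT + ((1 - 0 : ℕ) : ℤ) * S.s)) : Fr k S.Q) * Fr.ι (TP.toA (TP.con
          (algebraMap k[X] S.Q (Polynomial.C c) * S.w0) 1 0 (mapX S.f S.hf 1 T'))) := by
      unfold TP.ev NDS.w
      rw [h1]; rfl
    have h3 : TP.toA (TP.con (algebraMap k[X] S.Q (Polynomial.C c) * S.w0) 1 0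
        (mapX S.f S.hf 1 T')) = (tX k) ^ N • ((Polynomial.C c : k[X]) • u) := by
      rw [← Algebra.smul_def, TP.con_smulR _ _ _ _ (Nat.zero_le 1), TP.toA_smulR]
      have : TP.toA (TP.con S.w0 1 0 (mapX S.f S.hf 1 T')) = (tX k) ^ N • u := hu
      rw [this]
      simp only [Nat.sub_zero, pow_one]
      rw [smul_smul, smul_smul, mul_comm]
    rw [h2, h3, map_smul, Algebra.smul_def, ← Fr.tz_nat, ← mul_assoc, ← Fr.tz_add]
    congr 2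
    push_cast
    ring

/-- the residue of `β` in `Fr Q` -/
lemma CB3_toQ (S : NDS X d g q0 r N δ) {β : X.D} {q : ℚ} (hβ : β ∈ X.F q) {p : ℤ}
    (hp : (p : ℚ) = X.L * S.M * q) :
    ∃ γ : X.Γ, Fr.Res S.πQ p (toQ X S.f S.hf β) (MvPolynomial.C γ) ∧
      (γ ≠ 0 → X.FTx q (TP.ofA β : TP k X.D 0)) := by
  have hL : (X.L : ℚ) ≠ 0 := by exact_mod_cast X.Lpos.ne'
  have hM : (0 : ℚ) < S.M := by
    have := S.hM4
    have h : 0 < S.M := by omega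
    exact_mod_cast h
  obtain ⟨b, hb⟩ := exists_res hβ
  have h1 := res_toQ X S.f S.hf hb (MvPolynomial.C : X.Γ →+* MvPolynomial S.Λ X.Γ) S.hfr
  have hle : (S.M : ℤ) * ⌊(X.L : ℚ) * q⌋ ≤ p := by
    have : (((S.M : ℤ) * ⌊(X.L : ℚ) * q⌋ : ℤ) : ℚ) ≤ p := by
      push_cast
      rw [hp]
      have := Int.floor_le ((X.L : ℚ) * q)
      nlinarith
    exact_mod_cast this
  rcases hle.eq_or_lt with heq | hlt
  · refine ⟨X.mon ⌊(X.L : ℚ) * q⌋ b, heq ▸ h1, ?_⟩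
    intro hne
    have hb0 : b ≠ 0 := by
      rintro rfl
      apply hne
      simp [Obj.mon]
    rw [FTx_iff]
    refine ⟨⌊(X.L : ℚ) * q⌋, ?_, hβ, ?_⟩
    · rw [eq_div_iff hL]
      have h2 : ((S.M : ℤ) : ℚ) * (⌊(X.L : ℚ) * q⌋ : ℚ) = X.L * S.M * q := by
        rw [← hp, ← heq]; push_cast; ring
      have h3 : (S.M : ℚ) * (⌊(X.L : ℚ) * q⌋ : ℚ) = S.M * (q * X.L) := by
        rw [← Int.cast_natCast (R := ℚ) S.M, h2]; push_cast; ring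
      exact (mul_left_cancel₀ hM.ne' h3).symm
    · intro h2
      exact hb0 ((mem_lev_iff_res hb).mp h2)
  · refine ⟨0, ?_, fun h => absurd rfl h⟩
    rw [MvPolynomial.C_0]
    exact CB3_res_lt S.qcQ hlt h1

/-- the value of the transported tensor -/
lemma CB3_evmap {S : NDS X d g q0 r N δ} (Y : NXt S) (c : k) (T1 : TP k X.D 1) :
    TP.ev (Y.w c 0) (Y.ext.T 1 T1) =
      Fr.map Y.χ Y.hχ (TP.ev (S.w c) (gQ X S.f S.hf T1)) := by
  have h1 : kX k Y.A' 1 (Y.ext.T 1 T1) = trT Y.χ Y.hχ 1 (gQ X S.f S.hf T1) :=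
    kX_mkExt X S.f S.hf Y.χ Y.hχ Y.qc Y.comp Y.sg Y.hMM Y.i _ T1
  have h2 : Y.w c 0 = Fr.map Y.χ Y.hχ (S.w c) := by
    unfold NXt.w
    rw [Nat.cast_zero, neg_zero, Fr.tz_zero, one_mul]
  have h3 : TP.ev (Y.w c 0) (Y.ext.T 1 T1) =
      TP.ev (Fr.map Y.χ Y.hχ (S.w c)) (kX k Y.A' 1 (Y.ext.T 1 T1)) := by
    rw [h2]
    exact TP.map_ev (Polynomial.C : k →+* k[X]) (RingHom.id (Fr k Y.A')) (fun _ => rfl)
      (Fr.map Y.χ Y.hχ (S.w c)) 1 (Y.ext.T 1 T1)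
  rw [h3, h1]
  exact (TP.map_ev (sig k Y.M') (Fr.map Y.χ Y.hχ) (fun r => Fr.map_algebraMap Y.χ Y.hχ r) (S.w c) 1
    (gQ X S.f S.hf T1)).symm

/-- a prime divisor of a nonzero linear form plus a constant -/
lemma CB3_dvd {Γ Λ : Type} [Field Γ] (epsb : MvPolynomial Λ Γ →+* Γ)
    (hC : ∀ x, epsb (MvPolynomial.C x) = x) {P lam : MvPolynomial Λ Γ} {γ : Γ} (hP : Prime P)
    (hPe : epsb P ≠ 0) (hl0 : lam ≠ 0) (hl : lam.IsHomogeneous 1) (hle : epsb lam = 0)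
    (hd : P ∣ lam - MvPolynomial.C γ) : P.totalDegree = 1 ∧ γ ≠ 0 := by
  have hdl : lam.totalDegree = 1 := hl.totalDegree hl0
  set R := lam - MvPolynomial.C γ with hR
  have hlam : lam = R + MvPolynomial.C γ := by rw [hR]; ring
  have hRd : R.totalDegree = 1 := by
    apply le_antisymm
    · have := MvPolynomial.totalDegree_sub lam (MvPolynomial.C γ)
      rw [hdl, MvPolynomial.totalDegree_C] at this
      simpa using this
    · by_contra hlt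
      have h0 : R.totalDegree = 0 := by omega
      rw [MvPolynomial.totalDegree_eq_zero_iff_eq_C] at h0
      rw [h0, ← map_add] at hlam
      rw [hlam, MvPolynomial.totalDegree_C] at hdl
      exact absurd hdl (by norm_num)
  have hR0 : R ≠ 0 := by
    intro h
    rw [h, MvPolynomial.totalDegree_zero] at hRd
    exact absurd hRd (by norm_num)
  obtain ⟨W, hW⟩ := hd
  have hW0 : W ≠ 0 := by
    rintro rfl
    exact hR0 (by rw [hW, mul_zero])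
  have hdeg := MvPolynomial.totalDegree_mul_of_isDomain hP.ne_zero hW0
  rw [← hW, hRd] at hdeg
  have hPd : P.totalDegree ≠ 0 := by
    intro h
    rw [MvPolynomial.totalDegree_eq_zero_iff_eq_C] at h
    have hc : MvPolynomial.coeff 0 P ≠ 0 := by
      intro h0
      rw [h0, MvPolynomial.C_0] at h
      exact hP.ne_zero h
    apply hP.not_isUnit
    rw [h]
    exact (isUnit_iff_ne_zero.mpr hc).map (MvPolynomial.C : Γ →+* MvPolynomial Λ Γ)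
  have hWd : W.totalDegree = 0 := by omega
  refine ⟨by omega, ?_⟩
  rintro rfl
  rw [MvPolynomial.totalDegree_eq_zero_iff_eq_C] at hWd
  have hc : MvPolynomial.coeff 0 W ≠ 0 := by
    intro h0
    rw [h0, MvPolynomial.C_0] at hWd
    exact hW0 hWd
  have h1 : epsb R = 0 := by rw [hR, map_sub, hle, hC, sub_zero]
  rw [hW, map_mul, hWd, hC] at h1
  exact (mul_ne_zero hPe hc) h1

end cb3b

theorem NXB.concl [IsAlgClosed k] {X : Obj k} {d : ℕ} {g : Fam X} {q0 r : ℚ} {e N : ℕ} {δ : ℚ}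
    {S : NDS X d g q0 r N δ} {Φ : MvPolynomial S.Λ X.Γ} (Z : NXB S Φ) (hN0 : S.N0 = N)
    (hδ : 0 < δ) {T1 : TP k X.D 1} {nT : ℤ} (hT1 : OJx X nT N T1) (E : Submodule k X.D)
    (hstar : ∀ (X' : Obj k) (f : Ext X X') (w : X'.D), w ∈ X'.F (r + δ) →
      Small (f.st d w g) q0 r e →
        ∃ β ∈ E, X'.FTlt ((nT : ℚ) / X.L + r)
          (TP.ofA (TP.ev w (f.T 1 T1) - f.φ β) : TP k X'.D 0))
    {c : k} (hc : c ≠ 0)
    (hS : Small (Z.Y.ext.st d (Z.Y.w c 0) g) q0 r e) :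
    Z.Y.ext.Good ∧ Z.Y.obj.FTx ((nT : ℚ) / X.L + r)
      (TP.ofA (TP.ev (Z.Y.w c 0) (Z.Y.ext.T 1 T1)) : TP k Z.Y.obj.D 0) := by
  have hL : (0 : ℚ) < X.L := by exact_mod_cast X.Lpos
  have hM : (0 : ℚ) < S.M := by
    have := S.hM4
    have h : 0 < S.M := by omega
    exact_mod_cast h
  obtain ⟨lam, p, hp, hl0, hl, hle, hres⟩ := CB3_ev S hN0 hT1 hc
  obtain ⟨β, -, hβ⟩ := hstar Z.Y.obj Z.Y.ext (Z.Y.w c 0) (Z.Y.w_Fδ hδ c (Nat.zero_le _)) hS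
  set q : ℚ := (nT : ℚ) / X.L + r with hq
  have hobjL : ((Z.Y.obj.L : ℕ) : ℚ) = X.L * S.M * 2 := by
    have : Z.Y.obj.L = X.L * (S.M * Z.Y.M') := rfl
    rw [this, Z.hM']; push_cast; ring
  have hq2 : q = ((2 * p : ℤ) : ℚ) / Z.Y.obj.L := by
    rw [hobjL]; push_cast; rw [hp]
    field_simp
  -- the value
  have hmap := CB3_evmap Z.Y c T1
  obtain ⟨u, hu, hmu⟩ := CB3_res_map Z.Y.χ Z.Y.hχ hres
  have h2p : ((Z.Y.M' : ℤ) * p) = 2 * p := by rw [Z.hM']; norm_num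
  rw [h2p] at hmu
  have hT1F : TP.ev (Z.Y.w c 0) (Z.Y.ext.T 1 T1) ∈ Z.Y.obj.F q := by
    rw [hmap, hmu]
    have : ⌊((Z.Y.obj.L : ℕ) : ℚ) * q⌋ = 2 * p := by
      have h : ((Z.Y.obj.L : ℕ) : ℚ) * q = ((2 * p : ℤ) : ℚ) := by
        rw [hobjL]; push_cast; rw [hp]; ring
      rw [h, Int.floor_intCast]
    show _ ∈ Fr.lev k Z.Y.obj.A ⌊((Z.Y.obj.L : ℕ) : ℚ) * q⌋
    rw [this]
    exact ⟨Z.Y.χ u, rfl⟩
  have hφF : Z.Y.ext.φ β ∈ Z.Y.obj.F q := by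
    have h1 : TP.ev (Z.Y.w c 0) (Z.Y.ext.T 1 T1) - Z.Y.ext.φ β ∈ Z.Y.obj.F q :=
      mem_F_iff.mpr (FTlt_FT hβ)
    have h2 := Submodule.sub_mem _ hT1F h1
    rwa [sub_sub_cancel] at h2
  have hβF : β ∈ X.F q := (Z.Y.ext.F_iff q β).mp hφF
  obtain ⟨γ, hγ, hγx⟩ := CB3_toQ S hβF hp
  -- the difference
  have hdiff := CB3_res_sub hres hγ
  obtain ⟨v, hv, hmv⟩ := CB3_res_map Z.Y.χ Z.Y.hχ hdiff
  rw [h2p, map_sub, ← hmap, ← φ_mkExt X S.f S.hf Z.Y.χ Z.Y.hχ Z.Y.qc Z.Y.comp Z.Y.sg Z.Y.hMM Z.Y.i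
    (fun a => Z.Y.hi _ _ (S.hfr a)) β] at hmv
  have hResv : Fr.Res Z.Y.obj.π (2 * p) (TP.ev (Z.Y.w c 0) (Z.Y.ext.T 1 T1) - Z.Y.ext.φ β)
      (Z.Y.π' (Z.Y.χ v)) := ⟨Z.Y.χ v, hmv, rfl⟩
  have hlev : TP.ev (Z.Y.w c 0) (Z.Y.ext.T 1 T1) - Z.Y.ext.φ β ∈ Fr.lev k Z.Y.obj.A (2 * p - 1) := by
    rw [hq2, FTlt_iff] at hβ
    exact hβ
  have hzero : Z.Y.π' (Z.Y.χ v) = 0 := (mem_lev_iff_res hResv).mp hlev
  have hdvd : Z.P ∣ lam - MvPolynomial.C γ := by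
    rw [← hv]; exact (Z.hχ0 v).mp hzero
  obtain ⟨hPd, hγ0⟩ := CB3_dvd S.epsb S.epsC Z.hP Z.heps hl0 hl hle hdvd
  refine ⟨mkExt_good X Z.Y.qc Z.Y.comp Z.Y.sg (S.M * Z.Y.M') Z.Y.hMM (Z.Y.χ.comp S.f)
    (isScale_comp S.hf Z.Y.hχ) Z.Y.i (fun a => Z.Y.hi _ _ (S.hfr a)) (Z.spec hPd), ?_⟩
  have h1 : Z.Y.obj.FTx q (TP.ofA (Z.Y.ext.φ β) : TP k Z.Y.obj.D 0) := by
    rw [← Ext.T_ofA]
    exact (Z.Y.ext.FTx_iff q _).mpr (hγx hγ0)
  have h2 := FTx_add h1 hβ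
  rw [← map_add, add_sub_cancel] at h2
  exact h2

end C74
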