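import Pool.Agent.MP_35f30a_al.C74.QC

/-!
ROW CPM.  Completion of `X`-regular modules.  Blueprint section 3 (COMPL).

`N' := AdicCompletion (Ideal.span {X}) N`, or the submodule of compatible sequences of
`Π n, N ⧸ (X^n N)`.  `X` regular on `N'`, `N'/X^n = N/X^n`; a linear map `f : N → E` to a complete
module extends uniquely: `f' m' = lim f(m_n)`, where `m' ≡ c m_n mod X^n`.
-/

set_option autoImplicit false

open scoped TensorProduct Polynomial

namespace C74

variable {k : Type} [Field k]

section CPM_aux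
variable (k) (N : Type) [AddCommGroup N] [Module k[X] N]

/-- series that are zero in the completion -/
noncomputable def CPM_null : Submodule k[X] (ℕ → N) where
  carrier := {v | ∀ n, ∃ b : N, ∑ i ∈ Finset.range n, (tX k) ^ i • v i = (tX k) ^ n • b}
  add_mem' := by
    intro v w hv hw n
    obtain ⟨b, hb⟩ := hv n
    obtain ⟨b', hb'⟩ := hw n
    exact ⟨b + b', by simp only [Pi.add_apply, smul_add, Finset.sum_add_distrib, hb, hb']⟩
  zero_mem' := fun n => ⟨0, by simp⟩
  smul_mem' := by
    intro r v hv n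
    obtain ⟨b, hb⟩ := hv n
    refine ⟨r • b, ?_⟩
    rw [smul_comm, ← hb, Finset.smul_sum]
    exact Finset.sum_congr rfl fun i _ => by rw [Pi.smul_apply, smul_comm]

theorem CPM_mem (v : ℕ → N) : v ∈ CPM_null k N ↔
    ∀ n, ∃ b : N, ∑ i ∈ Finset.range n, (tX k) ^ i • v i = (tX k) ^ n • b := Iff.rfl

/-- the canonical map -/
noncomputable def CPM_c : N →ₗ[k[X]] (ℕ → N) ⧸ CPM_null k N :=
  (CPM_null k N).mkQ ∘ₗ LinearMap.single k[X] (fun _ => N) 0

theorem CPM_c_apply (m : N) : CPM_c k N m = (CPM_null k N).mkQ (Pi.single 0 m) := rfl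

theorem CPM_step (v : ℕ → N) : (CPM_null k N).mkQ v =
    CPM_c k N (v 0) + tX k • (CPM_null k N).mkQ (fun i => v (i + 1)) := by
  rw [CPM_c_apply, ← map_smul, ← map_add, ← sub_eq_zero, ← map_sub, Submodule.mkQ_apply,
    Submodule.Quotient.mk_eq_zero, CPM_mem]
  intro n
  cases n with
  | zero => exact ⟨0, by simp⟩
  | succ n =>
    refine ⟨-v (n + 1), ?_⟩
    induction n with
    | zero => simp
    | succ n ih =>
      rw [Finset.sum_range_succ, ih]
      simp only [Pi.sub_apply, Pi.add_apply, Pi.smul_apply]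
      rw [Pi.single_eq_of_ne (Nat.succ_ne_zero n), zero_add, smul_sub, smul_smul,
        ← pow_succ, smul_neg, smul_neg]
      abel

theorem CPM_split (v : ℕ → N) (n : ℕ) : (CPM_null k N).mkQ v =
    CPM_c k N (∑ i ∈ Finset.range n, (tX k) ^ i • v i) +
      (tX k) ^ n • (CPM_null k N).mkQ (fun i => v (n + i)) := by
  induction n with
  | zero => simp
  | succ n ih =>
    rw [ih, Finset.sum_range_succ, map_add, CPM_step k N (fun i => v (n + i)), smul_add,
      smul_smul, ← pow_succ, map_smul, add_zero, add_assoc]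
    have : (fun i => v (n + (i + 1))) = fun i => v (n + 1 + i) := by
      funext i
      congr 1
      omega
    rw [this]

theorem CPM_surj (m' : (ℕ → N) ⧸ CPM_null k N) :
    ∃ (m : N) (b : (ℕ → N) ⧸ CPM_null k N), m' = CPM_c k N m + tX k • b := by
  obtain ⟨v, rfl⟩ := Submodule.mkQ_surjective _ m'
  exact ⟨_, _, CPM_step k N v⟩

end CPM_aux

/-- COMPL for modules -/
theorem exists_complM (N : Type) [AddCommGroup N] [Module k[X] N] (hN : XReg k N) :
    ∃ (N' : Type) (_ : AddCommGroup N') (_ : Module k[X] N') (c : N →ₗ[k[X]] N'),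
      XReg k N' ∧ IsComp k N' ∧ (∀ (m : N) (b : N'), c m = tX k • b → ∃ b' : N, m = tX k • b') ∧
      (∀ m' : N', ∃ (m : N) (b : N'), m' = c m + tX k • b) ∧
      (∀ (E : Type) [AddCommGroup E] [Module k[X] E], IsComp k E → ∀ f : N →ₗ[k[X]] E,
        ∃! f' : N' →ₗ[k[X]] E, ∀ m, f' (c m) = f m) := by
  have hpow : ∀ (n : ℕ) (m : N), (tX k) ^ n • m = 0 → m = 0 := by
    intro n
    induction n with
    | zero => intro m hm; simpa using hm
    | succ n ih =>
      intro m hm
      apply ih
      apply hN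
      rw [smul_smul, ← pow_succ', hm]
  refine ⟨(ℕ → N) ⧸ CPM_null k N, inferInstance, inferInstance, CPM_c k N, ?_, ⟨?_, ?_⟩, ?_,
    CPM_surj k N, ?_⟩
  · intro m' hm'
    obtain ⟨v, rfl⟩ := Submodule.mkQ_surjective _ m'
    rw [← map_smul, Submodule.mkQ_apply, Submodule.Quotient.mk_eq_zero, CPM_mem] at hm'
    rw [Submodule.mkQ_apply, Submodule.Quotient.mk_eq_zero, CPM_mem]
    intro n
    obtain ⟨b, hb⟩ := hm' (n + 1)
    refine ⟨b - v n, ?_⟩
    have e1 : tX k • ((∑ i ∈ Finset.range (n + 1), (tX k) ^ i • v i) - (tX k) ^ n • b) = 0 := by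
      rw [smul_sub, smul_smul, ← pow_succ', ← hb, Finset.smul_sum, sub_eq_zero]
      exact Finset.sum_congr rfl fun i _ => by rw [Pi.smul_apply, smul_comm]
    have e2 := hN _ e1
    rw [Finset.sum_range_succ] at e2
    rw [smul_sub, eq_sub_iff_add_eq]
    exact sub_eq_zero.1 e2
  · intro m' hm'
    obtain ⟨v, rfl⟩ := Submodule.mkQ_surjective _ m'
    rw [Submodule.mkQ_apply, Submodule.Quotient.mk_eq_zero, CPM_mem]
    intro n
    obtain ⟨b, hb⟩ := hm' n
    obtain ⟨w, rfl⟩ := Submodule.mkQ_surjective _ b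
    rw [← map_smul, ← sub_eq_zero, ← map_sub, Submodule.mkQ_apply,
      Submodule.Quotient.mk_eq_zero, CPM_mem] at hb
    obtain ⟨a, ha⟩ := hb n
    refine ⟨a + ∑ i ∈ Finset.range n, (tX k) ^ i • w i, ?_⟩
    rw [smul_add, ← ha, Finset.smul_sum, ← Finset.sum_add_distrib]
    refine Finset.sum_congr rfl fun i _ => ?_
    rw [Pi.sub_apply, Pi.smul_apply, smul_sub, smul_comm ((tX k) ^ n)]
    abel
  · intro u
    choose A B hAB using CPM_surj k N
    let b : ℕ → (ℕ → N) ⧸ CPM_null k N := fun n => Nat.rec 0 (fun n x => B (u n + x)) n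
    have hb0 : b 0 = 0 := rfl
    have hb1 : ∀ n, b (n + 1) = B (u n + b n) := fun n => rfl
    let a : ℕ → N := fun n => A (u n + b n)
    have hab : ∀ n, u n + b n = CPM_c k N (a n) + tX k • b (n + 1) := fun n => hAB _
    have hsum : ∀ n, ∑ i ∈ Finset.range n, (tX k) ^ i • u i =
        CPM_c k N (∑ i ∈ Finset.range n, (tX k) ^ i • a i) + (tX k) ^ n • b n := by
      intro n
      induction n with
      | zero => simp [hb0]
      | succ n ih =>
        have e1 : (tX k) ^ n • u n + (tX k) ^ n • b n =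
            (tX k) ^ n • CPM_c k N (a n) + (tX k) ^ (n + 1) • b (n + 1) := by
          rw [← smul_add, hab, smul_add, smul_smul, ← pow_succ]
        rw [Finset.sum_range_succ, ih, Finset.sum_range_succ, map_add, map_smul, add_assoc,
          add_comm ((tX k) ^ n • b n), e1, add_assoc]
    refine ⟨(CPM_null k N).mkQ a, fun n => ?_⟩
    refine ⟨(CPM_null k N).mkQ (fun i => a (n + i)) - b n, ?_⟩
    rw [hsum, CPM_split k N a n, smul_sub]
    abel
  · intro m b hb
    obtain ⟨w, rfl⟩ := Submodule.mkQ_surjective _ b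
    rw [CPM_c_apply, ← map_smul, ← sub_eq_zero, ← map_sub, Submodule.mkQ_apply,
      Submodule.Quotient.mk_eq_zero, CPM_mem] at hb
    obtain ⟨a, ha⟩ := hb 1
    refine ⟨a + w 0, ?_⟩
    simp only [Finset.range_one, Finset.sum_singleton, pow_zero, one_smul, pow_one,
      Pi.sub_apply, Pi.single_eq_same, Pi.smul_apply] at ha
    rw [smul_add, ← ha]
    abel
  · intro E _ _ hE f
    have huniq : ∀ (v : ℕ → N) (x y : E),
        (∀ n, ∃ b, x = ∑ i ∈ Finset.range n, (tX k) ^ i • f (v i) + (tX k) ^ n • b) →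
        (∀ n, ∃ b, y = ∑ i ∈ Finset.range n, (tX k) ^ i • f (v i) + (tX k) ^ n • b) → x = y := by
      intro v x y hx hy
      rw [← sub_eq_zero]
      apply hE.sep
      intro n
      obtain ⟨b, hb⟩ := hx n
      obtain ⟨b', hb'⟩ := hy n
      refine ⟨b - b', ?_⟩
      rw [hb, hb', smul_sub]
      abel
    choose s hs using fun v : ℕ → N => hE.lim (fun i => f (v i))
    let S : (ℕ → N) →ₗ[k[X]] E :=
      { toFun := s
        map_add' := fun v w => by
          refine huniq (v + w) _ _ (hs (v + w)) (fun n => ?_)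
          obtain ⟨b, hb⟩ := hs v n
          obtain ⟨b', hb'⟩ := hs w n
          refine ⟨b + b', ?_⟩
          conv_lhs => rw [hb, hb']
          simp only [Pi.add_apply, map_add, smul_add, Finset.sum_add_distrib]
          abel
        map_smul' := fun r v => by
          refine huniq (r • v) _ _ (hs (r • v)) (fun n => ?_)
          obtain ⟨b, hb⟩ := hs v n
          refine ⟨r • b, ?_⟩
          rw [RingHom.id_apply]
          conv_lhs => rw [hb]
          rw [smul_add, Finset.smul_sum, smul_comm r]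
          congr 1
          refine Finset.sum_congr rfl fun i _ => ?_
          rw [Pi.smul_apply, map_smul, smul_comm] }
    have hS : ∀ v, S v = s v := fun _ => rfl
    have hnull : CPM_null k N ≤ LinearMap.ker S := by
      intro v hv
      rw [CPM_mem] at hv
      rw [LinearMap.mem_ker, hS]
      apply hE.sep
      intro n
      obtain ⟨b, hb⟩ := hs v n
      obtain ⟨b', hb'⟩ := hv n
      refine ⟨f b' + b, ?_⟩
      rw [hb, smul_add, ← map_smul, ← hb', map_sum]
      simp only [map_smul]
    refine ⟨(CPM_null k N).liftQ S hnull, fun m => ?_, fun g hg => ?_⟩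
    · show S (Pi.single 0 m) = f m
      rw [hS]
      refine huniq (Pi.single 0 m) _ _ (hs _) (fun n => ?_)
      cases n with
      | zero => exact ⟨f m, by simp⟩
      | succ n =>
        refine ⟨0, ?_⟩
        rw [Finset.sum_range_succ', Finset.sum_eq_zero (fun i _ => by
          rw [Pi.single_eq_of_ne (Nat.succ_ne_zero i), map_zero, smul_zero])]
        simp
    · ext v
      show g ((CPM_null k N).mkQ v) = S v
      rw [hS]
      refine huniq v _ _ (fun n => ?_) (hs v)
      refine ⟨g ((CPM_null k N).mkQ (fun i => v (n + i))), ?_⟩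
      conv_lhs => rw [CPM_split k N v n]
      rw [map_add, hg, map_smul, map_sum]
      simp only [map_smul]

end C74
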