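import Pool.Agent.MP_35f30a_al.C74.LOC2

/-!
ROW LOC3.  LOC(A, Σ).  Blueprint section 3.

From `exists_locN` (choice, all `n`) and `exists_locLim`.  Universal property for `f : A → B`:
`E_n := B ⧸ X^n B` (two-sided ideal), `f_n : A → E_n` extends to `(D n).B → E_n`, these are compatible
(uniqueness from `LocN.frac`), so `x ↦ (f_n (pr n x))_n` is a compatible sequence and defines
`f' x ∈ B` by completeness of `B` (`f' x` = the unique element with image `f_n(pr n x)` in `E_n`).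
-/

set_option autoImplicit false

open scoped TensorProduct Polynomial

namespace C74

variable {k : Type} [Field k]
variable {A : Type} [Ring A] [Algebra k[X] A] {S : Type} [CommRing S] [Algebra k S] {π : A →+* S}

/-- separatedness: an element of `B` is determined by its images in all `B ⧸ X^n B` -/
theorem LOC3_ext {B : Type} [Ring B] [Algebra k[X] B] (hc : IsComp k B) {x y : B}
    (h : ∀ n, Ideal.Quotient.mkₐ k[X] (LOC1_I k B n) x = Ideal.Quotient.mkₐ k[X] (LOC1_I k B n) y) :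
    x = y := by
  rw [← sub_eq_zero]
  refine hc.sep _ fun n => ?_
  have h1 := h n
  rw [Ideal.Quotient.mkₐ_eq_mk, Ideal.Quotient.eq, LOC1_mem] at h1
  exact h1

theorem LOC3_lift (Sg : Submonoid S) (D : ∀ n, LocN k π Sg n)
    {A' : Type} [Ring A'] [Algebra k[X] A'] (c : A →ₐ[k[X]] A') (pr : ∀ n, A' →ₐ[k[X]] (D n).B)
    (hpc : ∀ n a, pr n (c a) = (D n).c a)
    (hp0 : ∀ n (x : A'), pr n x = 0 ↔ ∃ y : A', x = (tX k) ^ n • y)
    {B : Type} [Ring B] [Algebra k[X] B] (hB : IsComp k B) (f : A →ₐ[k[X]] B)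
    (hf : ∀ a, π a ∈ Sg → IsUnit (f a))
    (g : ∀ n, (D n).B →ₐ[k[X]] (B ⧸ LOC1_I k B n))
    (hg : ∀ n a, g n ((D n).c a) = Ideal.Quotient.mkₐ k[X] (LOC1_I k B n) (f a)) (x : A') :
    ∃ m : B, ∀ n, Ideal.Quotient.mkₐ k[X] (LOC1_I k B n) m = g n (pr n x) := by
  choose b hb using fun n => Ideal.Quotient.mkₐ_surjective k[X] (LOC1_I k B n) (g n (pr n x))
  have hcompat : ∀ n, ∃ u : B, b (n + 1) - b n = (tX k) ^ n • u := by
    intro n
    obtain ⟨s, a, hs, h⟩ := (D (n + 1)).frac (pr (n + 1) x)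
    have h1 : pr (n + 1) (c s * x - c a) = 0 := by
      rw [map_sub, map_mul, hpc, hpc, h, sub_self]
    obtain ⟨y, hy⟩ := (hp0 _ _).1 h1
    have h2 : (D n).c s * pr n x = (D n).c a := by
      rw [← hpc, ← hpc, ← map_mul, ← sub_eq_zero, ← map_sub, hy, map_smul,
        LOC2_tors' (Nat.le_succ n)]
    have h3 : ∃ u : B, f s * b n - f a = (tX k) ^ n • u := by
      rw [← LOC1_mem, ← Ideal.Quotient.eq, ← Ideal.Quotient.mkₐ_eq_mk k[X], map_mul, hb, ← hg, ← hg,
        ← map_mul, h2]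
    have h4 : ∃ u : B, f s * b (n + 1) - f a = (tX k) ^ (n + 1) • u := by
      rw [← LOC1_mem, ← Ideal.Quotient.eq, ← Ideal.Quotient.mkₐ_eq_mk k[X], map_mul, hb, ← hg, ← hg,
        ← map_mul, h]
    obtain ⟨u, hu⟩ := h3
    obtain ⟨v, hv⟩ := h4
    obtain ⟨w, hw⟩ := hf s hs
    refine ⟨↑w⁻¹ * (tX k • v - u), ?_⟩
    have h5 : f s * (b (n + 1) - b n) = (tX k) ^ n • (tX k • v - u) := by
      rw [smul_sub, smul_smul, ← pow_succ, ← hu, ← hv]
      noncomm_ring
    rw [← mul_smul_comm, ← h5, ← hw, ← mul_assoc, Units.inv_mul, one_mul]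
  choose u hu using hcompat
  obtain ⟨m, hm⟩ := hB.lim u
  refine ⟨m + b 0, fun n => ?_⟩
  rw [← hb n, Ideal.Quotient.mkₐ_eq_mk, Ideal.Quotient.eq, LOC1_mem]
  obtain ⟨d, hd⟩ := hm n
  have h6 : ∑ i ∈ Finset.range n, (tX k) ^ i • u i = b n - b 0 := by
    rw [← Finset.sum_range_sub]
    exact Finset.sum_congr rfl fun i _ => (hu i).symm
  exact ⟨d, by rw [hd, h6]; abel⟩

/-- LOC(A,Σ): Ore localisation of all `A / X^n A` at `{a | π a ∈ Σ}`, then the inverse limit -/
theorem exists_loc [IsDomain S] (hπ : IsQC k π) (Sg : Submonoid S) (h0 : (0 : S) ∉ Sg)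
    (T : Type) [CommRing T] [Algebra S T] [IsLocalization Sg T] [Algebra k T] [IsScalarTower k S T] :
    ∃ (A' : Type) (_ : Ring A') (_ : Algebra k[X] A') (π' : A' →+* T) (c : A →ₐ[k[X]] A'),
      IsQC k π' ∧ IsComp k A' ∧ (∀ a, π' (c a) = algebraMap S T (π a)) ∧
      (∀ (B : Type) [Ring B] [Algebra k[X] B], XReg k B → IsComp k B → ∀ f : A →ₐ[k[X]] B,
        (∀ a, π a ∈ Sg → IsUnit (f a)) → ∃ f' : A' →ₐ[k[X]] B, ∀ a, f' (c a) = f a) := by
  have D : ∀ n, LocN k π Sg n := fun n => (exists_locN hπ Sg h0 n).some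
  obtain ⟨A', _, _, π', c, pr, h1, h2, h3, hpc, hp0⟩ := exists_locLim hπ Sg h0 D T
  refine ⟨A', inferInstance, inferInstance, π', c, h1, h2, h3, ?_⟩
  intro B _ _ _ hB f hf
  have hg : ∀ n, ∃ g : (D n).B →ₐ[k[X]] (B ⧸ LOC1_I k B n),
      ∀ a, g ((D n).c a) = Ideal.Quotient.mkₐ k[X] (LOC1_I k B n) (f a) := by
    intro n
    refine (D n).univ (B ⧸ LOC1_I k B n) ((Ideal.Quotient.mkₐ k[X] (LOC1_I k B n)).comp f)
      (fun s hs => ((hf s hs).map (Ideal.Quotient.mkₐ k[X] (LOC1_I k B n)))) (fun x => ?_)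
    obtain ⟨b, rfl⟩ := Ideal.Quotient.mkₐ_surjective k[X] (LOC1_I k B n) x
    rw [← map_smul, Ideal.Quotient.mkₐ_eq_mk, Ideal.Quotient.eq_zero_iff_mem, LOC1_mem]
    exact ⟨b, rfl⟩
  choose g hg using hg
  choose F hF using LOC3_lift Sg D c pr hpc hp0 hB f hf g hg
  refine ⟨{ toFun := F
            map_one' := LOC3_ext hB fun n => by rw [hF, map_one, map_one, map_one]
            map_mul' := fun x y => LOC3_ext hB fun n => by
              rw [hF, map_mul, map_mul, map_mul, hF, hF]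
            map_zero' := LOC3_ext hB fun n => by rw [hF, map_zero, map_zero, map_zero]
            map_add' := fun x y => LOC3_ext hB fun n => by
              rw [hF, map_add, map_add, map_add, hF, hF]
            commutes' := fun r => LOC3_ext hB fun n => by
              rw [hF, AlgHom.commutes, AlgHom.commutes, AlgHom.commutes] }, fun a => ?_⟩
  exact LOC3_ext hB fun n => by
    change Ideal.Quotient.mkₐ k[X] (LOC1_I k B n) (F (c a)) = _
    rw [hF, hpc, hg]

end C74
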