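import Pool.Agent.MP_35f30a_al.C74.Ord
import Pool.Agent.MP_35f30a_al.C74.LOC3

/-!
ROW CPR.  Completion of QC rings.  Blueprint section 3 (COMPL).

`A' :=` the subring of compatible sequences in `Π n, A ⧸ (X^n A)` (quotients by two-sided ideals;
`X` is central), `π' :=` component `1` followed by `A/XA = S`.  `X` is regular, `A'` complete,
`A'/X^n A' = A/X^n A`.  Universal property: `f' a' = lim f(a_n)` where `a' ≡ c a_n mod X^n`;
multiplicative since both sides agree modulo all `X^n` and `B` is separated.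
-/

set_option autoImplicit false

open scoped TensorProduct Polynomial

namespace C74

variable {k : Type} [Field k]
variable {A : Type} [Ring A] [Algebra k[X] A] {S : Type} [CommRing S] [Algebra k S] {π : A →+* S}

/-- `A ⧸ X^n A` as the localisation at `{s | π s = 1}` -/
theorem CPR_exists (hπ : IsQC k π) (n : ℕ) : Nonempty (LocN k π (⊥ : Submonoid S) n) := by
  refine ⟨{ B := A ⧸ LOC1_I k A n
            c := Ideal.Quotient.mkₐ k[X] (LOC1_I k A n)
            frac := ?_
            unit := ?_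
            ker := ?_
            univ := ?_ }⟩
  · intro b
    obtain ⟨a, rfl⟩ := Ideal.Quotient.mkₐ_surjective k[X] (LOC1_I k A n) b
    exact ⟨1, a, by rw [map_one, Submonoid.mem_bot], by rw [map_one, one_mul]⟩
  · intro s hs
    rw [Submonoid.mem_bot] at hs
    obtain ⟨b, hb⟩ := hπ.ker (s - 1) (by rw [map_sub, hs, map_one, sub_self])
    have h1 : s = tX k • b + 1 := by rw [← hb]; abel
    rw [h1, map_add, map_one]
    refine IsNilpotent.isUnit_add_one ⟨n, ?_⟩
    rw [← map_pow, smul_pow, Ideal.Quotient.mkₐ_eq_mk, Ideal.Quotient.eq_zero_iff_mem]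
    exact ⟨b ^ n, rfl⟩
  · intro a
    rw [Ideal.Quotient.mkₐ_eq_mk, Ideal.Quotient.eq_zero_iff_mem, LOC1_mem]
  · intro E _ _ f _ hE
    exact ⟨Ideal.Quotient.liftₐ (LOC1_I k A n) f (by
      rintro _ ⟨b, rfl⟩
      rw [map_smul, hE]), fun a => rfl⟩

theorem CPR_pi (hπ : IsQC k π) (E : LocN k π (⊥ : Submonoid S) 1) :
    ∃ f : E.B →+* S, (∀ a, f (E.c a) = π a) ∧ Function.Injective f := by
  let i1 : Algebra k[X] S := ((algebraMap k S).comp (ev0 k)).toAlgebra
  have hT : ∀ r : k[X], algebraMap k[X] S r = algebraMap k S (ev0 k r) := fun r => rfl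
  let f : A →ₐ[k[X]] S :=
    { π with
      commutes' := by
        intro r
        change π (algebraMap k[X] A r) = _
        rw [hπ.algMap, hT] }
  have hf : ∀ a, f a = π a := fun a => rfl
  obtain ⟨f', hf'⟩ := E.univ S f (fun s hs => by
    rw [Submonoid.mem_bot] at hs
    rw [hf, hs]
    exact isUnit_one) (fun x => by
    rw [pow_one, Algebra.smul_def, hT]
    have : ev0 k (tX k) = 0 := by simp [ev0]
    rw [this, map_zero, zero_mul])
  refine ⟨f'.toRingHom, fun a => (hf' a).trans (hf a), ?_⟩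
  rw [injective_iff_map_eq_zero]
  intro b hb
  have hb' : f' b = 0 := hb
  obtain ⟨s, a, hs, hx⟩ := E.frac b
  have h2 : π a = 0 := by
    rw [← hf, ← hf', ← hx, map_mul, hb', mul_zero]
  obtain ⟨a', ha'⟩ := hπ.ker a h2
  have h3 : E.c a = 0 := (E.ker a).2 ⟨a', by rw [pow_one]; exact ha'⟩
  refine LOC2_cancel E s hs ?_
  rw [hx, h3, mul_zero]

/-- COMPL for QC rings -/
theorem exists_compl (hπ : IsQC k π) :
    ∃ (A' : Type) (_ : Ring A') (_ : Algebra k[X] A') (π' : A' →+* S) (c : A →ₐ[k[X]] A'),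
      IsQC k π' ∧ IsComp k A' ∧ (∀ a, π' (c a) = π a) ∧
      (∀ (B : Type) [Ring B] [Algebra k[X] B], IsComp k B → ∀ f : A →ₐ[k[X]] B,
        ∃ f' : A' →ₐ[k[X]] B, ∀ a, f' (c a) = f a) := by
  have D : ∀ n, LocN k π (⊥ : Submonoid S) n := fun n => (CPR_exists hπ n).some
  obtain ⟨f, hf, hinj⟩ := CPR_pi hπ (D 1)
  have hc : ∀ a, f (LOC2_pr D 1 (LOC2_c D a)) = π a := fun a => hf a
  refine ⟨LOC2_lim D, inferInstance, inferInstance,
    f.comp (LOC2_pr D 1 : LOC2_lim D →ₐ[k[X]] (D 1).B).toRingHom, LOC2_c D,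
    ⟨LOC2_reg' D hπ, ?_, ?_, ?_, ?_⟩, LOC2_isComp D hπ, hc, ?_⟩
  · intro t
    obtain ⟨x, rfl⟩ := hπ.surj t
    exact ⟨LOC2_c D x, hc x⟩
  · intro a ha
    have h1 : LOC2_pr D 1 a = 0 := hinj (by rw [map_zero]; exact ha)
    obtain ⟨y, hy⟩ := (LOC2_pr_zero D hπ 1 a).1 h1
    exact ⟨y, by rw [pow_one] at hy; exact hy⟩
  · intro b
    change f (LOC2_pr D 1 (tX k • b)) = 0
    rw [map_smul]
    have h1 := LOC2_tors (D 1) (LOC2_pr D 1 b)
    rw [pow_one] at h1
    rw [h1, map_zero]
  · intro c
    change f (LOC2_pr D 1 (algebraMap k[X] (LOC2_lim D) (Polynomial.C c))) = algebraMap k S c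
    rw [← (LOC2_c D).commutes, hc, hπ.scal]
  · intro B _ _ hB g
    have hu : ∀ s : A, π s ∈ (⊥ : Submonoid S) → IsUnit (g s) := by
      intro s hs
      rw [Submonoid.mem_bot] at hs
      obtain ⟨b, hb⟩ := hπ.ker (s - 1) (by rw [map_sub, hs, map_one, sub_self])
      have h1 : s = 1 + tX k • b := by rw [← hb]; abel
      -- geometric series
      obtain ⟨m, hm⟩ := hB.lim (fun i => (-g b) ^ i)
      have hs1 : g s = 1 + tX k • g b := by rw [h1, map_add, map_one, map_smul]
      have hgeo : ∀ n : ℕ, (1 + tX k • g b) *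
          (∑ i ∈ Finset.range n, (tX k) ^ i • (-g b) ^ i) = 1 - (tX k) ^ n • (-g b) ^ n := by
        intro n
        induction n with
        | zero => rw [Finset.sum_range_zero, mul_zero, pow_zero, pow_zero, one_smul, sub_self]
        | succ n ih =>
          rw [Finset.sum_range_succ, mul_add, ih, add_mul, one_mul, smul_mul_assoc, mul_smul_comm,
            smul_smul, ← pow_succ', pow_succ' (-g b) n, neg_mul, smul_neg]
          abel
      have hgeo' : ∀ n : ℕ, (∑ i ∈ Finset.range n, (tX k) ^ i • (-g b) ^ i) *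
          (1 + tX k • g b) = 1 - (tX k) ^ n • (-g b) ^ n := by
        intro n
        induction n with
        | zero => rw [Finset.sum_range_zero, zero_mul, pow_zero, pow_zero, one_smul, sub_self]
        | succ n ih =>
          rw [Finset.sum_range_succ, add_mul, ih, mul_add, mul_one, smul_mul_assoc, mul_smul_comm,
            smul_smul, ← pow_succ, pow_succ (-g b) n, mul_neg, smul_neg]
          abel
      have hl : (1 + tX k • g b) * m = 1 := by
        rw [← sub_eq_zero]
        refine hB.sep _ fun n => ?_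
        obtain ⟨d, hd⟩ := hm n
        refine ⟨(1 + tX k • g b) * d - (-g b) ^ n, ?_⟩
        rw [hd, mul_add, hgeo, mul_smul_comm, smul_sub]
        abel
      have hr : m * (1 + tX k • g b) = 1 := by
        rw [← sub_eq_zero]
        refine hB.sep _ fun n => ?_
        obtain ⟨d, hd⟩ := hm n
        refine ⟨d * (1 + tX k • g b) - (-g b) ^ n, ?_⟩
        rw [hd, add_mul, hgeo', smul_mul_assoc, smul_sub]
        abel
      rw [hs1]
      exact ⟨⟨_, m, hl, hr⟩, rfl⟩
    have hg : ∀ n, ∃ g' : (D n).B →ₐ[k[X]] (B ⧸ LOC1_I k B n),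
        ∀ a, g' ((D n).c a) = Ideal.Quotient.mkₐ k[X] (LOC1_I k B n) (g a) := by
      intro n
      refine (D n).univ (B ⧸ LOC1_I k B n) ((Ideal.Quotient.mkₐ k[X] (LOC1_I k B n)).comp g)
        (fun s hs => ((hu s hs).map (Ideal.Quotient.mkₐ k[X] (LOC1_I k B n)))) (fun x => ?_)
      obtain ⟨b, rfl⟩ := Ideal.Quotient.mkₐ_surjective k[X] (LOC1_I k B n) x
      rw [← map_smul, Ideal.Quotient.mkₐ_eq_mk, Ideal.Quotient.eq_zero_iff_mem, LOC1_mem]
      exact ⟨b, rfl⟩
    choose g' hg' using hg
    choose F hF using LOC3_lift (⊥ : Submonoid S) D (LOC2_c D) (LOC2_pr D) (LOC2_pr_c D)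
      (LOC2_pr_zero D hπ) hB g hu g' hg'
    refine ⟨{ toFun := F
              map_one' := LOC3_ext hB fun n => by rw [hF, map_one, map_one, map_one]
              map_mul' := fun x y => LOC3_ext hB fun n => by
                rw [hF, map_mul, map_mul, map_mul, hF, hF]
              map_zero' := LOC3_ext hB fun n => by rw [hF, map_zero, map_zero, map_zero]
              map_add' := fun x y => LOC3_ext hB fun n => by
                rw [hF, map_add, map_add, map_add, hF, hF]
              commutes' := fun r => LOC3_ext hB fun n => by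
                rw [hF, AlgHom.commutes, AlgHom.commutes, AlgHom.commutes] }, fun a => ?_⟩
    exact LOC3_ext hB fun n => by
      change Ideal.Quotient.mkₐ k[X] (LOC1_I k B n) (F (LOC2_c D a)) = _
      rw [hF, LOC2_pr_c, hg']

end C74
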