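import Pool.Agent.MP_35f30a_al.C74.Obj
import Pool.Agent.MP_35f30a_al.C74.LOC3

/-!
ROW DEC.  Existence of the decoration.  Blueprint section 1 (Decoration).

`A0 := LaurentPolynomial X.A = A[τ^{±1}]` (`τ` central) with the `k[X]`-algebra structure `X ↦ C(X) * T 1`
(use a type synonym: the standard instance has `X ↦ C(X)`).  `(A0, K[τ^{±1}], coefficientwise π)` is QC: `X τ` regular, kernel of the
coefficientwise `π` is `X A0 = X τ A0` (`τ` a unit).  `exists_loc` at all nonzero elements of the domain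
`LaurentPolynomial K`, `T := FractionRing (LaurentPolynomial K) = X.Γ`: gives `A1, π1`, `c : A0 → A1`.
`dec : Fr A → Fr A1`: `dec (X^{-n} a) = X^{-n} c(a τ^n)`.  Precisely: `Fr A1` contains the unit `ι (c τ)`; `Fr.lift` of the
ring hom `A → Fr A1`, `a ↦ ι (c (C a))` for which the image of `X` is `c (C X) = c(X τ) c(τ)^{-1} =
X • ι(c τ)^{-1}`, a unit.  So `dec (tz (-n) * ι a) = tz (-n) * ι (c (C a * T n))`: residue `π a τ^n` at level `n`.
`dec` is a `k`-algebra hom.
-/

set_option autoImplicit false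

open scoped TensorProduct Polynomial

namespace C74

variable {k : Type} [Field k]

section DEC
variable {A : Type} [Ring A]

lemma DEC_central (a : A) (ha : ∀ b, a * b = b * a) (y : LaurentPolynomial A) :
    LaurentPolynomial.C a * y = y * LaurentPolynomial.C a := by
  induction y using LaurentPolynomial.induction_on' with
  | add p q hp hq => rw [mul_add, add_mul, hp, hq]
  | C_mul_T n b =>
    rw [← mul_assoc, ← map_mul, ha, map_mul, mul_assoc, mul_assoc, LaurentPolynomial.T_mul]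

variable [Algebra k[X] A]

variable (k A) in
/-- the twisted structure map `X ↦ C(X) T` -/
noncomputable def DEC_f : k[X] →+* LaurentPolynomial A :=
  Polynomial.eval₂RingHom'
    ((LaurentPolynomial.C).comp ((algebraMap k[X] A).comp Polynomial.C))
    (LaurentPolynomial.C (algebraMap k[X] A (tX k)) * LaurentPolynomial.T 1)
    (fun _ => DEC_central _ (fun b => Algebra.commutes _ b) _)

lemma DEC_f_C (c : k) : DEC_f k A (Polynomial.C c) =
    LaurentPolynomial.C (algebraMap k[X] A (Polynomial.C c)) :=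
  Polynomial.eval₂_C _ _

lemma DEC_f_X : DEC_f k A (tX k) =
    LaurentPolynomial.C (algebraMap k[X] A (tX k)) * LaurentPolynomial.T 1 :=
  Polynomial.eval₂_X _ _

lemma DEC_f_comm (r : k[X]) (y : LaurentPolynomial A) : DEC_f k A r * y = y * DEC_f k A r := by
  have hX : ∀ y, DEC_f k A (tX k) * y = y * DEC_f k A (tX k) := by
    intro y
    rw [DEC_f_X, mul_assoc, LaurentPolynomial.T_mul, ← mul_assoc,
      DEC_central _ (fun b => Algebra.commutes _ b), mul_assoc]
  have hC : ∀ (c : k) y, DEC_f k A (Polynomial.C c) * y = y * DEC_f k A (Polynomial.C c) := by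
    intro c y
    rw [DEC_f_C, DEC_central _ (fun b => Algebra.commutes _ b)]
  induction r using Polynomial.induction_on generalizing y with
  | C c => exact hC c y
  | add p q hp hq => rw [map_add, add_mul, mul_add, hp, hq]
  | monomial n c ih =>
    rw [pow_succ, ← mul_assoc, map_mul, mul_assoc, hX, ← mul_assoc, ih, mul_assoc]

variable (k A) in
/-- `A[τ^{±1}]` with `X ↦ X τ` -/
def DEC_A0 : Type := LaurentPolynomial A

noncomputable instance : Ring (DEC_A0 A) := inferInstanceAs (Ring (LaurentPolynomial A))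

noncomputable instance : Algebra k[X] (DEC_A0 A) :=
  RingHom.toAlgebra' (S := DEC_A0 A) (DEC_f k A) (fun r y => DEC_f_comm r y)

/-- the underlying Laurent polynomial -/
def DEC_to (a : DEC_A0 A) : LaurentPolynomial A := a

/-- a Laurent polynomial as an element of `DEC_A0` -/
def DEC_of (a : LaurentPolynomial A) : DEC_A0 A := a

/-- `LaurentPolynomial.C` -/
noncomputable def DEC_C : A →+* DEC_A0 A := (LaurentPolynomial.C : A →+* LaurentPolynomial A)

/-- `LaurentPolynomial.T` -/
noncomputable def DEC_T (n : ℤ) : DEC_A0 A := (LaurentPolynomial.T n : LaurentPolynomial A)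

lemma DEC_T_add (m n : ℤ) : (DEC_T (m + n) : DEC_A0 A) = DEC_T m * DEC_T n :=
  LaurentPolynomial.T_add m n

lemma DEC_T_zero : (DEC_T 0 : DEC_A0 A) = 1 := LaurentPolynomial.T_zero

lemma DEC_algebraMap_X : algebraMap k[X] (DEC_A0 A) (tX k) =
    DEC_C (algebraMap k[X] A (tX k)) * DEC_T 1 := DEC_f_X

lemma DEC_algebraMap_C (c : k) : algebraMap k[X] (DEC_A0 A) (Polynomial.C c) =
    DEC_C (algebraMap k[X] A (Polynomial.C c)) := DEC_f_C c

lemma DEC_C_X : DEC_C (algebraMap k[X] A (tX k)) =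
    algebraMap k[X] (DEC_A0 A) (tX k) * DEC_T (-1) := by
  rw [DEC_algebraMap_X, mul_assoc, ← DEC_T_add, add_neg_cancel, DEC_T_zero, mul_one]

lemma DEC_T_comm (n : ℤ) (y : DEC_A0 A) : DEC_T n * y = y * DEC_T n :=
  LaurentPolynomial.T_mul n y

variable {K : Type} [Field K] [Algebra k K]

/-- coefficientwise residue map -/
noncomputable def DEC_π (π : A →+* K) : DEC_A0 A →+* LaurentPolynomial K :=
  (AddMonoidAlgebra.mapRingHom ℤ π : LaurentPolynomial A →+* LaurentPolynomial K)

lemma DEC_π_coeff (π : A →+* K) (y : DEC_A0 A) (n : ℤ) :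
    (DEC_π π y).coeff n = π ((DEC_to y).coeff n) :=
  AddMonoidAlgebra.coeff_mapRingHom π (DEC_to y) n

lemma DEC_π_C (π : A →+* K) (a : A) : DEC_π π (DEC_C a) = LaurentPolynomial.C (π a) :=
  AddMonoidAlgebra.mapRingHom_single π 0 a

lemma DEC_π_T (π : A →+* K) (n : ℤ) : DEC_π π (DEC_T n) = LaurentPolynomial.T n := by
  have := AddMonoidAlgebra.mapRingHom_single π n 1
  rw [map_one] at this
  exact this

lemma DEC_qc {π : A →+* K} (hπ : IsQC k π) : IsQC k (DEC_π π) where
  reg := by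
    intro a ha
    have h1 : (LaurentPolynomial.C (algebraMap k[X] A (tX k)) * LaurentPolynomial.T 1 :
        LaurentPolynomial A) * DEC_to a = 0 := by
      rw [← DEC_f_X]; exact ha
    rw [← LaurentPolynomial.single_eq_C_mul_T] at h1
    show DEC_to a = 0
    ext n
    have h2 := congrArg (fun y : LaurentPolynomial A => y.coeff (1 + n)) h1
    rw [AddMonoidAlgebra.coeff_single_mul_add, ← Algebra.smul_def] at h2
    exact hπ.reg _ h2
  surj := by
    intro y
    choose g hg using hπ.surj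
    refine ⟨DEC_of (AddMonoidAlgebra.ofCoeff (Finsupp.onFinset y.coeff.support
      (fun n => if n ∈ y.coeff.support then g (y.coeff n) else 0) (fun n hn => by
        by_contra h; exact hn (if_neg h))) : LaurentPolynomial A), ?_⟩
    ext n
    rw [DEC_π_coeff]
    show π (if n ∈ y.coeff.support then g (y.coeff n) else 0) = _
    by_cases h : n ∈ y.coeff.support
    · rw [if_pos h, hg]
    · rw [if_neg h, map_zero]; exact (Finsupp.notMem_support_iff.1 h).symm
  ker := by
    intro a ha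
    have h1 : ∀ n, ∃ b, (DEC_to a).coeff n = tX k • b := by
      intro n
      apply hπ.ker
      rw [← DEC_π_coeff, ha]; rfl
    choose g hg using h1
    let b : LaurentPolynomial A := AddMonoidAlgebra.ofCoeff
      (Finsupp.onFinset (DEC_to a).coeff.support g (fun n hn => by
        rw [Finsupp.mem_support_iff]
        intro h0
        apply hn
        apply hπ.reg
        rw [← hg, h0]))
    refine ⟨DEC_T (-1) * DEC_of b, ?_⟩
    rw [Algebra.smul_def, ← mul_assoc, ← DEC_C_X]
    show DEC_to a = LaurentPolynomial.C (algebraMap k[X] A (tX k)) * b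
    ext n
    rw [← LaurentPolynomial.single_eq_C, AddMonoidAlgebra.coeff_single_zero_mul, hg,
      Algebra.smul_def]
    rfl
  kerX := by
    intro b
    rw [Algebra.smul_def, map_mul, DEC_algebraMap_X, map_mul, DEC_π_C]
    have : π (algebraMap k[X] A (tX k)) = 0 := by
      have := hπ.kerX 1
      rwa [Algebra.smul_def, mul_one] at this
    rw [this, map_zero, zero_mul, zero_mul]
  scal := by
    intro c
    rw [DEC_algebraMap_C, DEC_π_C, hπ.scal]
    rfl

end DEC

theorem exists_dec (X : Obj k) : Nonempty (DecData X) := by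
  obtain ⟨A1, iR, iA, π1, c, h1, h2, h3, -⟩ := exists_loc (DEC_qc X.qc)
    (nonZeroDivisors (LaurentPolynomial X.K)) zero_notMem_nonZeroDivisors X.Γ
  -- the ring hom `A → Fr A1`
  let g : X.A →+* Fr k A1 := ((Fr.ι : A1 →ₐ[k[X]] Fr k A1) : A1 →+* Fr k A1).comp
    ((c : DEC_A0 X.A →+* A1).comp DEC_C)
  have hg : ∀ a, g a = Fr.ι (c (DEC_C a)) := fun a => rfl
  have hTu : ∀ n : ℤ, (Fr.ι (c (DEC_T (-n))) : Fr k A1) * Fr.ι (c (DEC_T n)) = 1 := by
    intro n
    rw [← map_mul, ← map_mul, ← DEC_T_add, neg_add_cancel, DEC_T_zero, map_one, map_one]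
  have hgX : g (algebraMap k[X] X.A (tX k)) = Fr.tz 1 * Fr.ι (c (DEC_T (-1))) := by
    rw [hg, DEC_C_X, map_mul, map_mul, AlgHom.commutes, AlgHom.commutes, Fr.tz_one]
  have hu : IsUnit (g (algebraMap k[X] X.A (tX k))) := by
    rw [hgX]
    refine IsUnit.mul ?_ ?_
    · exact (Fr.tu ^ (1 : ℤ) : (Fr k A1)ˣ).isUnit
    · refine ⟨⟨_, Fr.ι (c (DEC_T 1)), hTu 1, ?_⟩, rfl⟩
      have := hTu (-1)
      rwa [neg_neg] at this
  let dec0 : X.D →+* Fr k A1 := Fr.lift g hu
  have hd : ∀ a, dec0 (Fr.ι a) = Fr.ι (c (DEC_C a)) := fun a => Fr.lift_ι g hu a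
  have hdt : ∀ n : ℕ, dec0 (Fr.tz (n : ℤ)) = Fr.tz (n : ℤ) * Fr.ι (c (DEC_T (-(n : ℤ)))) := by
    intro n
    induction n with
    | zero => simp [DEC_T_zero]
    | succ n ih =>
      rw [Nat.cast_succ, Fr.tz_add, map_mul, ih, Fr.tz_one, ← AlgHom.commutes Fr.ι, hd, ← hg, hgX,
        Fr.tz_add, neg_add, DEC_T_add, map_mul, map_mul, mul_assoc, mul_assoc]
      congr 1
      rw [← mul_assoc, ← mul_assoc, Fr.tz_comm]
  have hdt' : ∀ n : ℤ, dec0 (Fr.tz (-n)) = Fr.tz (-n) * Fr.ι (c (DEC_T n)) := by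
    intro n
    obtain ⟨m, rfl | rfl⟩ := n.eq_nat_or_neg
    · have e1 : dec0 (Fr.tz (-(m : ℤ))) * dec0 (Fr.tz (m : ℤ)) = 1 := by
        rw [← map_mul, Fr.tz_neg_mul, map_one]
      have e2 : (dec0 (Fr.tz (m : ℤ))) * (Fr.tz (-(m : ℤ)) * Fr.ι (c (DEC_T (m : ℤ)))) = 1 := by
        rw [hdt, mul_assoc, ← mul_assoc (Fr.ι _), ← Fr.tz_comm (-(m : ℤ)), mul_assoc, hTu, mul_one,
          Fr.tz_mul_neg]
      calc dec0 (Fr.tz (-(m : ℤ))) = dec0 (Fr.tz (-(m : ℤ))) * (dec0 (Fr.tz (m : ℤ)) *
            (Fr.tz (-(m : ℤ)) * Fr.ι (c (DEC_T (m : ℤ))))) := by rw [e2, mul_one]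
        _ = _ := by rw [← mul_assoc, e1, one_mul]
    · rw [neg_neg]; exact hdt m
  let dec : X.D →ₐ[k] Fr k A1 :=
    { dec0 with
      commutes' := fun r => by
        show dec0 (algebraMap k X.D r) = _
        rw [Fr.algebraMap_k, Fr.algebraMap_k, ← AlgHom.commutes Fr.ι, hd, ← DEC_algebraMap_C,
          AlgHom.commutes, AlgHom.commutes] }
  refine ⟨{ A1 := A1, π1 := π1, qc1 := h1, comp1 := h2, dec := dec, dec_res := ?_ }⟩
  rintro n d s ⟨a, rfl, rfl⟩
  refine ⟨c (DEC_T n * DEC_C a), ?_, ?_⟩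
  · show dec0 _ = _
    rw [map_mul, hdt', hd, mul_assoc, map_mul, map_mul]
  · rw [h3, map_mul, DEC_π_C, DEC_π_T, LaurentPolynomial.T_mul]
    rfl

end C74
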