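import Mathlib

/-!
ROW DOM.  Tensor products of fields over an algebraically closed field are domains.  Blueprint section 6 (DOM).
-/

set_option autoImplicit false

open scoped TensorProduct Polynomial

namespace C74

/-- Nullstellensatz: a nonzero element of a finitely generated domain over an algebraically closed field is
nonzero at some rational point. -/
theorem DOM_exists_point {k : Type} [Field k] [IsAlgClosed k] {R0 : Type} [CommRing R0] [IsDomain R0]
    [Algebra k R0] [Algebra.FiniteType k R0] {f : R0} (hf : f ≠ 0) : ∃ h : R0 →ₐ[k] k, h f ≠ 0 := by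
  have hJ : IsJacobsonRing R0 := isJacobsonRing_of_finiteType (A := k)
  have h1 : f ∉ (⊥ : Ideal R0).jacobson := by
    rw [← Ideal.radical_eq_jacobson, Ideal.IsPrime.radical Ideal.isPrime_bot]
    exact hf
  rw [Ideal.jacobson, Submodule.mem_sInf] at h1
  push Not at h1
  obtain ⟨m, ⟨_, hm⟩, hfm⟩ := h1
  let _ : Field (R0 ⧸ m) := Ideal.Quotient.field m
  have _ : Algebra.FiniteType k (R0 ⧸ m) :=
    Algebra.FiniteType.of_surjective (Ideal.Quotient.mkₐ k m) (Ideal.Quotient.mkₐ_surjective k m)
  have hfin : Module.Finite k (R0 ⧸ m) := finite_of_finite_type_of_isJacobsonRing k (R0 ⧸ m)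
  have hb : Function.Bijective (algebraMap k (R0 ⧸ m)) :=
    IsAlgClosed.algebraMap_bijective_of_isIntegral
  let e : k ≃ₐ[k] (R0 ⧸ m) := AlgEquiv.ofBijective (Algebra.ofId k (R0 ⧸ m)) hb
  refine ⟨e.symm.toAlgHom.comp (Ideal.Quotient.mkₐ k m), fun h => hfm ?_⟩
  have h2 : (Ideal.Quotient.mkₐ k m) f = 0 := e.symm.injective (by rw [map_zero]; exact h)
  exact Ideal.Quotient.eq_zero_iff_mem.1 h2

/-- coordinates of the image under a change of the first factor -/
theorem DOM_coord {k : Type} [Field k] {A B Γ' : Type} [CommRing A] [Algebra k A] [CommRing B]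
    [Algebra k B] [Field Γ'] [Algebra k Γ'] {ι : Type} (b : Module.Basis ι k Γ') (h : A →ₐ[k] B)
    (x : A ⊗[k] Γ') (i : ι) :
    (Algebra.TensorProduct.basis B b).repr (Algebra.TensorProduct.map h (AlgHom.id k Γ') x) i =
      h ((Algebra.TensorProduct.basis A b).repr x i) := by
  induction x using TensorProduct.induction_on with
  | zero => simp
  | tmul a c => simp
  | add x y hx hy =>
    rw [map_add, map_add, map_add, Finsupp.add_apply, Finsupp.add_apply, map_add, hx, hy]

theorem isDomain_tensor {k : Type} [Field k] [IsAlgClosed k] (Γ Γ' : Type) [Field Γ] [Algebra k Γ]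
    [Field Γ'] [Algebra k Γ'] : IsDomain (Γ ⊗[k] Γ') := by
  have hN : NoZeroDivisors (Γ ⊗[k] Γ') := by
    refine ⟨fun {x y} hxy => ?_⟩
    by_contra hcon
    push Not at hcon
    obtain ⟨hx, hy⟩ := hcon
    let b := Module.Basis.ofVectorSpace k Γ'
    let bb := Algebra.TensorProduct.basis Γ b
    obtain ⟨i, hi⟩ : ∃ i, bb.repr x i ≠ 0 := by
      by_contra hcon
      push Not at hcon
      exact hx (bb.repr.map_eq_zero_iff.1 (Finsupp.ext hcon))
    obtain ⟨j, hj⟩ : ∃ j, bb.repr y j ≠ 0 := by
      by_contra hcon
      push Not at hcon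
      exact hy (bb.repr.map_eq_zero_iff.1 (Finsupp.ext hcon))
    classical
    let F : Finset Γ := (bb.repr x).support.image (bb.repr x) ∪ (bb.repr y).support.image (bb.repr y)
    let R0 : Subalgebra k Γ := Algebra.adjoin k (F : Set Γ)
    have hfin : Algebra.FiniteType k R0 :=
      (Subalgebra.fg_iff_finiteType R0).1 ⟨F, rfl⟩
    have lift : ∀ z : Γ ⊗[k] Γ', (∀ l, bb.repr z l ∈ R0) →
        ∃ z0 : R0 ⊗[k] Γ', Algebra.TensorProduct.map R0.val (AlgHom.id k Γ') z0 = z := by
      intro z hz
      refine ⟨∑ l ∈ (bb.repr z).support, (⟨bb.repr z l, hz l⟩ : R0) ⊗ₜ b l, ?_⟩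
      rw [map_sum]
      conv_rhs => rw [← bb.linearCombination_repr z]
      rw [Finsupp.linearCombination_apply, Finsupp.sum]
      refine Finset.sum_congr rfl fun l _ => ?_
      rw [Algebra.TensorProduct.map_tmul]
      simp only [Subalgebra.coe_val, AlgHom.coe_id, id_eq]
      exact (Algebra.TensorProduct.basis_repr_symm_apply' b _ l).symm
    have hmem : ∀ z : Γ ⊗[k] Γ', (∀ l ∈ (bb.repr z).support, bb.repr z l ∈ R0) →
        ∀ l, bb.repr z l ∈ R0 := by
      intro z hz l
      by_cases h : l ∈ (bb.repr z).support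
      · exact hz l h
      · rw [Finsupp.notMem_support_iff.1 h]
        exact zero_mem _
    have hxR := hmem x fun l hl => Algebra.subset_adjoin (by
      simp only [F, Finset.coe_union, Finset.coe_image]
      exact Or.inl ⟨l, hl, rfl⟩)
    have hyR := hmem y fun l hl => Algebra.subset_adjoin (by
      simp only [F, Finset.coe_union, Finset.coe_image]
      exact Or.inr ⟨l, hl, rfl⟩)
    obtain ⟨x0, hx0⟩ := lift x hxR
    obtain ⟨y0, hy0⟩ := lift y hyR
    have hinj : Function.Injective (Algebra.TensorProduct.map R0.val (AlgHom.id k Γ')) := by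
      intro u v huv
      apply (Algebra.TensorProduct.basis R0 b).repr.injective
      ext l
      have h1 := DOM_coord b R0.val u l
      have h2 := DOM_coord b R0.val v l
      rw [huv] at h1
      exact h1.symm.trans h2
    have hxy0 : x0 * y0 = 0 := by
      apply hinj
      rw [map_mul, hx0, hy0, hxy, map_zero]
    have cx := DOM_coord b R0.val x0 i
    have cy := DOM_coord b R0.val y0 j
    rw [hx0] at cx
    rw [hy0] at cy
    set xi : R0 := (Algebra.TensorProduct.basis R0 b).repr x0 i with hxi
    set yj : R0 := (Algebra.TensorProduct.basis R0 b).repr y0 j with hyj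
    have hxi0 : xi ≠ 0 := by
      intro h
      rw [h, map_zero] at cx
      exact hi cx
    have hyj0 : yj ≠ 0 := by
      intro h
      rw [h, map_zero] at cy
      exact hj cy
    obtain ⟨h, hh⟩ := DOM_exists_point (k := k) (mul_ne_zero hxi0 hyj0)
    rw [map_mul] at hh
    have hm : Algebra.TensorProduct.map h (AlgHom.id k Γ') x0 *
        Algebra.TensorProduct.map h (AlgHom.id k Γ') y0 = 0 := by
      rw [← map_mul, hxy0, map_zero]
    have hm2 := congrArg (Algebra.TensorProduct.lid k Γ') hm
    rw [map_mul, map_zero] at hm2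
    rcases mul_eq_zero.1 hm2 with h1 | h1
    · rw [map_eq_zero_iff _ (Algebra.TensorProduct.lid k Γ').injective] at h1
      have := DOM_coord b h x0 i
      rw [h1, map_zero, Finsupp.zero_apply] at this
      exact left_ne_zero_of_mul hh this.symm
    · rw [map_eq_zero_iff _ (Algebra.TensorProduct.lid k Γ').injective] at h1
      have := DOM_coord b h y0 j
      rw [h1, map_zero, Finsupp.zero_apply] at this
      exact right_ne_zero_of_mul hh this.symm
  exact NoZeroDivisors.to_isDomain _

end C74
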