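import Pool.Agent.MP_35f30a_al.C74.SZ1

set_option autoImplicit false

open scoped TensorProduct Polynomial

namespace C74

variable {k : Type} [Field k] {X : Obj k}

theorem FT_con {j i : ℕ} (hij : i ≤ j) {q s : ℚ} {w : X.D} (hw : w ∈ X.F s) {T : TP k X.D j}
    (hT : T ∈ X.FT j q) : TP.con w j i T ∈ X.FT i (q + (j - i : ℕ) * s) := by
  have h1 : TP.con w j i T ∈ kF k X.A i (⌊(X.L : ℚ) * q⌋ + (j - i : ℕ) * ⌊(X.L : ℚ) * s⌋) :=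
    kF_con hij hw hT
  refine kF_mono ?_ h1
  rw [Int.le_floor]
  push_cast
  have h2 := Int.floor_le ((X.L : ℚ) * q)
  have h3 := Int.floor_le ((X.L : ℚ) * s)
  have h4 : (0 : ℚ) ≤ ((j - i : ℕ) : ℚ) := Nat.cast_nonneg _
  have h5 := mul_le_mul_of_nonneg_left h3 h4
  nlinarith

theorem FT_con_sub {j i : ℕ} (hij : i < j) {q s s' : ℚ} {z w : X.D} (hz : z ∈ X.F s)
    (hw : w ∈ X.F s') (hs : s' ≤ s) {T : TP k X.D j} (hT : T ∈ X.FT j q) :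
    TP.con (z + w) j i T - TP.con z j i T ∈ X.FT i (q + (j - i - 1 : ℕ) * s + s') := by
  have hs2 : ⌊(X.L : ℚ) * s'⌋ ≤ ⌊(X.L : ℚ) * s⌋ :=
    Int.floor_mono (mul_le_mul_of_nonneg_left hs (SZ1_Lpos X).le)
  have h1 : TP.con (z + w) j i T - TP.con z j i T ∈ kF k X.A i
      (⌊(X.L : ℚ) * q⌋ + (j - i - 1 : ℕ) * ⌊(X.L : ℚ) * s⌋ + ⌊(X.L : ℚ) * s'⌋) :=
    kF_con_sub hij hz hw hs2 hT
  refine kF_mono ?_ h1
  rw [Int.le_floor]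
  push_cast
  have h2 := Int.floor_le ((X.L : ℚ) * q)
  have h3 := Int.floor_le ((X.L : ℚ) * s)
  have h3' := Int.floor_le ((X.L : ℚ) * s')
  have h4 : (0 : ℚ) ≤ ((j - i - 1 : ℕ) : ℚ) := Nat.cast_nonneg _
  have h5 := mul_le_mul_of_nonneg_left h3 h4
  nlinarith

theorem F_mono {q q' : ℚ} (h : q ≤ q') : X.F q ≤ X.F q' := by
  unfold Obj.F
  exact lev_mono (Int.floor_mono (mul_le_mul_of_nonneg_left h (SZ1_Lpos X).le))

theorem F_mul {q q' : ℚ} {a b : X.D} (ha : a ∈ X.F q) (hb : b ∈ X.F q') :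
    a * b ∈ X.F (q + q') := by
  have h1 : a * b ∈ Fr.lev k X.A (⌊(X.L : ℚ) * q⌋ + ⌊(X.L : ℚ) * q'⌋) := lev_mul ha hb
  refine lev_mono ?_ h1
  rw [Int.le_floor]
  push_cast
  have h2 := Int.floor_le ((X.L : ℚ) * q)
  have h3 := Int.floor_le ((X.L : ℚ) * q')
  nlinarith

theorem mem_F_iff {q : ℚ} {a : X.D} : a ∈ X.F q ↔ (TP.ofA a : TP k X.D 0) ∈ X.FT 0 q := Iff.rfl

theorem SZ2_floor {X' : Obj k} (f : Ext X X') (q : ℚ) :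
    ⌊(X'.L : ℚ) * q⌋ / (f.M : ℤ) = ⌊(X.L : ℚ) * q⌋ := by
  have hM : (0 : ℚ) < f.M := Nat.cast_pos.2 f.Mpos
  rw [← Rat.floor_intCast_div_natCast, f.hL]
  rw [Int.floor_eq_iff]
  have h1 := Int.floor_le ((X.L : ℚ) * q)
  have h2 := Int.lt_floor_add_one ((X.L : ℚ) * q)
  have h3 := Int.floor_le (((X.L * f.M : ℕ) : ℚ) * q)
  push_cast at h3 ⊢
  constructor
  · rw [le_div_iff₀ hM]
    have h4 : ⌊(X.L : ℚ) * q⌋ * (f.M : ℤ) ≤ ⌊(X.L : ℚ) * f.M * q⌋ := by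
      rw [Int.le_floor]
      push_cast
      nlinarith
    exact_mod_cast h4
  · rw [div_lt_iff₀ hM]
    nlinarith

theorem Ext.F_iff {X' : Obj k} (f : Ext X X') (q : ℚ) (a : X.D) :
    f.φ a ∈ X'.F q ↔ a ∈ X.F q := by
  unfold Obj.F
  rw [f.iso, SZ2_floor]

theorem Ext.FT_iff {X' : Obj k} (f : Ext X X') {j : ℕ} (q : ℚ) (T : TP k X.D j) :
    f.T j T ∈ X'.FT j q ↔ T ∈ X.FT j q := by
  unfold Obj.FT
  rw [Ext.kF_iff, SZ2_floor]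

theorem Ext.FTlt_iff {X' : Obj k} (f : Ext X X') {j : ℕ} (q : ℚ) (T : TP k X.D j) :
    X'.FTlt q (f.T j T) ↔ X.FTlt q T := by
  unfold Obj.FTlt
  simp only [Ext.FT_iff]

theorem Ext.FTx_iff {X' : Obj k} (f : Ext X X') {j : ℕ} (q : ℚ) (T : TP k X.D j) :
    X'.FTx q (f.T j T) ↔ X.FTx q T := by
  unfold Obj.FTx
  rw [Ext.FT_iff, Ext.FTlt_iff]

end C74
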