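import Pool.Agent.MP_35f30a_al.C74.QC

/-!
ROW UNI.  Units and bijections in complete objects; endomorphism rings.  Blueprint sections 3, 3.1.

* `bij_of_mod`: injective: `q x = 0` gives `x = X z`, `X q z = 0`, `q z = 0`, ... so `x ∈ ⋂ X^n E = 0`.
  Surjective: `y = q x_0 + X y_1`, `y_1 = q x_1 + X y_2`, ...; `x := Σ X^n x_n` (`IsComp.lim`), then
  `y - q x ∈ ⋂ X^n E`.
* `isUnit_of_isUnit`: `π a · π b = 1`: `a b = 1 - X c`, and `1 - X c` is invertible (left multiplication by
  it is bijective by `bij_of_mod`; or geometric series).  Same on the other side.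
* `End_reg`, `End_comp`: pointwise.
-/

set_option autoImplicit false

open scoped TensorProduct Polynomial

namespace C74

variable {k : Type} [Field k]

section UNI_aux

theorem UNI_pow_reg {M : Type} [AddCommGroup M] [Module k[X] M] (hr : XReg k M) (n : ℕ) :
    ∀ x : M, (tX k) ^ n • x = 0 → x = 0 := by
  induction n with
  | zero => intro x hx; simpa using hx
  | succ n ih =>
    intro x hx
    apply ih
    apply hr
    rw [smul_smul, ← pow_succ', hx]

theorem UNI_pow_cancel {M : Type} [AddCommGroup M] [Module k[X] M] (hr : XReg k M) (n : ℕ)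
    (x y : M) (h : (tX k) ^ n • x = (tX k) ^ n • y) : x = y := by
  have : (tX k) ^ n • (x - y) = 0 := by rw [smul_sub, h, sub_self]
  exact sub_eq_zero.1 (UNI_pow_reg hr n _ this)

theorem UNI_div {E : Type} [AddCommGroup E] [Module k[X] E] (hr : XReg k E)
    (q : Module.End k[X] E) (n : ℕ) (h : ∀ x, ∃ y, q x = (tX k) ^ n • y) :
    ∃ q' : Module.End k[X] E, q = (tX k) ^ n • q' := by
  choose g hg using h
  refine ⟨{ toFun := g, map_add' := fun x y => ?_, map_smul' := fun r x => ?_ }, ?_⟩
  · apply UNI_pow_cancel hr n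
    rw [← hg, map_add, hg, hg, smul_add]
  · apply UNI_pow_cancel hr n
    rw [← hg, map_smul, hg, RingHom.id_apply, smul_comm]
  · ext x
    exact hg x

theorem UNI_uniq {E : Type} [AddCommGroup E] [Module k[X] E] (hE : IsComp k E) (v : ℕ → E)
    (x y : E) (hx : ∀ n, ∃ b, x = ∑ i ∈ Finset.range n, (tX k) ^ i • v i + (tX k) ^ n • b)
    (hy : ∀ n, ∃ b, y = ∑ i ∈ Finset.range n, (tX k) ^ i • v i + (tX k) ^ n • b) : x = y := by
  rw [← sub_eq_zero]
  apply hE.sep
  intro n
  obtain ⟨b, hb⟩ := hx n
  obtain ⟨b', hb'⟩ := hy n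
  refine ⟨b - b', ?_⟩
  rw [hb, hb', smul_sub]
  abel

end UNI_aux

theorem bij_of_mod {E : Type} [AddCommGroup E] [Module k[X] E] (hr : XReg k E) (hc : IsComp k E)
    (q : E →ₗ[k[X]] E) (hinj : ∀ x y, q x = tX k • y → ∃ z, x = tX k • z)
    (hsurj : ∀ y, ∃ x z, y = q x + tX k • z) : Function.Bijective q := by
  constructor
  · rw [injective_iff_map_eq_zero]
    intro x hx
    apply hc.sep
    intro n
    have : ∃ z, x = (tX k) ^ n • z ∧ q z = 0 := by
      induction n with
      | zero => exact ⟨x, by simp, hx⟩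
      | succ n ih =>
        obtain ⟨z, hz, hqz⟩ := ih
        obtain ⟨z', hz'⟩ := hinj z 0 (by rw [hqz, smul_zero])
        refine ⟨z', ?_, ?_⟩
        · rw [hz, hz', smul_smul, pow_succ]
        · apply hr
          rw [← map_smul, ← hz', hqz]
    obtain ⟨z, hz, -⟩ := this
    exact ⟨z, hz⟩
  · intro y
    choose A B hAB using hsurj
    let Y : ℕ → E := fun n => Nat.rec y (fun _ x => B x) n
    have hY0 : Y 0 = y := rfl
    have hY1 : ∀ n, Y (n + 1) = B (Y n) := fun n => rfl
    obtain ⟨x, hx⟩ := hc.lim (fun i => A (Y i))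
    refine ⟨x, ?_⟩
    have hy : ∀ n, y = q (∑ i ∈ Finset.range n, (tX k) ^ i • A (Y i)) + (tX k) ^ n • Y n := by
      intro n
      induction n with
      | zero => simp [hY0]
      | succ n ih =>
        have e1 : (tX k) ^ n • Y n = (tX k) ^ n • q (A (Y n)) + (tX k) ^ (n + 1) • Y (n + 1) := by
          conv_lhs => rw [hAB (Y n)]
          rw [smul_add, smul_smul, ← pow_succ, hY1]
        rw [Finset.sum_range_succ, map_add, map_smul, add_assoc, ← e1]
        exact ih
    rw [← sub_eq_zero]
    apply hc.sep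
    intro n
    obtain ⟨b, hb⟩ := hx n
    refine ⟨q b - Y n, ?_⟩
    conv_lhs => rw [hb, hy n]
    rw [map_add, map_smul, smul_sub]
    abel

theorem isUnit_of_isUnit {A : Type} [Ring A] [Algebra k[X] A] {S : Type} [CommRing S] [Algebra k S]
    {π : A →+* S} (hπ : IsQC k π) (hc : IsComp k A) (a : A) (ha : IsUnit (π a)) : IsUnit a := by
  have key : ∀ e : A, π e = 1 → (∃ e', e * e' = 1) ∧ (∃ e', e' * e = 1) := by
    intro e he
    obtain ⟨c, hc'⟩ := hπ.ker (e - 1) (by rw [map_sub, he, map_one, sub_self])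
    have he' : e = 1 + tX k • c := by rw [← hc']; abel
    constructor
    · have h1 := (bij_of_mod hπ.reg hc (LinearMap.mulLeft k[X] e) (fun x y hxy => by
        rw [LinearMap.mulLeft_apply] at hxy
        refine ⟨y - c * x, ?_⟩
        rw [smul_sub, ← hxy, he', add_mul, one_mul, smul_mul_assoc]
        abel) (fun y => ⟨y, -(c * y), by
        rw [LinearMap.mulLeft_apply, he', add_mul, one_mul, smul_mul_assoc, smul_neg]
        abel⟩)).2
      exact h1 1
    · have h1 := (bij_of_mod hπ.reg hc (LinearMap.mulRight k[X] e) (fun x y hxy => by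
        rw [LinearMap.mulRight_apply] at hxy
        refine ⟨y - x * c, ?_⟩
        rw [smul_sub, ← hxy, he', mul_add, mul_one, mul_smul_comm]
        abel) (fun y => ⟨y, -(y * c), by
        rw [LinearMap.mulRight_apply, he', mul_add, mul_one, mul_smul_comm, smul_neg]
        abel⟩)).2
      exact h1 1
  obtain ⟨u, hu⟩ := ha
  obtain ⟨b, hb⟩ := hπ.surj (↑u⁻¹ : S)
  obtain ⟨⟨e1, h1⟩, -⟩ := key (a * b) (by rw [map_mul, hb, ← hu, Units.mul_inv])
  obtain ⟨-, ⟨e2, h2⟩⟩ := key (b * a) (by rw [map_mul, hb, ← hu, Units.inv_mul])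
  rw [mul_assoc] at h1
  rw [← mul_assoc] at h2
  have h3 : b * e1 = e2 * b := by
    calc b * e1 = (e2 * b * a) * (b * e1) := by rw [h2, one_mul]
      _ = (e2 * b) * (a * (b * e1)) := by noncomm_ring
      _ = e2 * b := by rw [h1, mul_one]
  exact ⟨⟨a, b * e1, h1, by rw [h3, h2]⟩, rfl⟩

/-- units of a complete QC ring with residue field -/
theorem isUnit_of_res {A : Type} [Ring A] [Algebra k[X] A] {Γ : Type} [Field Γ] [Algebra k Γ]
    {π : A →+* Γ} (hπ : IsQC k π) (hc : IsComp k A) (a : A) (ha : π a ≠ 0) : IsUnit a := by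
  exact isUnit_of_isUnit hπ hc a (isUnit_iff_ne_zero.2 ha)

theorem End_reg {E : Type} [AddCommGroup E] [Module k[X] E] (hr : XReg k E) :
    XReg k (Module.End k[X] E) := by
  intro q hq
  ext x
  apply hr
  have := LinearMap.congr_fun hq x
  exact this

theorem End_comp {E : Type} [AddCommGroup E] [Module k[X] E] (hr : XReg k E) (hc : IsComp k E) :
    IsComp k (Module.End k[X] E) := by
  refine ⟨fun q hq => ?_, fun u => ?_⟩
  · ext x
    apply hc.sep
    intro n
    obtain ⟨b, hb⟩ := hq n
    exact ⟨b x, by rw [hb]; rfl⟩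
  · choose m hm using fun x => hc.lim (fun i => u i x)
    let M : Module.End k[X] E :=
      { toFun := m
        map_add' := fun x y => by
          refine UNI_uniq hc (fun i => u i (x + y)) _ _ (hm (x + y)) (fun n => ?_)
          obtain ⟨b, hb⟩ := hm x n
          obtain ⟨b', hb'⟩ := hm y n
          refine ⟨b + b', ?_⟩
          conv_lhs => rw [hb, hb']
          simp only [map_add, smul_add, Finset.sum_add_distrib]
          abel
        map_smul' := fun r x => by
          refine UNI_uniq hc (fun i => u i (r • x)) _ _ (hm (r • x)) (fun n => ?_)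
          obtain ⟨b, hb⟩ := hm x n
          refine ⟨r • b, ?_⟩
          rw [RingHom.id_apply]
          conv_lhs => rw [hb]
          rw [smul_add, Finset.smul_sum, smul_comm r]
          congr 1
          refine Finset.sum_congr rfl fun i _ => ?_
          rw [map_smul, smul_comm] }
    refine ⟨M, fun n => ?_⟩
    obtain ⟨q', hq'⟩ := UNI_div hr (M - ∑ i ∈ Finset.range n, (tX k) ^ i • u i) n (fun x => by
      obtain ⟨b, hb⟩ := hm x n
      refine ⟨b, ?_⟩
      have : M x = m x := rfl
      rw [LinearMap.sub_apply, this, hb, LinearMap.sum_apply]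
      simp only [LinearMap.smul_apply]
      abel)
    exact ⟨q', by rw [← hq']; abel⟩

/-- a linear map that is divisible by `X` pointwise is `X` times a linear map -/
theorem End_div {E : Type} [AddCommGroup E] [Module k[X] E] (hr : XReg k E)
    (q : Module.End k[X] E) (n : ℕ) (h : ∀ x, ∃ y, q x = (tX k) ^ n • y) :
    ∃ q' : Module.End k[X] E, q = (tX k) ^ n • q' := by
  exact UNI_div hr q n h

end C74
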