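import Pool.Agent.MP_35f30a_al.C74.FN3
import Pool.Agent.MP_35f30a_al.C74.SZ2
import Pool.Agent.MP_35f30a_al.C74.UNI

/-!
Homomorphisms to division rings: every non-scalar element of a free algebra is killed by a
homomorphism to a division ring.
-/

set_option autoImplicit false

open scoped TensorProduct Polynomial

namespace C74

variable {k : Type} [Field k]

/-- inverses -/
theorem inv_F (X : Obj k) {q : ℚ} {d : X.D} (hd : d ∉ X.F q) :
    ∃ e : X.D, d * e = 1 ∧ e * d = 1 ∧ e ∈ X.F (-q) := by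
  -- the exact level of `d`
  have hne : ∃ n : ℤ, d ∉ Fr.lev k X.A n := ⟨_, hd⟩
  obtain ⟨m, hm⟩ := lev_exhaust (k := k) (A := X.A) d
  obtain ⟨n, hn1, hn2⟩ : ∃ n : ℤ, d ∈ Fr.lev k X.A n ∧ d ∉ Fr.lev k X.A (n - 1) := by
    by_contra hcon
    push Not at hcon
    obtain ⟨n0, hn0⟩ := hne
    have key : ∀ j : ℕ, d ∈ Fr.lev k X.A (m - j) := by
      intro j
      induction j with
      | zero => simpa using hm
      | succ j ih =>
        have := hcon _ ih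
        rwa [show m - ((j + 1 : ℕ) : ℤ) = m - (j : ℤ) - 1 by push_cast; ring]
    have h := key (m - n0).toNat
    exact hn0 (lev_mono (by omega) h)
  obtain ⟨a, ha⟩ := hn1
  have hπ : X.π a ≠ 0 := by
    intro h0
    obtain ⟨b, hb⟩ := X.qc.ker a h0
    apply hn2
    refine ⟨b, ?_⟩
    rw [ha, hb, map_smul, Algebra.smul_def, ← Fr.tz_one, ← mul_assoc, ← Fr.tz_add]
    congr 2
    ring
  obtain ⟨u, hu⟩ := isUnit_of_res X.qc X.comp a hπ
  have hlt : (X.L : ℚ) * q < n := by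
    by_contra hcon
    push Not at hcon
    have : n ≤ ⌊(X.L : ℚ) * q⌋ := Int.le_floor.mpr hcon
    exact hd (lev_mono this ⟨a, ha⟩)
  refine ⟨Fr.tz n * Fr.ι (↑(u⁻¹) : X.A), ?_, ?_, ?_⟩
  · rw [ha, ← hu]
    calc (Fr.tz (-n) * Fr.ι (u : X.A) * (Fr.tz n * Fr.ι (↑(u⁻¹) : X.A)) : X.D)
        = Fr.tz (-n) * (Fr.ι (u : X.A) * Fr.tz n) * Fr.ι (↑(u⁻¹) : X.A) := by simp only [mul_assoc]
      _ = (Fr.tz (-n) * Fr.tz n) * (Fr.ι (u : X.A) * Fr.ι (↑(u⁻¹) : X.A)) := by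
          rw [← Fr.tz_comm]; simp only [mul_assoc]
      _ = 1 := by rw [Fr.tz_neg_mul, ← map_mul, Units.mul_inv, map_one, one_mul]
  · rw [ha, ← hu]
    calc (Fr.tz n * Fr.ι (↑(u⁻¹) : X.A) * (Fr.tz (-n) * Fr.ι (u : X.A)) : X.D)
        = Fr.tz n * (Fr.ι (↑(u⁻¹) : X.A) * Fr.tz (-n)) * Fr.ι (u : X.A) := by simp only [mul_assoc]
      _ = (Fr.tz n * Fr.tz (-n)) * (Fr.ι (↑(u⁻¹) : X.A) * Fr.ι (u : X.A)) := by
          rw [← Fr.tz_comm]; simp only [mul_assoc]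
      _ = 1 := by rw [Fr.tz_mul_neg, ← map_mul, Units.inv_mul, map_one, one_mul]
  · have h1 : (Fr.tz n * Fr.ι (↑(u⁻¹) : X.A) : X.D) ∈ Fr.lev k X.A (-n) :=
      ⟨_, by rw [neg_neg]⟩
    refine lev_mono ?_ h1
    apply Int.le_floor.mpr
    push_cast
    linarith

theorem one_mem_F (X : Obj k) : (1 : X.D) ∈ X.F 0 := by
  show (1 : X.D) ∈ Fr.lev k X.A ⌊(X.L : ℚ) * 0⌋
  rw [mul_zero, Int.floor_zero]
  exact ⟨1, by simp⟩

theorem one_not_mem_F (X : Obj k) {q : ℚ} (hq : q < 0) : (1 : X.D) ∉ X.F q := by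
  intro h
  have hL : (0 : ℚ) < X.L := by exact_mod_cast X.Lpos
  have h1 : ⌊(X.L : ℚ) * q⌋ ≤ -1 := by
    have h2 : (X.L : ℚ) * q < 0 := mul_neg_of_pos_of_neg hL hq
    have h3 : ⌊(X.L : ℚ) * q⌋ < 0 := by
      rw [Int.floor_lt]; exact_mod_cast h2
    omega
  have h2 : (1 : X.D) ∈ Fr.lev k X.A (-1) := lev_mono h1 h
  obtain ⟨a, ha⟩ := h2
  rw [neg_neg, Fr.tz_one, ← Algebra.smul_def, ← map_smul] at ha
  have h3 : (1 : X.A) = tX k • a := by
    apply Fr.ι_injective X.qc.reg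
    rw [map_one]; exact ha
  have h4 := congrArg X.π h3
  rw [map_one, X.qc.kerX] at h4
  exact one_ne_zero h4

end C74
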