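import Pool.Agent.MP_35f30a_al.C74.DV

/-!
Homomorphisms to division rings, part 2: bounded sequences modulo infinitesimal ones.
-/

set_option autoImplicit false

open scoped TensorProduct Polynomial

namespace C74

section ultra
variable {k : Type} [Field k] (X : ℕ → Obj k)

/-- bounded sequences -/
noncomputable def BS : Subalgebra k (∀ B, (X B).D) where
  carrier := {d | ∃ C : ℚ, 0 ≤ C ∧ ∀ B, d B ∈ (X B).F C}
  mul_mem' := by
    rintro a b ⟨C, hC, ha⟩ ⟨C', hC', hb⟩
    exact ⟨C + C', by positivity, fun B => F_mul (ha B) (hb B)⟩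
  add_mem' := by
    rintro a b ⟨C, hC, ha⟩ ⟨C', hC', hb⟩
    refine ⟨C + C', by positivity, fun B => ?_⟩
    exact add_mem (F_mono (by linarith) (ha B)) (F_mono (by linarith) (hb B))
  algebraMap_mem' := by
    intro r
    refine ⟨0, le_rfl, fun B => ?_⟩
    have : algebraMap k (∀ B, (X B).D) r B = r • (1 : (X B).D) := by
      rw [Pi.algebraMap_apply, Algebra.algebraMap_eq_smul_one]
    rw [this]
    exact Submodule.smul_mem _ _ (one_mem_F (X B))

/-- infinitesimal sequences along the ultrafilter `hyperfilter ℕ` -/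
noncomputable def IS : Ideal (BS X) where
  carrier := {d | ∀ C : ℚ, ∀ᶠ B in (Filter.hyperfilter ℕ : Filter ℕ), (d : ∀ B, (X B).D) B ∈ (X B).F (-C)}
  add_mem' := by
    intro a b ha hb C
    filter_upwards [ha C, hb C] with B h1 h2 using add_mem h1 h2
  zero_mem' := fun C => Filter.Eventually.of_forall fun B => zero_mem _
  smul_mem' := by
    rintro ⟨a, C', hC', ha⟩ b hb C
    filter_upwards [hb (C + C')] with B h1
    have := F_mul (ha B) h1
    have h2 : C' + -(C + C') = -C := by ring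
    rw [h2] at this
    exact this

instance : (IS X).IsTwoSided := ⟨by
  rintro a ⟨b, C', hC', hb⟩ ha C
  filter_upwards [ha (C + C')] with B h1
  have := F_mul h1 (hb B)
  have h2 : -(C + C') + C' = -C := by ring
  rw [h2] at this
  exact this⟩

theorem IS_unit (x : BS X) (hx : x ∉ IS X) : ∃ e : BS X, x * e - 1 ∈ IS X ∧ e * x - 1 ∈ IS X := by
  classical
  have h1 : ∃ C : ℚ, ¬ ∀ᶠ B in (Filter.hyperfilter ℕ : Filter ℕ), (x : ∀ B, (X B).D) B ∈ (X B).F (-C) := by
    by_contra h
    push Not at h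
    exact hx h
  obtain ⟨C, hC⟩ := h1
  rw [Ultrafilter.eventually_not.symm] at hC
  have hinv : ∀ B, ∃ e : (X B).D, e ∈ (X B).F |C| ∧
      ((x : ∀ B, (X B).D) B ∉ (X B).F (-C) → (x : ∀ B, (X B).D) B * e = 1 ∧ e * (x : ∀ B, (X B).D) B = 1) := by
    intro B
    by_cases h : (x : ∀ B, (X B).D) B ∈ (X B).F (-C)
    · exact ⟨0, zero_mem _, fun h' => absurd h h'⟩
    · obtain ⟨e, he1, he2, he3⟩ := inv_F (X B) h
      refine ⟨e, F_mono ?_ he3, fun _ => ⟨he1, he2⟩⟩
      rw [neg_neg]; exact le_abs_self C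
  choose e he1 he2 using hinv
  refine ⟨⟨e, |C|, abs_nonneg C, he1⟩, ?_, ?_⟩
  · intro C'
    filter_upwards [hC] with B hB
    have : (((x * (⟨e, |C|, abs_nonneg C, he1⟩ : BS X) - 1 : BS X)) : ∀ B, (X B).D) B =
        (x : ∀ B, (X B).D) B * e B - 1 := rfl
    rw [this, (he2 B hB).1, sub_self]
    exact zero_mem _
  · intro C'
    filter_upwards [hC] with B hB
    have : ((((⟨e, |C|, abs_nonneg C, he1⟩ : BS X) * x - 1 : BS X)) : ∀ B, (X B).D) B =
        e B * (x : ∀ B, (X B).D) B - 1 := rfl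
    rw [this, (he2 B hB).2, sub_self]
    exact zero_mem _

theorem IS_one : (1 : BS X) ∉ IS X := by
  intro h
  have := h 1
  obtain ⟨B, hB⟩ := this.exists
  exact one_not_mem_F (X B) (by norm_num) hB

/-- the division ring -/
theorem exists_divisionRing {V : Type} (y : V → ∀ B, (X B).D) (hy : ∀ v B, y v B ∈ (X B).F 1)
    (f : FreeAlgebra k V)
    (hf : ∀ B, FreeAlgebra.lift k (fun v => y v B) f ∈ (X B).F (-(B : ℚ))) :
    ∃ (D : Type) (_ : DivisionRing D) (_ : Algebra k D) (φ : FreeAlgebra k V →ₐ[k] D), φ f = 0 := by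
  classical
  let Q := BS X ⧸ IS X
  haveI : Nontrivial Q := Ideal.Quotient.nontrivial_iff.mpr (fun h => IS_one X (h ▸ Submodule.mem_top))
  have hdiv : ∀ a : Q, IsUnit a ∨ a = 0 := by
    intro a
    obtain ⟨x, rfl⟩ := Ideal.Quotient.mk_surjective a
    by_cases hx : x ∈ IS X
    · right; exact Ideal.Quotient.eq_zero_iff_mem.mpr hx
    · left
      obtain ⟨e, h1, h2⟩ := IS_unit X x hx
      have h1' : Ideal.Quotient.mk (IS X) x * Ideal.Quotient.mk (IS X) e = 1 := by
        rw [← map_mul, ← sub_eq_zero, ← map_one (Ideal.Quotient.mk (IS X)), ← map_sub]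
        exact Ideal.Quotient.eq_zero_iff_mem.mpr h1
      have h2' : Ideal.Quotient.mk (IS X) e * Ideal.Quotient.mk (IS X) x = 1 := by
        rw [← map_mul, ← sub_eq_zero, ← map_one (Ideal.Quotient.mk (IS X)), ← map_sub]
        exact Ideal.Quotient.eq_zero_iff_mem.mpr h2
      exact ⟨⟨_, _, h1', h2'⟩, rfl⟩
  let yb : V → BS X := fun v => ⟨y v, 1, zero_le_one, hy v⟩
  let φ : FreeAlgebra k V →ₐ[k] Q := (Ideal.Quotient.mkₐ k (IS X)).comp (FreeAlgebra.lift k yb)
  refine ⟨Q, DivisionRing.ofIsUnitOrEqZero hdiv, (inferInstance : Algebra k Q), φ, ?_⟩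
  show Ideal.Quotient.mk (IS X) (FreeAlgebra.lift k yb f) = 0
  rw [Ideal.Quotient.eq_zero_iff_mem]
  intro C
  have hval : ∀ B, ((FreeAlgebra.lift k yb f : BS X) : ∀ B, (X B).D) B =
      FreeAlgebra.lift k (fun v => y v B) f := by
    intro B
    let ev : BS X →ₐ[k] (X B).D := (Pi.evalAlgHom k (fun B => (X B).D) B).comp (BS X).val
    have : ev.comp (FreeAlgebra.lift k yb) = FreeAlgebra.lift k (fun v => y v B) := by
      apply FreeAlgebra.hom_ext
      funext v
      simp [ev, yb]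
    exact congrArg (fun g => g f) this
  have hev : ∀ᶠ B in (Filter.hyperfilter ℕ : Filter ℕ), ⌈C⌉₊ ≤ B := by
    apply Filter.hyperfilter_le_cofinite
    rw [Nat.cofinite_eq_atTop]
    exact Filter.eventually_ge_atTop _
  filter_upwards [hev] with B hB
  rw [hval B]
  refine F_mono ?_ (hf B)
  have : C ≤ (B : ℚ) := (Nat.le_ceil C).trans (by exact_mod_cast hB)
  linarith

end ultra

end C74
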