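import Pool.Agent.MP_35f30a_al.C74.KF4
import Mathlib.FieldTheory.RatFunc.IntermediateField
import Mathlib.FieldTheory.RatFunc.AsPolynomial

/-!
ROW FN1.  The initial object.  Blueprint sections 1, 7.

`K := RatFunc k` (or `FractionRing k[X]`), `A := ` (a type synonym of) `PowerSeries K` with the `k[X]`-algebra structure
`X ↦ PowerSeries.X`, `k → K → PowerSeries K` (careful: not the instance coming from a `k[X]`-algebra structure on `K`),
`π := constant coefficient`, `L := 1`.  QC: `π p = 0` iff `X ∣ p`.  Complete.  SG: `B = {x}`, `K = k(x)`.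
`x n := ι (PowerSeries.C (x^n)) ∈ lev 0`, residue `x^n` at level `0`, `k`-linearly independent.
-/

set_option autoImplicit false

open scoped TensorProduct Polynomial

namespace C74

/-- type synonym for `K[[X]]`, `K = k(x)` -/
def FN1_A (k : Type) [Field k] : Type := PowerSeries (RatFunc k)

noncomputable instance FN1_ring (k : Type) [Field k] : CommRing (FN1_A k) :=
  inferInstanceAs (CommRing (PowerSeries (RatFunc k)))

/-- `k[X] → K[[X]]` -/
noncomputable def FN1_map (k : Type) [Field k] : k[X] →+* FN1_A k :=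
  (Polynomial.eval₂RingHom ((PowerSeries.C (R := RatFunc k)).comp (algebraMap k (RatFunc k)))
    (PowerSeries.X : PowerSeries (RatFunc k)) : k[X] →+* PowerSeries (RatFunc k))

noncomputable instance FN1_alg (k : Type) [Field k] : Algebra k[X] (FN1_A k) :=
  (FN1_map k).toAlgebra

/-- the identity -/
noncomputable def FN1_e (k : Type) [Field k] : FN1_A k ≃+* PowerSeries (RatFunc k) :=
  RingEquiv.refl _

theorem FN1_algMap_C (k : Type) [Field k] (c : k) :
    FN1_e k (algebraMap k[X] (FN1_A k) (Polynomial.C c)) =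
      PowerSeries.C (algebraMap k (RatFunc k) c) := by
  show Polynomial.eval₂ _ _ _ = _
  rw [Polynomial.eval₂_C]
  rfl

theorem FN1_algMap_X (k : Type) [Field k] :
    FN1_e k (algebraMap k[X] (FN1_A k) (tX k)) = PowerSeries.X := by
  show Polynomial.eval₂ _ _ _ = _
  rw [Polynomial.eval₂_X]

theorem FN1_smul (k : Type) [Field k] (n : ℕ) (a : FN1_A k) :
    FN1_e k ((tX k) ^ n • a) = PowerSeries.X ^ n * FN1_e k a := by
  rw [Algebra.smul_def, map_mul, map_pow, map_pow, FN1_algMap_X]

theorem FN1_smul1 (k : Type) [Field k] (a : FN1_A k) :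
    FN1_e k (tX k • a) = PowerSeries.X * FN1_e k a := by
  rw [Algebra.smul_def, map_mul, FN1_algMap_X]

/-- the residue map -/
noncomputable def FN1_pi (k : Type) [Field k] : FN1_A k →+* RatFunc k :=
  (PowerSeries.constantCoeff (R := RatFunc k)).comp (FN1_e k : FN1_A k →+* PowerSeries (RatFunc k))

theorem FN1_pi_apply (k : Type) [Field k] (a : FN1_A k) :
    FN1_pi k a = PowerSeries.constantCoeff (R := RatFunc k) (FN1_e k a) := rfl

theorem FN1_qc (k : Type) [Field k] : IsQC k (FN1_pi k) where
  reg a ha := by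
    have h := FN1_smul1 k a
    rw [ha, map_zero] at h
    have h2 : FN1_e k a = 0 := by
      rcases mul_eq_zero.1 h.symm with h | h
      · exact absurd h PowerSeries.X_ne_zero
      · exact h
    exact (map_eq_zero_iff (FN1_e k) (FN1_e k).injective).1 h2
  surj s := ⟨(FN1_e k).symm (PowerSeries.C s), by simp [FN1_pi_apply]⟩
  ker a ha := by
    obtain ⟨b, hb⟩ := PowerSeries.X_dvd_iff.2 ((FN1_pi_apply k a).symm.trans ha)
    refine ⟨(FN1_e k).symm b, (FN1_e k).injective ?_⟩
    rw [FN1_smul1, RingEquiv.apply_symm_apply, hb]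
  kerX b := by simp [FN1_pi_apply, FN1_smul1]
  scal c := by rw [FN1_pi_apply, FN1_algMap_C]; simp

theorem FN1_comp (k : Type) [Field k] : IsComp k (FN1_A k) where
  sep m hm := by
    apply (FN1_e k).injective
    rw [map_zero]
    ext n
    obtain ⟨b, hb⟩ := hm (n + 1)
    rw [hb, FN1_smul, map_zero]
    exact PowerSeries.X_pow_dvd_iff.1 (Dvd.intro _ rfl) n (Nat.lt_succ_self n)
  lim u := by
    refine ⟨(FN1_e k).symm (PowerSeries.mk fun N => ∑ i ∈ Finset.range (N + 1),
      PowerSeries.coeff (N - i) (FN1_e k (u i))), fun n => ?_⟩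
    have h : (PowerSeries.X : PowerSeries (RatFunc k)) ^ n ∣
        (PowerSeries.mk fun N => ∑ i ∈ Finset.range (N + 1),
          PowerSeries.coeff (N - i) (FN1_e k (u i))) -
        ∑ i ∈ Finset.range n, PowerSeries.X ^ i * FN1_e k (u i) := by
      rw [PowerSeries.X_pow_dvd_iff]
      intro m hm
      rw [map_sub, PowerSeries.coeff_mk, map_sum, sub_eq_zero]
      have h2 : ∀ i ∈ Finset.range n, PowerSeries.coeff m (PowerSeries.X ^ i * FN1_e k (u i)) =
          if i ≤ m then PowerSeries.coeff (m - i) (FN1_e k (u i)) else 0 := by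
        intro i _
        rw [PowerSeries.coeff_X_pow_mul']
      rw [Finset.sum_congr rfl h2, ← Finset.sum_filter]
      apply Finset.sum_congr _ (fun _ _ => rfl)
      ext i
      simp only [Finset.mem_range, Finset.mem_filter]
      omega
    obtain ⟨b, hb⟩ := h
    refine ⟨(FN1_e k).symm b, (FN1_e k).injective ?_⟩
    rw [RingEquiv.apply_symm_apply, map_add, map_sum, FN1_smul, RingEquiv.apply_symm_apply, ← hb]
    simp only [FN1_smul]
    ring

theorem FN1_sg (k : Type) [Field k] : SG k (RatFunc k) := by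
  refine ⟨{RatFunc.X}, ?_, ?_⟩
  · exact algebraicIndependent_unique_type_iff.2 RatFunc.transcendental_X
  · rw [RatFunc.adjoin_X]
    refine ⟨fun x => ?_⟩
    exact isSeparable_algebraMap (F := (⊤ : IntermediateField k (RatFunc k))) ⟨x, trivial⟩

/-- the initial object `K[[X]]`, `K = k(x)` -/
theorem exists_init (k : Type) [Field k] : ∃ (X : Obj k) (x : ℕ → X.D) (b : ℕ → X.K), X.L = 1 ∧
    (∀ n, Fr.Res X.π 0 (x n) (b n)) ∧ LinearIndependent k b := by
  refine ⟨{ A := FN1_A k, K := RatFunc k, π := FN1_pi k, qc := FN1_qc k, comp := FN1_comp k,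
            sg := FN1_sg k, L := 1, Lpos := Nat.one_pos },
    fun n => Fr.ι ((FN1_e k).symm (PowerSeries.C (RatFunc.X ^ n))), fun n => RatFunc.X ^ n,
    rfl, fun n => ⟨(FN1_e k).symm (PowerSeries.C (RatFunc.X ^ n)), ?_, ?_⟩, ?_⟩
  · simp
  · rw [FN1_pi_apply]; simp
  · have h1 := (Polynomial.basisMonomials k).linearIndependent.map' (Polynomial.aeval
      (RatFunc.X : RatFunc k)).toLinearMap (LinearMap.ker_eq_bot.2
        (transcendental_iff_injective.1 RatFunc.transcendental_X))
    have h2 : (((Polynomial.aeval (RatFunc.X : RatFunc k)).toLinearMap) ∘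
        (Polynomial.basisMonomials k : ℕ → k[X])) = fun n => (RatFunc.X : RatFunc k) ^ n := by
      funext n
      simp
    rw [h2] at h1
    exact h1

end C74
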