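import Pool.Agent.MP_35f30a_al.C74.Ord

/-!
Definitions (no row): `glue`, `DW`.
-/

set_option autoImplicit false

open scoped TensorProduct Polynomial

namespace C74

/-- `T_1 × T_j → T_{j+2}`, `(a ⊗ b, y) ↦ a ⊗ b ⊗ y` -/
noncomputable def glue {R : Type} [CommRing R] {A : Type} [Ring A] [Algebra R A] (j : ℕ) :
    TP R A 1 →ₗ[R] TP R A j →ₗ[R] TP R A (j + 2) :=
  TP.lift (LinearMap.mk₂ R (fun a (b : TP R A 0) =>
      ((TP.consL (j + 1) a) ∘ₗ (TP.consL j (TP.toA b)) : TP R A j →ₗ[R] TP R A (j + 2)))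
    (fun a a' b => by ext y; simp)
    (fun r a b => by ext y; simp)
    (fun a b b' => by ext y; simp)
    (fun r a b => by ext y; simp [TP.toA_smulR]))

lemma glue_cons {R : Type} [CommRing R] {A : Type} [Ring A] [Algebra R A] (j : ℕ) (a b : A)
    (y : TP R A j) : glue j (TP.cons a (TP.ofA b)) y = TP.cons a (TP.cons b y) := by
  rw [glue, TP.lift_cons]; rfl

/-- `span {δ_{b1} ... δ_{bm} (a ⊗ u) | u ∈ W}` -/
noncomputable def DW {k : Type} [Field k] {Γ : Type} [CommRing Γ] [Algebra k Γ] {j : ℕ}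
    (W : Submodule k (TP k Γ j)) : ℕ → Submodule k (TP k Γ (j + 1))
  | 0 => Submodule.span k {z | ∃ (a : Γ) (u : TP k Γ j), u ∈ W ∧ z = TP.cons a u}
  | m + 1 => Submodule.span k {z | ∃ (b : Γ) (y : TP k Γ (j + 1)), y ∈ DW W m ∧ z = TP.del b j y}

end C74
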