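import Pool.Agent.MP_35f30a_al.C74.QC

/-!
# The localisation `Fr k A = A[1/X]`: basic API
-/

set_option autoImplicit false

open scoped TensorProduct Polynomial

namespace C74

namespace FrL

variable {k : Type} [Field k] {A : Type} [Ring A] [Algebra k[X] A]

/-- auxiliary: `A[1/X]` as a `LocalizedModule` -/
abbrev L (k : Type) [Field k] (A : Type) [Ring A] [Algebra k[X] A] : Type :=
  LocalizedModule (Submonoid.powers (tX k)) A

/-- auxiliary -/
noncomputable def ι : A →ₐ[k[X]] L k A where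
  toFun a := LocalizedModule.mk a 1
  map_one' := by rw [OreLocalization.one_def]
  map_mul' a b := by rw [LocalizedModule.mk_mul_mk, one_mul]
  map_zero' := LocalizedModule.zero_mk 1
  map_add' a b := by rw [LocalizedModule.mk_add_mk]; simp
  commutes' r := rfl

lemma ι_apply (a : A) : (ι a : L k A) = LocalizedModule.mk a 1 := rfl

lemma exists_mk (d : L k A) : ∃ (a : A) (n : ℕ), (tX k) ^ n • d = ι a := by
  induction d using LocalizedModule.induction_on with
  | h m s =>
    obtain ⟨s, n, hs⟩ := s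
    refine ⟨m, n, ?_⟩
    rw [ι_apply, LocalizedModule.smul'_mk, LocalizedModule.mk_eq]
    refine ⟨1, ?_⟩
    simp only [Submonoid.smul_def, one_smul, ← hs]

lemma ι_eq_zero {a : A} (h : (ι a : L k A) = 0) : ∃ n : ℕ, (tX k) ^ n • a = 0 := by
  rw [ι_apply, ← LocalizedModule.zero_mk 1, LocalizedModule.mk_eq] at h
  obtain ⟨⟨u, n, hu'⟩, hu⟩ := h
  refine ⟨n, ?_⟩
  simpa [Submonoid.smul_def, ← hu'] using hu

lemma isUnit_X : IsUnit (algebraMap k[X] (L k A) (tX k)) := by
  have h : algebraMap k[X] (L k A) (tX k) *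
      (LocalizedModule.mk 1 ⟨tX k, 1, pow_one _⟩ : L k A) = 1 := by
    rw [← Algebra.smul_def, LocalizedModule.smul'_mk, OreLocalization.one_def, LocalizedModule.mk_eq]
    exact ⟨1, by simp [Submonoid.smul_def]⟩
  exact ⟨⟨_, _, h, by rw [← Algebra.commutes]; exact h⟩, rfl⟩

section lift

variable {B : Type} [Ring B] (g : A →+* B) (hu : IsUnit (g (algebraMap k[X] A (tX k))))

/-- auxiliary -/
noncomputable def u (s : Submonoid.powers (tX k)) : B := g (algebraMap k[X] A s)

include hu in
lemma u_isUnit (s : Submonoid.powers (tX k)) : IsUnit (u g s) := by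
  obtain ⟨s, n, rfl⟩ := s
  show IsUnit (g (algebraMap k[X] A ((tX k) ^ n)))
  rw [map_pow, map_pow]; exact hu.pow n

lemma u_mul (s s' : Submonoid.powers (tX k)) : u g (s * s') = u g s * u g s' := by
  simp [u]

lemma u_comm (s : Submonoid.powers (tX k)) (a : A) : u g s * g a = g a * u g s := by
  simp only [u]; rw [← map_mul, ← map_mul, Algebra.commutes]

/-- auxiliary -/
noncomputable def v (s : Submonoid.powers (tX k)) : B := ↑(u_isUnit g hu s).unit⁻¹

lemma u_v (s : Submonoid.powers (tX k)) : u g s * v g hu s = 1 := (u_isUnit g hu s).mul_val_inv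
lemma v_u (s : Submonoid.powers (tX k)) : v g hu s * u g s = 1 := (u_isUnit g hu s).val_inv_mul

lemma v_comm (s : Submonoid.powers (tX k)) (a : A) : v g hu s * g a = g a * v g hu s := by
  have : Commute (((u_isUnit g hu s).unit : Bˣ) : B) (g a) := u_comm g s a
  exact this.units_inv_left

lemma v_eq_iff (s : Submonoid.powers (tX k)) (x y : B) : v g hu s * x = y ↔ x = u g s * y := by
  constructor
  · rintro rfl; rw [← mul_assoc, u_v, one_mul]
  · rintro rfl; rw [← mul_assoc, v_u, one_mul]

/-- auxiliary: ring homs out of `A[1/X]` -/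
noncomputable def lift : L k A →+* B where
  toFun d := LocalizedModule.liftOn d (fun p => v g hu p.2 * g p.1) (by
        rintro ⟨a, s⟩ ⟨a', s'⟩ ⟨w, hw⟩
        have hv' : u g w * (u g s' * g a) = u g w * (u g s * g a') := by
          have := congrArg g hw
          simpa [Submonoid.smul_def, Algebra.smul_def, u] using this
        have hv'' := (u_isUnit g hu w).mul_left_cancel hv'
        show v g hu s * g a = v g hu s' * g a'
        rw [v_eq_iff, ← mul_assoc]
        have : u g s * v g hu s' = v g hu s' * u g s := (v_comm g hu s' _).symm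
        rw [this, mul_assoc, eq_comm, v_eq_iff]
        exact hv''.symm)
  map_one' := by
    rw [OreLocalization.one_def, LocalizedModule.liftOn_mk, v_eq_iff]
    simp [u]
  map_zero' := by
    rw [← LocalizedModule.zero_mk 1, LocalizedModule.liftOn_mk]
    simp
  map_mul' := by
    intro x y
    induction x, y using LocalizedModule.induction_on₂ with
    | h a a' s s' =>
    rw [LocalizedModule.mk_mul_mk, LocalizedModule.liftOn_mk, LocalizedModule.liftOn_mk,
      LocalizedModule.liftOn_mk]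
    dsimp only
    rw [v_eq_iff, u_mul, map_mul, mul_assoc (v g hu s), ← mul_assoc (g a), ← v_comm g hu s' a,
      mul_assoc (u g s)]
    have h1 : u g s' * v g hu s = v g hu s * u g s' := (v_comm g hu s _).symm
    rw [← mul_assoc (u g s'), h1, mul_assoc (v g hu s), ← mul_assoc (u g s), u_v, one_mul,
      mul_assoc (v g hu s'), ← mul_assoc (u g s'), u_v, one_mul]
  map_add' := by
    intro x y
    induction x, y using LocalizedModule.induction_on₂ with
    | h a a' s s' =>
    rw [LocalizedModule.mk_add_mk, LocalizedModule.liftOn_mk, LocalizedModule.liftOn_mk,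
      LocalizedModule.liftOn_mk]
    dsimp only
    have h4 : g (s' • a + s • a') = u g s' * g a + u g s * g a' := by
      simp [Submonoid.smul_def, Algebra.smul_def, u]
    rw [v_eq_iff, h4, mul_add, u_mul]
    congr 1
    · have : u g s * u g s' = u g s' * u g s := u_comm g s _
      rw [this, mul_assoc, ← mul_assoc (u g s), u_v, one_mul]
    · rw [mul_assoc, ← mul_assoc (u g s'), u_v, one_mul]

lemma lift_ι (a : A) : lift g hu (ι a) = g a := by
  simp only [lift, RingHom.coe_mk, MonoidHom.coe_mk, OneHom.coe_mk, ι_apply]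
  rw [LocalizedModule.liftOn_mk]
  dsimp only
  rw [v_eq_iff]; simp [u]

end lift

end FrL

namespace Fr

variable {k : Type} [Field k] {A : Type} [Ring A] [Algebra k[X] A]

/-- the canonical map `A → A[1/X]` -/
noncomputable def ι : A →ₐ[k[X]] Fr k A := (FrL.ι : A →ₐ[k[X]] FrL.L k A)

lemma exists_mk (d : Fr k A) : ∃ (a : A) (n : ℕ), (tX k) ^ n • d = ι a := FrL.exists_mk d

lemma ι_eq_zero {a : A} (h : (ι a : Fr k A) = 0) : ∃ n : ℕ, (tX k) ^ n • a = 0 :=
  FrL.ι_eq_zero h

lemma ι_injective (hA : XReg k A) : Function.Injective (ι : A → Fr k A) := by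
  intro a b hab
  have h0 : (ι (a - b) : Fr k A) = 0 := by rw [map_sub, hab, sub_self]
  obtain ⟨n, hn⟩ := ι_eq_zero h0
  have : ∀ n : ℕ, (tX k) ^ n • (a - b) = 0 → a - b = 0 := by
    intro n
    induction n with
    | zero => simp
    | succ n ih =>
      intro h
      apply ih
      apply hA
      rw [smul_smul, ← pow_succ']; exact h
  exact sub_eq_zero.mp (this n hn)

/-- `X` is a unit of `A[1/X]` -/
lemma isUnit_X : IsUnit (algebraMap k[X] (Fr k A) (tX k)) := FrL.isUnit_X

/-- the unit `X` of `A[1/X]` -/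
noncomputable def tu : (Fr k A)ˣ := (isUnit_X (k := k) (A := A)).unit

lemma tu_val : ((tu : (Fr k A)ˣ) : Fr k A) = algebraMap k[X] (Fr k A) (tX k) := rfl

/-- `tz n = X ^ n`, `n ∈ ℤ`, a central unit of `A[1/X]` -/
noncomputable def tz (n : ℤ) : Fr k A := ((tu ^ n : (Fr k A)ˣ) : Fr k A)

lemma tz_add (m n : ℤ) : (tz (m + n) : Fr k A) = tz m * tz n := by
  simp [tz, zpow_add]
@[simp] lemma tz_zero : (tz 0 : Fr k A) = 1 := by simp [tz]
lemma tz_one : (tz 1 : Fr k A) = algebraMap k[X] (Fr k A) (tX k) := by simp [tz, tu_val]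
lemma tz_nat (n : ℕ) : (tz n : Fr k A) = algebraMap k[X] (Fr k A) ((tX k) ^ n) := by
  simp [tz, tu_val]
lemma tz_comm (n : ℤ) (d : Fr k A) : tz n * d = d * tz n := by
  have h : Commute (((tu : (Fr k A)ˣ)) : Fr k A) d := by
    rw [tu_val]; exact Algebra.commutes _ _
  exact (h.units_zpow_left n)
lemma tz_mul_neg (n : ℤ) : (tz n : Fr k A) * tz (-n) = 1 := by
  rw [← tz_add]; simp
lemma tz_neg_mul (n : ℤ) : (tz (-n) : Fr k A) * tz n = 1 := by
  rw [← tz_add]; simp

lemma exists_rep (d : Fr k A) : ∃ (a : A) (n : ℕ), d = tz (-(n : ℤ)) * ι a := by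
  obtain ⟨a, n, h⟩ := exists_mk d
  refine ⟨a, n, ?_⟩
  rw [← h, Algebra.smul_def, ← tz_nat, ← mul_assoc, tz_neg_mul, one_mul]

/-- two ring homs out of `A[1/X]` that agree on `A` are equal -/
theorem hom_ext {B : Type} [Ring B] {f g : Fr k A →+* B}
    (h : ∀ a, f (ι a) = g (ι a)) : f = g := by
  ext d
  obtain ⟨a, n, hd⟩ := exists_mk d
  have hX : f (algebraMap k[X] (Fr k A) ((tX k) ^ n)) = g (algebraMap k[X] (Fr k A) ((tX k) ^ n)) := by
    rw [← AlgHom.commutes (ι : A →ₐ[k[X]] Fr k A)]; exact h _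
  have hu : IsUnit (f (algebraMap k[X] (Fr k A) ((tX k) ^ n))) := by
    rw [map_pow, map_pow]; exact ((isUnit_X (k := k) (A := A)).map f).pow n
  apply hu.mul_left_cancel
  rw [← map_mul, ← Algebra.smul_def, hd, h, ← hd, Algebra.smul_def, map_mul, hX]

/-- ring homs out of `A[1/X]` -/
noncomputable def lift {B : Type} [Ring B] (g : A →+* B)
    (hu : IsUnit (g (algebraMap k[X] A (tX k)))) : Fr k A →+* B := FrL.lift g hu

@[simp] lemma lift_ι {B : Type} [Ring B] (g : A →+* B)
    (hu : IsUnit (g (algebraMap k[X] A (tX k)))) (a : A) : lift g hu (ι a) = g a :=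
  FrL.lift_ι g hu a

section map
variable {A' : Type} [Ring A'] [Algebra k[X] A']

lemma isUnit_map {M : ℕ} {f : A →+* A'} (hf : IsScale k M f) :
    IsUnit ((((ι : A' →ₐ[k[X]] Fr k A') : A' →+* Fr k A').comp f) (algebraMap k[X] A (tX k))) := by
  have h1 : sig k M (tX k) = (tX k) ^ M := Polynomial.expand_X M
  have : (((ι : A' →ₐ[k[X]] Fr k A') : A' →+* Fr k A').comp f) (algebraMap k[X] A (tX k)) =
      (algebraMap k[X] (Fr k A') (tX k)) ^ M := by
    show ι (f (algebraMap k[X] A (tX k))) = _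
    rw [hf, AlgHom.commutes, h1, map_pow]
  rw [this]; exact isUnit_X.pow M

/-- functoriality of `A[1/X]` for ring homs of scale `M` -/
noncomputable def map {M : ℕ} (f : A →+* A') (hf : IsScale k M f) : Fr k A →+* Fr k A' :=
  lift ((((ι : A' →ₐ[k[X]] Fr k A') : A' →+* Fr k A')).comp f) (isUnit_map hf)

@[simp] lemma map_ι {M : ℕ} (f : A →+* A') (hf : IsScale k M f) (a : A) :
    map f hf (ι a) = ι (f a) := by
  simp [map]

lemma map_algebraMap {M : ℕ} (f : A →+* A') (hf : IsScale k M f) (r : k[X]) :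
    map f hf (algebraMap k[X] (Fr k A) r) = algebraMap k[X] (Fr k A') (sig k M r) := by
  rw [← AlgHom.commutes (ι : A →ₐ[k[X]] Fr k A), map_ι, hf, AlgHom.commutes]

lemma sig_C (M : ℕ) (c : k) : sig k M (Polynomial.C c) = Polynomial.C c := Polynomial.expand_C M c

lemma algebraMap_k (c : k) : algebraMap k (Fr k A) c = algebraMap k[X] (Fr k A) (Polynomial.C c) := rfl

/-- `Fr.map` as a `k`-algebra hom -/
noncomputable def mapk {M : ℕ} (f : A →+* A') (hf : IsScale k M f) : Fr k A →ₐ[k] Fr k A' :=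
  { map f hf with
    commutes' := fun c => by
      show map f hf (algebraMap k (Fr k A) c) = _
      rw [algebraMap_k, map_algebraMap, sig_C]; rfl }

@[simp] lemma mapk_ι {M : ℕ} (f : A →+* A') (hf : IsScale k M f) (a : A) :
    mapk f hf (ι a) = ι (f a) := map_ι f hf a

end map

/-- `lev n = X^{-n} A ⊆ A[1/X]` -/
noncomputable def lev (k : Type) [Field k] (A : Type) [Ring A] [Algebra k[X] A] (n : ℤ) :
    Submodule k (Fr k A) where
  carrier := {d | ∃ a : A, d = tz (-n) * ι a}
  add_mem' := by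
    rintro _ _ ⟨a, rfl⟩ ⟨b, rfl⟩
    exact ⟨a + b, by rw [map_add, mul_add]⟩
  zero_mem' := ⟨0, by simp⟩
  smul_mem' := by
    rintro c _ ⟨a, rfl⟩
    refine ⟨algebraMap k[X] A (Polynomial.C c) * a, ?_⟩
    rw [Algebra.smul_def, algebraMap_k, map_mul, AlgHom.commutes, ← mul_assoc, ← mul_assoc, tz_comm]

lemma mem_lev {n : ℤ} {d : Fr k A} : d ∈ lev k A n ↔ ∃ a : A, d = tz (-n) * ι a := Iff.rfl

/-- `d` has level `≤ n` and residue `s` at level `n` -/
def Res {S : Type} [CommRing S] (π : A →+* S) (n : ℤ) (d : Fr k A) (s : S) : Prop :=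
  ∃ a : A, d = tz (-n) * ι a ∧ π a = s

end Fr

end C74
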