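import Pool.Agent.MP_35f30a_al.C74.TPL1
import Pool.Agent.MP_35f30a_al.C74.Fr

/-!
ROW TPL3.  Functoriality of the tensors; the unit `X^n` of `A[1/X]`.  Blueprint section 0.
Inductions with `TP.succ_induction`, `map_cons`, `con_succ_zero`, `con_succ_succ`.
`map_injective_field`: `a ⊗ t ↦ ψ a ⊗ map t` factors as `(ψ ⊗ 1)` and `(1 ⊗ map)`, both injective over
a field (`Module.Flat.rTensor_preserves_injective_linearMap`, `Module.Flat.lTensor_...`).
`con_tz`: `(tz n * w)` with `tz n` a central unit; prove `con (u * w) j i T = u^{j-i} • con w j i T` for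
every central `u` with `u • cons a T = cons a (u • T)`: this holds for `u = tz n` since
`tz n` is `±n`-th power of `algebraMap X` (for negative `n` multiply by `tz (-n)`).
-/

set_option autoImplicit false

open scoped TensorProduct Polynomial

namespace C74
namespace TP

section map
variable {R : Type} [CommRing R] {A : Type} [Ring A] [Algebra R A]
variable {R' : Type} [CommRing R'] {A' : Type} [Ring A'] [Algebra R' A']
variable (σ : R →+* R') (φ : A →+* A') (h : ∀ r, φ (algebraMap R A r) = algebraMap R' A' (σ r))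

theorem map_smulA (n : ℕ) (a : A) (T : TP R A n) : map σ φ h n (a • T) = φ a • map σ φ h n T := by
  induction n with
  | zero => rw [map_zero_apply, map_zero_apply, toA_smul, map_mul, smul_ofA]
  | succ n ih =>
    induction T using succ_induction with
    | h0 => rw [smul_zero, map_zero, smul_zero]
    | hc b t => rw [smul_cons, map_cons, map_cons, smul_cons, map_mul]
    | ha x y hx hy => rw [smul_add, map_add, map_add, smul_add, hx, hy]

theorem map_con (w : A) (n i : ℕ) (T : TP R A n) :
    map σ φ h i (con w n i T) = con (φ w) n i (map σ φ h n T) := by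
  induction n generalizing i with
  | zero =>
    cases i with
    | zero => rfl
    | succ i => rw [con_zero_succ, con_zero_succ, map_zero]
  | succ n ih =>
    induction T using succ_induction with
    | h0 => rw [map_zero, map_zero, map_zero, map_zero]
    | hc b t =>
      cases i with
      | zero => rw [con_succ_zero, map_cons, con_succ_zero, map_smulA, ih, map_mul]
      | succ i =>
        rw [con_succ_succ, map_cons, con_succ_succ, map_add, map_cons, map_smulA, ih, ih, map_mul]
    | ha x y hx hy => rw [map_add, map_add, map_add, map_add, hx, hy]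

theorem map_ev (w : A) (n : ℕ) (T : TP R A n) :
    φ (ev w T) = ev (φ w) (map σ φ h n T) := by
  unfold ev
  rw [← map_con, map_zero_apply, toA_ofA]

theorem map_tay (d : ℕ) (w : A) (g : ∀ j, TP R A j) (i : ℕ) :
    map σ φ h i (tay d w g i) = tay d (φ w) (fun j => map σ φ h j (g j)) i := by
  unfold tay
  rw [map_sum]
  exact Finset.sum_congr rfl fun j _ => map_con σ φ h w j i (g j)

theorem map_del (b : A) (n : ℕ) (T : TP R A (n + 1)) :
    map σ φ h (n + 1) (del b n T) = del (φ b) n (map σ φ h (n + 1) T) := by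
  induction T using succ_induction with
  | h0 => rw [map_zero, map_zero, map_zero]
  | hc a t => rw [del_cons, map_sub, map_cons, map_cons, map_cons, del_cons, map_smulA, map_mul]
  | ha x y hx hy => rw [map_add, map_add, map_add, map_add, hx, hy]

variable {R'' : Type} [CommRing R''] {A'' : Type} [Ring A''] [Algebra R'' A'']
variable (σ' : R' →+* R'') (φ' : A' →+* A'')
  (h' : ∀ r, φ' (algebraMap R' A' r) = algebraMap R'' A'' (σ' r))

theorem map_map (h'' : ∀ r, (φ'.comp φ) (algebraMap R A r) = algebraMap R'' A'' ((σ'.comp σ) r))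
    (n : ℕ) (T : TP R A n) :
    map σ' φ' h' n (map σ φ h n T) = map (σ'.comp σ) (φ'.comp φ) h'' n T := by
  induction n with
  | zero => rfl
  | succ n ih =>
    induction T using succ_induction with
    | h0 => rw [map_zero, map_zero, map_zero]
    | hc a t => rw [map_cons, map_cons, map_cons, ih]; rfl
    | ha x y hx hy => rw [map_add, map_add, map_add, hx, hy]

/-- two composites with the same underlying maps agree -/
theorem map_congr (τ : R →+* R') (ψ : A →+* A')
    (hτ : ∀ r, ψ (algebraMap R A r) = algebraMap R' A' (τ r)) (h1 : ∀ r, σ r = τ r)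
    (h2 : ∀ a, φ a = ψ a) (n : ℕ) (T : TP R A n) : map σ φ h n T = map τ ψ hτ n T := by
  induction n with
  | zero => rw [map_zero_apply, map_zero_apply, h2]
  | succ n ih =>
    induction T using succ_induction with
    | h0 => rw [map_zero, map_zero]
    | hc a t => rw [map_cons, map_cons, ih, h2]
    | ha x y hx hy => rw [map_add, map_add, hx, hy]

/-- functoriality is injective over a field for injective ring homs -/
theorem map_injective_field {k : Type} [Field k] {E E' : Type} [Ring E] [Algebra k E] [Ring E']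
    [Algebra k E'] (ψ : E →+* E') (hψ : ∀ r, ψ (algebraMap k E r) = algebraMap k E' ((RingHom.id k) r))
    (hi : Function.Injective ψ) (n : ℕ) : Function.Injective (map (RingHom.id k) ψ hψ n) := by
  induction n with
  | zero =>
    intro x y hxy
    rw [map_zero_apply, map_zero_apply] at hxy
    exact toA.injective (hi (ofA.injective hxy))
  | succ n ih =>
    let ψl : E →ₗ[k] E' :=
      { toFun := ψ
        map_add' := fun x y => map_add ψ x y
        map_smul' := fun r x => by
          rw [Algebra.smul_def, map_mul, hψ, ← Algebra.smul_def] }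
    have hinj := TensorProduct.map_injective_of_flat_flat (R := k) ψl
      (map (RingHom.id k) ψ hψ n : (TPo k E n).M →ₗ[k] (TPo k E' n).M) hi ih
    have heq : ∀ x : TP k E (n + 1), map (RingHom.id k) ψ hψ (n + 1) x =
        TensorProduct.map (R := k) ψl
          (map (RingHom.id k) ψ hψ n : (TPo k E n).M →ₗ[k] (TPo k E' n).M) x := by
      intro x
      induction x using succ_induction with
      | h0 => rw [map_zero]; exact (map_zero _).symm
      | hc a t => rw [map_cons]; rfl
      | ha x y hx hy => rw [map_add, hx, hy]; exact (map_add _ _ _).symm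
    intro x y hxy
    rw [heq, heq] at hxy
    exact hinj hxy

end map

end TP

theorem TPL3_cons_nat {k : Type} [Field k] {A : Type} [Ring A] [Algebra k[X] A] (m : ℕ)
    (a : Fr k A) {j : ℕ} (T : TP k[X] (Fr k A) j) :
    TP.cons a ((Fr.tz (m : ℤ) : Fr k A) • T) = (Fr.tz (m : ℤ) : Fr k A) • TP.cons a T := by
  rw [Fr.tz_nat, algebraMap_smul, algebraMap_smul, TP.cons_smulR]

/-- in `k[X]`-tensors over `A[1/X]` the unit `X^n` is a scalar -/
theorem cons_tz {k : Type} [Field k] {A : Type} [Ring A] [Algebra k[X] A] (n : ℤ) (a : Fr k A)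
    {j : ℕ} (T : TP k[X] (Fr k A) j) :
    TP.cons a ((Fr.tz n : Fr k A) • T) = (Fr.tz n : Fr k A) • TP.cons a T := by
  obtain ⟨m, rfl | rfl⟩ := Int.eq_nat_or_neg n
  · exact TPL3_cons_nat m a T
  · have h1 := TPL3_cons_nat m a ((Fr.tz (-(m : ℤ)) : Fr k A) • T)
    rw [smul_smul, Fr.tz_mul_neg, one_smul] at h1
    rw [h1, smul_smul, Fr.tz_neg_mul, one_smul]

theorem TPL3_tz_mul {k : Type} [Field k] {A : Type} [Ring A] [Algebra k[X] A] (n : ℤ)
    (a w : Fr k A) (m : ℕ) :
    a * ((Fr.tz n : Fr k A) * w) * (Fr.tz (n * (m : ℤ)) : Fr k A) =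
      (Fr.tz (n * ((m + 1 : ℕ) : ℤ)) : Fr k A) * (a * w) := by
  have h1 : n * ((m + 1 : ℕ) : ℤ) = n * (m : ℤ) + n := by push_cast; ring
  rw [h1, Fr.tz_add, ← Fr.tz_comm (n * (m : ℤ)), mul_assoc]
  congr 1
  rw [← mul_assoc, ← Fr.tz_comm n a, mul_assoc]

/-- `k[X]`-tensors over `A[1/X]`: contraction by `X^n w` -/
theorem con_tz {k : Type} [Field k] {A : Type} [Ring A] [Algebra k[X] A] (n : ℤ) (w : Fr k A)
    (j i : ℕ) (hi : i ≤ j) (T : TP k[X] (Fr k A) j) :
    TP.con ((Fr.tz n : Fr k A) * w) j i T =
      (Fr.tz (n * ((j - i : ℕ) : ℤ)) : Fr k A) • TP.con w j i T := by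
  induction j generalizing i with
  | zero =>
    obtain rfl : i = 0 := by omega
    rw [TP.con_zero_zero, TP.con_zero_zero, Nat.sub_self, Nat.cast_zero, mul_zero, Fr.tz_zero,
      one_smul]
  | succ j ih =>
    induction T using TP.succ_induction with
    | h0 => rw [map_zero, map_zero, smul_zero]
    | hc a t =>
      cases i with
      | zero =>
        rw [TP.con_succ_zero, TP.con_succ_zero, ih 0 (Nat.zero_le j), smul_smul, smul_smul,
          Nat.sub_zero, Nat.sub_zero, TPL3_tz_mul]
      | succ i =>
        rw [TP.con_succ_succ, TP.con_succ_succ, ih i (by omega), cons_tz, Nat.add_sub_add_right,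
          smul_add]
        congr 1
        rcases Nat.lt_or_ge j (i + 1) with h1 | h1
        · rw [TP.con_lt _ j (i + 1) h1, TP.con_lt _ j (i + 1) h1]
          simp only [smul_zero]
        · rw [ih (i + 1) h1, smul_smul, smul_smul, TPL3_tz_mul]
          congr 4
          omega
    | ha x y hx hy => rw [map_add, map_add, hx, hy, smul_add]

/-- transport of `X^n` along a scale `M` map -/
theorem map_tz {k : Type} [Field k] {A : Type} [Ring A] [Algebra k[X] A] {A' : Type} [Ring A']
    [Algebra k[X] A'] {M : ℕ} (f : A →+* A') (hf : IsScale k M f) (n : ℤ) :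
    Fr.map f hf (Fr.tz n : Fr k A) = (Fr.tz ((M : ℤ) * n) : Fr k A') := by
  have hnat : ∀ m : ℕ, Fr.map f hf (Fr.tz (m : ℤ) : Fr k A) =
      (Fr.tz ((M : ℤ) * (m : ℤ)) : Fr k A') := by
    intro m
    have h1 : sig k M (tX k) = (tX k) ^ M := Polynomial.expand_X M
    rw [Fr.tz_nat, Fr.map_algebraMap, map_pow, h1, ← pow_mul, ← Fr.tz_nat, Nat.cast_mul]
  obtain ⟨m, rfl | rfl⟩ := Int.eq_nat_or_neg n
  · exact hnat m
  · have h1 : Fr.map f hf (Fr.tz (m : ℤ) : Fr k A) * Fr.map f hf (Fr.tz (-(m : ℤ)) : Fr k A) = 1 := by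
      rw [← map_mul, Fr.tz_mul_neg, map_one]
    rw [hnat m] at h1
    have h2 : (Fr.tz (-((M : ℤ) * (m : ℤ))) : Fr k A') * (Fr.tz ((M : ℤ) * (m : ℤ)) *
        Fr.map f hf (Fr.tz (-(m : ℤ)) : Fr k A)) = Fr.tz (-((M : ℤ) * (m : ℤ))) := by
      rw [h1, mul_one]
    rw [← mul_assoc, Fr.tz_neg_mul, one_mul] at h2
    rw [h2, mul_neg]

end C74
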