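import Pool.Agent.MP_35f30a_al.C74.Ord
import Pool.Agent.MP_35f30a_al.C74.TPL3

/-!
ROW KF1.  Levels of elements and of `k`-tensors, elementary part.  Blueprint section 1 (k-tensors).

`d ∈ lev n` iff `d = tz (-n) * ι a`; `tz` is central, `tz (m+n) = tz m * tz n`, and `tz p ∈ ι A` for `p ≥ 0`.
Everything for `kF` by induction on `j` and `Submodule.span_induction`.
-/

set_option autoImplicit false

open scoped TensorProduct Polynomial

namespace C74

variable {k : Type} [Field k] {A : Type} [Ring A] [Algebra k[X] A]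

theorem KF1_ι_tz (n : ℕ) : (Fr.tz n : Fr k A) = Fr.ι (algebraMap k[X] A ((tX k) ^ n)) := by
  rw [Fr.tz_nat, AlgHom.commutes]

theorem lev_mono {m n : ℤ} (h : m ≤ n) : Fr.lev k A m ≤ Fr.lev k A n := by
  rintro _ ⟨a, rfl⟩
  obtain ⟨p, hp⟩ : ∃ p : ℕ, n = m + p := ⟨(n - m).toNat, by omega⟩
  refine ⟨algebraMap k[X] A ((tX k) ^ p) * a, ?_⟩
  rw [map_mul, ← KF1_ι_tz, ← mul_assoc, ← Fr.tz_add]
  congr 2
  omega

theorem lev_mul {m n : ℤ} {a b : Fr k A} (ha : a ∈ Fr.lev k A m) (hb : b ∈ Fr.lev k A n) :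
    a * b ∈ Fr.lev k A (m + n) := by
  obtain ⟨a', rfl⟩ := ha
  obtain ⟨b', rfl⟩ := hb
  refine ⟨a' * b', ?_⟩
  rw [map_mul, neg_add, Fr.tz_add, mul_assoc, mul_assoc, ← mul_assoc (Fr.ι a'),
    ← Fr.tz_comm (-n) (Fr.ι a'), mul_assoc]

theorem lev_exhaust (a : Fr k A) : ∃ n : ℤ, a ∈ Fr.lev k A n := by
  obtain ⟨b, n, h⟩ := Fr.exists_rep a
  exact ⟨n, b, h⟩

theorem kF_mono {j : ℕ} {m n : ℤ} (h : m ≤ n) : kF k A j m ≤ kF k A j n := by
  induction j generalizing m n with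
  | zero => exact lev_mono h
  | succ j ih =>
    refine Submodule.span_mono ?_
    rintro _ ⟨p, a, u, ha, hu, rfl⟩
    exact ⟨p, a, u, ha, ih (by omega) hu, rfl⟩

theorem kF_cons {j : ℕ} {m n : ℤ} {a : Fr k A} (ha : a ∈ Fr.lev k A m) {T : TP k (Fr k A) j}
    (hT : T ∈ kF k A j n) : TP.cons a T ∈ kF k A (j + 1) (m + n) :=
  Submodule.subset_span ⟨m, a, T, ha, by rwa [add_sub_cancel_left], rfl⟩

theorem kF_exhaust {j : ℕ} (T : TP k (Fr k A) j) : ∃ n : ℤ, T ∈ kF k A j n := by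
  induction j with
  | zero => exact lev_exhaust T
  | succ j ih =>
    induction T using TP.succ_induction with
    | h0 => exact ⟨0, Submodule.zero_mem _⟩
    | hc a t =>
      obtain ⟨m, hm⟩ := lev_exhaust a
      obtain ⟨n, hn⟩ := ih t
      exact ⟨m + n, kF_cons hm hn⟩
    | ha x y hx hy =>
      obtain ⟨m, hm⟩ := hx
      obtain ⟨n, hn⟩ := hy
      exact ⟨max m n, Submodule.add_mem _ (kF_mono (le_max_left _ _) hm)
        (kF_mono (le_max_right _ _) hn)⟩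

/-- induction principle for `kF (j+1) n` -/
theorem KF1_kF_induction {j : ℕ} {n : ℤ} {P : TP k (Fr k A) (j + 1) → Prop} (h0 : P 0)
    (hc : ∀ (m : ℤ) (a : Fr k A) (u : TP k (Fr k A) j), a ∈ Fr.lev k A m → u ∈ kF k A j (n - m) →
      P (TP.cons a u))
    (hadd : ∀ x y, P x → P y → P (x + y)) {T : TP k (Fr k A) (j + 1)}
    (hT : T ∈ kF k A (j + 1) n) : P T := by
  have hsm : ∀ (c : k) (x : TP k (Fr k A) (j + 1)),
      x ∈ {z | ∃ (m : ℤ) (a : Fr k A) (u : TP k (Fr k A) j),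
      a ∈ Fr.lev k A m ∧ u ∈ kF k A j (n - m) ∧ z = TP.cons a u} →
      c • x ∈ {z | ∃ (m : ℤ) (a : Fr k A) (u : TP k (Fr k A) j),
      a ∈ Fr.lev k A m ∧ u ∈ kF k A j (n - m) ∧ z = TP.cons a u} := by
    rintro c _ ⟨m, a, u, ha, hu, rfl⟩
    exact ⟨m, c • a, u, Submodule.smul_mem _ _ ha, hu, (TP.smulR_cons _ _ _).symm⟩
  have hT' : T ∈ Submodule.span k {z | ∃ (m : ℤ) (a : Fr k A) (u : TP k (Fr k A) j),
      a ∈ Fr.lev k A m ∧ u ∈ kF k A j (n - m) ∧ z = TP.cons a u} := hT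
  rw [Submodule.mem_span_set'] at hT'
  obtain ⟨N, f, g, rfl⟩ := hT'
  refine Finset.sum_induction _ P (fun x y => hadd x y) h0 ?_
  intro i _
  obtain ⟨m, a, u, ha, hu, h⟩ := hsm (f i) (g i) (g i).2
  rw [h]
  exact hc m a u ha hu

theorem kF_smul {j : ℕ} {m n : ℤ} {a : Fr k A} (ha : a ∈ Fr.lev k A m) {T : TP k (Fr k A) j}
    (hT : T ∈ kF k A j n) : a • T ∈ kF k A j (m + n) := by
  cases j with
  | zero => exact lev_mul ha hT
  | succ j =>
    refine KF1_kF_induction (P := fun T => a • T ∈ kF k A (j + 1) (m + n)) ?_ ?_ ?_ hT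
    · rw [smul_zero]; exact Submodule.zero_mem _
    · intro p b u hb hu
      rw [TP.smul_cons]
      have := kF_cons (lev_mul ha hb) hu
      rwa [show m + p + (n - p) = m + n by ring] at this
    · intro x y hx hy
      rw [smul_add]; exact Submodule.add_mem _ hx hy

theorem KF1_ιT_zero (a : A) : ιT k A 0 (TP.ofA a) = TP.ofA (Fr.ι a) := rfl

/-- `k`-tensor size bounds the `u`-size -/
theorem uLev_of_kF {j : ℕ} {n : ℤ} {T : TP k (Fr k A) j} (hT : T ∈ kF k A j n) :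
    uLev k A n (kX k A j T) := by
  induction j generalizing n with
  | zero =>
    obtain ⟨a, ha⟩ := hT
    refine ⟨TP.ofA a, ?_⟩
    show kX k A 0 T = (Fr.tz (-n) : Fr k A) • TP.ofA (Fr.ι a)
    rw [TP.smul_ofA, ← ha]
    rfl
  | succ j ih =>
    refine KF1_kF_induction (P := fun T => uLev k A n (kX k A (j + 1) T)) ?_ ?_ ?_ hT
    · exact ⟨0, by rw [map_zero, map_zero, smul_zero]⟩
    · rintro m a u ⟨a', ha'⟩ hu
      obtain ⟨u', hu'⟩ := ih hu
      refine ⟨TP.cons a' u', ?_⟩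
      have h1 : kX k A (j + 1) (TP.cons a u) = TP.cons a (kX k A j u) := TP.map_cons _ _ _ _ _ _
      have h2 : ιT k A (j + 1) (TP.cons a' u') = TP.cons (Fr.ι a') (ιT k A j u') :=
        TP.map_cons _ _ _ _ _ _
      rw [h1, h2, hu', cons_tz, ha', TP.smul_cons, TP.smul_cons, ← mul_assoc, ← Fr.tz_add]
      congr 3
      ring
    · rintro x y ⟨x', hx'⟩ ⟨y', hy'⟩
      exact ⟨x' + y', by rw [map_add, map_add, hx', hy', smul_add]⟩

end C74
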