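import Pool.Agent.MP_35f30a_al.C74.RES2
import Pool.Agent.MP_35f30a_al.C74.TPL3

/-!
ROW RES3.  Calculus of `u`-levels and `u`-residues.  Blueprint section 0.

`uRes_unique`: cancel the unit `tz (-n)`, use `ιT_injective`.  `not_uLev_of_uRes`: a tensor of level `n-1` has
residue `0` at level `n` (`tz (1-n) • ιT T' = tz (-n) • ιT (X • T')`).  `uLev_of_uRes_zero`: `resT_ker`.
The rest is bookkeeping (`ιT` is additive, `ιT (X^n • T) = tz n • ιT T`).
-/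

set_option autoImplicit false

open scoped TensorProduct Polynomial

namespace C74

variable {k : Type} [Field k]
variable {A : Type} [Ring A] [Algebra k[X] A] {S : Type} [CommRing S] [Algebra k S] {π : A →+* S}

theorem RES3_tz_pow {j : ℕ} (m : ℕ) (T : TP k[X] A j) :
    (Fr.tz (m : ℤ) : Fr k A) • ιT k A j T = ιT k A j ((tX k) ^ m • T) := by
  rw [Fr.tz_nat, algebraMap_smul, LinearMap.map_smulₛₗ]
  rfl

theorem RES3_cancel {j : ℕ} {n : ℤ} {x y : TP k[X] (Fr k A) j}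
    (h : (Fr.tz (-n) : Fr k A) • x = (Fr.tz (-n) : Fr k A) • y) : x = y := by
  have h1 := congrArg (fun z => (Fr.tz n : Fr k A) • z) h
  simp only [smul_smul, Fr.tz_mul_neg, one_smul] at h1
  exact h1

theorem RES3_lt {j : ℕ} (n : ℤ) (T : TP k[X] A j) :
    (Fr.tz (-(n - 1)) : Fr k A) • ιT k A j T = (Fr.tz (-n) : Fr k A) • ιT k A j (tX k • T) := by
  have h1 := RES3_tz_pow (k := k) (A := A) 1 T
  rw [pow_one] at h1
  rw [← h1, smul_smul, ← Fr.tz_add]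
  congr 2
  push_cast
  ring

/-- the residue of a tensor at a given level is unique -/
theorem uRes_unique (hπ : IsQC k π) (hc : IsComp k A) {j : ℕ} {n : ℤ} {T : TP k[X] (Fr k A) j}
    {s s' : TP k S j} (h : uRes hπ n T s) (h' : uRes hπ n T s') : s = s' := by
  obtain ⟨T1, h1, rfl⟩ := h
  obtain ⟨T2, h2, rfl⟩ := h'
  rw [h1] at h2
  rw [ιT_injective hπ hc j (RES3_cancel h2)]

/-- a tensor with nonzero residue at level `n` is not of level `n - 1` -/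
theorem not_uLev_of_uRes (hπ : IsQC k π) (hc : IsComp k A) {j : ℕ} {n : ℤ}
    {T : TP k[X] (Fr k A) j} {s : TP k S j} (h : uRes hπ n T s) (hs : s ≠ 0) :
    ¬ uLev k A (n - 1) T := by
  rintro ⟨T', hT'⟩
  rw [RES3_lt] at hT'
  have h2 : uRes hπ n T 0 := ⟨_, hT', resT_X hπ j T'⟩
  exact hs (uRes_unique hπ hc h h2)

/-- a tensor of level `n` has a residue at level `n`, which is `0` iff the level is `≤ n - 1` -/
theorem exists_uRes (hπ : IsQC k π) {j : ℕ} {n : ℤ} {T : TP k[X] (Fr k A) j}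
    (h : uLev k A n T) : ∃ s, uRes hπ n T s := by
  obtain ⟨T', hT'⟩ := h
  exact ⟨_, T', hT', rfl⟩

theorem uLev_of_uRes_zero (hπ : IsQC k π) {j : ℕ} {n : ℤ} {T : TP k[X] (Fr k A) j}
    (h : uRes hπ n T 0) : uLev k A (n - 1) T := by
  obtain ⟨T', hT', h0⟩ := h
  obtain ⟨T'', rfl⟩ := resT_ker hπ j T' h0
  exact ⟨T'', by rw [RES3_lt, hT']⟩

theorem uLev_mono {j : ℕ} {m n : ℤ} (h : m ≤ n) {T : TP k[X] (Fr k A) j} (hT : uLev k A m T) :
    uLev k A n T := by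
  obtain ⟨T', hT'⟩ := hT
  obtain ⟨l, hl⟩ := Int.eq_ofNat_of_zero_le (sub_nonneg.2 h)
  refine ⟨(tX k) ^ l • T', ?_⟩
  rw [← RES3_tz_pow, smul_smul, ← Fr.tz_add, hT']
  congr 2
  omega

theorem uLev_add {j : ℕ} {n : ℤ} {T T' : TP k[X] (Fr k A) j} (hT : uLev k A n T)
    (hT' : uLev k A n T') : uLev k A n (T + T') := by
  obtain ⟨a, ha⟩ := hT
  obtain ⟨b, hb⟩ := hT'
  exact ⟨a + b, by rw [map_add, smul_add, ha, hb]⟩

theorem uLev_sum {j : ℕ} {n : ℤ} {ι : Type} (s : Finset ι) (T : ι → TP k[X] (Fr k A) j)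
    (h : ∀ i ∈ s, uLev k A n (T i)) : uLev k A n (∑ i ∈ s, T i) :=
  Finset.sum_induction T (fun x => uLev k A n x) (fun _ _ ha hb => uLev_add ha hb)
    ⟨0, by rw [map_zero, smul_zero]⟩ h

theorem uLev_tz {j : ℕ} {n : ℤ} (a : ℤ) {T : TP k[X] (Fr k A) j} (hT : uLev k A n T) :
    uLev k A (n - a) ((Fr.tz a : Fr k A) • T) := by
  obtain ⟨T', hT'⟩ := hT
  refine ⟨T', ?_⟩
  rw [hT', smul_smul, ← Fr.tz_add]
  congr 2
  ring

theorem uRes_tz (hπ : IsQC k π) {j : ℕ} {n : ℤ} (a : ℤ) {T : TP k[X] (Fr k A) j} {s : TP k S j}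
    (hT : uRes hπ n T s) : uRes hπ (n - a) ((Fr.tz a : Fr k A) • T) s := by
  obtain ⟨T', hT', hs⟩ := hT
  refine ⟨T', ?_, hs⟩
  rw [hT', smul_smul, ← Fr.tz_add]
  congr 2
  ring

theorem uRes_add (hπ : IsQC k π) {j : ℕ} {n : ℤ} {T T' : TP k[X] (Fr k A) j} {s s' : TP k S j}
    (hT : uRes hπ n T s) (hT' : uRes hπ n T' s') : uRes hπ n (T + T') (s + s') := by
  obtain ⟨a, ha, rfl⟩ := hT
  obtain ⟨b, hb, rfl⟩ := hT'
  exact ⟨a + b, by rw [map_add, smul_add, ha, hb], by rw [map_add]⟩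

theorem uRes_of_uLev_lt (hπ : IsQC k π) {j : ℕ} {n : ℤ} {T : TP k[X] (Fr k A) j}
    (hT : uLev k A (n - 1) T) : uRes hπ n T 0 := by
  obtain ⟨T', hT'⟩ := hT
  rw [RES3_lt] at hT'
  exact ⟨_, hT', resT_X hπ j T'⟩

end C74
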