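import Pool.Agent.MP_35f30a_al.C74.State
import Pool.Agent.MP_35f30a_al.C74.KF1
import Pool.Agent.MP_35f30a_al.C74.GLU
import Pool.Agent.MP_35f30a_al.C74.RES3
import Pool.Agent.MP_35f30a_al.C74.UNI

/-!
ROW KF4.  Residues of elements, decorated residues of `k`-tensors.  Blueprint section 1.

* `lev_sep`: `d = tz (-n) * ι a` and `d ∈ lev (-m)` for all `m` means `ι a ∈ X^m ι A`, `a ∈ ⋂ X^m A = 0` (`Fr.ι_injective`).
* residues: `d ∈ lev (n-1)` iff the residue at level `n` is `0`; residues exist at level `n` for `d ∈ lev n`; unique.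
* `dec_lev`: for `d ∈ lev n` with residue `s` at level `n`, `dec d` has residue `mon n s`, zero iff `s = 0`; and
  use `lev_sep` to reduce to the exact level of `d` (`d ≠ 0`).
* `DRes`: `DRes_cons`: from `DecData.dec_res`, `kX`, `algT` are multiplicative on `cons` (`TP.map_cons`),
  `cons (tz (-m) * ι a') (tz (-n) • ιT T') = tz (-(m+n)) • ιT (cons a' T')` (`cons_tz`), `resT (cons ..) = cons (π1 a') (resT T')`.
  `exists_DRes`: induction on `j` and `Submodule.span_induction` over `kF`.  `DRes_unique`: `uRes_unique`.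
  `DRes_of_lt`: `DRes` at level `n-1` gives residue `0` at level `n`.
-/

set_option autoImplicit false

open scoped TensorProduct Polynomial

namespace C74

variable {k : Type} [Field k]

section aux
variable {A : Type} [Ring A] [Algebra k[X] A] {S : Type} [CommRing S] [Algebra k S] {π : A →+* S}

lemma KF4_tz_ι (n : ℕ) (a : A) : (Fr.tz (n : ℤ) : Fr k A) * Fr.ι a = Fr.ι ((tX k) ^ n • a) := by
  rw [Fr.tz_nat, ← Algebra.smul_def, map_smul]

lemma KF4_tz_cancel (n : ℤ) {x y : Fr k A} (h : Fr.tz n * x = Fr.tz n * y) : x = y := by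
  have := congrArg (fun z => Fr.tz (-n) * z) h
  simpa only [← mul_assoc, Fr.tz_neg_mul, one_mul] using this

lemma KF4_res_unique (hπ : IsQC k π) {n : ℤ} {d : Fr k A} {s s' : S} (h : Fr.Res π n d s)
    (h' : Fr.Res π n d s') : s = s' := by
  obtain ⟨a, ha, rfl⟩ := h
  obtain ⟨a', ha', rfl⟩ := h'
  have h1 : (Fr.ι a : Fr k A) = Fr.ι a' := KF4_tz_cancel (-n) (by rw [← ha, ← ha'])
  rw [Fr.ι_injective hπ.reg h1]

lemma KF4_mem_lev_iff (hπ : IsQC k π) {n : ℤ} {d : Fr k A} {s : S} (h : Fr.Res π n d s) :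
    d ∈ Fr.lev k A (n - 1) ↔ s = 0 := by
  have key : ∀ b : A, (Fr.tz (-(n - 1)) : Fr k A) * Fr.ι b = Fr.tz (-n) * Fr.ι (tX k • b) := by
    intro b
    have h1 := KF4_tz_ι (k := k) 1 b
    rw [pow_one, Nat.cast_one] at h1
    rw [← h1, ← mul_assoc, ← Fr.tz_add]
    congr 2
    ring
  constructor
  · rintro ⟨b, hb⟩
    exact KF4_res_unique hπ h ⟨tX k • b, by rw [hb, key], hπ.kerX b⟩
  · rintro rfl
    obtain ⟨a, ha, ha'⟩ := h
    obtain ⟨b, rfl⟩ := hπ.ker a ha'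
    exact ⟨b, by rw [ha, key]⟩

end aux

theorem lev_sep (X : Obj k) (d : X.D) (h : ∀ n : ℤ, d ∈ Fr.lev k X.A n) : d = 0 := by
  obtain ⟨a, ha⟩ := h 0
  rw [neg_zero, Fr.tz_zero, one_mul] at ha
  have h0 : a = 0 := by
    apply X.comp.sep
    intro n
    obtain ⟨b, hb⟩ := h (-(n : ℤ))
    rw [neg_neg, KF4_tz_ι, ha] at hb
    exact ⟨b, Fr.ι_injective X.qc.reg hb⟩
  rw [ha, h0, map_zero]

variable {X : Obj k}

theorem exists_res {n : ℤ} {d : X.D} (h : d ∈ Fr.lev k X.A n) : ∃ s, Fr.Res X.π n d s := by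
  obtain ⟨a, ha⟩ := h
  exact ⟨_, a, ha, rfl⟩

theorem mem_lev_iff_res {n : ℤ} {d : X.D} {s : X.K} (h : Fr.Res X.π n d s) :
    d ∈ Fr.lev k X.A (n - 1) ↔ s = 0 := KF4_mem_lev_iff X.qc h

theorem res_add {n : ℤ} {d d' : X.D} {s s' : X.K} (h : Fr.Res X.π n d s)
    (h' : Fr.Res X.π n d' s') : Fr.Res X.π n (d + d') (s + s') := by
  obtain ⟨a, rfl, rfl⟩ := h
  obtain ⟨a', rfl, rfl⟩ := h'
  exact ⟨a + a', by rw [map_add, mul_add], map_add _ _ _⟩

theorem res_smul {n : ℤ} {d : X.D} {s : X.K} (c : k) (h : Fr.Res X.π n d s) :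
    Fr.Res X.π n (c • d) (c • s) := by
  obtain ⟨a, rfl, rfl⟩ := h
  refine ⟨algebraMap k[X] X.A (Polynomial.C c) * a, ?_, ?_⟩
  · rw [Algebra.smul_def, Fr.algebraMap_k, map_mul, AlgHom.commutes, ← mul_assoc, ← mul_assoc,
      Fr.tz_comm]
  · rw [map_mul, X.qc.scal, Algebra.smul_def]

lemma KF4_mon_eq_zero {n : ℤ} {s : X.K} (h : X.mon n s = 0) : s = 0 := by
  have h1 : LaurentPolynomial.C s * LaurentPolynomial.T n = (0 : LaurentPolynomial X.K) := by
    apply IsFractionRing.injective (LaurentPolynomial X.K) X.Γ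
    rw [map_zero]; exact h
  have h2 : LaurentPolynomial.C s = (0 : LaurentPolynomial X.K) := by
    have := (LaurentPolynomial.isUnit_T (R := X.K) n)
    exact (this.mul_left_eq_zero).1 h1
  have h3 := congrArg (fun y : LaurentPolynomial X.K => y.coeff 0) h2
  simpa using h3

/-- `dec` is isometric -/
theorem dec_lev (d : X.D) (n : ℤ) : X.dd.dec d ∈ Fr.lev k X.dd.A1 n ↔ d ∈ Fr.lev k X.A n := by
  constructor
  · intro hd
    by_contra hn
    obtain ⟨n0, hn0⟩ := lev_exhaust (k := k) (A := X.A) d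
    obtain ⟨m, hm, hmin⟩ := Int.exists_least_of_bdd (P := fun m => d ∈ Fr.lev k X.A m)
      ⟨n, fun m hm => by
        by_contra hlt
        exact hn (lev_mono (by omega) hm)⟩ ⟨n0, hn0⟩
    have h1 : n < m := by
      by_contra hlt
      exact hn (lev_mono (by omega) hm)
    have h2 : d ∉ Fr.lev k X.A (m - 1) := fun h => by
      have := hmin _ h
      omega
    obtain ⟨s, hs⟩ := exists_res hm
    have h3 : s ≠ 0 := fun h => h2 ((mem_lev_iff_res hs).2 h)
    have h4 := X.dd.dec_res m d s hs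
    have h5 : X.dd.dec d ∈ Fr.lev k X.dd.A1 (m - 1) := lev_mono (by omega) hd
    exact h3 (KF4_mon_eq_zero ((KF4_mem_lev_iff X.dd.qc1 h4).1 h5))
  · intro hd
    obtain ⟨s, hs⟩ := exists_res hd
    obtain ⟨a, ha, -⟩ := X.dd.dec_res n d s hs
    exact ⟨a, ha⟩

theorem DRes_unique {j : ℕ} {n : ℤ} {T : TP k X.D j} {s s' : TP k X.Γ j}
    (h : DRes X n T s) (h' : DRes X n T s') : s = s' :=
  uRes_unique X.dd.qc1 X.dd.comp1 h h'

theorem DRes_add {j : ℕ} {n : ℤ} {T T' : TP k X.D j} {s s' : TP k X.Γ j}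
    (h : DRes X n T s) (h' : DRes X n T' s') : DRes X n (T + T') (s + s') := by
  unfold DRes at *
  rw [map_add, map_add]
  exact uRes_add X.dd.qc1 h h'

theorem DRes_smul {j : ℕ} {n : ℤ} {T : TP k X.D j} {s : TP k X.Γ j} (c : k)
    (h : DRes X n T s) : DRes X n (c • T) (c • s) := by
  obtain ⟨T', h1, rfl⟩ := h
  refine ⟨(Polynomial.C c : k[X]) • T', ?_, ?_⟩
  · rw [LinearMap.map_smulₛₗ, LinearMap.map_smulₛₗ, h1, LinearMap.map_smulₛₗ]
    exact smul_comm _ _ _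
  · rw [LinearMap.map_smulₛₗ]
    congr 1
    simp [ev0]

lemma KF4_DRes_zero {j : ℕ} {n : ℤ} : DRes X n (0 : TP k X.D j) 0 :=
  ⟨0, by simp, by simp⟩

theorem DRes_sum {j : ℕ} {n : ℤ} {ι : Type} (I : Finset ι) {T : ι → TP k X.D j}
    {s : ι → TP k X.Γ j} (h : ∀ i ∈ I, DRes X n (T i) (s i)) :
    DRes X n (∑ i ∈ I, T i) (∑ i ∈ I, s i) := by
  classical
  induction I using Finset.induction_on with
  | empty => rw [Finset.sum_empty, Finset.sum_empty]; exact KF4_DRes_zero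
  | insert a I ha ih =>
    rw [Finset.sum_insert ha, Finset.sum_insert ha]
    exact DRes_add (h a (Finset.mem_insert_self _ _))
      (ih fun i hi => h i (Finset.mem_insert_of_mem hi))

lemma KF4_algT_cons {D D' : Type} [Ring D] [Algebra k D] [Ring D'] [Algebra k D']
    (φ : D →ₐ[k] D') (n : ℕ) (a : D) (T : TP k D n) :
    algT φ (n + 1) (TP.cons a T) = TP.cons (φ a) (algT φ n T) := TP.map_cons _ _ _ _ _ _

lemma KF4_kX_cons {A : Type} [Ring A] [Algebra k[X] A] (n : ℕ) (a : Fr k A)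
    (T : TP k (Fr k A) n) : kX k A (n + 1) (TP.cons a T) = TP.cons a (kX k A n T) :=
  TP.map_cons _ _ _ _ _ _

lemma KF4_ιT_cons {A : Type} [Ring A] [Algebra k[X] A] (n : ℕ) (a : A)
    (T : TP k[X] A n) : ιT k A (n + 1) (TP.cons a T) = TP.cons (Fr.ι a) (ιT k A n T) :=
  TP.map_cons _ _ _ _ _ _

/-- pure tensors -/
theorem DRes_cons {j : ℕ} {m n : ℤ} {a : X.D} {b : X.K} {T : TP k X.D j} {s : TP k X.Γ j}
    (ha : Fr.Res X.π m a b) (h : DRes X n T s) :
    DRes X (m + n) (TP.cons a T) (TP.cons (X.mon m b) s) := by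
  obtain ⟨T', h1, rfl⟩ := h
  obtain ⟨a', h2, h3⟩ := X.dd.dec_res m a b ha
  refine ⟨TP.cons a' T', ?_, ?_⟩
  · rw [KF4_algT_cons, KF4_kX_cons, KF4_ιT_cons, h1, h2, cons_tz, ← TP.smul_cons, smul_smul, neg_add, add_comm (-m), Fr.tz_add]
  · rw [resT_cons, h3]

lemma KF4_map_glue {R : Type} [CommRing R] {A : Type} [Ring A] [Algebra R A]
    {R' : Type} [CommRing R'] {A' : Type} [Ring A'] [Algebra R' A']
    (σ : R →+* R') (φ : A →+* A') (h : ∀ r, φ (algebraMap R A r) = algebraMap R' A' (σ r))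
    {j : ℕ} (U : TP R A 1) (y : TP R A j) :
    TP.map σ φ h (j + 2) (glue j U y) = glue j (TP.map σ φ h 1 U) (TP.map σ φ h j y) := by
  induction U using TP.succ_induction with
  | h0 => simp
  | hc a t =>
    obtain ⟨b, rfl⟩ : ∃ b, TP.ofA b = t := ⟨TP.toA t, rfl⟩
    have h1 : TP.map σ φ h 1 (TP.cons a (TP.ofA b)) = TP.cons (φ a) (TP.ofA (φ b)) := by
      rw [TP.map_cons]; rfl
    rw [glue_cons, h1, glue_cons, TP.map_cons, TP.map_cons]
  | ha U V hU hV =>
    rw [map_add, LinearMap.add_apply, map_add, hU, hV, map_add, map_add, LinearMap.add_apply]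

lemma KF4_algT_glue {D D' : Type} [Ring D] [Algebra k D] [Ring D'] [Algebra k D']
    (φ : D →ₐ[k] D') (j : ℕ) (U : TP k D 1) (y : TP k D j) :
    algT φ (j + 2) (glue j U y) = glue j (algT φ 1 U) (algT φ j y) := KF4_map_glue _ _ _ _ _

lemma KF4_kX_glue {A : Type} [Ring A] [Algebra k[X] A] (j : ℕ) (U : TP k (Fr k A) 1)
    (y : TP k (Fr k A) j) :
    kX k A (j + 2) (glue j U y) = glue j (kX k A 1 U) (kX k A j y) :=
  KF4_map_glue _ _ _ _ _

lemma KF4_ιT_glue {A : Type} [Ring A] [Algebra k[X] A] (j : ℕ) (U : TP k[X] A 1)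
    (y : TP k[X] A j) : ιT k A (j + 2) (glue j U y) = glue j (ιT k A 1 U) (ιT k A j y) :=
  KF4_map_glue _ _ _ _ _

lemma KF4_smul_glue {R : Type} [CommRing R] {A : Type} [Ring A] [Algebra R A]
    {j : ℕ} (a : A) (U : TP R A 1) (y : TP R A j) :
    glue j (a • U) y = a • glue j U y := by
  induction U using TP.succ_induction with
  | h0 => simp
  | hc c t =>
    obtain ⟨b, rfl⟩ : ∃ b, TP.ofA b = t := ⟨TP.toA t, rfl⟩
    rw [TP.smul_cons, glue_cons, glue_cons, TP.smul_cons]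
  | ha U V hU hV =>
    rw [smul_add, map_add, map_add, LinearMap.add_apply, LinearMap.add_apply, hU, hV, smul_add]

lemma KF4_glue_tz {A : Type} [Ring A] [Algebra k[X] A] {j : ℕ} (n : ℤ)
    (U : TP k[X] (Fr k A) 1) (y : TP k[X] (Fr k A) j) :
    glue j U ((Fr.tz n : Fr k A) • y) = (Fr.tz n : Fr k A) • glue j U y := by
  induction U using TP.succ_induction with
  | h0 => simp
  | hc c t =>
    obtain ⟨b, rfl⟩ : ∃ b, TP.ofA b = t := ⟨TP.toA t, rfl⟩
    rw [glue_cons, glue_cons, cons_tz, cons_tz]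
  | ha U V hU hV =>
    rw [map_add, LinearMap.add_apply, LinearMap.add_apply, hU, hV, smul_add]

theorem DRes_glue {j : ℕ} {m n : ℤ} {U : TP k X.D 1} {r : TP k X.Γ 1} {y : TP k X.D j}
    {s : TP k X.Γ j} (hU : DRes X m U r) (h : DRes X n y s) :
    DRes X (m + n) (glue j U y) (glue j r s) := by
  obtain ⟨U', h1, rfl⟩ := hU
  obtain ⟨y', h2, rfl⟩ := h
  refine ⟨glue j U' y', ?_, ?_⟩
  · rw [KF4_algT_glue, KF4_kX_glue, KF4_ιT_glue, h1, h2, KF4_smul_glue, KF4_glue_tz, smul_smul, neg_add, Fr.tz_add]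
  · exact KF4_map_glue _ _ _ _ _

/-- level `0`: the decorated residue of an element -/
theorem DRes_ofA {n : ℤ} {a : X.D} {b : X.K} (h : Fr.Res X.π n a b) :
    DRes X n (TP.ofA a : TP k X.D 0) (TP.ofA (X.mon n b)) := by
  obtain ⟨a', h2, h3⟩ := X.dd.dec_res n a b h
  refine ⟨TP.ofA a', ?_, ?_⟩
  · show (TP.ofA (X.dd.dec a) : TP k[X] (Fr k X.dd.A1) 0) = _
    rw [h2]; rfl
  · show TP.ofA (X.dd.π1 a') = _
    rw [h3]

/-- decorated residues exist -/
theorem exists_DRes {j : ℕ} {n : ℤ} {T : TP k X.D j} (hT : T ∈ kF k X.A j n) :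
    ∃ s, DRes X n T s := by
  induction j generalizing n with
  | zero =>
    obtain ⟨s, hs⟩ := exists_res (X := X) (n := n) (d := TP.toA T) hT
    exact ⟨_, DRes_ofA hs⟩
  | succ j ih =>
    have hT' : T ∈ Submodule.span k {z | ∃ (m : ℤ) (a : X.D) (u : TP k X.D j),
      a ∈ Fr.lev k X.A m ∧ u ∈ kF k X.A j (n - m) ∧ z = TP.cons a u} := hT
    induction hT' using Submodule.span_induction with
    | mem z hz =>
      obtain ⟨m, a, u, ha, hu, rfl⟩ := hz
      obtain ⟨b, hb⟩ := exists_res ha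
      obtain ⟨s, hs⟩ := ih hu
      have := DRes_cons hb hs
      rw [add_sub_cancel] at this
      exact ⟨_, this⟩
    | zero => exact ⟨0, KF4_DRes_zero⟩
    | add x y _ _ hx hy =>
      obtain ⟨s, hs⟩ := hx (by assumption)
      obtain ⟨s', hs'⟩ := hy (by assumption)
      exact ⟨_, DRes_add hs hs'⟩
    | smul c x _ hx =>
      obtain ⟨s, hs⟩ := hx (by assumption)
      exact ⟨_, DRes_smul c hs⟩

/-- lower level means zero residue -/
theorem DRes_of_lt {j : ℕ} {n : ℤ} {T : TP k X.D j} (hT : T ∈ kF k X.A j (n - 1)) :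
    DRes X n T 0 := by
  obtain ⟨s, T', h1, -⟩ := exists_DRes hT
  exact uRes_of_uLev_lt X.dd.qc1 ⟨T', h1⟩

end C74
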