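import Pool.Agent.MP_35f30a_al.C74.KF3
import Pool.Agent.MP_35f30a_al.C74.KF4

/-!
ROW KF5.  (KF).  Blueprint section 1.

`orth_mon_indep`: for an adapted family `e` with residues `b l` at level `sz l`, the elements `mon (sz l) (b l)` of `Γ` are
`k`-independent: a relation `Σ c_l b_l τ^{sz l} = 0` (in `LaurentPolynomial K`, `algebraMap` to the fraction field is
injective) splits by degree in `τ`; for each degree `n`, `Σ_{sz l = n} c_l e_l ∈ lev n` has residue `0`, so it lies in
`lev (n-1)`, so all `c_l = 0` (adaptedness: `sz l ≤ n-1` otherwise).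
`kF_of_DRes_zero`: induction on `j`: `j = 0`: `DRes_ofA`, `DRes_unique`, `mem_lev_iff_res`.  `j+1`: `T = Σ cons (e l) (t l)`
adapted (`exists_orth_rep`), `t l ∈ kF (n - sz l)` (`orth_kF_iff`), residues `s l` of `t l`; `0 = Σ cons (mon (sz l) (b l)) (s l)`, so all
`s l = 0` (`cons_eq_zero`), `t l ∈ kF (n - sz l - 1)`, `T ∈ kF (n-1)`.
`kF_sep`: `kF_sep0`, `lev_sep`.  `finite_values`: `finite_valuesF`.
-/

set_option autoImplicit false

open scoped TensorProduct Polynomial

namespace C74

variable {k : Type} [Field k] {X : Obj k}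

theorem KF5_smul_mon (n : ℤ) (c : k) (b : X.K) : c • X.mon n b = X.mon n (c • b) := by
  have h1 : (LaurentPolynomial.C (c • b) * LaurentPolynomial.T n : LaurentPolynomial X.K) =
      c • (LaurentPolynomial.C b * LaurentPolynomial.T n) := by
    rw [← LaurentPolynomial.single_eq_C_mul_T, ← LaurentPolynomial.single_eq_C_mul_T,
      AddMonoidAlgebra.smul_single]
  rw [Obj.mon, Obj.mon, h1]
  exact (map_smul (IsScalarTower.toAlgHom k (LaurentPolynomial X.K) X.Γ) c _).symm

theorem KF5_mon_sum {n : ℕ} (b : Fin n → X.K) (sz : Fin n → ℤ)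
    (h : ∑ l, X.mon (sz l) (b l) = 0) (m : ℤ) :
    ∑ l ∈ Finset.univ.filter (fun l => sz l = m), b l = 0 := by
  have h1 : ∑ l, (LaurentPolynomial.C (b l) * LaurentPolynomial.T (sz l) :
      LaurentPolynomial X.K) = 0 := by
    apply IsFractionRing.injective (LaurentPolynomial X.K) X.Γ
    rw [map_sum, map_zero]
    exact h
  have h3 := congrArg (fun q : LaurentPolynomial X.K => q.coeff m) h1
  simp only [← LaurentPolynomial.single_eq_C_mul_T, AddMonoidAlgebra.coeff_sum,
    AddMonoidAlgebra.coeff_single, Finsupp.finsetSum_apply, Finsupp.single_apply,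
    AddMonoidAlgebra.coeff_zero, Finsupp.coe_zero, Pi.zero_apply] at h3
  rw [Finset.sum_filter]
  exact h3

theorem KF5_mon_eq_zero (n : ℤ) (b : X.K) (h : X.mon n b = 0) : b = 0 := by
  have h1 := KF5_mon_sum (fun _ : Fin 1 => b) (fun _ => n) (by simpa using h) n
  simpa using h1

theorem KF5_res_sum {n : ℕ} {m : ℤ} (I : Finset (Fin n)) {d : Fin n → X.D} {s : Fin n → X.K}
    (h : ∀ l ∈ I, Fr.Res X.π m (d l) (s l)) (h0 : Fr.Res X.π m (0 : X.D) 0) :
    Fr.Res X.π m (∑ l ∈ I, d l) (∑ l ∈ I, s l) := by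
  classical
  induction I using Finset.induction_on with
  | empty => simpa using h0
  | insert x I hx ih =>
    rw [Finset.sum_insert hx, Finset.sum_insert hx]
    exact res_add (h x (Finset.mem_insert_self _ _))
      (ih fun l hl => h l (Finset.mem_insert_of_mem hl))

theorem orth_mon_indep {n : ℕ} {e : Fin n → X.D} {sz : Fin n → ℤ} (h : OrthF (Fr.lev k X.A) e sz)
    {b : Fin n → X.K} (hb : ∀ l, Fr.Res X.π (sz l) (e l) (b l)) :
    LinearIndependent k (fun l => X.mon (sz l) (b l)) := by
  rw [Fintype.linearIndependent_iff]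
  intro c hc l0
  by_contra hne
  have hc' : ∑ l, X.mon (sz l) (c l • b l) = 0 := by
    rw [← hc]
    exact Finset.sum_congr rfl fun l _ => (KF5_smul_mon _ _ _).symm
  have h1 := KF5_mon_sum _ sz hc' (sz l0)
  have h0 : Fr.Res X.π (sz l0) (0 : X.D) 0 := by
    have := res_smul (0 : k) (hb l0)
    rwa [zero_smul, zero_smul] at this
  have h2 : Fr.Res X.π (sz l0) (∑ l ∈ Finset.univ.filter (fun l => sz l = sz l0), c l • e l)
      (∑ l ∈ Finset.univ.filter (fun l => sz l = sz l0), c l • b l) := by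
    refine KF5_res_sum _ (fun l hl => ?_) h0
    have h3 := res_smul (c l) (hb l)
    rwa [(Finset.mem_filter.1 hl).2] at h3
  rw [h1] at h2
  have h5 := (mem_lev_iff_res h2).2 rfl
  have h6 : ∑ l, (if sz l = sz l0 then c l else 0) • e l ∈ Fr.lev k X.A (sz l0 - 1) := by
    have e' : ∑ l, (if sz l = sz l0 then c l else 0) • e l =
        ∑ l ∈ Finset.univ.filter (fun l => sz l = sz l0), c l • e l := by
      rw [Finset.sum_filter]
      refine Finset.sum_congr rfl fun l _ => ?_
      split_ifs
      · rfl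
      · rw [zero_smul]
    rw [e']
    exact h5
  have h7 := h.2 _ _ h6 l0 (by simpa using hne)
  omega

/-- (KF) -/
theorem kF_of_DRes_zero {j : ℕ} {n : ℤ} {T : TP k X.D j} (hT : T ∈ kF k X.A j n)
    (h : DRes X n T 0) : T ∈ kF k X.A j (n - 1) := by
  induction j generalizing n with
  | zero =>
    obtain ⟨b, hb⟩ := exists_res (d := TP.toA T) (show TP.toA T ∈ Fr.lev k X.A n from hT)
    have h1 : DRes X n T (TP.ofA (X.mon n b)) := DRes_ofA hb
    have h2 := DRes_unique h1 h
    have h3 : X.mon n b = 0 := (AddEquiv.map_eq_zero_iff _).1 h2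
    exact (mem_lev_iff_res hb).2 (KF5_mon_eq_zero n b h3)
  | succ j ih =>
    obtain ⟨N, e, sz, t, hor, rfl⟩ := exists_orth_rep (lev_sep X) T
    have ht := (orth_kF_iff hor t n).1 hT
    have hb : ∀ a, ∃ b, Fr.Res X.π (sz a) (e a) b := fun a => exists_res (hor.1 a)
    choose b hb using hb
    have hs : ∀ a, ∃ s, DRes X (n - sz a) (t a) s := fun a => exists_DRes (ht a)
    choose s hs using hs
    have h1 : DRes X n (∑ l, TP.cons (e l) (t l)) (∑ l, TP.cons (X.mon (sz l) (b l)) (s l)) := by
      refine DRes_sum _ fun a _ => ?_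
      have := DRes_cons (hb a) (hs a)
      rwa [add_sub_cancel] at this
    have h2 := DRes_unique h1 h
    have h3 := cons_eq_zero j _ (orth_mon_indep hor hb) s h2
    refine (orth_kF_iff hor t (n - 1)).2 fun l => ?_
    have h4 := hs l
    rw [h3 l] at h4
    have h5 := ih (ht l) h4
    rwa [sub_right_comm] at h5

/-- the filtration of the `k`-tensors is separated -/
theorem kF_sep {j : ℕ} {T : TP k X.D j} (hT : T ≠ 0) : ∃ n : ℤ, T ∉ kF k X.A j n := by
  by_contra hcon
  push Not at hcon
  exact hT (kF_sep0 (lev_sep X) T hcon)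

/-- the values of a finite dimensional subspace form a finite set -/
theorem finite_values (E : Submodule k X.D) (hE : Module.Finite k E) :
    {n : ℤ | ∃ d ∈ E, d ∈ Fr.lev k X.A n ∧ d ∉ Fr.lev k X.A (n - 1)}.Finite :=
  finite_valuesF (fun _ _ hmn => lev_mono hmn) lev_exhaust (lev_sep X) E hE

end C74
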