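import Pool.Agent.MP_35f30a_al.C74.KF3
import Pool.Agent.MP_35f30a_al.C74.KF4

/-!
ROW KF7.  Extensions are isometric on `k`-tensors.  Blueprint section 1.

Induction on `j` with an adapted representation `T = Σ cons (e l) (t l)` (`exists_orth_rep`, `lev_sep`): the family
`f.φ (e l)` is adapted in `D'` with sizes `M sz l`: by `Ext.iso`, `Σ c_l φ(e l) ∈ lev' m ↔ Σ c_l e l ∈ lev (m / M)`, so
`c_l ≠ 0` gives `sz l ≤ m / M`, i.e. `M sz l ≤ m` (`Int.le_ediv_iff_mul_le`).  So by `orth_kF_iff` (twice):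
`f.T T ∈ kF' m ↔ ∀ l, f.T (t l) ∈ kF' (m - M sz l) ↔ ∀ l, t l ∈ kF ((m - M sz l) / M) = kF (m / M - sz l) ↔ T ∈ kF (m / M)`.
-/

set_option autoImplicit false

open scoped TensorProduct Polynomial

namespace C74

variable {k : Type} [Field k] {X : Obj k}

theorem Ext.T_cons {X' : Obj k} (f : Ext X X') {j : ℕ} (a : X.D) (T : TP k X.D j) :
    f.T (j + 1) (TP.cons a T) = TP.cons (f.φ a) (f.T j T) :=
  TP.map_cons (RingHom.id k) (f.φ : X.D →+* X'.D) (fun r => f.φ.commutes r) j a T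

theorem Ext.T_ofA {X' : Obj k} (f : Ext X X') (a : X.D) :
    f.T 0 (TP.ofA a) = TP.ofA (f.φ a) :=
  TP.map_zero_apply (RingHom.id k) (f.φ : X.D →+* X'.D) (fun r => f.φ.commutes r) _

theorem Ext.φ_injective {X' : Obj k} (f : Ext X X') : Function.Injective f.φ := by
  rw [injective_iff_map_eq_zero]
  intro d hd
  apply lev_sep X d
  intro n
  have h := (f.iso d (n * (f.M : ℤ))).mp (by rw [hd]; exact Submodule.zero_mem _)
  have hM : (f.M : ℤ) ≠ 0 := by exact_mod_cast f.Mpos.ne'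
  rwa [Int.mul_ediv_cancel _ hM] at h

theorem KF7_orth {X' : Obj k} (f : Ext X X') {n : ℕ} {e : Fin n → X.D} {sz : Fin n → ℤ}
    (h : OrthF (Fr.lev k X.A) e sz) :
    OrthF (Fr.lev k X'.A) (fun l => f.φ (e l)) (fun l => (f.M : ℤ) * sz l) := by
  have hM : (0 : ℤ) < (f.M : ℤ) := by exact_mod_cast f.Mpos
  refine ⟨fun l => ?_, fun c m hc l hl => ?_⟩
  · rw [f.iso, Int.mul_ediv_cancel_left _ hM.ne']
    exact h.1 l
  · have h1 : ∑ l, c l • f.φ (e l) = f.φ (∑ l, c l • e l) := by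
      rw [map_sum]
      exact Finset.sum_congr rfl fun l _ => (map_smul f.φ _ _).symm
    rw [h1, f.iso] at hc
    have h2 := h.2 c _ hc l hl
    have h3 := (Int.le_ediv_iff_mul_le hM).mp h2
    linarith [mul_comm (f.M : ℤ) (sz l)]

theorem KF7_kF_iff {X' : Obj k} (f : Ext X X') {j : ℕ} (T : TP k X.D j) (m : ℤ) :
    f.T j T ∈ kF k X'.A j m ↔ T ∈ kF k X.A j (m / (f.M : ℤ)) := by
  have hM : (0 : ℤ) < (f.M : ℤ) := by exact_mod_cast f.Mpos
  induction j generalizing m with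
  | zero => exact f.iso (TP.toA T) m
  | succ j ih =>
    obtain ⟨n, e, sz, t, ho, hT⟩ := exists_orth_rep (lev_sep X) T
    have h1 : f.T (j + 1) T = ∑ l, TP.cons (f.φ (e l)) (f.T j (t l)) := by
      rw [hT, map_sum]
      exact Finset.sum_congr rfl fun l _ => f.T_cons _ _
    rw [h1, orth_kF_iff (KF7_orth f ho) (fun l => f.T j (t l)) m, hT, orth_kF_iff ho]
    refine forall_congr' fun l => ?_
    refine (ih (t l) _).trans ?_
    have h2 : (m - (f.M : ℤ) * sz l) / (f.M : ℤ) = m / (f.M : ℤ) - sz l := by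
      rw [sub_eq_add_neg, ← mul_neg, Int.add_mul_ediv_left _ _ hM.ne', ← sub_eq_add_neg]
    rw [h2]

theorem Ext.T_injective {X' : Obj k} (f : Ext X X') (j : ℕ) : Function.Injective (f.T j) := by
  rw [injective_iff_map_eq_zero]
  intro T hT
  have hM : (f.M : ℤ) ≠ 0 := by exact_mod_cast f.Mpos.ne'
  apply kF_sep0 (lev_sep X) T
  intro n
  have h := (KF7_kF_iff f T (n * (f.M : ℤ))).mp (by rw [hT]; exact Submodule.zero_mem _)
  rwa [Int.mul_ediv_cancel _ hM] at h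

/-- extensions are isometric on `k`-tensors -/
theorem Ext.kF_iff {X' : Obj k} (f : Ext X X') {j : ℕ} (T : TP k X.D j) (m : ℤ) :
    f.T j T ∈ kF k X'.A j m ↔ T ∈ kF k X.A j (m / (f.M : ℤ)) :=
  KF7_kF_iff f T m

end C74
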