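import Pool.Agent.MP_35f30a_al.C74.SZ3
import Pool.Agent.MP_35f30a_al.C74.KF5
import Pool.Agent.MP_35f30a_al.C74.KF7

/-!
ROW FN2.  Free algebra elements as families of tensors.  Blueprint section 7.

`f = Σ_l c_l l` over words `l : List V` (`FreeAlgebra.equivMonoidAlgebraFreeMonoid`); `d := ` maximal length of a word with `c_l ≠ 0` (`≥ 1` since `f` is
not a scalar); `g j := Σ_{|l| = j} c_l wordT x l` (cast to `T_j` along `|l| = j`).
* `g 0 = c • ofA 1`, `g j = 0` for `j > d`.
* `wordT x l ∈ kF 0` and its decorated residue at level `0` is `cons β_1 (... (cons β_j (ofA 1)))`, `β_i = mon 0 (b (l_i))`; the `β_v`, `v ∈ V`, are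
  `k`-independent in `Γ` (`b ∘ n`, `n : V → ℕ` injective), so these tensors for different words of length `d` are independent
  (`cons_eq_zero`-type induction; the last factor is `1 ≠ 0`).  So the decorated residue of `g d` is nonzero and
  `g d ∉ kF (-1)` (`DRes_of_lt`, `DRes_unique`).
* values: `TP.toA (h.st d z g 0) = Σ_j ev z (h.T j (g j)) = Σ_l c_l Π (h.φ (x l_i) * z)` (`ev_wordT`).
-/

set_option autoImplicit false

open scoped TensorProduct Polynomial

namespace C74

section eval
variable {k : Type} [Field k] {D : Type} [Ring D] [Algebra k D] {V : Type}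

/-- the word `i1 ... ij` gives `x_{i1} ⊗ ... ⊗ x_{ij} ⊗ 1` -/
noncomputable def wordT (x : V → D) : (l : List V) → TP k D l.length
  | [] => TP.ofA 1
  | a :: l => TP.cons (x a) (wordT x l)

theorem ev_wordT (x : V → D) (z : D) (l : List V) :
    TP.ev z (wordT (k := k) x l) = (l.map fun a => x a * z).prod := by
  induction l with
  | nil => rfl
  | cons a l ih =>
    have h : TP.ev z (wordT (k := k) x (a :: l)) =
        TP.toA ((x a * z) • TP.con z l.length 0 (wordT (k := k) x l)) :=
      congrArg TP.toA (TP.con_succ_zero z l.length (x a) (wordT (k := k) x l))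
    rw [h, TP.toA_smul, List.map_cons, List.prod_cons, ← ih]
    rfl

/-- auxiliary: the word tensor without casts -/
noncomputable def FN2_W (x : V → D) : List V → (j : ℕ) → TP k D j
  | [], 0 => TP.ofA 1
  | [], _ + 1 => 0
  | _ :: _, 0 => 0
  | a :: l, j + 1 => TP.cons (x a) (FN2_W x l j)

theorem FN2_W_ne (x : V → D) (l : List V) (j : ℕ) (h : l.length ≠ j) :
    FN2_W (k := k) x l j = 0 := by
  induction l generalizing j with
  | nil => cases j with
    | zero => exact absurd rfl h
    | succ j => rfl
  | cons a l ih => cases j with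
    | zero => rfl
    | succ j =>
      show TP.cons (x a) (FN2_W x l j) = 0
      rw [ih j (fun e => h (by rw [List.length_cons, e])), TP.cons_zero]

theorem FN2_ev_W (x : V → D) (z : D) (l : List V) (j : ℕ) :
    TP.toA (TP.con z j 0 (FN2_W (k := k) x l j)) =
      if l.length = j then (l.map fun a => x a * z).prod else 0 := by
  induction l generalizing j with
  | nil => cases j with
    | zero => rfl
    | succ j =>
      show TP.toA (TP.con z (j + 1) 0 (0 : TP k D (j + 1))) = _
      rw [map_zero, map_zero, if_neg (by simp)]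
  | cons a l ih => cases j with
    | zero =>
      show TP.toA (TP.con z 0 0 (0 : TP k D 0)) = _
      rw [map_zero, map_zero, if_neg (by simp)]
    | succ j =>
      show TP.toA (TP.con z (j + 1) 0 (TP.cons (x a) (FN2_W x l j))) = _
      rw [TP.con_succ_zero, TP.toA_smul, ih]
      by_cases h : l.length = j
      · rw [if_pos h, if_pos (by rw [List.length_cons, h]), List.map_cons, List.prod_cons]
      · rw [if_neg h, if_neg (by rw [List.length_cons]; omega), mul_zero]

end eval

/-- auxiliary: iterated peeling -/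
noncomputable def FN2_peel {k : Type} [Field k] {D : Type} [Ring D] [Algebra k D] {V : Type}
    (ψ : V → D →ₗ[k] k) (ψ0 : TP k D 0 →ₗ[k] k) : (l : List V) → (j : ℕ) → TP k D j →ₗ[k] k
  | [], 0 => ψ0
  | [], _ + 1 => 0
  | _ :: _, 0 => 0
  | a :: l, j + 1 => FN2_peel ψ ψ0 l j ∘ₗ peel j (ψ a)

theorem FN2_peel_W {k : Type} [Field k] {D : Type} [Ring D] [Algebra k D] {V : Type}
    [DecidableEq V]
    (ψ : V → D →ₗ[k] k) (ψ0 : TP k D 0 →ₗ[k] k) (β : V → D) (h0 : ψ0 (TP.ofA 1) = 1)
    (h1 : ∀ a, ψ a (β a) = 1) (h2 : ∀ a b, a ≠ b → ψ a (β b) = 0) (l l' : List V) (j : ℕ)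
    (hl : l.length = j) : FN2_peel ψ ψ0 l j (FN2_W β l' j) = if l = l' then 1 else 0 := by
  induction l generalizing j l' with
  | nil =>
    subst hl
    cases l' with
    | nil => rw [if_pos rfl]; exact h0
    | cons a l' =>
      rw [if_neg (by simp)]
      show ψ0 0 = 0
      exact map_zero _
  | cons a l ih =>
    cases j with
    | zero => simp at hl
    | succ j =>
      have hl' : l.length = j := by simpa using hl
      cases l' with
      | nil =>
        rw [if_neg (by simp)]
        show FN2_peel ψ ψ0 (a :: l) (j + 1) 0 = 0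
        exact map_zero _
      | cons b l' =>
        show FN2_peel ψ ψ0 l j (peel j (ψ a) (TP.cons (β b) (FN2_W β l' j))) = _
        rw [peel_cons, map_smul, ih l' j hl']
        by_cases hab : a = b
        · subst hab
          rw [h1, one_smul]
          by_cases hll : l = l'
          · rw [if_pos hll, if_pos (by rw [hll])]
          · rw [if_neg hll, if_neg (by simpa using hll)]
        · rw [h2 a b hab, zero_smul, if_neg (by simp [hab])]

/-- auxiliary: dual functionals -/
theorem FN2_dual {k : Type} [Field k] {M : Type} [AddCommGroup M] [Module k M] {V : Type}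
    (β : V → M) (h : LinearIndependent k β) :
    ∃ ψ : V → M →ₗ[k] k, (∀ a, ψ a (β a) = 1) ∧ ∀ a b, a ≠ b → ψ a (β b) = 0 := by
  classical
  have h1 : ∀ a : V, ∃ g : M →ₗ[k] k, g ∘ₗ (Submodule.span k (Set.range β)).subtype =
      Finsupp.lapply a ∘ₗ (h.repr : Submodule.span k (Set.range β) →ₗ[k] V →₀ k) :=
    fun a => LinearMap.exists_extend _
  choose ψ hψ using h1
  have h2 : ∀ a b, ψ a (β b) = (Finsupp.single b (1 : k)) a := by
    intro a b
    have h3 := congrArg (fun g => g ⟨β b, Submodule.subset_span ⟨b, rfl⟩⟩) (hψ a)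
    simp only [LinearMap.comp_apply, Submodule.subtype_apply, Finsupp.lapply_apply] at h3
    rw [h3, h.repr_eq_single b _ rfl]
  refine ⟨ψ, fun a => ?_, fun a b hab => ?_⟩
  · rw [h2, Finsupp.single_eq_same]
  · rw [h2, Finsupp.single_eq_of_ne hab]

theorem FN2_exists_words {k : Type} [Field k] {V : Type} (f : FreeAlgebra k V) :
    ∃ c : List V →₀ k, f = c.sum fun l r => r • (l.map (FreeAlgebra.ι k)).prod := by
  have key : f ∈ Submodule.span k
      (Set.range fun l : List V => (l.map (FreeAlgebra.ι k)).prod) := by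
    induction f using FreeAlgebra.induction with
    | grade0 r =>
      rw [Algebra.algebraMap_eq_smul_one]
      exact Submodule.smul_mem _ _ (Submodule.subset_span ⟨[], rfl⟩)
    | grade1 x => exact Submodule.subset_span ⟨[x], by simp⟩
    | mul a b ha hb =>
      have h1 := Submodule.mul_mem_mul ha hb
      rw [Submodule.span_mul_span] at h1
      refine Submodule.span_mono ?_ h1
      rintro _ ⟨_, ⟨l, rfl⟩, _, ⟨l', rfl⟩, rfl⟩
      exact ⟨l ++ l', by simp⟩
    | add a b ha hb => exact Submodule.add_mem _ ha hb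
  obtain ⟨c, hc⟩ := Finsupp.mem_span_range_iff_exists_finsupp.1 key
  exact ⟨c, hc.symm⟩

theorem FN2_mem_lev {k : Type} [Field k] {X : Obj k} {n : ℤ} {d : X.D} {s : X.K}
    (h : Fr.Res X.π n d s) : d ∈ Fr.lev k X.A n := by
  obtain ⟨a, ha, -⟩ := h
  exact ⟨a, ha⟩

theorem FN2_res_one {k : Type} [Field k] (X : Obj k) : Fr.Res X.π 0 (1 : X.D) 1 :=
  ⟨1, by rw [map_one, mul_one, neg_zero, Fr.tz_zero], map_one _⟩

theorem FN2_W_kF {k : Type} [Field k] (X : Obj k) {V : Type} (x : V → X.D) (b : V → X.K)
    (hx : ∀ v, Fr.Res X.π 0 (x v) (b v)) (l : List V) (j : ℕ) :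
    FN2_W x l j ∈ kF k X.A j 0 := by
  induction l generalizing j with
  | nil => cases j with
    | zero => exact FN2_mem_lev (FN2_res_one X)
    | succ j => exact Submodule.zero_mem _
  | cons a l ih => cases j with
    | zero => exact Submodule.zero_mem _
    | succ j =>
      have h := kF_cons (FN2_mem_lev (hx a)) (ih j)
      rwa [add_zero] at h

theorem FN2_mon_one {k : Type} [Field k] (X : Obj k) : X.mon 0 1 = 1 := by
  rw [Obj.mon, map_one, LaurentPolynomial.T_zero, mul_one, map_one]

theorem FN2_W_DRes {k : Type} [Field k] (X : Obj k) {V : Type} (x : V → X.D) (b : V → X.K)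
    (hx : ∀ v, Fr.Res X.π 0 (x v) (b v)) (l : List V) (j : ℕ) :
    DRes X 0 (FN2_W x l j) (FN2_W (fun v => X.mon 0 (b v)) l j) := by
  have hz : ∀ j, DRes X 0 (0 : TP k X.D j) (0 : TP k X.Γ j) :=
    fun j => DRes_of_lt (Submodule.zero_mem _)
  induction l generalizing j with
  | nil => cases j with
    | zero =>
      have h := DRes_ofA (FN2_res_one X)
      rw [FN2_mon_one] at h
      exact h
    | succ j => exact hz _
  | cons a l ih => cases j with
    | zero => exact hz _
    | succ j =>
      have h := DRes_cons (hx a) (ih j)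
      rwa [add_zero] at h

theorem FN2_mon_indep {k : Type} [Field k] (X : Obj k) {V : Type} (b : V → X.K)
    (hb : LinearIndependent k b) : LinearIndependent k (fun v => X.mon 0 (b v)) := by
  let g : X.K →ₗ[k] X.Γ :=
    { toFun := X.mon 0
      map_add' := fun s t => by
        rw [Obj.mon, Obj.mon, Obj.mon, ← map_add, map_add, add_mul]
      map_smul' := fun c s => (KF5_smul_mon 0 c s).symm }
  exact hb.map' g (LinearMap.ker_eq_bot'.2 fun s hs => KF5_mon_eq_zero 0 s hs)

theorem FN2_T_W {k : Type} [Field k] {X X' : Obj k} (h : Ext X X') {V : Type} (x : V → X.D)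
    (l : List V) (j : ℕ) : h.T j (FN2_W x l j) = FN2_W (fun v => h.φ (x v)) l j := by
  induction l generalizing j with
  | nil => cases j with
    | zero =>
      show h.T 0 (TP.ofA 1) = TP.ofA 1
      rw [Ext.T_ofA, map_one]
    | succ j => exact map_zero _
  | cons a l ih => cases j with
    | zero => exact map_zero _
    | succ j =>
      show h.T (j + 1) (TP.cons (x a) (FN2_W x l j)) = TP.cons (h.φ (x a)) (FN2_W _ l j)
      rw [Ext.T_cons, ih]

/-- the homogeneous parts of a free algebra element as a family of tensors over `D` -/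
theorem exists_fam {k : Type} [Field k] (X : Obj k) (hL : X.L = 1) (V : Type) (x : V → X.D)
    (b : V → X.K) (hx : ∀ v, Fr.Res X.π 0 (x v) (b v)) (hb : LinearIndependent k b)
    (f : FreeAlgebra k V) (hf : f ∉ Set.range (algebraMap k (FreeAlgebra k V))) :
    ∃ (d : ℕ) (g : Fam X) (c : k), 1 ≤ d ∧ (∀ j, d < j → g j = 0) ∧
      g 0 = TP.ofA (algebraMap k X.D c) ∧ FreeAlgebra.lift k (fun _ : V => (0 : k)) f = c ∧
      (∀ j, g j ∈ kF k X.A j 0) ∧ g d ∉ kF k X.A d (-1) ∧
      ∀ (X' : Obj k) (h : Ext X X') (z : X'.D),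
        TP.toA (h.st d z g 0) = FreeAlgebra.lift k (fun i => h.φ (x i) * z) f := by
  classical
  obtain ⟨c, hc⟩ := FN2_exists_words f
  have hlift : ∀ (B : Type) [Ring B] [Algebra k B] (y : V → B),
      FreeAlgebra.lift k y f = c.sum fun l r => r • (l.map y).prod := by
    intro B _ _ y
    rw [hc, Finsupp.sum, Finsupp.sum, map_sum]
    refine Finset.sum_congr rfl fun l _ => ?_
    rw [map_smul, map_list_prod, List.map_map]
    congr 2
    refine List.map_congr_left fun a _ => ?_
    rw [Function.comp_apply, FreeAlgebra.lift_ι_apply]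
  -- a word of positive length
  have hpos : ∃ l ∈ c.support, 1 ≤ l.length := by
    by_contra hcon
    push Not at hcon
    refine hf ⟨c [], ?_⟩
    rw [hc, Finsupp.sum, Algebra.algebraMap_eq_smul_one]
    have h1 : ∀ l ∈ c.support, l = [] := by
      intro l hl
      have := hcon l hl
      exact List.eq_nil_of_length_eq_zero (by omega)
    by_cases h2 : [] ∈ c.support
    · have h3 : c.support = {[]} := by
        ext l
        rw [Finset.mem_singleton]
        exact ⟨h1 l, fun e => e ▸ h2⟩
      rw [h3, Finset.sum_singleton, List.map_nil, List.prod_nil]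
    · have h3 : c.support = ∅ := by
        rw [Finset.eq_empty_iff_forall_notMem]
        intro l hl
        exact h2 (h1 l hl ▸ hl)
      rw [h3, Finset.sum_empty, Finsupp.notMem_support_iff.1 h2, zero_smul]
  obtain ⟨l1, hl1, hl1'⟩ := hpos
  obtain ⟨l0, hl0, hmax⟩ := Finset.exists_max_image c.support List.length ⟨l1, hl1⟩
  let g : Fam X := fun j => ∑ l ∈ c.support, c l • FN2_W x l j
  refine ⟨l0.length, g, c [], le_trans hl1' (hmax l1 hl1), ?_, ?_, ?_, ?_, ?_, ?_⟩
  · intro j hj
    refine Finset.sum_eq_zero fun l hl => ?_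
    have := hmax l hl
    rw [FN2_W_ne x l j (by omega), smul_zero]
  · have h1 : g 0 = c [] • TP.ofA 1 := by
      by_cases h2 : [] ∈ c.support
      · refine (Finset.sum_eq_single_of_mem [] h2 fun l _ hl => ?_).trans rfl
        rw [FN2_W_ne x l 0 (fun e => hl (List.eq_nil_of_length_eq_zero e)), smul_zero]
      · rw [Finsupp.notMem_support_iff.1 h2, zero_smul]
        refine Finset.sum_eq_zero fun l hl => ?_
        rw [FN2_W_ne x l 0 (fun e => h2 (List.eq_nil_of_length_eq_zero e ▸ hl)), smul_zero]
    rw [h1, TP.smulR_ofA, Algebra.algebraMap_eq_smul_one]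
  · rw [hlift, Finsupp.sum]
    have h3 : ∀ l ∈ c.support, l ≠ [] → c l • (l.map fun _ : V => (0 : k)).prod = 0 := by
      intro l _ hl
      cases l with
      | nil => exact absurd rfl hl
      | cons a l => rw [List.map_cons, List.prod_cons, zero_mul, smul_zero]
    by_cases h2 : [] ∈ c.support
    · rw [Finset.sum_eq_single_of_mem [] h2 h3, List.map_nil, List.prod_nil, smul_eq_mul, mul_one]
    · rw [Finsupp.notMem_support_iff.1 h2]
      exact Finset.sum_eq_zero fun l hl => h3 l hl fun e => h2 (e ▸ hl)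
  · intro j
    exact Submodule.sum_mem _ fun l _ => Submodule.smul_mem _ _ (FN2_W_kF X x b hx l j)
  · intro hmem
    have h1 : DRes X 0 (g l0.length)
        (∑ l ∈ c.support, c l • FN2_W (fun v => X.mon 0 (b v)) l l0.length) :=
      DRes_sum _ fun l _ => DRes_smul (c l) (FN2_W_DRes X x b hx l l0.length)
    have h2 : DRes X 0 (g l0.length) 0 := DRes_of_lt hmem
    have h3 := DRes_unique h1 h2
    obtain ⟨ψ, hψ1, hψ2⟩ := FN2_dual _ (FN2_mon_indep X b hb)
    obtain ⟨ψ0, hψ0⟩ : ∃ ψ0 : TP k X.Γ 0 →ₗ[k] k, ψ0 (TP.ofA 1) = 1 := by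
      obtain ⟨ψ', hψ', -⟩ := FN2_dual (k := k) (fun _ : Unit => (TP.ofA 1 : TP k X.Γ 0))
        (LinearIndependent.of_subsingleton () (by
          intro e
          exact one_ne_zero ((AddEquiv.map_eq_zero_iff _).1 e)))
      exact ⟨ψ' (), hψ' ()⟩
    have h4 := congrArg (FN2_peel ψ ψ0 l0 l0.length) h3
    rw [map_sum, map_zero] at h4
    have h5 : ∀ l ∈ c.support, FN2_peel ψ ψ0 l0 l0.length
        (c l • FN2_W (fun v => X.mon 0 (b v)) l l0.length) = if l0 = l then c l else 0 := by
      intro l _
      rw [map_smul, FN2_peel_W ψ ψ0 _ hψ0 hψ1 hψ2 l0 l _ rfl, smul_eq_mul, mul_ite, mul_one,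
        mul_zero]
    rw [Finset.sum_congr rfl h5, Finset.sum_ite_eq, if_pos hl0] at h4
    exact (Finsupp.mem_support_iff.1 hl0) h4
  · intro X' h z
    rw [hlift, Finsupp.sum]
    have h1 : ∀ j, TP.con z j 0 (h.T j (g j)) =
        ∑ l ∈ c.support, c l • TP.con z j 0 (FN2_W (fun v => h.φ (x v)) l j) := by
      intro j
      show TP.con z j 0 (h.T j (∑ l ∈ c.support, c l • FN2_W x l j)) = _
      rw [map_sum, map_sum]
      refine Finset.sum_congr rfl fun l _ => ?_
      rw [LinearMap.map_smulₛₗ, RingHom.id_apply, map_smul, FN2_T_W]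
    show TP.toA (∑ j ∈ Finset.range (l0.length + 1), TP.con z j 0 (h.T j (g j))) = _
    rw [Finset.sum_congr rfl fun j _ => h1 j, Finset.sum_comm, map_sum]
    refine Finset.sum_congr rfl fun l hl => ?_
    rw [map_sum]
    have h2 : ∀ j ∈ Finset.range (l0.length + 1),
        TP.toA (c l • TP.con z j 0 (FN2_W (k := k) (fun v => h.φ (x v)) l j)) =
        if l.length = j then c l • (l.map fun a => h.φ (x a) * z).prod else 0 := by
      intro j _
      rw [TP.toA_smulR, FN2_ev_W, smul_ite, smul_zero]
    rw [Finset.sum_congr rfl h2, Finset.sum_ite_eq, if_pos]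
    rw [Finset.mem_range]
    have := hmax l hl
    omega

end C74
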