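import Pool.Agent.MP_35f30a_al.C74.MCD

/-!
ROW MC0.  Chain data exist.  Blueprint 2.4.

`E`: sum of the `exists_TE (g j)`, `j ≤ d` (`TE_mono`; `g j = 0` for `j > d`).  `ne`: `hC.ex`, `FTx_iff`.  `N`: `exists_order`.
`v, Θ2, θ`: `exists_FD`.  For `j > e+1`, `j ≤ d`: `hC.lt` gives `q_j < q0 - j r` with `g j ∈ FT q_j`; let `4 ν > 0` be the
minimum of `q0 - j r - q_j` over these `j` (or `1`), `μ := 2 ν`-ish and `ε0 := min 1 (min (μ/4) (ν/(d+1)))` so that
`(j - (e+1)) ε0 + μ ≤ q0 - j r - q_j`.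
-/

set_option autoImplicit false

open scoped TensorProduct Polynomial

namespace C74

variable {k : Type} [Field k]

/-- chain data exist -/
theorem exists_chain [IsAlgClosed k] {X : Obj k} {d : ℕ} {g : Fam X} {q0 r : ℚ} {e : ℕ}
    (hC : Crit X d g q0 r (e + 1)) (hND : ¬ Drop X d g r (e + 1)) (hd : ∀ j, d < j → g j = 0) :
    Nonempty (Chain X d g q0 r e) := by
  classical
  -- the subspace of components
  choose Ej hfin hmem using fun j => exists_TE (g j)
  obtain ⟨E, hEfin, hE⟩ : ∃ E : Submodule k X.D, Module.Finite k E ∧ ∀ j, g j ∈ TE E j := by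
    refine ⟨⨆ j : Fin (d + 1), Ej j, ?_, fun j => ?_⟩
    · haveI : ∀ j : Fin (d + 1), Module.Finite k (Ej j) := fun j => hfin j
      exact Submodule.finite_iSup _
    · rcases Nat.lt_or_ge d j with h | h
      · rw [hd j h]
        exact Submodule.zero_mem _
      · exact TE_mono (le_iSup (fun i : Fin (d + 1) => Ej i) ⟨j, by omega⟩) (hmem j)
  -- the exact level and the order
  obtain ⟨ne, hne, hn1, hn2⟩ := FTx_iff.1 hC.ex
  obtain ⟨N, hN⟩ := exists_order hn1 hn2
  obtain ⟨v, Θ2, θ, hfd, hT⟩ := exists_FD hN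
  -- the gap
  have h1 : ∀ j : ℕ, ∃ δ : ℚ, 0 < δ ∧ (e + 1 < j → j ≤ d → g j ∈ X.FT j (q0 - j * r - δ)) := by
    intro j
    by_cases hj : e + 1 < j ∧ j ≤ d
    · obtain ⟨q', hq', hg'⟩ := hC.lt j hj.1 hj.2
      refine ⟨q0 - j * r - q', by linarith, fun _ _ => ?_⟩
      have h2 : q0 - j * r - (q0 - j * r - q') = q' := by ring
      rw [h2]
      exact hg'
    · exact ⟨1, one_pos, fun h h' => absurd ⟨h, h'⟩ hj⟩
  choose δ hδ hδg using h1
  obtain ⟨η, hη, hηδ⟩ : ∃ η : ℚ, 0 < η ∧ ∀ j, j ≤ d → η ≤ δ j := by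
    obtain ⟨j0, _, hj0⟩ := Finset.exists_min_image (Finset.range (d + 1)) δ ⟨0, by simp⟩
    exact ⟨δ j0, hδ j0, fun j hj => hj0 j (Finset.mem_range.2 (by omega))⟩
  have hd1 : (0 : ℚ) < 2 * ((d : ℚ) + 1) := by positivity
  have hL : (X.L : ℚ) ≠ 0 := by
    have := X.Lpos
    positivity
  refine ⟨{ crit := hC, nd := hND, E := E, fin := hEfin, hE := hE, N := N, ne := ne,
            hne := ?_, hN := hN, v := v, Θ2 := Θ2, θ := θ, fd := hfd, hT := hT,
            μ := η / 2, μpos := by positivity,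
            ε0 := min 1 (min (η / 2 / 4) (η / (2 * ((d : ℚ) + 1)))),
            ε0pos := ?_, ε0le := min_le_left _ _,
            ε0μ := (min_le_right _ _).trans (min_le_left _ _), gap := ?_ }⟩
  · rw [hne]
    field_simp
  · exact lt_min one_pos (lt_min (by positivity) (by positivity))
  · intro j hj hjd
    refine FT_mono ?_ (hδg j hj hjd)
    set ε := min (1 : ℚ) (min (η / 2 / 4) (η / (2 * ((d : ℚ) + 1)))) with hε
    have h2 : ε ≤ η / (2 * ((d : ℚ) + 1)) := (min_le_right _ _).trans (min_le_right _ _)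
    have h3 : ((j - (e + 1) : ℕ) : ℚ) ≤ (d : ℚ) + 1 := by
      have : j - (e + 1) ≤ d + 1 := by omega
      exact_mod_cast this
    have h4 : ((j - (e + 1) : ℕ) : ℚ) * ε ≤ η / 2 := by
      have h5 : (0 : ℚ) ≤ ((j - (e + 1) : ℕ) : ℚ) := Nat.cast_nonneg _
      calc ((j - (e + 1) : ℕ) : ℚ) * ε ≤ ((j - (e + 1) : ℕ) : ℚ) * (η / (2 * ((d : ℚ) + 1))) :=
            mul_le_mul_of_nonneg_left h2 h5
        _ ≤ ((d : ℚ) + 1) * (η / (2 * ((d : ℚ) + 1))) :=
            mul_le_mul_of_nonneg_right h3 (by positivity)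
        _ = η / 2 := by
            have : ((d : ℚ) + 1) ≠ 0 := by positivity
            field_simp
    have h6 := hηδ j hjd
    linarith

end C74
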