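import Pool.Agent.MP_35f30a_al.C74.MC4
import Pool.Agent.MP_35f30a_al.C74.MC0

/-!
ROW MC5.  Termination, THEOREM A.  Blueprint 2.4, 2.

`Chain.run`: let `B` be given, `ve := q0 - (e+1) r`, `ε := qT + (-B - ve)/(e+1) - 1`.  `V := {q | ∃ β ∈ c.E, FTx q (ofA β)}` is finite
(`finite_values`, `FTx_iff`).  Claim: for every chain state `s` with `s.f.Good`, `z ∈ F (r + ε0)`, `Near z ε`, `Crit .. q' r' (e+1)`, `r' ≤ r`
there is a state with `st .. 0 ∈ FT (-B)`: induction on the number of elements of `V` that are `≤ qT + r'`.  If `q' ≤ -B`: stop (`hC.zero`).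
Else `r' = (q' - ve)/(e+1)` (exact sizes of the component `e+1` agree, as in MC2) `> (-B - ve)/(e+1)`, so `ε < qT + r'`; `step`:
`qT + r' ∈ V`, the new `r'' < r'`.  Start: `init`, `z = 0`, `init_Near`, `Crit.congr` with `Ext.st_id`.
The final `z ∈ F (r + ε0) ⊆ F (r + 1)`.
`theoremA`: strong induction on `e` (`e ≥ 1` by `Crit.one_le`).  If `Drop X d g r e`: `X', f, w`; if `st .. 0 = 0` done for all `B`; else the
induction hypothesis for `(X', f.st d w g)` (`Ext.st_gt`), `e' < e`, gives `X'', f', z'`, and `Ext.st_st`: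
`z := f'.φ w + z' ∈ F (r+1)`.  If `¬ Drop`: `exists_chain`, `Chain.run`.
-/

set_option autoImplicit false

open scoped TensorProduct Polynomial

namespace C74

variable {k : Type} [Field k]

/-- the chain terminates -/
theorem Chain.run [IsAlgClosed k] {X : Obj k} {d : ℕ} {g : Fam X} {q0 r : ℚ} {e : ℕ}
    (c : Chain X d g q0 r e) : GoodSt X d g r := by
  intro B
  have he : (0 : ℚ) < ((e + 1 : ℕ) : ℚ) := by exact_mod_cast Nat.succ_pos e
  let ve : ℚ := q0 - (e + 1 : ℕ) * r
  let ε : ℚ := c.qT + (-B - ve) / (e + 1 : ℕ) - 1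
  let V : Set ℚ := {q | ∃ β ∈ c.E, X.FTx q (TP.ofA β : TP k X.D 0)}
  have hVfin : V.Finite := by
    have h1 := finite_values c.E c.fin
    refine (h1.image (fun n : ℤ => (n : ℚ) / X.L)).subset ?_
    rintro q ⟨β, hβ, hq⟩
    obtain ⟨n, rfl, h2, h3⟩ := FTx_iff.1 hq
    exact ⟨n, ⟨β, hβ, h2, h3⟩, rfl⟩
  have key : ∀ (m : ℕ) (s : CSt c), s.f.Good → ∀ z : s.X'.D, z ∈ s.X'.F (r + c.ε0) →
      ∀ q' r' : ℚ, r' ≤ r → Crit s.X' d (s.f.st d z g) q' r' (e + 1) → s.Near z ε →
      (V ∩ Set.Iic (c.qT + r')).ncard ≤ m →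
      ∃ (X' : Obj k) (f : Ext X X') (z : X'.D), z ∈ X'.F (r + 1) ∧
        f.st d z g 0 ∈ X'.FT 0 (-B) := by
    intro m
    induction m with
    | zero =>
      intro s hg z hz q' r' hr hC hN hm
      by_cases hB : q' ≤ -B
      · exact ⟨s.X', s.f, z, F_mono (by linarith [c.ε0le]) hz, FT_mono hB hC.zero.1⟩
      · exfalso
        have hx : s.X'.FTx ve (s.f.st d z g (e + 1)) := by
          have h1 := (s.f.FTx_iff ve (g (e + 1))).2 c.crit.ex
          have h2 := FTx_add h1 (s.top hz).1
          rwa [add_sub_cancel] at h2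
        have hu := FTx_unique hC.ex hx
        have hr' : r' = (q' - ve) / (e + 1 : ℕ) := by
          rw [eq_div_iff he.ne']
          linarith
        have hε : ε < c.qT + r' := by
          have : (-B - ve) / (e + 1 : ℕ) < (q' - ve) / (e + 1 : ℕ) :=
            div_lt_div_of_pos_right (by linarith [not_le.1 hB]) he
          show c.qT + (-B - ve) / (e + 1 : ℕ) - 1 < _
          rw [hr']
          linarith
        obtain ⟨hV, -⟩ := s.step hg hz hr hC hN hε
        have hmem : c.qT + r' ∈ V ∩ Set.Iic (c.qT + r') := ⟨hV, Set.mem_Iic.2 le_rfl⟩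
        have h0 := (Set.ncard_eq_zero (hVfin.inter_of_left _)).1 (Nat.le_zero.1 hm)
        rw [h0] at hmem
        exact hmem
    | succ m ih =>
      intro s hg z hz q' r' hr hC hN hm
      by_cases hB : q' ≤ -B
      · exact ⟨s.X', s.f, z, F_mono (by linarith [c.ε0le]) hz, FT_mono hB hC.zero.1⟩
      · have hx : s.X'.FTx ve (s.f.st d z g (e + 1)) := by
          have h1 := (s.f.FTx_iff ve (g (e + 1))).2 c.crit.ex
          have h2 := FTx_add h1 (s.top hz).1
          rwa [add_sub_cancel] at h2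
        have hu := FTx_unique hC.ex hx
        have hr' : r' = (q' - ve) / (e + 1 : ℕ) := by
          rw [eq_div_iff he.ne']
          linarith
        have hε : ε < c.qT + r' := by
          have : (-B - ve) / (e + 1 : ℕ) < (q' - ve) / (e + 1 : ℕ) :=
            div_lt_div_of_pos_right (by linarith [not_le.1 hB]) he
          show c.qT + (-B - ve) / (e + 1 : ℕ) - 1 < _
          rw [hr']
          linarith
        obtain ⟨hV, s', F, z', hz', hN', h0 | ⟨q'', r'', hrr, hC'⟩⟩ := s.step hg hz hr hC hN hε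
        · exact ⟨s'.X', s'.f, z', F_mono (by linarith [c.ε0le]) hz', by
            rw [h0]; exact Submodule.zero_mem _⟩
        · refine ih s' (F.good_f hg) z' hz' q'' r'' (hrr.le.trans hr) hC' hN' ?_
          have hlt : (V ∩ Set.Iic (c.qT + r'')).ncard < (V ∩ Set.Iic (c.qT + r')).ncard := by
            apply Set.ncard_lt_ncard _ (hVfin.inter_of_left _)
            constructor
            · rintro q ⟨hq1, hq2⟩
              exact ⟨hq1, Set.mem_Iic.2 ((Set.mem_Iic.1 hq2).trans (by linarith))⟩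
            · intro hsub
              have := (hsub (show c.qT + r' ∈ V ∩ Set.Iic (c.qT + r') from ⟨hV, Set.mem_Iic.2 le_rfl⟩)).2
              have h3 : c.qT + r' ≤ c.qT + r'' := this
              linarith
          omega
  refine key _ c.init (Ext.Good.id _) 0 (Submodule.zero_mem _) q0 r le_rfl ?_
    (c.init_Near ε) le_rfl
  exact c.crit.congr (fun i hi => (Ext.st_id d g i hi).symm)

/-- THEOREM A -/
theorem theoremA [IsAlgClosed k] (e : ℕ) : ∀ (X : Obj k) (d : ℕ) (g : Fam X) (q0 r : ℚ),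
    (∀ j, d < j → g j = 0) → Crit X d g q0 r e → GoodSt X d g r := by
  induction e using Nat.strong_induction_on with
  | _ e ih =>
    intro X d g q0 r hd hC
    obtain ⟨e, rfl⟩ : ∃ e', e = e' + 1 := ⟨e - 1, by have := hC.one_le; omega⟩
    by_cases hD : Drop X d g r (e + 1)
    · obtain ⟨X', f, w, hw, h0 | ⟨q', r', e', hr', he', hC'⟩⟩ := hD
      · intro B
        exact ⟨X', f, w, hw, by rw [h0]; exact Submodule.zero_mem _⟩
      · intro B
        obtain ⟨X'', f', z', hz', h⟩ := ih e' he' X' d (f.st d w g) q' r'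
          (fun j hj => f.st_gt d w g j hj) hC' B
        refine ⟨X'', f'.comp f, f'.φ w + z', ?_, ?_⟩
        · exact Submodule.add_mem _ ((f'.F_iff _ _).2 hw) (F_mono (by linarith) hz')
        · rw [← f'.st_st f d w z' g 0 (Nat.zero_le _)]
          exact h
    · obtain ⟨c⟩ := exists_chain hC hD hd
      exact c.run

end C74
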