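import Pool.Agent.MP_35f30a_al.C74.DV2
import Pool.Agent.MP_35f30a_al.C74.MC5
import Pool.Agent.MP_35f30a_al.C74.FN1
import Pool.Agent.MP_35f30a_al.C74.FN2

/-!
Homomorphisms to division rings, part 3: the theorem over an arbitrary field.
-/

set_option autoImplicit false

open scoped TensorProduct Polynomial

namespace C74

/-- approximate roots -/
theorem approx_root {k : Type} [Field k] [IsAlgClosed k] (V : Type) [Finite V]
    (f : FreeAlgebra k V) (hf : f ∉ Set.range (algebraMap k (FreeAlgebra k V)))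
    (hc : FreeAlgebra.lift k (fun _ : V => (0 : k)) f ≠ 0) (B : ℕ) :
    ∃ (X : Obj k) (y : V → X.D), (∀ v, y v ∈ X.F 1) ∧
      FreeAlgebra.lift k y f ∈ X.F (-(B : ℚ)) := by
  obtain ⟨X, x, b, hL, hx, hb⟩ := exists_init k
  obtain ⟨e, he⟩ : ∃ e : V → ℕ, Function.Injective e :=
    ⟨_, (Finite.equivFin V).injective |> Fin.val_injective.comp⟩
  obtain ⟨d, g, c, hd, hgt, hg0, hfc, hlev, hgd, hval⟩ := exists_fam X hL V (x ∘ e) (b ∘ e)
    (fun v => hx _) (hb.comp _ he) f hf
  have hc0 : c ≠ 0 := by rw [← hfc]; exact hc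
  have hFT : ∀ (j : ℕ) (n : ℤ), X.FT j (n : ℚ) = kF k X.A j n := by
    intro j n
    unfold Obj.FT
    rw [hL, Nat.cast_one, one_mul, Int.floor_intCast]
  have hx0 : ∀ (j : ℕ) (T : TP k X.D j), T ∈ kF k X.A j 0 → T ∉ kF k X.A j (-1) → X.FTx 0 T := by
    intro j T h1 h2
    rw [FTx_iff]
    exact ⟨0, by simp, h1, by simpa using h2⟩
  have hcrit : Crit X d g 0 0 d := by
    refine ⟨hd, le_rfl, ?_, ?_, ?_, ?_⟩
    · apply hx0 _ _ (hlev 0)
      rw [hg0]
      intro h
      have h1 : (algebraMap k X.D c : X.D) ∈ Fr.lev k X.A (-1) := h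
      rw [Algebra.algebraMap_eq_smul_one] at h1
      have h2 : (1 : X.D) ∈ Fr.lev k X.A (-1) := by
        have := Submodule.smul_mem (Fr.lev k X.A (-1)) c⁻¹ h1
        rwa [smul_smul, inv_mul_cancel₀ hc0, one_smul] at this
      apply one_not_mem_F X (q := -1) (by norm_num)
      show (1 : X.D) ∈ Fr.lev k X.A ⌊(X.L : ℚ) * (-1)⌋
      rw [hL]
      have : ⌊((1 : ℕ) : ℚ) * (-1)⌋ = -1 := by norm_num
      rw [this]; exact h2
    · intro j _ _
      have := hlev j
      have h2 := hFT j 0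
      simp only [mul_zero, sub_zero]
      rw [Int.cast_zero] at h2
      rw [h2]; exact this
    · simp only [mul_zero, sub_zero]
      exact hx0 _ _ (hlev d) hgd
    · intro j h1 h2; omega
  obtain ⟨X', h, z, hz, hz'⟩ := theoremA d X d g 0 0 hgt hcrit (B : ℚ)
  rw [zero_add] at hz
  refine ⟨X', fun v => h.φ (x (e v)) * z, fun v => ?_, ?_⟩
  · have h1 : h.φ (x (e v)) ∈ X'.F 0 := by
      rw [Ext.F_iff]
      obtain ⟨a, ha, _⟩ := hx (e v)
      show x (e v) ∈ Fr.lev k X.A ⌊(X.L : ℚ) * 0⌋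
      rw [mul_zero, Int.floor_zero]
      exact ⟨a, ha⟩
    have := F_mul h1 hz
    rwa [zero_add] at this
  · have h1 := hval X' h z
    have h2 : FreeAlgebra.lift k (fun v => h.φ (x (e v)) * z) f = TP.toA (h.st d z g 0) := h1.symm
    rw [h2]
    exact (mem_F_iff (X := X')).mpr hz'

/-- `P'(k, V, f)`: `f` is killed by a homomorphism to a division ring -/
def Killed (k V : Type) [Field k] (f : FreeAlgebra k V) : Prop :=
  ∃ (D : Type) (_ : DivisionRing D) (_ : Algebra k D) (φ : FreeAlgebra k V →ₐ[k] D), φ f = 0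

theorem killed_finite (k : Type) [Field k] [IsAlgClosed k] (V : Type) [Finite V]
    (f : FreeAlgebra k V) (hf : f ∉ Set.range (algebraMap k (FreeAlgebra k V))) :
    Killed k V f := by
  by_cases hc : FreeAlgebra.lift k (fun _ : V => (0 : k)) f = 0
  · exact ⟨k, inferInstance, inferInstance, _, hc⟩
  · choose X y hy hyf using approx_root V f hf hc
    exact exists_divisionRing X (fun v B => y B v) (fun v B => hy B v) f hyf

end C74
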