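import Mathlib

/-!
ROW FN4.  Reductions: letters, algebraic closure, ideals.  Blueprint section 7.

`red_letters`: `f` and all words occurring in `f` use a finite set `V0 ⊆ V` of letters: `f` is the image of `f0` under
`FreeAlgebra k V0 → FreeAlgebra k V`; the retraction `p : FreeAlgebra k V → FreeAlgebra k V0` (other letters `↦ 0`) maps `f` to `f0`, `1` to `1`;
`f0` is not a scalar because `f` is not.
`red_closure`: `ι : FreeAlgebra k V → FreeAlgebra K V` (`K := AlgebraicClosure k`), ring hom; `ι f` is not a scalar: in terms of the basis of words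
(`FreeAlgebra.equivMonoidAlgebraFreeMonoid`) some nonempty word has a nonzero coefficient.
`span_ne_top`: if `span {f} = ⊤` then `1 ∈ span {f}`, so `1 = Σ u_i f v_i` (`TwoSidedIdeal.mem_span_iff...`: the set of such finite sums is a
two-sided ideal containing `f`).
-/

set_option autoImplicit false

namespace C74

/-- the statement `P(k, V, f)`: no relation `Σ u_i f v_i = 1` -/
def NoRel (k V : Type) [Field k] (f : FreeAlgebra k V) : Prop :=
  ∀ (n : ℕ) (u v : Fin n → FreeAlgebra k V), ∑ i, u i * f * v i ≠ 1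

open Classical in
/-- the retraction onto the letters in `s` -/
noncomputable def FN4_retr (k : Type) [Field k] (V : Type) (s : Finset V) :
    FreeAlgebra k V →ₐ[k] FreeAlgebra k {x // x ∈ s} :=
  FreeAlgebra.lift k (fun v => if h : v ∈ s then FreeAlgebra.ι k ⟨v, h⟩ else 0)

noncomputable def FN4_incl (k : Type) [Field k] (V : Type) (s : Finset V) :
    FreeAlgebra k {x // x ∈ s} →ₐ[k] FreeAlgebra k V :=
  FreeAlgebra.lift k (fun v => FreeAlgebra.ι k (v : V))

noncomputable def FN4_incl2 (k : Type) [Field k] (V : Type) {s t : Finset V} (h : s ⊆ t) :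
    FreeAlgebra k {x // x ∈ s} →ₐ[k] FreeAlgebra k {x // x ∈ t} :=
  FreeAlgebra.lift k (fun v => FreeAlgebra.ι k ⟨(v : V), h v.2⟩)

theorem FN4_incl_incl2 (k : Type) [Field k] (V : Type) {s t : Finset V} (h : s ⊆ t)
    (x : FreeAlgebra k {x // x ∈ s}) : FN4_incl k V t (FN4_incl2 k V h x) = FN4_incl k V s x := by
  have h1 : (FN4_incl k V t).comp (FN4_incl2 k V h) = FN4_incl k V s := by
    apply FreeAlgebra.hom_ext
    funext v
    simp [FN4_incl, FN4_incl2, FreeAlgebra.lift_ι_apply]
  exact DFunLike.congr_fun h1 x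

theorem FN4_retr_incl (k : Type) [Field k] (V : Type) (s : Finset V)
    (x : FreeAlgebra k {x // x ∈ s}) : FN4_retr k V s (FN4_incl k V s x) = x := by
  have h1 : (FN4_retr k V s).comp (FN4_incl k V s) = AlgHom.id k _ := by
    apply FreeAlgebra.hom_ext
    funext v
    simp [FN4_incl, FN4_retr, FreeAlgebra.lift_ι_apply]
  exact DFunLike.congr_fun h1 x

theorem FN4_exists (k : Type) [Field k] (V : Type) (f : FreeAlgebra k V) :
    ∃ (s : Finset V) (f0 : FreeAlgebra k {x // x ∈ s}), FN4_incl k V s f0 = f := by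
  classical
  have hcomb : ∀ a b : FreeAlgebra k V,
      (∃ (s : Finset V) (f0 : FreeAlgebra k {x // x ∈ s}), FN4_incl k V s f0 = a) →
      (∃ (s : Finset V) (f0 : FreeAlgebra k {x // x ∈ s}), FN4_incl k V s f0 = b) →
      ∃ (s : Finset V) (a0 b0 : FreeAlgebra k {x // x ∈ s}), FN4_incl k V s a0 = a ∧
        FN4_incl k V s b0 = b := by
    rintro a b ⟨s, a0, ha⟩ ⟨t, b0, hb⟩
    exact ⟨s ∪ t, FN4_incl2 k V Finset.subset_union_left a0,
      FN4_incl2 k V Finset.subset_union_right b0,
      by rw [FN4_incl_incl2, ha], by rw [FN4_incl_incl2, hb]⟩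
  induction f using FreeAlgebra.induction with
  | grade0 r => exact ⟨∅, algebraMap k _ r, by rw [AlgHom.commutes]⟩
  | grade1 x =>
    exact ⟨{x}, FreeAlgebra.ι k ⟨x, Finset.mem_singleton_self x⟩, by
      simp [FN4_incl, FreeAlgebra.lift_ι_apply]⟩
  | mul a b ha hb =>
    obtain ⟨s, a0, b0, h1, h2⟩ := hcomb a b ha hb
    exact ⟨s, a0 * b0, by rw [map_mul, h1, h2]⟩
  | add a b ha hb =>
    obtain ⟨s, a0, b0, h1, h2⟩ := hcomb a b ha hb
    exact ⟨s, a0 + b0, by rw [map_add, h1, h2]⟩

theorem red_letters (k : Type) [Field k]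
    (h : ∀ (V0 : Type) [Finite V0] (f : FreeAlgebra k V0),
      f ∉ Set.range (algebraMap k (FreeAlgebra k V0)) → NoRel k V0 f)
    (V : Type) (f : FreeAlgebra k V) (hf : f ∉ Set.range (algebraMap k (FreeAlgebra k V))) :
    NoRel k V f := by
  obtain ⟨s, f0, hf0⟩ := FN4_exists k V f
  have hr : FN4_retr k V s f = f0 := by rw [← hf0, FN4_retr_incl]
  have hns : f0 ∉ Set.range (algebraMap k (FreeAlgebra k {x // x ∈ s})) := by
    rintro ⟨c, hc⟩
    apply hf
    exact ⟨c, by rw [← hf0, ← hc, AlgHom.commutes]⟩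
  intro n u v huv
  have h1 := congrArg (FN4_retr k V s) huv
  rw [map_sum, map_one] at h1
  simp only [map_mul, hr] at h1
  exact h {x // x ∈ s} f0 hns n (fun i => FN4_retr k V s (u i)) (fun i => FN4_retr k V s (v i)) h1

/-- extension of scalars -/
noncomputable def FN4_ext (k K V : Type) [Field k] [Field K] [Algebra k K] :
    FreeAlgebra k V →ₐ[k] FreeAlgebra K V :=
  FreeAlgebra.lift k (fun v => FreeAlgebra.ι K v)

theorem FN4_equiv (k K V : Type) [Field k] [Field K] [Algebra k K] (f : FreeAlgebra k V) :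
    FreeAlgebra.equivMonoidAlgebraFreeMonoid (FN4_ext k K V f) =
      MonoidAlgebra.mapRingHom (FreeMonoid V) (algebraMap k K)
        (FreeAlgebra.equivMonoidAlgebraFreeMonoid f) := by
  induction f using FreeAlgebra.induction with
  | grade0 r =>
    rw [AlgHom.commutes, AlgEquiv.commutes, IsScalarTower.algebraMap_apply k K (FreeAlgebra K V),
      AlgEquiv.commutes]
    simp
  | grade1 x =>
    simp [FN4_ext, FreeAlgebra.lift_ι_apply, FreeAlgebra.equivMonoidAlgebraFreeMonoid]
  | mul a b ha hb => rw [map_mul, map_mul, map_mul, map_mul, ha, hb]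
  | add a b ha hb => rw [map_add, map_add, map_add, map_add, ha, hb]

theorem red_closure
    (h : ∀ (K : Type) [Field K] [IsAlgClosed K] (V : Type) (f : FreeAlgebra K V),
      f ∉ Set.range (algebraMap K (FreeAlgebra K V)) → NoRel K V f)
    (k : Type) [Field k] (V : Type) (f : FreeAlgebra k V)
    (hf : f ∉ Set.range (algebraMap k (FreeAlgebra k V))) : NoRel k V f := by
  classical
  have hw : ∃ w : FreeMonoid V, w ≠ 1 ∧
      (FreeAlgebra.equivMonoidAlgebraFreeMonoid f).coeff w ≠ 0 := by
    by_contra hcon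
    push Not at hcon
    apply hf
    refine ⟨(FreeAlgebra.equivMonoidAlgebraFreeMonoid f).coeff 1, ?_⟩
    apply (FreeAlgebra.equivMonoidAlgebraFreeMonoid (R := k) (X := V)).injective
    rw [AlgEquiv.commutes]
    ext w
    rcases eq_or_ne w 1 with rfl | hw1
    · simp
    · rw [hcon w hw1]
      simp [hw1.symm]
  obtain ⟨w, hw1, hw2⟩ := hw
  have hns : FN4_ext k (AlgebraicClosure k) V f ∉
      Set.range (algebraMap (AlgebraicClosure k) (FreeAlgebra (AlgebraicClosure k) V)) := by
    rintro ⟨c, hc⟩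
    have h1 := FN4_equiv k (AlgebraicClosure k) V f
    rw [← hc, AlgEquiv.commutes] at h1
    have h2 := congrArg (fun x => MonoidAlgebra.coeff x w) h1
    simp only [MonoidAlgebra.coeff_mapRingHom] at h2
    have h3 : (algebraMap (AlgebraicClosure k) (MonoidAlgebra (AlgebraicClosure k) (FreeMonoid V))
        c).coeff w = 0 := by
      simp [hw1.symm]
    rw [h3] at h2
    exact hw2 ((map_eq_zero (algebraMap k (AlgebraicClosure k))).1 h2.symm)
  intro n u v huv
  have h1 := congrArg (FN4_ext k (AlgebraicClosure k) V) huv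
  rw [map_sum, map_one] at h1
  simp only [map_mul] at h1
  exact h (AlgebraicClosure k) V _ hns n _ _ h1

open scoped Pointwise in
theorem span_ne_top (k : Type) [Field k] (V : Type) (f : FreeAlgebra k V) (h : NoRel k V f) :
    TwoSidedIdeal.span ({f} : Set (FreeAlgebra k V)) ≠ ⊤ := by
  intro htop
  have h1 : (1 : FreeAlgebra k V) ∈ TwoSidedIdeal.span ({f} : Set (FreeAlgebra k V)) := by
    rw [htop]; exact TwoSidedIdeal.mem_top _
  rw [TwoSidedIdeal.mem_span_iff_mem_addSubgroup_closure] at h1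
  have key : ∀ x : FreeAlgebra k V, x ∈ AddSubgroup.closure
      (((Set.univ : Set (FreeAlgebra k V)) * ({f} : Set (FreeAlgebra k V))) *
        (Set.univ : Set (FreeAlgebra k V))) →
      ∃ (n : ℕ) (u v : Fin n → FreeAlgebra k V), ∑ i, u i * f * v i = x := by
    intro x hx
    induction hx using AddSubgroup.closure_induction with
    | mem x hx =>
      obtain ⟨_, ⟨a, _, _, rfl, rfl⟩, b, _, rfl⟩ := hx
      exact ⟨1, fun _ => a, fun _ => b, by simp⟩
    | zero => exact ⟨0, Fin.elim0, Fin.elim0, by simp⟩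
    | add x y _ _ hx hy =>
      obtain ⟨n, u, v, rfl⟩ := hx
      obtain ⟨m, u', v', rfl⟩ := hy
      refine ⟨n + m, Fin.append u u', Fin.append v v', ?_⟩
      rw [Fin.sum_univ_add]
      simp only [Fin.append_left, Fin.append_right]
    | neg x _ hx =>
      obtain ⟨n, u, v, rfl⟩ := hx
      refine ⟨n, fun i => -u i, v, ?_⟩
      simp [neg_mul]
  obtain ⟨n, u, v, huv⟩ := key 1 h1
  exact h n u v huv

end C74
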