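import Pool.Agent.MP_35f30a_al.C74.DV3
import Pool.Agent.MP_35f30a_al.C74.FN4

/-!
Homomorphisms to division rings, part 4: arbitrary fields and arbitrary sets of letters.
-/

set_option autoImplicit false

open scoped TensorProduct Polynomial

namespace C74

theorem nonscalar_ext (k : Type) [Field k] (V : Type) (f : FreeAlgebra k V)
    (hf : f ∉ Set.range (algebraMap k (FreeAlgebra k V))) :
    FN4_ext k (AlgebraicClosure k) V f ∉
      Set.range (algebraMap (AlgebraicClosure k) (FreeAlgebra (AlgebraicClosure k) V)) := by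
  classical
  have hw : ∃ w : FreeMonoid V, w ≠ 1 ∧
      (FreeAlgebra.equivMonoidAlgebraFreeMonoid f).coeff w ≠ 0 := by
    by_contra hcon
    push Not at hcon
    apply hf
    refine ⟨(FreeAlgebra.equivMonoidAlgebraFreeMonoid f).coeff 1, ?_⟩
    apply (FreeAlgebra.equivMonoidAlgebraFreeMonoid (R := k) (X := V)).injective
    rw [AlgEquiv.commutes]
    ext w
    rcases eq_or_ne w 1 with rfl | hw1
    · simp
    · rw [hcon w hw1]
      simp [hw1.symm]
  obtain ⟨w, hw1, hw2⟩ := hw
  rintro ⟨c, hc⟩
  have h1 := FN4_equiv k (AlgebraicClosure k) V f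
  rw [← hc, AlgEquiv.commutes] at h1
  have h2 := congrArg (fun x => MonoidAlgebra.coeff x w) h1
  simp only [MonoidAlgebra.coeff_mapRingHom] at h2
  have h3 : (algebraMap (AlgebraicClosure k) (MonoidAlgebra (AlgebraicClosure k) (FreeMonoid V))
      c).coeff w = 0 := by
    simp [hw1.symm]
  rw [h3] at h2
  exact hw2 ((map_eq_zero (algebraMap k (AlgebraicClosure k))).1 h2.symm)

theorem killed_closed (k : Type) [Field k] [IsAlgClosed k] (V : Type)
    (f : FreeAlgebra k V) (hf : f ∉ Set.range (algebraMap k (FreeAlgebra k V))) :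
    Killed k V f := by
  obtain ⟨s, f0, hf0⟩ := FN4_exists k V f
  have hr : FN4_retr k V s f = f0 := by rw [← hf0, FN4_retr_incl]
  have hns : f0 ∉ Set.range (algebraMap k (FreeAlgebra k {x // x ∈ s})) := by
    rintro ⟨c, hc⟩
    apply hf
    exact ⟨c, by rw [← hf0, ← hc, AlgHom.commutes]⟩
  obtain ⟨D, i1, i2, φ, hφ⟩ := killed_finite k _ f0 hns
  exact ⟨D, i1, i2, φ.comp (FN4_retr k V s), by rw [AlgHom.comp_apply, hr, hφ]⟩

/-- every non-scalar element of a free algebra over any field is killed by a homomorphism to a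
division ring -/
theorem killed (k : Type) [Field k] (V : Type) (f : FreeAlgebra k V)
    (hf : f ∉ Set.range (algebraMap k (FreeAlgebra k V))) :
    ∃ (D : Type) (_ : DivisionRing D) (_ : Algebra k D) (φ : FreeAlgebra k V →ₐ[k] D), φ f = 0 := by
  obtain ⟨D, i1, i2, φ, hφ⟩ := killed_closed (AlgebraicClosure k) V _ (nonscalar_ext k V f hf)
  letI : Algebra k D := Algebra.compHom D (algebraMap k (AlgebraicClosure k))
  haveI : IsScalarTower k (AlgebraicClosure k) D := ⟨fun a b d => by
    have h1 : a • b = algebraMap k (AlgebraicClosure k) a * b := Algebra.smul_def a b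
    have h2 : a • (b • d) = algebraMap k (AlgebraicClosure k) a • (b • d) := rfl
    rw [h1, h2, mul_smul]⟩
  exact ⟨D, i1, inferInstance, (φ.restrictScalars k).comp (FN4_ext k (AlgebraicClosure k) V), hφ⟩

end C74
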