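import Pool.Agent.MP_35f30a_al.C74.OR1
import Pool.Agent.MP_35f30a_al.C74.TPL3

/-!
ROW OR3.  Naturality and reflection of the orders.  Blueprint section 6.

`JJ_map`: induction on `j` (`map_del`, `map_cons`).
Linear algebra facts used for `JJ_reflect` (useful also elsewhere, so stated here):
* `exists_indep_glue`: every `s ∈ T_{j+2}(Γ)` is `Σ glue U_b y_b` with `y_b` `k`-linearly independent, and for such a
  representation `s ∈ Dm m (j+1)` iff all `U_b ∈ Dm m 0`  (apply `id ⊗ (functional dual to y_b)`; `Dm_eq_glue`).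
* every `s ∈ T_{j+1}` is `Σ cons a_l t_l` with `a_l` independent, and `s ∈ span {cons a u | u ∈ W}` iff all `t_l ∈ W`.
`JJ_reflect`, step `j+1`: `i ⊗ ... ⊗ i` maps an independent representation to an independent one (`map_injective_field`), so
`map s ∈ Dm' m j` iff `map U_b ∈ Dm' m 0` for all `b` iff (`h1`) `U_b ∈ Dm m 0`; and `map s ∈ span {cons a' u' | u' ∈ JJ' m j}` iff
`map t_l ∈ JJ' m j` iff (induction) `t_l ∈ JJ m j`.
-/

set_option autoImplicit false

open scoped TensorProduct Polynomial

namespace C74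

variable {k : Type} [Field k]

section LA

/-- a finite sum of values of a bilinear map has a representation with independent right factors -/
theorem OR3_right {M N P : Type} [AddCommGroup M] [Module k M] [AddCommGroup N] [Module k N]
    [AddCommGroup P] [Module k P] (B : M →ₗ[k] N →ₗ[k] P) {m : ℕ} (u : Fin m → M) (v : Fin m → N) :
    ∃ (n : ℕ) (u' : Fin n → M) (v' : Fin n → N), LinearIndependent k v' ∧
      ∑ i, B (u i) (v i) = ∑ l, B (u' l) (v' l) := by
  classical
  let V : Submodule k N := Submodule.span k (Set.range v)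
  haveI : Module.Finite k V := Module.Finite.span_of_finite k (Set.finite_range v)
  let b := Module.finBasis k V
  have hv : ∀ i, v i = ∑ l, (b.repr ⟨v i, Submodule.subset_span ⟨i, rfl⟩⟩ l) • ((b l : V) : N) := by
    intro i
    have h1 := b.sum_repr ⟨v i, Submodule.subset_span ⟨i, rfl⟩⟩
    have h2 := congrArg (fun x : V => (x : N)) h1
    simp only [Submodule.coe_sum, Submodule.coe_smul] at h2
    exact h2.symm
  refine ⟨Module.finrank k V,
    fun l => ∑ i, (b.repr ⟨v i, Submodule.subset_span ⟨i, rfl⟩⟩ l) • u i,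
    fun l => ((b l : V) : N), ?_, ?_⟩
  · exact b.linearIndependent.map' V.subtype (Submodule.ker_subtype V)
  · have h3 : ∀ i, B (u i) (v i) =
        ∑ l, (b.repr ⟨v i, Submodule.subset_span ⟨i, rfl⟩⟩ l) • B (u i) ((b l : V) : N) := by
      intro i
      conv_lhs => rw [hv i]
      rw [map_sum]
      exact Finset.sum_congr rfl fun l _ => map_smul _ _ _
    rw [Finset.sum_congr rfl fun i _ => h3 i, Finset.sum_comm]
    refine Finset.sum_congr rfl fun l _ => ?_
    rw [map_sum, LinearMap.sum_apply]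
    exact Finset.sum_congr rfl fun i _ => by rw [map_smul, LinearMap.smul_apply]

/-- dual functionals of a finite independent family -/
theorem OR3_dual {N : Type} [AddCommGroup N] [Module k N] {n : ℕ} (a : Fin n → N)
    (ha : LinearIndependent k a) : ∃ f : Fin n → (N →ₗ[k] k),
      ∀ l l', f l (a l') = if l = l' then 1 else 0 := by
  classical
  obtain ⟨g, hg⟩ := LinearMap.exists_leftInverse_of_injective
    (Finsupp.linearCombination k a) (LinearMap.ker_eq_bot.2 ha)
  refine ⟨fun l => (Finsupp.lapply l) ∘ₗ g, fun l l' => ?_⟩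
  have h1 := LinearMap.congr_fun hg (Finsupp.single l' 1)
  simp only [LinearMap.coe_comp, Function.comp_apply, Finsupp.linearCombination_single, one_smul,
    LinearMap.id_apply] at h1
  simp only [LinearMap.coe_comp, Function.comp_apply, Finsupp.lapply_apply]
  rw [h1, Finsupp.single_apply]
  simp only [eq_comm]

variable {Γ : Type} [Ring Γ] [Algebra k Γ]

/-- left peeling by a functional -/
noncomputable def OR3_peelL (f : Γ →ₗ[k] k) (j : ℕ) : TP k Γ (j + 1) →ₗ[k] TP k Γ j :=
  TP.lift (LinearMap.mk₂ k (fun a t => f a • t)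
    (fun a a' t => by rw [map_add, add_smul])
    (fun r a t => by rw [map_smul, smul_assoc])
    (fun a t t' => by rw [smul_add])
    (fun r a t => by rw [smul_comm]))

theorem OR3_peelL_cons (f : Γ →ₗ[k] k) (j : ℕ) (a : Γ) (t : TP k Γ j) :
    OR3_peelL f j (TP.cons a t) = f a • t := TP.lift_cons _ _ _

/-- right peeling by a functional, first step -/
noncomputable def OR3_peelR0 {j : ℕ} (f : TP k Γ j →ₗ[k] k) : TP k Γ (j + 1) →ₗ[k] TP k Γ 0 :=
  TP.lift (LinearMap.mk₂ k (fun c y => f y • (TP.ofA c : TP k Γ 0))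
    (fun a a' t => by rw [map_add, smul_add])
    (fun r a t => by rw [← TP.smulR_ofA, smul_comm])
    (fun a t t' => by rw [map_add, add_smul])
    (fun r a t => by rw [map_smul, smul_assoc]))

theorem OR3_peelR0_cons {j : ℕ} (f : TP k Γ j →ₗ[k] k) (c : Γ) (y : TP k Γ j) :
    OR3_peelR0 f (TP.cons c y) = f y • (TP.ofA c : TP k Γ 0) := TP.lift_cons _ _ _

/-- right peeling by a functional -/
noncomputable def OR3_peelR {j : ℕ} (f : TP k Γ j →ₗ[k] k) : TP k Γ (j + 2) →ₗ[k] TP k Γ 1 :=
  TP.lift (LinearMap.mk₂ k (fun a t => TP.cons a (OR3_peelR0 f t))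
    (fun a a' t => by rw [TP.add_cons])
    (fun r a t => by rw [TP.smulR_cons])
    (fun a t t' => by rw [map_add, TP.cons_add])
    (fun r a t => by rw [map_smul, TP.cons_smulR]))

theorem OR3_peelR_cons {j : ℕ} (f : TP k Γ j →ₗ[k] k) (a : Γ) (t : TP k Γ (j + 1)) :
    OR3_peelR f (TP.cons a t) = TP.cons a (OR3_peelR0 f t) := TP.lift_cons _ _ _

theorem OR3_peelR_glue {j : ℕ} (f : TP k Γ j →ₗ[k] k) (U : TP k Γ 1) (y : TP k Γ j) :
    OR3_peelR f (glue j U y) = f y • U := by
  induction U using TP.succ_induction with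
  | h0 => rw [map_zero, LinearMap.zero_apply, map_zero, smul_zero]
  | hc a t =>
    obtain ⟨c, hc⟩ : ∃ c : Γ, t = TP.ofA c := ⟨TP.toA t, rfl⟩
    rw [hc, glue_cons, OR3_peelR_cons, OR3_peelR0_cons, TP.cons_smulR]
  | ha x z hx hz => rw [map_add, LinearMap.add_apply, map_add, smul_add, hx, hz]

/-- representation with independent right factors -/
theorem exists_glue (j : ℕ) (s : TP k Γ (j + 2)) : ∃ (n : ℕ) (U : Fin n → TP k Γ 1)
    (y : Fin n → TP k Γ j), LinearIndependent k y ∧ s = ∑ b, glue j (U b) (y b) := by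
  have key : ∃ (m : ℕ) (U : Fin m → TP k Γ 1) (y : Fin m → TP k Γ j),
      s = ∑ b, glue j (U b) (y b) := by
    have hadd : ∀ x z : TP k Γ (j + 2), (∃ (m : ℕ) (U : Fin m → TP k Γ 1) (y : Fin m → TP k Γ j),
        x = ∑ b, glue j (U b) (y b)) → (∃ (m : ℕ) (U : Fin m → TP k Γ 1) (y : Fin m → TP k Γ j),
        z = ∑ b, glue j (U b) (y b)) → ∃ (m : ℕ) (U : Fin m → TP k Γ 1) (y : Fin m → TP k Γ j),
        x + z = ∑ b, glue j (U b) (y b) := by
      rintro _ _ ⟨m, U, y, rfl⟩ ⟨m', U', y', rfl⟩
      refine ⟨m + m', Fin.append U U', Fin.append y y', ?_⟩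
      rw [Fin.sum_univ_add]
      simp only [Fin.append_left, Fin.append_right]
    induction s using TP.succ_induction with
    | h0 => exact ⟨0, Fin.elim0, Fin.elim0, by simp⟩
    | hc a t =>
      induction t using TP.succ_induction with
      | h0 => rw [TP.cons_zero]; exact ⟨0, Fin.elim0, Fin.elim0, by simp⟩
      | hc b y =>
        exact ⟨1, fun _ => TP.cons a (TP.ofA b), fun _ => y, by
          rw [Fin.sum_univ_one, glue_cons]⟩
      | ha x z hx hz => rw [TP.cons_add]; exact hadd _ _ hx hz
    | ha x z hx hz => exact hadd _ _ hx hz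
  obtain ⟨m, U, y, rfl⟩ := key
  exact OR3_right (glue j) U y

/-- representation with independent left factors -/
theorem exists_cons (j : ℕ) (s : TP k Γ (j + 1)) : ∃ (n : ℕ) (a : Fin n → Γ)
    (t : Fin n → TP k Γ j), LinearIndependent k a ∧ s = ∑ l, TP.cons (a l) (t l) := by
  have key : ∃ (m : ℕ) (a : Fin m → Γ) (t : Fin m → TP k Γ j),
      s = ∑ l, TP.cons (a l) (t l) := by
    induction s using TP.succ_induction with
    | h0 => exact ⟨0, Fin.elim0, Fin.elim0, by simp⟩
    | hc a t => exact ⟨1, fun _ => a, fun _ => t, by rw [Fin.sum_univ_one]⟩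
    | ha x z hx hz =>
      obtain ⟨m, U, y, rfl⟩ := hx
      obtain ⟨m', U', y', rfl⟩ := hz
      refine ⟨m + m', Fin.append U U', Fin.append y y', ?_⟩
      rw [Fin.sum_univ_add]
      simp only [Fin.append_left, Fin.append_right]
  obtain ⟨m, a, t, rfl⟩ := key
  obtain ⟨n, t', a', h1, h2⟩ := OR3_right (TP.consL (R := k) (A := Γ) j).flip t a
  exact ⟨n, a', t', h1, h2⟩

theorem cons_mem_iff (j : ℕ) {n : ℕ} (a : Fin n → Γ) (ha : LinearIndependent k a)
    (t : Fin n → TP k Γ j) (W : Submodule k (TP k Γ j)) :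
    ∑ l, TP.cons (a l) (t l) ∈ Submodule.span k {z | ∃ (a : Γ) (u : TP k Γ j), u ∈ W ∧ z = TP.cons a u} ↔
      ∀ l, t l ∈ W := by
  constructor
  · intro h l
    obtain ⟨f, hf⟩ := OR3_dual a ha
    have h1 : ∀ x ∈ Submodule.span k
        {z | ∃ (a : Γ) (u : TP k Γ j), u ∈ W ∧ z = TP.cons a u}, OR3_peelL (f l) j x ∈ W := by
      intro x hx
      induction hx using Submodule.span_induction with
      | mem x hx =>
        obtain ⟨c, u, hu, rfl⟩ := hx
        rw [OR3_peelL_cons]
        exact W.smul_mem _ hu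
      | zero => rw [map_zero]; exact zero_mem _
      | add x y _ _ hx hy => rw [map_add]; exact add_mem hx hy
      | smul c x _ hx => rw [map_smul]; exact W.smul_mem c hx
    have h2 := h1 _ h
    rw [map_sum, Finset.sum_eq_single l] at h2
    · rwa [OR3_peelL_cons, hf, if_pos rfl, one_smul] at h2
    · intro l' _ hl'
      rw [OR3_peelL_cons, hf, if_neg (fun h => hl' h.symm), zero_smul]
    · intro h3
      exact absurd (Finset.mem_univ l) h3
  · intro h
    exact Submodule.sum_mem _ fun l _ => Submodule.subset_span ⟨a l, t l, h l, rfl⟩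

theorem glue_mem_iff (j : ℕ) {n : ℕ} (U : Fin n → TP k Γ 1) (y : Fin n → TP k Γ j)
    (hy : LinearIndependent k y) (W : Submodule k (TP k Γ 1)) :
    ∑ b, glue j (U b) (y b) ∈ Submodule.span k {z | ∃ U ∈ W, ∃ y : TP k Γ j, z = glue j U y} ↔
      ∀ b, U b ∈ W := by
  constructor
  · intro h l
    obtain ⟨f, hf⟩ := OR3_dual y hy
    have h1 : ∀ x ∈ Submodule.span k
        {z | ∃ U ∈ W, ∃ y : TP k Γ j, z = glue j U y}, OR3_peelR (f l) x ∈ W := by
      intro x hx
      induction hx using Submodule.span_induction with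
      | mem x hx =>
        obtain ⟨V, hV, u, rfl⟩ := hx
        rw [OR3_peelR_glue]
        exact W.smul_mem _ hV
      | zero => rw [map_zero]; exact zero_mem _
      | add x y _ _ hx hy => rw [map_add]; exact add_mem hx hy
      | smul c x _ hx => rw [map_smul]; exact W.smul_mem c hx
    have h2 := h1 _ h
    rw [map_sum, Finset.sum_eq_single l] at h2
    · rwa [OR3_peelR_glue, hf, if_pos rfl, one_smul] at h2
    · intro l' _ hl'
      rw [OR3_peelR_glue, hf, if_neg (fun h => hl' h.symm), zero_smul]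
    · intro h3
      exact absurd (Finset.mem_univ l) h3
  · intro h
    exact Submodule.sum_mem _ fun l _ => Submodule.subset_span ⟨U l, h l, y l, rfl⟩

/-- a vanishing combination with independent left factors -/
theorem cons_eq_zero (j : ℕ) {n : ℕ} (a : Fin n → Γ) (ha : LinearIndependent k a)
    (t : Fin n → TP k Γ j) (h : ∑ l, TP.cons (a l) (t l) = 0) (l : Fin n) : t l = 0 := by
  have h1 := (cons_mem_iff j a ha t ⊥).1 (by rw [h]; exact zero_mem _) l
  exact (Submodule.mem_bot k).1 h1

end LA

section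
variable {Γ : Type} [Field Γ] [Algebra k Γ]

theorem OR3_Dm_map {Γ' : Type} [Field Γ'] [Algebra k Γ'] (i : Γ →+* Γ')
    (hi : ∀ r, i (algebraMap k Γ r) = algebraMap k Γ' ((RingHom.id k) r)) {m j : ℕ}
    {s : TP k Γ (j + 1)} (h : s ∈ Dm k Γ m j) :
    TP.map (RingHom.id k) i hi (j + 1) s ∈ Dm k Γ' m j := by
  induction m generalizing s with
  | zero => rw [Dm]; trivial
  | succ m ih =>
    rw [Dm] at h
    induction h using Submodule.span_induction with
    | mem x hx =>
      obtain ⟨b, y, hy, rfl⟩ := hx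
      rw [TP.map_del]
      exact OR1_del_mem _ (ih hy)
    | zero => rw [map_zero]; exact zero_mem _
    | add x y _ _ hx hy => rw [map_add]; exact add_mem hx hy
    | smul c x _ hx => rw [map_smul]; exact Submodule.smul_mem _ c hx

theorem OR3_map_glue {Γ' : Type} [Field Γ'] [Algebra k Γ'] (i : Γ →+* Γ')
    (hi : ∀ r, i (algebraMap k Γ r) = algebraMap k Γ' ((RingHom.id k) r)) {j : ℕ}
    (U : TP k Γ 1) (y : TP k Γ j) :
    TP.map (RingHom.id k) i hi (j + 2) (glue j U y) =
      glue j (TP.map (RingHom.id k) i hi 1 U) (TP.map (RingHom.id k) i hi j y) := by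
  induction U using TP.succ_induction with
  | h0 => simp only [map_zero, LinearMap.zero_apply]
  | hc a t =>
    obtain ⟨c, hc⟩ : ∃ c : Γ, t = TP.ofA c := ⟨TP.toA t, rfl⟩
    rw [hc, glue_cons, TP.map_cons, TP.map_cons, TP.map_cons, TP.map_zero_apply, TP.toA_ofA,
      glue_cons]
  | ha x z hx hz =>
    rw [map_add, LinearMap.add_apply, map_add, map_add, map_add, LinearMap.add_apply, hx, hz]

/-- naturality of the orders -/
theorem JJ_map {Γ' : Type} [Field Γ'] [Algebra k Γ'] (i : Γ →+* Γ')
    (hi : ∀ r, i (algebraMap k Γ r) = algebraMap k Γ' ((RingHom.id k) r)) {m j : ℕ}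
    {s : TP k Γ j} (h : s ∈ JJ k Γ m j) : TP.map (RingHom.id k) i hi j s ∈ JJ k Γ' m j := by
  induction j with
  | zero => rw [JJ]; trivial
  | succ j ih =>
    rw [JJ] at h ⊢
    refine ⟨OR3_Dm_map i hi h.1, ?_⟩
    have h2 := h.2
    simp only [SetLike.mem_coe] at h2 ⊢
    clear h
    induction h2 using Submodule.span_induction with
    | mem x hx =>
      obtain ⟨c, u, hu, rfl⟩ := hx
      rw [TP.map_cons]
      exact Submodule.subset_span ⟨i c, _, ih hu, rfl⟩
    | zero => rw [map_zero]; exact zero_mem _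
    | add x y _ _ hx hy => rw [map_add]; exact add_mem hx hy
    | smul c x _ hx => rw [map_smul]; exact Submodule.smul_mem _ c hx

/-- if `i : Γ → Γ'` reflects the orders on `T_1` then it reflects them on all `T_j` -/
theorem JJ_reflect {Γ' : Type} [Field Γ'] [Algebra k Γ'] (i : Γ →+* Γ')
    (hi : ∀ r, i (algebraMap k Γ r) = algebraMap k Γ' ((RingHom.id k) r))
    (h1 : ∀ (m : ℕ) (s : TP k Γ 1), TP.map (RingHom.id k) i hi 1 s ∈ Dm k Γ' m 0 →
      s ∈ Dm k Γ m 0) {m j : ℕ} {s : TP k Γ j}
    (h : TP.map (RingHom.id k) i hi j s ∈ JJ k Γ' m j) : s ∈ JJ k Γ m j := by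
  induction j with
  | zero => rw [JJ]; trivial
  | succ j ih =>
    rw [JJ] at h ⊢
    refine ⟨?_, ?_⟩
    · have h2 := h.1
      simp only [SetLike.mem_coe] at h2 ⊢
      cases j with
      | zero => exact h1 m s h2
      | succ j =>
        obtain ⟨n, U, y, hy, rfl⟩ := exists_glue j s
        have hy' : LinearIndependent k (fun b => TP.map (RingHom.id k) i hi j (y b)) :=
          hy.map' (TP.map (RingHom.id k) i hi j)
            (LinearMap.ker_eq_bot.2 (TP.map_injective_field i hi i.injective j))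
        rw [map_sum, Dm_eq_glue] at h2
        simp only [OR3_map_glue] at h2
        have h3 := (glue_mem_iff j _ _ hy' _).1 h2
        rw [Dm_eq_glue]
        exact (glue_mem_iff j U y hy _).2 fun b => h1 m _ (h3 b)
    · have h2 := h.2
      simp only [SetLike.mem_coe] at h2 ⊢
      obtain ⟨n, a, t, ha, rfl⟩ := exists_cons j s
      let il : Γ →ₗ[k] Γ' :=
        { toFun := i
          map_add' := fun x y => map_add i x y
          map_smul' := fun r x => by
            rw [Algebra.smul_def, map_mul, hi, ← Algebra.smul_def] }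
      have ha' : LinearIndependent k (fun l => i (a l)) :=
        ha.map' il (LinearMap.ker_eq_bot.2 i.injective)
      rw [map_sum] at h2
      simp only [TP.map_cons] at h2
      have h3 := (cons_mem_iff j _ ha' _ _).1 h2
      exact (cons_mem_iff j a ha t _).2 fun l => ih (h3 l)

end

end C74
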