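import Mathlib

/-!
ROW ORTH.  Adapted (orthogonal) families in filtered vector spaces.  Blueprint section 1 (Tools).

`exists_orthF`: induction on `dim E`.  `E = 0`: empty family.  `E ≠ 0`: there is a least `n` with `E ≤ F n` (exhaustive and
finite dimensional; bounded below because some `d ∈ E` is not in all `F n`).  `E' := E ⊓ F (n-1) < E`, adapted basis of `E'`,
add a basis of a complement of `E'` in `E` with sizes `n`.
`OrthF.linearIndependent`: `Σ c_l e_l = 0 ∈ F m` for all `m`.
`OrthF.functional`: `e l ∉ F (sz l - 1) + span {e l' | l' ≠ l}` (else `e l - Σ c e_{l'} ∈ F (sz l - 1)`, so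
`sz l ≤ sz l - 1`); extend a functional from the quotient (`Submodule.exists_le_ker_of_notMem` or similar).
`finite_valuesF`: the sizes of nonzero elements of `E` are among the `sz l`.
-/

set_option autoImplicit false

namespace C74

/-- a family adapted to a filtration, `e l` of size `sz l` -/
def OrthF {k : Type} [Field k] {V : Type} [AddCommGroup V] [Module k V] (F : ℤ → Submodule k V)
    {n : ℕ} (e : Fin n → V) (sz : Fin n → ℤ) : Prop :=
  (∀ l, e l ∈ F (sz l)) ∧
    ∀ (c : Fin n → k) (m : ℤ), ∑ l, c l • e l ∈ F m → ∀ l, c l ≠ 0 → sz l ≤ m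

section
variable {k : Type} [Field k] {V : Type} [AddCommGroup V] [Module k V] {F : ℤ → Submodule k V}

lemma ORTH_exists_ge (hmono : ∀ m n, m ≤ n → F m ≤ F n) (hexh : ∀ x, ∃ n, x ∈ F n)
    (E : Submodule k V) (hE : Module.Finite k E) : ∃ n, E ≤ F n := by
  obtain ⟨s, hs⟩ := Module.Finite.iff_fg.1 hE
  classical
  have key : ∀ s : Finset V, ∃ n, ∀ x ∈ s, x ∈ F n := by
    intro s
    induction s using Finset.induction_on with
    | empty => exact ⟨0, by simp⟩
    | insert a s _ ih =>
      obtain ⟨n, hn⟩ := ih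
      obtain ⟨m, hm⟩ := hexh a
      refine ⟨max m n, fun x hx => ?_⟩
      rcases Finset.mem_insert.1 hx with rfl | hx
      · exact hmono _ _ (le_max_left _ _) hm
      · exact hmono _ _ (le_max_right _ _) (hn x hx)
  obtain ⟨n, hn⟩ := key s
  exact ⟨n, hs ▸ Submodule.span_le.2 hn⟩

theorem exists_orthF (hmono : ∀ m n, m ≤ n → F m ≤ F n) (hexh : ∀ x, ∃ n, x ∈ F n)
    (hsep : ∀ x, (∀ n, x ∈ F n) → x = 0) (E : Submodule k V) (hE : Module.Finite k E) :
    ∃ (n : ℕ) (e : Fin n → V) (sz : Fin n → ℤ), OrthF F e sz ∧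
      Submodule.span k (Set.range e) = E := by
  induction hd : Module.finrank k E using Nat.strong_induction_on generalizing E with
  | _ d ih =>
  by_cases h0 : E = ⊥
  · refine ⟨0, Fin.elim0, Fin.elim0, ⟨fun l => l.elim0, fun c m _ l => l.elim0⟩, ?_⟩
    rw [h0, Submodule.span_eq_bot]
    rintro x ⟨l, -⟩
    exact l.elim0
  obtain ⟨x, hxE, hx0⟩ := (Submodule.ne_bot_iff E).1 h0
  obtain ⟨n0, hn0⟩ : ∃ n, x ∉ F n := by
    by_contra hcon
    push Not at hcon
    exact hx0 (hsep x hcon)
  obtain ⟨N, hN, hNmin⟩ := Int.exists_least_of_bdd (P := fun n => E ≤ F n)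
    ⟨n0, fun n hn => by
      by_contra hlt
      exact hn0 (hmono _ _ (by omega) (hn hxE))⟩ (ORTH_exists_ge hmono hexh E hE)
  have hN1 : ¬ E ≤ F (N - 1) := fun h => by
    have := hNmin _ h
    omega
  have hlt : E ⊓ F (N - 1) < E := by
    refine lt_of_le_of_ne inf_le_left fun h => hN1 ?_
    rw [← h]; exact inf_le_right
  have hfin : Module.Finite k (E ⊓ F (N - 1) : Submodule k V) :=
    Submodule.finiteDimensional_of_le (S₂ := E) inf_le_left
  obtain ⟨n', e', sz', ⟨ho1, ho2⟩, hspan⟩ := ih _ (by
    rw [← hd]; exact Submodule.finrank_lt_finrank_of_lt hlt) (E ⊓ F (N - 1)) hfin rfl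
  -- complement
  obtain ⟨E2, hE2⟩ := Submodule.exists_isCompl ((E ⊓ F (N - 1)).comap E.subtype)
  have hfin2 : Module.Finite k E2 := inferInstance
  let b := Module.finBasis k E2
  let f : Fin (Module.finrank k E2) → V := fun i => ((b i : E) : V)
  have hfE : ∀ i, f i ∈ E := fun i => ((b i : E2) : E).2
  have he'E : ∀ l, e' l ∈ E ⊓ F (N - 1) := fun l => hspan ▸ Submodule.subset_span ⟨l, rfl⟩
  have hsz' : ∀ l, sz' l ≤ N - 1 := by
    intro l
    classical
    refine ho2 (Pi.single l 1) (N - 1) ?_ l (by simp)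
    have : ∑ l', (Pi.single l 1 : Fin n' → k) l' • e' l' = e' l := by
      rw [Finset.sum_eq_single l]
      · simp
      · intro b _ hb; simp [Pi.single_eq_of_ne hb]
      · simp
    rw [this]
    exact (he'E l).2
  refine ⟨n' + Module.finrank k E2, Fin.append e' f, Fin.append sz' (fun _ => N), ⟨?_, ?_⟩, ?_⟩
  · intro l
    refine Fin.addCases (fun i => ?_) (fun i => ?_) l
    · rw [Fin.append_left, Fin.append_left]; exact ho1 i
    · rw [Fin.append_right, Fin.append_right]; exact hN (hfE i)
  · intro c m hm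
    rw [Fin.sum_univ_add] at hm
    simp only [Fin.append_left, Fin.append_right] at hm
    by_cases hc : ∀ i, c (Fin.natAdd n' i) = 0
    · have : ∑ i, c (Fin.natAdd n' i) • f i = 0 := Finset.sum_eq_zero fun i _ => by rw [hc i, zero_smul]
      rw [this, add_zero] at hm
      intro l
      refine Fin.addCases (fun i => ?_) (fun i => ?_) l
      · intro hi
        rw [Fin.append_left]
        exact ho2 (fun i => c (Fin.castAdd _ i)) m hm i hi
      · intro hi; exact absurd (hc i) hi
    · have hNm : N ≤ m := by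
        by_contra hlt'
        apply hc
        have h1 : ∑ i, c (Fin.castAdd _ i) • e' i + ∑ i, c (Fin.natAdd n' i) • f i ∈
            E ⊓ F (N - 1) := by
          refine ⟨?_, hmono _ _ (by omega) hm⟩
          exact E.add_mem (Submodule.sum_mem _ fun i _ => E.smul_mem _ (he'E i).1)
            (Submodule.sum_mem _ fun i _ => E.smul_mem _ (hfE i))
        have h2 : ∑ i, c (Fin.castAdd _ i) • e' i ∈ E ⊓ F (N - 1) :=
          Submodule.sum_mem _ fun i _ => Submodule.smul_mem _ _ (he'E i)
        have h3 : ∑ i, c (Fin.natAdd n' i) • f i ∈ E ⊓ F (N - 1) := by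
          have := Submodule.sub_mem _ h1 h2
          rwa [add_sub_cancel_left] at this
        have h4 : ((∑ i, c (Fin.natAdd n' i) • b i : E2) : E) ∈
            (E ⊓ F (N - 1)).comap E.subtype := by
          rw [Submodule.mem_comap]
          convert h3
          simp [f]
        have h5 : ((∑ i, c (Fin.natAdd n' i) • b i : E2) : E) = 0 := by
          have := hE2.disjoint
          rw [Submodule.disjoint_def] at this
          exact this _ h4 (Subtype.mem _)
        have h6 : (∑ i, c (Fin.natAdd n' i) • b i : E2) = 0 := by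
          exact Subtype.ext h5
        exact Fintype.linearIndependent_iff.1 b.linearIndependent _ h6
      intro l _
      refine Fin.addCases (fun i => ?_) (fun i => ?_) l
      · rw [Fin.append_left]; have := hsz' i; omega
      · rw [Fin.append_right]; exact hNm
  · apply le_antisymm
    · rw [Submodule.span_le]
      rintro _ ⟨l, rfl⟩
      refine Fin.addCases (fun i => ?_) (fun i => ?_) l
      · rw [Fin.append_left]; exact (he'E i).1
      · rw [Fin.append_right]; exact hfE i
    · intro x hx
      have h1 : (⟨x, hx⟩ : E) ∈ (E ⊓ F (N - 1)).comap E.subtype ⊔ E2 := by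
        rw [hE2.sup_eq_top]; trivial
      obtain ⟨y, hy, z, hz, hyz⟩ := Submodule.mem_sup.1 h1
      have hx' : x = (y : V) + (z : V) := by
        have := congrArg (Subtype.val) hyz
        simpa using this.symm
      rw [hx']
      refine Submodule.add_mem _ ?_ ?_
      · have : (y : V) ∈ Submodule.span k (Set.range e') := by
          rw [hspan]; exact hy
        refine Submodule.span_mono ?_ this
        rintro _ ⟨i, rfl⟩
        exact ⟨Fin.castAdd _ i, by rw [Fin.append_left]⟩
      · have h2 : (⟨z, hz⟩ : E2) = ∑ i, b.repr ⟨z, hz⟩ i • b i := (b.sum_repr _).symm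
        have h3 : (z : V) = ∑ i, b.repr ⟨z, hz⟩ i • f i := by
          calc (z : V) = (E.subtype ∘ₗ E2.subtype) (⟨z, hz⟩ : E2) := rfl
            _ = (E.subtype ∘ₗ E2.subtype) (∑ i, b.repr ⟨z, hz⟩ i • b i) := by rw [← h2]
            _ = _ := by
              rw [map_sum]
              exact Finset.sum_congr rfl fun i _ => by rw [map_smul]; rfl
        rw [h3]
        refine Submodule.sum_mem _ fun i _ => Submodule.smul_mem _ _ (Submodule.subset_span ?_)
        exact ⟨Fin.natAdd _ i, by rw [Fin.append_right]⟩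

theorem OrthF.linearIndependent {n : ℕ} {e : Fin n → V} {sz : Fin n → ℤ} (h : OrthF F e sz) :
    LinearIndependent k e := by
  rw [Fintype.linearIndependent_iff]
  intro c hc l
  by_contra hl
  have := h.2 c (sz l - 1) (by rw [hc]; exact Submodule.zero_mem _) l hl
  omega

theorem OrthF.functional (hmono : ∀ m n, m ≤ n → F m ≤ F n) {n : ℕ} {e : Fin n → V}
    {sz : Fin n → ℤ} (h : OrthF F e sz) (l : Fin n) :
    ∃ ψ : V →ₗ[k] k, ψ (e l) = 1 ∧ (∀ l', l' ≠ l → ψ (e l') = 0) ∧
      ∀ x ∈ F (sz l - 1), ψ x = 0 := by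
  classical
  let W : Submodule k V := F (sz l - 1) ⊔ Submodule.span k (e '' {l' | l' ≠ l})
  have hW : e l ∉ W := by
    intro hl
    obtain ⟨x, hx, y, hy, hxy⟩ := Submodule.mem_sup.1 hl
    rw [Finsupp.mem_span_image_iff_linearCombination] at hy
    obtain ⟨c, hc, rfl⟩ := hy
    have hcl : c l = 0 := by
      by_contra hne
      have := (Finsupp.mem_supported k c).1 hc (Finsupp.mem_support_iff.2 hne)
      exact this rfl
    have h1 : ∑ l', ((Pi.single l 1 : Fin n → k) l' - c l') • e l' ∈ F (sz l - 1) := by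
      have h2 : ∑ l', ((Pi.single l 1 : Fin n → k) l' - c l') • e l' = x := by
        simp only [sub_smul, Finset.sum_sub_distrib]
        rw [Finset.sum_eq_single l (by intro b _ hb; simp [Pi.single_eq_of_ne hb]) (by simp)]
        rw [Pi.single_eq_same, one_smul, sub_eq_iff_eq_add, ← hxy]
        congr 1
        rw [Finsupp.linearCombination_apply, Finsupp.sum_fintype _ _ (by simp)]
      rw [h2]; exact hx
    have := h.2 _ _ h1 l (by simp [hcl])
    omega
  obtain ⟨f, hf1, hf2⟩ := Submodule.exists_le_ker_of_notMem hW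
  refine ⟨(f (e l))⁻¹ • f, ?_, ?_, ?_⟩
  · simp [inv_mul_cancel₀ hf1]
  · intro l' hl'
    have : e l' ∈ LinearMap.ker f := hf2 (Submodule.mem_sup_right (Submodule.subset_span ⟨l', hl', rfl⟩))
    simp [LinearMap.mem_ker.1 this]
  · intro x hx
    have : x ∈ LinearMap.ker f := hf2 (Submodule.mem_sup_left hx)
    simp [LinearMap.mem_ker.1 this]

theorem finite_valuesF (hmono : ∀ m n, m ≤ n → F m ≤ F n) (hexh : ∀ x, ∃ n, x ∈ F n)
    (hsep : ∀ x, (∀ n, x ∈ F n) → x = 0) (E : Submodule k V) (hE : Module.Finite k E) :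
    {n : ℤ | ∃ d ∈ E, d ∈ F n ∧ d ∉ F (n - 1)}.Finite := by
  obtain ⟨n, e, sz, ho, hspan⟩ := exists_orthF hmono hexh hsep E hE
  refine (Set.finite_range sz).subset ?_
  rintro m ⟨d, hd, hd1, hd2⟩
  rw [← hspan, Submodule.mem_span_range_iff_exists_fun] at hd
  obtain ⟨c, rfl⟩ := hd
  by_contra hcon
  apply hd2
  refine Submodule.sum_mem _ fun l _ => ?_
  by_cases hc : c l = 0
  · rw [hc, zero_smul]; exact Submodule.zero_mem _
  · have h1 := ho.2 c m hd1 l hc
    have h2 : sz l ≠ m := fun h => hcon ⟨l, h⟩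
    exact Submodule.smul_mem _ _ (hmono _ _ (by omega) (ho.1 l))

end

end C74
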