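import Pool.Agent.MP_35f30a_al.C74.KF2
import Pool.Agent.MP_35f30a_al.C74.ORTH
import Pool.Agent.MP_35f30a_al.C74.OR3

/-!
ROW KF3.  Adapted representations of `k`-tensors.  Blueprint section 1 (Tools, (FUN)).

`orth_kF_iff`: `←` `kF_cons`; `→`: for `l` take `ψ` from `OrthF.functional`; `peel j ψ T = t l` and `peel_kF`.
`orth_glue_iff`: the same with `psi2 j Ψ` (`psi2 j Ψ (glue j U y) = Ψ y • U`) and `psi2_kF`; `←`: `glue U y ∈ kF (m + n)` for
`U ∈ kF 1 m`, `y ∈ kF j n`.
`exists_orth_rep`: `exists_cons`, an adapted basis `e` of the span of the `a l` (`exists_orthF`), expand.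
`exists_orth_glue`: likewise.   `exists_TE`: induction, `TE` is monotone.
-/

set_option autoImplicit false

open scoped TensorProduct Polynomial

namespace C74

variable {k : Type} [Field k] {A : Type} [Ring A] [Algebra k[X] A]

theorem peel_cons {D : Type} [Ring D] [Algebra k D] (j : ℕ) (ψ : D →ₗ[k] k) (a : D)
    (t : TP k D j) : peel j ψ (TP.cons a t) = ψ a • t := TP.lift_cons _ _ _

theorem KF3_psi1_cons {D : Type} [Ring D] [Algebra k D] (j : ℕ) (Ψ : TP k D j →ₗ[k] k) (a : D)
    (t : TP k D j) : psi1 j Ψ (TP.cons a t) = Ψ t • TP.ofA a := TP.lift_cons _ _ _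

theorem KF3_glue_cons {R : Type} [CommRing R] {A : Type} [Ring A] [Algebra R A] (j : ℕ) (a : A)
    (t : TP R A 0) (y : TP R A j) :
    glue j (TP.cons a t) y = TP.cons a (TP.cons (TP.toA t) y) := glue_cons j a (TP.toA t) y

theorem psi2_glue {D : Type} [Ring D] [Algebra k D] (j : ℕ) (Ψ : TP k D j →ₗ[k] k)
    (U : TP k D 1) (y : TP k D j) : psi2 j Ψ (glue j U y) = Ψ y • U := by
  induction U using TP.succ_induction with
  | h0 => rw [map_zero, LinearMap.zero_apply, map_zero, smul_zero]
  | hc a t =>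
    rw [KF3_glue_cons, KF2_psi2_cons, KF3_psi1_cons, TP.cons_smulR]
    rfl
  | ha x x' hx hx' => rw [map_add, LinearMap.add_apply, map_add, hx, hx', smul_add]

theorem orth_kF_iff {j n : ℕ} {e : Fin n → Fr k A} {sz : Fin n → ℤ}
    (h : OrthF (Fr.lev k A) e sz) (t : Fin n → TP k (Fr k A) j) (m : ℤ) :
    ∑ l, TP.cons (e l) (t l) ∈ kF k A (j + 1) m ↔ ∀ l, t l ∈ kF k A j (m - sz l) := by
  constructor
  · intro hT l
    obtain ⟨ψ, h1, h2, h3⟩ := h.functional (fun a b hab => lev_mono hab) l
    have h4 := peel_kF ψ h3 hT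
    have h5 : peel j ψ (∑ l, TP.cons (e l) (t l)) = t l := by
      rw [map_sum, Finset.sum_eq_single l]
      · rw [peel_cons, h1, one_smul]
      · intro b _ hb
        rw [peel_cons, h2 b hb, zero_smul]
      · intro hl
        exact absurd (Finset.mem_univ l) hl
    rwa [h5] at h4
  · intro ht
    refine Submodule.sum_mem _ ?_
    intro l _
    have h1 := kF_cons (h.1 l) (ht l)
    rwa [add_sub_cancel] at h1

theorem KF3_mem_span_range {V : Type} [AddCommGroup V] [Module k V] {n : ℕ} {e : Fin n → V}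
    {x : V} (hx : x ∈ Submodule.span k (Set.range e)) : ∃ c : Fin n → k, x = ∑ l, c l • e l := by
  obtain ⟨c, hc⟩ := (Submodule.mem_span_range_iff_exists_fun k).1 hx
  exact ⟨c, hc.symm⟩

theorem KF3_sum_cons {D : Type} [Ring D] [Algebra k D] {j n : ℕ} (s : Finset (Fin n))
    (c : Fin n → k) (e : Fin n → D) (u : TP k D j) :
    TP.cons (∑ l ∈ s, c l • e l) u = ∑ l ∈ s, c l • TP.cons (e l) u := by
  induction s using Finset.induction_on with
  | empty => rw [Finset.sum_empty, Finset.sum_empty, TP.zero_cons]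
  | insert x s hx ih =>
    rw [Finset.sum_insert hx, Finset.sum_insert hx, TP.add_cons, TP.smulR_cons, ih]

theorem KF3_cons_sum {D : Type} [Ring D] [Algebra k D] {j N : ℕ} (s : Finset (Fin N))
    (c : Fin N → k) (a : D) (u : Fin N → TP k D j) :
    TP.cons a (∑ i ∈ s, c i • u i) = ∑ i ∈ s, c i • TP.cons a (u i) := by
  induction s using Finset.induction_on with
  | empty => rw [Finset.sum_empty, Finset.sum_empty, TP.cons_zero]
  | insert x s hx ih =>
    rw [Finset.sum_insert hx, Finset.sum_insert hx, TP.cons_add, TP.cons_smulR, ih]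

theorem exists_orth_rep (hsep : ∀ d : Fr k A, (∀ n : ℤ, d ∈ Fr.lev k A n) → d = 0) {j : ℕ}
    (T : TP k (Fr k A) (j + 1)) : ∃ (n : ℕ) (e : Fin n → Fr k A) (sz : Fin n → ℤ)
      (t : Fin n → TP k (Fr k A) j), OrthF (Fr.lev k A) e sz ∧ T = ∑ l, TP.cons (e l) (t l) := by
  obtain ⟨N, a, u, -, rfl⟩ := exists_cons j T
  obtain ⟨n, e, sz, he, hspan⟩ := exists_orthF (F := Fr.lev k A) (fun a b hab => lev_mono hab)
    lev_exhaust hsep (Submodule.span k (Set.range a))
    (Module.Finite.span_of_finite k (Set.finite_range a))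
  have h1 := fun i => KF3_mem_span_range (k := k) (e := e) (x := a i)
    (by rw [hspan]; exact Submodule.subset_span ⟨i, rfl⟩)
  choose c hc using h1
  refine ⟨n, e, sz, fun l => ∑ i, c i l • u i, he, ?_⟩
  have h2 : ∀ i, TP.cons (a i) (u i) = ∑ l, c i l • TP.cons (e l) (u i) := by
    intro i
    conv_lhs => rw [hc i]
    exact KF3_sum_cons Finset.univ (c i) e (u i)
  have h3 : ∀ l, TP.cons (e l) (∑ i, c i l • u i) = ∑ i, c i l • TP.cons (e l) (u i) := fun l =>
    KF3_cons_sum Finset.univ (fun i => c i l) (e l) u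
  simp_rw [h2, h3]
  exact Finset.sum_comm

theorem kF_glue {j : ℕ} {m n : ℤ} {U : TP k (Fr k A) 1} {y : TP k (Fr k A) j}
    (hU : U ∈ kF k A 1 m) (hy : y ∈ kF k A j n) : glue j U y ∈ kF k A (j + 2) (m + n) := by
  refine KF1_kF_induction (P := fun U => glue j U y ∈ kF k A (j + 2) (m + n)) ?_ ?_ ?_ hU
  · rw [map_zero, LinearMap.zero_apply]; exact Submodule.zero_mem _
  · intro p a u ha hu
    rw [KF3_glue_cons]
    have hb : TP.toA u ∈ Fr.lev k A (m - p) := hu
    have h1 := kF_cons ha (kF_cons hb hy)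
    rwa [show p + (m - p + n) = m + n by ring] at h1
  · intro x y hx hy
    rw [map_add, LinearMap.add_apply]; exact Submodule.add_mem _ hx hy

theorem orth_glue_iff {j n : ℕ} {y : Fin n → TP k (Fr k A) j} {sz : Fin n → ℤ}
    (h : OrthF (kF k A j) y sz) (U : Fin n → TP k (Fr k A) 1) (m : ℤ) :
    ∑ b, glue j (U b) (y b) ∈ kF k A (j + 2) m ↔ ∀ b, U b ∈ kF k A 1 (m - sz b) := by
  constructor
  · intro hT l
    obtain ⟨ψ, h1, h2, h3⟩ := h.functional (fun a b hab => kF_mono hab) l
    have h4 := psi2_kF ψ h3 hT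
    have h5 : psi2 j ψ (∑ b, glue j (U b) (y b)) = U l := by
      rw [map_sum, Finset.sum_eq_single l]
      · rw [psi2_glue, h1, one_smul]
      · intro b _ hb
        rw [psi2_glue, h2 b hb, zero_smul]
      · intro hl
        exact absurd (Finset.mem_univ l) hl
    rwa [h5] at h4
  · intro ht
    refine Submodule.sum_mem _ ?_
    intro l _
    have h1 := kF_glue (ht l) (h.1 l)
    rwa [sub_add_cancel] at h1

theorem exists_orth_glue {j : ℕ} (hsep : ∀ T : TP k (Fr k A) j, (∀ n : ℤ, T ∈ kF k A j n) → T = 0)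
    (T : TP k (Fr k A) (j + 2)) : ∃ (n : ℕ) (y : Fin n → TP k (Fr k A) j) (sz : Fin n → ℤ)
      (U : Fin n → TP k (Fr k A) 1), OrthF (kF k A j) y sz ∧ T = ∑ b, glue j (U b) (y b) := by
  obtain ⟨N, U, a, -, rfl⟩ := exists_glue j T
  obtain ⟨n, e, sz, he, hspan⟩ := exists_orthF (F := kF k A j) (fun a b hab => kF_mono hab)
    kF_exhaust hsep (Submodule.span k (Set.range a))
    (Module.Finite.span_of_finite k (Set.finite_range a))
  have h1 : ∀ i, ∃ c : Fin n → k, a i = ∑ l, c l • e l := fun i =>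
    KF3_mem_span_range (by rw [hspan]; exact Submodule.subset_span ⟨i, rfl⟩)
  choose c hc using h1
  refine ⟨n, e, sz, fun l => ∑ i, c i l • U i, he, ?_⟩
  have h2 : ∀ i, glue j (U i) (a i) = ∑ l, c i l • glue j (U i) (e l) := by
    intro i
    conv_lhs => rw [hc i]
    rw [map_sum]
    exact Finset.sum_congr rfl fun l _ => by rw [map_smul]
  have h3 : ∀ l, glue j (∑ i, c i l • U i) (e l) = ∑ i, c i l • glue j (U i) (e l) := by
    intro l
    rw [map_sum, LinearMap.sum_apply]
    exact Finset.sum_congr rfl fun i _ => by rw [map_smul, LinearMap.smul_apply]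
  simp_rw [h2, h3]
  exact Finset.sum_comm

/-- the filtration of the `k`-tensors is separated (induction, `exists_orth_rep`, `orth_kF_iff`) -/
theorem kF_sep0 (hsep : ∀ d : Fr k A, (∀ n : ℤ, d ∈ Fr.lev k A n) → d = 0) {j : ℕ}
    (T : TP k (Fr k A) j) (h : ∀ n : ℤ, T ∈ kF k A j n) : T = 0 := by
  induction j with
  | zero => exact hsep T h
  | succ j ih =>
    obtain ⟨n, e, sz, t, he, rfl⟩ := exists_orth_rep hsep T
    refine Finset.sum_eq_zero ?_
    intro l _
    have h1 : t l = 0 := by
      apply ih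
      intro m
      have := (orth_kF_iff he t (m + sz l)).1 (h _) l
      rwa [add_sub_cancel_right] at this
    rw [h1, TP.cons_zero]

theorem TE_mono {j : ℕ} {E E' : Submodule k (Fr k A)} (h : E ≤ E') : TE E j ≤ TE E' j := by
  induction j with
  | zero => exact h
  | succ j ih =>
    refine Submodule.span_mono ?_
    rintro _ ⟨a, ha, u, hu, rfl⟩
    exact ⟨a, h ha, u, ih hu, rfl⟩

/-- tensors have all their components in a finite dimensional subspace -/
theorem exists_TE {j : ℕ} (T : TP k (Fr k A) j) :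
    ∃ E : Submodule k (Fr k A), Module.Finite k E ∧ T ∈ TE E j := by
  induction j with
  | zero =>
    refine ⟨Submodule.span k {(TP.toA T : Fr k A)}, Module.Finite.span_singleton k _, ?_⟩
    exact (Submodule.mem_span_singleton_self (TP.toA T) :
      TP.toA T ∈ Submodule.span k {(TP.toA T : Fr k A)})
  | succ j ih =>
    induction T using TP.succ_induction with
    | h0 => exact ⟨⊥, inferInstance, Submodule.zero_mem _⟩
    | hc a t =>
      obtain ⟨E, hE, ht⟩ := ih t
      refine ⟨Submodule.span k {a} ⊔ E, ?_, ?_⟩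
      · have := hE
        have := Module.Finite.span_singleton k a
        infer_instance
      · refine Submodule.subset_span ⟨a, ?_, t, TE_mono le_sup_right ht, rfl⟩
        exact le_sup_left (a := Submodule.span k {a}) (Submodule.mem_span_singleton_self _)
    | ha x y hx hy =>
      obtain ⟨E, hE, hx⟩ := hx
      obtain ⟨E', hE', hy⟩ := hy
      refine ⟨E ⊔ E', ?_, ?_⟩
      · have := hE
        have := hE'
        infer_instance
      · exact Submodule.add_mem _ (TE_mono le_sup_left hx) (TE_mono le_sup_right hy)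

end C74
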