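import Pool.Agent.MP_35f30a_al.C74.State
import Pool.Agent.MP_35f30a_al.C74.KF3

/-!
ROW FD1.  Functional data: bounds and (FL).  Blueprint section 2.1 (a), (b).

All by induction on `IsFD`.
(a) from `peel_kF`, `psi1_kF`, `psi2_kF`.
(b) `FL`: check on `T = cons a u`, `a ∈ E`, `u ∈ TE E j` (`TE` is a span; both sides additive in `T`).
 base1: `con w 1 0 T = ofA (ev w T)`: difference `0`.
 base2: `u = cons b y`: `con w (j+2) (j+1) (a ⊗ b ⊗ y) = a ⊗ Y + (a w b) ⊗ y` with `Y = con w (j+1) j (b ⊗ y)`; `psi1` gives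
   `Ψ(Y) a + Ψ(y) a w b`, and `ev w (psi2 T) = Ψ(y) a w b`; difference `Ψ(Y) a ∈ E`.
 left: `con w (j+2) (j+1) (a ⊗ u) = a ⊗ con w (j+1) j u + (a w) • u`; `peel ψ` gives
   `ψ(a) con w (j+1) j u + peel ψ ((a w) • u)`; the last term is in `TE E j` (`u = cons b y`: `ψ(a w b) y`), so `θ'` maps it into `E`;
   the first: induction hypothesis for `u`.
-/

set_option autoImplicit false

open scoped TensorProduct Polynomial

namespace C74

variable {k : Type} [Field k] {X : Obj k}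

theorem FD1_ev_add {n : ℕ} (w : X.D) (T T' : TP k X.D n) :
    TP.ev w (T + T') = TP.ev w T + TP.ev w T' := by
  unfold TP.ev
  rw [map_add, map_add]

theorem FD1_ev_smul {n : ℕ} (w : X.D) (r : k) (T : TP k X.D n) :
    TP.ev w (r • T) = r • TP.ev w T := by
  unfold TP.ev
  rw [map_smul, TP.toA_smulR]

theorem FD1_ev_zero {n : ℕ} (w : X.D) : TP.ev w (0 : TP k X.D n) = 0 := by
  unfold TP.ev
  rw [map_zero, map_zero]

theorem FD1_psi1_cons (j : ℕ) (Ψ : TP k X.D j →ₗ[k] k) (a : X.D) (y : TP k X.D j) :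
    psi1 j Ψ (TP.cons a y) = Ψ y • TP.ofA a := by
  unfold psi1
  exact TP.lift_cons _ _ _

theorem FD1_psi2_cons (j : ℕ) (Ψ : TP k X.D j →ₗ[k] k) (a b : X.D) (y : TP k X.D j) :
    psi2 j Ψ (TP.cons a (TP.cons b y)) = TP.cons a (Ψ y • TP.ofA b) := by
  unfold psi2
  rw [TP.lift_cons]
  have h := FD1_psi1_cons j Ψ b y
  unfold psi1 at h
  exact congrArg (TP.cons a) h

/-- the second part of (FL) for `psi1`, `psi2` -/
theorem FD1_psi (j : ℕ) (Ψ : TP k X.D j →ₗ[k] k) (a w : X.D) (u : TP k X.D (j + 1)) :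
    TP.ev w (psi2 j Ψ (TP.cons a u)) = TP.toA (psi1 j Ψ ((a * w) • u)) := by
  induction u using TP.succ_induction with
  | h0 => rw [TP.cons_zero, map_zero, smul_zero, map_zero, FD1_ev_zero, map_zero]
  | hc b y =>
    rw [FD1_psi2_cons, TP.smul_cons, FD1_psi1_cons, TP.cons_smulR, FD1_ev_smul, TP.toA_smulR,
      TP.toA_ofA]
    congr 1
  | ha x y hx hy => rw [TP.cons_add, map_add, FD1_ev_add, hx, hy, smul_add, map_add, map_add]

theorem FD1_psi1_TE (j : ℕ) (Ψ : TP k X.D j →ₗ[k] k) (E : Submodule k X.D) {T : TP k X.D (j + 1)}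
    (hT : T ∈ TE E (j + 1)) : TP.toA (psi1 j Ψ T) ∈ E := by
  refine Submodule.span_induction (p := fun T _ => TP.toA (psi1 j Ψ T) ∈ E) ?_ ?_ ?_ ?_ hT
  · rintro _ ⟨a, ha, u, -, rfl⟩
    rw [FD1_psi1_cons, TP.toA_smulR, TP.toA_ofA]
    exact E.smul_mem _ ha
  · rw [map_zero, map_zero]
    exact E.zero_mem
  · intro x y _ _ hx hy
    rw [map_add, map_add]
    exact E.add_mem hx hy
  · intro r x _ hx
    rw [map_smul, TP.toA_smulR]
    exact E.smul_mem _ hx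

theorem FD1_peel_TE (j : ℕ) (ψ : X.D →ₗ[k] k) (E : Submodule k X.D) (x : X.D)
    {T : TP k X.D (j + 1)} (hT : T ∈ TE E (j + 1)) : peel j ψ (x • T) ∈ TE E j := by
  refine Submodule.span_induction (p := fun T _ => peel j ψ (x • T) ∈ TE E j) ?_ ?_ ?_ ?_ hT
  · rintro _ ⟨a, -, u, hu, rfl⟩
    rw [TP.smul_cons, peel_cons]
    exact Submodule.smul_mem _ _ hu
  · rw [smul_zero, map_zero]
    exact Submodule.zero_mem _
  · intro y z _ _ hy hz
    rw [smul_add, map_add]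
    exact Submodule.add_mem _ hy hz
  · intro r y _ hy
    rw [smul_comm, map_smul]
    exact Submodule.smul_mem _ _ hy

/-- (a) -/
theorem IsFD.Θ2_kF {j : ℕ} {v : ℤ} {Θ2 : TP k X.D (j + 1) →ₗ[k] TP k X.D 1}
    {θ : TP k X.D j →ₗ[k] TP k X.D 0} (h : IsFD X j v Θ2 θ) {n : ℤ} {T : TP k X.D (j + 1)}
    (hT : T ∈ kF k X.A (j + 1) n) : Θ2 T ∈ kF k X.A 1 (n - v) := by
  induction h generalizing n with
  | base1 => simpa using hT
  | base2 j v Ψ hΨ => exact psi2_kF Ψ hΨ hT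
  | left j v u ψ hψ Θ2 θ h ih =>
    have h1 := ih (peel_kF ψ hψ hT)
    rw [← sub_sub]
    exact h1

theorem IsFD.θ_kF {j : ℕ} {v : ℤ} {Θ2 : TP k X.D (j + 1) →ₗ[k] TP k X.D 1}
    {θ : TP k X.D j →ₗ[k] TP k X.D 0} (h : IsFD X j v Θ2 θ) {n : ℤ} {T : TP k X.D j}
    (hT : T ∈ kF k X.A j n) : θ T ∈ kF k X.A 0 (n - v) := by
  induction h generalizing n with
  | base1 => simpa using hT
  | base2 j v Ψ hΨ => exact psi1_kF Ψ hΨ hT
  | left j v u ψ hψ Θ2 θ h ih =>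
    have h1 := ih (peel_kF ψ hψ hT)
    rw [← sub_sub]
    exact h1

theorem IsFD.θ_TE {j : ℕ} {v : ℤ} {Θ2 : TP k X.D (j + 1) →ₗ[k] TP k X.D 1}
    {θ : TP k X.D j →ₗ[k] TP k X.D 0} (h : IsFD X j v Θ2 θ) (E : Submodule k X.D)
    {T : TP k X.D j} (hT : T ∈ TE E j) : TP.toA (θ T) ∈ E := by
  induction h with
  | base1 => exact hT
  | base2 j v Ψ hΨ => exact FD1_psi1_TE j Ψ E hT
  | left j v u ψ hψ Θ2 θ h ih =>
    have h1 := FD1_peel_TE j ψ E 1 hT
    rw [one_smul] at h1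
    exact ih h1

/-- (b) (FL) -/
theorem IsFD.FL {j : ℕ} {v : ℤ} {Θ2 : TP k X.D (j + 1) →ₗ[k] TP k X.D 1}
    {θ : TP k X.D j →ₗ[k] TP k X.D 0} (h : IsFD X j v Θ2 θ) (E : Submodule k X.D)
    {T : TP k X.D (j + 1)} (hT : T ∈ TE E (j + 1)) (w : X.D) :
    TP.toA (θ (TP.con w (j + 1) j T)) - TP.ev w (Θ2 T) ∈ E := by
  induction h with
  | base1 =>
    have h1 : TP.toA (LinearMap.id (R := k) (TP.con w (0 + 1) 0 T)) -
        TP.ev w (LinearMap.id (R := k) T) = 0 := sub_self _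
    rw [h1]
    exact E.zero_mem
  | base2 j v Ψ hΨ =>
    refine Submodule.span_induction (p := fun T _ =>
      TP.toA (psi1 j Ψ (TP.con w (j + 1 + 1) (j + 1) T)) - TP.ev w (psi2 j Ψ T) ∈ E)
      ?_ ?_ ?_ ?_ hT
    · rintro _ ⟨a, ha, u, -, rfl⟩
      rw [TP.con_succ_succ, TP.con_self, map_add, map_add, FD1_psi, add_sub_cancel_right,
        FD1_psi1_cons, TP.toA_smulR, TP.toA_ofA]
      exact E.smul_mem _ ha
    · rw [map_zero, map_zero, map_zero, map_zero, FD1_ev_zero, sub_zero]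
      exact E.zero_mem
    · intro x y _ _ hx hy
      rw [map_add, map_add, map_add, map_add, FD1_ev_add, add_sub_add_comm]
      exact E.add_mem hx hy
    · intro r x _ hx
      rw [map_smul, map_smul, TP.toA_smulR, map_smul, FD1_ev_smul, ← smul_sub]
      exact E.smul_mem _ hx
  | left j v u ψ hψ Θ2 θ h ih =>
    refine Submodule.span_induction (p := fun T _ =>
      TP.toA ((θ ∘ₗ peel j ψ) (TP.con w (j + 1 + 1) (j + 1) T)) -
        TP.ev w ((Θ2 ∘ₗ peel (j + 1) ψ) T) ∈ E)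
      ?_ ?_ ?_ ?_ hT
    · rintro _ ⟨a, ha, u, hu, rfl⟩
      have h1 : TP.toA ((θ ∘ₗ peel j ψ) (TP.con w (j + 1 + 1) (j + 1) (TP.cons a u))) =
          ψ a • TP.toA (θ (TP.con w (j + 1) j u)) + TP.toA (θ (peel j ψ ((a * w) • u))) := by
        rw [TP.con_succ_succ, TP.con_self, LinearMap.comp_apply, map_add, map_add, map_add,
          peel_cons, map_smul, TP.toA_smulR]
      have h2 : TP.ev w ((Θ2 ∘ₗ peel (j + 1) ψ) (TP.cons a u)) = ψ a • TP.ev w (Θ2 u) := by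
        rw [LinearMap.comp_apply, peel_cons, map_smul, FD1_ev_smul]
      have h3 : TP.toA ((θ ∘ₗ peel j ψ) (TP.con w (j + 1 + 1) (j + 1) (TP.cons a u))) -
          TP.ev w ((Θ2 ∘ₗ peel (j + 1) ψ) (TP.cons a u)) =
          ψ a • (TP.toA (θ (TP.con w (j + 1) j u)) - TP.ev w (Θ2 u)) +
            TP.toA (θ (peel j ψ ((a * w) • u))) := by
        rw [h1, h2, smul_sub]
        abel
      rw [h3]
      exact E.add_mem (E.smul_mem _ (ih hu)) (h.θ_TE E (FD1_peel_TE j ψ E _ hu))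
    · rw [map_zero, map_zero, map_zero, map_zero, FD1_ev_zero, sub_zero]
      exact E.zero_mem
    · intro x y _ _ hx hy
      rw [map_add, map_add, map_add, map_add, FD1_ev_add, add_sub_add_comm]
      exact E.add_mem hx hy
    · intro r x _ hx
      rw [map_smul, map_smul, TP.toA_smulR, map_smul, FD1_ev_smul, ← smul_sub]
      exact E.smul_mem _ hx

end C74
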