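import Pool.Agent.MP_35f30a_al.C74.KF7

/-!
ROW FD2.  Functional data extend along extensions.  Blueprint section 2.1 (c).

`exists_extT`: the functional `f.T T ↦ Ψ T` on `range (f.T j)` and `0` on `kF' (M v - 1)` is well defined on the sum: if
`f.T T ∈ kF' (M v - 1)` then `T ∈ kF ((M v - 1) / M) = kF (v - 1)` (`M ≥ 1`) and `Ψ T = 0`; `f.T j` is injective.  Extend to the whole
space (`LinearMap.exists_extend`).  Same for `ψ` on `D` with `lev`.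
`IsFD.extend`: induction on `IsFD`; base2 and left use the extended functionals; compatibility
`psi2 j Ψ' (f.T (j+2) T) = f.T 1 (psi2 j Ψ T)` etc. is checked on pure tensors.  Levels: `M (v + u) = M v + M u`.
-/

set_option autoImplicit false

open scoped TensorProduct Polynomial

namespace C74

variable {k : Type} [Field k] {X : Obj k}

/-- extension of a functional that vanishes on a preimage -/
theorem FD2_ext {V V' : Type} [AddCommGroup V] [Module k V] [AddCommGroup V'] [Module k V']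
    (φ : V →ₗ[k] V') (W : Submodule k V') (Ψ : V →ₗ[k] k) (h : ∀ x, φ x ∈ W → Ψ x = 0) :
    ∃ Ψ' : V' →ₗ[k] k, (∀ x, Ψ' (φ x) = Ψ x) ∧ ∀ y ∈ W, Ψ' y = 0 := by
  set q : V →ₗ[k] V' ⧸ W := W.mkQ ∘ₗ φ with hq
  have hker : LinearMap.ker q ≤ LinearMap.ker Ψ := by
    intro x hx
    rw [LinearMap.mem_ker] at hx ⊢
    refine h x ?_
    rw [hq, LinearMap.comp_apply, Submodule.mkQ_apply, Submodule.Quotient.mk_eq_zero] at hx
    exact hx
  obtain ⟨G, hG⟩ := LinearMap.exists_extend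
    (((LinearMap.ker q).liftQ Ψ hker) ∘ₗ (q.quotKerEquivRange.symm : LinearMap.range q →ₗ[k] _))
  refine ⟨G ∘ₗ W.mkQ, fun x => ?_, fun y hy => ?_⟩
  · have h1 : (G ∘ₗ W.mkQ) (φ x) = G ((⟨q x, LinearMap.mem_range_self q x⟩ :
        LinearMap.range q) : V' ⧸ W) := rfl
    have h2 := LinearMap.congr_fun hG ⟨q x, LinearMap.mem_range_self q x⟩
    rw [h1]
    refine h2.trans ?_
    have h3 : q.quotKerEquivRange.symm ⟨q x, LinearMap.mem_range_self q x⟩ =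
        (LinearMap.ker q).mkQ x := by
      rw [LinearEquiv.symm_apply_eq]
      rfl
    have h4 : (((LinearMap.ker q).liftQ Ψ hker) ∘ₗ
        (q.quotKerEquivRange.symm : LinearMap.range q →ₗ[k] _))
          ⟨q x, LinearMap.mem_range_self q x⟩ =
        ((LinearMap.ker q).liftQ Ψ hker) (q.quotKerEquivRange.symm
          ⟨q x, LinearMap.mem_range_self q x⟩) := rfl
    rw [h4, h3]
    rfl
  · rw [LinearMap.comp_apply, Submodule.mkQ_apply, (Submodule.Quotient.mk_eq_zero W).2 hy,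
      map_zero]

theorem FD2_div {M : ℕ} (hM : 0 < M) (v : ℤ) : ((M : ℤ) * v - 1) / (M : ℤ) ≤ v - 1 := by
  have hM' : (0 : ℤ) < M := by exact_mod_cast hM
  have h : ((M : ℤ) * v - 1) / (M : ℤ) < v :=
    Int.ediv_lt_of_lt_mul hM' (by rw [mul_comm v]; omega)
  omega

theorem FD2_psi1_cons {X : Obj k} (j : ℕ) (Ψ : TP k X.D j →ₗ[k] k) (a : X.D) (y : TP k X.D j) :
    psi1 j Ψ (TP.cons a y) = Ψ y • TP.ofA a := by
  unfold psi1
  exact TP.lift_cons _ _ _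

theorem FD2_psi2_cons {X : Obj k} (j : ℕ) (Ψ : TP k X.D j →ₗ[k] k) (a b : X.D)
    (y : TP k X.D j) :
    psi2 j Ψ (TP.cons a (TP.cons b y)) = TP.cons a (Ψ y • TP.ofA b) := by
  unfold psi2
  rw [TP.lift_cons]
  have h := FD2_psi1_cons j Ψ b y
  unfold psi1 at h
  exact congrArg (TP.cons a) h

theorem FD2_T_smul {X' : Obj k} (f : Ext X X') {j : ℕ} (c : k) (T : TP k X.D j) :
    f.T j (c • T) = c • f.T j T := LinearMap.map_smulₛₗ _ _ _

theorem FD2_peel {X' : Obj k} (f : Ext X X') (j : ℕ) (ψ : X.D →ₗ[k] k) (ψ' : X'.D →ₗ[k] k)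
    (h : ∀ a, ψ' (f.φ a) = ψ a) (T : TP k X.D (j + 1)) :
    peel j ψ' (f.T (j + 1) T) = f.T j (peel j ψ T) := by
  induction T using TP.succ_induction with
  | h0 => rw [map_zero, map_zero, map_zero, map_zero]
  | hc a t => rw [Ext.T_cons, peel_cons, peel_cons, FD2_T_smul, h]
  | ha x y hx hy => rw [map_add, map_add, map_add, map_add, hx, hy]

theorem FD2_psi1 {X' : Obj k} (f : Ext X X') (j : ℕ) (Ψ : TP k X.D j →ₗ[k] k)
    (Ψ' : TP k X'.D j →ₗ[k] k) (h : ∀ T, Ψ' (f.T j T) = Ψ T) (T : TP k X.D (j + 1)) :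
    psi1 j Ψ' (f.T (j + 1) T) = f.T 0 (psi1 j Ψ T) := by
  induction T using TP.succ_induction with
  | h0 => rw [map_zero, map_zero, map_zero, map_zero]
  | hc a t => rw [Ext.T_cons, FD2_psi1_cons, FD2_psi1_cons, FD2_T_smul, Ext.T_ofA, h]
  | ha x y hx hy => rw [map_add, map_add, map_add, map_add, hx, hy]

theorem FD2_psi2 {X' : Obj k} (f : Ext X X') (j : ℕ) (Ψ : TP k X.D j →ₗ[k] k)
    (Ψ' : TP k X'.D j →ₗ[k] k) (h : ∀ T, Ψ' (f.T j T) = Ψ T) (T : TP k X.D (j + 2)) :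
    psi2 j Ψ' (f.T (j + 2) T) = f.T 1 (psi2 j Ψ T) := by
  induction T using TP.succ_induction with
  | h0 => rw [map_zero, map_zero, map_zero, map_zero]
  | hc a t =>
    induction t using TP.succ_induction with
    | h0 => rw [TP.cons_zero, map_zero, map_zero, map_zero, map_zero]
    | hc b y =>
      rw [Ext.T_cons, Ext.T_cons, FD2_psi2_cons, FD2_psi2_cons, Ext.T_cons, FD2_T_smul,
        Ext.T_ofA, h]
    | ha x y hx hy => rw [TP.cons_add, map_add, map_add, map_add, map_add, hx, hy]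
  | ha x y hx hy => rw [map_add, map_add, map_add, map_add, hx, hy]

theorem exists_extT {X' : Obj k} (f : Ext X X') {j : ℕ} {v : ℤ} (Ψ : TP k X.D j →ₗ[k] k)
    (hΨ : ∀ T ∈ kF k X.A j (v - 1), Ψ T = 0) :
    ∃ Ψ' : TP k X'.D j →ₗ[k] k, (∀ T, Ψ' (f.T j T) = Ψ T) ∧
      ∀ T ∈ kF k X'.A j ((f.M : ℤ) * v - 1), Ψ' T = 0 := by
  refine FD2_ext (f.T j) (kF k X'.A j ((f.M : ℤ) * v - 1)) Ψ fun T hT => hΨ T ?_
  rw [f.kF_iff] at hT
  exact kF_mono (FD2_div f.Mpos v) hT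

theorem exists_extD {X' : Obj k} (f : Ext X X') {v : ℤ} (ψ : X.D →ₗ[k] k)
    (hψ : ∀ a ∈ Fr.lev k X.A (v - 1), ψ a = 0) :
    ∃ ψ' : X'.D →ₗ[k] k, (∀ a, ψ' (f.φ a) = ψ a) ∧
      ∀ a ∈ Fr.lev k X'.A ((f.M : ℤ) * v - 1), ψ' a = 0 := by
  refine FD2_ext f.φ.toLinearMap (Fr.lev k X'.A ((f.M : ℤ) * v - 1)) ψ fun a ha => hψ a ?_
  have ha' : f.φ a ∈ Fr.lev k X'.A ((f.M : ℤ) * v - 1) := ha
  rw [f.iso] at ha'
  exact lev_mono (FD2_div f.Mpos v) ha'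

/-- (c) functional data extend along extensions -/
theorem IsFD.extend {X' : Obj k} (f : Ext X X') {j : ℕ} {v : ℤ}
    {Θ2 : TP k X.D (j + 1) →ₗ[k] TP k X.D 1} {θ : TP k X.D j →ₗ[k] TP k X.D 0}
    (h : IsFD X j v Θ2 θ) :
    ∃ (Θ2' : TP k X'.D (j + 1) →ₗ[k] TP k X'.D 1) (θ' : TP k X'.D j →ₗ[k] TP k X'.D 0),
      IsFD X' j ((f.M : ℤ) * v) Θ2' θ' ∧ (∀ T, Θ2' (f.T (j + 1) T) = f.T 1 (Θ2 T)) ∧
      (∀ T, θ' (f.T j T) = f.T 0 (θ T)) := by
  induction h with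
  | base1 =>
    refine ⟨LinearMap.id, LinearMap.id, ?_, fun T => rfl, fun T => rfl⟩
    rw [mul_zero]
    exact IsFD.base1
  | base2 j v Ψ hΨ =>
    obtain ⟨Ψ', h1, h2⟩ := exists_extT f Ψ hΨ
    exact ⟨psi2 j Ψ', psi1 j Ψ', IsFD.base2 j _ Ψ' h2, FD2_psi2 f j Ψ Ψ' h1,
      FD2_psi1 f j Ψ Ψ' h1⟩
  | left j v u ψ hψ Θ2 θ h ih =>
    obtain ⟨ψ', h1, h2⟩ := exists_extD f ψ hψ
    obtain ⟨Θ2', θ', h3, h4, h5⟩ := ih
    refine ⟨Θ2' ∘ₗ peel (j + 1) ψ', θ' ∘ₗ peel j ψ', ?_, fun T => ?_, fun T => ?_⟩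
    · rw [mul_add]
      exact IsFD.left j _ _ ψ' h2 Θ2' θ' h3
    · rw [LinearMap.comp_apply, LinearMap.comp_apply, FD2_peel f (j + 1) ψ ψ' h1, h4]
    · rw [LinearMap.comp_apply, LinearMap.comp_apply, FD2_peel f j ψ ψ' h1, h5]

end C74
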