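import Pool.Agent.MP_35f30a_al.C74.BLT2

set_option autoImplicit false

open scoped TensorProduct Polynomial

namespace C74

namespace QRaux

open MvPolynomial

variable {S : Type} [CommRing S] {B : Type}

/-- homogeneous of degree `m` with variables in `F`. -/
def Hom (F : Set B) (m : ℕ) (c : MvPolynomial B S) : Prop :=
  ∀ α : B →₀ ℕ, c.coeff α ≠ 0 → α.degree = m ∧ ∀ b, α b ≠ 0 → b ∈ F

theorem Hom.zero (F : Set B) (m : ℕ) : Hom F m (0 : MvPolynomial B S) := by
  intro α h
  simp at h

theorem Hom.add {F : Set B} {m : ℕ} {c d : MvPolynomial B S} (hc : Hom F m c) (hd : Hom F m d) :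
    Hom F m (c + d) := by
  intro α h
  rw [coeff_add] at h
  by_cases h1 : c.coeff α = 0
  · apply hd
    intro h2
    apply h
    rw [h1, h2, add_zero]
  · exact hc α h1

theorem Hom.C_mul {F : Set B} {m : ℕ} {c : MvPolynomial B S} (hc : Hom F m c) (s : S) :
    Hom F m (C s * c) := by
  intro α h
  rw [coeff_C_mul] at h
  apply hc
  intro h2
  apply h
  rw [h2, mul_zero]

theorem Hom.X_mul {F : Set B} {m : ℕ} {c : MvPolynomial B S} (hc : Hom F m c) {x : B}
    (hx : x ∈ F) : Hom F (m + 1) (X x * c) := by
  classical
  intro α h
  rw [coeff_X_mul'] at h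
  split_ifs at h with h1
  · obtain ⟨h2, h3⟩ := hc _ h
    have h4 : α = (α - Finsupp.single x 1) + Finsupp.single x 1 := by
      ext b
      simp only [Finsupp.coe_add, Finsupp.coe_tsub, Pi.add_apply, Pi.sub_apply]
      by_cases hb : b = x
      · subst hb
        have : α b ≠ 0 := by simpa using h1
        simp
        omega
      · simp [Ne.symm hb]
    constructor
    · rw [h4, map_add, h2]
      simp
    · intro b hb
      by_cases hbx : b = x
      · rw [hbx]; exact hx
      · apply h3
        simpa [Finsupp.single_apply, Ne.symm hbx] using hb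
  · exact absurd rfl h

theorem Hom.mono {F F' : Set B} (hF : F ⊆ F') {m : ℕ} {c : MvPolynomial B S} (hc : Hom F m c) :
    Hom F' m c := fun α h => ⟨(hc α h).1, fun b hb => hF ((hc α h).2 b hb)⟩

theorem aeval_mem {p : B → S} {F : Set B} {m : ℕ} {c : MvPolynomial B S} (hc : Hom F m c) :
    aeval p c ∈ (Ideal.span (p '' F)) ^ m := by
  classical
  rw [aeval_def, eval₂_eq]
  apply Ideal.sum_mem
  intro α hα
  obtain ⟨h1, h2⟩ := hc α (mem_support_iff.1 hα)
  apply Ideal.mul_mem_left
  rw [← h1, show Finsupp.degree α = ∑ i ∈ α.support, α i from rfl]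
  rw [← Finset.prod_pow_eq_pow_sum]
  apply Ideal.prod_mem_prod
  intro b hb
  apply Ideal.pow_mem_pow
  apply Ideal.subset_span
  exact ⟨b, h2 b (Finsupp.mem_support_iff.1 hb), rfl⟩

theorem exists_rep {p : B → S} {F : Set B} (m : ℕ) :
    ∀ s ∈ (Ideal.span (p '' F)) ^ m, ∃ c : MvPolynomial B S, Hom F m c ∧ aeval p c = s := by
  classical
  induction m with
  | zero =>
    intro s _
    refine ⟨C s, ?_, by simp⟩
    intro α h
    rw [coeff_C] at h
    split_ifs at h with h1
    · subst h1
      simp
    · exact absurd rfl h
  | succ m ih =>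
    let T : Ideal S :=
      { carrier := {s | ∃ c : MvPolynomial B S, Hom F (m + 1) c ∧ aeval p c = s}
        add_mem' := by
          rintro a b ⟨c, hc, rfl⟩ ⟨d, hd, rfl⟩
          exact ⟨c + d, hc.add hd, by simp⟩
        zero_mem' := ⟨0, Hom.zero _ _, by simp⟩
        smul_mem' := by
          rintro a b ⟨c, hc, rfl⟩
          exact ⟨C a * c, hc.C_mul a, by simp⟩ }
    have : (Ideal.span (p '' F)) ^ (m + 1) ≤ T := by
      rw [pow_succ', Ideal.mul_le]
      intro r hr s hs
      obtain ⟨c, hc, rfl⟩ := ih s hs
      induction hr using Submodule.span_induction with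
      | mem r hr =>
        obtain ⟨x, hx, rfl⟩ := hr
        exact ⟨X x * c, hc.X_mul hx, by simp⟩
      | zero => rw [zero_mul]; exact T.zero_mem
      | add a b _ _ ha hb => rw [add_mul]; exact T.add_mem ha hb
      | smul a b _ hb => rw [smul_eq_mul, mul_assoc]; exact T.mul_mem_left a hb
    intro s hs
    exact this hs

/-- splitting off a variable -/
theorem split {F : Set B} {m : ℕ} {c : MvPolynomial B S} (x : B) (hc : Hom (insert x F) (m + 1) c) :
    ∃ G H : MvPolynomial B S, c = X x * H + G ∧ Hom F (m + 1) G ∧ Hom (insert x F) m H ∧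
      (∀ α, c.coeff α = if α x = 0 then G.coeff α else H.coeff (α - Finsupp.single x 1)) := by
  classical
  refine ⟨c.modMonomial (Finsupp.single x 1), c.divMonomial (Finsupp.single x 1), ?_, ?_, ?_, ?_⟩
  · rw [divMonomial_add_modMonomial_single]
  · intro α h
    by_cases hle : Finsupp.single x 1 ≤ α
    · rw [coeff_modMonomial_of_le _ hle] at h
      exact absurd rfl h
    · rw [coeff_modMonomial_of_not_le _ hle] at h
      obtain ⟨h1, h2⟩ := hc α h
      refine ⟨h1, fun b hb => ?_⟩
      rcases h2 b hb with h3 | h3
      · exfalso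
        apply hle
        rw [Finsupp.single_le_iff]
        subst h3
        omega
      · exact h3
  · intro α h
    rw [coeff_divMonomial] at h
    obtain ⟨h1, h2⟩ := hc _ h
    constructor
    · rw [map_add] at h1
      simp at h1
      omega
    · intro b hb
      apply h2
      simp only [Finsupp.coe_add, Pi.add_apply]
      omega
  · intro α
    split_ifs with h
    · rw [coeff_modMonomial_of_not_le]
      rw [Finsupp.single_le_iff]
      omega
    · rw [coeff_divMonomial]
      congr 1
      ext b
      simp only [Finsupp.coe_add, Finsupp.coe_tsub, Pi.add_apply, Pi.sub_apply]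
      by_cases hb : b = x
      · subst hb
        simp
        omega
      · simp [Ne.symm hb]

theorem main (p : B → S)
    (hreg : ∀ (F : Finset B) (x : B), x ∉ F → ∀ s : S,
      s * p x ∈ Ideal.span (p '' (F : Set B)) → s ∈ Ideal.span (p '' (F : Set B)))
    (F : Finset B) : ∀ (m : ℕ) (c : MvPolynomial B S), Hom (F : Set B) m c →
      aeval p c ∈ (Ideal.span (p '' (F : Set B))) ^ (m + 1) →
      ∀ α, c.coeff α ∈ Ideal.span (p '' (F : Set B)) := by
  classical
  induction F using Finset.induction_on with
  | empty =>
    intro m c hc h α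
    simp only [Finset.coe_empty, Set.image_empty, Ideal.span_empty] at h ⊢
    rw [pow_succ, Ideal.mul_bot] at h
    have h0 : ∀ α, α ≠ 0 → c.coeff α = 0 := by
      intro α hα
      by_contra h1
      obtain ⟨_, h3⟩ := hc α h1
      apply hα
      ext b
      by_contra hb
      exact absurd (h3 b hb) (by simp)
    have h1 : c = C (c.coeff 0) := by
      ext α
      rw [coeff_C]
      split_ifs with hα
      · rw [hα]
      · exact h0 α (Ne.symm hα)
    rw [h1] at h
    simp only [aeval_C, Algebra.algebraMap_self, RingHom.id_apply, Ideal.mem_bot] at h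
    by_cases hα : α = 0
    · rw [hα, h]; exact Submodule.zero_mem _
    · rw [h0 α hα]; exact Submodule.zero_mem _
  | insert x F hx ih =>
    have hle : Ideal.span (p '' (F : Set B)) ≤ Ideal.span (p '' ((insert x F : Finset B) : Set B)) := by
      apply Ideal.span_mono
      apply Set.image_mono
      simp
    have hxm : p x ∈ Ideal.span (p '' ((insert x F : Finset B) : Set B)) :=
      Ideal.subset_span ⟨x, by simp, rfl⟩
    -- Lemma A
    have hA : ∀ i s, s * p x ∈ (Ideal.span (p '' (F : Set B))) ^ i →
        s ∈ (Ideal.span (p '' (F : Set B))) ^ i := by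
      intro i s hs
      have : ∀ j ≤ i, s ∈ (Ideal.span (p '' (F : Set B))) ^ j := by
        intro j
        induction j with
        | zero => intro _; simp
        | succ j hj =>
          intro hji
          obtain ⟨c, hc, hcs⟩ := exists_rep j s (hj (by omega))
          have h1 := ih j (C (p x) * c) (hc.C_mul _) (by
            rw [map_mul, aeval_C, hcs]
            simp only [Algebra.algebraMap_self, RingHom.id_apply]
            rw [mul_comm]
            exact Ideal.pow_le_pow_right hji hs)
          have h2 : ∀ α, c.coeff α ∈ Ideal.span (p '' (F : Set B)) := by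
            intro α
            apply hreg F x hx
            have := h1 α
            rwa [coeff_C_mul, mul_comm] at this
          rw [← hcs, aeval_def, eval₂_eq]
          apply Ideal.sum_mem
          intro α hα
          obtain ⟨h3, h4⟩ := hc α (mem_support_iff.1 hα)
          rw [pow_succ']
          apply Ideal.mul_mem_mul
          · simpa using h2 α
          · rw [← h3, show Finsupp.degree α = ∑ i ∈ α.support, α i from rfl]
            rw [← Finset.prod_pow_eq_pow_sum]
            apply Ideal.prod_mem_prod
            intro b hb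
            apply Ideal.pow_mem_pow
            apply Ideal.subset_span
            exact ⟨b, h4 b (Finsupp.mem_support_iff.1 hb), rfl⟩
      exact this i le_rfl
    intro m
    induction m with
    | zero =>
      intro c hc h α
      rw [zero_add, pow_one] at h
      have h0 : ∀ α, α ≠ 0 → c.coeff α = 0 := by
        intro α hα
        by_contra h1
        obtain ⟨h2, _⟩ := hc α h1
        exact hα ((Finsupp.degree_eq_zero_iff α).1 h2)
      have h1 : c = C (c.coeff 0) := by
        ext α
        rw [coeff_C]
        split_ifs with hα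
        · rw [hα]
        · exact h0 α (Ne.symm hα)
      rw [h1] at h
      simp only [aeval_C, Algebra.algebraMap_self, RingHom.id_apply] at h
      by_cases hα : α = 0
      · rw [hα]; exact h
      · rw [h0 α hα]; exact Submodule.zero_mem _
    | succ m ihm =>
      intro c hc h α
      rw [Finset.coe_insert] at hc
      obtain ⟨G, H, hcGH, hG, hH, hco⟩ := split x hc
      obtain ⟨d, hd, hds⟩ := exists_rep (m + 1 + 1) _ h
      rw [Finset.coe_insert] at hd
      obtain ⟨G', H', hdGH, hG', hH', -⟩ := split x hd
      have e1 : p x * aeval p H + aeval p G = p x * aeval p H' + aeval p G' := by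
        rw [hcGH, hdGH] at hds
        simpa using hds.symm
      have e2 : (aeval p H - aeval p H') * p x ∈ (Ideal.span (p '' (F : Set B))) ^ (m + 1) := by
        have : (aeval p H - aeval p H') * p x = aeval p G' - aeval p G := by
          linear_combination e1
        rw [this]
        apply Ideal.sub_mem
        · exact Ideal.pow_le_pow_right (by omega) (aeval_mem hG')
        · exact aeval_mem hG
      have e3 := hA _ _ e2
      have e4 : aeval p H' ∈ (Ideal.span (p '' ((insert x F : Finset B) : Set B))) ^ (m + 1) := by
        rw [Finset.coe_insert]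
        exact aeval_mem hH'
      have e5 : aeval p H ∈ (Ideal.span (p '' ((insert x F : Finset B) : Set B))) ^ (m + 1) := by
        have := Ideal.add_mem _ (Ideal.pow_right_mono hle (m + 1) e3) e4
        simpa using this
      have e6 := ihm H (by rw [Finset.coe_insert]; exact hH) e5
      obtain ⟨h', hh', hhs⟩ := exists_rep (m + 1) _ e3
      have e7 := ih (m + 1) (G + C (p x) * h') (hG.add (hh'.C_mul _)) (by
        have : aeval p (G + C (p x) * h') = aeval p G' := by
          rw [map_add, map_mul, aeval_C, hhs]
          simp only [Algebra.algebraMap_self, RingHom.id_apply]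
          linear_combination e1
        rw [this]
        exact aeval_mem hG')
      rw [hco]
      split_ifs with hαx
      · have h1 := hle (e7 α)
        rw [coeff_add, coeff_C_mul] at h1
        have h2 : p x * coeff α h' ∈ Ideal.span (p '' ((insert x F : Finset B) : Set B)) :=
          Ideal.mul_mem_right _ _ hxm
        have := Ideal.sub_mem _ h1 h2
        simpa using this
      · exact e6 _

end QRaux

theorem quasi_regular {k : Type} [Field k] {S : Type} [CommRing S] [Algebra k S] {B : Type}
    (p : B → S)
    (hreg : ∀ (F : Finset B) (x : B), x ∉ F → ∀ s : S,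
      s * p x ∈ Ideal.span (p '' (F : Set B)) → s ∈ Ideal.span (p '' (F : Set B)))
    (m : ℕ) (c : MvPolynomial B S) (hc : c.IsHomogeneous m)
    (h : MvPolynomial.aeval p c ∈ (Ideal.span (Set.range p)) ^ (m + 1)) (α : B →₀ ℕ) :
    c.coeff α ∈ Ideal.span (Set.range p) := by
  classical
  open MvPolynomial in
  rw [← Set.image_univ] at h ⊢
  obtain ⟨d, hd, hds⟩ := QRaux.exists_rep (m + 1) _ h
  set F : Finset B := c.vars ∪ d.vars with hF
  have h1 : QRaux.Hom (F : Set B) m c := by
    intro β hβ
    refine ⟨?_, fun b hb => ?_⟩
    · have h5 := hc hβ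
      rw [Finsupp.degree_eq_weight_one]
      exact h5
    · rw [hF, Finset.coe_union]
      left
      rw [Finset.mem_coe, MvPolynomial.mem_vars_iff_mem_support]
      exact ⟨β, MvPolynomial.mem_support_iff.2 hβ, Finsupp.mem_support_iff.2 hb⟩
  have h2 : QRaux.Hom (F : Set B) (m + 1) d := by
    intro β hβ
    refine ⟨(hd β hβ).1, fun b hb => ?_⟩
    rw [hF, Finset.coe_union]
    right
    rw [Finset.mem_coe, MvPolynomial.mem_vars_iff_mem_support]
    exact ⟨β, MvPolynomial.mem_support_iff.2 hβ, Finsupp.mem_support_iff.2 hb⟩
  have h3 := QRaux.main p hreg F m c h1 (by rw [← hds]; exact QRaux.aeval_mem h2) α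
  exact Ideal.span_mono (Set.image_mono (Set.subset_univ _)) h3

end C74
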