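import Pool.Agent.MP_35f30a_al.C74.SEP1
import Pool.Agent.MP_35f30a_al.C74.QR
import Pool.Agent.MP_35f30a_al.C74.OR3

/-!
ROW SEP2.  (Sep).  Blueprint section 6.

`Dm_sep`: `tp1 s ≠ 0`; `Γ1, B1` from `exists_subfield`, `tp1 s = image of s1`, `s1 ≠ 0`.  By `krull_fg` there is `m` with
`s1 ∈ dI1^m`, `s1 ∉ dI1^(m+1)`.  In `SI k Γ1`: `s1 = aeval δ c`, `c` homogeneous of degree `m` in the `δ x`, `x ∈ B1`
(`map_dI_eq` for `Γ1, B1`; `Ideal.mem_span_pow_iff_exists_isHomogeneous`), and not all coefficients of `c` lie in the maximal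
ideal (else `s1 ∈ dI1^(m+1)` by `map_dI_pow_iff`).  Map to `SI k Γ` (the local hom `SI k Γ1 → SI k Γ` induced by
`Γ1 ⊗ Γ1 → Γ ⊗ Γ`: the preimage of `dI` is `dI1`).  If `tp1 s ∈ dI^(m+1)`, then by `quasi_regular` for the family
`δ x, x ∈ B` (`dl_reg_loc`, `map_dI_eq`) all coefficients of the image of `c` lie in the maximal ideal of `SI k Γ`; a
local homomorphism reflects this.  Contradiction; conclude with `Dm_iff`.
`JJ_sep`: `j = 0`: `JJ_one`.  `j = j'+1`: `s = Σ glue U_b y_b` (`exists_glue`), some `U_b ≠ 0`, `U_b ∉ Dm m 0`,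
so `s ∉ Dm m (j'+1)` (`Dm_eq_glue`, `glue_mem_iff`).
-/

set_option autoImplicit false

open scoped TensorProduct Polynomial

namespace C74

variable {k : Type} [Field k] {Γ : Type} [Field Γ] [Algebra k Γ]

section SEP2_local
variable {Γ1 : Type} [Field Γ1] [Algebra k Γ1] (i : Γ1 →ₐ[k] Γ)

/-- the map `Γ1 ⊗ Γ1 → Γ ⊗ Γ` -/
noncomputable def SEP2_f : Γ1 ⊗[k] Γ1 →+* Γ ⊗[k] Γ :=
  (Algebra.TensorProduct.map i i : Γ1 ⊗[k] Γ1 →ₐ[k] Γ ⊗[k] Γ).toRingHom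

lemma SEP2_f_tmul (a b : Γ1) :
    SEP2_f i (a ⊗ₜ[k] b) = i a ⊗ₜ[k] i b := by
  rw [SEP2_f]
  exact Algebra.TensorProduct.map_tmul _ _ _ _

lemma SEP2_lmul (s : Γ1 ⊗[k] Γ1) :
    Algebra.TensorProduct.lmul' k (S := Γ) (SEP2_f i s) =
      i (Algebra.TensorProduct.lmul' k (S := Γ1) s) := by
  induction s using TensorProduct.induction_on with
  | zero => simp
  | tmul a b => rw [SEP2_f_tmul]; simp
  | add x y hx hy => rw [map_add, map_add, hx, hy, map_add, map_add]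

lemma SEP2_comap : dI k Γ1 = (dI k Γ).comap (SEP2_f i) := by
  ext s
  rw [Ideal.mem_comap, mem_dI, mem_dI, SEP2_lmul]
  exact (map_eq_zero_iff i i.toRingHom.injective).symm

/-- the local homomorphism of local rings of the diagonal -/
noncomputable def SEP2_φ : SI k Γ1 →+* SI k Γ :=
  Localization.localRingHom (dI k Γ1) (dI k Γ) (SEP2_f i) (SEP2_comap i)

lemma SEP2_φ_alg (s : Γ1 ⊗[k] Γ1) :
    SEP2_φ i (algebraMap (Γ1 ⊗[k] Γ1) (SI k Γ1) s) =
      algebraMap (Γ ⊗[k] Γ) (SI k Γ) (SEP2_f i s) :=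
  Localization.localRingHom_to_map _ _ _ _ _

lemma SEP2_eps (x : SI k Γ1) :
    epsI k Γ (SEP2_φ i x) = i (epsI k Γ1 x) := by
  have h : (epsI k Γ).comp (SEP2_φ i) = i.toRingHom.comp (epsI k Γ1) := by
    apply IsLocalization.ringHom_ext (dI k Γ1).primeCompl
    ext s
    · change epsI k Γ (SEP2_φ i (algebraMap (Γ1 ⊗[k] Γ1) (SI k Γ1) (s ⊗ₜ 1))) =
        i (epsI k Γ1 (algebraMap (Γ1 ⊗[k] Γ1) (SI k Γ1) (s ⊗ₜ 1)))
      rw [SEP2_φ_alg, SEP2_f_tmul, epsI_tmul, epsI_tmul]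
      simp
    · change epsI k Γ (SEP2_φ i (algebraMap (Γ1 ⊗[k] Γ1) (SI k Γ1) (1 ⊗ₜ s))) =
        i (epsI k Γ1 (algebraMap (Γ1 ⊗[k] Γ1) (SI k Γ1) (1 ⊗ₜ s)))
      rw [SEP2_φ_alg, SEP2_f_tmul, epsI_tmul, epsI_tmul]
      simp
  exact congrArg (fun f => f x) h

end SEP2_local

/-- a homogeneous form of degree `n` with coefficients in `I`, evaluated at elements of `I`, lies in `I^(n+1)` -/
lemma SEP2_eval_mem {R ι : Type} [CommRing R] (I : Ideal R) (p : ι → R) (hp : ∀ i, p i ∈ I)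
    (n : ℕ) (c : MvPolynomial ι R) (hc : c.IsHomogeneous n) (hcI : ∀ α, c.coeff α ∈ I) :
    MvPolynomial.eval p c ∈ I ^ (n + 1) := by
  rw [MvPolynomial.eval_eq]
  refine Ideal.sum_mem _ fun α hα => ?_
  rw [pow_succ']
  refine Ideal.mul_mem_mul (hcI α) ?_
  have hd : ∑ i ∈ α.support, α i = n := by
    have := hc (MvPolynomial.mem_support_iff.1 hα)
    rw [← this, Finsupp.weight_apply, Finsupp.sum]
    simp
  rw [← hd, ← Finset.prod_pow_eq_pow_sum]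
  exact Ideal.prod_mem_prod fun i _ => Ideal.pow_mem_pow (hp i) _

/-- the transfer of the exact order from `Γ1` to `Γ` -/
lemma SEP2_transfer {Γ1 : Type} [Field Γ1] [Algebra k Γ1] (i : Γ1 →ₐ[k] Γ)
    (B : Set Γ) (hB : AlgebraicIndependent k ((↑) : B → Γ))
    (hB' : Algebra.IsSeparable (IntermediateField.adjoin k B) Γ)
    (B1 : Set Γ1) (hB1 : ∀ x ∈ B1, i x ∈ B)
    (hsep : Algebra.IsSeparable (IntermediateField.adjoin k B1) Γ1) (s1 : Γ1 ⊗[k] Γ1) (n : ℕ)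
    (hn0 : s1 ∈ (dI k Γ1) ^ n) (hn1 : s1 ∉ (dI k Γ1) ^ (n + 1)) :
    SEP2_f i s1 ∉ (dI k Γ) ^ (n + 1) := by
  classical
  intro hT
  -- the ideals in the local rings
  set a1 : Γ1 ⊗[k] Γ1 →+* SI k Γ1 := algebraMap (Γ1 ⊗[k] Γ1) (SI k Γ1) with ha1
  set a : Γ ⊗[k] Γ →+* SI k Γ := algebraMap (Γ ⊗[k] Γ) (SI k Γ) with ha
  have hI1 : Ideal.map a1 (dI k Γ1) = Ideal.span (Set.range fun x : B1 => a1 (dl k (x : Γ1))) :=
    map_dI_eq B1 hsep
  have hI : Ideal.map a (dI k Γ) = Ideal.span (Set.range fun x : B => a (dl k (x : Γ))) :=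
    map_dI_eq B hB'
  have h1 : a1 s1 ∈ (Ideal.map a1 (dI k Γ1)) ^ n := (map_dI_pow_iff k Γ1 n s1).2 hn0
  have h2 : a1 s1 ∉ (Ideal.map a1 (dI k Γ1)) ^ (n + 1) := fun h =>
    hn1 ((map_dI_pow_iff k Γ1 (n + 1) s1).1 h)
  have h3 : a (SEP2_f i s1) ∈ (Ideal.map a (dI k Γ)) ^ (n + 1) :=
    (map_dI_pow_iff k Γ (n + 1) _).2 hT
  have h1' := h1
  rw [hI1, Ideal.mem_span_pow_iff_exists_isHomogeneous] at h1'
  obtain ⟨c, hc, hcs⟩ := h1'
  -- some coefficient is not in the maximal ideal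
  obtain ⟨α, hα⟩ : ∃ α, c.coeff α ∉ Ideal.map a1 (dI k Γ1) := by
    by_contra hcon
    push Not at hcon
    apply h2
    rw [← hcs]
    refine SEP2_eval_mem _ _ (fun x => ?_) n c hc hcon
    rw [hI1]
    exact Ideal.subset_span ⟨x, rfl⟩
  -- transport to `Γ`
  let ι : B1 → B := fun x => ⟨i (x : Γ1), hB1 _ x.2⟩
  have hι : Function.Injective ι := by
    intro x y hxy
    have := congrArg Subtype.val hxy
    exact Subtype.ext (i.toRingHom.injective this)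
  set c' : MvPolynomial B (SI k Γ) := MvPolynomial.rename ι (MvPolynomial.map (SEP2_φ i) c) with hc'
  have hc'h : c'.IsHomogeneous n := (hc.map _).rename_isHomogeneous
  have hφp : ∀ x : B1, SEP2_φ i (a1 (dl k (x : Γ1))) = a (dl k ((ι x : B) : Γ)) := by
    intro x
    rw [ha1, SEP2_φ_alg, dl, dl, map_sub, SEP2_f_tmul, SEP2_f_tmul, map_one]
  have hev : MvPolynomial.aeval (fun x : B => a (dl k (x : Γ))) c' = a (SEP2_f i s1) := by
    rw [hc', MvPolynomial.aeval_rename]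
    have h5 : a (SEP2_f i s1) = SEP2_φ i (a1 s1) := (SEP2_φ_alg i s1).symm
    rw [h5, ← hcs, MvPolynomial.aeval_def, MvPolynomial.eval₂_map, MvPolynomial.eval,
      MvPolynomial.coe_eval₂Hom, MvPolynomial.eval₂_comp_left]
    congr 1
    funext x
    exact (hφp x).symm
  have hq := quasi_regular (k := k) (fun x : B => a (dl k (x : Γ)))
    (fun F x hx s hs => dl_reg_loc B hB F x hx s hs) n c' hc'h
    (by rw [hev, ← hI]; exact h3) (α.mapDomain ι)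
  rw [hc', MvPolynomial.coeff_rename_mapDomain ι hι, MvPolynomial.coeff_map, ← hI,
    ← epsI_ker, SEP2_eps] at hq
  apply hα
  rw [← epsI_ker]
  exact (map_eq_zero_iff i i.toRingHom.injective).1 hq

/-- (Sep) for `T_1` -/
theorem Dm_sep [IsAlgClosed k] (hsg : SG k Γ) {s : TP k Γ 1} (hs : s ≠ 0) :
    ∃ m, s ∉ Dm k Γ m 0 := by
  classical
  obtain ⟨B, hB, hB'⟩ := hsg
  obtain ⟨Γ1, B1, hfg, -, hB1, hsep, s1, hs1⟩ := exists_subfield B hB' (tp1 k Γ s)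
  have hs1' : SEP2_f Γ1.val s1 = tp1 k Γ s := hs1
  have hs1ne : s1 ≠ 0 := by
    rintro rfl
    rw [map_zero] at hs1'
    exact hs ((tp1 k Γ).injective (by rw [← hs1', map_zero]))
  -- minimal `m`
  have hex := krull_fg hfg s1 hs1ne
  obtain ⟨n, hn0, hn1⟩ : ∃ n, s1 ∈ (dI k Γ1) ^ n ∧ s1 ∉ (dI k Γ1) ^ (n + 1) := by
    have h1 := Nat.find_spec hex
    have h0 : Nat.find hex ≠ 0 := by
      intro h
      rw [h, pow_zero] at h1
      exact h1 (by simp)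
    obtain ⟨n, hn⟩ := Nat.exists_eq_succ_of_ne_zero h0
    refine ⟨n, ?_, ?_⟩
    · by_contra hc
      exact Nat.find_min hex (m := n) (by omega) hc
    · rw [hn] at h1; exact h1
  refine ⟨n + 1, fun hT => ?_⟩
  rw [Dm_iff, ← hs1'] at hT
  exact SEP2_transfer Γ1.val B hB hB' B1 hB1 hsep s1 n hn0 hn1 hT

/-- (Sep): every nonzero tensor with at least one tensor sign has finite order -/
theorem JJ_sep [IsAlgClosed k] (hsg : SG k Γ) {j : ℕ} {s : TP k Γ (j + 1)} (hs : s ≠ 0) :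
    ∃ m, s ∉ JJ k Γ m (j + 1) := by
  cases j with
  | zero =>
    obtain ⟨m, hm⟩ := Dm_sep hsg hs
    exact ⟨m, by rw [JJ_one]; exact hm⟩
  | succ j =>
    obtain ⟨n, U, y, hy, hsU⟩ := exists_glue j s
    obtain ⟨b, hb⟩ : ∃ b, U b ≠ 0 := by
      by_contra hcon
      push Not at hcon
      exact hs (by rw [hsU]; simp [hcon])
    obtain ⟨m, hm⟩ := Dm_sep hsg hb
    refine ⟨m, fun hJ => hm ?_⟩
    have h1 : s ∈ Dm k Γ m (j + 1) := hJ.1
    rw [Dm_eq_glue, hsU, glue_mem_iff j U y hy] at h1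
    exact h1 b

end C74
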