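import Pool.Agent.MP_35f30a_al.C74.Ord

/-!
# Objects, decoration data, extensions, states.   Blueprint sections 1, 2.
-/

set_option autoImplicit false

open scoped TensorProduct Polynomial

namespace C74

/-- an object: a complete QC ring whose residue ring is a separably generated field, with a
total scale `L` -/
structure Obj (k : Type) [Field k] where
  A : Type
  [rA : Ring A]
  [aA : Algebra k[X] A]
  K : Type
  [fK : Field K]
  [aK : Algebra k K]
  π : A →+* K
  qc : IsQC k π
  comp : IsComp k A
  sg : SG k K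
  L : ℕ
  Lpos : 0 < L

attribute [instance] Obj.rA Obj.aA Obj.fK Obj.aK

section
variable {k : Type} [Field k]

/-- `D = A[1/X]` -/
abbrev Obj.D (X : Obj k) : Type := Fr k X.A

/-- `Γ = K(τ) = Frac K[τ^{±1}]` -/
abbrev Obj.Γ (X : Obj k) : Type := FractionRing (LaurentPolynomial X.K)

/-- `s ↦ s τ^n`, `K → Γ` -/
noncomputable def Obj.mon (X : Obj k) (n : ℤ) (s : X.K) : X.Γ :=
  algebraMap (LaurentPolynomial X.K) X.Γ (LaurentPolynomial.C s * LaurentPolynomial.T n)

/-- decoration of an object: a complete QC ring `A1` with residue field `Γ = K(τ)` and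
`dec : D → A1[1/X]` with `res_n (dec d) = res_n(d) τ^n` -/
structure DecData (X : Obj k) where
  A1 : Type
  [r1 : Ring A1]
  [a1 : Algebra k[X] A1]
  π1 : A1 →+* X.Γ
  qc1 : IsQC k π1
  comp1 : IsComp k A1
  dec : X.D →ₐ[k] Fr k A1
  dec_res : ∀ (n : ℤ) (d : X.D) (s : X.K), Fr.Res X.π n d s → Fr.Res π1 n (dec d) (X.mon n s)

attribute [instance] DecData.r1 DecData.a1

end

end C74
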