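import Pool.Agent.MP_35f30a_al.C74.SGA
import Pool.Agent.MP_35f30a_al.C74.Obj

/-!
ROW SGM.  Purely transcendental extensions.  Blueprint section 6.

`SG_mvPoly`: `K' = K(Λ)`, basis `B ∪ Λ`: algebraically independent (`AlgebraicIndependent` over `k` in towers), and `K'` is
generated over `k(B ∪ Λ)` by `K`, which is separable algebraic over `k(B)`.
`SG_laurent`: `Γ = Frac K[τ^{±1}] = K(τ)`; `SG_adjoin` with `u = τ`.
-/

set_option autoImplicit false

open scoped TensorProduct Polynomial

namespace C74

/-- `K' = K(Y)` with `Y` algebraically independent over `K` -/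
theorem SGM_indep {k : Type} [Field k] {K K' Λ : Type} [Field K] [Field K'] [Algebra k K]
    [Algebra k K'] [Algebra K K'] [IsScalarTower k K K'] (Y : Λ → K')
    (hY : AlgebraicIndependent K Y) (hT : IntermediateField.adjoin K (Set.range Y) = ⊤)
    (hK : SG k K) : SG k K' := by
  obtain ⟨B, hBi, hB⟩ := hK
  have hX : AlgebraicIndependent k (Sum.elim Y (algebraMap K K' ∘ ((↑) : B → K))) :=
    hBi.sumElim_comp hY
  refine ⟨_, hX.to_subtype_range, ?_⟩
  set B' : Set K' := Set.range (Sum.elim Y (algebraMap K K' ∘ ((↑) : B → K))) with hB'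
  have hmem : ∀ x ∈ B', IsSeparable (IntermediateField.adjoin k B') x := by
    intro x hx
    exact isSeparable_algebraMap (⟨x, IntermediateField.subset_adjoin k B' hx⟩ :
      IntermediateField.adjoin k B')
  refine SGA_top B hB _ ?_ (Set.range Y) hT ?_
  · intro b hb
    exact hmem _ ⟨Sum.inr ⟨b, hb⟩, rfl⟩
  · rintro v ⟨l, rfl⟩
    exact hmem _ ⟨Sum.inl l, rfl⟩

theorem SG_mvPoly {k : Type} [Field k] {K K' Λ : Type} [Field K] [Field K'] [Algebra k K]
    [Algebra k K'] [Algebra K K'] [IsScalarTower k K K'] [Algebra (MvPolynomial Λ K) K']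
    [IsScalarTower K (MvPolynomial Λ K) K'] [IsFractionRing (MvPolynomial Λ K) K'] (hK : SG k K) :
    SG k K' := by
  refine SGM_indep (fun l : Λ => algebraMap (MvPolynomial Λ K) K' (MvPolynomial.X l)) ?_ ?_ hK
  · have h : AlgebraicIndependent K (MvPolynomial.X : Λ → MvPolynomial Λ K) := by
      rw [algebraicIndependent_iff_injective_aeval, MvPolynomial.aeval_X_left]
      exact Function.injective_id
    exact h.map' (f := IsScalarTower.toAlgHom K (MvPolynomial Λ K) K')
      (IsFractionRing.injective (MvPolynomial Λ K) K')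
  · rw [eq_top_iff]
    intro x _
    set L := IntermediateField.adjoin K
      (Set.range fun l : Λ => algebraMap (MvPolynomial Λ K) K' (MvPolynomial.X l)) with hL
    have hp : ∀ p : MvPolynomial Λ K, algebraMap (MvPolynomial Λ K) K' p ∈ L := by
      intro p
      induction p using MvPolynomial.induction_on with
      | C a =>
        have : algebraMap (MvPolynomial Λ K) K' (MvPolynomial.C a) = algebraMap K K' a := by
          rw [← MvPolynomial.algebraMap_eq, ← IsScalarTower.algebraMap_apply]
        rw [this]
        exact L.algebraMap_mem a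
      | add p q hp hq => rw [map_add]; exact add_mem hp hq
      | mul_X p i hp =>
        rw [map_mul]
        exact mul_mem hp (IntermediateField.subset_adjoin K _ ⟨i, rfl⟩)
    obtain ⟨a, b, hb, rfl⟩ := IsFractionRing.div_surjective (A := MvPolynomial Λ K) x
    exact div_mem (hp a) (hp b)

theorem SG_laurent {k : Type} [Field k] [IsAlgClosed k] (X : Obj k) : SG k X.Γ := by
  refine SG_adjoin X.sg (algebraMap (LaurentPolynomial X.K) X.Γ (LaurentPolynomial.T 1)) ?_
  rw [eq_top_iff]
  intro x _
  set u : X.Γ := algebraMap (LaurentPolynomial X.K) X.Γ (LaurentPolynomial.T 1) with hu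
  set L := IntermediateField.adjoin X.K {u} with hL
  have huL : u ∈ L := IntermediateField.subset_adjoin X.K _ rfl
  have hT : ∀ n : ℤ, algebraMap (LaurentPolynomial X.K) X.Γ (LaurentPolynomial.T n) ∈ L := by
    intro n
    have hpow : ∀ m : ℕ, algebraMap (LaurentPolynomial X.K) X.Γ (LaurentPolynomial.T (m : ℤ)) =
        u ^ m := by
      intro m
      rw [hu, ← map_pow, LaurentPolynomial.T_pow, mul_one]
    have hinv : algebraMap (LaurentPolynomial X.K) X.Γ (LaurentPolynomial.T n) = u ^ n := by
      cases n with
      | ofNat m => exact (hpow m).trans (zpow_natCast u m).symm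
      | negSucc m =>
        rw [zpow_negSucc, ← hpow]
        apply eq_inv_of_mul_eq_one_left
        rw [← map_mul, ← LaurentPolynomial.T_add]
        have h0 : Int.negSucc m + ((m + 1 : ℕ) : ℤ) = 0 := by
          rw [Int.negSucc_eq]; push_cast; ring
        rw [h0, LaurentPolynomial.T_zero, map_one]
    rw [hinv]
    exact zpow_mem huL n
  have hp : ∀ p : LaurentPolynomial X.K, algebraMap (LaurentPolynomial X.K) X.Γ p ∈ L := by
    intro p
    induction p using LaurentPolynomial.induction_on' with
    | add p q hp hq => rw [map_add]; exact add_mem hp hq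
    | C_mul_T n a =>
      rw [map_mul]
      refine mul_mem ?_ (hT n)
      have : algebraMap (LaurentPolynomial X.K) X.Γ (LaurentPolynomial.C a) =
          algebraMap X.K X.Γ a := by
        rw [IsScalarTower.algebraMap_apply X.K (LaurentPolynomial X.K) X.Γ]
        rfl
      rw [this]
      exact L.algebraMap_mem a
  obtain ⟨a, b, hb, rfl⟩ := IsFractionRing.div_surjective (A := LaurentPolynomial X.K) x
  exact div_mem (hp a) (hp b)

end C74
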