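import Pool.Agent.MP_35f30a_al.C74.KF5
import Pool.Agent.MP_35f30a_al.C74.KF7
import Pool.Agent.MP_35f30a_al.C74.SEP2
import Pool.Agent.MP_35f30a_al.C74.SGM

/-!
ROW FD4.  Orders of `k`-tensors.  Blueprint sections 1, 2.1 (e).

`exists_order`: decorated residue `s ≠ 0` (`kF_of_DRes_zero`), `s ∈ JJ 0 = ⊤`, `JJ_sep` (`SG_laurent`) and `JJ_anti` give the largest
`N` with `s ∈ JJ N`.  `OJ_add`: `U` has residue `0` at level `n` (`DRes_of_lt`).  `Good.comp`: `Ext.T` is functorial
(`TP.map_map`), `kF_iff` supplies the level hypothesis for the second step.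
-/

set_option autoImplicit false

open scoped TensorProduct Polynomial

namespace C74

variable {k : Type} [Field k] {X : Obj k}

/-- (e) finite order -/
theorem exists_order [IsAlgClosed k] {j : ℕ} {n : ℤ} {T : TP k X.D (j + 1)}
    (hT : T ∈ kF k X.A (j + 1) n) (hT' : T ∉ kF k X.A (j + 1) (n - 1)) : ∃ N, OJx X n N T := by
  classical
  obtain ⟨s, hs⟩ := exists_DRes hT
  have hs0 : s ≠ 0 := by
    rintro rfl
    exact hT' (kF_of_DRes_zero hT hs)
  have hex := JJ_sep (SG_laurent X) hs0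
  have hm := Nat.find_spec hex
  have hmin := fun m => Nat.find_min hex (m := m)
  set m := Nat.find hex with hmdef
  cases hmm : m with
  | zero =>
    rw [hmm, JJ_zero] at hm
    exact absurd Submodule.mem_top hm
  | succ N =>
    have h1 : s ∈ JJ k X.Γ N (j + 1) := by
      by_contra h2
      exact hmin N (by omega) h2
    refine ⟨N, ⟨hT, s, hs, h1⟩, ?_⟩
    rintro ⟨_, s', hs', h2⟩
    rw [DRes_unique hs' hs] at h2
    rw [hmm] at hm
    exact hm h2

/-- the exact order at level `n` forces the exact level `n` -/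
theorem OJx.level {j : ℕ} {n : ℤ} {N : ℕ} {T : TP k X.D j} (h : OJx X n N T) :
    T ∈ kF k X.A j n ∧ T ∉ kF k X.A j (n - 1) :=
  ⟨h.1.1, fun h1 => h.2 ⟨h.1.1, 0, DRes_of_lt h1, Submodule.zero_mem _⟩⟩

/-- orders are insensitive to smaller terms -/
theorem OJ_add {j : ℕ} {n : ℤ} {m : ℕ} {T U : TP k X.D j}
    (hU : U ∈ kF k X.A j (n - 1)) : OJ X n m (T + U) ↔ OJ X n m T := by
  have hU' : U ∈ kF k X.A j n := kF_mono (by omega) hU
  have hU0 : DRes X n U 0 := DRes_of_lt hU
  constructor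
  · rintro ⟨h1, s, hs, hsm⟩
    have hT : T ∈ kF k X.A j n := by
      have h2 := Submodule.sub_mem _ h1 hU'
      rwa [add_sub_cancel_right] at h2
    obtain ⟨s', hs'⟩ := exists_DRes hT
    have h3 := DRes_add hs' hU0
    rw [add_zero] at h3
    rw [DRes_unique hs h3] at hsm
    exact ⟨hT, s', hs', hsm⟩
  · rintro ⟨h1, s, hs, hsm⟩
    have h3 := DRes_add hs hU0
    rw [add_zero] at h3
    exact ⟨Submodule.add_mem _ h1 hU', s, h3, hsm⟩

theorem OJ_anti {j : ℕ} {n : ℤ} {m m' : ℕ} (h : m ≤ m') {T : TP k X.D j}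
    (hT : OJ X n m' T) : OJ X n m T := by
  obtain ⟨h1, s, hs, hsm⟩ := hT
  exact ⟨h1, s, hs, JJ_anti h j hsm⟩

/-- order `0` is no condition -/
theorem OJ_zero {j : ℕ} {n : ℤ} {T : TP k X.D j} (hT : T ∈ kF k X.A j n) : OJ X n 0 T := by
  obtain ⟨s, hs⟩ := exists_DRes hT
  refine ⟨hT, s, hs, ?_⟩
  rw [JJ_zero]
  exact Submodule.mem_top

theorem Ext.comp_T {X' X'' : Obj k} (g : Ext X' X'') (f : Ext X X') (j : ℕ) (T : TP k X.D j) :
    (g.comp f).T j T = g.T j (f.T j T) := by
  induction j with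
  | zero =>
    have h1 : T = TP.ofA (TP.toA T) := rfl
    rw [h1, Ext.T_ofA, Ext.T_ofA, Ext.T_ofA]
    rfl
  | succ j ih =>
    induction T using TP.succ_induction with
    | h0 => rw [map_zero, map_zero, map_zero]
    | hc a t =>
      rw [Ext.T_cons, Ext.T_cons, Ext.T_cons, ih]
      rfl
    | ha x y hx hy => rw [map_add, map_add, map_add, hx, hy]

theorem Ext.id_T (j : ℕ) (T : TP k X.D j) : (Ext.id X).T j T = T := by
  induction j with
  | zero =>
    have h1 : T = TP.ofA (TP.toA T) := rfl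
    rw [h1, Ext.T_ofA]
    rfl
  | succ j ih =>
    induction T using TP.succ_induction with
    | h0 => rw [map_zero]
    | hc a t =>
      rw [Ext.T_cons, ih]
      rfl
    | ha x y hx hy => rw [map_add, hx, hy]

/-- composition of good extensions -/
theorem Ext.Good.comp {X' X'' : Obj k} {g : Ext X' X''} {f : Ext X X'} (hg : g.Good)
    (hf : f.Good) : (g.comp f).Good := by
  intro j n m T hT
  have hM : (f.M : ℤ) ≠ 0 := by
    have := f.Mpos
    positivity
  have h1 : f.T j T ∈ kF k X'.A j ((f.M : ℤ) * n) := by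
    rw [f.kF_iff, Int.mul_ediv_cancel_left _ hM]
    exact hT
  have h2 : (((g.comp f).M : ℕ) : ℤ) * n = (g.M : ℤ) * ((f.M : ℤ) * n) := by
    have h3 : (g.comp f).M = f.M * g.M := rfl
    rw [h3]
    push_cast
    ring
  rw [hf j n m T hT, hg j _ m _ h1, h2, Ext.comp_T]

theorem Ext.Good.id (X : Obj k) : (Ext.id X).Good := by
  intro j n m T hT
  have h1 : (((Ext.id X).M : ℕ) : ℤ) * n = n := by
    have h3 : (Ext.id X).M = 1 := rfl
    rw [h3]
    simp
  rw [h1, Ext.id_T]

/-- good extensions preserve exact orders -/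
theorem Ext.Good.OJx {X' : Obj k} {f : Ext X X'} (hf : f.Good) {j : ℕ} {n : ℤ} {N : ℕ}
    {T : TP k X.D j} (h : OJx X n N T) : OJx X' ((f.M : ℤ) * n) N (f.T j T) :=
  ⟨(hf j n N T h.1.1).1 h.1, fun h2 => h.2 ((hf j n (N + 1) T h.1.1).2 h2)⟩

end C74
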