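import Pool.Agent.MP_35f30a_al.C74.KF6
import Pool.Agent.MP_35f30a_al.C74.FD4

/-!
ROW FD3.  Functional data detecting the exact order.  Blueprint section 2.1 (d).

Induction on `j`; `s` the decorated residue of `T` at level `n`: `s ∈ JJ N (j+1)`, `s ∉ JJ (N+1) (j+1)`.
`j = 0`: `base1`.   `j = j'+1`:  `JJ (N+1) (j+1) = Dm (N+1) j ⊓ span {cons a u | u ∈ JJ (N+1) j}`, so one of:
(i) `s ∉ span {cons a u | u ∈ JJ (N+1) j}`: `T = Σ cons (e l) (t l)` adapted (`exists_orth_rep`), `t l ∈ kF (n - sz l)`, residues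
   `s_l`; `s = Σ cons (mon (sz l) (b l)) s_l` with independent left factors (`orth_mon_indep`); by `cons_mem_iff` all
   `s_l ∈ JJ N j`, some `s_l ∉ JJ (N+1) j`: `OJx X (n - sz l) N (t l)`.  Induction hypothesis for `t l`; `IsFD.left` with `ψ` from
   `OrthF.functional` (`peel ψ T = t l`).
(ii) `s ∉ Dm (N+1) j` (`j = j'+1`): `T = Σ glue (U b) (y b)`, `y` adapted in `T_{j'}(D)` (`exists_orth_glue`), residues `r_b` of `U b` at
   level `n - sz b` (`orth_glue_iff`), `z_b` of `y b`; `s = Σ glue r_b z_b` (`DRes_glue`), `z` independent (`orthT_indep`); by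
   `glue_mem_iff`, `Dm_eq_glue`: all `r_b ∈ Dm N 0`, some `r_b ∉ Dm (N+1) 0`: `OJx X (n - sz b) N (U b)` (`JJ_one`).  `IsFD.base2` with `Ψ` from
   `OrthF.functional`: `psi2 Ψ T = U b`.
-/

set_option autoImplicit false

open scoped TensorProduct Polynomial

namespace C74

variable {k : Type} [Field k] {X : Obj k}

theorem FD3_OJx_of_res {j : ℕ} {n : ℤ} {N : ℕ} {T : TP k X.D j} (hT : T ∈ kF k X.A j n)
    {s : TP k X.Γ j} (hs : DRes X n T s) (h1 : s ∈ JJ k X.Γ N j) (h2 : s ∉ JJ k X.Γ (N + 1) j) :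
    OJx X n N T := by
  refine ⟨⟨hT, s, hs, h1⟩, ?_⟩
  rintro ⟨_, s', hs', h3⟩
  rw [DRes_unique hs' hs] at h3
  exact h2 h3

theorem FD3_res_of_OJx {j : ℕ} {n : ℤ} {N : ℕ} {T : TP k X.D j} (h : OJx X n N T) :
    T ∈ kF k X.A j n ∧ ∃ s, DRes X n T s ∧ s ∈ JJ k X.Γ N j ∧ s ∉ JJ k X.Γ (N + 1) j := by
  obtain ⟨⟨hT, s, hs, h1⟩, h2⟩ := h
  exact ⟨hT, s, hs, h1, fun h3 => h2 ⟨hT, s, hs, h3⟩⟩

/-- (d) existence of functional data detecting the exact order -/
theorem exists_FD {j : ℕ} {n : ℤ} {N : ℕ} {T : TP k X.D (j + 1)} (hT : OJx X n N T) :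
    ∃ (v : ℤ) (Θ2 : TP k X.D (j + 1) →ₗ[k] TP k X.D 1) (θ : TP k X.D j →ₗ[k] TP k X.D 0),
      IsFD X j v Θ2 θ ∧ OJx X (n - v) N (Θ2 T) := by
  classical
  induction j generalizing n with
  | zero =>
    refine ⟨0, LinearMap.id, LinearMap.id, IsFD.base1, ?_⟩
    rw [sub_zero]
    exact hT
  | succ j ih =>
    obtain ⟨hTn, s, hs, h1, h2⟩ := FD3_res_of_OJx hT
    have h1' : s ∈ Dm k X.Γ N (j + 1) ∧ s ∈ Submodule.span k
        {z | ∃ (a : X.Γ) (u : TP k X.Γ (j + 1)), u ∈ JJ k X.Γ N (j + 1) ∧ z = TP.cons a u} :=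
      Submodule.mem_inf.1 h1
    by_cases hc : s ∈ Submodule.span k
        {z | ∃ (a : X.Γ) (u : TP k X.Γ (j + 1)), u ∈ JJ k X.Γ (N + 1) (j + 1) ∧ z = TP.cons a u}
    · -- (ii)
      have hD : s ∉ Dm k X.Γ (N + 1) (j + 1) := fun h3 => h2 (Submodule.mem_inf.2 ⟨h3, hc⟩)
      obtain ⟨m, y, sz, U, hy, hTU⟩ := exists_orth_glue (fun T => kF_sep0 (lev_sep X) T) T
      have hU : ∀ b, U b ∈ kF k X.A 1 (n - sz b) := by
        rw [← orth_glue_iff hy U n, ← hTU]
        exact hTn
      choose r hr using fun b => exists_DRes (hU b)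
      choose z hz using fun b => exists_DRes (hy.1 b)
      have hsum : DRes X n T (∑ b, glue j (r b) (z b)) := by
        rw [hTU]
        refine DRes_sum _ fun b _ => ?_
        have h3 := DRes_glue (hr b) (hz b)
        rwa [sub_add_cancel] at h3
      have hse : s = ∑ b, glue j (r b) (z b) := DRes_unique hs hsum
      have hzi : LinearIndependent k z := orthT_indep hy hz
      have hall : ∀ b, r b ∈ Dm k X.Γ N 0 := by
        rw [← glue_mem_iff j r z hzi, ← Dm_eq_glue, ← hse]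
        exact h1'.1
      have hex : ∃ b, r b ∉ Dm k X.Γ (N + 1) 0 := by
        by_contra hcon
        push Not at hcon
        rw [← glue_mem_iff j r z hzi, ← Dm_eq_glue, ← hse] at hcon
        exact hD hcon
      obtain ⟨b, hb⟩ := hex
      obtain ⟨Ψ, hΨ1, hΨ0, hΨ⟩ := hy.functional (fun m n h => kF_mono h) b
      refine ⟨sz b, psi2 j Ψ, psi1 j Ψ, IsFD.base2 j (sz b) Ψ hΨ, ?_⟩
      have hval : psi2 j Ψ T = U b := by
        rw [hTU, map_sum, Finset.sum_eq_single b]
        · rw [psi2_glue, hΨ1, one_smul]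
        · intro b' _ hb'
          rw [psi2_glue, hΨ0 b' hb', zero_smul]
        · intro h
          exact absurd (Finset.mem_univ b) h
      rw [hval]
      refine FD3_OJx_of_res (hU b) (hr b) ?_ ?_
      · rw [JJ_one]
        exact hall b
      · rw [JJ_one]
        exact hb
    · -- (i)
      obtain ⟨m, e, sz, t, he, hTt⟩ := exists_orth_rep (lev_sep X) T
      have ht : ∀ l, t l ∈ kF k X.A (j + 1) (n - sz l) := by
        rw [← orth_kF_iff he t n, ← hTt]
        exact hTn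
      choose sl hsl using fun l => exists_DRes (ht l)
      choose b hb using fun l => exists_res (he.1 l)
      have hsum : DRes X n T (∑ l, TP.cons (X.mon (sz l) (b l)) (sl l)) := by
        rw [hTt]
        refine DRes_sum _ fun l _ => ?_
        have h3 := DRes_cons (hb l) (hsl l)
        rwa [add_sub_cancel] at h3
      have hse : s = ∑ l, TP.cons (X.mon (sz l) (b l)) (sl l) := DRes_unique hs hsum
      have hbi : LinearIndependent k (fun l => X.mon (sz l) (b l)) := orth_mon_indep he hb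
      have hall : ∀ l, sl l ∈ JJ k X.Γ N (j + 1) := by
        rw [← cons_mem_iff (j + 1) _ hbi sl, ← hse]
        exact h1'.2
      have hex : ∃ l, sl l ∉ JJ k X.Γ (N + 1) (j + 1) := by
        by_contra hcon
        push Not at hcon
        rw [← cons_mem_iff (j + 1) _ hbi sl, ← hse] at hcon
        exact hc hcon
      obtain ⟨l, hl⟩ := hex
      obtain ⟨v, Θ2, θ, hFD, hOJ⟩ := ih (FD3_OJx_of_res (ht l) (hsl l) (hall l) hl)
      obtain ⟨ψ, hψ1, hψ0, hψ⟩ := he.functional (fun m n h => lev_mono h) l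
      refine ⟨sz l + v, Θ2 ∘ₗ peel (j + 1) ψ, θ ∘ₗ peel j ψ, IsFD.left j (sz l) v ψ hψ Θ2 θ hFD, ?_⟩
      have hval : peel (j + 1) ψ T = t l := by
        rw [hTt, map_sum, Finset.sum_eq_single l]
        · rw [peel_cons, hψ1, one_smul]
        · intro l' _ hl'
          rw [peel_cons, hψ0 l' hl', zero_smul]
        · intro h
          exact absurd (Finset.mem_univ l) h
      rw [LinearMap.comp_apply, hval, ← sub_sub]
      exact hOJ

end C74
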