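import Pool.Agent.MP_35f30a_al.C74.QC

/-!
ROW FLT.  Complete `X`-regular modules are flat over `k[X]`.

A nonzero polynomial is `X^n (c + X q)` with `c ≠ 0` in `k`; on a complete module `c + X q` acts injectively
(if `(c + X q) m = 0` then `m ∈ ⋂ X^n M = 0`), `X` acts injectively, so `M` is torsion free over the PID
`k[X]`, hence flat (`Module.Flat.flat_iff_torsion_eq_bot_of_isBezout`).
-/

set_option autoImplicit false

open scoped TensorProduct Polynomial

namespace C74

variable {k : Type} [Field k]

theorem FLT_pow {M : Type} [AddCommGroup M] [Module k[X] M] (hr : XReg k M) (n : ℕ) (m : M)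
    (h : (tX k) ^ n • m = 0) : m = 0 := by
  induction n with
  | zero => simpa using h
  | succ n ih =>
    apply ih
    apply hr
    rw [smul_smul, ← pow_succ']
    exact h

theorem FLT_tf {M : Type} [AddCommGroup M] [Module k[X] M] (hr : XReg k M)
    (hc : IsComp k M) (p : k[X]) (hp : p ≠ 0) (m : M) (h : p • m = 0) : m = 0 := by
  obtain ⟨q, hq, hnd⟩ := Polynomial.exists_eq_pow_rootMultiplicity_mul_and_not_dvd p hp 0
  rw [Polynomial.C_0, sub_zero] at hq hnd
  have hc0 : q.coeff 0 ≠ 0 := by
    rwa [Ne, ← Polynomial.X_dvd_iff]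
  have h1 : q • m = 0 := by
    refine FLT_pow hr (p.rootMultiplicity 0) (q • m) ?_
    rw [smul_smul]
    rw [← hq]
    exact h
  have h2 : q = Polynomial.C (q.coeff 0) + Polynomial.X * q.divX := by
    rw [add_comm]; exact (Polynomial.X_mul_divX_add q).symm
  set c := q.coeff 0 with hcdef
  set s : k[X] := -(Polynomial.C c⁻¹ * q.divX) with hs
  have h3 : m = tX k • (s • m) := by
    have h4 : Polynomial.C c⁻¹ * q = 1 + Polynomial.X * (Polynomial.C c⁻¹ * q.divX) := by
      conv_lhs => rw [h2]
      rw [mul_add, ← Polynomial.C_mul, inv_mul_cancel₀ hc0, Polynomial.C_1]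
      ring
    have h5 : (Polynomial.C c⁻¹ * q) • m = 0 := by rw [mul_smul, h1, smul_zero]
    rw [h4, add_smul, one_smul] at h5
    rw [smul_smul, hs, mul_neg, neg_smul]
    exact eq_neg_of_add_eq_zero_left h5
  refine hc.sep m fun n => ⟨s ^ n • m, ?_⟩
  induction n with
  | zero => simp
  | succ n ih =>
    conv_lhs => rw [ih]
    conv_lhs => rw [h3]
    rw [smul_smul, smul_smul, smul_smul, smul_smul]
    congr 1
    ring

theorem flat_of_comp {M : Type} [AddCommGroup M] [Module k[X] M] (hr : XReg k M)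
    (hc : IsComp k M) : Module.Flat k[X] M := by
  rw [Module.Flat.flat_iff_torsion_eq_bot_of_isBezout, eq_bot_iff]
  intro m hm
  rw [Submodule.mem_torsion_iff] at hm
  obtain ⟨⟨p, hp⟩, h⟩ := hm
  rw [Submodule.mem_bot]
  exact FLT_tf hr hc p (nonZeroDivisors.ne_zero hp) m h

end C74
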