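import Pool.Agent.MP_35f30a_al.C74.FN1
import Pool.Agent.MP_35f30a_al.C74.FN2
import Pool.Agent.MP_35f30a_al.C74.MC5

/-!
ROW FN3.  Main theorem over an algebraically closed field, finitely many letters.  Blueprint section 7.

`exists_init`, `n : V → ℕ` injective, `x' v := x (n v)`; `exists_fam`: `d, g, c`.
If `c = 0`: apply `FreeAlgebra.lift (fun _ => 0) : FreeAlgebra k V → k` to `Σ u_i f v_i = 1`: `0 = 1`.
If `c ≠ 0`: `Crit X d g 0 0 d`: `g 0` is a nonzero scalar: exact size `0` (residue `c ≠ 0` at level `0`); `g j ∈ kF 0`; `g d ∉ kF (-1)`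
(`FTx_iff`, `L = 1`).  `theoremA`: for every `B` there are `X', h, z ∈ F (1)` with `h.st d z g 0 ∈ FT (-B)`.
`Φ := FreeAlgebra.lift k (fun i => h.φ (x' i) * z)`; `h.φ (x' i) ∈ F 0`, so `Φ(word of length m) ∈ F (m)` (`F_mul`), and
`Φ u ∈ F (D)`, `Φ v ∈ F (D)` for a common bound `D` of the lengths of the words in all `u_i, v_i` (depends only on `u, v`).
Take `B := 2 D + 1`: `1 = Σ Φ u_i · Φ f · Φ v_i ∈ F (-1)`; but `1 ∉ F (-1)` (residue `1 ≠ 0` at level `0`).
-/

set_option autoImplicit false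

open scoped TensorProduct Polynomial

namespace C74

/-- the residue of a scalar -/
theorem FN3_res {k : Type} [Field k] (X : Obj k) (c : k) :
    Fr.Res X.π 0 (algebraMap k X.D c) (algebraMap k X.K c) := by
  refine ⟨algebraMap k[X] X.A (Polynomial.C c), ?_, X.qc.scal c⟩
  rw [neg_zero, Fr.tz_zero, one_mul, AlgHom.commutes]
  rfl

theorem FN3_not_mem {k : Type} [Field k] (X : Obj k) {c : k} (hc : c ≠ 0) :
    algebraMap k X.D c ∉ Fr.lev k X.A (-1) := by
  intro h
  have h1 : algebraMap k X.D c ∈ Fr.lev k X.A (0 - 1) := by simpa using h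
  rw [mem_lev_iff_res (FN3_res X c)] at h1
  exact hc ((algebraMap k X.K).injective (by rw [h1, map_zero]))

theorem FN3_mem {k : Type} [Field k] (X : Obj k) (c : k) :
    algebraMap k X.D c ∈ Fr.lev k X.A 0 := by
  obtain ⟨a, ha, -⟩ := FN3_res X c
  exact ⟨a, ha⟩

theorem FN3_F0 {k : Type} [Field k] (X : Obj k) (a : X.D) :
    a ∈ X.F 0 ↔ a ∈ Fr.lev k X.A 0 := by
  unfold Obj.F
  rw [mul_zero, Int.floor_zero]

theorem FN3_FT0 {k : Type} [Field k] (X : Obj k) {j : ℕ} (T : TP k X.D j) :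
    T ∈ X.FT j 0 ↔ T ∈ kF k X.A j 0 := by
  unfold Obj.FT
  rw [mul_zero, Int.floor_zero]

/-- words of bounded length have bounded values -/
theorem FN3_bound {k : Type} [Field k] {X : Obj k} {V : Type} (x : V → X.D)
    (hx : ∀ v, x v ∈ Fr.lev k X.A 0) (u : FreeAlgebra k V) :
    ∃ D : ℕ, ∀ (X' : Obj k) (h : Ext X X') (z : X'.D), z ∈ X'.F 1 →
      FreeAlgebra.lift k (fun i => h.φ (x i) * z) u ∈ X'.F D := by
  induction u using FreeAlgebra.induction with
  | grade0 r =>
    refine ⟨0, fun X' h z hz => ?_⟩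
    rw [AlgHom.commutes, Nat.cast_zero, FN3_F0]
    exact FN3_mem X' r
  | grade1 v =>
    refine ⟨1, fun X' h z hz => ?_⟩
    rw [FreeAlgebra.lift_ι_apply, Nat.cast_one]
    have h1 : h.φ (x v) ∈ X'.F 0 := by
      rw [h.F_iff, FN3_F0]
      exact hx v
    have h2 := F_mul h1 hz
    rwa [zero_add] at h2
  | mul a b ha hb =>
    obtain ⟨D, hD⟩ := ha
    obtain ⟨D', hD'⟩ := hb
    refine ⟨D + D', fun X' h z hz => ?_⟩
    rw [map_mul, Nat.cast_add]
    exact F_mul (hD X' h z hz) (hD' X' h z hz)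
  | add a b ha hb =>
    obtain ⟨D, hD⟩ := ha
    obtain ⟨D', hD'⟩ := hb
    refine ⟨D + D', fun X' h z hz => ?_⟩
    rw [map_add]
    refine Submodule.add_mem _ (F_mono ?_ (hD X' h z hz)) (F_mono ?_ (hD' X' h z hz))
    · push_cast
      have : (0 : ℚ) ≤ (D' : ℚ) := Nat.cast_nonneg _
      linarith
    · push_cast
      have : (0 : ℚ) ≤ (D : ℚ) := Nat.cast_nonneg _
      linarith

/-- main theorem over an algebraically closed field, finitely many letters -/
theorem main_finite (k : Type) [Field k] [IsAlgClosed k] (V : Type) [Finite V]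
    (f : FreeAlgebra k V) (hf : f ∉ Set.range (algebraMap k (FreeAlgebra k V)))
    (n : ℕ) (u v : Fin n → FreeAlgebra k V) : ∑ i, u i * f * v i ≠ 1 := by
  classical
  intro hsum
  obtain ⟨X, x, b, hL, hx, hb⟩ := exists_init k
  obtain ⟨m, ⟨eV⟩⟩ := Finite.exists_equiv_fin V
  set nn : V → ℕ := fun v => (eV v : ℕ) with hnn
  have hinj : Function.Injective nn := fun a b hab => eV.injective (Fin.ext hab)
  obtain ⟨d, g, c, h1d, hgd, hg0, hc0, hgk, hgd', hval⟩ :=
    exists_fam X hL V (fun v => x (nn v)) (fun v => b (nn v)) (fun v => hx _)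
      (hb.comp nn hinj) f hf
  rcases eq_or_ne c 0 with rfl | hc
  · -- no constant term
    have h1 := congrArg (FreeAlgebra.lift k (fun _ : V => (0 : k))) hsum
    rw [map_sum, map_one] at h1
    have h2 : ∀ i ∈ Finset.univ,
        FreeAlgebra.lift k (fun _ : V => (0 : k)) (u i * f * v i) = 0 := by
      intro i _
      rw [map_mul, map_mul, hc0, mul_zero, zero_mul]
    rw [Finset.sum_eq_zero h2] at h1
    exact zero_ne_one h1
  · have hxl : ∀ w : V, x (nn w) ∈ Fr.lev k X.A 0 := by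
      intro w
      obtain ⟨a, ha, -⟩ := hx (nn w)
      exact ⟨a, ha⟩
    have hz0 : ((0 : ℤ) : ℚ) / X.L = 0 := by simp
    have hC : Crit X d g 0 0 d := by
      refine ⟨h1d, le_rfl, ?_, ?_, ?_, ?_⟩
      · rw [FTx_iff]
        refine ⟨0, hz0.symm, hgk 0, ?_⟩
        rw [hg0]
        intro h1
        exact FN3_not_mem X hc h1
      · intro j _ _
        rw [mul_zero, sub_zero, FN3_FT0]
        exact hgk j
      · rw [mul_zero, sub_zero, FTx_iff]
        exact ⟨0, hz0.symm, hgk d, hgd'⟩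
      · intro j h1 h2
        omega
    have hG := theoremA d X d g 0 0 hgd hC
    choose Du hDu using fun i => FN3_bound (X := X) (fun w : V => x (nn w)) hxl (u i)
    choose Dv hDv using fun i => FN3_bound (X := X) (fun w : V => x (nn w)) hxl (v i)
    set D : ℕ := ∑ i, (Du i + Dv i) with hD
    obtain ⟨X', h, z, hz, hst⟩ := hG ((D : ℚ) + 1)
    have hz1 : z ∈ X'.F 1 := by simpa using hz
    set Φ := FreeAlgebra.lift k (fun i => h.φ (x (nn i)) * z) with hΦ
    have hΦf : Φ f ∈ X'.F (-((D : ℚ) + 1)) := by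
      have h1 := hval X' h z
      rw [← h1]
      exact hst
    have h1 := congrArg Φ hsum
    rw [map_sum, map_one] at h1
    have h2 : (1 : X'.D) ∈ X'.F (-1) := by
      rw [← h1]
      refine Submodule.sum_mem _ fun i _ => ?_
      rw [map_mul, map_mul]
      refine F_mono ?_ (F_mul (F_mul (hDu i X' h z hz1) hΦf) (hDv i X' h z hz1))
      have h3 : Du i + Dv i ≤ D :=
        Finset.single_le_sum (f := fun i => Du i + Dv i) (fun _ _ => Nat.zero_le _)
          (Finset.mem_univ i)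
      have h4 : ((Du i : ℚ) + (Dv i : ℚ)) ≤ (D : ℚ) := by exact_mod_cast h3
      linarith
    have h3 : (1 : X'.D) ∈ Fr.lev k X'.A (-1) := by
      refine lev_mono ?_ h2
      have hL' : (1 : ℤ) ≤ (X'.L : ℤ) := by
        have := X'.Lpos
        omega
      have h5 : (X'.L : ℚ) * (-1) = ((-(X'.L : ℤ) : ℤ) : ℚ) := by push_cast; ring
      rw [h5, Int.floor_intCast]
      omega
    have h4 := FN3_not_mem X' (one_ne_zero (α := k))
    rw [map_one] at h4
    exact h4 h3

end C74
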