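import Pool.Agent.MP_35f30a_al.C74.Ord

/-!
Definitions for the free QC extension (no row).  Blueprint section 4.2.
-/

set_option autoImplicit false

open scoped TensorProduct Polynomial
open MulOpposite (op)

namespace C74

/-- input data of FREE: a complete near-central `O`-bimodule `N` (left action `L`, right action `R`) with a
topological left basis `e, m_i` -/
structure NCB (k : Type) [Field k] {O : Type} [Ring O] [Algebra k[X] O] {Γ : Type} [Field Γ]
    (πO : O →+* Γ) (N : Type) [AddCommGroup N] [Module k[X] N] (Λ0 : Type) where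
  L : O →ₐ[k[X]] Module.End k[X] N
  R : Oᵐᵒᵖ →ₐ[k[X]] Module.End k[X] N
  comm : ∀ a b, L a * R b = R b * L a
  e : N
  m : Λ0 → N
  reg : XReg k N
  comp : IsComp k N
  he : ∀ b : O, L b e = R (op b) e
  nc : ∀ (b : O) (n : N), ∃ n' : N, L b n - R (op b) n = tX k • n'
  gen : ∀ n : N, ∃ (a0 : O) (a : Λ0 →₀ O) (n' : N),
    n = L a0 e + a.sum (fun i c => L c (m i)) + tX k • n'
  ind : ∀ (a0 : O) (a : Λ0 →₀ O) (n' : N), L a0 e + a.sum (fun i c => L c (m i)) = tX k • n' →
    πO a0 = 0 ∧ ∀ i, πO (a i) = 0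

/-- the completed left `O`-, right `U`-module `𝔉 = (O ⊗ U)^` -/
structure FMod (k : Type) [Field k] {O : Type} [Ring O] [Algebra k[X] O] {Γ : Type} [Field Γ]
    [Algebra k Γ] (πO : O →+* Γ) {Λ : Type} {U : Type} [Ring U] [Algebra k[X] U]
    (ρ : U →+* MvPolynomial Λ k) where
  F : Type
  [grp : AddCommGroup F]
  [mod : Module k[X] F]
  reg : XReg k F
  comp : IsComp k F
  L : O →ₐ[k[X]] Module.End k[X] F
  R : Uᵐᵒᵖ →ₐ[k[X]] Module.End k[X] F
  comm : ∀ b u, L b * R u = R u * L b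
  one : F
  p : F →+ MvPolynomial Λ Γ
  psurj : Function.Surjective p
  pker : ∀ x, p x = 0 → ∃ y, x = tX k • y
  pX : ∀ y, p (tX k • y) = 0
  pL : ∀ b x, p (L b x) = MvPolynomial.C (πO b) * p x
  pR : ∀ u x, p (R (op u) x) = p x * MvPolynomial.map (algebraMap k Γ) (ρ u)
  pone : p one = 1
  univ : ∀ (E : Type) [AddCommGroup E] [Module k[X] E], IsComp k E →
    ∀ β : O →ₗ[k[X]] U →ₗ[k[X]] E, ∃! h : F →ₗ[k[X]] E, ∀ b u, h (L b (R (op u) one)) = β b u

attribute [instance] FMod.grp FMod.mod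

section op
variable {k : Type} [Field k] {O : Type} [Ring O] [Algebra k[X] O] {F : Type} [AddCommGroup F]
  [Module k[X] F] (L : O →ₐ[k[X]] Module.End k[X] F)

/-- iterated commutators `ad_{b1} ... ad_{bm} q` -/
noncomputable def adL (bs : List O) (q : Module.End k[X] F) : Module.End k[X] F :=
  bs.foldr (fun b q => L b * q - q * L b) q

variable {U : Type} [Ring U] [Algebra k[X] U] (R : Uᵐᵒᵖ →ₐ[k[X]] Module.End k[X] F)

/-- `q` commutes with the right `U`-action and `ad_{b1} ... ad_{bm} q ∈ X^m End` for all `b_i ∈ O` -/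
def IsOp (q : Module.End k[X] F) : Prop :=
  (∀ u, q * R u = R u * q) ∧
    ∀ bs : List O, ∃ q' : Module.End k[X] F, adL L bs q = (tX k) ^ bs.length • q'

end op

end C74
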