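import Pool.Agent.MP_35f30a_al.C74.FRD
import Pool.Agent.MP_35f30a_al.C74.CPM
import Pool.Agent.MP_35f30a_al.C74.FLT

/-!
ROW FRE1.  Existence of `𝔉 = (O ⊗_{k[X]} U)^`.  Blueprint section 4.2.

`O ⊗[k[X]] U` is `X`-regular: `O` is flat (`flat_of_comp`) and `X` is injective on `U`.  `F := ` its completion
(`exists_complM`), `c` the canonical map, `one := c (1 ⊗ 1)`.  `L b`, `R (op u)` are the unique extensions of
`b' ⊗ u' ↦ b b' ⊗ u'`, `b' ⊗ u' ↦ b' ⊗ u' u` (uniqueness gives ring homs and commutation).  `p` is the extension of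
`b ⊗ u ↦ C (πO b) * map (ρ u)`: as an additive map killing `X F` (`F/X = (O ⊗ U)/X`); kernel:
`(O ⊗_{k[X]} U)/X = Γ ⊗_k MvPolynomial Λ k ≅ MvPolynomial Λ Γ` (`MvPolynomial.algebraTensorAlgEquiv`; right
exactness of the tensor product).  `univ`: `TensorProduct.lift` and the universal property of the completion.
-/

set_option autoImplicit false

open scoped TensorProduct Polynomial
open MulOpposite (op)

namespace C74

variable {k : Type} [Field k]

section FRE1_aux

/-- extension of endomorphisms to the completion, as an algebra hom -/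
theorem FRE1_ext {T F : Type} [AddCommGroup T] [Module k[X] T] [AddCommGroup F] [Module k[X] F]
    (c : T →ₗ[k[X]] F)
    (hu : ∀ f : T →ₗ[k[X]] F, ∃! f' : F →ₗ[k[X]] F, ∀ m, f' (c m) = f m) :
    ∃ e : Module.End k[X] T →ₐ[k[X]] Module.End k[X] F, ∀ φ m, e φ (c m) = c (φ m) := by
  choose e he hun using fun φ : Module.End k[X] T => hu (c ∘ₗ φ)
  have he' : ∀ φ m, e φ (c m) = c (φ m) := fun φ m => he φ m
  have key : ∀ (φ : Module.End k[X] T) (ψ : Module.End k[X] F), (∀ m, ψ (c m) = c (φ m)) →
      ψ = e φ := fun φ ψ h => hun φ ψ h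
  refine ⟨{ toFun := e, map_one' := ?_, map_mul' := ?_, map_zero' := ?_, map_add' := ?_,
            commutes' := ?_ }, he'⟩
  · exact (key 1 1 (fun m => rfl)).symm
  · intro φ ψ
    refine (key _ _ (fun m => ?_)).symm
    rw [Module.End.mul_apply, he', he', Module.End.mul_apply]
  · exact (key 0 0 (fun m => by simp)).symm
  · intro φ ψ
    refine (key _ _ (fun m => ?_)).symm
    rw [LinearMap.add_apply, he', he', LinearMap.add_apply, map_add]
  · intro r
    refine (key _ _ (fun m => ?_)).symm
    rw [Module.algebraMap_end_apply, Module.algebraMap_end_apply, map_smul]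

variable {O : Type} [Ring O] [Algebra k[X] O] {Γ : Type} [Field Γ] [Algebra k Γ]
    {πO : O →+* Γ} {Λ : Type} {U : Type} [Ring U]
    [Algebra k[X] U] {ρ : U →+* MvPolynomial Λ k}

theorem FRE1_smul {A : Type} [Ring A] [Algebra k[X] A] {S : Type} [CommRing S] [Algebra k S]
    {π : A →+* S} (hπ : IsQC k π) (r : k[X]) (a : A) :
    π (r • a) = algebraMap k S (ev0 k r) * π a := by
  rw [Algebra.smul_def, map_mul, hπ.algMap]

theorem FRE1_p0 (hπ : IsQC k πO) (hρ : IsQC k ρ) :
    ∃ p0 : O ⊗[k[X]] U →+ MvPolynomial Λ Γ,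
      ∀ b u, p0 (b ⊗ₜ u) = MvPolynomial.C (πO b) * MvPolynomial.map (algebraMap k Γ) (ρ u) := by
  let f : O →+ U →+ MvPolynomial Λ Γ :=
    AddMonoidHom.mk' (fun b => AddMonoidHom.mk'
      (fun u => MvPolynomial.C (πO b) * MvPolynomial.map (algebraMap k Γ) (ρ u))
      (fun u u' => by rw [map_add, map_add, mul_add]))
      (fun b b' => by
        ext1 u
        show MvPolynomial.C (πO (b + b')) * _ = _
        rw [map_add, map_add, add_mul]
        rfl)
  refine ⟨TensorProduct.liftAddHom f ?_, fun b u => ?_⟩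
  · intro r b u
    show MvPolynomial.C (πO (r • b)) * MvPolynomial.map (algebraMap k Γ) (ρ u) =
      MvPolynomial.C (πO b) * MvPolynomial.map (algebraMap k Γ) (ρ (r • u))
    rw [FRE1_smul hπ, FRE1_smul hρ, map_mul, map_mul, MvPolynomial.algebraMap_eq,
      MvPolynomial.map_C]
    ring
  · exact TensorProduct.liftAddHom_tmul _ _ _ _

theorem FRE1_norm (hπ : IsQC k πO) (hρ : IsQC k ρ) (p0 : O ⊗[k[X]] U →+ MvPolynomial Λ Γ)
    (hp0 : ∀ b u, p0 (b ⊗ₜ u) = MvPolynomial.C (πO b) * MvPolynomial.map (algebraMap k Γ) (ρ u))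
    (um : (Λ →₀ ℕ) → U) (hum : ∀ m, ρ (um m) = MvPolynomial.monomial m 1)
    (t : O ⊗[k[X]] U) : ∃ (a : (Λ →₀ ℕ) →₀ O) (t' : O ⊗[k[X]] U),
      t = a.sum (fun m b => b ⊗ₜ[k[X]] um m) + tX k • t' ∧
        ∀ m, πO (a m) = MvPolynomial.coeff m (p0 t) := by
  classical
  induction t using TensorProduct.induction_on with
  | zero => exact ⟨0, 0, by simp, fun m => by simp⟩
  | tmul b u =>
    let a : (Λ →₀ ℕ) →₀ O := Finsupp.onFinset (ρ u).support
      (fun m => (Polynomial.C (MvPolynomial.coeff m (ρ u)) : k[X]) • b) (fun m hm => by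
        rw [MvPolynomial.mem_support_iff]
        intro h0
        apply hm
        rw [h0, map_zero, zero_smul])
    obtain ⟨u', hu'⟩ := hρ.ker (u - ∑ m ∈ (ρ u).support,
        (Polynomial.C (MvPolynomial.coeff m (ρ u)) : k[X]) • um m) (by
      rw [map_sub, map_sum, sub_eq_zero]
      simp only [FRE1_smul hρ, hum]
      conv_lhs => rw [(ρ u).as_sum]
      refine Finset.sum_congr rfl fun m _ => ?_
      simp [ev0, MvPolynomial.C_mul_monomial, MvPolynomial.algebraMap_eq])
    refine ⟨a, b ⊗ₜ u', ?_, fun m => ?_⟩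
    · have e1 : u = (∑ m ∈ (ρ u).support,
          (Polynomial.C (MvPolynomial.coeff m (ρ u)) : k[X]) • um m) + tX k • u' := by
        rw [← hu']; abel
      rw [Finsupp.onFinset_sum _ (by simp)]
      conv_lhs => rw [e1]
      rw [TensorProduct.tmul_add, TensorProduct.tmul_smul, TensorProduct.tmul_sum]
      congr 1
      refine Finset.sum_congr rfl fun m _ => ?_
      rw [TensorProduct.tmul_smul, TensorProduct.smul_tmul']
    · show πO ((Polynomial.C (MvPolynomial.coeff m (ρ u)) : k[X]) • b) = _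
      rw [FRE1_smul hπ, hp0, MvPolynomial.coeff_C_mul, MvPolynomial.coeff_map, mul_comm]
      simp [ev0]
  | add x y hx hy =>
    obtain ⟨a, t, h1, h2⟩ := hx
    obtain ⟨a', t', h1', h2'⟩ := hy
    refine ⟨a + a', t + t', ?_, fun m => ?_⟩
    · rw [Finsupp.sum_add_index' (by simp) (by intros; rw [TensorProduct.add_tmul]), smul_add]
      conv_lhs => rw [h1, h1']
      abel
    · rw [Finsupp.add_apply, map_add, h2, h2', map_add, MvPolynomial.coeff_add]

end FRE1_aux

theorem exists_fmod {O : Type} [Ring O] [Algebra k[X] O] {Γ : Type} [Field Γ] [Algebra k Γ]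
    {πO : O →+* Γ} (hπ : IsQC k πO) (hc : IsComp k O) {Λ : Type} {U : Type} [Ring U]
    [Algebra k[X] U] {ρ : U →+* MvPolynomial Λ k} (hρ : IsQC k ρ) : Nonempty (FMod k πO ρ) := by
  classical
  have hflat : Module.Flat k[X] O := flat_of_comp hπ.reg hc
  have hT : XReg k (O ⊗[k[X]] U) := by
    intro t ht
    have hinj : Function.Injective (LinearMap.lsmul k[X] U (tX k)) := by
      rw [injective_iff_map_eq_zero]
      intro a ha
      exact hρ.reg a ha
    have h2 := Module.Flat.lTensor_preserves_injective_linearMap (M := O) _ hinj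
    have h3 : LinearMap.lTensor O (LinearMap.lsmul k[X] U (tX k)) t = tX k • t := by
      have : LinearMap.lTensor O (LinearMap.lsmul k[X] U (tX k)) = tX k • LinearMap.id := by
        ext b u
        simp
      rw [this]
      rfl
    apply h2
    rw [h3, ht, map_zero]
  obtain ⟨F, _, _, c, hFr, hFc, hinj, hsurj, huniv⟩ := exists_complM (k := k) (O ⊗[k[X]] U) hT
  obtain ⟨e, he⟩ := FRE1_ext c (huniv F hFc)
  obtain ⟨p0, hp0⟩ := FRE1_p0 hπ hρ
  choose um hum using fun m : Λ →₀ ℕ => hρ.surj (MvPolynomial.monomial m 1)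
  have hker : ∀ t, p0 t = 0 → ∃ t', t = tX k • t' := by
    intro t ht
    obtain ⟨a, t', h1, h2⟩ := FRE1_norm hπ hρ p0 hp0 um hum t
    choose a' ha' using fun m => hπ.ker (a m) (by rw [h2, ht, MvPolynomial.coeff_zero])
    refine ⟨∑ m ∈ a.support, a' m ⊗ₜ um m + t', ?_⟩
    rw [smul_add, Finset.smul_sum]
    conv_lhs => rw [h1, Finsupp.sum]
    congr 1
    refine Finset.sum_congr rfl fun m _ => ?_
    rw [ha', TensorProduct.smul_tmul']
  have hX0 : ∀ t, p0 (tX k • t) = 0 := by
    intro t
    induction t using TensorProduct.induction_on with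
    | zero => simp
    | tmul b u => rw [TensorProduct.smul_tmul', hp0, hπ.kerX, map_zero, zero_mul]
    | add x y hx hy => rw [smul_add, map_add, hx, hy, add_zero]
  have hwd : ∀ m m' (b b' : F), c m + tX k • b = c m' + tX k • b' → p0 m = p0 m' := by
    intro m m' b b' h
    obtain ⟨t, ht⟩ := hinj (m - m') (b' - b) (by
      rw [map_sub, smul_sub, sub_eq_sub_iff_add_eq_add, h]; abel)
    have := hX0 t
    rw [← ht, map_sub] at this
    exact sub_eq_zero.1 this
  choose g gb hg using hsurj
  have hgp : ∀ m (b : F), p0 (g (c m + tX k • b)) = p0 m := fun m b =>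
    hwd _ _ _ _ (hg (c m + tX k • b)).symm
  have hgc : ∀ m, p0 (g (c m)) = p0 m := fun m => by
    have := hgp m 0
    rwa [smul_zero, add_zero] at this
  let p : F →+ MvPolynomial Λ Γ := AddMonoidHom.mk' (fun x => p0 (g x)) (fun x y => by
    have e1 : x + y = c (g x + g y) + tX k • (gb x + gb y) := by
      conv_lhs => rw [hg x, hg y]
      rw [map_add, smul_add]; abel
    rw [← map_add, ← hgp (g x + g y) (gb x + gb y), ← e1])
  have hp : ∀ x, p x = p0 (g x) := fun _ => rfl
  have hpc : ∀ m (b : F), p (c m + tX k • b) = p0 m := hgp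
  have hpc' : ∀ m, p (c m) = p0 m := hgc
  let eL : O →ₐ[k[X]] Module.End k[X] (O ⊗[k[X]] U) :=
    (Module.End.rTensorAlgHom k[X] O U).comp (Algebra.lmul k[X] O)
  let eR : Uᵐᵒᵖ →ₐ[k[X]] Module.End k[X] (O ⊗[k[X]] U) :=
    (Module.End.lTensorAlgHom k[X] U O).comp (Algebra.lsmul k[X] k[X] U)
  have heL : ∀ b b' u, eL b (b' ⊗ₜ u) = (b * b') ⊗ₜ u := fun _ _ _ => rfl
  have heR : ∀ u b' u', eR (op u) (b' ⊗ₜ u') = b' ⊗ₜ (u' * u) := fun _ _ _ => rfl
  have hpL0 : ∀ b t, p0 (eL b t) = MvPolynomial.C (πO b) * p0 t := by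
    intro b t
    induction t using TensorProduct.induction_on with
    | zero => simp
    | tmul b' u => rw [heL, hp0, hp0, map_mul, map_mul, mul_assoc]
    | add x y hx hy => rw [map_add, map_add, hx, hy, map_add, mul_add]
  have hpR0 : ∀ u t, p0 (eR (op u) t) = p0 t * MvPolynomial.map (algebraMap k Γ) (ρ u) := by
    intro u t
    induction t using TensorProduct.induction_on with
    | zero => simp
    | tmul b' u' => rw [heR, hp0, hp0, map_mul, map_mul, mul_assoc]
    | add x y hx hy => rw [map_add, map_add, hx, hy, map_add, add_mul]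
  have hone : ∀ b u, e (eL b) (e (eR (op u)) (c (1 ⊗ₜ 1))) = c (b ⊗ₜ u) := by
    intro b u
    rw [he, he, heR, one_mul, heL, mul_one]
  refine ⟨{ F := F
            reg := hFr
            comp := hFc
            L := e.comp eL
            R := e.comp eR
            comm := ?_
            one := c (1 ⊗ₜ 1)
            p := p
            psurj := ?_
            pker := ?_
            pX := ?_
            pL := ?_
            pR := ?_
            pone := ?_
            univ := ?_ }⟩
  · intro b u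
    show e (eL b) * e (eR u) = e (eR u) * e (eL b)
    rw [← map_mul, ← map_mul]
    congr 1
    ext b' u'
    rfl
  · have h0 : Function.Surjective p0 := by
      intro s
      induction s using MvPolynomial.induction_on with
      | C γ =>
        obtain ⟨b, rfl⟩ := hπ.surj γ
        exact ⟨b ⊗ₜ 1, by rw [hp0, map_one, map_one, mul_one]⟩
      | add s s' hs hs' =>
        obtain ⟨t, rfl⟩ := hs
        obtain ⟨t', rfl⟩ := hs'
        exact ⟨t + t', map_add _ _ _⟩
      | mul_X s i hs =>
        obtain ⟨t, rfl⟩ := hs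
        obtain ⟨u, hu⟩ := hρ.surj (MvPolynomial.X i)
        exact ⟨eR (op u) t, by rw [hpR0, hu, MvPolynomial.map_X]⟩
    intro s
    obtain ⟨t, rfl⟩ := h0 s
    exact ⟨c t, hpc' t⟩
  · intro x hx
    obtain ⟨t', ht'⟩ := hker (g x) hx
    refine ⟨c t' + gb x, ?_⟩
    conv_lhs => rw [hg x, ht', map_smul, ← smul_add]
  · intro y
    have := hpc 0 y
    rwa [map_zero, zero_add, map_zero] at this
  · intro b x
    have e1 : (e.comp eL) b x = c (eL b (g x)) + tX k • (e (eL b) (gb x)) := by
      conv_lhs => rw [hg x]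
      rw [AlgHom.comp_apply, map_add, he, map_smul]
    rw [e1, hpc, hpL0, hp]
  · intro u x
    have e1 : (e.comp eR) (op u) x = c (eR (op u) (g x)) + tX k • (e (eR (op u)) (gb x)) := by
      conv_lhs => rw [hg x]
      rw [AlgHom.comp_apply, map_add, he, map_smul]
    rw [e1, hpc, hpR0, hp]
  · rw [hpc', hp0]
    simp
  · intro E _ _ hE β
    obtain ⟨h, hh, hu⟩ := huniv E hE (TensorProduct.lift β)
    refine ⟨h, fun b u => ?_, fun h' hh' => ?_⟩
    · show h (e (eL b) (e (eR (op u)) (c (1 ⊗ₜ 1)))) = β b u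
      rw [hone, hh, TensorProduct.lift.tmul]
    · apply hu
      intro m
      have : h' ∘ₗ c = TensorProduct.lift β := by
        apply TensorProduct.ext'
        intro b u
        rw [TensorProduct.lift.tmul, ← hh' b u, LinearMap.comp_apply, ← hone]
        rfl
      exact LinearMap.congr_fun this m

end C74
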