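import Pool.Agent.MP_35f30a_al.C74.FRD
import Pool.Agent.MP_35f30a_al.C74.UNI

/-!
ROW FRE2.  `N` is the completed free left `O`-module on `e, m_i`.  Blueprint section 4.2.

Let `G := O × (Λ0 →₀ O)`, `s : G → N`, `(a0, a) ↦ L a0 e + Σ L (a i) (m i)`, and for the target
`t : G → E`, `(a0,a) ↦ LE a0 e' + Σ LE (a i) (m' i)`.
(1) `s` is injective mod `X^n` for all `n`: if `s g ∈ X^n N` then `g ∈ X^n G` (from `ind`: `πO a0 = 0`, `πO (a i) = 0`, so
`g = X g'`, `X s g' ∈ X^n N`, `s g' ∈ X^{n-1} N`).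
(2) `s` is onto mod `X^n` (`gen`, iterate).
So for `x ∈ N` choose `g_n` with `x - s g_n ∈ X^n N`; `g_{n+1} - g_n ∈ X^n G`; `g(x) := lim t(g_n)` in `E` (complete and
separated).  Independent of choices, `k[X]`-linear, `O`-linear.  Unique: a map with these properties has
`g(x) - t(g_n) ∈ X^n E`.
-/

set_option autoImplicit false

open scoped TensorProduct Polynomial
open MulOpposite (op)

namespace C74

variable {k : Type} [Field k]

/-- the map `(a0, a) ↦ L a0 e + Σ L (a i) (m i)` -/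
noncomputable def FRE2_s {O : Type} [Ring O] [Algebra k[X] O] {E : Type} [AddCommGroup E]
    [Module k[X] E] {Λ0 : Type} (LE : O →ₐ[k[X]] Module.End k[X] E) (e' : E) (m' : Λ0 → E) :
    (O × (Λ0 →₀ O)) →ₗ[k[X]] E :=
  LinearMap.coprod ((LinearMap.applyₗ e').comp LE.toLinearMap)
    (Finsupp.lsum k[X] (fun i => (LinearMap.applyₗ (m' i)).comp LE.toLinearMap))

lemma FRE2_s_apply {O : Type} [Ring O] [Algebra k[X] O] {E : Type} [AddCommGroup E]
    [Module k[X] E] {Λ0 : Type} (LE : O →ₐ[k[X]] Module.End k[X] E) (e' : E) (m' : Λ0 → E)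
    (a0 : O) (a : Λ0 →₀ O) :
    FRE2_s LE e' m' (a0, a) = LE a0 e' + a.sum (fun i c => LE c (m' i)) := by
  simp only [FRE2_s, LinearMap.coprod_apply, LinearMap.comp_apply, AlgHom.toLinearMap_apply,
    LinearMap.applyₗ_apply_apply, Finsupp.lsum_apply]
  rfl

lemma FRE2_s_L {O : Type} [Ring O] [Algebra k[X] O] {E : Type} [AddCommGroup E]
    [Module k[X] E] {Λ0 : Type} (LE : O →ₐ[k[X]] Module.End k[X] E) (e' : E) (m' : Λ0 → E)
    (b : O) (g : O × (Λ0 →₀ O)) :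
    FRE2_s LE e' m' (b * g.1, g.2.mapRange (fun c => b * c) (mul_zero b)) =
      LE b (FRE2_s LE e' m' g) := by
  obtain ⟨a0, a⟩ := g
  rw [FRE2_s_apply, FRE2_s_apply, map_add, map_mul, Module.End.mul_apply]
  congr 1
  rw [Finsupp.sum_mapRange_index (by intro i; simp)]
  rw [Finsupp.sum, Finsupp.sum, map_sum]
  refine Finset.sum_congr rfl fun i _ => ?_
  rw [map_mul, Module.End.mul_apply]

lemma FRE2_inj {O : Type} [Ring O] [Algebra k[X] O] {Γ : Type} [Field Γ] [Algebra k Γ]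
    {πO : O →+* Γ} (hπ : IsQC k πO) {N : Type} [AddCommGroup N] [Module k[X] N] {Λ0 : Type}
    (h : NCB k πO N Λ0) (n : ℕ) (g : O × (Λ0 →₀ O)) (x : N)
    (hg : FRE2_s h.L h.e h.m g = (tX k) ^ n • x) : ∃ g', g = (tX k) ^ n • g' := by
  induction n generalizing g with
  | zero => exact ⟨g, by simp⟩
  | succ n ih =>
    obtain ⟨a0, a⟩ := g
    have h1 : h.L a0 h.e + a.sum (fun i c => h.L c (h.m i)) = tX k • ((tX k) ^ n • x) := by
      rw [← FRE2_s_apply, hg, smul_smul, pow_succ']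
    obtain ⟨h2, h3⟩ := h.ind a0 a _ h1
    obtain ⟨b0, hb0⟩ := hπ.ker a0 h2
    have h4 : ∀ i, ∃ b, a i = tX k • b := fun i => hπ.ker _ (h3 i)
    choose f hf using h4
    have hf0 : ∀ i, f i ≠ 0 → i ∈ a.support := by
      intro i hi
      rw [Finsupp.mem_support_iff]
      intro h0
      apply hi
      apply hπ.reg
      rw [← hf i, h0]
    let b : Λ0 →₀ O := Finsupp.onFinset a.support f hf0
    have hab : (a0, a) = tX k • ((b0, b) : O × (Λ0 →₀ O)) := by
      refine Prod.ext hb0 ?_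
      ext i
      exact hf i
    have h5 : tX k • (FRE2_s h.L h.e h.m (b0, b) - (tX k) ^ n • x) = 0 := by
      rw [smul_sub, ← map_smul, ← hab, hg, smul_smul, pow_succ', sub_self]
    have h6 := h.reg _ h5
    obtain ⟨g', hg'⟩ := ih (b0, b) (sub_eq_zero.1 h6)
    exact ⟨g', by rw [hab, hg', smul_smul, ← pow_succ']⟩

lemma FRE2_surj {O : Type} [Ring O] [Algebra k[X] O] {Γ : Type} [Field Γ] [Algebra k Γ]
    {πO : O →+* Γ} {N : Type} [AddCommGroup N] [Module k[X] N] {Λ0 : Type}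
    (h : NCB k πO N Λ0) (n : ℕ) (x : N) :
    ∃ (g : O × (Λ0 →₀ O)) (x' : N), x = FRE2_s h.L h.e h.m g + (tX k) ^ n • x' := by
  induction n with
  | zero => exact ⟨0, x, by simp⟩
  | succ n ih =>
    obtain ⟨g, x', hx⟩ := ih
    obtain ⟨a0, a, x'', hx'⟩ := h.gen x'
    refine ⟨g + (tX k) ^ n • ((a0, a) : O × (Λ0 →₀ O)), x'', ?_⟩
    rw [← FRE2_s_apply] at hx'
    rw [map_add, map_smul, add_assoc, pow_succ, mul_smul, ← smul_add, ← hx', ← hx]

/-- the graph relation defining the map `N → E` -/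
def FRE2_Q {O : Type} [Ring O] [Algebra k[X] O] {N E : Type} [AddCommGroup N] [Module k[X] N]
    [AddCommGroup E] [Module k[X] E] {Λ0 : Type} (s : (O × (Λ0 →₀ O)) →ₗ[k[X]] N)
    (t : (O × (Λ0 →₀ O)) →ₗ[k[X]] E) (x : N) (y : E) : Prop :=
  ∀ n : ℕ, ∃ (g : O × (Λ0 →₀ O)) (x' : N) (y' : E),
    x = s g + (tX k) ^ n • x' ∧ y = t g + (tX k) ^ n • y'

section
variable {O : Type} [Ring O] [Algebra k[X] O] {N E : Type} [AddCommGroup N] [Module k[X] N]
    [AddCommGroup E] [Module k[X] E] {Λ0 : Type} {s : (O × (Λ0 →₀ O)) →ₗ[k[X]] N}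
    {t : (O × (Λ0 →₀ O)) →ₗ[k[X]] E}

lemma FRE2_Q_base (g : O × (Λ0 →₀ O)) : FRE2_Q s t (s g) (t g) :=
  fun _ => ⟨g, 0, 0, by simp, by simp⟩

lemma FRE2_Q_add {x x' : N} {y y' : E} (h : FRE2_Q s t x y) (h' : FRE2_Q s t x' y') :
    FRE2_Q s t (x + x') (y + y') := by
  intro n
  obtain ⟨g, a, b, h1, h2⟩ := h n
  obtain ⟨g', a', b', h1', h2'⟩ := h' n
  refine ⟨g + g', a + a', b + b', ?_, ?_⟩
  · rw [map_add, h1, h1', smul_add]; abel
  · rw [map_add, h2, h2', smul_add]; abel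

lemma FRE2_Q_smul {x : N} {y : E} (h : FRE2_Q s t x y) (r : k[X]) :
    FRE2_Q s t (r • x) (r • y) := by
  intro n
  obtain ⟨g, a, b, h1, h2⟩ := h n
  refine ⟨r • g, r • a, r • b, ?_, ?_⟩
  · rw [map_smul, h1, smul_add, smul_comm]
  · rw [map_smul, h2, smul_add, smul_comm]

lemma FRE2_Q_uniq (hE : IsComp k E)
    (hs : ∀ (n : ℕ) (g : O × (Λ0 →₀ O)) (x : N), s g = (tX k) ^ n • x → ∃ g', g = (tX k) ^ n • g')
    {x : N} {y y' : E} (h : FRE2_Q s t x y) (h' : FRE2_Q s t x y') : y = y' := by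
  rw [← sub_eq_zero]
  apply hE.sep
  intro n
  obtain ⟨g, a, b, h1, h2⟩ := h n
  obtain ⟨g', a', b', h1', h2'⟩ := h' n
  have h3 : s (g - g') = (tX k) ^ n • (a' - a) := by
    rw [map_sub, smul_sub]
    have : s g + (tX k) ^ n • a = s g' + (tX k) ^ n • a' := by rw [← h1, ← h1']
    rw [sub_eq_sub_iff_add_eq_add, this]
    abel
  obtain ⟨g'', hg''⟩ := hs n _ _ h3
  refine ⟨t g'' + b - b', ?_⟩
  have h4 : t g - t g' = (tX k) ^ n • t g'' := by rw [← map_sub, hg'', map_smul]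
  rw [h2, h2', smul_sub, smul_add, ← h4]
  abel

lemma FRE2_Q_exists (hE : IsComp k E)
    (hs : ∀ (n : ℕ) (g : O × (Λ0 →₀ O)) (x : N), s g = (tX k) ^ n • x → ∃ g', g = (tX k) ^ n • g')
    (hs' : ∀ (n : ℕ) (x : N), ∃ (g : O × (Λ0 →₀ O)) (x' : N), x = s g + (tX k) ^ n • x')
    (x : N) : ∃ y, FRE2_Q s t x y := by
  choose g x' hx using fun n => hs' n x
  have h1 : ∀ n, s (g (n + 1) - g n) = (tX k) ^ n • (x' n - tX k • x' (n + 1)) := by
    intro n
    have h2 : s (g (n + 1)) + (tX k) ^ (n + 1) • x' (n + 1) = s (g n) + (tX k) ^ n • x' n := by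
      rw [← hx, ← hx]
    rw [map_sub, smul_sub, smul_smul, ← pow_succ, sub_eq_sub_iff_add_eq_add, h2]
    abel
  choose d hd using fun n => hs n _ _ (h1 n)
  obtain ⟨m, hm⟩ := hE.lim (fun n => t (d n))
  refine ⟨t (g 0) + m, fun n => ?_⟩
  obtain ⟨b, hb⟩ := hm n
  refine ⟨g n, x' n, b, hx n, ?_⟩
  have h3 : ∀ n, t (g 0) + ∑ i ∈ Finset.range n, (tX k) ^ i • t (d i) = t (g n) := by
    intro n
    induction n with
    | zero => simp
    | succ n ih =>
      rw [Finset.sum_range_succ, ← add_assoc, ih, ← map_smul, ← hd, map_sub]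
      abel
  rw [hb, ← add_assoc, h3]

end

theorem NCB.univ {O : Type} [Ring O] [Algebra k[X] O] {Γ : Type} [Field Γ] [Algebra k Γ]
    {πO : O →+* Γ} (hπ : IsQC k πO) {N : Type} [AddCommGroup N] [Module k[X] N] {Λ0 : Type}
    (h : NCB k πO N Λ0) (E : Type) [AddCommGroup E] [Module k[X] E] (hE : IsComp k E)
    (LE : O →ₐ[k[X]] Module.End k[X] E) (e' : E) (m' : Λ0 → E) :
    ∃! g : N →ₗ[k[X]] E, (∀ b n, g (h.L b n) = LE b (g n)) ∧ g h.e = e' ∧
      ∀ i, g (h.m i) = m' i := by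
  have hs := fun (n : ℕ) (g : O × (Λ0 →₀ O)) (x : N) => FRE2_inj hπ h n g x
  have hs' := fun (n : ℕ) (x : N) => FRE2_surj h n x
  have hex := FRE2_Q_exists (t := FRE2_s LE e' m') hE hs hs'
  have hun := fun {x : N} {y y' : E} => FRE2_Q_uniq (t := FRE2_s LE e' m') (x := x) (y := y)
    (y' := y') hE hs
  choose F hF using hex
  have hFe : ∀ x y, FRE2_Q (FRE2_s h.L h.e h.m) (FRE2_s LE e' m') x y → F x = y :=
    fun x y hxy => hun (hF x) hxy
  refine ⟨{ toFun := F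
            map_add' := fun x y => hFe _ _ (FRE2_Q_add (hF x) (hF y))
            map_smul' := fun r x => hFe _ _ (FRE2_Q_smul (hF x) r) }, ⟨?_, ?_, ?_⟩, ?_⟩
  · intro b x
    apply hFe
    intro n
    obtain ⟨g, a, c, h1, h2⟩ := hF x n
    refine ⟨(b * g.1, g.2.mapRange (fun c => b * c) (mul_zero b)), h.L b a, LE b c, ?_, ?_⟩
    · rw [FRE2_s_L, h1, map_add, map_smul]
    · show LE b (F x) = _
      rw [FRE2_s_L, h2, map_add, map_smul]
  · apply hFe
    have := FRE2_Q_base (s := FRE2_s h.L h.e h.m) (t := FRE2_s LE e' m') (1, 0)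
    rwa [FRE2_s_apply, FRE2_s_apply, map_one, map_one, Finsupp.sum_zero_index,
      Finsupp.sum_zero_index, add_zero, add_zero] at this
  · intro i
    apply hFe
    have := FRE2_Q_base (s := FRE2_s h.L h.e h.m) (t := FRE2_s LE e' m') (0, Finsupp.single i 1)
    rwa [FRE2_s_apply, FRE2_s_apply, map_zero, map_zero, Finsupp.sum_single_index (by simp),
      Finsupp.sum_single_index (by simp), map_one, map_one, LinearMap.zero_apply,
      LinearMap.zero_apply, zero_add, zero_add] at this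
  · rintro g ⟨h1, h2, h3⟩
    ext x
    symm
    apply hFe
    intro n
    obtain ⟨g0, x', hx⟩ := hs' n x
    refine ⟨g0, x', g x', hx, ?_⟩
    rw [hx, map_add, map_smul]
    congr 1
    obtain ⟨a0, a⟩ := g0
    rw [FRE2_s_apply, FRE2_s_apply, map_add, h1, h2, Finsupp.sum, Finsupp.sum, map_sum]
    congr 1
    refine Finset.sum_congr rfl fun i _ => ?_
    rw [h1, h3]

end C74
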