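import Pool.Agent.MP_35f30a_al.C74.FRD
import Pool.Agent.MP_35f30a_al.C74.UNI

/-!
ROW FRE3.  The operator algebra `Op`.  Blueprint section 4.2.

`Op = {q | IsOp L R q}`.
(a) `Op` is a subalgebra: Leibniz: `ad_{bs} (q q') = Σ_{S ⊆ positions} ad_{S} q · ad_{S^c} q'` (sublists in order), each
term is in `X^m End`.  (Induction on `bs`, generalising over `q, q'`: use the *stronger* invariant that
for `q ∈ Op` and any list, `adL bs q = X^{|bs|} q'` with again `q' ∈ Op`: `adL (cs) (adL bs q) = adL (cs ++ bs) q` and `X` is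
regular on `End`, `End_reg`.)
(b) `L b ∈ Op`: `[L b', L b] = L [b', b] ∈ X · L(O)`.
(c) `p (q x) = p (q one) * p x` for `q ∈ Op`: `q` induces an additive map `q̄` on `F/X ≅ S := MvPolynomial Λ Γ` commuting
with multiplication by `C γ` (since `[L b, q] ∈ X End`, `πO` onto) and by `map (ρ u)` (`ρ` onto `MvPolynomial Λ k`); `S` is
additively generated by the products `C γ * map f`, so `q̄` is `S`-linear.
(d) `q q' - q' q = X • q''` with `q'' ∈ Op`: mod `X` both act as multiplications (c), so `q''` exists in `End`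
(`End_div`, `pker`), it commutes with `R` (`X` regular).  With `q_S ∈ Op`, `ad_S q = X^{|S|} q_S`:
`ad_{bs} [q,q'] = Σ_S [ad_S q, ad_{S^c} q'] = Σ_S X^m [q_S, q'_{S^c}] ∈ X^{m+1} End`; cancel `X`.
(e) `Op` is closed under `X`-adic limits and `End` is complete, so `Op` is complete.
-/

set_option autoImplicit false

open scoped TensorProduct Polynomial
open MulOpposite (op)

namespace C74

variable {k : Type} [Field k]
variable {O : Type} [Ring O] [Algebra k[X] O] {Γ : Type} [Field Γ] [Algebra k Γ]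
    {πO : O →+* Γ} {Λ : Type} {U : Type} [Ring U]
    [Algebra k[X] U] {ρ : U →+* MvPolynomial Λ k}

section FRE3_aux
variable {F : Type} [AddCommGroup F] [Module k[X] F] (L : O →ₐ[k[X]] Module.End k[X] F)
  (R : Uᵐᵒᵖ →ₐ[k[X]] Module.End k[X] F)

theorem FRE3_cons (b : O) (bs : List O) (q : Module.End k[X] F) :
    adL L (b :: bs) q = L b * adL L bs q - adL L bs q * L b := rfl

theorem FRE3_append (bs : List O) (c : O) (q : Module.End k[X] F) :
    adL L (bs ++ [c]) q = adL L bs (L c * q - q * L c) := by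
  simp [adL, List.foldr_append]

theorem FRE3_add (bs : List O) (q q' : Module.End k[X] F) :
    adL L bs (q + q') = adL L bs q + adL L bs q' := by
  induction bs with
  | nil => rfl
  | cons b bs ih => rw [FRE3_cons, FRE3_cons, FRE3_cons, ih, mul_add, add_mul]; abel

theorem FRE3_smul (bs : List O) (r : k[X]) (q : Module.End k[X] F) :
    adL L bs (r • q) = r • adL L bs q := by
  induction bs with
  | nil => rfl
  | cons b bs ih =>
    rw [FRE3_cons, FRE3_cons, ih, smul_sub, mul_smul_comm, smul_mul_assoc]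

theorem FRE3_pow_reg {M : Type} [AddCommGroup M] [Module k[X] M] (hr : XReg k M) (n : ℕ) (x : M)
    (h : (tX k) ^ n • x = 0) : x = 0 := by
  induction n with
  | zero => simpa using h
  | succ n ih =>
    apply ih
    apply hr
    rw [smul_smul, ← pow_succ', h]

theorem FRE3_cancel {M : Type} [AddCommGroup M] [Module k[X] M] (hr : XReg k M) (x y : M)
    (h : tX k • x = tX k • y) : x = y := by
  have : tX k • (x - y) = 0 := by rw [smul_sub, h, sub_self]
  exact sub_eq_zero.1 (hr _ this)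

theorem FRE3_comm (hr : XReg k (Module.End k[X] F)) (hLR : ∀ b u, L b * R u = R u * L b)
    {q : Module.End k[X] F} (h : IsOp L R q) (c : O) :
    ∃ q1, IsOp L R q1 ∧ L c * q - q * L c = tX k • q1 := by
  obtain ⟨q1, hq1⟩ := h.2 [c]
  have e0 : L c * q - q * L c = tX k • q1 := by
    rw [List.length_singleton, pow_one] at hq1
    exact hq1
  refine ⟨q1, ⟨fun u => ?_, fun bs => ?_⟩, e0⟩
  · apply FRE3_cancel hr
    rw [← smul_mul_assoc, ← mul_smul_comm, ← e0]
    rw [sub_mul, mul_sub, mul_assoc, h.1 u, ← mul_assoc, hLR, mul_assoc, mul_assoc, hLR,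
      ← mul_assoc q, h.1 u, mul_assoc]
  · obtain ⟨q2, h2⟩ := h.2 (bs ++ [c])
    refine ⟨q2, FRE3_cancel hr _ _ ?_⟩
    rw [FRE3_append, e0, FRE3_smul, List.length_append, List.length_singleton] at h2
    rw [h2, smul_smul, pow_succ']

theorem FRE3_mul (hr : XReg k (Module.End k[X] F)) (hLR : ∀ b u, L b * R u = R u * L b)
    (n : ℕ) : ∀ (bs : List O), bs.length = n → ∀ {q q' : Module.End k[X] F}, IsOp L R q →
      IsOp L R q' → ∃ q1, adL L bs (q * q') = (tX k) ^ n • q1 := by
  induction n with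
  | zero =>
    intro bs hbs q q' _ _
    exact ⟨adL L bs (q * q'), by simp⟩
  | succ n ih =>
    intro bs hbs q q' h h'
    rcases List.eq_nil_or_concat bs with rfl | ⟨bs', c, rfl⟩
    · simp at hbs
    · rw [List.concat_eq_append] at hbs ⊢
      obtain ⟨q1, h1, e1⟩ := FRE3_comm L R hr hLR h c
      obtain ⟨q1', h1', e1'⟩ := FRE3_comm L R hr hLR h' c
      have hb : bs'.length = n := by simpa using hbs
      obtain ⟨a, ha⟩ := ih bs' hb h1 h'
      obtain ⟨a', ha'⟩ := ih bs' hb h h1'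
      refine ⟨a + a', ?_⟩
      have e2 : L c * (q * q') - q * q' * L c =
          tX k • (q1 * q' + q * q1') := by
        rw [smul_add, ← smul_mul_assoc, ← e1, ← mul_smul_comm, ← e1']
        noncomm_ring
      rw [FRE3_append, e2, FRE3_smul, FRE3_add, ha, ha', ← smul_add, smul_smul, pow_succ']

theorem FRE3_isOp_mul (hr : XReg k (Module.End k[X] F)) (hLR : ∀ b u, L b * R u = R u * L b)
    {q q' : Module.End k[X] F} (h : IsOp L R q) (h' : IsOp L R q') : IsOp L R (q * q') := by
  refine ⟨fun u => ?_, fun bs => FRE3_mul L R hr hLR bs.length bs rfl h h'⟩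
  rw [mul_assoc, h'.1 u, ← mul_assoc, h.1 u, mul_assoc]

theorem FRE3_isOp_add {q q' : Module.End k[X] F} (h : IsOp L R q) (h' : IsOp L R q') :
    IsOp L R (q + q') := by
  refine ⟨fun u => ?_, fun bs => ?_⟩
  · rw [add_mul, mul_add, h.1, h'.1]
  · obtain ⟨a, ha⟩ := h.2 bs
    obtain ⟨b, hb⟩ := h'.2 bs
    exact ⟨a + b, by rw [FRE3_add, ha, hb, smul_add]⟩

theorem FRE3_isOp_smul (r : k[X]) {q : Module.End k[X] F} (h : IsOp L R q) :
    IsOp L R (r • q) := by
  refine ⟨fun u => ?_, fun bs => ?_⟩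
  · rw [smul_mul_assoc, h.1, mul_smul_comm]
  · obtain ⟨a, ha⟩ := h.2 bs
    exact ⟨r • a, by rw [FRE3_smul, ha, smul_comm]⟩

theorem FRE3_isOp_L (hπ : IsQC k πO) (hLR : ∀ b u, L b * R u = R u * L b) (b : O) :
    IsOp L R (L b) := by
  refine ⟨fun u => hLR b u, fun bs => ?_⟩
  have : ∃ b' : O, adL L bs (L b) = (tX k) ^ bs.length • L b' := by
    induction bs with
    | nil => exact ⟨b, by simp [adL]⟩
    | cons c bs ih =>
      obtain ⟨b', hb'⟩ := ih
      obtain ⟨b'', hb''⟩ := hπ.ker (c * b' - b' * c) (by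
        rw [map_sub, map_mul, map_mul, mul_comm, sub_self])
      refine ⟨b'', ?_⟩
      rw [FRE3_cons, hb', List.length_cons, mul_smul_comm, smul_mul_assoc, ← smul_sub, ← map_mul,
        ← map_mul, ← map_sub, hb'', map_smul, smul_smul, pow_succ]
  obtain ⟨b', hb'⟩ := this
  exact ⟨L b', hb'⟩

/-- commutators -/
theorem FRE3_brk (hr : XReg k (Module.End k[X] F)) (hLR : ∀ b u, L b * R u = R u * L b)
    (hbase : ∀ q q' : Module.End k[X] F, IsOp L R q → IsOp L R q' →
      ∃ q'' : Module.End k[X] F, q * q' - q' * q = tX k • q'')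
    (n : ℕ) : ∀ (bs : List O), bs.length = n → ∀ {q q' : Module.End k[X] F}, IsOp L R q →
      IsOp L R q' → ∃ q1, adL L bs (q * q' - q' * q) = (tX k) ^ (n + 1) • q1 := by
  induction n with
  | zero =>
    intro bs hbs q q' h h'
    obtain rfl := List.length_eq_zero_iff.1 hbs
    obtain ⟨q'', hq''⟩ := hbase q q' h h'
    exact ⟨q'', by rw [hq'']; simp [adL]⟩
  | succ n ih =>
    intro bs hbs q q' h h'
    rcases List.eq_nil_or_concat bs with rfl | ⟨bs', c, rfl⟩
    · simp at hbs
    · rw [List.concat_eq_append] at hbs ⊢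
      obtain ⟨q1, h1, e1⟩ := FRE3_comm L R hr hLR h c
      obtain ⟨q1', h1', e1'⟩ := FRE3_comm L R hr hLR h' c
      have hb : bs'.length = n := by simpa using hbs
      obtain ⟨a, ha⟩ := ih bs' hb h1 h'
      obtain ⟨a', ha'⟩ := ih bs' hb h h1'
      refine ⟨a + a', ?_⟩
      have e2 : L c * (q * q' - q' * q) - (q * q' - q' * q) * L c =
          tX k • ((q1 * q' - q' * q1) + (q * q1' - q1' * q)) := by
        rw [smul_add, smul_sub, smul_sub, ← smul_mul_assoc, ← mul_smul_comm, ← e1,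
          ← mul_smul_comm, ← smul_mul_assoc, ← e1']
        noncomm_ring
      rw [FRE3_append, e2, FRE3_smul, FRE3_add, ha, ha', ← smul_add, smul_smul, ← pow_succ']

theorem FRE3_isOp_brk (hr : XReg k (Module.End k[X] F)) (hLR : ∀ b u, L b * R u = R u * L b)
    (hbase : ∀ q q' : Module.End k[X] F, IsOp L R q → IsOp L R q' →
      ∃ q'' : Module.End k[X] F, q * q' - q' * q = tX k • q'')
    {q q' : Module.End k[X] F} (h : IsOp L R q) (h' : IsOp L R q') :
    ∃ q'', IsOp L R q'' ∧ q * q' - q' * q = tX k • q'' := by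
  obtain ⟨q'', hq''⟩ := hbase q q' h h'
  refine ⟨q'', ⟨fun u => ?_, fun bs => ?_⟩, hq''⟩
  · apply FRE3_cancel hr
    rw [← smul_mul_assoc, ← mul_smul_comm, ← hq'']
    have a1 := (FRE3_isOp_mul L R hr hLR h h').1 u
    have a2 := (FRE3_isOp_mul L R hr hLR h' h).1 u
    rw [sub_mul, mul_sub, a1, a2]
  · obtain ⟨q2, h2⟩ := FRE3_brk L R hr hLR hbase bs.length bs rfl h h'
    refine ⟨q2, FRE3_cancel hr _ _ ?_⟩
    rw [hq'', FRE3_smul] at h2
    rw [h2, smul_smul, pow_succ']

theorem FRE3_isOp_lim (hc : IsComp k (Module.End k[X] F)) (u : ℕ → Module.End k[X] F)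
    (hu : ∀ i, IsOp L R (u i)) (m : Module.End k[X] F)
    (hm : ∀ n, ∃ b, m = ∑ i ∈ Finset.range n, (tX k) ^ i • u i + (tX k) ^ n • b) :
    IsOp L R m := by
  have hsum : ∀ n, IsOp L R (∑ i ∈ Finset.range n, (tX k) ^ i • u i) := by
    intro n
    induction n with
    | zero =>
      have := FRE3_isOp_smul L R 0 (hu 0)
      simpa using this
    | succ n ih =>
      rw [Finset.sum_range_succ]
      exact FRE3_isOp_add L R ih (FRE3_isOp_smul L R _ (hu n))
  refine ⟨fun v => ?_, fun bs => ?_⟩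
  · have : m * R v - R v * m = 0 := by
      apply hc.sep
      intro n
      obtain ⟨b, hb⟩ := hm n
      refine ⟨b * R v - R v * b, ?_⟩
      rw [hb, add_mul, mul_add, (hsum n).1 v, smul_mul_assoc, mul_smul_comm, smul_sub]
      abel
    exact sub_eq_zero.1 this
  · obtain ⟨b, hb⟩ := hm bs.length
    obtain ⟨a, ha⟩ := (hsum bs.length).2 bs
    exact ⟨a + adL L bs b, by rw [hb, FRE3_add, ha, FRE3_smul, smul_add]⟩

end FRE3_aux

theorem FRE3_res (hπ : IsQC k πO) (hρ : IsQC k ρ) (D : FMod k πO ρ)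
    (hr : XReg k (Module.End k[X] D.F)) (q : Module.End k[X] D.F) (h : IsOp D.L D.R q) (x : D.F) :
    D.p (q x) = D.p (q D.one) * D.p x := by
  have hp : ∀ x y, D.p x = D.p y → D.p (q x) = D.p (q y) := by
    intro x y hxy
    obtain ⟨z, hz⟩ := D.pker (x - y) (by rw [map_sub, hxy, sub_self])
    have : q x - q y = tX k • q z := by rw [← map_sub, hz, map_smul]
    have h2 := D.pX (q z)
    rw [← this, map_sub] at h2
    exact sub_eq_zero.1 h2
  have key : ∀ s : MvPolynomial Λ Γ, ∀ x y, D.p y = s * D.p x → D.p (q y) = s * D.p (q x) := by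
    intro s
    have hC : ∀ γ : Γ, ∀ x y, D.p y = MvPolynomial.C γ * D.p x →
        D.p (q y) = MvPolynomial.C γ * D.p (q x) := by
      intro γ x y hxy
      obtain ⟨b, rfl⟩ := hπ.surj γ
      obtain ⟨q1, -, e1⟩ := FRE3_comm D.L D.R hr D.comm h b
      rw [← D.pL] at hxy
      rw [hp _ _ hxy, ← D.pL]
      have e2 : D.L b (q x) = q (D.L b x) + tX k • q1 x := by
        have := LinearMap.congr_fun e1 x
        rw [LinearMap.sub_apply, LinearMap.smul_apply] at this
        rw [← this]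
        show D.L b (q x) = q (D.L b x) + (D.L b (q x) - q (D.L b x))
        abel
      rw [e2, map_add, D.pX, add_zero]
    induction s using MvPolynomial.induction_on with
    | C γ => exact hC γ
    | add s s' hs hs' =>
      intro x y hxy
      obtain ⟨y1, hy1⟩ := D.psurj (s * D.p x)
      obtain ⟨y2, hy2⟩ := D.psurj (s' * D.p x)
      rw [hp y (y1 + y2) (by rw [map_add, hy1, hy2, hxy, add_mul]), map_add, map_add,
        hs x y1 hy1, hs' x y2 hy2, add_mul]
    | mul_X s i hs =>
      intro x y hxy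
      obtain ⟨u, hu⟩ := hρ.surj (MvPolynomial.X i)
      have e1 : D.p (D.R (op u) x) = MvPolynomial.X i * D.p x := by
        rw [D.pR, hu, MvPolynomial.map_X, mul_comm]
      have e2 : D.p y = s * D.p (D.R (op u) x) := by rw [e1, hxy, mul_assoc]
      have e3 : q (D.R (op u) x) = D.R (op u) (q x) := LinearMap.congr_fun (h.1 (op u)) x
      rw [hs _ _ e2, e3, D.pR, hu, MvPolynomial.map_X]
      ring
  have := key (D.p x) D.one x (by rw [D.pone, mul_one])
  rw [this, mul_comm]

theorem exists_opAlg (hπ : IsQC k πO) (hρ : IsQC k ρ) (D : FMod k πO ρ) :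
    ∃ Op : Subalgebra k[X] (Module.End k[X] D.F),
      (∀ q, q ∈ Op ↔ IsOp D.L D.R q) ∧ (∀ b, D.L b ∈ Op) ∧
      (∀ q ∈ Op, ∀ x, D.p (q x) = D.p (q D.one) * D.p x) ∧
      (∀ q ∈ Op, ∀ q' ∈ Op, ∃ q'' ∈ Op, q * q' - q' * q = tX k • q'') ∧
      XReg k Op ∧ IsComp k Op ∧ Gap k 1 Op := by
  have hr : XReg k (Module.End k[X] D.F) := End_reg D.reg
  have hc : IsComp k (Module.End k[X] D.F) := End_comp D.reg D.comp
  have hres := FRE3_res hπ hρ D hr
  have hbase : ∀ q q' : Module.End k[X] D.F, IsOp D.L D.R q → IsOp D.L D.R q' →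
      ∃ q'' : Module.End k[X] D.F, q * q' - q' * q = tX k • q'' := by
    intro q q' h h'
    obtain ⟨q'', hq''⟩ := End_div D.reg (q * q' - q' * q) 1 (fun x => by
      obtain ⟨y, hy⟩ := D.pker ((q * q' - q' * q) x) (by
        rw [LinearMap.sub_apply, map_sub]
        show D.p (q (q' x)) - D.p (q' (q x)) = 0
        rw [hres q h, hres q' h' x, hres q' h' (q x), hres q h x]
        ring)
      exact ⟨y, by rw [hy, pow_one]⟩)
    exact ⟨q'', by rw [hq'', pow_one]⟩
  let Op : Subalgebra k[X] (Module.End k[X] D.F) :=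
    { carrier := {q | IsOp D.L D.R q}
      mul_mem' := fun h h' => FRE3_isOp_mul D.L D.R hr D.comm h h'
      add_mem' := fun h h' => FRE3_isOp_add D.L D.R h h'
      algebraMap_mem' := fun r => by
        have := FRE3_isOp_L D.L D.R hπ D.comm (algebraMap k[X] O r)
        rw [AlgHom.commutes] at this
        exact this }
  have hOp : ∀ q, q ∈ Op ↔ IsOp D.L D.R q := fun q => Iff.rfl
  have hbrk : ∀ q ∈ Op, ∀ q' ∈ Op, ∃ q'' ∈ Op, q * q' - q' * q = tX k • q'' := by
    intro q h q' h'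
    exact FRE3_isOp_brk D.L D.R hr D.comm hbase h h'
  refine ⟨Op, hOp, fun b => FRE3_isOp_L D.L D.R hπ D.comm b, fun q h x => hres q h x, hbrk,
    ?_, ⟨?_, ?_⟩, ?_⟩
  · intro q hq
    apply Subtype.ext
    apply hr
    have := congrArg (Subtype.val) hq
    exact this
  · intro q hq
    apply Subtype.ext
    apply hc.sep
    intro n
    obtain ⟨b, hb⟩ := hq n
    exact ⟨b, by rw [hb]; rfl⟩
  · intro u
    have hlim : ∀ N : ℕ, ∃ m : Op, ∀ n, ∃ b : Module.End k[X] D.F,
        (m : Module.End k[X] D.F) =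
          ∑ i ∈ Finset.range n, (tX k) ^ i • (u (N + i) : Module.End k[X] D.F) +
            (tX k) ^ n • b := by
      intro N
      obtain ⟨m, hm⟩ := hc.lim (fun i => (u (N + i) : Module.End k[X] D.F))
      exact ⟨⟨m, FRE3_isOp_lim D.L D.R hc _ (fun i => (u (N + i)).2) m hm⟩, hm⟩
    obtain ⟨m, hm⟩ := hlim 0
    refine ⟨m, fun n => ?_⟩
    obtain ⟨m', hm'⟩ := hlim n
    refine ⟨m', Subtype.ext ?_⟩
    have e1 : (m : Module.End k[X] D.F) -
        (∑ i ∈ Finset.range n, (tX k) ^ i • (u i : Module.End k[X] D.F) +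
          (tX k) ^ n • (m' : Module.End k[X] D.F)) = 0 := by
      apply hc.sep
      intro N
      obtain ⟨b, hb⟩ := hm (n + N)
      obtain ⟨b', hb'⟩ := hm' N
      refine ⟨(tX k) ^ n • (b - b'), ?_⟩
      rw [hb, hb', Finset.sum_range_add]
      simp only [zero_add, smul_add, Finset.smul_sum, smul_smul, smul_sub, pow_add]
      have e2 : (tX k) ^ N * (tX k) ^ n = (tX k) ^ n * (tX k) ^ N := mul_comm _ _
      rw [e2]
      abel
    have e3 := sub_eq_zero.1 e1
    rw [e3]
    push_cast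
    rfl
  · intro q q'
    obtain ⟨q'', h'', e⟩ := hbrk q q.2 q' q'.2
    refine ⟨⟨q'', h''⟩, Subtype.ext ?_⟩
    rw [pow_one]
    exact e

end C74
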