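import Pool.Agent.MP_35f30a_al.C74.FRE2

/-!
ROW FRE4.  The operators `∇_n`.  Blueprint section 4.2.

`iN : N → F` := `NCB.univ` with `E := F`, `LE := D.L`, `e' := one`, `m' i := D.R (op (l i)) one`.
`nb n` := the unique `k[X]`-linear map with `nb n (L d (R (op u) one)) = R (op u) (iN (h.R (op d) n))`
(`FMod.univ` with `β d u := R (op u) (iN (h.R (op d) n))`).  All identities are checked on the elements
`L d (R (op u) one)` and extended by uniqueness in `FMod.univ`:
* `nb n * R u = R u * nb n`; `nb n * L b = nb (h.R (op b) n)`;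
* `L b * nb n = nb (h.L b n)` (as `h.L`, `h.R` commute and `iN` is `O`-linear);
* `nb e = 1`: `iN (h.R (op d) e) = iN (h.L d e) = L d one`;
* `nb n one = iN n`.
`IsOp (nb n)`: `[L b, nb n] = nb (h.L b n - h.R (op b) n) = X • nb n'` (`nc`); iterate.
-/

set_option autoImplicit false

open scoped TensorProduct Polynomial
open MulOpposite (op)

namespace C74

variable {k : Type} [Field k]
variable {O : Type} [Ring O] [Algebra k[X] O] {Γ : Type} [Field Γ] [Algebra k Γ]
    {πO : O →+* Γ} {Λ : Type} {U : Type} [Ring U]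
    [Algebra k[X] U] {ρ : U →+* MvPolynomial Λ k}

/-- two linear maps on `F` that agree on the generators are equal -/
lemma FRE4_ext (D : FMod k πO ρ) {E : Type} [AddCommGroup E] [Module k[X] E] (hE : IsComp k E)
    {f g : D.F →ₗ[k[X]] E} (hfg : ∀ b u, f (D.L b (D.R (op u) D.one)) = g (D.L b (D.R (op u) D.one))) :
    f = g := by
  obtain ⟨h0, _, huniq⟩ := D.univ E hE (LinearMap.mk₂ k[X]
    (fun b u => f (D.L b (D.R (op u) D.one)))
    (fun b b' u => by rw [map_add, LinearMap.add_apply, map_add])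
    (fun r b u => by rw [map_smul, LinearMap.smul_apply, map_smul])
    (fun b u u' => by rw [MulOpposite.op_add, map_add, LinearMap.add_apply, map_add, map_add])
    (fun r b u => by rw [MulOpposite.op_smul, map_smul, LinearMap.smul_apply, map_smul, map_smul]))
  rw [huniq f (fun b u => rfl), huniq g (fun b u => (hfg b u).symm)]

theorem exists_nabla (hπ : IsQC k πO) {N : Type} [AddCommGroup N] [Module k[X] N]
    {Λ0 : Type} (h : NCB k πO N Λ0) (D : FMod k πO ρ) (l : Λ0 → U) :
    ∃ (iN : N →ₗ[k[X]] D.F) (nb : N →ₗ[k[X]] Module.End k[X] D.F),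
      (∀ b n, iN (h.L b n) = D.L b (iN n)) ∧ iN h.e = D.one ∧
      (∀ i, iN (h.m i) = D.R (op (l i)) D.one) ∧
      (∀ n u, nb n * D.R u = D.R u * nb n) ∧ (∀ n b, nb n * D.L b = nb (h.R (op b) n)) ∧
      (∀ b n, D.L b * nb n = nb (h.L b n)) ∧ nb h.e = 1 ∧ (∀ n, nb n D.one = iN n) ∧
      (∀ n, IsOp D.L D.R (nb n)) := by
  obtain ⟨iN, ⟨hi1, hi2, hi3⟩, _⟩ := h.univ hπ D.F D.comp D.L D.one (fun i => D.R (op (l i)) D.one)
  have hex : ∀ n : N, ∃ g : D.F →ₗ[k[X]] D.F,
      ∀ b u, g (D.L b (D.R (op u) D.one)) = D.R (op u) (iN (h.R (op b) n)) := by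
    intro n
    obtain ⟨g, hg, _⟩ := D.univ D.F D.comp (LinearMap.mk₂ k[X]
      (fun b u => D.R (op u) (iN (h.R (op b) n)))
      (fun b b' u => by rw [MulOpposite.op_add, map_add, LinearMap.add_apply, map_add, map_add])
      (fun r b u => by rw [MulOpposite.op_smul, map_smul, LinearMap.smul_apply, map_smul, map_smul])
      (fun b u u' => by rw [MulOpposite.op_add, map_add, LinearMap.add_apply])
      (fun r b u => by rw [MulOpposite.op_smul, map_smul, LinearMap.smul_apply]))
    exact ⟨g, fun b u => hg b u⟩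
  choose nb0 hnb using hex
  have RR : ∀ (u v : U) (x : D.F), D.R (op u) (D.R (op v) x) = D.R (op (v * u)) x := by
    intro u v x
    rw [MulOpposite.op_mul, map_mul, Module.End.mul_apply]
  have LL : ∀ (u v : O) (x : D.F), D.L u (D.L v x) = D.L (u * v) x := by
    intro u v x
    rw [map_mul, Module.End.mul_apply]
  have LR : ∀ (b : O) (u : Uᵐᵒᵖ) (x : D.F), D.L b (D.R u x) = D.R u (D.L b x) := by
    intro b u x
    have := congrArg (fun q : Module.End k[X] D.F => q x) (D.comm b u)
    simpa only [Module.End.mul_apply] using this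
  have hLR : ∀ (b : O) (c : Oᵐᵒᵖ) (x : N), h.L b (h.R c x) = h.R c (h.L b x) := by
    intro b u x
    have := congrArg (fun q : Module.End k[X] N => q x) (h.comm b u)
    simpa only [Module.End.mul_apply] using this
  let nb : N →ₗ[k[X]] Module.End k[X] D.F :=
    { toFun := nb0
      map_add' := fun x y => FRE4_ext D D.comp fun b u => by
        rw [hnb, LinearMap.add_apply, hnb, hnb, map_add, map_add, map_add]
      map_smul' := fun r x => FRE4_ext D D.comp fun b u => by
        rw [hnb, LinearMap.smul_apply, hnb, map_smul, map_smul, map_smul]; rfl }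
  have hnb' : ∀ n b u, nb n (D.L b (D.R (op u) D.one)) = D.R (op u) (iN (h.R (op b) n)) := hnb
  have p1 : ∀ n u, nb n * D.R u = D.R u * nb n := by
    intro n u
    refine FRE4_ext D D.comp fun b v => ?_
    induction u using MulOpposite.rec' with
    | _ u =>
    rw [Module.End.mul_apply, Module.End.mul_apply, ← LR, RR, hnb', hnb', RR]
  have p2 : ∀ n b, nb n * D.L b = nb (h.R (op b) n) := by
    intro n b
    refine FRE4_ext D D.comp fun c v => ?_
    rw [Module.End.mul_apply, LL, hnb', hnb', MulOpposite.op_mul, map_mul, Module.End.mul_apply]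
  have p3 : ∀ b n, D.L b * nb n = nb (h.L b n) := by
    intro b n
    refine FRE4_ext D D.comp fun c v => ?_
    rw [Module.End.mul_apply, hnb', hnb', LR, ← hi1, hLR]
  refine ⟨iN, nb, hi1, hi2, hi3, p1, p2, p3, ?_, ?_, ?_⟩
  · refine FRE4_ext D D.comp fun c v => ?_
    rw [hnb', ← h.he, hi1, hi2, ← LR, Module.End.one_apply]
  · intro n
    have := hnb' n 1 1
    simpa only [MulOpposite.op_one, map_one, Module.End.one_apply] using this
  · intro n
    refine ⟨p1 n, fun bs => ?_⟩
    have key : ∃ n', adL D.L bs (nb n) = (tX k) ^ bs.length • nb n' := by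
      induction bs with
      | nil => exact ⟨n, by simp [adL]⟩
      | cons b bs ih =>
        obtain ⟨n', hn'⟩ := ih
        obtain ⟨n'', hn''⟩ := h.nc b n'
        refine ⟨n'', ?_⟩
        have e1 : adL D.L (b :: bs) (nb n) = D.L b * adL D.L bs (nb n) - adL D.L bs (nb n) * D.L b :=
          rfl
        rw [e1, hn', mul_smul_comm, smul_mul_assoc, ← smul_sub, p2, p3, ← map_sub, hn'', map_smul,
          smul_smul, List.length_cons, pow_succ]
    obtain ⟨n', hn'⟩ := key
    exact ⟨nb n', hn'⟩

end C74
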