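import Mathlib

/-!
ROW PBW1.  The Poincare-Birkhoff-Witt theorem for Lie algebras with a basis (over any commutative ring).

Ordered monomials `ι(b_{λ1}) ... ι(b_{λn})`, `λ1 ≤ ... ≤ λn`, are linearly independent in the enveloping algebra (and span
it).  Proof (word reduction): a function `F` on words with `F w = single w` for sorted words and
`F (u i j v) = F (u j i v) + F (u [i,j] v)`; it is defined by recursion on (length, number of inversions) with an
arbitrary choice of descents, the identity for the other descents follows by induction (overlapping descents: Jacobi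
identity).  The functions on words satisfying the identity form a representation of the Lie algebra (appending letters).
-/

set_option autoImplicit false

open scoped TensorProduct Polynomial

namespace C74

/-- ordered monomials in the enveloping algebra -/
noncomputable def pbwMon (R L : Type) [CommRing R] [LieRing L] [LieAlgebra R L] {Λ : Type}
    (b : Module.Basis Λ R L) (l : List Λ) : UniversalEnvelopingAlgebra R L :=
  (l.map fun i => UniversalEnvelopingAlgebra.ι R (b i)).prod

section PBW1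

variable {R L : Type} [CommRing R] [LieRing L] [LieAlgebra R L] {Λ : Type}

/-- number of inversions -/
def PBW1_inv [LinearOrder Λ] : List Λ → ℕ
  | [] => 0
  | a :: l => l.countP (fun x => decide (x < a)) + PBW1_inv l

theorem PBW1_inv_swap [LinearOrder Λ] (u v : List Λ) (i j : Λ) (h : j < i) :
    PBW1_inv (u ++ j :: i :: v) < PBW1_inv (u ++ i :: j :: v) := by
  induction u with
  | nil =>
    simp only [List.nil_append, PBW1_inv, List.countP_cons]
    have h1 : ¬ i < j := not_lt_of_gt h
    simp only [h, h1, decide_true, decide_false, if_true, Bool.false_eq_true, if_false]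
    omega
  | cons a u ih =>
    simp only [List.cons_append, PBW1_inv]
    have h2 : (u ++ j :: i :: v).countP (fun x => decide (x < a)) =
        (u ++ i :: j :: v).countP (fun x => decide (x < a)) :=
      List.Perm.countP_eq _ ((List.Perm.swap i j v).append_left u)
    omega

variable (b : Module.Basis Λ R L)

open Classical in
/-- normal form of words -/
noncomputable def PBW1_F [LinearOrder Λ] (w : List Λ) : List Λ →₀ R :=
  if h : ∃ d : List Λ × Λ × Λ × List Λ, w = d.1 ++ d.2.1 :: d.2.2.1 :: d.2.2.2 ∧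
      d.2.2.1 < d.2.1 then
    PBW1_F (h.choose.1 ++ h.choose.2.2.1 :: h.choose.2.1 :: h.choose.2.2.2) +
      (b.repr ⁅b h.choose.2.1, b h.choose.2.2.1⁆).sum fun k r =>
        r • PBW1_F (h.choose.1 ++ k :: h.choose.2.2.2)
  else Finsupp.single w 1
termination_by (w.length, PBW1_inv w)
decreasing_by
  · have h1 := h.choose_spec
    have h2 := PBW1_inv_swap h.choose.1 h.choose.2.2.2 h.choose.2.1 h.choose.2.2.1 h1.2
    rw [← h1.1] at h2
    have h3 : (h.choose.1 ++ h.choose.2.2.1 :: h.choose.2.1 :: h.choose.2.2.2).length =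
        w.length := by
      conv_rhs => rw [h1.1]
      simp
    rw [Prod.lex_def]
    exact Or.inr ⟨h3, h2⟩
  · have h1 := h.choose_spec
    have h3 : (h.choose.1 ++ k :: h.choose.2.2.2).length < w.length := by
      conv_rhs => rw [h1.1]
      simp
    rw [Prod.lex_def]
    exact Or.inl h3

variable {V : Type} [AddCommGroup V] [Module R V]

/-- a linear combination in the middle of a word -/
noncomputable def PBW1_G (f : List Λ → V) (u v : List Λ) : L →ₗ[R] V :=
  (Finsupp.linearCombination R (fun k => f (u ++ k :: v))) ∘ₗ b.repr.toLinearMap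

theorem PBW1_G_basis (f : List Λ → V) (u v : List Λ) (k : Λ) :
    PBW1_G b f u v (b k) = f (u ++ k :: v) := by
  simp [PBW1_G]

/-- the relations -/
def PBW1_Rel (f : List Λ → V) (u v : List Λ) : Prop :=
  ∀ i j, f (u ++ i :: j :: v) = f (u ++ j :: i :: v) + PBW1_G b f u v ⁅b i, b j⁆

/-- two linear combinations in a word -/
noncomputable def PBW1_G2 (f : List Λ → V) (u m v : List Λ) : L →ₗ[R] L →ₗ[R] V :=
  b.constr R fun k => PBW1_G b f (u ++ k :: m) v

theorem PBW1_G2_left (f : List Λ → V) (u m v : List Λ) (k : Λ) (y : L) :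
    PBW1_G2 b f u m v (b k) y = PBW1_G b f (u ++ k :: m) v y := by
  rw [PBW1_G2, Module.Basis.constr_basis]

theorem PBW1_G2_right (f : List Λ → V) (u m v : List Λ) (x : L) (l : Λ) :
    PBW1_G2 b f u m v x (b l) = PBW1_G b f u (m ++ l :: v) x := by
  have h : (PBW1_G2 b f u m v).flip (b l) = PBW1_G b f u (m ++ l :: v) := by
    refine b.ext fun k => ?_
    rw [LinearMap.flip_apply, PBW1_G2_left, PBW1_G_basis, PBW1_G_basis]
    simp
  exact LinearMap.congr_fun h x

/-- the relations in bilinear form -/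
theorem PBW1_lin (f : List Λ → V) (u v : List Λ) (h : PBW1_Rel b f u v) (x y : L) :
    PBW1_G2 b f u [] v x y = PBW1_G2 b f u [] v y x + PBW1_G b f u v ⁅x, y⁆ := by
  have h1 : PBW1_G2 b f u [] v = (PBW1_G2 b f u [] v).flip +
      (LieModule.toEnd R L L : L →ₗ[R] Module.End R L).compr₂ (PBW1_G b f u v) := by
    refine b.ext fun i => b.ext fun j => ?_
    rw [LinearMap.add_apply, LinearMap.add_apply, LinearMap.flip_apply, PBW1_G2_left,
      PBW1_G2_left, PBW1_G_basis, PBW1_G_basis]
    have h2 := h i j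
    simpa using h2
  exact LinearMap.congr_fun (LinearMap.congr_fun h1 x) y

variable [LinearOrder Λ]

theorem PBW1_F_sorted (w : List Λ) (h : w.Pairwise (· ≤ ·)) :
    PBW1_F b w = Finsupp.single w 1 := by
  rw [PBW1_F, dif_neg]
  rintro ⟨d, h1, h2⟩
  rw [h1, List.pairwise_append] at h
  have h3 := h.2.1
  rw [List.pairwise_cons] at h3
  exact absurd (h3.1 d.2.2.1 (by simp)) (not_le_of_gt h2)

theorem PBW1_F_desc (w u : List Λ) (i j : Λ) (v : List Λ) (h : w = u ++ i :: j :: v)
    (hij : j < i) : ∃ (u' : List Λ) (i' j' : Λ) (v' : List Λ), w = u' ++ i' :: j' :: v' ∧ j' < i' ∧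
      PBW1_F b w = PBW1_F b (u' ++ j' :: i' :: v') + PBW1_G b (PBW1_F b) u' v' ⁅b i', b j'⁆ := by
  have h1 : ∃ d : List Λ × Λ × Λ × List Λ, w = d.1 ++ d.2.1 :: d.2.2.1 :: d.2.2.2 ∧
      d.2.2.1 < d.2.1 := ⟨(u, i, j, v), h, hij⟩
  refine ⟨h1.choose.1, h1.choose.2.1, h1.choose.2.2.1, h1.choose.2.2.2, h1.choose_spec.1,
    h1.choose_spec.2, ?_⟩
  conv_lhs => rw [PBW1_F, dif_pos h1]
  rfl

/-- the identity for the word `w` -/
def PBW1_OK (w : List Λ) : Prop := ∀ (u : List Λ) (i j : Λ) (v : List Λ), w = u ++ i :: j :: v →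
  j < i → PBW1_F b w = PBW1_F b (u ++ j :: i :: v) + PBW1_G b (PBW1_F b) u v ⁅b i, b j⁆

theorem PBW1_conf (w : List Λ)
    (H1 : ∀ u v : List Λ, u.length + v.length + 2 < w.length → PBW1_Rel b (PBW1_F b) u v)
    (H2 : ∀ w' : List Λ, w'.length = w.length → PBW1_inv w' < PBW1_inv w → PBW1_OK b w')
    (u a : List Λ) (i' j' : Λ) (v' : List Λ) (i j : Λ) (v : List Λ)
    (hw : w = (u ++ a) ++ i :: j :: v) (hij : j < i) (he : i' :: j' :: v' = a ++ i :: j :: v)
    (hij' : j' < i') :
    PBW1_F b (u ++ j' :: i' :: v') + PBW1_G b (PBW1_F b) u v' ⁅b i', b j'⁆ =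
      PBW1_F b ((u ++ a) ++ j :: i :: v) + PBW1_G b (PBW1_F b) (u ++ a) v ⁅b i, b j⁆ := by
  set F := PBW1_F b with hF
  rcases a with _ | ⟨c, _ | ⟨c', m⟩⟩
  · -- equal
    simp only [List.nil_append, List.cons.injEq] at he
    obtain ⟨rfl, rfl, rfl⟩ := he
    simp
  · -- overlap: `i' = x`, `i = y`, `j = z`
    simp only [List.cons_append, List.nil_append, List.cons.injEq] at he
    obtain ⟨rfl, rfl, rfl⟩ := he
    have hlen : u.length + v.length + 2 < w.length := by rw [hw]; simp; omega
    have hR := PBW1_lin b F u v (H1 u v hlen)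
    have hw' : w = u ++ i' :: j' :: j :: v := by rw [hw]; simp
    have l1 : PBW1_inv (u ++ j' :: i' :: j :: v) < PBW1_inv w := by
      rw [hw']; exact PBW1_inv_swap _ _ _ _ hij'
    have l2 : PBW1_inv ((u ++ [j']) ++ j :: i' :: v) < PBW1_inv ((u ++ [j']) ++ i' :: j :: v) :=
      PBW1_inv_swap _ _ _ _ (hij.trans hij')
    have l3 : PBW1_inv ((u ++ [i']) ++ j :: j' :: v) < PBW1_inv w := by
      rw [hw]; exact PBW1_inv_swap _ _ _ _ hij
    have l4 : PBW1_inv (u ++ j :: i' :: j' :: v) < PBW1_inv (u ++ i' :: j :: j' :: v) :=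
      PBW1_inv_swap _ _ _ _ (hij.trans hij')
    have e2 : (u ++ [j']) ++ i' :: j :: v = u ++ j' :: i' :: j :: v := by simp
    have e2' : (u ++ [j']) ++ j :: i' :: v = u ++ j' :: j :: i' :: v := by simp
    have e3 : (u ++ [i']) ++ j :: j' :: v = u ++ i' :: j :: j' :: v := by simp
    have e4 : (u ++ [j]) ++ i' :: j' :: v = u ++ j :: i' :: j' :: v := by simp
    have e4' : (u ++ [j]) ++ j' :: i' :: v = u ++ j :: j' :: i' :: v := by simp
    rw [e2, e2'] at l2
    rw [e3] at l3
    have len : ∀ x y z : Λ, (u ++ x :: y :: z :: v).length = w.length := by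
      intro x y z; rw [hw]; simp
    have s1 := H2 _ (len _ _ _) l1 (u ++ [j']) i' j v e2.symm (hij.trans hij')
    have s2 := H2 _ (len _ _ _) (l2.trans l1) u j' j (i' :: v) rfl hij
    have s3 := H2 _ (len _ _ _) l3 u i' j (j' :: v) rfl (hij.trans hij')
    have s4 := H2 _ (len _ _ _) (l4.trans l3) (u ++ [j]) i' j' v e4.symm hij'
    rw [← hF] at s1 s2 s3 s4
    rw [e2'] at s1
    rw [e4'] at s4
    rw [e3]
    have t1 : ∀ (k : Λ) (y : L), PBW1_G b F (u ++ [k]) v y = PBW1_G2 b F u [] v (b k) y :=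
      fun k y => (PBW1_G2_left b F u [] v k y).symm
    have t2 : ∀ (l : Λ) (x : L), PBW1_G b F u (l :: v) x = PBW1_G2 b F u [] v x (b l) :=
      fun l x => (PBW1_G2_right b F u [] v x l).symm
    rw [t1] at s1 s4
    rw [t2] at s2 s3
    rw [t1, t2, s1, s2, s3, s4]
    have r1 := hR ⁅b j', b j⁆ (b i')
    have r2 := hR (b j') ⁅b i', b j⁆
    have r3 := hR ⁅b i', b j'⁆ (b j)
    rw [r1, r2, r3]
    have jac : ⁅⁅b j', b j⁆, b i'⁆ + ⁅b j', ⁅b i', b j⁆⁆ + ⁅⁅b i', b j'⁆, b j⁆ = 0 := by
      have q1 := lie_jacobi (b i') (b j') (b j)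
      rw [← lie_skew ⁅b j', b j⁆ (b i'), ← lie_skew (b i') (b j), lie_neg,
        ← lie_skew (b j) ⁅b i', b j'⁆] at *
      have q2 : ⁅b i', ⁅b j', b j⁆⁆ + ⁅b j', ⁅b j, b i'⁆⁆ + ⁅b j, ⁅b i', b j'⁆⁆ = 0 :=
        lie_jacobi (b i') (b j') (b j)
      have q3 : ⁅⁅b i', b j'⁆, b j⁆ = -⁅b j, ⁅b i', b j'⁆⁆ := (lie_skew _ _).symm
      rw [q3]
      have q4 : -(⁅b i', ⁅b j', b j⁆⁆ + ⁅b j', ⁅b j, b i'⁆⁆ + ⁅b j, ⁅b i', b j'⁆⁆) = 0 := by
        rw [q2, neg_zero]
      rw [← q4]
      abel
    have jac2 := congrArg (PBW1_G b F u v) jac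
    rw [map_add, map_add, map_zero] at jac2
    have key : ∀ A B1 B2 B3 C1 C2 C3 : List Λ →₀ R, C1 + C2 + C3 = 0 →
        A + (B1 + C1) + (B2 + C2) + (B3 + C3) = A + B3 + B2 + B1 := by
      intro A B1 B2 B3 C1 C2 C3 h
      have : A + (B1 + C1) + (B2 + C2) + (B3 + C3) = A + B3 + B2 + B1 + (C1 + C2 + C3) := by abel
      rw [this, h, add_zero]
    exact key _ _ _ _ _ _ _ jac2
  · -- disjoint
    simp only [List.cons_append, List.cons.injEq] at he
    obtain ⟨rfl, rfl, rfl⟩ := he
    have hw' : w = u ++ i' :: j' :: (m ++ i :: j :: v) := by rw [hw]; simp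
    have e1 : (u ++ j' :: i' :: m) ++ i :: j :: v = u ++ j' :: i' :: (m ++ i :: j :: v) := by simp
    have e1' : (u ++ j' :: i' :: m) ++ j :: i :: v = u ++ j' :: i' :: (m ++ j :: i :: v) := by simp
    have e2 : (u ++ i' :: j' :: m) ++ j :: i :: v = u ++ i' :: j' :: (m ++ j :: i :: v) := by simp
    have l1 : PBW1_inv (u ++ j' :: i' :: (m ++ i :: j :: v)) < PBW1_inv w := by
      rw [hw']; exact PBW1_inv_swap _ _ _ _ hij'
    have l2 : PBW1_inv ((u ++ i' :: j' :: m) ++ j :: i :: v) < PBW1_inv w := by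
      rw [hw]; exact PBW1_inv_swap _ _ _ _ hij
    have s1 := H2 _ (by rw [hw']; simp) l1 (u ++ j' :: i' :: m) i j v e1.symm hij
    have s2 := H2 _ (by rw [hw]; simp) l2 u i' j' (m ++ j :: i :: v) e2 hij'
    rw [← hF] at s1 s2
    rw [e1'] at s1
    rw [s1, s2]
    -- `h2`
    have p1 : ∀ x : L, PBW1_G b F u (m ++ i :: j :: v) x =
        PBW1_G b F u (m ++ j :: i :: v) x + PBW1_G2 b F u m v x ⁅b i, b j⁆ := by
      have h1 : PBW1_G b F u (m ++ i :: j :: v) =
        PBW1_G b F u (m ++ j :: i :: v) + (PBW1_G2 b F u m v).flip ⁅b i, b j⁆ := by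
        refine b.ext fun k => ?_
        rw [LinearMap.add_apply, LinearMap.flip_apply, PBW1_G2_left, PBW1_G_basis, PBW1_G_basis]
        have h3 := H1 (u ++ k :: m) v (by rw [hw]; simp; omega) i j
        have h4 : ∀ x y : Λ, u ++ k :: (m ++ x :: y :: v) = (u ++ k :: m) ++ x :: y :: v := by
          intro x y; simp
        rw [h4, h4]
        exact h3
      exact fun x => LinearMap.congr_fun h1 x
    have p2 : ∀ y : L, PBW1_G b F (u ++ i' :: j' :: m) v y =
        PBW1_G b F (u ++ j' :: i' :: m) v y + PBW1_G2 b F u m v ⁅b i', b j'⁆ y := by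
      have h1 : PBW1_G b F (u ++ i' :: j' :: m) v =
        PBW1_G b F (u ++ j' :: i' :: m) v + PBW1_G2 b F u m v ⁅b i', b j'⁆ := by
        refine b.ext fun k => ?_
        rw [LinearMap.add_apply, PBW1_G2_right, PBW1_G_basis, PBW1_G_basis]
        have h3 := H1 u (m ++ k :: v) (by rw [hw]; simp; omega) i' j'
        have h4 : ∀ x y : Λ, (u ++ x :: y :: m) ++ k :: v = u ++ x :: y :: (m ++ k :: v) := by
          intro x y; simp
        rw [h4, h4]
        exact h3
      exact fun y => LinearMap.congr_fun h1 y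
    rw [p1, p2]
    abel

theorem PBW1_ok (w : List Λ)
    (H1 : ∀ u v : List Λ, u.length + v.length + 2 < w.length → PBW1_Rel b (PBW1_F b) u v)
    (H2 : ∀ w' : List Λ, w'.length = w.length → PBW1_inv w' < PBW1_inv w → PBW1_OK b w') :
    PBW1_OK b w := by
  intro u i j v hw hij
  obtain ⟨u', i', j', v', hw', hij', he⟩ := PBW1_F_desc b w u i j v hw hij
  rw [he]
  have hh : u' ++ i' :: j' :: v' = u ++ i :: j :: v := by rw [← hw', ← hw]
  rcases List.append_eq_append_iff.1 hh with ⟨a, h1, h2⟩ | ⟨a, h1, h2⟩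
  · subst h1
    exact PBW1_conf b w H1 H2 u' a i' j' v' i j v hw hij h2 hij'
  · subst h1
    exact (PBW1_conf b w H1 H2 u a i j v i' j' v' hw' hij' h2 hij).symm

theorem PBW1_main (n : ℕ) : ∀ w : List Λ, w.length = n → PBW1_OK b w := by
  induction n using Nat.strong_induction_on with
  | _ n ihn =>
    have key : ∀ m : ℕ, ∀ w : List Λ, w.length = n → PBW1_inv w = m → PBW1_OK b w := by
      intro m
      induction m using Nat.strong_induction_on with
      | _ m ihm =>
        intro w hn hm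
        refine PBW1_ok b w ?_ ?_
        · intro u v huv i j
          have hlen : ∀ x y : Λ, (u ++ x :: y :: v).length = u.length + v.length + 2 := by
            intro x y; simp; omega
          rw [hn] at huv
          rcases lt_trichotomy j i with h | h | h
          · exact ihn _ huv _ (hlen i j) u i j v rfl h
          · subst h
            rw [lie_self, map_zero, add_zero]
          · have h1 := ihn _ huv _ (hlen j i) u j i v rfl h
            rw [h1, ← lie_skew (b i) (b j), map_neg]
            abel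
        · intro w' hl hi
          exact ihm _ (hm ▸ hi) w' (hl.trans hn) rfl
    exact fun w hw => key _ w hw rfl

theorem PBW1_rel (u v : List Λ) : PBW1_Rel b (PBW1_F b) u v := by
  intro i j
  rcases lt_trichotomy j i with h | h | h
  · exact PBW1_main b _ _ rfl u i j v rfl h
  · subst h
    rw [lie_self, map_zero, add_zero]
  · have h1 := PBW1_main b _ _ rfl u j i v rfl h
    rw [h1, ← lie_skew (b i) (b j), map_neg]
    abel

end PBW1

section PBW1b

variable {R L : Type} [CommRing R] [LieRing L] [LieAlgebra R L] {Λ : Type}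
  (b : Module.Basis Λ R L) {V : Type} [AddCommGroup V] [Module R V]

theorem PBW1_G_add (f g : List Λ → V) (u v : List Λ) (x : L) :
    PBW1_G b (f + g) u v x = PBW1_G b f u v x + PBW1_G b g u v x := by
  have h : PBW1_G b (f + g) u v = PBW1_G b f u v + PBW1_G b g u v := by
    refine b.ext fun k => ?_
    rw [LinearMap.add_apply, PBW1_G_basis, PBW1_G_basis, PBW1_G_basis, Pi.add_apply]
  exact LinearMap.congr_fun h x

theorem PBW1_G_smul (r : R) (f : List Λ → V) (u v : List Λ) (x : L) :
    PBW1_G b (r • f) u v x = r • PBW1_G b f u v x := by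
  have h : PBW1_G b (r • f) u v = r • PBW1_G b f u v := by
    refine b.ext fun k => ?_
    rw [LinearMap.smul_apply, PBW1_G_basis, PBW1_G_basis, Pi.smul_apply]
  exact LinearMap.congr_fun h x

variable (V) in
/-- the functions on words which satisfy the relations -/
def PBW1_X : Submodule R (List Λ → V) where
  carrier := {f | ∀ u v, PBW1_Rel b f u v}
  zero_mem' := by
    intro u v i j
    have h : PBW1_G b (0 : List Λ → V) u v ⁅b i, b j⁆ = 0 := by
      have := PBW1_G_smul b (0 : R) (0 : List Λ → V) u v ⁅b i, b j⁆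
      rwa [zero_smul, zero_smul] at this
    rw [h]
    simp
  add_mem' := by
    intro f g hf hg u v i j
    rw [PBW1_G_add, Pi.add_apply, Pi.add_apply, hf u v i j, hg u v i j]
    abel
  smul_mem' := by
    intro r f hf u v i j
    rw [PBW1_G_smul, Pi.smul_apply, Pi.smul_apply, hf u v i j, smul_add]

variable (V) in
/-- append a letter -/
def PBW1_shift (k : Λ) : PBW1_X b V →ₗ[R] PBW1_X b V where
  toFun f := ⟨fun s => f.1 (s ++ [k]), by
    intro u v i j
    have h1 := f.2 u (v ++ [k]) i j
    have h2 : PBW1_G b (fun s => f.1 (s ++ [k])) u v = PBW1_G b f.1 u (v ++ [k]) := by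
      refine b.ext fun l => ?_
      rw [PBW1_G_basis, PBW1_G_basis]
      simp
    rw [h2]
    have h3 : ∀ x y : Λ, (u ++ x :: y :: v) ++ [k] = u ++ x :: y :: (v ++ [k]) := by
      intro x y; simp
    change f.1 ((u ++ i :: j :: v) ++ [k]) = f.1 ((u ++ j :: i :: v) ++ [k]) + _
    rw [h3, h3]
    exact h1⟩
  map_add' f g := rfl
  map_smul' r f := rfl

variable (V) in
/-- the representation -/
noncomputable def PBW1_rho : L →ₗ[R] Module.End R (PBW1_X b V) := b.constr R (PBW1_shift b V)

theorem PBW1_rho_apply (x : L) (f : PBW1_X b V) (s : List Λ) :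
    (PBW1_rho b V x f).1 s = PBW1_G b f.1 s [] x := by
  have h : (LinearMap.proj s ∘ₗ (PBW1_X b V).subtype ∘ₗ (PBW1_rho b V).flip f) =
      PBW1_G b f.1 s [] := by
    refine b.ext fun k => ?_
    rw [PBW1_G_basis]
    simp only [LinearMap.comp_apply, LinearMap.flip_apply, PBW1_rho, Module.Basis.constr_basis]
    rfl
  exact LinearMap.congr_fun h x

theorem PBW1_rho_rho (x y : L) (f : PBW1_X b V) (s : List Λ) :
    (PBW1_rho b V x (PBW1_rho b V y f)).1 s = PBW1_G2 b f.1 s [] [] x y := by
  have h : PBW1_G b (PBW1_rho b V y f).1 s [] = (PBW1_G2 b f.1 s [] []).flip y := by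
    refine b.ext fun k => ?_
    rw [PBW1_G_basis, LinearMap.flip_apply, PBW1_G2_left, PBW1_rho_apply]
  rw [PBW1_rho_apply]
  exact LinearMap.congr_fun h x

theorem PBW1_rho_lie (x y : L) : PBW1_rho b V ⁅x, y⁆ =
    PBW1_rho b V x * PBW1_rho b V y - PBW1_rho b V y * PBW1_rho b V x := by
  refine LinearMap.ext fun f => Subtype.ext (funext fun s => ?_)
  change (PBW1_rho b V ⁅x, y⁆ f).1 s = (PBW1_rho b V x (PBW1_rho b V y f)).1 s -
      (PBW1_rho b V y (PBW1_rho b V x f)).1 s
  rw [PBW1_rho_apply, PBW1_rho_rho, PBW1_rho_rho, PBW1_lin b f.1 s [] (f.2 s [])]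
  abel

attribute [local instance 100] LieRing.ofAssociativeRing

variable (V) in
/-- the representation as a homomorphism of Lie algebras -/
noncomputable def PBW1_hom : L →ₗ⁅R⁆ Module.End R (PBW1_X b V) :=
  { PBW1_rho b V with
    map_lie' := by
      intro x y
      exact PBW1_rho_lie b x y }

theorem PBW1_lift (l : List Λ) (f : PBW1_X b V) (s : List Λ) :
    (UniversalEnvelopingAlgebra.lift R (PBW1_hom b V) (pbwMon R L b l) f).1 s = f.1 (s ++ l) := by
  induction l generalizing s with
  | nil => simp [pbwMon]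
  | cons k l ih =>
    have h1 : pbwMon R L b (k :: l) =
        UniversalEnvelopingAlgebra.ι R (b k) * pbwMon R L b l := by simp [pbwMon]
    rw [h1, map_mul, UniversalEnvelopingAlgebra.lift_ι_apply]
    change (PBW1_rho b V (b k) (UniversalEnvelopingAlgebra.lift R (PBW1_hom b V)
      (pbwMon R L b l) f)).1 s = _
    rw [PBW1_rho_apply, PBW1_G_basis, ih]
    simp

theorem PBW1_exists (f : PBW1_X b V) : ∃ N : UniversalEnvelopingAlgebra R L →ₗ[R] V,
    ∀ l : List Λ, N (pbwMon R L b l) = f.1 l := by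
  refine ⟨{
    toFun := fun u => (UniversalEnvelopingAlgebra.lift R (PBW1_hom b V) u f).1 []
    map_add' := fun x y => by rw [map_add]; rfl
    map_smul' := fun r x => by rw [map_smul]; rfl }, fun l => ?_⟩
  have h := PBW1_lift b l f []
  rw [List.nil_append] at h
  exact h

end PBW1b

/-- PBW, linear independence: for every `R`-module valued function on sorted lists there is a linear map on
the enveloping algebra with these values -/
theorem pbw_indep (R L : Type) [CommRing R] [LieRing L] [LieAlgebra R L] {Λ : Type} [LinearOrder Λ]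
    (b : Module.Basis Λ R L) :
    ∃ N : UniversalEnvelopingAlgebra R L →ₗ[R] (List Λ →₀ R),
      ∀ l : List Λ, l.Pairwise (· ≤ ·) → N (pbwMon R L b l) = Finsupp.single l 1 := by
  obtain ⟨N, hN⟩ := PBW1_exists b (V := List Λ →₀ R)
    ⟨PBW1_F b, fun u v => PBW1_rel b u v⟩
  exact ⟨N, fun l hl => (hN l).trans (PBW1_F_sorted b l hl)⟩

end C74
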