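import Pool.Agent.MP_35f30a_al.C74.PBW1

/-!
ROW PBW3.  PBW, spanning.

The span `W` of the ordered monomials contains `1` and is stable under left multiplication by `ι (b i)`: more precisely, by
induction on `n`, every product of `≤ n` elements `ι (b i)` lies in the span of the ordered monomials of length `≤ n`:
`ι b_i ι b_j = ι b_j ι b_i + ι [b_i,b_j]`, the last term gives shorter products (`[b_i,b_j]` is a combination of the `b`'s);
bubble sort.  The enveloping algebra is generated by `ι L`.
-/

set_option autoImplicit false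
set_option linter.unusedSectionVars false

open scoped TensorProduct Polynomial

namespace C74

section

attribute [local instance 100] LieRing.ofAssociativeRing

variable (R L : Type) [CommRing R] [LieRing L] [LieAlgebra R L] {Λ : Type} [LinearOrder Λ]
    (b : Module.Basis Λ R L)

/-- span of the ordered monomials of length at most `n` -/
def PBW3_W (n : ℕ) : Submodule R (UniversalEnvelopingAlgebra R L) :=
  Submodule.span R {u | ∃ l : List Λ, l.Pairwise (· ≤ ·) ∧ l.length ≤ n ∧ u = pbwMon R L b l}

theorem PBW3_mono {m n : ℕ} (h : m ≤ n) : PBW3_W R L b m ≤ PBW3_W R L b n :=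
  Submodule.span_mono fun _ ⟨l, h1, h2, h3⟩ => ⟨l, h1, h2.trans h, h3⟩

theorem PBW3_cons (x : Λ) (l : List Λ) :
    pbwMon R L b (x :: l) = UniversalEnvelopingAlgebra.ι R (b x) * pbwMon R L b l := by
  unfold pbwMon
  rw [List.map_cons, List.prod_cons]

theorem PBW3_nil : pbwMon R L b [] = 1 := by
  unfold pbwMon
  rw [List.map_nil, List.prod_nil]

theorem PBW3_append (l l' : List Λ) :
    pbwMon R L b (l ++ l') = pbwMon R L b l * pbwMon R L b l' := by
  unfold pbwMon
  rw [List.map_append, List.prod_append]

theorem PBW3_mul {m : ℕ} (H : ∀ l : List Λ, l.length ≤ m + 1 → pbwMon R L b l ∈ PBW3_W R L b (m + 1))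
    (x : Λ) {u : UniversalEnvelopingAlgebra R L} (hu : u ∈ PBW3_W R L b m) :
    UniversalEnvelopingAlgebra.ι R (b x) * u ∈ PBW3_W R L b (m + 1) := by
  unfold PBW3_W at hu
  induction hu using Submodule.span_induction with
  | mem u hu =>
    obtain ⟨l, _, h2, rfl⟩ := hu
    rw [← PBW3_cons]
    exact H _ (by rw [List.length_cons]; omega)
  | zero => rw [mul_zero]; exact zero_mem _
  | add u v _ _ hu hv => rw [mul_add]; exact add_mem hu hv
  | smul a u _ hu => rw [mul_smul_comm]; exact Submodule.smul_mem _ _ hu

theorem PBW3_perm {n : ℕ}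
    (H : ∀ m ≤ n, ∀ l : List Λ, l.length ≤ m → pbwMon R L b l ∈ PBW3_W R L b m) {l l' : List Λ}
    (h : l.Perm l') : ∀ m ≤ n, l.length ≤ m + 1 →
      pbwMon R L b l - pbwMon R L b l' ∈ PBW3_W R L b m := by
  induction h with
  | nil => intro m _ _; rw [sub_self]; exact zero_mem _
  | @cons x l l' hp ih =>
    intro m hm hl
    rw [List.length_cons] at hl
    rw [PBW3_cons, PBW3_cons, ← mul_sub]
    rcases m with _ | m
    · have h1 : l = [] := List.length_eq_zero_iff.1 (by omega)
      subst h1
      have h2 : l' = [] := hp.symm.eq_nil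
      rw [h2, sub_self, mul_zero]
      exact zero_mem _
    · exact PBW3_mul R L b (H (m + 1) hm) x (ih m (by omega) (by omega))
  | swap x y l =>
    intro m hm hl
    rw [List.length_cons, List.length_cons] at hl
    rw [PBW3_cons, PBW3_cons, PBW3_cons, PBW3_cons, ← mul_assoc, ← mul_assoc, ← sub_mul]
    have h1 : UniversalEnvelopingAlgebra.ι R (b y) * UniversalEnvelopingAlgebra.ι R (b x) -
        UniversalEnvelopingAlgebra.ι R (b x) * UniversalEnvelopingAlgebra.ι R (b y) =
        UniversalEnvelopingAlgebra.ι R ⁅b y, b x⁆ := by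
      rw [LieHom.map_lie]
      rfl
    rw [h1]
    have h2 : ∀ w : L, UniversalEnvelopingAlgebra.ι R w * pbwMon R L b l ∈ PBW3_W R L b m := by
      intro w
      rw [← b.linearCombination_repr w, Finsupp.linearCombination_apply, Finsupp.sum]
      rw [map_sum, Finset.sum_mul]
      refine Submodule.sum_mem _ fun c _ => ?_
      rw [map_smul, smul_mul_assoc, ← PBW3_cons]
      exact Submodule.smul_mem _ _ (H m hm _ (by rw [List.length_cons]; omega))
    exact h2 _
  | @trans l1 l2 l3 h12 _ ih1 ih2 =>
    intro m hm hl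
    have h1 := ih1 m hm hl
    have h2 := ih2 m hm (by rw [← h12.length_eq]; exact hl)
    have h3 : pbwMon R L b l1 - pbwMon R L b l3 =
        (pbwMon R L b l1 - pbwMon R L b l2) + (pbwMon R L b l2 - pbwMon R L b l3) := by abel
    rw [h3]
    exact add_mem h1 h2

theorem PBW3_main (n : ℕ) : ∀ m ≤ n, ∀ l : List Λ, l.length ≤ m → pbwMon R L b l ∈ PBW3_W R L b m := by
  induction n with
  | zero =>
    intro m hm l hl
    have h1 : l = [] := List.length_eq_zero_iff.1 (by omega)
    subst h1
    exact Submodule.subset_span ⟨[], List.Pairwise.nil, Nat.zero_le _, rfl⟩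
  | succ n ih =>
    intro m hm l hl
    by_cases h : m ≤ n
    · exact ih m h l hl
    · have hm' : m = n + 1 := by omega
      subst hm'
      have hp : l.Perm (l.insertionSort (· ≤ ·)) := (List.perm_insertionSort (· ≤ ·) l).symm
      have h1 := PBW3_perm R L b ih hp n le_rfl hl
      have h2 : pbwMon R L b (l.insertionSort (· ≤ ·)) ∈ PBW3_W R L b (n + 1) :=
        Submodule.subset_span ⟨_, List.pairwise_insertionSort (· ≤ ·) l, by
          rw [← hp.length_eq]; exact hl, rfl⟩
      have h3 : pbwMon R L b l = (pbwMon R L b l - pbwMon R L b (l.insertionSort (· ≤ ·))) +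
          pbwMon R L b (l.insertionSort (· ≤ ·)) := by abel
      rw [h3]
      exact add_mem (PBW3_mono R L b (Nat.le_succ n) h1) h2

theorem PBW3_mul_all {u v : UniversalEnvelopingAlgebra R L}
    (hu : u ∈ Submodule.span R (Set.range fun l : List Λ => pbwMon R L b l))
    (hv : v ∈ Submodule.span R (Set.range fun l : List Λ => pbwMon R L b l)) :
    u * v ∈ Submodule.span R (Set.range fun l : List Λ => pbwMon R L b l) := by
  induction hu using Submodule.span_induction with
  | mem u hu' =>
    obtain ⟨l, rfl⟩ := hu'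
    induction hv using Submodule.span_induction with
    | mem v hv' =>
      obtain ⟨l', rfl⟩ := hv'
      dsimp only
      rw [← PBW3_append]
      exact Submodule.subset_span ⟨_, rfl⟩
    | zero => rw [mul_zero]; exact zero_mem _
    | add u v _ _ hu hv => rw [mul_add]; exact add_mem hu hv
    | smul a u _ hu => rw [mul_smul_comm]; exact Submodule.smul_mem _ _ hu
  | zero => rw [zero_mul]; exact zero_mem _
  | add u v _ _ hu hv => rw [add_mul]; exact add_mem hu hv
  | smul a u _ hu => rw [smul_mul_assoc]; exact Submodule.smul_mem _ _ hu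

/-- the subalgebra spanned by all monomials -/
def PBW3_S : Subalgebra R (UniversalEnvelopingAlgebra R L) where
  carrier := Submodule.span R (Set.range fun l : List Λ => pbwMon R L b l)
  mul_mem' := by
    intro u v hu hv
    change u ∈ Submodule.span R (Set.range fun l : List Λ => pbwMon R L b l) at hu
    change v ∈ Submodule.span R (Set.range fun l : List Λ => pbwMon R L b l) at hv
    exact PBW3_mul_all R L b hu hv
  one_mem' := Submodule.subset_span ⟨[], PBW3_nil R L b⟩
  add_mem' := fun hu hv => add_mem (S := Submodule R (UniversalEnvelopingAlgebra R L)) hu hv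
  zero_mem' := zero_mem (Submodule.span R (Set.range fun l : List Λ => pbwMon R L b l))
  algebraMap_mem' := by
    intro r
    rw [Algebra.algebraMap_eq_smul_one]
    exact Submodule.smul_mem _ _ (Submodule.subset_span ⟨[], PBW3_nil R L b⟩)

theorem PBW3_ι_mem (x : L) : UniversalEnvelopingAlgebra.ι R x ∈ PBW3_S R L b := by
  change _ ∈ Submodule.span R (Set.range fun l : List Λ => pbwMon R L b l)
  rw [← b.linearCombination_repr x, Finsupp.linearCombination_apply, Finsupp.sum, map_sum]
  refine Submodule.sum_mem _ fun c _ => ?_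
  rw [map_smul]
  refine Submodule.smul_mem _ _ (Submodule.subset_span ⟨[c], ?_⟩)
  dsimp only
  rw [PBW3_cons, PBW3_nil, mul_one]

theorem PBW3_all (u : UniversalEnvelopingAlgebra R L) : u ∈ PBW3_S R L b := by
  let f : L →ₗ⁅R⁆ PBW3_S R L b :=
    { toFun := fun x => ⟨UniversalEnvelopingAlgebra.ι R x, PBW3_ι_mem R L b x⟩
      map_add' := fun x y => Subtype.ext (map_add _ x y)
      map_smul' := fun a x => Subtype.ext (map_smul _ a x)
      map_lie' := by
        intro x y
        apply Subtype.ext
        change UniversalEnvelopingAlgebra.ι R ⁅x, y⁆ = _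
        rw [LieHom.map_lie]
        rfl }
  have h1 : (PBW3_S R L b).val.comp (UniversalEnvelopingAlgebra.lift R f) =
      AlgHom.id R (UniversalEnvelopingAlgebra R L) := by
    apply UniversalEnvelopingAlgebra.hom_ext
    ext x
    change ((UniversalEnvelopingAlgebra.lift R f (UniversalEnvelopingAlgebra.ι R x) : PBW3_S R L b) :
      UniversalEnvelopingAlgebra R L) = UniversalEnvelopingAlgebra.ι R x
    rw [UniversalEnvelopingAlgebra.lift_ι_apply]
    rfl
  have h2 := congrArg (fun g : UniversalEnvelopingAlgebra R L →ₐ[R] UniversalEnvelopingAlgebra R L =>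
    g u) h1
  have h3 : ((UniversalEnvelopingAlgebra.lift R f u : PBW3_S R L b) :
      UniversalEnvelopingAlgebra R L) = u := h2
  rw [← h3]
  exact (UniversalEnvelopingAlgebra.lift R f u).2

end

/-- PBW, spanning -/
theorem pbw_span (R L : Type) [CommRing R] [LieRing L] [LieAlgebra R L] {Λ : Type} [LinearOrder Λ]
    (b : Module.Basis Λ R L) :
    Submodule.span R {u | ∃ l : List Λ, l.Pairwise (· ≤ ·) ∧ u = pbwMon R L b l} = ⊤ := by
  rw [eq_top_iff]
  intro u _
  have h1 : u ∈ Submodule.span R (Set.range fun l : List Λ => pbwMon R L b l) := PBW3_all R L b u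
  refine (Submodule.span_le.2 ?_) h1
  rintro _ ⟨l, rfl⟩
  have h2 := PBW3_main R L b l.length l.length le_rfl l le_rfl
  refine (Submodule.span_mono ?_) h2
  rintro v ⟨l', h3, _, h4⟩
  exact ⟨l', h3, h4⟩

end C74
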