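import Pool.Agent.MP_35f30a_al.C74.Ord
import Pool.Agent.MP_35f30a_al.C74.PBW1
import Pool.Agent.MP_35f30a_al.C74.PBW3

/-!
ROW PBW2.  The PBW interface.  Blueprint section 4.1.

`L := FreeLieAlgebra k Λ0` with a `k`-basis `β : Λ → L` containing the letters (they are linearly independent: map
to `FreeAlgebra k Λ0`; extend to a basis of the vector space `L`), `j : Λ0 → Λ` injective; choose a linear order on
`Λ`.  `𝔤 := k[X] ⊗[k] L` with the *scaled* bracket `X • ⁅ , ⁆` (a type synonym; for any Lie algebra `M` over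
`R` and `r ∈ R`, `(x,y) ↦ r • ⁅x,y⁆` is again a Lie bracket), basis `1 ⊗ β_λ`.
`U := UniversalEnvelopingAlgebra k[X] 𝔤`, `l i := ι (1 ⊗ letter i)`.
* `ρ : U →+* MvPolynomial Λ k` (semilinear over `ev0`; view `MvPolynomial Λ k` as a `k[X]`-algebra via `ev0`):
  `ι(r ⊗ β_λ) ↦ ev0 r • X_λ`; it is a Lie hom as the scaled bracket goes to `0`.
* QC: by PBW1 `U` has the `k[X]`-basis `pbwMon l`, `l` sorted; `X` regular; `ρ (pbwMon l) = Π X_{λ}`: distinct sorted lists
  give distinct monomials, all monomials occur.  So `ρ` is onto with kernel `X U`.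
* (gen): `{ℓ ∈ L | ι (1 ⊗ ℓ) ∈ B'}` is a Lie subalgebra containing the letters:
  `ι(1⊗ℓ) ι(1⊗ℓ') - ι(1⊗ℓ') ι(1⊗ℓ) = X • ι(1 ⊗ ⁅ℓ,ℓ'⁆)`.  The letters generate `L` (universal property: a Lie
  subalgebra containing the letters is everything), `U` is generated by `ι 𝔤`.
* (univ): on `B` put `⁅a,b⁆' := X⁻¹(ab - ba)` (`Gap k 1 B`, `XReg`): a Lie algebra over `k` (over `k[X]` too).
  `FreeLieAlgebra.lift` gives `φ : L → B`; `r ⊗ ℓ ↦ r • φ ℓ` is a Lie hom from `𝔤` (scaled bracket) to `B` with the commutator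
  bracket; `UniversalEnvelopingAlgebra.lift`.
-/

set_option autoImplicit false

open scoped TensorProduct Polynomial

namespace C74

section PBW2aux
attribute [local instance 100] LieRing.ofAssociativeRing

theorem PBW2_lift (R G A : Type) [CommRing R] [LieRing G] [LieAlgebra R G] [Ring A] [Algebra R A]
    (f : G →ₗ[R] A) (hf : ∀ x y, f ⁅x, y⁆ = f x * f y - f y * f x) :
    ∃ F : UniversalEnvelopingAlgebra R G →ₐ[R] A,
      ∀ x, F (UniversalEnvelopingAlgebra.ι R x) = f x := by
  let g : G →ₗ⁅R⁆ A := { f with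
    map_lie' := fun {x y} => by
      rw [LieRing.of_associative_ring_bracket]
      exact hf x y }
  exact ⟨UniversalEnvelopingAlgebra.lift R g, fun x => UniversalEnvelopingAlgebra.lift_ι_apply R g x⟩

theorem PBW2_ι_lie (R G : Type) [CommRing R] [LieRing G] [LieAlgebra R G] (x y : G) :
    (UniversalEnvelopingAlgebra.ι R ⁅x, y⁆ : UniversalEnvelopingAlgebra R G) =
      UniversalEnvelopingAlgebra.ι R x * UniversalEnvelopingAlgebra.ι R y -
      UniversalEnvelopingAlgebra.ι R y * UniversalEnvelopingAlgebra.ι R x := by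
  rw [LieHom.map_lie, LieRing.of_associative_ring_bracket]

theorem PBW2_gen (R G : Type) [CommRing R] [LieRing G] [LieAlgebra R G]
    (B' : Subalgebra R (UniversalEnvelopingAlgebra R G))
    (h : ∀ x, UniversalEnvelopingAlgebra.ι R x ∈ B') : B' = ⊤ := by
  let f : G →ₗ[R] B' :=
    { toFun := fun x => ⟨UniversalEnvelopingAlgebra.ι R x, h x⟩
      map_add' := fun x y => by ext; simp
      map_smul' := fun r x => by ext; simp }
  obtain ⟨F, hF⟩ := PBW2_lift R G B' f (fun x y => by
    apply Subtype.ext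
    exact PBW2_ι_lie R G x y)
  have key : (B'.val.comp F) = AlgHom.id R _ := by
    apply UniversalEnvelopingAlgebra.hom_ext
    ext x
    change ((F (UniversalEnvelopingAlgebra.ι R x) : B') : UniversalEnvelopingAlgebra R G) = _
    rw [hF]
    rfl
  rw [eq_top_iff]
  intro u _
  have := congrArg (fun H => H u) key
  simp only [AlgHom.comp_apply, AlgHom.id_apply] at this
  rw [← this]
  exact (F u).2

end PBW2aux

/-- the Lie algebra `M` with the bracket multiplied by `r` -/
def PBW2_Sc (R M : Type) (_ : R) : Type := M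

section
variable {R M : Type} [CommRing R] [LieRing M] [LieAlgebra R M] {r : R}

instance PBW2_Sc.acg : AddCommGroup (PBW2_Sc R M r) := inferInstanceAs (AddCommGroup M)

instance PBW2_Sc.mod : Module R (PBW2_Sc R M r) := inferInstanceAs (Module R M)

/-- the identity map -/
def PBW2_Sc.mk : M ≃ₗ[R] PBW2_Sc R M r := LinearEquiv.refl R M

instance PBW2_Sc.lieRing : LieRing (PBW2_Sc R M r) where
  bracket x y := PBW2_Sc.mk (r • ⁅PBW2_Sc.mk.symm x, PBW2_Sc.mk.symm y⁆)
  add_lie x y z := by simp [map_add, add_lie, smul_add]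
  lie_add x y z := by simp [map_add, lie_add, smul_add]
  lie_self x := by simp
  leibniz_lie x y z := by
    simp only [map_smul, LinearEquiv.symm_apply_apply, lie_smul, smul_lie]
    rw [leibniz_lie (PBW2_Sc.mk.symm x), map_add, smul_add, smul_add]

theorem PBW2_Sc.lie_def (x y : PBW2_Sc R M r) :
    ⁅x, y⁆ = PBW2_Sc.mk (r • ⁅PBW2_Sc.mk.symm x, PBW2_Sc.mk.symm y⁆) := rfl

instance PBW2_Sc.lieAlg : LieAlgebra R (PBW2_Sc R M r) where
  lie_smul t x y := by
    simp only [PBW2_Sc.lie_def, map_smul, lie_smul]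
    rw [smul_comm]

end

theorem PBW2_free_gen (k Λ0 : Type) [Field k] (S : LieSubalgebra k (FreeLieAlgebra k Λ0))
    (h : ∀ i, FreeLieAlgebra.of k i ∈ S) (x : FreeLieAlgebra k Λ0) : x ∈ S := by
  let φ : FreeLieAlgebra k Λ0 →ₗ⁅k⁆ S := FreeLieAlgebra.lift k (fun i => ⟨_, h i⟩)
  have key : S.incl.comp φ = LieHom.id := by
    apply FreeLieAlgebra.hom_ext
    intro i
    simp [φ]
  have := congrArg (fun H => H x) key
  simp only [LieHom.comp_apply, LieHom.id_apply] at this
  rw [← this]
  exact (φ x).2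

section
attribute [local instance 100] LieRing.ofAssociativeRing

theorem PBW2_indep (k Λ0 : Type) [Field k] :
    LinearIndependent k (FreeLieAlgebra.of k : Λ0 → FreeLieAlgebra k Λ0) := by
  let φ : FreeLieAlgebra k Λ0 →ₗ⁅k⁆ MvPolynomial Λ0 k :=
    FreeLieAlgebra.lift k (fun i => (MvPolynomial.X i : MvPolynomial Λ0 k))
  have h : LinearIndependent k ((φ : FreeLieAlgebra k Λ0 →ₗ[k] MvPolynomial Λ0 k) ∘
      (FreeLieAlgebra.of k : Λ0 → FreeLieAlgebra k Λ0)) := by
    have : ((φ : FreeLieAlgebra k Λ0 →ₗ[k] MvPolynomial Λ0 k) ∘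
      (FreeLieAlgebra.of k : Λ0 → FreeLieAlgebra k Λ0)) = MvPolynomial.X := by
      funext i
      simp [φ]
    rw [this]
    exact MvPolynomial.linearIndependent_X Λ0 k
  exact h.of_comp _
end

/-- a basis of the free Lie algebra containing the letters -/
theorem PBW2_basis (k Λ0 : Type) [Field k] :
    ∃ (Λ : Type) (j : Λ0 → Λ) (b : Module.Basis Λ k (FreeLieAlgebra k Λ0)),
      Function.Injective j ∧ ∀ i, b (j i) = FreeLieAlgebra.of k i := by
  have hs := (PBW2_indep k Λ0).linearIndepOn_id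
  have hsub := hs.subset_extend (Set.subset_univ _)
  refine ⟨hs.extend (Set.subset_univ _), fun i => ⟨_, hsub ⟨i, rfl⟩⟩, Module.Basis.extend hs, ?_, ?_⟩
  · intro i i' h
    exact (PBW2_indep k Λ0).injective (congrArg Subtype.val h)
  · intro i
    rw [Module.Basis.extend_apply_self]

/-- type synonym for the ring with divided commutators -/
def PBW2_Dv (B : Type) : Type := B

section Dv
variable {k : Type} [Field k] {B : Type} [Ring B] [Algebra k[X] B]

instance PBW2_Dv.acg : AddCommGroup (PBW2_Dv B) := inferInstanceAs (AddCommGroup B)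

noncomputable instance PBW2_Dv.mod : Module k (PBW2_Dv B) :=
  Module.compHom B (Polynomial.C : k →+* k[X])

theorem PBW2_cancel (hx : XReg k B) {a b : B} (h : tX k • a = tX k • b) : a = b := by
  have := hx (a - b) (by rw [smul_sub, h, sub_self])
  exact sub_eq_zero.mp this

/-- divided commutator -/
noncomputable def PBW2_br (hg : Gap k 1 B) (a b : B) : B := (hg a b).choose

theorem PBW2_br_spec (hg : Gap k 1 B) (a b : B) : tX k • PBW2_br hg a b = a * b - b * a := by
  have := (hg a b).choose_spec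
  simp only [pow_one] at this
  unfold PBW2_br
  simp only [pow_one]
  exact this.symm

theorem PBW2_br_add_left (hx : XReg k B) (hg : Gap k 1 B) (a b c : B) :
    PBW2_br hg (a + b) c = PBW2_br hg a c + PBW2_br hg b c := PBW2_cancel hx (by
  rw [smul_add, PBW2_br_spec, PBW2_br_spec, PBW2_br_spec]
  noncomm_ring)

theorem PBW2_br_add_right (hx : XReg k B) (hg : Gap k 1 B) (a b c : B) :
    PBW2_br hg a (b + c) = PBW2_br hg a b + PBW2_br hg a c := PBW2_cancel hx (by
  rw [smul_add, PBW2_br_spec, PBW2_br_spec, PBW2_br_spec]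
  noncomm_ring)

theorem PBW2_br_self (hx : XReg k B) (hg : Gap k 1 B) (a : B) :
    PBW2_br hg a a = 0 := PBW2_cancel hx (by
  rw [PBW2_br_spec, smul_zero, sub_self])

theorem PBW2_br_leibniz (hx : XReg k B) (hg : Gap k 1 B) (a b c : B) :
    PBW2_br hg a (PBW2_br hg b c) =
      PBW2_br hg (PBW2_br hg a b) c + PBW2_br hg b (PBW2_br hg a c) :=
    PBW2_cancel hx (PBW2_cancel hx (by
  have h1 : ∀ x y z : B, tX k • tX k • PBW2_br hg x (PBW2_br hg y z) =
      x * (y * z - z * y) - (y * z - z * y) * x := by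
    intro x y z
    rw [PBW2_br_spec, smul_sub, ← mul_smul_comm, ← smul_mul_assoc, PBW2_br_spec]
  have h2 : ∀ x y z : B, tX k • tX k • PBW2_br hg (PBW2_br hg x y) z =
      (x * y - y * x) * z - z * (x * y - y * x) := by
    intro x y z
    rw [PBW2_br_spec, smul_sub, ← smul_mul_assoc, ← mul_smul_comm, PBW2_br_spec]
  rw [smul_add, smul_add, h1, h1, h2]
  noncomm_ring))

theorem PBW2_br_smul (hx : XReg k B) (hg : Gap k 1 B) (r : k[X]) (a b : B) :
    PBW2_br hg a (r • b) = r • PBW2_br hg a b := PBW2_cancel hx (by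
  rw [smul_comm (tX k), PBW2_br_spec, PBW2_br_spec, smul_sub, mul_smul_comm, smul_mul_assoc])

/-- the Lie ring of divided commutators -/
@[reducible] noncomputable def PBW2_lieRing (hx : XReg k B) (hg : Gap k 1 B) :
    LieRing (PBW2_Dv B) :=
  { PBW2_Dv.acg with
    bracket := fun a b => (PBW2_br hg (a : B) (b : B) : B)
    add_lie := fun a b c => PBW2_br_add_left hx hg a b c
    lie_add := fun a b c => PBW2_br_add_right hx hg a b c
    lie_self := fun a => PBW2_br_self hx hg a
    leibniz_lie := fun a b c => PBW2_br_leibniz hx hg a b c }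

end Dv

/-- divided commutators -/
theorem PBW2_univ (k : Type) [Field k] (Λ0 B : Type) [Ring B] [Algebra k[X] B]
    (hx : XReg k B) (hg : Gap k 1 B) (g : Λ0 → B) :
    ∃ φ : FreeLieAlgebra k Λ0 → B, (∀ x y, φ (x + y) = φ x + φ y) ∧
      (∀ (c : k) x, φ (c • x) = (Polynomial.C c : k[X]) • φ x) ∧
      (∀ x y, tX k • φ ⁅x, y⁆ = φ x * φ y - φ y * φ x) ∧
      ∀ i, φ (FreeLieAlgebra.of k i) = g i := by
  let _ : LieRing (PBW2_Dv B) := PBW2_lieRing hx hg
  let _ : LieAlgebra k (PBW2_Dv B) :=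
    { PBW2_Dv.mod with
      lie_smul := fun c a b => PBW2_br_smul hx hg (Polynomial.C c : k[X]) a b }
  let φ : FreeLieAlgebra k Λ0 →ₗ⁅k⁆ PBW2_Dv B :=
    FreeLieAlgebra.lift (L := PBW2_Dv B) k (fun i => (g i : B))
  refine ⟨fun x => (φ x : B), fun x y => map_add φ x y, fun c x => map_smul φ c x, fun x y => ?_,
    fun i => FreeLieAlgebra.lift_of_apply (L := PBW2_Dv B) _ i⟩
  have h1 : φ ⁅x, y⁆ = ⁅φ x, φ y⁆ := LieHom.map_lie φ x y
  exact (congrArg (fun z : B => tX k • z) h1).trans (PBW2_br_spec hg _ _)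

/-- polynomials as a `k[X]`-algebra via evaluation at `0` -/
def PBW2_Mv (Λ k : Type) [Field k] : Type := MvPolynomial Λ k

noncomputable instance PBW2_Mv.ring (Λ k : Type) [Field k] : CommRing (PBW2_Mv Λ k) :=
  inferInstanceAs (CommRing (MvPolynomial Λ k))

noncomputable instance PBW2_Mv.alg (Λ k : Type) [Field k] : Algebra k[X] (PBW2_Mv Λ k) :=
  RingHom.toAlgebra ((MvPolynomial.C : k →+* MvPolynomial Λ k).comp (ev0 k))

/-- the exponent of a word -/
noncomputable def PBW2_ms {Λ : Type} (l : List Λ) : Λ →₀ ℕ := (l.map fun i => Finsupp.single i 1).sum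

theorem PBW2_ms_apply {Λ : Type} [DecidableEq Λ] (l : List Λ) (a : Λ) :
    PBW2_ms l a = l.count a := by
  induction l with
  | nil => simp [PBW2_ms]
  | cons x l ih =>
    simp only [PBW2_ms, List.map_cons, List.sum_cons, Finsupp.add_apply] at ih ⊢
    rw [ih, Finsupp.single_apply, List.count_cons]
    simp only [beq_iff_eq]
    ring

theorem PBW2_ms_inj {Λ : Type} [LinearOrder Λ] (l l' : List Λ) (h : l.Pairwise (· ≤ ·))
    (h' : l'.Pairwise (· ≤ ·)) (e : PBW2_ms l = PBW2_ms l') : l = l' := by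
  have hp : l.Perm l' := by
    rw [List.perm_iff_count]
    intro a
    rw [← PBW2_ms_apply, ← PBW2_ms_apply, e]
  exact hp.eq_of_pairwise (fun a b _ _ hab hba => le_antisymm hab hba) h h'

theorem PBW2_mon {Λ k : Type} [Field k] (l : List Λ) :
    (l.map fun i => (MvPolynomial.X i : MvPolynomial Λ k)).prod =
      MvPolynomial.monomial (PBW2_ms l) 1 := by
  induction l with
  | nil => simp [PBW2_ms]
  | cons x l ih =>
    rw [List.map_cons, List.prod_cons, ih, PBW2_ms, PBW2_ms, List.map_cons, List.sum_cons,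
      MvPolynomial.X, MvPolynomial.monomial_mul, mul_one]

theorem PBW2_smul_def {Λ k : Type} [Field k] (r : k[X]) (m : PBW2_Mv Λ k) :
    r • m = (show PBW2_Mv Λ k from (MvPolynomial.C (ev0 k r) : MvPolynomial Λ k)) * m :=
  Algebra.smul_def r m

theorem PBW2_rho (k : Type) [Field k] (Λ G : Type) [LieRing G] [LieAlgebra k[X] G]
    (b : Module.Basis Λ k[X] G) (hb : ∀ x y : G, ∃ z : G, ⁅x, y⁆ = tX k • z) :
    ∃ ρ : UniversalEnvelopingAlgebra k[X] G →+* MvPolynomial Λ k,
      (∀ (r : k[X]) u, ρ (r • u) = MvPolynomial.C (ev0 k r) * ρ u) ∧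
      ∀ i, ρ (UniversalEnvelopingAlgebra.ι k[X] (b i)) = MvPolynomial.X i := by
  let f : G →ₗ[k[X]] PBW2_Mv Λ k := b.constr k[X] (fun i => (MvPolynomial.X i : MvPolynomial Λ k))
  have hev : ev0 k (tX k) = 0 := by simp [ev0, tX]
  have hX : ∀ m : PBW2_Mv Λ k, tX k • m = 0 := by
    intro m
    rw [PBW2_smul_def, hev, map_zero]
    exact zero_mul (show PBW2_Mv Λ k from m)
  obtain ⟨F, hF⟩ := PBW2_lift k[X] G (PBW2_Mv Λ k) f (by
    intro x y
    obtain ⟨z, hz⟩ := hb x y
    rw [hz, map_smul, hX, mul_comm, sub_self])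
  refine ⟨(F : UniversalEnvelopingAlgebra k[X] G →+* PBW2_Mv Λ k), fun r u => ?_, fun i => ?_⟩
  · exact (map_smul F r u).trans (PBW2_smul_def r (F u))
  · exact (hF _).trans (b.constr_basis k[X] _ i)

theorem PBW2_qc (k : Type) [Field k] (Λ G : Type) [LieRing G] [LieAlgebra k[X] G]
    (b : Module.Basis Λ k[X] G) (hb : ∀ x y : G, ∃ z : G, ⁅x, y⁆ = tX k • z) :
    ∃ ρ : UniversalEnvelopingAlgebra k[X] G →+* MvPolynomial Λ k,
      IsQC k ρ ∧ ∀ i, ρ (UniversalEnvelopingAlgebra.ι k[X] (b i)) = MvPolynomial.X i := by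
  classical
  let _ : LinearOrder Λ := IsWellOrder.linearOrder WellOrderingRel
  have hev : ev0 k (tX k) = 0 := by simp [ev0, tX]
  obtain ⟨ρ, hρs, hρ⟩ := PBW2_rho k Λ G b hb
  obtain ⟨N, hN⟩ := pbw_indep k[X] G b
  have hspan := pbw_span k[X] G b
  have hFmon : ∀ l, ρ (pbwMon k[X] G b l) = MvPolynomial.monomial (PBW2_ms l) (1 : k) := by
    intro l
    rw [← PBW2_mon, pbwMon, map_list_prod, List.map_map]
    congr 1
    apply List.map_congr_left
    intro i _
    exact hρ i
  let P : (List Λ →₀ k[X]) →ₗ[k[X]] UniversalEnvelopingAlgebra k[X] G :=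
    Finsupp.linearCombination k[X] (pbwMon k[X] G b)
  have hPN : ∀ u, P (N u) = u := by
    intro u
    have hu : u ∈ Submodule.span k[X] {u | ∃ l : List Λ, l.Pairwise (· ≤ ·) ∧
      u = pbwMon k[X] G b l} := by rw [hspan]; trivial
    induction hu using Submodule.span_induction with
    | mem x hx =>
      obtain ⟨l, hl, rfl⟩ := hx
      rw [hN l hl]
      simp [P]
    | zero => simp
    | add x y _ _ hx hy => rw [map_add, map_add, hx, hy]
    | smul r x _ hx => rw [map_smul, map_smul, hx]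
  have hsupp : ∀ u l, ¬ l.Pairwise (· ≤ ·) → N u l = 0 := by
    intro u l hl
    have hu : u ∈ Submodule.span k[X] {u | ∃ l : List Λ, l.Pairwise (· ≤ ·) ∧
      u = pbwMon k[X] G b l} := by rw [hspan]; trivial
    induction hu using Submodule.span_induction with
    | mem x hx =>
      obtain ⟨l', hl', rfl⟩ := hx
      rw [hN l' hl', Finsupp.single_apply, if_neg]
      rintro rfl
      exact hl hl'
    | zero => simp
    | add x y _ _ hx hy => rw [map_add, Finsupp.add_apply, hx, hy, add_zero]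
    | smul r x _ hx => rw [map_smul, Finsupp.smul_apply, hx, smul_zero]
  have hcoef : ∀ u l, l.Pairwise (· ≤ ·) →
      MvPolynomial.coeff (PBW2_ms l) (ρ u) = ev0 k (N u l) := by
    intro u l hl
    have hu : u ∈ Submodule.span k[X] {u | ∃ l : List Λ, l.Pairwise (· ≤ ·) ∧
      u = pbwMon k[X] G b l} := by rw [hspan]; trivial
    induction hu using Submodule.span_induction with
    | mem x hx =>
      obtain ⟨l', hl', rfl⟩ := hx
      rw [hFmon, hN l' hl', MvPolynomial.coeff_monomial, Finsupp.single_apply]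
      by_cases h : l' = l
      · rw [if_pos (by rw [h]), if_pos h, map_one]
      · rw [if_neg (fun e => h (PBW2_ms_inj l' l hl' hl e)), if_neg h, map_zero]
    | zero => simp
    | add x y _ _ hx hy =>
      rw [map_add, map_add, Finsupp.add_apply, map_add, ← hx, ← hy, MvPolynomial.coeff_add]
    | smul r x _ hx =>
      rw [hρs, map_smul, Finsupp.smul_apply, smul_eq_mul, map_mul, ← hx, MvPolynomial.coeff_C_mul]
  have hscal : ∀ c : k, ρ (algebraMap k[X] _ (Polynomial.C c)) = MvPolynomial.C c := by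
    intro c
    rw [Algebra.algebraMap_eq_smul_one, hρs, map_one, mul_one]
    congr 1
    simp [ev0]
  refine ⟨ρ, ⟨?_, ?_, ?_, ?_, ?_⟩, hρ⟩
  · intro u hu
    have h1 : tX k • N u = 0 := by rw [← map_smul, hu, map_zero]
    have h2 : N u = 0 := by
      ext1 l
      have := congrArg (fun g => g l) h1
      simp only [Finsupp.smul_apply, Finsupp.zero_apply, smul_eq_mul] at this
      rcases mul_eq_zero.mp this with h | h
      · exact absurd h Polynomial.X_ne_zero
      · simpa using h
    rw [← hPN u, h2, map_zero]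
  · intro m
    induction m using MvPolynomial.induction_on with
    | C c => exact ⟨algebraMap k[X] _ (Polynomial.C c), hscal c⟩
    | add p q hp hq =>
      obtain ⟨a, ha⟩ := hp
      obtain ⟨b, hb⟩ := hq
      exact ⟨a + b, by rw [map_add, ha, hb]⟩
    | mul_X p i hp =>
      obtain ⟨a, ha⟩ := hp
      exact ⟨a * UniversalEnvelopingAlgebra.ι k[X] (b i), by rw [map_mul, ha, hρ]⟩
  · intro u hu
    have h1 : ∀ l, (N u l).coeff 0 = 0 := by
      intro l
      by_cases hl : l.Pairwise (· ≤ ·)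
      · have := hcoef u l hl
        rw [hu, MvPolynomial.coeff_zero] at this
        simpa [ev0] using this.symm
      · rw [hsupp u l hl]; simp
    let g : List Λ →₀ k[X] := (N u).mapRange Polynomial.divX (by simp)
    have h2 : N u = tX k • g := by
      ext1 l
      rw [Finsupp.smul_apply, smul_eq_mul, Finsupp.mapRange_apply]
      conv_lhs => rw [← Polynomial.X_mul_divX_add (N u l), h1 l]
      simp
    refine ⟨P g, ?_⟩
    rw [← map_smul, ← h2, hPN]
  · intro u
    rw [hρs, hev, map_zero, zero_mul]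
  · intro c
    rw [hscal, MvPolynomial.algebraMap_eq]

/-- the PBW interface: `U` = enveloping algebra over `k[X]` of `k[X] ⊗ FreeLie(Λ0)` with the bracket
`X [ , ]` -/
theorem exists_pbw (k : Type) [Field k] (Λ0 : Type) :
    ∃ (Λ : Type) (j : Λ0 → Λ) (U : Type) (_ : Ring U) (_ : Algebra k[X] U)
      (ρ : U →+* MvPolynomial Λ k) (l : Λ0 → U),
      Function.Injective j ∧ IsQC k ρ ∧ (∀ i, ρ (l i) = MvPolynomial.X (j i)) ∧
      (∀ B' : Subalgebra k[X] U, (∀ i, l i ∈ B') →
        (∀ a ∈ B', ∀ b ∈ B', ∀ c : U, a * b - b * a = tX k • c → c ∈ B') → B' = ⊤) ∧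
      (∀ (B : Type) [Ring B] [Algebra k[X] B], XReg k B → Gap k 1 B → ∀ g : Λ0 → B,
        ∃ R : U →ₐ[k[X]] B, ∀ i, R (l i) = g i) := by
  obtain ⟨Λ, j, β, hj, hβ⟩ := PBW2_basis k Λ0
  let L := FreeLieAlgebra k Λ0
  let G := PBW2_Sc k[X] (k[X] ⊗[k] L) (tX k)
  let e : (k[X] ⊗[k] L) ≃ₗ[k[X]] G := PBW2_Sc.mk
  let b : Module.Basis Λ k[X] G := (Algebra.TensorProduct.basis k[X] β).map e
  have hb : ∀ i, b i = e (1 ⊗ₜ β i) := by
    intro i
    rw [Module.Basis.map_apply, Algebra.TensorProduct.basis_apply]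
  have hlie : ∀ (s t : k[X]) (x y : L), (⁅e (s ⊗ₜ x), e (t ⊗ₜ y)⁆ : G) =
      tX k • e ((s * t) ⊗ₜ ⁅x, y⁆) := by
    intro s t x y
    rw [← map_smul e]
    rfl
  obtain ⟨ρ, hρ, hρb⟩ := PBW2_qc k Λ G b (fun x y => ⟨e ⁅e.symm x, e.symm y⁆, by
    rw [← map_smul e]
    rfl⟩)
  refine ⟨Λ, j, UniversalEnvelopingAlgebra k[X] G, inferInstance, inferInstance, ρ,
    fun i => UniversalEnvelopingAlgebra.ι k[X] (e (1 ⊗ₜ FreeLieAlgebra.of k i)), hj, hρ, ?_, ?_, ?_⟩
  · intro i
    have := hρb (j i)
    rw [hb, hβ] at this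
    exact this
  · intro B' hl hcl
    let S : LieSubalgebra k L :=
      { carrier := {x | UniversalEnvelopingAlgebra.ι k[X] (e (1 ⊗ₜ x)) ∈ B'}
        zero_mem' := by
          change UniversalEnvelopingAlgebra.ι k[X] (e (1 ⊗ₜ 0)) ∈ B'
          rw [TensorProduct.tmul_zero, map_zero, map_zero]
          exact B'.zero_mem
        add_mem' := by
          intro x y hx hy
          change UniversalEnvelopingAlgebra.ι k[X] (e (1 ⊗ₜ (x + y))) ∈ B'
          rw [TensorProduct.tmul_add, map_add, map_add]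
          exact B'.add_mem hx hy
        smul_mem' := by
          intro c x hx
          change UniversalEnvelopingAlgebra.ι k[X] (e (1 ⊗ₜ (c • x))) ∈ B'
          have h1 : (1 : k[X]) ⊗ₜ[k] (c • x) = (Polynomial.C c : k[X]) • ((1 : k[X]) ⊗ₜ[k] x) := by
            rw [TensorProduct.smul_tmul', smul_eq_mul, mul_one, ← TensorProduct.smul_tmul,
              Polynomial.smul_eq_C_mul, mul_one]
          rw [h1, map_smul, map_smul]
          exact B'.smul_mem hx _
        lie_mem' := by
          intro x y hx hy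
          refine hcl _ hx _ hy _ ?_
          rw [← PBW2_ι_lie, hlie, map_smul, one_mul] }
    have hS : ∀ x : L, UniversalEnvelopingAlgebra.ι k[X] (e (1 ⊗ₜ x)) ∈ B' :=
      fun x => PBW2_free_gen k Λ0 S hl x
    apply PBW2_gen
    intro x
    obtain ⟨t, rfl⟩ := e.surjective x
    induction t using TensorProduct.induction_on with
    | zero => rw [map_zero, map_zero]; exact B'.zero_mem
    | add s t hs ht => rw [map_add, map_add]; exact B'.add_mem hs ht
    | tmul r x =>
      have h1 : r ⊗ₜ[k] x = r • ((1 : k[X]) ⊗ₜ[k] x) := by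
        rw [TensorProduct.smul_tmul', smul_eq_mul, mul_one]
      rw [h1, map_smul, map_smul]
      exact B'.smul_mem (hS x) _
  · intro B _ _ hx hg g
    obtain ⟨φ, hadd, hsm, hbr, hof⟩ := PBW2_univ k Λ0 B hx hg g
    let _ : Module k B := Module.compHom B (Polynomial.C : k →+* k[X])
    have : IsScalarTower k k[X] B := ⟨fun c p d => by
      show (c • p) • d = (Polynomial.C c : k[X]) • p • d
      rw [smul_smul, Polynomial.smul_eq_C_mul]⟩
    let φ' : L →ₗ[k] B :=
      { toFun := φ
        map_add' := hadd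
        map_smul' := hsm }
    let Φ : G →ₗ[k[X]] B := (φ'.liftBaseChange k[X]).comp e.symm.toLinearMap
    have hΦ : ∀ r x, Φ (e (r ⊗ₜ x)) = r • φ x := by
      intro r x
      change φ'.liftBaseChange k[X] (e.symm (e (r ⊗ₜ x))) = _
      rw [e.symm_apply_apply, LinearMap.liftBaseChange_tmul]
      rfl
    obtain ⟨F, hF⟩ := PBW2_lift k[X] G B Φ (by
      intro x y
      obtain ⟨s, rfl⟩ := e.surjective x
      obtain ⟨t, rfl⟩ := e.surjective y
      induction s using TensorProduct.induction_on with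
      | zero => simp
      | add s s' hs hs' =>
        rw [map_add, add_lie, map_add, hs, hs', map_add]
        noncomm_ring
      | tmul r x =>
        induction t using TensorProduct.induction_on with
        | zero => simp
        | add s s' hs hs' =>
          rw [map_add, lie_add, map_add, hs, hs', map_add]
          noncomm_ring
        | tmul r' y =>
          rw [hlie, map_smul, hΦ, hΦ, hΦ, smul_comm, hbr, smul_mul_smul_comm, smul_mul_smul_comm,
            mul_comm r' r, smul_sub])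
    refine ⟨F, fun i => ?_⟩
    rw [hF, hΦ, one_smul, hof]

end C74
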