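import Pool.Agent.MP_35f30a_al.C74.FRE3
import Pool.Agent.MP_35f30a_al.C74.FRE4
import Pool.Agent.MP_35f30a_al.C74.PBW2

/-!
ROW FRE5.  `Rr : U → Op`, `Ψ : 𝔉 → Op`, and `range Ψ` is a ring.  Blueprint section 4.2.

Here `gen` and `univ` are the last two properties of `exists_pbw`; `iN`, `nb` as in `exists_nabla`.
(1) `Rr : U →ₐ Op`, `Rr (l i) = nb (m i)` (`univ` for the algebra `Op` of `exists_opAlg`).
(2) `Rr u (one) = R (op u) one`: the set of `u` with `Rr u one = R (op u) one` is a subalgebra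
   (`Rr (u u') one = Rr u (R (op u') one) = R (op u') (Rr u one) = R (op u') (R (op u) one) = R (op (u u')) one`), contains the
   letters (`nb (m i) one = iN (m i)`), is closed under commutator division (`X` regular); apply `gen`.
(3) `Ψ : F → End`, `Ψ (L d (R (op u) one)) = L d * Rr u` (`FMod.univ` with `E := Op`); `Ψ ξ one = ξ` (uniqueness).
(4) `Ψ ξ * Rr u = Ψ (R (op u) ξ)` (on generators, uniqueness).   `nb n = Ψ (iN n)`: both sides are `k[X]`-linear
   in `n`, satisfy `g (h.L b n) = L b * g n`, agree on `e` (`= 1`) and on `m i`; uniqueness in `NCB.univ`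
   with `E := End` (complete), `LE b q := L b * q`.
(5) SATURATION: if `X • q = Ψ ξ` then `ξ = Ψ ξ one = X • q one`, `Ψ ξ = X • Ψ (q one)`, so `q = Ψ (q one)`.
(6) `W := {q ∈ Op | ∀ ξ, ∃ ζ, q * Ψ ξ = Ψ ζ}` is a subalgebra closed under commutator division in `Op` by (5).  It
   contains `L b` (`L b * Ψ ξ = Ψ (L b ξ)`) and `nb (m i)`: `nb (m i) * L d * Rr u = nb (h.R (op d) (m i)) * Rr u
   = Ψ (iN (h.R (op d) (m i))) * Rr u = Ψ (R (op u) (iN ..))` for generators `ξ`, and for general `ξ`: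
   `nb (m i) * Ψ ξ = Ψ (nb (m i) ξ)` (both sides `k[X]`-linear in `ξ`, agree on generators).  By `gen` applied to
   `{u | Rr u ∈ W}`: all `Rr u ∈ W`.  If `q ∈ W` then `q * Ψ ξ = Ψ (q ξ)` (evaluate at `one`).
(7) `Ψ ξ * Ψ η = Ψ (Ψ ξ η)`: for `ξ = L d (R (op u) one)` by (6); both sides are `k[X]`-linear in `ξ`; uniqueness in
   `FMod.univ` with `E := End`.
-/

set_option autoImplicit false

open scoped TensorProduct Polynomial
open MulOpposite (op)

namespace C74

variable {k : Type} [Field k]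
variable {O : Type} [Ring O] [Algebra k[X] O] {Γ : Type} [Field Γ] [Algebra k Γ]
    {πO : O →+* Γ} {Λ : Type} {U : Type} [Ring U]
    [Algebra k[X] U] {ρ : U →+* MvPolynomial Λ k}

/-- the canonical bilinear map `b, u ↦ L b (R (op u) one)` -/
private noncomputable def FRE5_mu (D : FMod k πO ρ) : O →ₗ[k[X]] U →ₗ[k[X]] D.F :=
  LinearMap.mk₂ k[X] (fun b u => D.L b (D.R (op u) D.one))
    (fun b b' u => by rw [map_add, LinearMap.add_apply])
    (fun r b u => by rw [map_smul, LinearMap.smul_apply])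
    (fun b u u' => by rw [MulOpposite.op_add, map_add, LinearMap.add_apply, map_add])
    (fun r b u => by rw [MulOpposite.op_smul, map_smul, LinearMap.smul_apply, map_smul])

private theorem FRE5_ext (D : FMod k πO ρ) {E : Type} [AddCommGroup E] [Module k[X] E]
    (hE : IsComp k E) (f g : D.F →ₗ[k[X]] E)
    (h : ∀ b u, f (D.L b (D.R (op u) D.one)) = g (D.L b (D.R (op u) D.one))) : f = g :=
  (D.univ E hE ((FRE5_mu D).compr₂ g)).unique (fun b u => h b u) (fun _ _ => rfl)

theorem exists_Psi (hπ : IsQC k πO) (hρ : IsQC k ρ) {N : Type} [AddCommGroup N] [Module k[X] N]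
    {Λ0 : Type} (h : NCB k πO N Λ0) (D : FMod k πO ρ) (l : Λ0 → U)
    (gen : ∀ B' : Subalgebra k[X] U, (∀ i, l i ∈ B') →
        (∀ a ∈ B', ∀ b ∈ B', ∀ c : U, a * b - b * a = tX k • c → c ∈ B') → B' = ⊤)
    (univ : ∀ (B : Type) [Ring B] [Algebra k[X] B], XReg k B → Gap k 1 B → ∀ g : Λ0 → B,
        ∃ R : U →ₐ[k[X]] B, ∀ i, R (l i) = g i)
    (iN : N →ₗ[k[X]] D.F) (nb : N →ₗ[k[X]] Module.End k[X] D.F)
    (h1 : ∀ b n, iN (h.L b n) = D.L b (iN n)) (h2 : iN h.e = D.one)
    (h3 : ∀ i, iN (h.m i) = D.R (op (l i)) D.one)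
    (h4 : ∀ n u, nb n * D.R u = D.R u * nb n) (h5 : ∀ n b, nb n * D.L b = nb (h.R (op b) n))
    (h6 : ∀ b n, D.L b * nb n = nb (h.L b n)) (h7 : nb h.e = 1) (h8 : ∀ n, nb n D.one = iN n)
    (h9 : ∀ n, IsOp D.L D.R (nb n)) :
    ∃ (Rr : U →ₐ[k[X]] Module.End k[X] D.F) (Ψ : D.F →ₗ[k[X]] Module.End k[X] D.F),
      (∀ u, IsOp D.L D.R (Rr u)) ∧ (∀ i, Rr (l i) = nb (h.m i)) ∧
      (∀ ξ, IsOp D.L D.R (Ψ ξ)) ∧ (∀ b u, Ψ (D.L b (D.R (op u) D.one)) = D.L b * Rr u) ∧
      (∀ ξ, Ψ ξ D.one = ξ) ∧ (∀ n, nb n = Ψ (iN n)) ∧ (∀ b ξ, D.L b * Ψ ξ = Ψ (D.L b ξ)) ∧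
      (∀ ξ η, Ψ ξ * Ψ η = Ψ (Ψ ξ η)) := by
  obtain ⟨Op, hmem, hL, -, -, hOpr, hOpc, hOpg⟩ := exists_opAlg hπ hρ D
  have hEr : XReg k (Module.End k[X] D.F) := End_reg D.reg
  have hEc : IsComp k (Module.End k[X] D.F) := End_comp D.reg D.comp
  -- (1)
  obtain ⟨R0, hR0⟩ := univ Op hOpr hOpg (fun i => ⟨nb (h.m i), (hmem _).2 (h9 _)⟩)
  set Rr : U →ₐ[k[X]] Module.End k[X] D.F := Op.val.comp R0 with hRr
  have hRrOp : ∀ u, Rr u ∈ Op := fun u => (R0 u).2
  have hRrl : ∀ i, Rr (l i) = nb (h.m i) := by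
    intro i
    rw [hRr, AlgHom.comp_apply, hR0]
    rfl
  have hRrR : ∀ u v, Rr u * D.R v = D.R v * Rr u := fun u v => ((hmem _).1 (hRrOp u)).1 v
  -- (2)
  have h2' : ∀ u, Rr u D.one = D.R (op u) D.one := by
    let B' : Subalgebra k[X] U :=
      { carrier := {u | Rr u D.one = D.R (op u) D.one}
        mul_mem' := by
          intro a b ha hb
          change Rr (a * b) D.one = D.R (op (a * b)) D.one
          have ha' : Rr a D.one = D.R (op a) D.one := ha
          have hb' : Rr b D.one = D.R (op b) D.one := hb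
          rw [map_mul, Module.End.mul_apply, hb', ← Module.End.mul_apply, hRrR,
            Module.End.mul_apply, ha', MulOpposite.op_mul, map_mul, Module.End.mul_apply]
        add_mem' := by
          intro a b ha hb
          change Rr (a + b) D.one = D.R (op (a + b)) D.one
          have ha' : Rr a D.one = D.R (op a) D.one := ha
          have hb' : Rr b D.one = D.R (op b) D.one := hb
          rw [map_add, LinearMap.add_apply, ha', hb', MulOpposite.op_add, map_add,
            LinearMap.add_apply]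
        algebraMap_mem' := by
          intro r
          change Rr (algebraMap k[X] U r) D.one = D.R (op (algebraMap k[X] U r)) D.one
          rw [AlgHom.commutes, ← MulOpposite.algebraMap_apply, AlgHom.commutes] }
    have hB' : B' = ⊤ := by
      refine gen B' ?_ ?_
      · intro i
        change Rr (l i) D.one = D.R (op (l i)) D.one
        rw [hRrl, h8, h3]
      · intro a ha b hb c hc
        change Rr c D.one = D.R (op c) D.one
        have h10 : a * b - b * a ∈ B' := B'.sub_mem (B'.mul_mem ha hb) (B'.mul_mem hb ha)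
        rw [hc] at h10
        have h11 : Rr (tX k • c) D.one = D.R (op (tX k • c)) D.one := h10
        rw [map_smul, MulOpposite.op_smul, map_smul, LinearMap.smul_apply,
          LinearMap.smul_apply] at h11
        have h12 : tX k • (Rr c D.one - D.R (op c) D.one) = 0 := by
          rw [smul_sub, h11, sub_self]
        exact sub_eq_zero.1 (D.reg _ h12)
    intro u
    have : u ∈ B' := by rw [hB']; exact Algebra.mem_top
    exact this
  -- (3)
  let β0 : O →ₗ[k[X]] U →ₗ[k[X]] Op :=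
    (LinearMap.mul k[X] Op).compl₁₂
      (LinearMap.codRestrict (Subalgebra.toSubmodule Op) D.L.toLinearMap (fun b => hL b))
      R0.toLinearMap
  obtain ⟨Ψ0, hΨ0, -⟩ := D.univ Op hOpc β0
  set Ψ : D.F →ₗ[k[X]] Module.End k[X] D.F := Op.val.toLinearMap.comp Ψ0 with hΨdef
  have hΨOp : ∀ ξ, Ψ ξ ∈ Op := fun ξ => (Ψ0 ξ).2
  have hΨ : ∀ b u, Ψ (D.L b (D.R (op u) D.one)) = D.L b * Rr u := by
    intro b u
    rw [hΨdef, LinearMap.comp_apply, hΨ0]
    rfl
  have hΨ1 : ∀ ξ, Ψ ξ D.one = ξ := by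
    have h10 : (LinearMap.applyₗ D.one).comp Ψ = (LinearMap.id : D.F →ₗ[k[X]] D.F) := by
      refine FRE5_ext D D.comp _ _ fun b u => ?_
      change Ψ (D.L b (D.R (op u) D.one)) D.one = D.L b (D.R (op u) D.one)
      rw [hΨ, Module.End.mul_apply, h2']
    intro ξ
    exact LinearMap.congr_fun h10 ξ
  -- (4)
  have hLΨ : ∀ b ξ, D.L b * Ψ ξ = Ψ (D.L b ξ) := by
    intro b
    have h10 : (LinearMap.mulLeft k[X] (D.L b)).comp Ψ = Ψ.comp (D.L b) := by
      refine FRE5_ext D hEc _ _ fun b' u => ?_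
      change D.L b * Ψ (D.L b' (D.R (op u) D.one)) = Ψ (D.L b (D.L b' (D.R (op u) D.one)))
      rw [← Module.End.mul_apply (D.L b), ← map_mul, hΨ, hΨ, map_mul, mul_assoc]
    intro ξ
    exact LinearMap.congr_fun h10 ξ
  have hΨR : ∀ ξ u, Ψ ξ * Rr u = Ψ (D.R (op u) ξ) := by
    intro ξ u
    have h10 : (LinearMap.mulRight k[X] (Rr u)).comp Ψ = Ψ.comp (D.R (op u)) := by
      refine FRE5_ext D hEc _ _ fun b u' => ?_
      change Ψ (D.L b (D.R (op u') D.one)) * Rr u = Ψ (D.R (op u) (D.L b (D.R (op u') D.one)))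
      rw [← Module.End.mul_apply (D.R (op u)), ← D.comm, Module.End.mul_apply,
        ← Module.End.mul_apply (D.R (op u)), ← map_mul, ← MulOpposite.op_mul, hΨ, hΨ, map_mul,
        mul_assoc]
    exact LinearMap.congr_fun h10 ξ
  have hone : ∀ u, Ψ (D.R (op u) D.one) = Rr u := by
    intro u
    have := hΨ 1 u
    rw [map_one, Module.End.one_apply, one_mul] at this
    exact this
  have hΨone : Ψ D.one = 1 := by
    have := hone 1
    rw [MulOpposite.op_one, map_one, Module.End.one_apply, map_one] at this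
    exact this
  have hnb : ∀ n, nb n = Ψ (iN n) := by
    have h10 := NCB.univ hπ h (Module.End k[X] D.F) hEc
      ((Algebra.lmul k[X] (Module.End k[X] D.F)).comp D.L) 1 (fun i => nb (h.m i))
    have h11 : nb = Ψ.comp iN := by
      refine h10.unique ⟨?_, h7, fun _ => rfl⟩ ⟨?_, ?_, ?_⟩
      · intro b n
        rw [← h6]
        rfl
      · intro b n
        change Ψ (iN (h.L b n)) = D.L b * Ψ (iN n)
        rw [h1, hLΨ]
      · change Ψ (iN h.e) = 1
        rw [h2, hΨone]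
      · intro i
        change Ψ (iN (h.m i)) = nb (h.m i)
        rw [h3, hone, hRrl]
    intro n
    rw [h11]
    rfl
  -- (6)
  have h6' : ∀ u ξ, Rr u * Ψ ξ = Ψ (Rr u ξ) := by
    let B' : Subalgebra k[X] U :=
      { carrier := {u | ∀ ξ, Rr u * Ψ ξ = Ψ (Rr u ξ)}
        mul_mem' := by
          intro a b ha hb
          change ∀ ξ, Rr (a * b) * Ψ ξ = Ψ (Rr (a * b) ξ)
          intro ξ
          have ha' : ∀ ξ, Rr a * Ψ ξ = Ψ (Rr a ξ) := ha
          have hb' : ∀ ξ, Rr b * Ψ ξ = Ψ (Rr b ξ) := hb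
          rw [map_mul, mul_assoc, hb', ha', Module.End.mul_apply]
        add_mem' := by
          intro a b ha hb
          change ∀ ξ, Rr (a + b) * Ψ ξ = Ψ (Rr (a + b) ξ)
          intro ξ
          have ha' : ∀ ξ, Rr a * Ψ ξ = Ψ (Rr a ξ) := ha
          have hb' : ∀ ξ, Rr b * Ψ ξ = Ψ (Rr b ξ) := hb
          rw [map_add, add_mul, ha', hb', LinearMap.add_apply, map_add]
        algebraMap_mem' := by
          intro r
          change ∀ ξ, Rr (algebraMap k[X] U r) * Ψ ξ = Ψ (Rr (algebraMap k[X] U r) ξ)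
          intro ξ
          rw [AlgHom.commutes, Module.algebraMap_end_apply, map_smul, ← Algebra.smul_def] }
    have hB' : B' = ⊤ := by
      refine gen B' ?_ ?_
      · intro i
        change ∀ ξ, Rr (l i) * Ψ ξ = Ψ (Rr (l i) ξ)
        rw [hRrl]
        have h10 : (LinearMap.mulLeft k[X] (nb (h.m i))).comp Ψ = Ψ.comp (nb (h.m i)) := by
          refine FRE5_ext D hEc _ _ fun d u => ?_
          change nb (h.m i) * Ψ (D.L d (D.R (op u) D.one)) =
            Ψ (nb (h.m i) (D.L d (D.R (op u) D.one)))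
          rw [hΨ, ← mul_assoc, h5, hnb, hΨR, ← Module.End.mul_apply (nb (h.m i)), h5,
            ← Module.End.mul_apply (nb _), h4, Module.End.mul_apply, h8]
        intro ξ
        exact LinearMap.congr_fun h10 ξ
      · intro a ha b hb c hc
        change ∀ ξ, Rr c * Ψ ξ = Ψ (Rr c ξ)
        intro ξ
        have h10 : a * b - b * a ∈ B' := B'.sub_mem (B'.mul_mem ha hb) (B'.mul_mem hb ha)
        rw [hc] at h10
        have h11 : Rr (tX k • c) * Ψ ξ = Ψ (Rr (tX k • c) ξ) := h10 ξ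
        rw [map_smul, LinearMap.smul_apply, map_smul, smul_mul_assoc] at h11
        have h12 : tX k • (Rr c * Ψ ξ - Ψ (Rr c ξ)) = 0 := by
          rw [smul_sub, h11, sub_self]
        exact sub_eq_zero.1 (hEr _ h12)
    intro u
    have : u ∈ B' := by rw [hB']; exact Algebra.mem_top
    exact this
  refine ⟨Rr, Ψ, fun u => (hmem _).1 (hRrOp u), hRrl, fun ξ => (hmem _).1 (hΨOp ξ), hΨ, hΨ1,
    hnb, hLΨ, ?_⟩
  -- (7)
  intro ξ η
  have h10 : (LinearMap.mulRight k[X] (Ψ η)).comp Ψ =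
      Ψ.comp ((LinearMap.applyₗ η).comp Ψ) := by
    refine FRE5_ext D hEc _ _ fun b u => ?_
    change Ψ (D.L b (D.R (op u) D.one)) * Ψ η = Ψ (Ψ (D.L b (D.R (op u) D.one)) η)
    rw [hΨ, mul_assoc, h6', hLΨ, Module.End.mul_apply]
  exact LinearMap.congr_fun h10 ξ

end C74
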