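import Pool.Agent.MP_35f30a_al.C74.FRE5
import Pool.Agent.MP_35f30a_al.C74.FRE1

/-!
ROW FRE6.  The free QC extension.  Blueprint section 4.2.

Data: `exists_pbw k Λ0`, `exists_fmod`, `exists_nabla`, `exists_Psi`.  Put on (a copy `Q` of) `D.F` the multiplication
`ξ * η := Ψ ξ η` (associative by `Ψ ξ * Ψ η = Ψ (Ψ ξ η)`, unit `one`: `Ψ one = 1`), a `k[X]`-algebra.  (Or take
`Q := ` the subalgebra `range Ψ` of `End F`; `ξ ↦ Ψ ξ` is a linear bijection onto it.)
`πQ := D.p` (multiplicative by `exists_opAlg` (c): `p (Ψ ξ η) = p (Ψ ξ one) p η = p ξ p η`), `cO b := L b one`, `cN := iN`.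
`cO b * η = L b η`: `Ψ (L b one) = L b * Ψ one = L b`.  `cN (h.L b n) = L b (iN n) = cO b * cN n`;
`cN (h.R (op b) n) = nb (h.R (op b) n) one = nb n (L b one) = Ψ (iN n) (cO b) = cN n * cO b`.
`πQ (cN (m i)) = p (R (op (l i)) one) = map (ρ (l i)) = X (j i)`.
UNIVERSAL PROPERTY.  `B, f, g` given; `RB : U →ₐ B`, `RB (l i) = g (m i)`; `E : F → B` the `k[X]`-linear map with
`E (L d (R (op u) one)) = f d * RB u` (`FMod.univ`).
(1) `E (R (op u) ξ) = E ξ * RB u` (uniqueness); `E (L b ξ) = f b * E ξ`; `E (iN n) = g n` (uniqueness in `NCB.univ` with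
   `LE b x := f b * x`: `E (iN e) = 1 = g e`, `E (iN (m i)) = RB (l i) = g (m i)`).
(2) `E (nb n ξ) = g n * E ξ`: on `ξ = L d (R (op u) one)`: `E (R (op u) (iN (h.R (op d) n))) = g (h.R (op d) n) * RB u
   = g n * f d * RB u`.
(3) `V := {u | ∃ β, ∀ ξ, E (Rr u ξ) = β * E ξ}` is a subalgebra of `U` containing the letters, closed under commutator
   division (`[β1, β2] = X β3` by `Gap k 1 B`, `XReg k B`); so `V = U`; `β = E (Rr u one) = RB u`.
(4) `E (Ψ ξ η) = E ξ * E η`: for `ξ = L d (R (op u) one)` by (1), (3); linear in `ξ`; uniqueness.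
-/

set_option autoImplicit false

open scoped TensorProduct Polynomial
open MulOpposite (op)

namespace C74

variable {k : Type} [Field k]

section fre6
variable {O : Type} [Ring O] [Algebra k[X] O] {Γ : Type} [Field Γ] [Algebra k Γ]
    {πO : O →+* Γ} {Λ : Type} {U : Type} [Ring U]
    [Algebra k[X] U] {ρ : U →+* MvPolynomial Λ k}

theorem FRE6_ext (D : FMod k πO ρ) {E : Type} [AddCommGroup E] [Module k[X] E]
    (hE : IsComp k E) (g g' : D.F →ₗ[k[X]] E)
    (H : ∀ b u, g (D.L b (D.R (op u) D.one)) = g' (D.L b (D.R (op u) D.one))) : g = g' := by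
  let β : O →ₗ[k[X]] U →ₗ[k[X]] E := LinearMap.mk₂ k[X]
    (fun b u => g' (D.L b (D.R (op u) D.one)))
    (fun b b' u => by simp [map_add])
    (fun c b u => by simp)
    (fun b u u' => by simp [MulOpposite.op_add, map_add])
    (fun c b u => by simp [MulOpposite.op_smul])
  obtain ⟨h0, -, hu⟩ := D.univ E hE β
  have e1 : g = h0 := hu g (fun b u => H b u)
  have e2 : g' = h0 := hu g' (fun b u => rfl)
  rw [e1, e2]

end fre6

/-- FREE -/
theorem exists_free {O : Type} [Ring O] [Algebra k[X] O] {Γ : Type} [Field Γ]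
    [Algebra k Γ] {πO : O →+* Γ} (hπ : IsQC k πO) (hc : IsComp k O)
    (N : Type) [AddCommGroup N] [Module k[X] N] (Λ0 : Type) (h : NCB k πO N Λ0) :
    ∃ (Λ : Type) (j : Λ0 → Λ) (Q : Type) (_ : Ring Q) (_ : Algebra k[X] Q)
      (πQ : Q →+* MvPolynomial Λ Γ) (cO : O →ₐ[k[X]] Q) (cN : N →ₗ[k[X]] Q),
      Function.Injective j ∧ IsQC k πQ ∧ IsComp k Q ∧ (∀ a, πQ (cO a) = MvPolynomial.C (πO a)) ∧
      (∀ b n, cN (h.L b n) = cO b * cN n) ∧ (∀ b n, cN (h.R (op b) n) = cN n * cO b) ∧
      cN h.e = 1 ∧ (∀ i, πQ (cN (h.m i)) = MvPolynomial.X (j i)) ∧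
      (∀ (B : Type) [Ring B] [Algebra k[X] B], XReg k B → IsComp k B → Gap k 1 B →
        ∀ (f : O →ₐ[k[X]] B) (g : N →ₗ[k[X]] B), (∀ b n, g (h.L b n) = f b * g n) →
          (∀ b n, g (h.R (op b) n) = g n * f b) → g h.e = 1 →
          ∃ F : Q →ₐ[k[X]] B, (∀ a, F (cO a) = f a) ∧ (∀ n, F (cN n) = g n)) := by
  obtain ⟨Λ, j, U, _, _, ρ, l, hj, hρ, hρl, gen, univ⟩ := exists_pbw k Λ0
  obtain ⟨D⟩ := exists_fmod hπ hc hρ
  obtain ⟨iN, nb, h1, h2, h3, h4, h5, h6, h7, h8, h9⟩ := exists_nabla hπ h D l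
  obtain ⟨Rr, Ψ, p1, p2, p3, p4, p5, p6, p7, p8⟩ :=
    exists_Psi hπ hρ h D l gen univ iN nb h1 h2 h3 h4 h5 h6 h7 h8 h9
  obtain ⟨Op, o1, o2, o3, -, -, -, -⟩ := exists_opAlg hπ hρ D
  have hΨ1 : Ψ D.one = 1 := by rw [← h2, ← p6, h7]
  have hL : ∀ b, D.L b = Ψ (D.L b D.one) := fun b => by
    rw [← p7, hΨ1, mul_one]
  let S : Subalgebra k[X] (Module.End k[X] D.F) :=
    { carrier := Set.range Ψ
      mul_mem' := by
        rintro _ _ ⟨a, rfl⟩ ⟨b, rfl⟩
        exact ⟨_, (p8 a b).symm⟩
      add_mem' := by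
        rintro _ _ ⟨a, rfl⟩ ⟨b, rfl⟩
        exact ⟨a + b, map_add _ _ _⟩
      algebraMap_mem' := fun r => ⟨r • D.one, by
        rw [map_smul, hΨ1, Algebra.algebraMap_eq_smul_one]⟩ }
  have hS : ∀ q : S, (q : Module.End k[X] D.F) = Ψ ((q : Module.End k[X] D.F) D.one) := by
    rintro ⟨_, ξ, rfl⟩
    simp only [p5]
  let mkS : D.F → S := fun ξ => ⟨Ψ ξ, ξ, rfl⟩
  have mkS_one : ∀ ξ, (mkS ξ : Module.End k[X] D.F) D.one = ξ := fun ξ => p5 ξ
  have extS : ∀ q q' : S, (q : Module.End k[X] D.F) D.one = (q' : Module.End k[X] D.F) D.one →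
      q = q' := by
    intro q q' hq
    apply Subtype.ext
    rw [hS q, hS q', hq]
  have hop : ∀ q : S, (q : Module.End k[X] D.F) ∈ Op := by
    intro q
    rw [hS q, o1]
    exact p3 _
  let πQ : S →+* MvPolynomial Λ Γ :=
    { toFun := fun q => D.p ((q : Module.End k[X] D.F) D.one)
      map_one' := D.pone
      map_mul' := fun q q' => o3 _ (hop q) _
      map_zero' := by simp
      map_add' := fun q q' => by simp [map_add] }
  have hπQ : ∀ q : S, πQ q = D.p ((q : Module.End k[X] D.F) D.one) := fun _ => rfl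
  have hsm : ∀ (r : k[X]) (q : S), ((r • q : S) : Module.End k[X] D.F) D.one =
      r • (q : Module.End k[X] D.F) D.one := fun _ _ => rfl
  let cO : O →ₐ[k[X]] S := D.L.codRestrict S (fun b => ⟨_, (hL b).symm⟩)
  have hcO : ∀ b, ((cO b : S) : Module.End k[X] D.F) = D.L b := fun _ => rfl
  let cN : N →ₗ[k[X]] S :=
    { toFun := fun n => ⟨nb n, iN n, (p6 n).symm⟩
      map_add' := fun n n' => Subtype.ext (map_add nb n n')
      map_smul' := fun r n => Subtype.ext (map_smul nb r n) }
  have hcN : ∀ n, ((cN n : S) : Module.End k[X] D.F) = nb n := fun _ => rfl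
  refine ⟨Λ, j, S, inferInstance, inferInstance, πQ, cO, cN, hj, ?_, ?_, ?_, ?_, ?_, ?_, ?_, ?_⟩
  · -- QC
    refine ⟨?_, ?_, ?_, ?_, ?_⟩
    · intro q hq
      apply extS
      have := congrArg (fun q : S => (q : Module.End k[X] D.F) D.one) hq
      exact D.reg _ this
    · intro x
      obtain ⟨ξ, rfl⟩ := D.psurj x
      exact ⟨mkS ξ, by rw [hπQ, mkS_one]⟩
    · intro q hq
      obtain ⟨y, hy⟩ := D.pker _ hq
      exact ⟨mkS y, extS _ _ (by rw [hy, hsm, mkS_one])⟩
    · intro q
      rw [hπQ, hsm]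
      exact D.pX _
    · intro c
      have e1 : ((algebraMap k[X] S (Polynomial.C c) : S) : Module.End k[X] D.F) D.one =
          D.L (algebraMap k[X] O (Polynomial.C c)) D.one := by
        rw [AlgHom.commutes]
        rfl
      rw [hπQ, e1, D.pL, hπ.scal, D.pone, mul_one]
      rfl
  · -- complete
    refine ⟨?_, ?_⟩
    · intro q hq
      apply extS
      apply D.comp.sep
      intro n
      obtain ⟨b, hb⟩ := hq n
      exact ⟨(b : Module.End k[X] D.F) D.one, by rw [hb, hsm]⟩
    · intro u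
      obtain ⟨m, hm⟩ := D.comp.lim (fun i => (u i : Module.End k[X] D.F) D.one)
      refine ⟨mkS m, fun n => ?_⟩
      obtain ⟨b, hb⟩ := hm n
      refine ⟨mkS b, Subtype.ext ?_⟩
      show Ψ m = _
      rw [hb, map_add, map_sum, map_smul]
      simp only [map_smul, ← hS]
      push_cast
      rfl
  · intro a
    rw [hπQ, hcO, D.pL, D.pone, mul_one]
  · intro b n
    apply Subtype.ext
    show nb (h.L b n) = D.L b * nb n
    rw [h6]
  · intro b n
    apply Subtype.ext
    show nb (h.R (op b) n) = nb n * D.L b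
    rw [h5]
  · apply Subtype.ext
    show nb h.e = 1
    exact h7
  · intro i
    rw [hπQ, hcN, h8, h3, D.pR, D.pone, one_mul, hρl, MvPolynomial.map_X]
  · -- universal property
    intro B _ _ hBr hBc hBg f g hg1 hg2 hg3
    obtain ⟨RB, hRB⟩ := univ B hBr hBg (fun i => g (h.m i))
    obtain ⟨E, hE, -⟩ := D.univ B hBc
      ((LinearMap.mul k[X] B).compl₁₂ f.toLinearMap RB.toLinearMap)
    have hE' : ∀ b u, E (D.L b (D.R (op u) D.one)) = f b * RB u := fun b u => hE b u
    have hER : ∀ u ξ, E (D.R (op u) ξ) = E ξ * RB u := by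
      intro u ξ
      have : E ∘ₗ (D.R (op u)) = (LinearMap.mulRight k[X] (RB u)) ∘ₗ E := by
        apply FRE6_ext D hBc
        intro b v
        show E (D.R (op u) (D.L b (D.R (op v) D.one))) = E (D.L b (D.R (op v) D.one)) * RB u
        have e1 : D.R (op u) (D.L b (D.R (op v) D.one)) = D.L b (D.R (op (v * u)) D.one) := by
          rw [MulOpposite.op_mul, map_mul]
          have := LinearMap.congr_fun (D.comm b (op u)) (D.R (op v) D.one)
          exact this.symm
        rw [e1, hE', hE', map_mul, mul_assoc]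
      exact LinearMap.congr_fun this ξ
    have hEL : ∀ b ξ, E (D.L b ξ) = f b * E ξ := by
      intro b ξ
      have : E ∘ₗ (D.L b) = (LinearMap.mulLeft k[X] (f b)) ∘ₗ E := by
        apply FRE6_ext D hBc
        intro d v
        show E (D.L b (D.L d (D.R (op v) D.one))) = f b * E (D.L d (D.R (op v) D.one))
        have e1 : D.L b (D.L d (D.R (op v) D.one)) = D.L (b * d) (D.R (op v) D.one) := by
          rw [map_mul]
          rfl
        rw [e1, hE', hE', map_mul, mul_assoc]
      exact LinearMap.congr_fun this ξ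
    have hE1 : E D.one = 1 := by
      have := hE' 1 1
      rw [MulOpposite.op_one, map_one, map_one, map_one, map_one, mul_one] at this
      exact this
    have hEN : ∀ n, E (iN n) = g n := by
      intro n
      obtain ⟨g0, -, hu⟩ := h.univ hπ B hBc ((Algebra.lmul k[X] B).comp f) 1
        (fun i => g (h.m i))
      have e1 : g = g0 := hu g ⟨hg1, hg3, fun i => rfl⟩
      have e2 : E ∘ₗ iN = g0 := hu _ ⟨fun b n => by
          show E (iN (h.L b n)) = f b * E (iN n)
          rw [h1, hEL], by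
          show E (iN h.e) = 1
          rw [h2, hE1], fun i => by
          show E (iN (h.m i)) = g (h.m i)
          rw [h3, hER, hE1, one_mul, hRB]⟩
      rw [e1, ← e2]
      rfl
    have hEnb : ∀ n ξ, E (nb n ξ) = g n * E ξ := by
      intro n ξ
      have : E ∘ₗ (nb n) = (LinearMap.mulLeft k[X] (g n)) ∘ₗ E := by
        apply FRE6_ext D hBc
        intro d u
        show E (nb n (D.L d (D.R (op u) D.one))) = g n * E (D.L d (D.R (op u) D.one))
        have e1 : nb n (D.L d (D.R (op u) D.one)) = D.R (op u) (iN (h.R (op d) n)) := by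
          have a1 := LinearMap.congr_fun (h5 n d) (D.R (op u) D.one)
          have a2 := LinearMap.congr_fun (h4 (h.R (op d) n) (op u)) D.one
          rw [← h8]
          exact a1.trans a2
        rw [e1, hER, hEN, hg2, hE', mul_assoc]
      exact LinearMap.congr_fun this ξ
    have hV : ∀ u, ∃ β : B, ∀ ξ, E (Rr u ξ) = β * E ξ := by
      let V : Subalgebra k[X] U :=
        { carrier := {u | ∃ β : B, ∀ ξ, E (Rr u ξ) = β * E ξ}
          mul_mem' := by
            rintro a b ⟨β, hβ⟩ ⟨β', hβ'⟩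
            refine ⟨β * β', fun ξ => ?_⟩
            rw [map_mul, mul_assoc, ← hβ', ← hβ]
            rfl
          add_mem' := by
            rintro a b ⟨β, hβ⟩ ⟨β', hβ'⟩
            refine ⟨β + β', fun ξ => ?_⟩
            rw [map_add, add_mul, ← hβ', ← hβ, LinearMap.add_apply, map_add]
          algebraMap_mem' := fun r => ⟨algebraMap k[X] B r, fun ξ => by
            rw [AlgHom.commutes, Module.algebraMap_end_apply, map_smul, Algebra.smul_def]⟩ }
      have hVtop : V = ⊤ := by
        apply gen V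
        · intro i
          exact ⟨g (h.m i), fun ξ => by rw [p2, hEnb]⟩
        · rintro a ⟨β, hβ⟩ b ⟨β', hβ'⟩ c hc'
          obtain ⟨β3, hβ3⟩ := hBg β β'
          refine ⟨β3, fun ξ => ?_⟩
          have e1 : E (Rr (a * b - b * a) ξ) = (β * β' - β' * β) * E ξ := by
            rw [map_sub, map_mul, map_mul, sub_mul, mul_assoc, mul_assoc, ← hβ', ← hβ, ← hβ,
              ← hβ', ← map_sub]
            rfl
          rw [hc', hβ3, pow_one, map_smul, LinearMap.smul_apply, map_smul,
            smul_mul_assoc] at e1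
          have e2 : tX k • (E (Rr c ξ) - β3 * E ξ) = 0 := by
            rw [smul_sub, e1, sub_self]
          exact sub_eq_zero.1 (hBr _ e2)
      intro u
      have : u ∈ V := by rw [hVtop]; trivial
      exact this
    have hRr1 : ∀ u, Rr u D.one = D.R (op u) D.one := by
      intro u
      have := p4 1 u
      rw [map_one, one_mul, Module.End.one_apply] at this
      rw [← this, p5]
    have hRrE : ∀ u ξ, E (Rr u ξ) = RB u * E ξ := by
      intro u ξ
      obtain ⟨β, hβ⟩ := hV u
      have := hβ D.one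
      rw [hRr1, hER, hE1, one_mul, mul_one] at this
      rw [hβ, this]
    have hΨE : ∀ ξ η, E (Ψ ξ η) = E ξ * E η := by
      intro ξ η
      have : E ∘ₗ (LinearMap.applyₗ η) ∘ₗ Ψ = (LinearMap.mulRight k[X] (E η)) ∘ₗ E := by
        apply FRE6_ext D hBc
        intro d u
        show E (Ψ (D.L d (D.R (op u) D.one)) η) = E (D.L d (D.R (op u) D.one)) * E η
        rw [p4, Module.End.mul_apply, hEL, hRrE, hE', mul_assoc]
      exact LinearMap.congr_fun this ξ
    let F : S →ₐ[k[X]] B := AlgHom.ofLinearMap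
      { toFun := fun q => E ((q : Module.End k[X] D.F) D.one)
        map_add' := fun q q' => by simp [map_add]
        map_smul' := fun r q => by
          rw [hsm, map_smul]
          rfl } hE1 (fun q q' => by
        show E ((q : Module.End k[X] D.F) ((q' : Module.End k[X] D.F) D.one)) =
          E ((q : Module.End k[X] D.F) D.one) * E ((q' : Module.End k[X] D.F) D.one)
        conv_lhs => rw [hS q]
        rw [hΨE])
    refine ⟨F, fun a => ?_, fun n => ?_⟩
    · show E (D.L a D.one) = f a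
      rw [hEL, hE1, mul_one]
    · show E (nb n D.one) = g n
      rw [h8, hEN]

end C74
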