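import Pool.Agent.MP_35f30a_al.C74.FN3
import Pool.Agent.MP_35f30a_al.C74.FN4

/-!
End of the proof (assembled, no row).
-/

set_option autoImplicit false

namespace C74

theorem main_span (k : Type) [Field k] (V : Type)
    (f : FreeAlgebra k V) (hf : f ∉ Set.range (algebraMap k (FreeAlgebra k V))) :
    TwoSidedIdeal.span ({f} : Set (FreeAlgebra k V)) ≠ ⊤ :=
  span_ne_top k V f (red_closure
    (fun K _ _ V f hf => red_letters K (fun V0 _ f hf n u v => main_finite K V0 f hf n u v) V f hf)
    k V f hf)

end C74
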