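import Pool.Agent.MP_35f30a_al.C74.FRD

/-!
ROW GEN1.  The bimodule `N = O × P` of GEN.  Blueprint section 5.

`L b (a, C) = (b a, l b * C)`, `R (op b) (a, C) = (a b, r (op b) * C)`, `e = (1, 0)`, `m α = (0, lift of Y^α)`.
`nc`: `(b a - a b, (l b - r (op b)) C)`, both divisible by `X` (residues agree).
`gen`/`ind`: `N/X = Γ ⊕ MvPolynomial B Γ`, with `Γ`-basis `(1,0), (0, Y^α)`.
-/

set_option autoImplicit false

open scoped TensorProduct Polynomial
open MulOpposite (op)

namespace C74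

variable {k : Type} [Field k]

/-- left action on `O × P` -/
noncomputable def GEN1_L {O : Type} [Ring O] [Algebra k[X] O] {P : Type} [Ring P] [Algebra k[X] P]
    (l : O →ₐ[k[X]] P) : O →ₐ[k[X]] Module.End k[X] (O × P) :=
  AlgHom.ofLinearMap
    { toFun := fun b => LinearMap.prodMap (LinearMap.mulLeft k[X] b) (LinearMap.mulLeft k[X] (l b))
      map_add' := fun a b => by ext <;> simp [add_mul]
      map_smul' := fun a b => by ext <;> simp }
    (by ext <;> simp) (fun a b => by ext <;> simp)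

lemma GEN1_L_apply {O : Type} [Ring O] [Algebra k[X] O] {P : Type} [Ring P] [Algebra k[X] P]
    (l : O →ₐ[k[X]] P) (b : O) (x : O × P) : GEN1_L l b x = (b * x.1, l b * x.2) := rfl

/-- right action on `O × P` -/
noncomputable def GEN1_R {O : Type} [Ring O] [Algebra k[X] O] {P : Type} [Ring P] [Algebra k[X] P]
    (r : Oᵐᵒᵖ →ₐ[k[X]] P) : Oᵐᵒᵖ →ₐ[k[X]] Module.End k[X] (O × P) :=
  AlgHom.ofLinearMap
    { toFun := fun b => LinearMap.prodMap (LinearMap.mulRight k[X] (MulOpposite.unop b))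
        (LinearMap.mulLeft k[X] (r b))
      map_add' := fun a b => by ext <;> simp [add_mul, mul_add]
      map_smul' := fun a b => by ext <;> simp }
    (by ext <;> simp) (fun a b => by ext <;> simp)

lemma GEN1_R_apply {O : Type} [Ring O] [Algebra k[X] O] {P : Type} [Ring P] [Algebra k[X] P]
    (r : Oᵐᵒᵖ →ₐ[k[X]] P) (b : O) (x : O × P) : GEN1_R r (op b) x = (x.1 * b, r (op b) * x.2) := rfl

theorem exists_genN {O : Type} [Ring O] [Algebra k[X] O] {Γ : Type} [Field Γ] [Algebra k Γ]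
    {πO : O →+* Γ} (hO : IsQC k πO) (hcO : IsComp k O) {B : Type} {P : Type} [Ring P]
    [Algebra k[X] P] {πP : P →+* MvPolynomial B Γ} (hP : IsQC k πP) (hcP : IsComp k P)
    (l : O →ₐ[k[X]] P) (r : Oᵐᵒᵖ →ₐ[k[X]] P) (hlr : ∀ a b, l a * r b = r b * l a)
    (hl : ∀ a, πP (l a) = MvPolynomial.C (πO a))
    (hr : ∀ a, πP (r (op a)) = MvPolynomial.C (πO a)) :
    ∃ h : NCB k πO (O × P) (B →₀ ℕ),
      (∀ b x, h.L b x = (b * x.1, l b * x.2)) ∧
      (∀ b x, h.R (op b) x = (x.1 * b, r (op b) * x.2)) ∧ h.e = (1, 0) ∧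
      ∀ α, (h.m α).1 = 0 ∧ πP (h.m α).2 = MvPolynomial.monomial α 1 := by
  classical
  choose M hM using fun α : B →₀ ℕ => hP.surj (MvPolynomial.monomial α 1)
  obtain ⟨σ, hσ, hσ0⟩ : ∃ σ : Γ → O, (∀ g, πO (σ g) = g) ∧ σ 0 = 0 := by
    choose σ hσ using hO.surj
    refine ⟨fun g => if g = 0 then 0 else σ g, fun g => ?_, by simp⟩
    by_cases hg : g = 0
    · simp [hg]
    · simp [hg, hσ]
  have hsum : ∀ a : (B →₀ ℕ) →₀ O, a.sum (fun i c => GEN1_L l c ((0, M i) : O × P)) =
      (0, a.sum fun i c => l c * M i) := by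
    intro a
    rw [Finsupp.sum, Finsupp.sum]
    ext
    · rw [Prod.fst_sum]
      simp [GEN1_L_apply]
    · rw [Prod.snd_sum]
      simp [GEN1_L_apply]
  have hπsum : ∀ a : (B →₀ ℕ) →₀ O, πP (a.sum fun i c => l c * M i) =
      ∑ i ∈ a.support, MvPolynomial.monomial i (πO (a i)) := by
    intro a
    rw [Finsupp.sum, map_sum]
    refine Finset.sum_congr rfl fun i _ => ?_
    rw [map_mul, hl, hM, MvPolynomial.C_mul_monomial, mul_one]
  refine ⟨{ L := GEN1_L l, R := GEN1_R r, comm := ?_, e := (1, 0), m := fun α => (0, M α), reg := ?_, comp := ?_,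
            he := ?_, nc := ?_, gen := ?_, ind := ?_ }, fun b x => rfl, fun b x => rfl, rfl,
            fun α => ⟨rfl, hM α⟩⟩
  · intro a b
    induction b using MulOpposite.rec' with
    | _ b =>
      apply LinearMap.ext
      intro x
      change GEN1_L l a (GEN1_R r (op b) x) = GEN1_R r (op b) (GEN1_L l a x)
      rw [GEN1_L_apply, GEN1_R_apply, GEN1_L_apply, GEN1_R_apply]
      simp only [← mul_assoc, hlr]
  · intro x hx
    exact Prod.ext (hO.reg _ (congrArg Prod.fst hx)) (hP.reg _ (congrArg Prod.snd hx))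
  · refine ⟨fun x hx => ?_, fun u => ?_⟩
    · refine Prod.ext (hcO.sep _ fun n => ?_) (hcP.sep _ fun n => ?_)
      · obtain ⟨b, hb⟩ := hx n
        exact ⟨b.1, congrArg Prod.fst hb⟩
      · obtain ⟨b, hb⟩ := hx n
        exact ⟨b.2, congrArg Prod.snd hb⟩
    · obtain ⟨m1, h1⟩ := hcO.lim fun n => (u n).1
      obtain ⟨m2, h2⟩ := hcP.lim fun n => (u n).2
      refine ⟨(m1, m2), fun n => ?_⟩
      obtain ⟨b1, hb1⟩ := h1 n
      obtain ⟨b2, hb2⟩ := h2 n
      refine ⟨(b1, b2), Prod.ext ?_ ?_⟩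
      · rw [Prod.fst_add, Prod.fst_sum]; exact hb1
      · rw [Prod.snd_add, Prod.snd_sum]; exact hb2
  · intro b
    rw [GEN1_L_apply, GEN1_R_apply]
    simp
  · intro b n
    obtain ⟨n1, hn1⟩ := hO.ker (b * n.1 - n.1 * b) (by rw [map_sub, map_mul, map_mul, mul_comm, sub_self])
    obtain ⟨n2, hn2⟩ := hP.ker (l b * n.2 - r (op b) * n.2)
      (by rw [map_sub, map_mul, map_mul, hl, hr, sub_self])
    refine ⟨(n1, n2), ?_⟩
    rw [GEN1_L_apply, GEN1_R_apply]
    exact Prod.ext hn1 hn2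
  · intro n
    set a : (B →₀ ℕ) →₀ O := Finsupp.onFinset (πP n.2).support
      (fun α => σ ((πP n.2).coeff α)) (fun α h => by
        rw [MvPolynomial.mem_support_iff]
        intro h0
        rw [h0] at h
        exact h hσ0) with ha
    obtain ⟨n2, hn2⟩ := hP.ker (n.2 - a.sum fun i c => l c * M i) (by
      rw [map_sub, hπsum, sub_eq_zero]
      have hai : ∀ i, πO (a i) = (πP n.2).coeff i := fun i => by
        rw [ha, Finsupp.onFinset_apply, hσ]
      have hsub : a.support ⊆ (πP n.2).support := Finsupp.support_onFinset_subset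
      simp only [hai]
      rw [Finset.sum_subset hsub (fun x _ hx => by
        rw [← hai, Finsupp.notMem_support_iff.1 hx, map_zero, MvPolynomial.monomial_zero])]
      exact MvPolynomial.as_sum (πP n.2))
    refine ⟨n.1, a, (0, n2), ?_⟩
    rw [hsum, GEN1_L_apply]
    refine Prod.ext ?_ ?_
    · simp
    · simp only [mul_zero, Prod.snd_add, zero_add, Prod.smul_snd]
      rw [← hn2]; abel
  · intro a0 a n' h
    rw [hsum, GEN1_L_apply] at h
    have h1 : a0 = tX k • n'.1 := by simpa using congrArg Prod.fst h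
    have h2 : (a.sum fun i c => l c * M i) = tX k • n'.2 := by simpa using congrArg Prod.snd h
    refine ⟨by rw [h1, hO.kerX], fun i => ?_⟩
    have h3 := congrArg (fun q => MvPolynomial.coeff i (πP q)) h2
    simp only [hπsum, hP.kerX, MvPolynomial.coeff_zero, MvPolynomial.coeff_sum,
      MvPolynomial.coeff_monomial, Finset.sum_ite_eq', Finsupp.mem_support_iff] at h3
    by_cases hi : a i = 0
    · rw [hi, map_zero]
    · rwa [if_pos hi] at h3

end C74
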