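import Pool.Agent.MP_35f30a_al.C74.Ord

/-!
Definitions (no row): functoriality of `k[X]`-tensors, the specialisation property.
-/

set_option autoImplicit false

open scoped TensorProduct Polynomial

namespace C74

/-- functoriality of the `k[X]`-tensors for ring homs of scale `M` -/
noncomputable def mapX {k : Type} [Field k] {A Q : Type} [Ring A] [Algebra k[X] A] [Ring Q]
    [Algebra k[X] Q] {M : ℕ} (f : A →+* Q) (hf : IsScale k M f) (n : ℕ) :
    TP k[X] A n →ₛₗ[sig k M] TP k[X] Q n := TP.map (sig k M) f hf n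

/-- the specialisation property of a field extension `i : Γ → K'` -/
def SpecX {Γ K' : Type} [Field Γ] [Field K'] (i : Γ →+* K') : Prop :=
  ∀ Z : Finset K', ∃ (W : Subring K') (s : W →+* Γ) (hi : ∀ γ, i γ ∈ W),
    (∀ z ∈ Z, z ∈ W) ∧ ∀ γ, s ⟨i γ, hi γ⟩ = γ

end C74
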