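import Pool.Agent.MP_35f30a_al.C74.Ord

/-!
ROW RES1.  `T_n(A)/X = T_n(S)`.  Blueprint section 0.

`resT_surj`: induction, `T_{n+1}(S)` is spanned by `cons s t` with `s = π a`, `t = resT t'`.
`resT_ker`: by induction on `n` construct an additive map `q_n : T_n(S) → T_n(A) ⧸ X T_n(A)` with
`q_n (resT T) = [T]`: for `n = 0` from `IsQC.ker`; for `n+1` use `TP.lift` over `k` with
`(π a, resT t) ↦ [cons a t]` (well defined: changing `a` by `X b` or `t` by `X t'` changes `cons a t` by a
multiple of `X`).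
-/

set_option autoImplicit false

open scoped TensorProduct Polynomial

namespace C74

variable {k : Type} [Field k]
variable {A : Type} [Ring A] [Algebra k[X] A] {S : Type} [CommRing S] [Algebra k S] {π : A →+* S}

theorem resT_X (hπ : IsQC k π) (n : ℕ) (T : TP k[X] A n) : resT hπ n (tX k • T) = 0 := by
  rw [LinearMap.map_smulₛₗ]
  have : ev0 k (tX k) = 0 := by simp [ev0]
  rw [this, zero_smul]

theorem resT_cons (hπ : IsQC k π) (n : ℕ) (a : A) (T : TP k[X] A n) :
    resT hπ (n + 1) (TP.cons a T) = TP.cons (π a) (resT hπ n T) :=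
  TP.map_cons _ _ _ n a T

theorem resT_surj (hπ : IsQC k π) (n : ℕ) : Function.Surjective (resT hπ n) := by
  induction n with
  | zero =>
    intro t
    obtain ⟨a, ha⟩ := hπ.surj (TP.toA t)
    refine ⟨TP.ofA a, ?_⟩
    change TP.ofA (π (TP.toA (TP.ofA a))) = t
    rw [TP.toA_ofA, ha, TP.ofA_toA]
  | succ n ih =>
    intro t
    induction t using TP.succ_induction with
    | h0 => exact ⟨0, map_zero _⟩
    | hc s t =>
      obtain ⟨a, rfl⟩ := hπ.surj s
      obtain ⟨T, rfl⟩ := ih t
      exact ⟨TP.cons a T, resT_cons hπ n a T⟩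
    | ha x y hx hy =>
      obtain ⟨u, rfl⟩ := hx
      obtain ⟨v, rfl⟩ := hy
      exact ⟨u + v, map_add _ _ _⟩

/-- `X T_n(A)` -/
noncomputable def RES1_N (k : Type) [Field k] (A : Type) [Ring A] [Algebra k[X] A] (n : ℕ) :
    Submodule k[X] (TP k[X] A n) :=
  LinearMap.range (LinearMap.lsmul k[X] (TP k[X] A n) (tX k))

theorem RES1_mem {n : ℕ} {T : TP k[X] A n} : T ∈ RES1_N k A n ↔ ∃ T', T = tX k • T' := by
  rw [RES1_N, LinearMap.mem_range]
  exact ⟨fun ⟨y, hy⟩ => ⟨y, hy.symm⟩, fun ⟨y, hy⟩ => ⟨y, hy.symm⟩⟩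

theorem RES1_mk (hπ : IsQC k π) {n : ℕ}
    (ih : ∀ T : TP k[X] A n, resT hπ n T = 0 → ∃ T' : TP k[X] A n, T = tX k • T')
    {a a' : A} {T T' : TP k[X] A n} (ha : π a = π a') (hT : resT hπ n T = resT hπ n T') :
    (Submodule.Quotient.mk (TP.cons a T) : TP k[X] A (n + 1) ⧸ RES1_N k A (n + 1)) =
      Submodule.Quotient.mk (TP.cons a' T') := by
  obtain ⟨c, hc⟩ := hπ.ker (a - a') (by rw [map_sub, ha, sub_self])
  obtain ⟨U, hU⟩ := ih (T - T') (by rw [map_sub, hT, sub_self])
  have h1 : a = a' + tX k • c := by rw [← hc]; abel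
  have h2 : T = T' + tX k • U := by rw [← hU]; abel
  rw [Submodule.Quotient.eq, RES1_mem]
  refine ⟨TP.cons c T + TP.cons a' U, ?_⟩
  rw [smul_add, ← TP.smulR_cons, ← TP.cons_smulR]
  have h3 : TP.cons a T = TP.cons a' T + TP.cons (tX k • c) T := by
    rw [← TP.add_cons, ← h1]
  have h4 : TP.cons a' T = TP.cons a' T' + TP.cons a' (tX k • U) := by
    rw [← TP.cons_add, ← h2]
  rw [h3, h4]
  abel

theorem resT_ker (hπ : IsQC k π) (n : ℕ) (T : TP k[X] A n) (h : resT hπ n T = 0) :
    ∃ T' : TP k[X] A n, T = tX k • T' := by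
  induction n with
  | zero =>
    have h1 : π (TP.toA T) = 0 := h
    obtain ⟨b, hb⟩ := hπ.ker _ h1
    refine ⟨TP.ofA b, ?_⟩
    rw [TP.smulR_ofA, ← hb, TP.ofA_toA]
  | succ n ih =>
    let i2 : Module k (TP k[X] A (n + 1) ⧸ RES1_N k A (n + 1)) :=
      Module.compHom _ (Polynomial.C : k →+* k[X])
    have hsm : ∀ (c : k) (x : TP k[X] A (n + 1) ⧸ RES1_N k A (n + 1)),
        c • x = (Polynomial.C c : k[X]) • x := fun _ _ => rfl
    choose s hs using hπ.surj
    choose s' hs' using resT_surj hπ n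
    have hpc : ∀ (c : k) (a : A), π ((Polynomial.C c : k[X]) • a) = c • π a := by
      intro c a
      rw [Algebra.smul_def, map_mul, hπ.scal, Algebra.smul_def]
    have hpT : ∀ (c : k) (T : TP k[X] A n),
        resT hπ n ((Polynomial.C c : k[X]) • T) = c • resT hπ n T := by
      intro c T
      rw [LinearMap.map_smulₛₗ]
      congr 1
      simp [ev0]
    have hkey : ∀ (a a' : A) (T T' : TP k[X] A n), π a = π a' → resT hπ n T = resT hπ n T' →
        (Submodule.Quotient.mk (TP.cons a T) : TP k[X] A (n + 1) ⧸ RES1_N k A (n + 1)) =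
          Submodule.Quotient.mk (TP.cons a' T') :=
      fun a a' T T' h h' => RES1_mk hπ ih h h'
    let L : TP k S (n + 1) →ₗ[k] (TP k[X] A (n + 1) ⧸ RES1_N k A (n + 1)) := TP.lift
      (LinearMap.mk₂ k
        (fun x t => (Submodule.Quotient.mk (TP.cons (s x) (s' t)) :
          TP k[X] A (n + 1) ⧸ RES1_N k A (n + 1)))
        (fun x x' t => by
          rw [← Submodule.Quotient.mk_add, ← TP.add_cons]
          exact hkey _ _ _ _ (by rw [map_add, hs, hs, hs]) rfl)
        (fun c x t => by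
          rw [hsm, ← Submodule.Quotient.mk_smul, ← TP.smulR_cons]
          exact hkey _ _ _ _ (by rw [hpc, hs, hs]) rfl)
        (fun x t t' => by
          rw [← Submodule.Quotient.mk_add, ← TP.cons_add]
          exact hkey _ _ _ _ rfl (by rw [map_add, hs', hs', hs']))
        (fun c x t => by
          rw [hsm, ← Submodule.Quotient.mk_smul, ← TP.cons_smulR]
          exact hkey _ _ _ _ rfl (by rw [hpT, hs', hs'])))
    have hL : ∀ a T, L (TP.cons (π a) (resT hπ n T)) = Submodule.Quotient.mk (TP.cons a T) := by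
      intro a T
      change TP.lift _ (TP.cons (π a) (resT hπ n T)) = _
      rw [TP.lift_cons, LinearMap.mk₂_apply]
      exact hkey _ _ _ _ (hs _) (hs' _)
    have hLF : ∀ v, L (resT hπ (n + 1) v) = Submodule.Quotient.mk v := by
      intro v
      induction v using TP.succ_induction with
      | h0 => rw [map_zero, map_zero, Submodule.Quotient.mk_zero]
      | hc a T => rw [resT_cons, hL]
      | ha x y hx hy => rw [map_add, map_add, hx, hy, Submodule.Quotient.mk_add]
    have h5 : (Submodule.Quotient.mk T : TP k[X] A (n + 1) ⧸ RES1_N k A (n + 1)) = 0 := by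
      rw [← hLF, h, map_zero]
    rw [Submodule.Quotient.mk_eq_zero] at h5
    exact RES1_mem.1 h5

end C74
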