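import Pool.Agent.MP_35f30a_al.C74.ND2
import Pool.Agent.MP_35f30a_al.C74.RES1

/-!
ROW ND3.  Near-diagonal ring: tensors of order `m` have a homogeneous leading term.  Blueprint section 3.1.

Take `D := exists_nda`, lifts `xh x` of `x ∈ B`, `E := exists_ndp`.
`jT (a ⊗ b) := l (ram a) r (op (ram b))` is additive and scale `M` (`TP.liftₛₗ (sig k M)`).
Let `J1 : T_1(A) → D.U`, `a ⊗ b ↦ D.l a * D.r (op b)`; `jT T = κ (J1 T)`, `πU (J1 T) = algebraMap (tp1 (resT T))`.
CLAIM: let `m < M`, `u ∈ D.U`, `πU u ∈ (δ x : x ∈ B)^m`.  Then there are `v ∈ P` and a homogeneous polynomial `c` of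
degree `m` over `SI` with `κ u = X^m • v`, `aeval δ c = πU u`, `πP v = map epsI c`.
  Induction on `m`: for `m+1`: `πU u = Σ δx_i w_i`, `w_i ∈ (δ)^m`; lift `w_i` to `u_i ∈ D.U`, then
  `u = Σ (D.l xh_i - D.r (op xh_i)) u_i + X u'`, `κ u = Σ X y_i κ(u_i) + X^M κ(u') = X^{m+1}(Σ y_i v_i + X^{M-m-1} κ u')`.
For `m = M` the same computation gives only `κ u ∈ X^M P`.
`resT T ∈ Dm m 0` means `tp1 .. ∈ dI^m` (`Dm_iff`), so `πU (J1 T) ∈ (δ)^m` in `SI` (`map_dI_eq`).  Let `v, c` be as in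
the CLAIM.  If `resT T ∈ Dm (m+1) 0` then `κ (J1 T) ∈ X^{m+1} P`, so `v ∈ X P`, `πP v = 0`.  If `πP v = 0` then all
coefficients of `c` are in `ker epsI = dI SI` (`epsI_ker`), so `πU (J1 T) = aeval δ c ∈ (dI SI)^{m+1}` and
`resT T ∈ Dm (m+1) 0` by `map_dI_pow_iff`.
-/

set_option autoImplicit false

open scoped TensorProduct Polynomial
open MulOpposite (op)

namespace C74

variable {k : Type} [Field k] [IsAlgClosed k]
variable {A : Type} [Ring A] [Algebra k[X] A] {Γ : Type} [Field Γ] [Algebra k Γ] {π : A →+* Γ}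


section aux
variable {M : ℕ} {B : Set Γ}

/-- `J1 (a ⊗ b) = l a * r (op b)` -/
noncomputable def ndJ1 (D : NDA k π) : TP k[X] A 1 →ₗ[k[X]] D.U :=
  TP.lift (LinearMap.mk₂ k[X] (fun a t => D.l a * D.r (op (TP.toA t)))
    (fun a a' t => by rw [map_add, add_mul])
    (fun c a t => by rw [map_smul, smul_mul_assoc])
    (fun a t t' => by rw [map_add, MulOpposite.op_add, map_add, mul_add])
    (fun c a t => by rw [TP.toA_smulR, MulOpposite.op_smul, map_smul, mul_smul_comm]))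

omit [IsAlgClosed k] in
lemma ndJ1_cons (D : NDA k π) (a : A) (t : TP k[X] A 0) :
    ndJ1 D (TP.cons a t) = D.l a * D.r (op (TP.toA t)) := by
  rw [ndJ1]; exact TP.lift_cons _ _ _

omit [IsAlgClosed k] in
lemma ndJ1_res (hπ : IsQC k π) (D : NDA k π) (T : TP k[X] A 1) :
    D.πU (ndJ1 D T) = algebraMap (Γ ⊗[k] Γ) (SI k Γ) (tp1 k Γ (resT hπ 1 T)) := by
  induction T using TP.succ_induction with
  | h0 => simp
  | hc a t =>
    rw [ndJ1_cons, map_mul, D.resl, D.resr, resT_cons]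
    have h1 : resT hπ 0 t = TP.ofA (π (TP.toA t)) := rfl
    rw [h1, tp1_cons, ← map_mul, Algebra.TensorProduct.tmul_mul_tmul, mul_one, one_mul]
  | ha x y hx hy => rw [map_add, map_add, map_add, map_add, map_add, hx, hy]

omit [IsAlgClosed k] in
lemma nd_claim (D : NDA k π) {xh : B → A} (E : NDP D M B xh)
    (hxh : ∀ x, π (xh x) = (x : Γ)) (m : ℕ) (hm : m ≤ M) :
    ∀ u : D.U, D.πU u ∈ (Ideal.span (Set.range fun x : B =>
        algebraMap (Γ ⊗[k] Γ) (SI k Γ) (dl k (x : Γ)))) ^ m →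
      ∃ (v : E.P) (c : MvPolynomial B (SI k Γ)), c.IsHomogeneous m ∧
        E.κ u = (tX k) ^ m • v ∧
        MvPolynomial.aeval (fun x : B => algebraMap (Γ ⊗[k] Γ) (SI k Γ) (dl k (x : Γ))) c = D.πU u ∧
        (m < M → E.πP v = MvPolynomial.map (epsI k Γ) c) := by
  have hκX : ∀ u, E.κ (tX k • u) = (tX k) ^ M • E.κ u := by
    intro u
    rw [Algebra.smul_def, map_mul, E.scκ, ← Algebra.smul_def]
    congr 1
    simp [sig]
  induction m with
  | zero =>
    intro u _
    refine ⟨E.κ u, MvPolynomial.C (D.πU u), MvPolynomial.isHomogeneous_C _ _, by simp, ?_, ?_⟩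
    · exact MvPolynomial.aeval_C _ _
    · intro _
      rw [E.resκ, MvPolynomial.map_C]
  | succ m ih =>
    intro u hu
    have ih' := ih (by omega)
    -- the predicate
    set J : Ideal (SI k Γ) := Ideal.span (Set.range fun x : B =>
        algebraMap (Γ ⊗[k] Γ) (SI k Γ) (dl k (x : Γ))) with hJ
    let δ : B → SI k Γ := fun x : B => algebraMap (Γ ⊗[k] Γ) (SI k Γ) (dl k (x : Γ))
    let Q : SI k Γ → Prop := fun w => ∀ u : D.U, D.πU u = w →
      ∃ (v : E.P) (c : MvPolynomial B (SI k Γ)), c.IsHomogeneous (m + 1) ∧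
        E.κ u = (tX k) ^ (m + 1) • v ∧
        MvPolynomial.aeval δ c = w ∧
        (m + 1 < M → E.πP v = MvPolynomial.map (epsI k Γ) c)
    have hMm : M = (m + 1) + (M - (m + 1)) := by omega
    have hker : ∀ u'' : D.U, E.κ (tX k • u'') =
        (tX k) ^ (m + 1) • ((tX k) ^ (M - (m + 1)) • E.κ u'') := by
      intro u''
      rw [hκX, smul_smul, ← pow_add, ← hMm]
    have hker0 : ∀ (p : E.P), m + 1 < M → E.πP ((tX k) ^ (M - (m + 1)) • p) = 0 := by
      intro p hlt
      obtain ⟨e, he⟩ : ∃ e, M - (m + 1) = e + 1 := ⟨M - (m + 1) - 1, by omega⟩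
      rw [he, pow_succ', mul_smul]
      exact E.qcP.kerX _
    have Q0 : Q 0 := by
      intro u hu
      obtain ⟨u'', rfl⟩ := D.qc.ker u hu
      refine ⟨(tX k) ^ (M - (m + 1)) • E.κ u'', 0, MvPolynomial.isHomogeneous_zero _ _ _, hker u'',
        by simp, ?_⟩
      intro hlt
      rw [hker0 _ hlt, map_zero]
    have Qadd : ∀ w1 w2, Q w1 → Q w2 → Q (w1 + w2) := by
      intro w1 w2 h1 h2 u hu
      obtain ⟨u1, hu1⟩ := D.qc.surj w1
      obtain ⟨v1, c1, a1, b1, d1, e1⟩ := h1 u1 hu1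
      obtain ⟨v2, c2, a2, b2, d2, e2⟩ := h2 (u - u1) (by rw [map_sub, hu, hu1]; abel)
      refine ⟨v1 + v2, c1 + c2, a1.add a2, ?_, ?_, ?_⟩
      · rw [smul_add, ← b1, ← b2, ← map_add]
        congr 1
        abel
      · rw [map_add, d1, d2]
      · intro hlt
        rw [map_add, map_add, e1 hlt, e2 hlt]
    have Qpure : ∀ w' ∈ J ^ m, ∀ x : B, Q (w' * δ x) := by
      intro w' hw' x u hu
      obtain ⟨u', hu'⟩ := D.qc.surj w'
      obtain ⟨v', c', a', b', d', e'⟩ := ih' u' (by rw [hu']; exact hw')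
      have hp : D.πU (D.l (xh x) - D.r (op (xh x))) = δ x := by
        rw [map_sub, D.resl, D.resr, hxh, ← map_sub]
        rfl
      obtain ⟨u'', hu''⟩ := D.qc.ker (u - u' * (D.l (xh x) - D.r (op (xh x))))
        (by rw [map_sub, map_mul, hp, hu, hu', sub_self])
      refine ⟨v' * E.y x + (tX k) ^ (M - (m + 1)) • E.κ u'', c' * MvPolynomial.X x,
        a'.mul (MvPolynomial.isHomogeneous_X _ _), ?_, ?_, ?_⟩
      · have h1 : u = u' * (D.l (xh x) - D.r (op (xh x))) + tX k • u'' := by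
          rw [← hu'']; abel
        rw [h1, map_add, map_mul, b', ← E.Xy, hker, smul_add]
        congr 1
        rw [smul_mul_assoc, mul_smul_comm, smul_smul, ← pow_succ]
      · rw [map_mul, MvPolynomial.aeval_X, d', hu']
      · intro hlt
        rw [map_add, map_mul, E.resy, hker0 _ hlt, add_zero, map_mul, MvPolynomial.map_X,
          e' (by omega)]
    have hQ : ∀ w ∈ J ^ (m + 1), Q w := by
      intro w hw
      rw [pow_succ] at hw
      refine Submodule.mul_induction_on hw ?_ (fun x y hx hy => Qadd x y hx hy)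
      intro a ha b hb
      have : ∀ a ∈ J ^ m, Q (a * b) := by
        rw [hJ] at hb
        refine Submodule.span_induction (p := fun b _ => ∀ a ∈ J ^ m, Q (a * b)) ?_ ?_ ?_ ?_ hb
        · rintro _ ⟨x, rfl⟩ a ha
          exact Qpure a ha x
        · intro a _
          rw [mul_zero]; exact Q0
        · intro x y _ _ hx hy a ha
          rw [mul_add]
          exact Qadd _ _ (hx a ha) (hy a ha)
        · intro s x _ hx a ha
          have : a * (s • x) = (a * s) * x := by rw [smul_eq_mul, mul_assoc]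
          rw [this]
          exact hx _ (Ideal.mul_mem_right _ _ ha)
      exact this a ha
    obtain ⟨v, c, h1, h2, h3, h4⟩ := hQ _ hu u rfl
    exact ⟨v, c, h1, h2, h3, h4⟩

omit [IsAlgClosed k] in
lemma nd_monom (J : Ideal (SI k Γ)) (δ : B → SI k Γ) (hδ : ∀ x, δ x ∈ J) (m : ℕ)
    (c : MvPolynomial B (SI k Γ)) (hc : c.IsHomogeneous m) (h0 : ∀ s, c.coeff s ∈ J) :
    MvPolynomial.aeval δ c ∈ J ^ (m + 1) := by
  rw [MvPolynomial.aeval_def, MvPolynomial.eval₂_eq]
  refine Ideal.sum_mem _ (fun s hs => ?_)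
  rw [pow_succ, mul_comm]
  have hdeg : s.degree = m := by
    have := hc (MvPolynomial.mem_support_iff.mp hs)
    rw [Finsupp.degree_eq_weight_one (R := ℕ)]
    exact this
  have h1 : ∏ i ∈ s.support, δ i ^ s i ∈ J ^ m := by
    rw [← hdeg, Finsupp.degree]
    have : ∏ i ∈ s.support, δ i ^ s i ∈ ∏ i ∈ s.support, J ^ s i :=
      Ideal.prod_mem_prod (fun i _ => Ideal.pow_mem_pow (hδ i) _)
    rwa [Finset.prod_pow_eq_pow_sum] at this
  exact Ideal.mul_mem_mul (by simpa using h0 s) h1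

end aux

/-- NDR: the near-diagonal ring `P` over `O = RAM(A,M)` -/
theorem exists_ndr (hπ : IsQC k π) (hc : IsComp k A) (M : ℕ) (hM : 4 ≤ M) (B : Set Γ)
    (hB : AlgebraicIndependent k ((↑) : B → Γ))
    (hB' : Algebra.IsSeparable (IntermediateField.adjoin k B) Γ) :
    ∃ (O : Type) (_ : Ring O) (_ : Algebra k[X] O) (πO : O →+* Γ) (ram : A →+* O)
      (P : Type) (_ : Ring P) (_ : Algebra k[X] P) (πP : P →+* MvPolynomial B Γ)
      (l : O →ₐ[k[X]] P) (r : Oᵐᵒᵖ →ₐ[k[X]] P) (jT : TP k[X] A 1 →+ P)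
      (act : P →ₐ[k[X]] Module.End k[X] O),
      IsQC k πO ∧ IsComp k O ∧ IsScale k M ram ∧ (∀ a, πO (ram a) = π a) ∧
      IsQC k πP ∧ IsComp k P ∧
      (∀ a b, l a * r b = r b * l a) ∧
      (∀ a, πP (l a) = MvPolynomial.C (πO a)) ∧
      (∀ a, πP (r (op a)) = MvPolynomial.C (πO a)) ∧
      (∀ a b, jT (TP.cons a (TP.ofA b)) = l (ram a) * r (op (ram b))) ∧
      (∀ (m : ℕ), m < M → ∀ T : TP k[X] A 1, resT hπ 1 T ∈ Dm k Γ m 0 →
        ∃ u : P, jT T = (tX k) ^ m • u ∧ (πP u).IsHomogeneous m ∧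
          (πP u = 0 ↔ resT hπ 1 T ∈ Dm k Γ (m + 1) 0)) ∧
      (∀ a c, act (l a) c = a * c) ∧ (∀ a c, act (r (op a)) c = c * a) ∧
      (∀ C c, πO (act C c) = MvPolynomial.constantCoeff (πP C) * πO c) := by
  obtain ⟨D⟩ := exists_nda hπ hc
  have hx : ∀ x : B, ∃ a : A, π a = (x : Γ) := fun x => hπ.surj x
  choose xh hxh using hx
  obtain ⟨E⟩ := exists_ndp hπ hc D M hM B hB hB' xh hxh
  have hJ := map_dI_eq (k := k) B hB'
  refine ⟨E.O, E.rO, E.aO, E.πO, E.ram, E.P, E.rP, E.aP, E.πP, E.l, E.r,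
    (E.κ : D.U →+ E.P).comp (ndJ1 D).toAddMonoidHom, E.act, E.qcO, E.compO, E.scram, E.resram,
    E.qcP, E.compP, E.comm, E.resl, E.resr, ?_, ?_, E.actl, E.actr, E.actres⟩
  · intro a b
    change E.κ (ndJ1 D (TP.cons a (TP.ofA b))) = _
    rw [ndJ1_cons, map_mul, E.κl, TP.toA_ofA, E.κr]
  · intro m hm T hT
    have hT1 := (Dm_iff k Γ m _).mp hT
    have hT2 := (map_dI_pow_iff k Γ m _).mpr hT1
    rw [← ndJ1_res hπ D T, hJ] at hT2
    obtain ⟨v, c, h1, h2, h3, h4⟩ := nd_claim D E hxh m hm.le _ hT2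
    have h4' := h4 hm
    refine ⟨v, h2, ?_, ?_, ?_⟩
    · rw [h4']
      exact h1.map _
    · intro h0
      rw [h4'] at h0
      have hcoef : ∀ s, c.coeff s ∈ Ideal.span (Set.range fun x : B =>
          algebraMap (Γ ⊗[k] Γ) (SI k Γ) (dl k (x : Γ))) := by
        intro s
        rw [← hJ, ← epsI_ker, ← MvPolynomial.coeff_map, h0, MvPolynomial.coeff_zero]
      have h5 := nd_monom (Ideal.span (Set.range fun x : B =>
          algebraMap (Γ ⊗[k] Γ) (SI k Γ) (dl k (x : Γ))))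
          (fun x : B => algebraMap (Γ ⊗[k] Γ) (SI k Γ) (dl k (x : Γ)))
          (fun x : B => Ideal.subset_span ⟨x, rfl⟩) m c h1 hcoef
      rw [h3, ndJ1_res hπ D T, ← hJ, map_dI_pow_iff] at h5
      exact (Dm_iff k Γ (m + 1) _).mpr h5
    · intro h0
      have h5 := (Dm_iff k Γ (m + 1) _).mp h0
      have h6 := (map_dI_pow_iff k Γ (m + 1) _).mpr h5
      rw [← ndJ1_res hπ D T, hJ] at h6
      obtain ⟨v', c', _, h2', _, _⟩ := nd_claim D E hxh (m + 1) hm _ h6
      have h7 : (tX k) ^ m • (v - tX k • v') = 0 := by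
        rw [smul_sub, ← h2, h2', pow_succ, mul_smul, sub_self]
      have h8 : v - tX k • v' = 0 := by
        have : ∀ (n : ℕ) (p : E.P), (tX k) ^ n • p = 0 → p = 0 := by
          intro n
          induction n with
          | zero => intro p hp; simpa using hp
          | succ n ih => intro p hp; rw [pow_succ', mul_smul] at hp; exact ih _ (E.qcP.reg _ hp)
        exact this _ _ h7
      rw [sub_eq_zero] at h8
      rw [h8]
      exact E.qcP.kerX _

end C74
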