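import Pool.Agent.MP_35f30a_al.C74.GEN1
import Pool.Agent.MP_35f30a_al.C74.ND3
import Pool.Agent.MP_35f30a_al.C74.FRE6
import Pool.Agent.MP_35f30a_al.C74.MAPX

/-!
ROW GEN2.  GEN.  Blueprint section 5.

`hsg` gives `B`; `exists_ndr`, `exists_genN`, `exists_free`: `Q`, `f := cO ∘ ram`, `w0 := cN (0, 1)`.
`ev w0 (mapX f T) = cN (0, jT T)`: on `T = a ⊗ b`: `f a * w0 * f b = cN (h.L (ram a) (h.R (op (ram b)) (0,1)))`.
If `resT T ∈ Dm m 0`: `jT T = X^m • u`, so the value is `X^m • cN (0, u)`.  With `πP u = Σ γ_α Y^α`, homogeneous of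
degree `m`: `(0,u) ≡ Σ L (c_α) (m α) mod X N`, `πO c_α = γ_α`, so `πQ (cN (0,u)) = Σ γ_α X_{j α}`: homogeneous of degree `1`,
`= 0` iff `πP u = 0` (`j` injective).
`eps`: universal property of `exists_free` with `B := O`, `f := id`, `g (a, C) := a` (`O` has gap 1 because it is QC).
`eps w0 = 0`.  `epsb`: `πO ∘ eps` kills `ker πQ = X Q`, so it factors through `πQ` (onto);
`epsb (C γ) = γ` as `πQ (cO a) = C (πO a)`.
-/

set_option autoImplicit false

open scoped TensorProduct Polynomial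
open MulOpposite (op)

namespace C74

section lead

variable {B : Type} {Γ : Type} [Field Γ] {Λ : Type} (j : (B →₀ ℕ) → Λ)

/-- `Σ γ_α Y^α ↦ Σ γ_α X_{j α}` -/
noncomputable def GEN2_ψ : MvPolynomial B Γ →ₗ[Γ] MvPolynomial Λ Γ :=
  (MvPolynomial.basisMonomials B Γ).constr Γ (fun α => (MvPolynomial.X (j α) : MvPolynomial Λ Γ))

lemma GEN2_ψ_monomial (α : B →₀ ℕ) (c : Γ) :
    GEN2_ψ j (MvPolynomial.monomial α c) = MvPolynomial.C c * MvPolynomial.X (j α) := by
  have h1 : (MvPolynomial.monomial α c : MvPolynomial B Γ) =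
      c • (MvPolynomial.basisMonomials B Γ) α := by
    rw [MvPolynomial.coe_basisMonomials, MvPolynomial.smul_monomial, smul_eq_mul, mul_one]
  rw [h1, map_smul, GEN2_ψ, Module.Basis.constr_basis, MvPolynomial.C_mul']

lemma GEN2_ψ_hom (p : MvPolynomial B Γ) : (GEN2_ψ j p).IsHomogeneous 1 := by
  induction p using MvPolynomial.induction_on' with
  | monomial α c =>
    rw [GEN2_ψ_monomial]
    have h1 := (MvPolynomial.isHomogeneous_C Λ c).mul (MvPolynomial.isHomogeneous_X Γ (j α))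
    simpa using h1
  | add p q hp hq => rw [map_add]; exact hp.add hq

lemma GEN2_ψ_coeff (hj : Function.Injective j) (p : MvPolynomial B Γ) (α : B →₀ ℕ) :
    MvPolynomial.coeff (Finsupp.single (j α) 1) (GEN2_ψ j p) = MvPolynomial.coeff α p := by
  classical
  induction p using MvPolynomial.induction_on' with
  | monomial β c =>
    rw [GEN2_ψ_monomial, MvPolynomial.coeff_C_mul, MvPolynomial.coeff_X,
      MvPolynomial.coeff_monomial]
    by_cases h : β = α
    · subst h; simp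
    · have h1 : ¬ (Finsupp.single (j β) 1 = Finsupp.single (j α) 1) := by
        intro h2
        exact h (hj (Finsupp.single_left_injective one_ne_zero h2))
      simp [h, h1]
  | add p q hp hq => rw [map_add, MvPolynomial.coeff_add, MvPolynomial.coeff_add, hp, hq]

lemma GEN2_ψ_eq_zero (hj : Function.Injective j) (p : MvPolynomial B Γ) :
    GEN2_ψ j p = 0 ↔ p = 0 := by
  constructor
  · intro h
    ext α
    rw [← GEN2_ψ_coeff j hj, h, MvPolynomial.coeff_zero, MvPolynomial.coeff_zero]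
  · rintro rfl; exact map_zero _

end lead

section cls

variable {k : Type} [Field k]

/-- the leading form of `cN (0, C)` -/
lemma GEN2_lead {O : Type} [Ring O] [Algebra k[X] O] {Γ : Type} [Field Γ] [Algebra k Γ]
    {πO : O →+* Γ} (hO : IsQC k πO) {B : Type} {P : Type} [Ring P]
    [Algebra k[X] P] {πP : P →+* MvPolynomial B Γ} (hP : IsQC k πP)
    (l : O →ₐ[k[X]] P)
    (hl : ∀ a, πP (l a) = MvPolynomial.C (πO a))
    (h : NCB k πO (O × P) (B →₀ ℕ)) (hL : ∀ b x, h.L b x = (b * x.1, l b * x.2))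
    (hm : ∀ α, (h.m α).1 = 0 ∧ πP (h.m α).2 = MvPolynomial.monomial α 1)
    {Λ : Type} {j : (B →₀ ℕ) → Λ} {Q : Type} [Ring Q] [Algebra k[X] Q]
    {πQ : Q →+* MvPolynomial Λ Γ} (hQ : IsQC k πQ) (cO : O →ₐ[k[X]] Q)
    (cN : (O × P) →ₗ[k[X]] Q) (hcO : ∀ a, πQ (cO a) = MvPolynomial.C (πO a))
    (hcL : ∀ b n, cN (h.L b n) = cO b * cN n)
    (hcm : ∀ i, πQ (cN (h.m i)) = MvPolynomial.X (j i)) (C : P) :
    πQ (cN (0, C)) = GEN2_ψ j (πP C) := by
  have hker : ∀ C : P, πP C = 0 → πQ (cN (0, C)) = 0 := by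
    intro C hC
    obtain ⟨D, rfl⟩ := hP.ker C hC
    have h1 : ((0 : O), tX k • D) = tX k • ((0 : O), D) := by
      rw [Prod.smul_mk, smul_zero]
    rw [h1, map_smul, hQ.kerX]
  have hadd : ∀ C D : P, πQ (cN (0, C + D)) = πQ (cN (0, C)) + πQ (cN (0, D)) := by
    intro C D
    have h1 : ((0 : O), C + D) = (0, C) + (0, D) := by rw [Prod.mk_add_mk, add_zero]
    rw [h1, map_add, map_add]
  have hwd : ∀ C D : P, πP C = πP D → πQ (cN (0, C)) = πQ (cN (0, D)) := by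
    intro C D hCD
    have h1 : πP (C - D) = 0 := by rw [map_sub, hCD, sub_self]
    have h2 := hadd (C - D) D
    rw [sub_add_cancel, hker _ h1, zero_add] at h2
    exact h2
  have key : ∀ p : MvPolynomial B Γ, ∃ D : P, πP D = p ∧ πQ (cN (0, D)) = GEN2_ψ j p := by
    intro p
    induction p using MvPolynomial.induction_on' with
    | monomial α c =>
      obtain ⟨a, ha⟩ := hO.surj c
      refine ⟨l a * (h.m α).2, ?_, ?_⟩
      · rw [map_mul, hl, (hm α).2, ha, MvPolynomial.C_mul_monomial, mul_one]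
      · have h1 : ((0 : O), l a * (h.m α).2) = h.L a (h.m α) := by
          rw [hL, (hm α).1, mul_zero]
        rw [h1, hcL, map_mul, hcO, hcm, ha, GEN2_ψ_monomial]
    | add p q hp hq =>
      obtain ⟨D, hD, hD'⟩ := hp
      obtain ⟨E, hE, hE'⟩ := hq
      exact ⟨D + E, by rw [map_add, hD, hE], by rw [hadd, hD', hE', map_add]⟩
  obtain ⟨D, hD, hD'⟩ := key (πP C)
  rw [hwd C D hD.symm, hD']

end cls

lemma GEN2_ev_cons {k : Type} [Field k] {A Q : Type} [Ring A] [Algebra k[X] A] [Ring Q]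
    [Algebra k[X] Q] {M : ℕ} (f : A →+* Q) (hf : IsScale k M f) (w : Q) (a b : A) :
    TP.ev w (mapX f hf 1 (TP.cons a (TP.ofA b))) = f a * w * f b := by
  have h1 : mapX f hf 1 (TP.cons a (TP.ofA b)) = TP.cons (f a) (TP.ofA (f b)) :=
    TP.map_cons _ _ _ _ _ _
  rw [h1, TP.ev, TP.con_succ_zero]
  rfl

variable {k : Type} [Field k] [IsAlgClosed k]
variable {A : Type} [Ring A] [Algebra k[X] A] {Γ : Type} [Field Γ] [Algebra k Γ] {π : A →+* Γ}

/-- GEN(A,M) -/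
theorem exists_gen (hπ : IsQC k π) (hc : IsComp k A) (hsg : SG k Γ) (M : ℕ) (hM : 4 ≤ M) :
    ∃ (Λ : Type) (Q : Type) (_ : Ring Q) (_ : Algebra k[X] Q) (πQ : Q →+* MvPolynomial Λ Γ)
      (f : A →+* Q) (hf : IsScale k M f) (w0 : Q)
      (O : Type) (_ : Ring O) (_ : Algebra k[X] O) (πO : O →+* Γ) (ram : A →+* O)
      (eps : Q →ₐ[k[X]] O) (epsb : MvPolynomial Λ Γ →+* Γ),
      IsQC k πQ ∧ IsComp k Q ∧ (∀ a, πQ (f a) = MvPolynomial.C (π a)) ∧
      (∀ (m : ℕ), m < M → ∀ T : TP k[X] A 1, resT hπ 1 T ∈ Dm k Γ m 0 →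
        ∃ u : Q, TP.ev w0 (mapX f hf 1 T) = (tX k) ^ m • u ∧ (πQ u).IsHomogeneous 1 ∧
          (πQ u = 0 ↔ resT hπ 1 T ∈ Dm k Γ (m + 1) 0)) ∧
      IsQC k πO ∧ IsComp k O ∧ IsScale k M ram ∧ (∀ a, πO (ram a) = π a) ∧
      (∀ a, eps (f a) = ram a) ∧ eps w0 = 0 ∧
      (∀ x, epsb (MvPolynomial.C x) = x) ∧ (∀ q, πO (eps q) = epsb (πQ q)) := by
  obtain ⟨B, hB, hB'⟩ := hsg
  obtain ⟨O, rO, aO, πO, ram, P, rP, aP, πP, l, r, jT, act, hO, hcO, hram, hramr, hP, hcP, hlr,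
    hl, hr, hjT, hjm, hactl, hactr, hactC⟩ := exists_ndr hπ hc M hM B hB hB'
  obtain ⟨h, hL, hR, he, hm⟩ := exists_genN hO hcO hP hcP l r hlr hl hr
  obtain ⟨Λ, j, Q, rQ, aQ, πQ, cO, cN, hj, hQ, hcQ, hcOr, hcNL, hcNR, hcNe, hcNm, huniv⟩ :=
    exists_free hO hcO (O × P) (B →₀ ℕ) h
  have hgapO : Gap k 1 O := by
    intro a b
    have h1 : πO (a * b - b * a) = 0 := by
      rw [map_sub, map_mul, map_mul, mul_comm, sub_self]
    obtain ⟨c, hc⟩ := hO.ker _ h1
    exact ⟨c, by rw [hc, pow_one]⟩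
  obtain ⟨F, hF, hF'⟩ := huniv O hO.reg hcO hgapO (AlgHom.id k[X] O) (LinearMap.fst k[X] O P)
    (fun b n => by rw [hL]; rfl) (fun b n => by rw [hR]; rfl) (by rw [he]; rfl)
  have hle : RingHom.ker πQ ≤ RingHom.ker (πO.comp (F : Q →+* O)) := by
    intro q hq
    rw [RingHom.mem_ker] at hq ⊢
    obtain ⟨b, rfl⟩ := hQ.ker q hq
    show πO (F (tX k • b)) = 0
    rw [map_smul, hO.kerX]
  set epsb : MvPolynomial Λ Γ →+* Γ := πQ.liftOfSurjective hQ.surj ⟨πO.comp (F : Q →+* O), hle⟩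
    with hepsb
  have hepsb' : ∀ q, epsb (πQ q) = πO (F q) := by
    intro q
    rw [hepsb]
    exact πQ.liftOfRightInverse_comp_apply _ _ ⟨πO.comp (F : Q →+* O), hle⟩ q
  have hf : IsScale k M ((cO : O →+* Q).comp ram) := by
    intro x
    show cO (ram (algebraMap k[X] A x)) = _
    rw [hram x]
    exact cO.commutes _
  have hev : ∀ T : TP k[X] A 1, TP.ev (cN (0, 1)) (mapX ((cO : O →+* Q).comp ram) hf 1 T) =
      cN (0, jT T) := by
    intro T
    induction T using TP.succ_induction with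
    | h0 =>
      have h1 : ((0 : O), (0 : P)) = 0 := rfl
      rw [map_zero, map_zero, h1, map_zero, TP.ev, map_zero, map_zero]
    | hc a t =>
      obtain ⟨b, hb⟩ : ∃ b, t = TP.ofA b := ⟨TP.toA t, rfl⟩
      rw [hb, hjT, GEN2_ev_cons]
      have h1 : ((0 : O), l (ram a) * r (op (ram b))) = h.L (ram a) (h.R (op (ram b)) (0, 1)) := by
        rw [hR, hL, zero_mul, mul_zero, mul_one]
      rw [h1, hcNL, hcNR, ← mul_assoc]
      rfl
    | ha x y hx hy =>
      have h1 : ((0 : O), jT x + jT y) = (0, jT x) + (0, jT y) := by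
        rw [Prod.mk_add_mk, add_zero]
      have h2 : ∀ (w : Q) (x y : TP k[X] Q 1), TP.ev w (x + y) = TP.ev w x + TP.ev w y := by
        intro w x y
        rw [TP.ev, TP.ev, TP.ev, map_add, map_add]
      rw [map_add, map_add, h1, map_add, h2, hx, hy]
  refine ⟨Λ, Q, rQ, aQ, πQ, (cO : O →+* Q).comp ram, hf, cN (0, 1), O, rO, aO, πO, ram, F, epsb,
    hQ, hcQ, ?_, ?_, hO, hcO, hram, hramr, ?_, ?_, ?_, ?_⟩
  · intro a
    show πQ (cO (ram a)) = _
    rw [hcOr, hramr]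
  · intro m hmM T hT
    obtain ⟨u, hu, huh, hu0⟩ := hjm m hmM T hT
    have hlead := GEN2_lead hO hP l hl h hL hm hQ cO cN hcOr hcNL hcNm u
    refine ⟨cN (0, u), ?_, ?_, ?_⟩
    · rw [hev, hu, ← map_smul, Prod.smul_mk, smul_zero]
    · rw [hlead]; exact GEN2_ψ_hom j _
    · rw [hlead, GEN2_ψ_eq_zero j hj, hu0]
  · intro a
    exact hF (ram a)
  · rw [hF']; rfl
  · intro x
    obtain ⟨a, rfl⟩ := hO.surj x
    rw [← hcOr, hepsb', hF]; rfl
  · intro q
    rw [hepsb']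

end C74
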