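import Pool.Agent.MP_35f30a_al.C74.OR1

/-!
ROW OR2.  (LA).  Blueprint section 0.

Let `W := JJ m j`, a left `Γ`-subspace of `T_j(Γ)` (`JJ_smul`); choose a `Γ`-linear projection `p : T_j(Γ) → T_j(Γ)` onto `W`
(`Γ` is a field: `Submodule.exists_isCompl` / `exists_leftInverse_of_injective`).  `P : a ⊗ u ↦ a ⊗ p u` commutes with all
`δ_b` (`p` is `Γ`-linear).  Hence `P (Dm m j) ⊆ DW W m` (induction on `m`; `P (⊤) ⊆ DW W 0`).  `P` is the identity on
`span {a ⊗ u | u ∈ W}`.  So `x ∈ JJ m (j+1)` gives `x = P x ∈ DW W m`.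
-/

set_option autoImplicit false

open scoped TensorProduct Polynomial

namespace C74

variable {k : Type} [Field k] {Γ : Type} [Field Γ] [Algebra k Γ]

/-- (LA) -/
theorem JJ_le_DW (m j : ℕ) : JJ k Γ m (j + 1) ≤ DW (JJ k Γ m j) m := by
  let W : Submodule Γ (TP k Γ j) :=
    { carrier := JJ k Γ m j
      add_mem' := fun ha hb => add_mem ha hb
      zero_mem' := zero_mem _
      smul_mem' := fun a y h => JJ_smul a h }
  obtain ⟨g, hg⟩ := W.subtype.exists_leftInverse_of_injective (Submodule.ker_subtype W)
  have hgW : ∀ u ∈ JJ k Γ m j, ((g u : W) : TP k Γ j) = u := by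
    intro u hu
    have h1 := LinearMap.congr_fun hg (⟨u, hu⟩ : W)
    simp only [LinearMap.coe_comp, Function.comp_apply, Submodule.subtype_apply,
      LinearMap.id_apply] at h1
    rw [h1]
  have hgmem : ∀ u, ((g u : W) : TP k Γ j) ∈ JJ k Γ m j := fun u => (g u).2
  let P : TP k Γ (j + 1) →ₗ[k] TP k Γ (j + 1) :=
    TP.lift (LinearMap.mk₂ k (fun a u => TP.cons a ((g u : W) : TP k Γ j))
      (fun a a' u => by rw [TP.add_cons])
      (fun r a u => by rw [TP.smulR_cons])
      (fun a u u' => by rw [map_add, Submodule.coe_add, TP.cons_add])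
      (fun r a u => by
        have h1 : g (r • u) = (algebraMap k Γ r) • g u := by
          rw [← map_smul, algebraMap_smul]
        rw [h1, Submodule.coe_smul, algebraMap_smul, TP.cons_smulR]))
  have hP : ∀ (a : Γ) (u : TP k Γ j), P (TP.cons a u) = TP.cons a ((g u : W) : TP k Γ j) :=
    fun a u => TP.lift_cons _ _ _
  have hPdel : ∀ (b : Γ) (x : TP k Γ (j + 1)), P (TP.del b j x) = TP.del b j (P x) := by
    intro b x
    induction x using TP.succ_induction with
    | h0 => rw [map_zero, map_zero, map_zero]
    | hc a t => rw [TP.del_cons, map_sub, hP, hP, hP, TP.del_cons, map_smul, Submodule.coe_smul]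
    | ha x y hx hy => rw [map_add, map_add, map_add, map_add, hx, hy]
  have hPD : ∀ (l : ℕ) (x : TP k Γ (j + 1)), x ∈ Dm k Γ l j → P x ∈ DW (JJ k Γ m j) l := by
    intro l
    induction l with
    | zero =>
      intro x _
      rw [DW]
      induction x using TP.succ_induction with
      | h0 => rw [map_zero]; exact zero_mem _
      | hc a t => rw [hP]; exact Submodule.subset_span ⟨a, _, hgmem t, rfl⟩
      | ha x y hx hy =>
        rw [map_add]
        exact add_mem (hx (by rw [Dm]; trivial)) (hy (by rw [Dm]; trivial))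
    | succ l ih =>
      intro x hx
      rw [Dm] at hx
      rw [DW]
      induction hx using Submodule.span_induction with
      | mem x hx =>
        obtain ⟨b, y, hy, rfl⟩ := hx
        rw [hPdel]
        exact Submodule.subset_span ⟨b, _, ih y hy, rfl⟩
      | zero => rw [map_zero]; exact zero_mem _
      | add x y _ _ hx hy => rw [map_add]; exact add_mem hx hy
      | smul c x _ hx => rw [map_smul]; exact Submodule.smul_mem _ c hx
  intro x hx
  rw [JJ] at hx
  have h2 := hx.2
  simp only [SetLike.mem_coe] at h2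
  have hPx : P x = x := by
    clear hx
    induction h2 using Submodule.span_induction with
    | mem x hx =>
      obtain ⟨a, u, hu, rfl⟩ := hx
      rw [hP, hgW u hu]
    | zero => rw [map_zero]
    | add x y _ _ hx hy => rw [map_add, hx, hy]
    | smul c x _ hx => rw [map_smul, hx]
  rw [← hPx]
  exact hPD m x hx.1

end C74
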