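import Pool.Agent.MP_35f30a_al.C74.MAPX
import Pool.Agent.MP_35f30a_al.C74.RES1
import Pool.Agent.MP_35f30a_al.C74.TPL3
import Pool.Agent.MP_35f30a_al.C74.OR2

/-!
ROW J1.  (J1).  Blueprint section 2.5.

Induction on `j`.  By (LA) (`JJ_le_DW`) `resT T ∈ span {δ_{b1}...δ_{bm} (a ⊗ u) | u ∈ JJ m j}`; lifting `a, b_i` to `A` and
`u` to `U ∈ T_j(A)` (`resT_surj`), `T = Σ δ_{β1}...δ_{βm} (α ⊗ U) + X • T0` (`resT_ker`), and `mapX f (X • T0) = X^M • ..`,
`M ≥ (j+1-i) m`.  For one summand, contraction `C_{j+1,i}(w) = C' + C''_w` where on `a ⊗ u` (`con_succ_succ`):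
`C'(a ⊗ u) = a ⊗ C_{j,i-1}(w) u` (only for `i ≥ 1`), `C''_w (a ⊗ u) = (a w) • C_{j,i}(w) u`.
* `C' δ_b = δ_b C'` (contractions are left linear): `C'` of the summand is `δ_{fβ1}...δ_{fβm} (f α ⊗ C_{j,i-1}(w)(f U))`, and
  `C_{j,i-1}(w)(f U) ∈ X^{(j+1-i)m} T_{i-1}(Q)` by induction.
* `C''_w δ_b = C''_{[b,w]}`: `C''_w` of the summand is `(f α · [fβm, ... [fβ1, w]]) • C_{j,i}(w)(f U)` (in some order),
  the iterated commutator is in `X^m Q` (QC: `[x, X^l y] ∈ X^{l+1} Q`), the contraction in `X^{(j-i)m}` by induction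
  (zero if `i = j+1`).
`i = j+1` as a target is trivial (`con_self`, exponent `0`).
-/

set_option autoImplicit false

open scoped TensorProduct Polynomial

namespace C74

variable {k : Type} [Field k]
variable {A : Type} [Ring A] [Algebra k[X] A] {Γ : Type} [Field Γ] [Algebra k Γ] {π : A →+* Γ}

/-- commutators in a QC ring are divisible by `X` -/
theorem J1_comm {Q : Type} [Ring Q] [Algebra k[X] Q] {S : Type} [CommRing S]
    [Algebra k S] {πQ : Q →+* S} (hQ : IsQC k πQ) (b v : Q) :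
    ∃ c : Q, b * v - v * b = tX k • c := by
  apply hQ.ker
  rw [map_sub, map_mul, map_mul, mul_comm, sub_self]

/-- the good lifts -/
def J1_good {Q : Type} [Ring Q] [Algebra k[X] Q] {M : ℕ} (f : A →+* Q) (hf : IsScale k M f)
    (m j : ℕ) (w : Q) (m' : ℕ) (T : TP k[X] A (j + 1)) : Prop :=
  ∀ i ≤ j, (j - i) * m ≤ M →
    (∀ v : Q, ∃ V : TP k[X] Q i, TP.con1 v w j i (mapX f hf (j + 1) T) =
      (tX k) ^ (m' + (j - i) * m) • V) ∧
    ∃ V : TP k[X] Q (i + 1), TP.con2 w j i (mapX f hf (j + 1) T) = (tX k) ^ ((j - i) * m) • V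

theorem J1_good_add {Q : Type} [Ring Q] [Algebra k[X] Q] {M : ℕ} (f : A →+* Q)
    (hf : IsScale k M f) (m j : ℕ) (w : Q) (m' : ℕ) {T T' : TP k[X] A (j + 1)}
    (h : J1_good f hf m j w m' T) (h' : J1_good f hf m j w m' T') :
    J1_good f hf m j w m' (T + T') := by
  intro i hi hM
  obtain ⟨h1, V2, h2⟩ := h i hi hM
  obtain ⟨h1', V2', h2'⟩ := h' i hi hM
  refine ⟨fun v => ?_, V2 + V2', ?_⟩
  · obtain ⟨V, hV⟩ := h1 v
    obtain ⟨V', hV'⟩ := h1' v
    exact ⟨V + V', by rw [map_add, map_add, hV, hV', smul_add]⟩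
  · rw [map_add, map_add, h2, h2', smul_add]

theorem J1_good_smul {Q : Type} [Ring Q] [Algebra k[X] Q] {M : ℕ} (f : A →+* Q)
    (hf : IsScale k M f) (m j : ℕ) (w : Q) (m' : ℕ) {T : TP k[X] A (j + 1)} (r : k[X])
    (h : J1_good f hf m j w m' T) :
    J1_good f hf m j w m' (r • T) := by
  intro i hi hM
  obtain ⟨h1, V2, h2⟩ := h i hi hM
  refine ⟨fun v => ?_, sig k M r • V2, ?_⟩
  · obtain ⟨V, hV⟩ := h1 v
    exact ⟨sig k M r • V, by rw [LinearMap.map_smulₛₗ, map_smul, hV, smul_comm]⟩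
  · rw [LinearMap.map_smulₛₗ, map_smul, h2, smul_comm]

theorem J1_con1_smulR {R : Type} [CommRing R] {B : Type} [Ring B] [Algebra R B] (r : R)
    (v w : B) (n i : ℕ) (T : TP R B (n + 1)) :
    TP.con1 (r • v) w n i T = r • TP.con1 v w n i T := by
  induction T using TP.succ_induction with
  | h0 => simp
  | hc a t => rw [TP.con1_cons, TP.con1_cons, mul_smul_comm, smul_assoc]
  | ha x y hx hy => rw [map_add, map_add, hx, hy, smul_add]

theorem J1_lift (hπ : IsQC k π) {Q : Type} [Ring Q] [Algebra k[X] Q] {S : Type} [CommRing S]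
    [Algebra k S] {πQ : Q →+* S} (hQ : IsQC k πQ) {M : ℕ} (f : A →+* Q) (hf : IsScale k M f)
    (m j : ℕ) (w : Q) (W : Submodule k (TP k Γ j))
    (IH : ∀ i ≤ j, (j - i) * m ≤ M → ∀ U : TP k[X] A j, resT hπ j U ∈ W →
      ∃ V : TP k[X] Q i, TP.con w j i (mapX f hf j U) = (tX k) ^ ((j - i) * m) • V) :
    ∀ (m' : ℕ) (s : TP k Γ (j + 1)), s ∈ DW W m' →
      ∃ T : TP k[X] A (j + 1), resT hπ (j + 1) T = s ∧ J1_good f hf m j w m' T := by
  have hsm : ∀ (m' : ℕ) (c : k) (s : TP k Γ (j + 1)),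
      (∃ T : TP k[X] A (j + 1), resT hπ (j + 1) T = s ∧ J1_good f hf m j w m' T) →
      ∃ T : TP k[X] A (j + 1), resT hπ (j + 1) T = c • s ∧ J1_good f hf m j w m' T := by
    rintro m' c s ⟨T, hT, hg⟩
    refine ⟨Polynomial.C c • T, ?_, J1_good_smul f hf m j w m' _ hg⟩
    rw [LinearMap.map_smulₛₗ, hT]
    congr 1
    simp [ev0]
  have hadd : ∀ (m' : ℕ) (s s' : TP k Γ (j + 1)),
      (∃ T : TP k[X] A (j + 1), resT hπ (j + 1) T = s ∧ J1_good f hf m j w m' T) →
      (∃ T : TP k[X] A (j + 1), resT hπ (j + 1) T = s' ∧ J1_good f hf m j w m' T) →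
      ∃ T : TP k[X] A (j + 1), resT hπ (j + 1) T = s + s' ∧ J1_good f hf m j w m' T := by
    rintro m' s s' ⟨T, hT, hg⟩ ⟨T', hT', hg'⟩
    exact ⟨T + T', by rw [map_add, hT, hT'], J1_good_add f hf m j w m' hg hg'⟩
  have hzero : ∀ m' : ℕ,
      ∃ T : TP k[X] A (j + 1), resT hπ (j + 1) T = 0 ∧ J1_good f hf m j w m' T := by
    intro m'
    refine ⟨0, map_zero _, fun i _ _ => ⟨fun v => ⟨0, ?_⟩, 0, ?_⟩⟩
    · rw [map_zero, map_zero, smul_zero]
    · rw [map_zero, map_zero, smul_zero]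
  intro m'
  induction m' with
  | zero =>
    intro s hs
    induction hs using Submodule.span_induction with
    | mem x hx =>
      obtain ⟨a, u, hu, rfl⟩ := hx
      obtain ⟨α, rfl⟩ := hπ.surj a
      obtain ⟨U, rfl⟩ := resT_surj hπ j u
      refine ⟨TP.cons α U, resT_cons hπ j α U, ?_⟩
      intro i hi hM
      obtain ⟨V, hV⟩ := IH i hi hM U hu
      have hmap : mapX f hf (j + 1) (TP.cons α U) = TP.cons (f α) (mapX f hf j U) :=
        TP.map_cons _ _ _ _ _ _
      refine ⟨fun v => ⟨(f α * v) • V, ?_⟩, TP.cons (f α) V, ?_⟩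
      · rw [hmap, TP.con1_cons, hV, zero_add, smul_comm]
      · rw [hmap, TP.con2_cons, hV, TP.cons_smulR]
    | zero => exact hzero 0
    | add x y _ _ hx hy => exact hadd 0 x y hx hy
    | smul c x _ hx => exact hsm 0 c x hx
  | succ m' ih =>
    intro s hs
    induction hs using Submodule.span_induction with
    | mem x hx =>
      obtain ⟨b, y, hy, rfl⟩ := hx
      obtain ⟨β, rfl⟩ := hπ.surj b
      obtain ⟨T, hT, hg⟩ := ih y hy
      refine ⟨TP.del β j T, ?_, ?_⟩
      · rw [← hT]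
        exact TP.map_del _ _ _ _ _ _
      · intro i hi hM
        obtain ⟨h1, V2, h2⟩ := hg i hi hM
        have hmap : mapX f hf (j + 1) (TP.del β j T) = TP.del (f β) j (mapX f hf (j + 1) T) :=
          TP.map_del _ _ _ _ _ _
        refine ⟨fun v => ?_, TP.del (f β) i V2, ?_⟩
        · obtain ⟨c, hc⟩ := J1_comm hQ (f β) v
          obtain ⟨V, hV⟩ := h1 c
          refine ⟨V, ?_⟩
          rw [hmap, TP.con1_del, hc, J1_con1_smulR, hV, smul_smul, ← pow_succ']
          congr 2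
          omega
        · rw [hmap, TP.con2_del, h2, map_smul]
    | zero => exact hzero _
    | add x y _ _ hx hy => exact hadd _ x y hx hy
    | smul c x _ hx => exact hsm _ c x hx

/-- (J1) -/
theorem J1 (hπ : IsQC k π) {Q : Type} [Ring Q] [Algebra k[X] Q] {S : Type} [CommRing S]
    [Algebra k S] {πQ : Q →+* S} (hQ : IsQC k πQ) {M : ℕ} (f : A →+* Q) (hf : IsScale k M f)
    (m j i : ℕ) (hij : i ≤ j) (hM : (j - i) * m ≤ M) (T : TP k[X] A j)
    (hT : resT hπ j T ∈ JJ k Γ m j) (w : Q) :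
    ∃ V : TP k[X] Q i, TP.con w j i (mapX f hf j T) = (tX k) ^ ((j - i) * m) • V := by
  induction j generalizing i with
  | zero =>
    obtain rfl : i = 0 := by omega
    exact ⟨_, by rw [Nat.sub_self, zero_mul, pow_zero, one_smul]⟩
  | succ j IH =>
    rcases Nat.lt_or_ge j i with hlt | hle
    · obtain rfl : i = j + 1 := by omega
      exact ⟨_, by rw [Nat.sub_self, zero_mul, pow_zero, one_smul]⟩
    · have hM0 : (j - i) * m ≤ M := le_trans (Nat.mul_le_mul_right m (by omega)) hM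
      obtain ⟨T', hT', hg⟩ := J1_lift hπ hQ f hf m j w (JJ k Γ m j)
        (fun i hi hM U hU => IH i hi hM U hU) m _ (JJ_le_DW m j hT)
      obtain ⟨T0, hT0⟩ := resT_ker hπ (j + 1) (T - T') (by rw [map_sub, hT', sub_self])
      have hTeq : T = T' + tX k • T0 := by rw [← hT0]; abel
      have hsig : sig k M (tX k) = (tX k) ^ M := by simp [sig]
      have hmain : ∃ V : TP k[X] Q i, TP.con w (j + 1) i (mapX f hf (j + 1) T') =
          (tX k) ^ ((j + 1 - i) * m) • V := by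
        rcases i with _ | i
        · obtain ⟨h1, -⟩ := hg 0 (Nat.zero_le _) hM0
          obtain ⟨V, hV⟩ := h1 w
          refine ⟨V, ?_⟩
          rw [TP.con_eq_con1, hV]
          congr 2
          rw [Nat.sub_zero, Nat.sub_zero, add_mul, one_mul, add_comm]
        · obtain ⟨h1, -⟩ := hg (i + 1) hle hM0
          obtain ⟨V, hV⟩ := h1 w
          obtain ⟨-, V2, h2⟩ := hg i (by omega) (by
            have : j + 1 - (i + 1) = j - i := by omega
            rw [this] at hM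
            exact hM)
          refine ⟨V2 + V, ?_⟩
          have e1 : m + (j - (i + 1)) * m = (j - i) * m := by
            obtain ⟨c, hc⟩ : ∃ c, j - i = c + 1 := ⟨j - i - 1, by omega⟩
            have : j - (i + 1) = c := by omega
            rw [this, hc, add_mul, one_mul, add_comm]
          have e2 : j + 1 - (i + 1) = j - i := by omega
          rw [TP.con_eq_con12, h2, hV, e1, e2, smul_add]
      obtain ⟨V, hV⟩ := hmain
      refine ⟨V + (tX k) ^ (M - (j + 1 - i) * m) • TP.con w (j + 1) i (mapX f hf (j + 1) T0), ?_⟩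
      rw [hTeq, map_add, LinearMap.map_smulₛₗ, map_add, map_smul, hsig, hV, smul_add, smul_smul,
        ← pow_add, Nat.add_sub_of_le hM]

end C74
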