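import Pool.Agent.MP_35f30a_al.C74.RES1
import Pool.Agent.MP_35f30a_al.C74.FLT

/-!
ROW RES2.  Regularity of `X` on the tensors, `T_n(A) ⊆ T_n(A[1/X])`.  Blueprint section 0.

`A` is flat over `k[X]` (`flat_of_comp`; `XReg` is `IsQC.reg`), so is every `T_n(A)` (tensor products of flat
modules; induction through `TPo`), so `X` is regular on it.  `ιT_injective` by induction:
`A ⊗ T_n(A) → A[1/X] ⊗ T_n(A)` is injective (`T_n(A)` flat, `Fr.ι_injective`) and
`A[1/X] ⊗ T_n(A) → A[1/X] ⊗ T_n(A[1/X])` is injective (`A[1/X]` is a localisation of `A`, so flat: it is a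
localized module of a flat module, or torsion free over the PID `k[X]`).
-/

set_option autoImplicit false

open scoped TensorProduct Polynomial

namespace C74

variable {k : Type} [Field k]
variable {A : Type} [Ring A] [Algebra k[X] A] {S : Type} [CommRing S] [Algebra k S] {π : A →+* S}

/-- `T_n(A)` is flat if `A` is -/
theorem RES2_flat {B : Type} [Ring B] [Algebra k[X] B] [Module.Flat k[X] B] (n : ℕ) :
    Module.Flat k[X] (TP k[X] B n) := by
  induction n with
  | zero => exact (inferInstance : Module.Flat k[X] B)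
  | succ n ih =>
    have : Module.Flat k[X] (TPo k[X] B n).M := ih
    exact (inferInstance : Module.Flat k[X] (B ⊗[k[X]] (TPo k[X] B n).M))

theorem TP_reg (hπ : IsQC k π) (hc : IsComp k A) (n : ℕ) : XReg k (TP k[X] A n) := by
  have : Module.Flat k[X] A := flat_of_comp hπ.reg hc
  have := RES2_flat (k := k) (B := A) n
  intro m hm
  have h1 : IsSMulRegular (TP k[X] A n) (tX k) :=
    Module.Flat.isSMulRegular_of_isRegular (IsRegular.of_ne_zero Polynomial.X_ne_zero)
  apply h1
  change tX k • m = tX k • (0 : TP k[X] A n)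
  rw [hm, smul_zero]

/-- `A[1/X]` is flat -/
theorem RES2_flatFr (hr : XReg k A) (hc : IsComp k A) : Module.Flat k[X] (Fr k A) := by
  rw [Module.Flat.flat_iff_torsion_eq_bot_of_isBezout, eq_bot_iff]
  intro d hd
  rw [Submodule.mem_torsion_iff] at hd
  obtain ⟨⟨p, hp⟩, h⟩ := hd
  have h' : p • d = 0 := h
  obtain ⟨a, n, ha⟩ := Fr.exists_mk d
  have h1 : (Fr.ι (p • a) : Fr k A) = 0 := by
    rw [map_smul, ← ha, smul_comm, h', smul_zero]
  have h2 : p • a = 0 := Fr.ι_injective hr (by rw [h1, map_zero])
  have h3 : a = 0 := FLT_tf hr hc p (nonZeroDivisors.ne_zero hp) a h2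
  rw [h3, map_zero] at ha
  rw [Submodule.mem_bot]
  have h4 : (Fr.tz n : Fr k A) * d = 0 := by
    rw [Fr.tz_nat, ← Algebra.smul_def, ha]
  calc d = Fr.tz (-n) * (Fr.tz n * d) := by rw [← mul_assoc, Fr.tz_neg_mul, one_mul]
    _ = 0 := by rw [h4, mul_zero]

theorem ιT_injective (hπ : IsQC k π) (hc : IsComp k A) (n : ℕ) :
    Function.Injective (ιT k A n) := by
  have hA : Module.Flat k[X] A := flat_of_comp hπ.reg hc
  have hF : Module.Flat k[X] (Fr k A) := RES2_flatFr hπ.reg hc
  induction n with
  | zero =>
    intro x y h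
    exact Fr.ι_injective (k := k) hπ.reg h
  | succ n ih =>
    have h1 : Module.Flat k[X] (TPo k[X] A n).M := RES2_flat n
    let i : (TPo k[X] A n).M →ₗ[k[X]] (TPo k[X] (Fr k A) n).M := ιT k A n
    have hi : Function.Injective i := ih
    let j : A →ₗ[k[X]] Fr k A := (Fr.ι : A →ₐ[k[X]] Fr k A).toLinearMap
    have hj : Function.Injective j := Fr.ι_injective (k := k) hπ.reg
    have h2 : Function.Injective (TensorProduct.map j i) := by
      have e : TensorProduct.map j i = (LinearMap.lTensor (Fr k A) i) ∘ₗ
          (LinearMap.rTensor (TPo k[X] A n).M j) := by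
        rw [LinearMap.lTensor_comp_rTensor]
      rw [e, LinearMap.coe_comp]
      exact (Module.Flat.lTensor_preserves_injective_linearMap i hi).comp
        (Module.Flat.rTensor_preserves_injective_linearMap j hj)
    have h3 : ∀ x : A ⊗[k[X]] (TPo k[X] A n).M,
        (ιT k A (n + 1) (x : TP k[X] A (n + 1)) : TP k[X] (Fr k A) (n + 1)) =
          TensorProduct.map j i x := by
      intro x
      induction x using TensorProduct.induction_on with
      | zero =>
        rw [map_zero]
        exact map_zero (ιT k A (n + 1))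
      | tmul a t =>
        rw [TensorProduct.map_tmul]
        exact TP.map_cons _ _ _ n a t
      | add x y hx hy =>
        rw [map_add, ← hx, ← hy]
        exact map_add (ιT k A (n + 1)) x y
    intro x y h
    apply h2
    exact (h3 x).symm.trans (h.trans (h3 y))

end C74
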