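import Pool.Agent.MP_35f30a_al.C74.J1
import Pool.Agent.MP_35f30a_al.C74.RES2
import Pool.Agent.MP_35f30a_al.C74.OR3

/-!
ROW J1X.  (J1x).  Blueprint section 2.5.

Induction on `j`.  `j = 0`: `JJ_one` and `hlin` (`T_0 = Q`, `resT V = πQ u`).
Step, `T ∈ T_{j+2}(A)`; `s := resT T ∈ JJ m (j+2) = Dm m (j+1) ⊓ span{a ⊗ u | u ∈ JJ m (j+1)}`.
Write `s` in both ways (`Dm_eq_glue`): `s = Σ glue U_b y_b`, `U_b ∈ Dm m 0`, and `s = Σ a_l ⊗ T_l`, `T_l ∈ JJ m (j+1)`.
`C_{j+2,j+1}(w0)(a ⊗ u) = a ⊗ C_{j+1,j}(w0) u + (a w0) • u`; call the two parts `C'` and `C''`.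
* `C''(glue U y) = cons (ev w0 U) y`; lifting, `C''(f T) = X^m V''`, `V̄'' = Σ cons (λ(U_b)) (y_b)` where `λ(U)` is the
  linear form `πQ u` of `hlin` (`mod X^M` terms vanish as `m < M`);
* `C'(f T) = X^m V'`, `V̄' = Σ cons (C a_l) (V̄_l)`, `V_l` from the induction hypothesis / `J1` for `T_l`.
So `V = V' + V''` (`X^m` can be cancelled, `TP_reg`).  Suppose `V̄ = 0` in `T_{j+1}(MvPolynomial Λ Γ)`.  Apply in slot `0` the
projection to the degree `1` part, resp. the degree `0` part: `V̄'' = 0` and `V̄' = 0`.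
* `V̄'' = 0`: choose the `y_b` `k`-linearly independent; `T_j(Γ) → T_j(MvPolynomial Λ Γ)` is injective
  (`map_injective_field`), so all `λ(U_b) = 0`, `U_b ∈ Dm (m+1) 0`, `s ∈ Dm (m+1) (j+1)`.
* `V̄' = 0`: choose the `a_l` `k`-independent; all `V̄_l = 0`, so `T_l ∈ JJ (m+1) (j+1)` by the induction hypothesis.
Hence `s ∈ JJ (m+1) (j+2)`, a contradiction.
-/

set_option autoImplicit false

open scoped TensorProduct Polynomial

namespace C74

section auxgen

variable {R : Type} [CommRing R] {A : Type} [Ring A] [Algebra R A]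
variable {R' : Type} [CommRing R'] {A' : Type} [Ring A'] [Algebra R' A']

theorem J1X_map_glue (σ : R →+* R') (φ : A →+* A')
    (h : ∀ r, φ (algebraMap R A r) = algebraMap R' A' (σ r)) (j : ℕ) (U : TP R A 1)
    (y : TP R A j) :
    TP.map σ φ h (j + 2) (glue j U y) = glue j (TP.map σ φ h 1 U) (TP.map σ φ h j y) := by
  induction U using TP.succ_induction with
  | h0 => simp
  | hc a t =>
    have key : ∀ b : A, TP.map σ φ h (j + 2) (glue j (TP.cons a (TP.ofA b)) y) =
        glue j (TP.map σ φ h 1 (TP.cons a (TP.ofA b))) (TP.map σ φ h j y) := by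
      intro b
      rw [glue_cons, TP.map_cons, TP.map_cons, TP.map_cons, TP.map_zero_apply, glue_cons,
        TP.toA_ofA]
    exact key (TP.toA t)
  | ha x z hx hz => simp only [map_add, LinearMap.add_apply, hx, hz]

theorem J1X_con1_glue (w : A) (j : ℕ) (U : TP R A 1) (y : TP R A j) :
    TP.con1 w w (j + 1) (j + 1) (glue j U y) = TP.cons (TP.ev w U) y := by
  induction U using TP.succ_induction with
  | h0 => simp [TP.ev]
  | hc a t =>
    have key : ∀ b : A, TP.con1 w w (j + 1) (j + 1) (glue j (TP.cons a (TP.ofA b)) y) =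
        TP.cons (TP.ev w (TP.cons a (TP.ofA (R := R) b))) y := by
      intro b
      rw [glue_cons, TP.con1_cons, TP.con_self, TP.smul_cons, TP.ev, TP.con_succ_zero,
        TP.con_zero_zero, TP.toA_smul, TP.toA_ofA]
    exact key (TP.toA t)
  | ha x z hx hz =>
    rw [map_add, LinearMap.add_apply, map_add, hx, hz, ← TP.add_cons]
    congr 1
    simp [TP.ev]

end auxgen

section auxk

variable {k : Type} [Field k] {E : Type} [Ring E] [Algebra k E]

/-- a vanishing combination with independent right factors -/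
theorem J1X_right (j : ℕ) {n : ℕ} (p : Fin n → E) (y : Fin n → TP k E j)
    (hy : LinearIndependent k y) (h : ∑ b, TP.cons (p b) (y b) = 0) (b : Fin n) : p b = 0 := by
  classical
  obtain ⟨ψ, hψ⟩ := LinearMap.exists_extend ((Module.Basis.span hy).coord b)
  have hψ' : ∀ c, ψ (y c) = if c = b then 1 else 0 := by
    intro c
    have h1 := congrArg (fun g => g ((Module.Basis.span hy) c)) hψ
    simp only [LinearMap.comp_apply, Module.Basis.coord_apply, Module.Basis.repr_self] at h1
    have h2 : ((Submodule.span k (Set.range y)).subtype ((Module.Basis.span hy) c)) = y c := by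
      rw [Submodule.subtype_apply, Module.Basis.span_apply]
    rw [h2] at h1
    rw [h1, Finsupp.single_apply]
  let F : TP k E (j + 1) →ₗ[k] E := TP.lift (LinearMap.mk₂ k (fun a t => ψ t • a)
    (fun a a' t => by rw [smul_add])
    (fun r a t => by rw [smul_comm])
    (fun a t t' => by rw [map_add, add_smul])
    (fun r a t => by rw [map_smul, smul_eq_mul, mul_smul]))
  have hF : ∀ a t, F (TP.cons a t) = ψ t • a := fun a t => TP.lift_cons _ _ _
  have h3 := congrArg F h
  rw [map_sum, map_zero] at h3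
  simp only [hF, hψ'] at h3
  simpa using h3

end auxk

section auxP

variable {k : Type} [Field k] {Γ : Type} [Field Γ] [Algebra k Γ] {Λ : Type}

theorem J1X_hC : ∀ r : k, (MvPolynomial.C : Γ →+* MvPolynomial Λ Γ) (algebraMap k Γ r) =
    algebraMap k (MvPolynomial Λ Γ) ((RingHom.id k) r) := by
  intro r
  rw [RingHom.id_apply]
  exact (MvPolynomial.algebraMap_apply (σ := Λ) (R := k) (S₁ := Γ) r).symm

/-- projection to the degree `0` part in slot `0` -/
noncomputable def J1X_P (k : Type) [Field k] (Γ : Type) [Field Γ] [Algebra k Γ] (Λ : Type)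
    (j : ℕ) : TP k (MvPolynomial Λ Γ) (j + 1) →ₗ[k] TP k (MvPolynomial Λ Γ) (j + 1) :=
  TP.lift (LinearMap.mk₂ k (fun a t => TP.cons (MvPolynomial.C (MvPolynomial.coeff 0 a)) t)
    (fun a a' t => by rw [MvPolynomial.coeff_add, map_add, TP.add_cons])
    (fun r a t => by
      rw [← TP.smulR_cons]
      congr 1
      rw [MvPolynomial.coeff_smul, Algebra.smul_def, map_mul, Algebra.smul_def]
      rfl)
    (fun a t t' => by rw [TP.cons_add])
    (fun r a t => by rw [TP.cons_smulR]))

lemma J1X_P_cons (j : ℕ) (a : MvPolynomial Λ Γ) (t : TP k (MvPolynomial Λ Γ) j) :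
    J1X_P k Γ Λ j (TP.cons a t) = TP.cons (MvPolynomial.C (MvPolynomial.coeff 0 a)) t :=
  TP.lift_cons _ _ _

end auxP

variable {k : Type} [Field k]
variable {A : Type} [Ring A] [Algebra k[X] A] {Γ : Type} [Field Γ] [Algebra k Γ] {π : A →+* Γ}

theorem J1X_res_map (hπ : IsQC k π) {Q : Type} [Ring Q] [Algebra k[X] Q] {Λ : Type}
    {πQ : Q →+* MvPolynomial Λ Γ} (hQ : IsQC k πQ) {M : ℕ} (f : A →+* Q)
    (hf : IsScale k M f) (hfr : ∀ a, πQ (f a) = MvPolynomial.C (π a)) (n : ℕ) (T : TP k[X] A n) :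
    resT hQ n (mapX f hf n T) =
      TP.map (RingHom.id k) (MvPolynomial.C : Γ →+* MvPolynomial Λ Γ) J1X_hC n (resT hπ n T) := by
  induction n with
  | zero =>
    show TP.ofA (πQ (f (TP.toA T))) = TP.ofA (MvPolynomial.C (π (TP.toA T)))
    rw [hfr]
  | succ n ih =>
    induction T using TP.succ_induction with
    | h0 => simp
    | hc a t =>
      rw [mapX, TP.map_cons, resT_cons, resT_cons, TP.map_cons, hfr, ← ih]
      rfl
    | ha x y hx hy => rw [map_add, map_add, map_add, map_add, hx, hy]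

/-- (J1x) -/
theorem J1x (hπ : IsQC k π) {Q : Type} [Ring Q] [Algebra k[X] Q] {Λ : Type}
    {πQ : Q →+* MvPolynomial Λ Γ} (hQ : IsQC k πQ) (hcQ : IsComp k Q) {M : ℕ} (f : A →+* Q)
    (hf : IsScale k M f) (hfr : ∀ a, πQ (f a) = MvPolynomial.C (π a)) (w0 : Q) (m : ℕ) (hm : m < M)
    (hlin : ∀ T : TP k[X] A 1, resT hπ 1 T ∈ Dm k Γ m 0 →
        ∃ u : Q, TP.ev w0 (mapX f hf 1 T) = (tX k) ^ m • u ∧ (πQ u).IsHomogeneous 1 ∧
          (πQ u = 0 ↔ resT hπ 1 T ∈ Dm k Γ (m + 1) 0))
    (j : ℕ) (T : TP k[X] A (j + 1)) (hT : resT hπ (j + 1) T ∈ JJ k Γ m (j + 1))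
    (hT' : resT hπ (j + 1) T ∉ JJ k Γ (m + 1) (j + 1)) :
    ∃ V : TP k[X] Q j, TP.con w0 (j + 1) j (mapX f hf (j + 1) T) = (tX k) ^ m • V ∧
      resT hQ j V ≠ 0 := by
  classical
  have hsigX : sig k M (tX k) = (tX k) ^ M := Polynomial.expand_X M
  have hmapXX : ∀ (n : ℕ) (S : TP k[X] A n), mapX f hf n (tX k • S) = (tX k) ^ M • mapX f hf n S := by
    intro n S
    rw [LinearMap.map_smulₛₗ, hsigX]
  have hMm : (tX k) ^ M = (tX k) ^ m * (tX k * (tX k) ^ (M - m - 1)) := by
    rw [← pow_succ', ← pow_add]; congr 1; omega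
  induction j with
  | zero =>
    have hT1 : resT hπ 1 T ∈ Dm k Γ m 0 := by rw [← JJ_one]; exact hT
    obtain ⟨u, hu1, hu2, hu3⟩ := hlin T hT1
    refine ⟨TP.ofA u, ?_, ?_⟩
    · exact hu1
    · intro h0
      have h00 : πQ u = 0 := h0
      exact hT' (by rw [JJ_one]; exact hu3.1 h00)
  | succ j ih =>
    set s := resT hπ (j + 2) T with hs
    have hsD : s ∈ Dm k Γ m (j + 1) := hT.1
    have hsS : s ∈ Submodule.span k {z | ∃ (a : Γ) (u : TP k Γ (j + 1)),
      u ∈ JJ k Γ m (j + 1) ∧ z = TP.cons a u} := hT.2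
    -- the part `C''`
    obtain ⟨n, U, y, hy, hsU⟩ := exists_glue j s
    have hU : ∀ b, U b ∈ Dm k Γ m 0 := by
      rw [Dm_eq_glue, hsU] at hsD
      exact (glue_mem_iff j U y hy _).1 hsD
    choose UU hUU using fun b => resT_surj hπ 1 (U b)
    choose YY hYY using fun b => resT_surj hπ j (y b)
    have hres0 : resT hπ (j + 2) (T - ∑ b, glue j (UU b) (YY b)) = 0 := by
      rw [map_sub, map_sum, ← hs, sub_eq_zero, hsU]
      apply Finset.sum_congr rfl
      intro b _
      rw [← hUU b, ← hYY b]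
      exact (J1X_map_glue _ _ _ j _ _).symm
    obtain ⟨T0, hT0⟩ := resT_ker hπ (j + 2) _ hres0
    have hT0' : T = (∑ b, glue j (UU b) (YY b)) + tX k • T0 := by rw [← hT0]; abel
    have hlin' : ∀ b, ∃ u : Q, TP.ev w0 (mapX f hf 1 (UU b)) = (tX k) ^ m • u ∧
        (πQ u).IsHomogeneous 1 ∧ (πQ u = 0 ↔ U b ∈ Dm k Γ (m + 1) 0) := by
      intro b
      have := hlin (UU b) (by rw [hUU]; exact hU b)
      rwa [hUU] at this
    choose u hu1 hu2 hu3 using hlin'
    have hC2 : TP.con1 w0 w0 (j + 1) (j + 1) (mapX f hf (j + 2) T) = (tX k) ^ m •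
        ((∑ b, TP.cons (u b) (mapX f hf j (YY b))) + tX k • ((tX k) ^ (M - m - 1) •
          TP.con1 w0 w0 (j + 1) (j + 1) (mapX f hf (j + 2) T0))) := by
      rw [hT0', map_add, map_sum, hmapXX, map_add, map_sum, map_smul, smul_add, hMm, mul_smul,
        mul_smul, Finset.smul_sum]
      congr 1
      apply Finset.sum_congr rfl
      intro b _
      rw [← TP.smulR_cons, ← hu1 b, ← J1X_con1_glue]
      congr 1
      exact J1X_map_glue _ _ _ j _ _
    -- the part `C'`
    obtain ⟨n', a, t, ha, hsa⟩ := exists_cons (j + 1) s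
    have ht : ∀ l, t l ∈ JJ k Γ m (j + 1) := by
      rw [hsa] at hsS
      exact (cons_mem_iff (j + 1) a ha t _).1 hsS
    choose AA hAA using fun l => hπ.surj (a l)
    choose TT hTT using fun l => resT_surj hπ (j + 1) (t l)
    have hres1 : resT hπ (j + 2) (T - ∑ l, TP.cons (AA l) (TT l)) = 0 := by
      rw [map_sub, map_sum, ← hs, sub_eq_zero, hsa]
      apply Finset.sum_congr rfl
      intro l _
      rw [resT_cons, hAA, hTT]
    obtain ⟨T1, hT1⟩ := resT_ker hπ (j + 2) _ hres1
    have hT1' : T = (∑ l, TP.cons (AA l) (TT l)) + tX k • T1 := by rw [← hT1]; abel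
    have hV : ∀ l, ∃ V : TP k[X] Q j, TP.con w0 (j + 1) j (mapX f hf (j + 1) (TT l)) =
        (tX k) ^ m • V ∧ (resT hQ j V = 0 → t l ∈ JJ k Γ (m + 1) (j + 1)) := by
      intro l
      by_cases htl : t l ∈ JJ k Γ (m + 1) (j + 1)
      · obtain ⟨V, hV⟩ := J1 hπ hQ f hf m (j + 1) j (by omega)
          (by rw [Nat.add_sub_cancel_left, one_mul]; omega) (TT l) (by rw [hTT]; exact ht l) w0
        rw [Nat.add_sub_cancel_left, one_mul] at hV
        exact ⟨V, hV, fun _ => htl⟩
      · obtain ⟨V, hV1, hV2⟩ := ih (TT l) (by rw [hTT]; exact ht l) (by rw [hTT]; exact htl)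
        exact ⟨V, hV1, fun h => absurd h hV2⟩
    choose V hV1 hV2 using hV
    have hC1 : TP.con2 w0 (j + 1) j (mapX f hf (j + 2) T) = (tX k) ^ m •
        ((∑ l, TP.cons (f (AA l)) (V l)) + tX k • ((tX k) ^ (M - m - 1) •
          TP.con2 w0 (j + 1) j (mapX f hf (j + 2) T1))) := by
      rw [hT1', map_add, map_sum, hmapXX, map_add, map_sum, map_smul, smul_add, hMm, mul_smul,
        mul_smul, Finset.smul_sum]
      congr 1
      apply Finset.sum_congr rfl
      intro l _
      rw [← TP.cons_smulR, ← hV1 l, ← TP.con2_cons]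
      exact congrArg _ (TP.map_cons _ _ _ _ _ _)
    refine ⟨((∑ l, TP.cons (f (AA l)) (V l)) + tX k • ((tX k) ^ (M - m - 1) •
          TP.con2 w0 (j + 1) j (mapX f hf (j + 2) T1))) +
        ((∑ b, TP.cons (u b) (mapX f hf j (YY b))) + tX k • ((tX k) ^ (M - m - 1) •
          TP.con1 w0 w0 (j + 1) (j + 1) (mapX f hf (j + 2) T0))), ?_, ?_⟩
    · rw [TP.con_eq_con12, hC1, hC2]
      exact (smul_add _ _ _).symm
    · intro h0
      rw [map_add, map_add, map_add, resT_X, resT_X, add_zero, add_zero, map_sum, map_sum] at h0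
      have e1 : ∀ l, resT hQ (j + 1) (TP.cons (f (AA l)) (V l)) =
          TP.cons (MvPolynomial.C (a l)) (resT hQ j (V l)) := by
        intro l
        rw [resT_cons, hfr, hAA]
      have e2 : ∀ b, resT hQ (j + 1) (TP.cons (u b) (mapX f hf j (YY b))) =
          TP.cons (πQ (u b)) (TP.map (RingHom.id k) (MvPolynomial.C : Γ →+* MvPolynomial Λ Γ)
            J1X_hC j (y b)) := by
        intro b
        rw [resT_cons, J1X_res_map hπ hQ f hf hfr, hYY]
      simp only [e1, e2] at h0
      have h1 := congrArg (J1X_P k Γ Λ j) h0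
      rw [map_add, map_sum, map_sum, map_zero] at h1
      have e3 : ∀ b, MvPolynomial.coeff 0 (πQ (u b)) = 0 := by
        intro b
        by_contra hne
        have := hu2 b hne
        simp at this
      simp only [J1X_P_cons, e3, MvPolynomial.coeff_zero_C, map_zero, TP.zero_cons,
        Finset.sum_const_zero, add_zero] at h1
      rw [h1, zero_add] at h0
      apply hT'
      refine ⟨?_, ?_⟩
      · rw [hsU, Dm_eq_glue]
        refine (glue_mem_iff j U y hy _).2 (fun b => (hu3 b).1 ?_)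
        refine J1X_right j _ _ ?_ h0 b
        have := hy.map' (TP.map (RingHom.id k) (MvPolynomial.C : Γ →+* MvPolynomial Λ Γ) J1X_hC j)
          (LinearMap.ker_eq_bot.2 (TP.map_injective_field _ _ (MvPolynomial.C_injective _ _) j))
        exact this
      · rw [hsa]
        refine (cons_mem_iff (j + 1) a ha t _).2 (fun l => hV2 l ?_)
        refine cons_eq_zero j (fun l => (MvPolynomial.C (a l) : MvPolynomial Λ Γ)) ?_ _ h1 l
        let Cl : Γ →ₗ[k] MvPolynomial Λ Γ :=
          { toFun := fun a => MvPolynomial.C a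
            map_add' := fun x y => map_add _ x y
            map_smul' := fun r x => by
              rw [Algebra.smul_def, map_mul, Algebra.smul_def]; rfl }
        exact ha.map' Cl (LinearMap.ker_eq_bot.2 (MvPolynomial.C_injective _ _))

end C74
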