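import Pool.Agent.MP_35f30a_al.C74.Ord

/-!
Definitions (no row): peeling functionals, tensors with components in a subspace.
-/

set_option autoImplicit false

open scoped TensorProduct Polynomial

namespace C74

variable {k : Type} [Field k]

/-- `a ⊗ b ⊗ y ↦ Ψ(y) a ⊗ b` -/
noncomputable def psi2 {D : Type} [Ring D] [Algebra k D] (j : ℕ) (Ψ : TP k D j →ₗ[k] k) :
    TP k D (j + 2) →ₗ[k] TP k D 1 :=
  TP.lift (LinearMap.mk₂ k (fun a t => TP.cons a
      (TP.lift (LinearMap.mk₂ k (fun b y => Ψ y • TP.ofA b)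
        (fun b b' y => by rw [map_add, smul_add])
        (fun r b y => by rw [← TP.smulR_ofA, smul_comm])
        (fun b y y' => by rw [map_add, add_smul])
        (fun r b y => by rw [map_smul, smul_eq_mul, mul_smul])) t : TP k D 0))
    (fun a a' t => by rw [TP.add_cons])
    (fun r a t => by rw [TP.smulR_cons])
    (fun a t t' => by rw [map_add, TP.cons_add])
    (fun r a t => by rw [map_smul, TP.cons_smulR]))

/-- `a ⊗ y ↦ Ψ(y) a` -/
noncomputable def psi1 {D : Type} [Ring D] [Algebra k D] (j : ℕ) (Ψ : TP k D j →ₗ[k] k) :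
    TP k D (j + 1) →ₗ[k] TP k D 0 :=
  TP.lift (LinearMap.mk₂ k (fun a y => Ψ y • TP.ofA a)
        (fun b b' y => by rw [map_add, smul_add])
        (fun r b y => by rw [← TP.smulR_ofA, smul_comm])
        (fun b y y' => by rw [map_add, add_smul])
        (fun r b y => by rw [map_smul, smul_eq_mul, mul_smul]))

/-- `a ⊗ t ↦ ψ(a) t` -/
noncomputable def peel {D : Type} [Ring D] [Algebra k D] (j : ℕ) (ψ : D →ₗ[k] k) :
    TP k D (j + 1) →ₗ[k] TP k D j :=
  TP.lift (LinearMap.mk₂ k (fun a t => ψ a • t)
        (fun b b' y => by rw [map_add, add_smul])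
        (fun r b y => by rw [map_smul, smul_eq_mul, mul_smul])
        (fun b y y' => by rw [smul_add])
        (fun r b y => by rw [smul_comm]))

/-- tensors all of whose components lie in the subspace `E` -/
noncomputable def TE {D : Type} [Ring D] [Algebra k D] (E : Submodule k D) :
    (j : ℕ) → Submodule k (TP k D j)
  | 0 => E
  | j + 1 => Submodule.span k {z | ∃ a ∈ E, ∃ u ∈ TE E j, z = TP.cons a u}

end C74
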