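import Pool.Agent.MP_35f30a_al.C74.TPL1

/-!
ROW TPL2.  The Taylor law.  Blueprint section 0.

`con_add` by induction on `l`.  For `T = cons a t`:
`con w (l+1) 0 (cons a t) = (a*w) • con w l 0 t`, and for `j'+1`
`con w (l+1) (j'+1) (cons a t) = cons a (con w l j' t) + (a*w) • con w l (j'+1) t`.  So
`Σ_{j ≤ l+1} con w' j i (con w (l+1) j T)
   = (a*w) • Σ_{j ≤ l} con w' j i (con w l j t) + Σ_{j' ≤ l} con w' (j'+1) i (cons a (con w l j' t))`
(`con_smul`; the term `j = l+1` of the first sum vanishes by `con_lt`).  The second sum is, for `i = 0`,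
`(a*w') • con (w+w') l 0 t`, and for `i = i'+1`
`cons a (con (w+w') l i' t) + (a*w') • con (w+w') l (i'+1) t` by the induction hypothesis.
-/

set_option autoImplicit false

open scoped TensorProduct Polynomial

namespace C74
namespace TP

section
variable {R : Type} [CommRing R] {A : Type} [Ring A] [Algebra R A]

/-- `Σ_j C_{j,i}(w') C_{l,j}(w) = C_{l,i}(w+w')` -/
theorem con_add (w w' : A) (l i : ℕ) (T : TP R A l) :
    ∑ j ∈ Finset.range (l + 1), con w' j i (con w l j T) = con (w + w') l i T := by
  induction l generalizing i with
  | zero =>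
    rw [Finset.sum_range_one, con_zero_zero]
    cases i with
    | zero => rfl
    | succ i => rfl
  | succ l ih =>
    induction T using succ_induction with
    | h0 => simp
    | hc a t =>
      rw [Finset.sum_range_succ']
      simp only [con_succ_succ, con_succ_zero, map_add, con_smul]
      rw [Finset.sum_add_distrib, ← Finset.smul_sum]
      have h1 : ∑ j ∈ Finset.range (l + 1), con w' (j + 1) i (con w l (j + 1) t) +
          con w' 0 i (con w l 0 t) = con (w + w') l i t := by
        rw [← ih i t]
        have h2 := Finset.sum_range_succ' (fun j => con w' j i (con w l j t)) (l + 1)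
        rw [← h2, Finset.sum_range_succ _ (l + 1), con_lt w l (l + 1) (by omega), map_zero, add_zero]
      have h3 : ∑ j ∈ Finset.range (l + 1), con w' (j + 1) i (cons a (con w l j t)) +
          (a * w) • con (w + w') l i t = con (w + w') (l + 1) i (cons a t) := by
        cases i with
        | zero =>
          simp only [con_succ_zero]
          rw [← Finset.smul_sum, ih 0 t, mul_add, add_smul, add_comm]
        | succ i =>
          simp only [con_succ_succ]
          rw [Finset.sum_add_distrib, ← Finset.smul_sum, ih (i + 1) t, mul_add, add_smul]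
          have h4 : ∑ j ∈ Finset.range (l + 1), cons a (con w' j i (con w l j t)) =
              cons a (con (w + w') l i t) := by
            rw [← ih i t]
            exact (map_sum (consL (R := R) (A := A) i a) _ _).symm
          rw [h4]
          abel
      rw [← h3, ← h1, smul_add]
      abel
    | ha x y hx hy =>
      simp only [map_add]
      rw [Finset.sum_add_distrib, hx, hy]

/-- the Taylor law -/
theorem tay_tay (d : ℕ) (w w' : A) (g : ∀ j, TP R A j) (i : ℕ) (hi : i ≤ d) :
    tay d w' (tay d w g) i = tay d (w + w') g i := by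
  unfold tay
  simp only [map_sum]
  rw [Finset.sum_comm]
  refine Finset.sum_congr rfl fun l hl => ?_
  rw [Finset.mem_range] at hl
  rw [← con_add]
  symm
  refine Finset.sum_subset ?_ ?_
  · intro x hx
    rw [Finset.mem_range] at hx ⊢
    omega
  · intro x _ hx
    rw [Finset.mem_range] at hx
    rw [con_lt w l x (by omega), map_zero]

theorem tay_zero (d : ℕ) (g : ∀ j, TP R A j) (i : ℕ) (hi : i ≤ d) : tay d 0 g i = g i := by
  unfold tay
  rw [Finset.sum_eq_single i]
  · rw [con_self]
  · intro b _ hb
    exact con_zero b i (fun h => hb h.symm) _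
  · intro h
    exact absurd (Finset.mem_range.2 (by omega)) h

/-- `tay` only depends on `g_0, ..., g_d` -/
theorem tay_congr (d : ℕ) (w : A) (g g' : ∀ j, TP R A j) (h : ∀ j ≤ d, g j = g' j) (i : ℕ) :
    tay d w g i = tay d w g' i := by
  unfold tay
  refine Finset.sum_congr rfl fun j hj => ?_
  rw [Finset.mem_range] at hj
  rw [h j (by omega)]

/-- nothing above `d` -/
theorem tay_gt (d : ℕ) (w : A) (g : ∀ j, TP R A j) (i : ℕ) (hi : d < i) : tay d w g i = 0 := by
  unfold tay
  refine Finset.sum_eq_zero fun j hj => ?_
  rw [Finset.mem_range] at hj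
  exact con_lt w j i (by omega) _

end

end TP
end C74
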