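import Pool.Agent.MP_35f30a_al.C74.KF1
import Pool.Agent.MP_35f30a_al.C74.TPL2
import Pool.Agent.MP_35f30a_al.C74.TEF

/-!
ROW KF2.  Contractions, functionals and the filtration.  Blueprint section 1 (k-tensors, (FUN)).

`kF_con`: induction, `C_{j+1,i}(w)(a ⊗ u) = a ⊗ C_{j,i-1}(w) u + (a w) • C_{j,i}(w) u`.
`kF_con_sub`: by the Taylor law (`TP.con_add`) `C_{j,i}(w+z) T - C_{j,i}(z) T = Σ_{i ≤ l < j} C_{l,i}(z) C_{j,l}(w) T`
(the term `l = j` is `C_{j,i}(z) T`), `C_{j,l}(w) T ∈ kF (n + (j-l) s')`, `(j-l) s' ≤ (j-l-1) s + s'`; then `kF_con` for `z`.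
`peel_kF` etc.: on `a ⊗ u`, `a ∈ lev m`, `u ∈ kF (n-m)`: if `m ≤ v-1` then `ψ a = 0`, else `n - m ≤ n - v`.
For `psi1`, `psi2`: `Ψ y = 0` if `y ∈ kF (v-1)`; otherwise the levels of the other slots are `≤ n - v`.
-/

set_option autoImplicit false

open scoped TensorProduct Polynomial

namespace C74

variable {k : Type} [Field k] {A : Type} [Ring A] [Algebra k[X] A]

/-- crude bound -/
theorem kF_con {j i : ℕ} (hij : i ≤ j) {n s : ℤ} {w : Fr k A} (hw : w ∈ Fr.lev k A s)
    {T : TP k (Fr k A) j} (hT : T ∈ kF k A j n) :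
    TP.con w j i T ∈ kF k A i (n + (j - i : ℕ) * s) := by
  induction j generalizing i n with
  | zero =>
    obtain rfl : i = 0 := by omega
    rw [TP.con_zero_zero]
    simpa using hT
  | succ j ih =>
    refine KF1_kF_induction (P := fun T => TP.con w (j + 1) i T ∈
      kF k A i (n + (j + 1 - i : ℕ) * s)) ?_ ?_ ?_ hT
    · rw [map_zero]; exact Submodule.zero_mem _
    · intro m a u ha hu
      cases i with
      | zero =>
        rw [TP.con_succ_zero]
        have h1 := kF_smul (lev_mul ha hw) (ih (Nat.zero_le _) hu)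
        refine kF_mono (le_of_eq ?_) h1
        simp only [Nat.sub_zero]
        push_cast
        ring
      | succ i =>
        rw [TP.con_succ_succ]
        have e1 : ((j + 1 - (i + 1) : ℕ) : ℤ) = (j : ℤ) - i := by omega
        refine Submodule.add_mem _ ?_ ?_
        · have h1 := kF_cons ha (ih (i := i) (by omega) hu)
          refine kF_mono (le_of_eq ?_) h1
          rw [e1, show ((j - i : ℕ) : ℤ) = (j : ℤ) - i by omega]
          ring
        · rcases Nat.lt_or_ge j (i + 1) with h | h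
          · rw [TP.con_lt w j (i + 1) h, smul_zero]; exact Submodule.zero_mem _
          · have h1 := kF_smul (lev_mul ha hw) (ih h hu)
            refine kF_mono (le_of_eq ?_) h1
            rw [e1, show ((j - (i + 1) : ℕ) : ℤ) = (j : ℤ) - i - 1 by omega]
            ring
    · intro x y hx hy
      rw [map_add]; exact Submodule.add_mem _ hx hy

/-- the difference `C_{j,i}(z+w) - C_{j,i}(z)` is small when `w` is small -/
theorem kF_con_sub {j i : ℕ} (hij : i < j) {n s s' : ℤ} {z w : Fr k A} (hz : z ∈ Fr.lev k A s)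
    (hw : w ∈ Fr.lev k A s') (hs : s' ≤ s) {T : TP k (Fr k A) j} (hT : T ∈ kF k A j n) :
    TP.con (z + w) j i T - TP.con z j i T ∈ kF k A i (n + (j - i - 1 : ℕ) * s + s') := by
  have h1 : TP.con (z + w) j i T = ∑ l ∈ Finset.range (j + 1), TP.con z l i (TP.con w j l T) := by
    rw [TP.con_add, add_comm]
  rw [h1, Finset.sum_range_succ, TP.con_self, add_sub_cancel_right]
  refine Submodule.sum_mem _ ?_
  intro l hl
  rw [Finset.mem_range] at hl
  rcases Nat.lt_or_ge l i with h | h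
  · rw [TP.con_lt z l i h]; exact Submodule.zero_mem _
  · have h2 := kF_con h hz (kF_con (Nat.le_of_lt hl) hw hT)
    refine kF_mono ?_ h2
    obtain ⟨a, rfl⟩ : ∃ a, l = i + a := ⟨l - i, by omega⟩
    obtain ⟨b, rfl⟩ : ∃ b, j = i + a + b + 1 := ⟨j - (i + a) - 1, by omega⟩
    rw [show i + a + b + 1 - (i + a) = b + 1 by omega, show i + a - i = a by omega,
      show i + a + b + 1 - i - 1 = a + b by omega]
    push_cast
    nlinarith [mul_le_mul_of_nonneg_left hs (Int.natCast_nonneg b)]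

/-- (FUN) -/
theorem peel_kF {j : ℕ} {n v : ℤ} (ψ : Fr k A →ₗ[k] k) (hψ : ∀ a ∈ Fr.lev k A (v - 1), ψ a = 0)
    {T : TP k (Fr k A) (j + 1)} (hT : T ∈ kF k A (j + 1) n) : peel j ψ T ∈ kF k A j (n - v) := by
  refine KF1_kF_induction (P := fun T => peel j ψ T ∈ kF k A j (n - v)) ?_ ?_ ?_ hT
  · rw [map_zero]; exact Submodule.zero_mem _
  · intro m a u ha hu
    have e : peel j ψ (TP.cons a u) = ψ a • u := TP.lift_cons _ _ _
    rw [e]
    rcases le_or_gt m (v - 1) with h | h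
    · rw [hψ a (lev_mono h ha), zero_smul]; exact Submodule.zero_mem _
    · exact Submodule.smul_mem _ _ (kF_mono (by omega) hu)
  · intro x y hx hy
    rw [map_add]; exact Submodule.add_mem _ hx hy

theorem psi1_kF {j : ℕ} {n v : ℤ} (Ψ : TP k (Fr k A) j →ₗ[k] k)
    (hΨ : ∀ T ∈ kF k A j (v - 1), Ψ T = 0)
    {T : TP k (Fr k A) (j + 1)} (hT : T ∈ kF k A (j + 1) n) : psi1 j Ψ T ∈ kF k A 0 (n - v) := by
  refine KF1_kF_induction (P := fun T => psi1 j Ψ T ∈ kF k A 0 (n - v)) ?_ ?_ ?_ hT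
  · rw [map_zero]; exact Submodule.zero_mem _
  · intro m a u ha hu
    have e : psi1 j Ψ (TP.cons a u) = Ψ u • TP.ofA a := TP.lift_cons _ _ _
    rw [e]
    rcases le_or_gt (n - m) (v - 1) with h | h
    · rw [hΨ u (kF_mono h hu), zero_smul]; exact Submodule.zero_mem _
    · have ha' : TP.ofA a ∈ kF k A 0 m := ha
      exact Submodule.smul_mem _ _ (kF_mono (by omega) ha')
  · intro x y hx hy
    rw [map_add]; exact Submodule.add_mem _ hx hy

theorem KF2_psi2_cons {D : Type} [Ring D] [Algebra k D] (j : ℕ) (Ψ : TP k D j →ₗ[k] k) (a : D)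
    (t : TP k D (j + 1)) : psi2 j Ψ (TP.cons a t) = TP.cons a (psi1 j Ψ t) :=
  TP.lift_cons _ _ _

theorem psi2_kF {j : ℕ} {n v : ℤ} (Ψ : TP k (Fr k A) j →ₗ[k] k)
    (hΨ : ∀ T ∈ kF k A j (v - 1), Ψ T = 0)
    {T : TP k (Fr k A) (j + 2)} (hT : T ∈ kF k A (j + 2) n) : psi2 j Ψ T ∈ kF k A 1 (n - v) := by
  refine KF1_kF_induction (P := fun T => psi2 j Ψ T ∈ kF k A 1 (n - v)) ?_ ?_ ?_ hT
  · rw [map_zero]; exact Submodule.zero_mem _
  · intro m a u ha hu
    rw [KF2_psi2_cons]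
    have h1 := kF_cons ha (psi1_kF Ψ hΨ hu)
    rwa [show m + (n - m - v) = n - v by ring] at h1
  · intro x y hx hy
    rw [map_add]; exact Submodule.add_mem _ hx hy

end C74
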