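import Pool.Agent.MP_35f30a_al.C74.KF5

/-!
ROW KF6.  Decorated residues of adapted families of tensors are independent.  Blueprint sections 1, 2.1 (d).

`DRes_separate`, induction on `j`.  `j = 0`: `s l = mon (sz l) (b l)`: separate by the degree in `τ`.
`j+1`: take one adapted family `e_a` in `D` (sizes `r_a`, residues `b_a`) spanning all slot-`0` components of all `t l`:
`t l = Σ_a cons e_a t_{a,l}`, `t_{a,l} ∈ kF (sz l - r_a)` (`orth_kF_iff`) with residues `s_{a,l}`,
`s l = Σ_a cons (mon r_a b_a) s_{a,l}` (`DRes_cons`, `DRes_unique`).  `Σ_l s l = 0` gives `Σ_l s_{a,l} = 0` for every `a`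
(`orth_mon_indep`, `cons_eq_zero`); by induction (levels `sz l - r_a`) `Σ_{sz l = m} s_{a,l} = 0` for every `a`, `m`.  Sum up.
`orthT_indep`: a relation `Σ c_l s_l = 0` gives for each `m`: `Σ_{sz l = m} c_l s_l = 0`, the residue of
`Σ_{sz l = m} c_l y_l` at level `m`; by `kF_of_DRes_zero` it is in `kF (m-1)`; adaptedness gives `c_l = 0`.
-/

set_option autoImplicit false

open scoped TensorProduct Polynomial

namespace C74

variable {k : Type} [Field k] {X : Obj k}

theorem KF6_rep {D : Type} [Ring D] [Algebra k D] {j n : ℕ} {e : Fin n → D} {E : Submodule k D}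
    (hE : Submodule.span k (Set.range e) = E) {T : TP k D (j + 1)} (hT : T ∈ TE E (j + 1)) :
    ∃ t : Fin n → TP k D j, T = ∑ a, TP.cons (e a) (t a) := by
  have hT' : T ∈ Submodule.span k {z | ∃ a ∈ E, ∃ u ∈ TE E j, z = TP.cons a u} := hT
  induction hT' using Submodule.span_induction with
  | mem z hz =>
    obtain ⟨a, ha, u, -, rfl⟩ := hz
    rw [← hE] at ha
    obtain ⟨c, rfl⟩ := (Submodule.mem_span_range_iff_exists_fun k).1 ha
    refine ⟨fun l => c l • u, ?_⟩
    have : ∀ I : Finset (Fin n), TP.cons (∑ l ∈ I, c l • e l) u =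
        ∑ l ∈ I, TP.cons (e l) (c l • u) := by
      classical
      intro I
      induction I using Finset.induction_on with
      | empty => simp
      | insert x I hx ih =>
        rw [Finset.sum_insert hx, Finset.sum_insert hx, TP.add_cons, ih, TP.smulR_cons,
          TP.cons_smulR]
    exact this _
  | zero => exact ⟨0, by simp⟩
  | add x y _ _ hx hy =>
    obtain ⟨t, ht⟩ := hx ‹_›
    obtain ⟨t', ht'⟩ := hy ‹_›
    refine ⟨t + t', ?_⟩
    rw [ht, ht', ← Finset.sum_add_distrib]
    exact Finset.sum_congr rfl fun a _ => by rw [Pi.add_apply, TP.cons_add]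
  | smul c x _ hx =>
    obtain ⟨t, ht⟩ := hx ‹_›
    refine ⟨c • t, ?_⟩
    rw [ht, Finset.smul_sum]
    exact Finset.sum_congr rfl fun a _ => by rw [Pi.smul_apply, TP.cons_smulR]

theorem KF6_cons_sum {D : Type} [Ring D] [Algebra k D] {j : ℕ} {ι : Type} (I : Finset ι) (a : D)
    (t : ι → TP k D j) : TP.cons a (∑ l ∈ I, t l) = ∑ l ∈ I, TP.cons a (t l) := by
  classical
  induction I using Finset.induction_on with
  | empty => simp
  | insert x I hx ih => rw [Finset.sum_insert hx, Finset.sum_insert hx, TP.cons_add, ih]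

theorem KF6_mon_separate {n : ℕ} (b : Fin n → X.K) (sz : Fin n → ℤ)
    (h : ∑ l, X.mon (sz l) (b l) = 0) (m : ℤ) :
    ∑ l ∈ Finset.univ.filter (fun l => sz l = m), X.mon (sz l) (b l) = 0 := by
  have h1 : ∑ l, (LaurentPolynomial.C (b l) * LaurentPolynomial.T (sz l) :
      LaurentPolynomial X.K) = 0 := by
    apply IsFractionRing.injective (LaurentPolynomial X.K) X.Γ
    rw [map_sum, map_zero]
    exact h
  have h2 : ∑ l ∈ Finset.univ.filter (fun l => sz l = m), b l = 0 := by
    have h3 := congrArg (fun q : LaurentPolynomial X.K => q.coeff m) h1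
    simp only [← LaurentPolynomial.single_eq_C_mul_T, AddMonoidAlgebra.coeff_sum,
      AddMonoidAlgebra.coeff_single, Finsupp.finsetSum_apply, Finsupp.single_apply,
      AddMonoidAlgebra.coeff_zero, Finsupp.coe_zero, Pi.zero_apply] at h3
    rw [Finset.sum_filter]
    exact h3
  have h5 : ∀ l ∈ Finset.univ.filter (fun l => sz l = m), X.mon (sz l) (b l) = X.mon m (b l) := by
    intro l hl
    rw [(Finset.mem_filter.1 hl).2]
  rw [Finset.sum_congr rfl h5]
  have h6 : ∀ I : Finset (Fin n), ∑ l ∈ I, X.mon m (b l) = X.mon m (∑ l ∈ I, b l) := by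
    intro I
    simp only [Obj.mon]
    rw [← map_sum, ← Finset.sum_mul, map_sum]
  rw [h6, h2]
  simp [Obj.mon]

theorem DRes_separate {j n : ℕ} {t : Fin n → TP k X.D j} {sz : Fin n → ℤ}
    (ht : ∀ l, t l ∈ kF k X.A j (sz l)) {s : Fin n → TP k X.Γ j}
    (hs : ∀ l, DRes X (sz l) (t l) (s l)) (h : ∑ l, s l = 0) (m : ℤ) :
    ∑ l ∈ Finset.univ.filter (fun l => sz l = m), s l = 0 := by
  induction j generalizing n sz m with
  | zero =>
    have hb : ∀ l, ∃ b, Fr.Res X.π (sz l) (TP.toA (t l)) b := fun l => exists_res (ht l)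
    choose b hb using hb
    have e : ∀ l, s l = TP.ofA (X.mon (sz l) (b l)) := fun l => DRes_unique (hs l) (DRes_ofA (hb l))
    have h1 : ∑ l, X.mon (sz l) (b l) = 0 := by
      have h2 : ∑ l, (TP.ofA (X.mon (sz l) (b l)) : TP k X.Γ 0) = 0 := by
        rw [← h]
        exact Finset.sum_congr rfl fun l _ => (e l).symm
      rw [← map_sum] at h2
      exact (AddEquiv.map_eq_zero_iff _).1 h2
    have h3 := KF6_mon_separate b sz h1 m
    rw [Finset.sum_congr rfl fun l _ => e l, ← map_sum, h3, map_zero]
  | succ j ih =>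
    have hE : ∀ l, ∃ E : Submodule k X.D, Module.Finite k E ∧ t l ∈ TE E (j + 1) :=
      fun l => exists_TE (t l)
    choose E hEf hE using hE
    have hfin : Module.Finite k (⨆ l, E l : Submodule k X.D) := by
      have := hEf
      infer_instance
    obtain ⟨N, e, r, hor, hsp⟩ := exists_orthF (F := Fr.lev k X.A)
      (fun m n hmn => lev_mono hmn) lev_exhaust (lev_sep X) _ hfin
    have hrep : ∀ l, ∃ t' : Fin N → TP k X.D j, t l = ∑ a, TP.cons (e a) (t' a) :=
      fun l => KF6_rep hsp (TE_mono (le_iSup E l) (hE l))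
    choose t' ht' using hrep
    have hb : ∀ a, ∃ b, Fr.Res X.π (r a) (e a) b := fun a => exists_res (hor.1 a)
    choose b hb using hb
    have hlev : ∀ l a, t' l a ∈ kF k X.A j (sz l - r a) := by
      intro l
      refine (orth_kF_iff hor (t' l) (sz l)).1 ?_
      rw [← ht' l]
      exact ht l
    have hs' : ∀ l a, ∃ s', DRes X (sz l - r a) (t' l a) s' := fun l a => exists_DRes (hlev l a)
    choose s' hs' using hs'
    have hres : ∀ l, s l = ∑ a, TP.cons (X.mon (r a) (b a)) (s' l a) := by
      intro l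
      refine DRes_unique (hs l) ?_
      rw [ht' l]
      refine DRes_sum _ fun a _ => ?_
      have := DRes_cons (hb a) (hs' l a)
      rwa [add_sub_cancel] at this
    have hind := orth_mon_indep hor hb
    have hswap : ∀ I : Finset (Fin n), ∑ l ∈ I, s l =
        ∑ a, TP.cons (X.mon (r a) (b a)) (∑ l ∈ I, s' l a) := by
      intro I
      rw [Finset.sum_congr rfl fun l _ => hres l, Finset.sum_comm]
      exact Finset.sum_congr rfl fun a _ => (KF6_cons_sum I _ _).symm
    have hz : ∀ a, ∑ l, s' l a = 0 := by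
      refine cons_eq_zero j _ hind _ ?_
      rw [← hswap, h]
    rw [hswap]
    refine Finset.sum_eq_zero fun a _ => ?_
    have h7 := ih (fun l => hlev l a) (fun l => hs' l a) (hz a) (m - r a)
    have h8 : Finset.univ.filter (fun l => sz l = m) =
        Finset.univ.filter (fun l => sz l - r a = m - r a) := by
      ext l
      simp
    rw [h8, h7, TP.cons_zero]

/-- adapted families in `T_j(D)` have `k`-independent decorated residues -/
theorem orthT_indep {j n : ℕ} {y : Fin n → TP k X.D j} {sz : Fin n → ℤ}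
    (h : OrthF (kF k X.A j) y sz) {s : Fin n → TP k X.Γ j} (hs : ∀ l, DRes X (sz l) (y l) (s l)) :
    LinearIndependent k s := by
  rw [Fintype.linearIndependent_iff]
  intro c hc l0
  by_contra hne
  have h1 := DRes_separate (t := fun l => c l • y l) (sz := sz)
    (fun l => Submodule.smul_mem _ _ (h.1 l)) (fun l => DRes_smul (c l) (hs l)) hc (sz l0)
  have h2 : DRes X (sz l0) (∑ l ∈ Finset.univ.filter (fun l => sz l = sz l0), c l • y l)
      (∑ l ∈ Finset.univ.filter (fun l => sz l = sz l0), c l • s l) := by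
    refine DRes_sum _ fun l hl => ?_
    have h3 := DRes_smul (c l) (hs l)
    rwa [(Finset.mem_filter.1 hl).2] at h3
  rw [h1] at h2
  have h4 : ∑ l ∈ Finset.univ.filter (fun l => sz l = sz l0), c l • y l ∈
      kF k X.A j (sz l0) := by
    refine Submodule.sum_mem _ fun l hl => Submodule.smul_mem _ _ ?_
    have h3 := h.1 l
    rwa [(Finset.mem_filter.1 hl).2] at h3
  have h5 := kF_of_DRes_zero h4 h2
  have h6 : ∑ l, (if sz l = sz l0 then c l else 0) • y l ∈ kF k X.A j (sz l0 - 1) := by
    have e : ∑ l, (if sz l = sz l0 then c l else 0) • y l =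
        ∑ l ∈ Finset.univ.filter (fun l => sz l = sz l0), c l • y l := by
      rw [Finset.sum_filter]
      refine Finset.sum_congr rfl fun l _ => ?_
      split_ifs
      · rfl
      · rw [zero_smul]
    rw [e]
    exact h5
  have h7 := h.2 _ _ h6 l0 (by simpa using hne)
  omega

end C74
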