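import Pool.Agent.MP_35f30a_al.C74.Ord

/-!
ROW LOC1.  Ore localisation of `A / X^n A`.  Blueprint section 3 (LOC).

`A_n := A ⧸ X^n A` (quotient by a two-sided ideal, `X` is central), `Σ_n :=` image of
`{s | π s ∈ Sg}` (a submonoid).  Claims:
* every `s ∈ Σ_n` is regular on both sides: `a s ∈ X^n A` (`n ≥ 1`) gives `π a π s = 0`, `π a = 0` (`S` a domain,
  `0 ∉ Sg`), `a = X b`, `b s ∈ X^{n-1} A` (regularity of `X`), induct.
* Ore: with `ad_s x = s x - x s ∈ X A` (as `S` is commutative), `ad_s^n a ∈ X^n A`, and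
  `s^n a = Σ_{i ≤ n} binom(n,i) ad_s^i(a) s^{n-i}`, so in `A_n`
  `s^n a = (Σ_{i<n} binom(n,i) ad_s^i(a) s^{n-1-i}) s`.
  (`mul_left` by `s` is the sum of the commuting operators `ad_s` and `mul_right` by `s`.)
So `Σ_n` is an Ore set (`OreLocalization.OreSet`), `B := OreLocalization Σ_n A_n` (a ring),
`c := ` numerator map.  Universal property: `OreLocalization.universalHom` (or `liftRingHom`).
The case `n = 0` is the zero ring (also covered by the general argument, or take `PUnit`).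
-/

set_option autoImplicit false

open scoped TensorProduct Polynomial

namespace C74

/-- the localisation of `A / X^n A` at `{a | π a ∈ Sg}` -/
structure LocN (k : Type) [Field k] {A : Type} [Ring A] [Algebra k[X] A] {S : Type} [CommRing S]
    (π : A →+* S) (Sg : Submonoid S) (n : ℕ) where
  B : Type
  [rB : Ring B]
  [aB : Algebra k[X] B]
  c : A →ₐ[k[X]] B
  frac : ∀ b : B, ∃ s a : A, π s ∈ Sg ∧ c s * b = c a
  unit : ∀ s : A, π s ∈ Sg → IsUnit (c s)
  ker : ∀ a : A, c a = 0 ↔ ∃ b : A, a = (tX k) ^ n • b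
  univ : ∀ (E : Type) [Ring E] [Algebra k[X] E] (f : A →ₐ[k[X]] E),
    (∀ s, π s ∈ Sg → IsUnit (f s)) → (∀ x : E, (tX k) ^ n • x = 0) →
      ∃ f' : B →ₐ[k[X]] E, ∀ a, f' (c a) = f a

attribute [instance] LocN.rB LocN.aB

variable {k : Type} [Field k]
variable {A : Type} [Ring A] [Algebra k[X] A] {S : Type} [CommRing S] [Algebra k S] {π : A →+* S}

/-- the ideal `X^n A` -/
def LOC1_I (k : Type) [Field k] (A : Type) [Ring A] [Algebra k[X] A] (n : ℕ) : Ideal A where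
  carrier := {a | ∃ b : A, a = (tX k) ^ n • b}
  add_mem' := by
    rintro _ _ ⟨b, rfl⟩ ⟨b', rfl⟩
    exact ⟨b + b', by rw [smul_add]⟩
  zero_mem' := ⟨0, by rw [smul_zero]⟩
  smul_mem' := by
    rintro c _ ⟨b, rfl⟩
    exact ⟨c * b, by rw [smul_eq_mul, mul_smul_comm]⟩

theorem LOC1_mem {n : ℕ} {a : A} : a ∈ LOC1_I k A n ↔ ∃ b : A, a = (tX k) ^ n • b := Iff.rfl

instance LOC1_two (n : ℕ) : (LOC1_I k A n).IsTwoSided := ⟨by
  rintro a c ⟨b, rfl⟩
  exact ⟨b * c, by rw [smul_mul_assoc]⟩⟩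

theorem LOC1_reg_right [IsDomain S] (hπ : IsQC k π) {Sg : Submonoid S} (h0 : (0 : S) ∉ Sg)
    (n : ℕ) (a s : A) (hs : π s ∈ Sg) (h : ∃ b : A, a * s = (tX k) ^ n • b) :
    ∃ b : A, a = (tX k) ^ n • b := by
  induction n generalizing a with
  | zero => exact ⟨a, by rw [pow_zero, one_smul]⟩
  | succ n ih =>
    obtain ⟨b, hb⟩ := h
    have h1 : π a * π s = 0 := by
      rw [← map_mul, hb, pow_succ', mul_smul, hπ.kerX]
    have h2 : π s ≠ 0 := fun h => h0 (h ▸ hs)
    obtain ⟨a', rfl⟩ := hπ.ker a ((mul_eq_zero.1 h1).resolve_right h2)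
    obtain ⟨b', hb'⟩ := ih a' ⟨b, by
      have h3 : tX k • (a' * s - (tX k) ^ n • b) = 0 := by
        rw [smul_sub, ← smul_mul_assoc, hb, smul_smul, ← pow_succ', sub_self]
      exact sub_eq_zero.1 (hπ.reg _ h3)⟩
    exact ⟨b', by rw [pow_succ', mul_smul, ← hb']⟩

theorem LOC1_reg_left [IsDomain S] (hπ : IsQC k π) {Sg : Submonoid S} (h0 : (0 : S) ∉ Sg)
    (n : ℕ) (a s : A) (hs : π s ∈ Sg) (h : ∃ b : A, s * a = (tX k) ^ n • b) :
    ∃ b : A, a = (tX k) ^ n • b := by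
  induction n generalizing a with
  | zero => exact ⟨a, by rw [pow_zero, one_smul]⟩
  | succ n ih =>
    obtain ⟨b, hb⟩ := h
    have h1 : π s * π a = 0 := by
      rw [← map_mul, hb, pow_succ', mul_smul, hπ.kerX]
    have h2 : π s ≠ 0 := fun h => h0 (h ▸ hs)
    obtain ⟨a', rfl⟩ := hπ.ker a ((mul_eq_zero.1 h1).resolve_left h2)
    obtain ⟨b', hb'⟩ := ih a' ⟨b, by
      have h3 : tX k • (s * a' - (tX k) ^ n • b) = 0 := by
        rw [smul_sub, ← mul_smul_comm, hb, smul_smul, ← pow_succ', sub_self]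
      exact sub_eq_zero.1 (hπ.reg _ h3)⟩
    exact ⟨b', by rw [pow_succ', mul_smul, ← hb']⟩

/-- `s^n a = r s` modulo `X^n A` -/
theorem LOC1_ore (hπ : IsQC k π) (n : ℕ) (a s : A) :
    ∃ r d : A, s ^ n * a = r * s + (tX k) ^ n • d := by
  induction n generalizing a with
  | zero => exact ⟨0, a, by rw [pow_zero, one_mul, zero_mul, pow_zero, one_smul, zero_add]⟩
  | succ n ih =>
    obtain ⟨c, hc⟩ := hπ.ker (s * a - a * s) (by
      rw [map_sub, map_mul, map_mul, mul_comm, sub_self])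
    obtain ⟨r, d, hr⟩ := ih c
    refine ⟨s ^ n * a + tX k • r, d, ?_⟩
    have h1 : s * a = a * s + tX k • c := by rw [← hc]; abel
    rw [pow_succ, mul_assoc, h1, mul_add, mul_smul_comm, hr, smul_add, add_mul, smul_mul_assoc,
      ← mul_assoc, smul_smul, ← pow_succ', add_assoc]

/-- the image of `{s | π s ∈ Sg}` in `A ⧸ X^n A` -/
def LOC1_S (k : Type) [Field k] {A : Type} [Ring A] [Algebra k[X] A] {S : Type} [CommRing S]
    (π : A →+* S) (Sg : Submonoid S) (n : ℕ) : Submonoid (A ⧸ LOC1_I k A n) :=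
  (Sg.comap π).map (Ideal.Quotient.mk (LOC1_I k A n))

theorem LOC1_oreSet [IsDomain S] (hπ : IsQC k π) {Sg : Submonoid S} (h0 : (0 : S) ∉ Sg) (n : ℕ) :
    Nonempty (OreLocalization.OreSet (LOC1_S k π Sg n)) := by
  rw [OreLocalization.nonempty_oreSet_iff]
  constructor
  · rintro r₁ r₂ ⟨_, s, hs, rfl⟩ h
    refine ⟨1, ?_⟩
    obtain ⟨a₁, rfl⟩ := Ideal.Quotient.mk_surjective r₁
    obtain ⟨a₂, rfl⟩ := Ideal.Quotient.mk_surjective r₂
    change Ideal.Quotient.mk _ a₁ * Ideal.Quotient.mk _ s =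
      Ideal.Quotient.mk _ a₂ * Ideal.Quotient.mk _ s at h
    rw [← map_mul, ← map_mul, Ideal.Quotient.eq, ← sub_mul, LOC1_mem] at h
    have h1 := LOC1_reg_right hπ h0 n (a₁ - a₂) s hs h
    have h2 : Ideal.Quotient.mk (LOC1_I k A n) a₁ = Ideal.Quotient.mk (LOC1_I k A n) a₂ :=
      Ideal.Quotient.eq.2 (LOC1_mem.2 h1)
    rw [h2]
  · rintro r ⟨_, s, hs, rfl⟩
    obtain ⟨a, rfl⟩ := Ideal.Quotient.mk_surjective r
    obtain ⟨r', d, hr⟩ := LOC1_ore hπ n a s
    refine ⟨Ideal.Quotient.mk _ r', ⟨Ideal.Quotient.mk _ (s ^ n), s ^ n, ?_, rfl⟩, ?_⟩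
    · exact pow_mem hs n
    · change Ideal.Quotient.mk _ (s ^ n) * Ideal.Quotient.mk _ a =
        Ideal.Quotient.mk _ r' * Ideal.Quotient.mk _ s
      rw [← map_mul, ← map_mul, hr, Ideal.Quotient.eq, add_sub_cancel_left]
      exact ⟨d, rfl⟩

theorem exists_locN [IsDomain S] (hπ : IsQC k π) (Sg : Submonoid S) (h0 : (0 : S) ∉ Sg) (n : ℕ) :
    Nonempty (LocN k π Sg n) := by
  obtain ⟨ore⟩ := LOC1_oreSet hπ h0 n
  let q : A →ₐ[k[X]] (A ⧸ LOC1_I k A n) := Ideal.Quotient.mkₐ k[X] (LOC1_I k A n)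
  have hq : Function.Surjective q := Ideal.Quotient.mkₐ_surjective _ _
  have hqmem : ∀ s : A, π s ∈ Sg → q s ∈ LOC1_S k π Sg n := fun s hs => ⟨s, hs, rfl⟩
  have hq0 : ∀ a, q a = 0 ↔ ∃ b : A, a = (tX k) ^ n • b := fun a => by
    rw [← LOC1_mem]
    exact Ideal.Quotient.eq_zero_iff_mem
  let num : (A ⧸ LOC1_I k A n) →ₐ[k[X]] OreLocalization (LOC1_S k π Sg n) (A ⧸ LOC1_I k A n) :=
    { (OreLocalization.numeratorRingHom :
        (A ⧸ LOC1_I k A n) →+* OreLocalization (LOC1_S k π Sg n) (A ⧸ LOC1_I k A n)) with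
      commutes' := fun r => rfl }
  have hnum : ∀ r, num r = OreLocalization.numeratorHom r := fun r => rfl
  have hinj : Function.Injective num := by
    refine OreLocalization.numeratorHom_inj ?_
    rintro _ ⟨s, hs, rfl⟩
    rw [mem_nonZeroDivisorsLeft_iff]
    intro r hr
    obtain ⟨a, rfl⟩ := Ideal.Quotient.mk_surjective r
    rw [← map_mul, Ideal.Quotient.eq_zero_iff_mem, LOC1_mem] at hr
    rw [Ideal.Quotient.eq_zero_iff_mem, LOC1_mem]
    exact LOC1_reg_left hπ h0 n a s hs hr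
  refine ⟨{ B := OreLocalization (LOC1_S k π Sg n) (A ⧸ LOC1_I k A n)
            c := num.comp q
            frac := ?_
            unit := ?_
            ker := ?_
            univ := ?_ }⟩
  · intro b
    induction b using OreLocalization.ind with
    | _ r s =>
      obtain ⟨a, rfl⟩ := hq r
      obtain ⟨_, s, hs, rfl⟩ := s
      refine ⟨s, a, hs, ?_⟩
      rw [AlgHom.comp_apply, AlgHom.comp_apply, hnum, hnum, OreLocalization.numeratorHom_apply,
        OreLocalization.numeratorHom_apply]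
      exact OreLocalization.mul_cancel (s := ⟨q s, hqmem s hs⟩)
  · intro s hs
    exact OreLocalization.numerator_isUnit (⟨q s, hqmem s hs⟩ : LOC1_S k π Sg n)
  · intro a
    rw [AlgHom.comp_apply, map_eq_zero_iff num hinj, hq0]
  · intro E _ _ f hf hE
    let g : (A ⧸ LOC1_I k A n) →ₐ[k[X]] E := Ideal.Quotient.liftₐ (LOC1_I k A n) f (by
      rintro _ ⟨b, rfl⟩
      rw [map_smul, hE])
    have hg : ∀ a, g (q a) = f a := fun a => rfl
    have hu : ∀ s : LOC1_S k π Sg n, IsUnit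
        ((((g : (A ⧸ LOC1_I k A n) →+* E) : (A ⧸ LOC1_I k A n) →* E).comp
          (LOC1_S k π Sg n).subtype) s) := by
      rintro ⟨_, s, hs, rfl⟩
      exact hf s hs
    let F := OreLocalization.universalHom (g : (A ⧸ LOC1_I k A n) →+* E)
      (IsUnit.liftRight _ hu) (fun s => rfl)
    have hF : ∀ r, F (OreLocalization.numeratorHom r) = g r := fun r =>
      OreLocalization.universalHom_commutes _ _ _
    refine ⟨{ F with commutes' := fun r => ?_ }, fun a => hF (q a)⟩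
    change F (OreLocalization.numeratorHom (algebraMap k[X] (A ⧸ LOC1_I k A n) r)) = _
    rw [hF, AlgHom.commutes]

end C74
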