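import Pool.Agent.MP_35f30a_al.C74.LOC1

/-!
ROW LOC2.  The inverse limit of the localisations.  Blueprint section 3 (LOC).

Write `B_n := (D n).B`, `c_n := (D n).c`.
* transition maps `τ_n : B_{n+1} → B_n` over `A` (`univ`), surjective by `frac`
  (`b = c_n(s)^{-1} c_n(a)` lifts), and unique.  `τ b = 0 ↔ b ∈ X^n B_{n+1}`.
* in `B_{n+1}`: `X b = 0 → b ∈ X^n B_{n+1}` (`b = c(s)^{-1} c(a)`; `X a ∈ X^{n+1} A`, `a ∈ X^n A`).
* `B_1 ≅ T`: `univ` for `A → S → T` gives `B_1 → T`; injective as `S → T` is injective (`S` domain), onto.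
* `A' :=` compatible sequences in `Π n, B_n`, `pr n` the projections, `π'` := `pr 1` then `B_1 → T`.
  `X` regular: `X x = 0`, `x_{n+1} ∈ X^n B_{n+1}`, `x_n = 0`.
  `pr n x = 0 ↔ x ∈ X^n A'`: if `x_n = 0` then `x_{m+n} = X^n y_{m+n}` and `τ^n(y_{m+n}) ∈ B_m` does not depend
  on the choice; these form the required element.   Complete: componentwise.
-/

set_option autoImplicit false

open scoped TensorProduct Polynomial

namespace C74

variable {k : Type} [Field k]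
variable {A : Type} [Ring A] [Algebra k[X] A] {S : Type} [CommRing S] [Algebra k S] {π : A →+* S}

section LOC2
variable {Sg : Submonoid S}

/-- cancellation of the unit `c s` -/
theorem LOC2_cancel {n : ℕ} (E : LocN k π Sg n) (s : A) (hs : π s ∈ Sg) {x y : E.B}
    (h : E.c s * x = E.c s * y) : x = y :=
  (E.unit s hs).mul_left_cancel h

/-- `b = (c s)⁻¹ (c a)` exists -/
theorem LOC2_quot {n : ℕ} (E : LocN k π Sg n) (s : A) (hs : π s ∈ Sg) (x : E.B) :
    ∃ y : E.B, E.c s * y = x := by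
  obtain ⟨u, hu⟩ := E.unit s hs
  exact ⟨↑u⁻¹ * x, by rw [← hu, ← mul_assoc, Units.mul_inv, one_mul]⟩

/-- `X^n` kills `B_n` -/
theorem LOC2_tors {n : ℕ} (E : LocN k π Sg n) (x : E.B) : (tX k) ^ n • x = 0 := by
  obtain ⟨s, a, hs, h⟩ := E.frac x
  refine LOC2_cancel E s hs ?_
  rw [mul_smul_comm, h, mul_zero, ← map_smul]
  exact (E.ker _).2 ⟨a, rfl⟩

theorem LOC2_tors' {n m : ℕ} (hnm : n ≤ m) (E : LocN k π Sg n) (x : E.B) :
    (tX k) ^ m • x = 0 := by
  obtain ⟨j, rfl⟩ := Nat.exists_eq_add_of_le hnm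
  rw [pow_add, mul_comm, mul_smul, LOC2_tors, smul_zero]

/-- homomorphisms out of `B_n` are determined on `A` -/
theorem LOC2_hom_ext {n : ℕ} (E : LocN k π Sg n) {F : Type} [Ring F] [Algebra k[X] F]
    {f g : E.B →ₐ[k[X]] F} (h : ∀ a, f (E.c a) = g (E.c a)) (x : E.B) : f x = g x := by
  obtain ⟨s, a, hs, hx⟩ := E.frac x
  have h1 : f (E.c s) * f x = f (E.c s) * g x := by
    rw [← map_mul, hx, h a, ← hx, map_mul, ← h s]
  exact ((E.unit s hs).map f).mul_left_cancel h1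

variable (D : ∀ n, LocN k π Sg n)

theorem LOC2_exists_tr {n m : ℕ} (hnm : n ≤ m) :
    ∃ f' : (D m).B →ₐ[k[X]] (D n).B, ∀ a, f' ((D m).c a) = (D n).c a :=
  (D m).univ (D n).B (D n).c (fun s hs => (D n).unit s hs) (fun x => LOC2_tors' hnm (D n) x)

/-- the transition maps -/
noncomputable def LOC2_tr {n m : ℕ} (hnm : n ≤ m) : (D m).B →ₐ[k[X]] (D n).B :=
  (LOC2_exists_tr D hnm).choose

theorem LOC2_tr_c {n m : ℕ} (hnm : n ≤ m) (a : A) :
    LOC2_tr D hnm ((D m).c a) = (D n).c a :=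
  (LOC2_exists_tr D hnm).choose_spec a

theorem LOC2_tr_tr {l n m : ℕ} (hln : l ≤ n) (hnm : n ≤ m) (x : (D m).B) :
    LOC2_tr D hln (LOC2_tr D hnm x) = LOC2_tr D (hln.trans hnm) x := by
  refine LOC2_hom_ext (D m) (f := (LOC2_tr D hln).comp (LOC2_tr D hnm))
    (g := LOC2_tr D (hln.trans hnm)) ?_ x
  intro a
  rw [AlgHom.comp_apply, LOC2_tr_c, LOC2_tr_c, LOC2_tr_c]

/-- the kernel of the transition maps -/
theorem LOC2_tr_ker {n m : ℕ} (hnm : n ≤ m) (x : (D m).B) (h : LOC2_tr D hnm x = 0) :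
    ∃ y, x = (tX k) ^ n • y := by
  obtain ⟨s, a, hs, hx⟩ := (D m).frac x
  have h1 : (D n).c a = 0 := by
    rw [← LOC2_tr_c D hnm a, ← hx, map_mul, h, mul_zero]
  obtain ⟨a', ha'⟩ := ((D n).ker a).1 h1
  obtain ⟨y, hy⟩ := LOC2_quot (D m) s hs ((D m).c a')
  refine ⟨y, LOC2_cancel (D m) s hs ?_⟩
  rw [hx, ha', map_smul, mul_smul_comm, hy]

theorem LOC2_reg (hπ : IsQC k π) (n : ℕ) (a : A) (h : (tX k) ^ n • a = 0) : a = 0 := by
  induction n with
  | zero => simpa using h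
  | succ n ih =>
    apply ih
    apply hπ.reg
    rw [smul_smul, ← pow_succ']
    exact h

/-- `X^n b = 0` in `B_{m+n}` implies `b ∈ X^m B_{m+n}` -/
theorem LOC2_ann (hπ : IsQC k π) {m n : ℕ} (E : LocN k π Sg (m + n)) (x : E.B)
    (h : (tX k) ^ n • x = 0) : ∃ y, x = (tX k) ^ m • y := by
  obtain ⟨s, a, hs, hx⟩ := E.frac x
  have h1 : E.c ((tX k) ^ n • a) = 0 := by
    rw [map_smul, ← hx, ← mul_smul_comm, h, mul_zero]
  obtain ⟨a', ha'⟩ := (E.ker _).1 h1
  have h2 : a = (tX k) ^ m • a' := by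
    rw [← sub_eq_zero]
    apply LOC2_reg hπ n
    rw [smul_sub, ha', smul_smul, ← pow_add, add_comm n m, sub_self]
  obtain ⟨y, hy⟩ := LOC2_quot E s hs (E.c a')
  refine ⟨y, LOC2_cancel E s hs ?_⟩
  rw [hx, mul_smul_comm, hy, h2, map_smul]

/-- the inverse limit -/
noncomputable def LOC2_lim : Subalgebra k[X] (∀ n, (D n).B) where
  carrier := {x | ∀ (n m : ℕ) (h : n ≤ m), LOC2_tr D h (x m) = x n}
  mul_mem' := by
    intro a b ha hb n m h
    rw [Pi.mul_apply, map_mul, ha n m h, hb n m h, Pi.mul_apply]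
  add_mem' := by
    intro a b ha hb n m h
    rw [Pi.add_apply, map_add, ha n m h, hb n m h, Pi.add_apply]
  algebraMap_mem' := by
    intro r n m h
    rw [Pi.algebraMap_apply, Pi.algebraMap_apply, AlgHom.commutes]

theorem LOC2_mem (x : ∀ n, (D n).B) :
    x ∈ LOC2_lim D ↔ ∀ (n m : ℕ) (h : n ≤ m), LOC2_tr D h (x m) = x n := Iff.rfl

/-- the projections -/
noncomputable def LOC2_pr (n : ℕ) : LOC2_lim D →ₐ[k[X]] (D n).B :=
  (Pi.evalAlgHom k[X] (fun n => (D n).B) n).comp (LOC2_lim D).val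

theorem LOC2_pr_apply (n : ℕ) (x : LOC2_lim D) : LOC2_pr D n x = x.1 n := rfl

theorem LOC2_pr_ext {x y : LOC2_lim D} (h : ∀ n, LOC2_pr D n x = LOC2_pr D n y) : x = y :=
  Subtype.ext (funext h)

theorem LOC2_tr_pr {n m : ℕ} (h : n ≤ m) (x : LOC2_lim D) :
    LOC2_tr D h (LOC2_pr D m x) = LOC2_pr D n x := x.2 n m h

/-- the canonical map -/
noncomputable def LOC2_c : A →ₐ[k[X]] LOC2_lim D :=
  (AlgHom.pi (R := k[X]) (fun n => (D n).c)).codRestrict (LOC2_lim D)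
    (fun a => (LOC2_mem D _).2 (fun _ _ h => LOC2_tr_c D h a))

theorem LOC2_pr_c (n : ℕ) (a : A) : LOC2_pr D n (LOC2_c D a) = (D n).c a := rfl

/-- fractions in the limit -/
theorem LOC2_frac (s a : A) (hs : π s ∈ Sg) : ∃ x : LOC2_lim D, LOC2_c D s * x = LOC2_c D a := by
  choose y hy using fun n => LOC2_quot (D n) s hs ((D n).c a)
  refine ⟨⟨y, (LOC2_mem D y).2 ?_⟩, LOC2_pr_ext D fun n => ?_⟩
  · intro n m h
    refine LOC2_cancel (D n) s hs ?_
    rw [hy n, ← LOC2_tr_c D h s, ← map_mul, hy m, LOC2_tr_c]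
  · rw [map_mul, LOC2_pr_c, LOC2_pr_c]
    exact hy n

theorem LOC2_pr_zero (hπ : IsQC k π) (n : ℕ) (x : LOC2_lim D) :
    LOC2_pr D n x = 0 ↔ ∃ y, x = (tX k) ^ n • y := by
  constructor
  · intro h
    have h1 : ∀ m, ∃ y : (D (m + n)).B, LOC2_pr D (m + n) x = (tX k) ^ n • y := fun m =>
      LOC2_tr_ker D (Nat.le_add_left n m) _ (by rw [LOC2_tr_pr, h])
    choose y hy using h1
    refine ⟨⟨fun m => LOC2_tr D (Nat.le_add_right m n) (y m), (LOC2_mem D _).2 ?_⟩,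
      LOC2_pr_ext D fun m => ?_⟩
    · intro l m h
      have hlm : l + n ≤ m + n := Nat.add_le_add_right h n
      have h2 : (tX k) ^ n • (LOC2_tr D hlm (y m) - y l) = 0 := by
        rw [smul_sub, ← map_smul, ← hy m, ← hy l, LOC2_tr_pr, sub_self]
      obtain ⟨z, hz⟩ := LOC2_ann hπ (D (l + n)) _ h2
      have h3 : LOC2_tr D (Nat.le_add_right l n) (LOC2_tr D hlm (y m) - y l) = 0 := by
        rw [hz, map_smul, LOC2_tors]
      rw [map_sub, sub_eq_zero, LOC2_tr_tr] at h3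
      rw [LOC2_tr_tr, ← h3]
    · rw [map_smul, LOC2_pr_apply D m ⟨_, _⟩]
      change LOC2_pr D m x = (tX k) ^ n • LOC2_tr D (Nat.le_add_right m n) (y m)
      rw [← map_smul, ← hy m, LOC2_tr_pr]
  · rintro ⟨y, rfl⟩
    rw [map_smul, LOC2_tors]

theorem LOC2_isComp (hπ : IsQC k π) : IsComp k (LOC2_lim D) := by
  refine ⟨fun m hm => LOC2_pr_ext D fun n => ?_, fun u => ?_⟩
  · rw [map_zero]
    exact (LOC2_pr_zero D hπ n m).2 (hm n)
  · let x : ∀ n, (D n).B := fun n => ∑ i ∈ Finset.range n, (tX k) ^ i • LOC2_pr D n (u i)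
    have hx : x ∈ LOC2_lim D := by
      rw [LOC2_mem]
      intro n m h
      obtain ⟨j, rfl⟩ := Nat.exists_eq_add_of_le h
      change LOC2_tr D h (∑ i ∈ Finset.range (n + j), (tX k) ^ i • LOC2_pr D (n + j) (u i)) =
        ∑ i ∈ Finset.range n, (tX k) ^ i • LOC2_pr D n (u i)
      rw [map_sum, Finset.sum_range_add]
      have h1 : ∑ i ∈ Finset.range j,
          LOC2_tr D h ((tX k) ^ (n + i) • LOC2_pr D (n + j) (u (n + i))) = 0 := by
        refine Finset.sum_eq_zero fun i _ => ?_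
        rw [map_smul, LOC2_tors' (Nat.le_add_right n i)]
      rw [h1, add_zero]
      refine Finset.sum_congr rfl fun i _ => ?_
      rw [map_smul, LOC2_tr_pr]
    refine ⟨⟨x, hx⟩, fun n => ?_⟩
    have h2 : LOC2_pr D n (⟨x, hx⟩ - ∑ i ∈ Finset.range n, (tX k) ^ i • u i) = 0 := by
      rw [map_sub, map_sum, LOC2_pr_apply]
      change ∑ i ∈ Finset.range n, (tX k) ^ i • LOC2_pr D n (u i) -
        ∑ i ∈ Finset.range n, LOC2_pr D n ((tX k) ^ i • u i) = 0
      rw [sub_eq_zero]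
      refine Finset.sum_congr rfl fun i _ => ?_
      rw [map_smul]
    obtain ⟨b, hb⟩ := (LOC2_pr_zero D hπ n _).1 h2
    exact ⟨b, by rw [← hb]; abel⟩

theorem LOC2_reg' (hπ : IsQC k π) (x : LOC2_lim D) (h : tX k • x = 0) : x = 0 := by
  refine LOC2_pr_ext D fun n => ?_
  have h1 : (tX k) ^ 1 • LOC2_pr D (n + 1) x = 0 := by
    rw [pow_one, ← map_smul, h, map_zero]
  obtain ⟨y, hy⟩ := LOC2_ann hπ (D (n + 1)) _ h1
  rw [map_zero, ← LOC2_tr_pr D (Nat.le_succ n) x, hy, map_smul, LOC2_tors]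

theorem LOC2_exists_pi [IsDomain S] (hπ : IsQC k π) (h0 : (0 : S) ∉ Sg)
    (E : LocN k π Sg 1)
    (T : Type) [CommRing T] [Algebra S T] [IsLocalization Sg T] [Algebra k T]
    [IsScalarTower k S T] :
    ∃ f : E.B →+* T, (∀ a, f (E.c a) = algebraMap S T (π a)) ∧ Function.Injective f := by
  let i1 : Algebra k[X] T := ((algebraMap k T).comp (ev0 k)).toAlgebra
  have hT : ∀ r : k[X], algebraMap k[X] T r = algebraMap k T (ev0 k r) := fun r => rfl
  let f : A →ₐ[k[X]] T :=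
    { (algebraMap S T).comp π with
      commutes' := by
        intro r
        change algebraMap S T (π (algebraMap k[X] A r)) = _
        rw [hπ.algMap, hT, ← IsScalarTower.algebraMap_apply] }
  have hf : ∀ a, f a = algebraMap S T (π a) := fun a => rfl
  obtain ⟨f', hf'⟩ := E.univ T f (fun s hs => by
    rw [hf]
    exact IsLocalization.map_units T ⟨π s, hs⟩) (fun x => by
    rw [pow_one, Algebra.smul_def, hT]
    have : ev0 k (tX k) = 0 := by simp [ev0]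
    rw [this, map_zero, zero_mul])
  refine ⟨f'.toRingHom, fun a => (hf' a).trans (hf a), ?_⟩
  rw [injective_iff_map_eq_zero]
  intro b hb
  have hb' : f' b = 0 := hb
  obtain ⟨s, a, hs, hx⟩ := E.frac b
  have hle : Sg ≤ nonZeroDivisors S := le_nonZeroDivisors_of_noZeroDivisors h0
  have h1 : algebraMap S T (π a) = 0 := by
    rw [← hf, ← hf', ← hx, map_mul, hb', mul_zero]
  have h2 : π a = 0 := IsLocalization.injective T hle (by rw [h1, map_zero])
  obtain ⟨a', ha'⟩ := hπ.ker a h2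
  have h3 : E.c a = 0 := (E.ker a).2 ⟨a', by rw [pow_one]; exact ha'⟩
  refine LOC2_cancel E s hs ?_
  rw [hx, h3, mul_zero]

end LOC2

theorem exists_locLim [IsDomain S] (hπ : IsQC k π) (Sg : Submonoid S) (h0 : (0 : S) ∉ Sg)
    (D : ∀ n, LocN k π Sg n)
    (T : Type) [CommRing T] [Algebra S T] [IsLocalization Sg T] [Algebra k T] [IsScalarTower k S T] :
    ∃ (A' : Type) (_ : Ring A') (_ : Algebra k[X] A') (π' : A' →+* T) (c : A →ₐ[k[X]] A')
      (pr : ∀ n, A' →ₐ[k[X]] (D n).B),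
      IsQC k π' ∧ IsComp k A' ∧ (∀ a, π' (c a) = algebraMap S T (π a)) ∧
      (∀ n a, pr n (c a) = (D n).c a) ∧
      (∀ n (x : A'), pr n x = 0 ↔ ∃ y : A', x = (tX k) ^ n • y) := by
  obtain ⟨f, hf, hinj⟩ := LOC2_exists_pi hπ h0 (D 1) T
  have hc : ∀ a, f (LOC2_pr D 1 (LOC2_c D a)) = algebraMap S T (π a) := fun a => hf a
  refine ⟨LOC2_lim D, inferInstance, inferInstance,
    f.comp (LOC2_pr D 1 : LOC2_lim D →ₐ[k[X]] (D 1).B).toRingHom, LOC2_c D, LOC2_pr D,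
    ⟨LOC2_reg' D hπ, ?_, ?_, ?_, ?_⟩, LOC2_isComp D hπ, hc, LOC2_pr_c D, LOC2_pr_zero D hπ⟩
  · intro t
    obtain ⟨⟨x, s⟩, hxs⟩ := IsLocalization.surj Sg t
    obtain ⟨x', hx'⟩ := hπ.surj x
    obtain ⟨s', hs'⟩ := hπ.surj (s : S)
    have hsm : π s' ∈ Sg := by rw [hs']; exact s.2
    obtain ⟨y, hy⟩ := LOC2_frac D s' x' hsm
    refine ⟨y, ?_⟩
    have hu : IsUnit (algebraMap S T (s : S)) := IsLocalization.map_units T s
    apply hu.mul_right_cancel
    change f (LOC2_pr D 1 y) * _ = _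
    rw [hxs]
    change _ = algebraMap S T x
    rw [← hx', ← hs', ← hc, ← hc, ← hy, map_mul, map_mul, mul_comm]
  · intro a ha
    have h1 : LOC2_pr D 1 a = 0 := hinj (by rw [map_zero]; exact ha)
    obtain ⟨y, hy⟩ := (LOC2_pr_zero D hπ 1 a).1 h1
    exact ⟨y, by rw [pow_one] at hy; exact hy⟩
  · intro b
    change f (LOC2_pr D 1 (tX k • b)) = 0
    rw [map_smul]
    have h1 := LOC2_tors (D 1) (LOC2_pr D 1 b)
    rw [pow_one] at h1
    rw [h1, map_zero]
  · intro c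
    change f (LOC2_pr D 1 (algebraMap k[X] (LOC2_lim D) (Polynomial.C c))) = algebraMap k T c
    rw [← (LOC2_c D).commutes, hc, hπ.scal, ← IsScalarTower.algebraMap_apply]

end C74
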