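import Pool.Agent.MP_35f30a_al.C74.MCD

/-!
ROW MC1.  (2.4.1) and the top part.  Blueprint 2.4.

`H_add`: `st d (z+w) g e - st d z g e = Σ_{j > e, j ≤ d} (con (z+w) j e - con z j e)(f.T (g j))`.
 `j = e+1`: `= con w (e+1) e (f.T (g (e+1)))` (`con_one_add`); `IsFD.FL` for `s.fd`, the subspace `φ(E)` (`TE_map`, `hE`):
 `θ(..) - ev w (Θ2 (f.T (g (e+1)))) ∈ φ(E)`, and `Θ2 (f.T ..) = f.T 1 T1` (`hΘ2`).
 `j > e+1`: `g j ∈ FT (q0 - j r - (j-e-1) ε0 - μ)` (`gap`), `FT_con_sub` with `s := r + ε0`, `s' := t`: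
 `FT_e (q0 - (e+1) r - μ + t)`; `θ` lowers the size by `v / L` (`IsFD.θ_kF`, level `M v` over `X'`); `qT = q0 - (e+1) r - v/L`.
`top`: `FT_con` with `z ∈ F (r + ε0)`.
`orders`: `c.hN`, `c.hT` transported (`Good.OJx`), and `OJ_add` with the first part of `top` (`FTlt_iff`, `hne`).
-/

set_option autoImplicit false

open scoped TensorProduct Polynomial

namespace C74

variable {k : Type} [Field k]
variable {X : Obj k} {d : ℕ} {g : Fam X} {q0 r : ℚ} {e : ℕ}

/-- the size `q0 - (e+1) r` is `ne / L` -/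
theorem MC1_q (c : Chain X d g q0 r e) :
    q0 - (e + 1 : ℕ) * r = (c.ne : ℚ) / X.L := by
  have hL : (X.L : ℚ) ≠ 0 := by
    have := X.Lpos
    positivity
  rw [eq_div_iff hL, c.hne]
  ring

/-- transported `gap`, in the form used below -/
theorem MC1_gap {c : Chain X d g q0 r e} (s : CSt c) {j : ℕ} (h1 : e + 1 < j) (h2 : j ≤ d) :
    s.f.T j (g j) ∈ s.X'.FT j (q0 - j * r - (j - (e + 1) : ℕ) * c.ε0 - c.μ) :=
  (s.f.FT_iff _ _).2 (c.gap j h1 h2)

/-- the terms above `e+1` of the Taylor shift at the index `i ≥ e + 1` -/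
theorem MC1_con {c : Chain X d g q0 r e} (s : CSt c) {z : s.X'.D}
    (hz : z ∈ s.X'.F (r + c.ε0)) {i j : ℕ} (hi : e + 1 ≤ i) (hij : i ≤ j) (h1 : e + 1 < j)
    (h2 : j ≤ d) :
    TP.con z j i (s.f.T j (g j)) ∈ s.X'.FT i (q0 - i * r - c.μ) := by
  have h := FT_con hij hz (MC1_gap s h1 h2)
  refine FT_mono ?_ h
  have e1 : ((j - i : ℕ) : ℚ) = (j : ℚ) - i := by rw [Nat.cast_sub hij]
  have e2 : ((j - (e + 1) : ℕ) : ℚ) = (j : ℚ) - (e + 1) := by
    rw [Nat.cast_sub h1.le]; push_cast; ring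
  rw [e1, e2]
  have h3 : ((e : ℚ) + 1) ≤ i := by exact_mod_cast hi
  have h4 : 0 ≤ ((i : ℚ) - (e + 1)) * c.ε0 := mul_nonneg (by linarith) c.ε0pos.le
  nlinarith

/-- (2.4.1) -/
theorem CSt.H_add {c : Chain X d g q0 r e} (s : CSt c) {z w : s.X'.D} {t : ℚ}
    (hz : z ∈ s.X'.F (r + c.ε0)) (hw : w ∈ s.X'.F t) (ht : t ≤ r + c.ε0) :
    ∃ β ∈ c.E, s.H (z + w) - s.H z - TP.ev w (s.f.T 1 c.T1) - s.f.φ β ∈
      s.X'.F (c.qT + t - c.μ) := by
  have hed : e + 1 ≤ d := c.crit.le_d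
  -- the linear part
  have hTE : s.f.T (e + 1) (g (e + 1)) ∈ TE (c.E.map s.f.φ.toLinearMap) (e + 1) :=
    TE_map s.f c.E (c.hE (e + 1))
  have hFL := s.fd.FL _ hTE w
  rw [s.hΘ2] at hFL
  obtain ⟨β, hβ, hβe⟩ := hFL
  refine ⟨β, hβ, ?_⟩
  have hβe' : s.f.φ β = TP.toA (s.θ (TP.con w (e + 1) e (s.f.T (e + 1) (g (e + 1))))) -
      TP.ev w (s.f.T 1 c.T1) := hβe
  -- the remainder
  set R : TP k s.X'.D e := s.f.st d (z + w) g e - s.f.st d z g e -
    TP.con w (e + 1) e (s.f.T (e + 1) (g (e + 1))) with hR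
  have hRsum : R = ∑ j ∈ Finset.range (d + 1), (if e + 1 < j then
      TP.con (z + w) j e (s.f.T j (g j)) - TP.con z j e (s.f.T j (g j)) else 0) := by
    have h1 : TP.con w (e + 1) e (s.f.T (e + 1) (g (e + 1))) =
        ∑ j ∈ Finset.range (d + 1), (if j = e + 1 then
          TP.con w (e + 1) e (s.f.T (e + 1) (g (e + 1))) else 0) := by
      rw [Finset.sum_ite_eq' (Finset.range (d + 1)) (e + 1), if_pos (Finset.mem_range.2 (by omega))]
    rw [hR, h1]
    unfold Ext.st TP.tay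
    rw [← Finset.sum_sub_distrib, ← Finset.sum_sub_distrib]
    refine Finset.sum_congr rfl fun j _ => ?_
    rcases lt_trichotomy j (e + 1) with h | h | h
    · rw [if_neg (by omega), if_neg (by omega), sub_zero]
      rcases Nat.lt_or_ge j e with h' | h'
      · rw [TP.con_lt _ _ _ h', TP.con_lt _ _ _ h', sub_zero]
      · obtain rfl : j = e := by omega
        rw [TP.con_self, TP.con_self, sub_self]
    · subst h
      rw [if_pos rfl, if_neg (by omega), TP.con_one_add, add_sub_cancel_left, sub_self]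
    · rw [if_neg (by omega), if_pos h, sub_zero]
  have hRF : R ∈ s.X'.FT e (q0 - (e + 1 : ℕ) * r - c.μ + t) := by
    rw [hRsum]
    refine Submodule.sum_mem _ fun j hj => ?_
    split_ifs with h
    · have hjd : j ≤ d := by
        have := Finset.mem_range.1 hj
        omega
      have h2 := FT_con_sub (show e < j by omega) hz hw ht (MC1_gap s h hjd)
      refine FT_mono ?_ h2
      have e1 : ((j - e - 1 : ℕ) : ℚ) = (j : ℚ) - e - 1 := by
        rw [Nat.sub_sub, Nat.cast_sub h.le]; push_cast; ring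
      have e2 : ((j - (e + 1) : ℕ) : ℚ) = (j : ℚ) - (e + 1) := by
        rw [Nat.cast_sub h.le]; push_cast; ring
      rw [e1, e2]
      apply le_of_eq
      push_cast
      ring
    · exact Submodule.zero_mem _
  have hθR := s.fd.θ_kF hRF
  have hlev : ⌊(s.X'.L : ℚ) * (q0 - (e + 1 : ℕ) * r - c.μ + t)⌋ - (s.f.M : ℤ) * c.v =
      ⌊(s.X'.L : ℚ) * (c.qT + t - c.μ)⌋ := by
    have hL : (X.L : ℚ) ≠ 0 := by
      have := X.Lpos
      positivity
    have h3 : (s.X'.L : ℚ) * (c.qT + t - c.μ) =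
        (s.X'.L : ℚ) * (q0 - (e + 1 : ℕ) * r - c.μ + t) - (((s.f.M : ℤ) * c.v : ℤ) : ℚ) := by
      rw [MC1_q c, s.f.hL]
      unfold Chain.qT
      push_cast
      field_simp
      ring
    rw [h3, Int.floor_sub_intCast]
  rw [hlev] at hθR
  have hfin : s.H (z + w) - s.H z - TP.ev w (s.f.T 1 c.T1) - s.f.φ β = TP.toA (s.θ R) := by
    rw [hβe', hR]
    unfold CSt.H
    rw [map_sub, map_sub, map_sub, map_sub]
    abel
  rw [hfin]
  exact hθR

/-- the top component does not change: exact size of `g^{(Z)}_{e+1}`, and smallness above -/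
theorem CSt.top {c : Chain X d g q0 r e} (s : CSt c) {z : s.X'.D}
    (hz : z ∈ s.X'.F (r + c.ε0)) :
    s.X'.FTlt (q0 - (e + 1 : ℕ) * r)
      (s.f.st d z g (e + 1) - s.f.T (e + 1) (g (e + 1))) ∧
    ∀ j, e + 1 < j → j ≤ d → s.f.st d z g j ∈ s.X'.FT j (q0 - j * r - c.μ) := by
  have hed : e + 1 ≤ d := c.crit.le_d
  constructor
  · have h1 : s.f.st d z g (e + 1) - s.f.T (e + 1) (g (e + 1)) =
        ∑ j ∈ Finset.range (d + 1), (if e + 1 < j then
          TP.con z j (e + 1) (s.f.T j (g j)) else 0) := by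
      have h1 : s.f.T (e + 1) (g (e + 1)) =
          ∑ j ∈ Finset.range (d + 1), (if j = e + 1 then s.f.T (e + 1) (g (e + 1)) else 0) := by
        rw [Finset.sum_ite_eq' (Finset.range (d + 1)) (e + 1),
          if_pos (Finset.mem_range.2 (by omega))]
      conv_lhs => rw [h1]
      unfold Ext.st TP.tay
      rw [← Finset.sum_sub_distrib]
      refine Finset.sum_congr rfl fun j _ => ?_
      rcases lt_trichotomy j (e + 1) with h | h | h
      · rw [if_neg (by omega), if_neg (by omega), TP.con_lt _ _ _ h, sub_zero]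
      · subst h
        rw [if_pos rfl, if_neg (by omega), TP.con_self, sub_self]
      · rw [if_neg (by omega), if_pos h, sub_zero]
    rw [h1]
    have hmu := c.μpos
    refine FTlt_of_FT (show q0 - (e + 1 : ℕ) * r - c.μ < q0 - (e + 1 : ℕ) * r by linarith) ?_
    refine Submodule.sum_mem _ fun j hj => ?_
    split_ifs with h
    · have hjd : j ≤ d := by
        have := Finset.mem_range.1 hj
        omega
      exact MC1_con s hz le_rfl h.le h hjd
    · exact Submodule.zero_mem _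
  · intro i hi hid
    unfold Ext.st TP.tay
    refine Submodule.sum_mem _ fun j hj => ?_
    have hjd : j ≤ d := by
      have := Finset.mem_range.1 hj
      omega
    rcases Nat.lt_or_ge j i with h | h
    · rw [TP.con_lt _ _ _ h]
      exact Submodule.zero_mem _
    · exact MC1_con s hz hi.le h (by omega) hjd

/-- orders at the base point `Z` -/
theorem CSt.orders {c : Chain X d g q0 r e} (s : CSt c) (hg : s.f.Good) {z : s.X'.D}
    (hz : z ∈ s.X'.F (r + c.ε0)) :
    OJx s.X' ((s.f.M : ℤ) * c.ne) c.N (s.f.st d z g (e + 1)) ∧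
      OJx s.X' ((s.f.M : ℤ) * (c.ne - c.v)) c.N (s.f.T 1 c.T1) := by
  constructor
  · have h1 := hg.OJx c.hN
    have h2 := (s.top hz).1
    have hL : (X.L : ℚ) ≠ 0 := by
      have := X.Lpos
      positivity
    have hM : (s.f.M : ℚ) ≠ 0 := by
      have := s.f.Mpos
      positivity
    have h3 : q0 - (e + 1 : ℕ) * r = (((s.f.M : ℤ) * c.ne : ℤ) : ℚ) / s.X'.L := by
      rw [MC1_q c, s.f.hL]
      push_cast
      field_simp
    rw [h3, FTlt_iff] at h2
    have h4 : s.f.st d z g (e + 1) = s.f.T (e + 1) (g (e + 1)) +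
        (s.f.st d z g (e + 1) - s.f.T (e + 1) (g (e + 1))) := by abel
    rw [h4]
    exact ⟨(OJ_add h2).2 h1.1, fun h => h1.2 ((OJ_add h2).1 h)⟩
  · exact hg.OJx c.hT

end C74
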