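import Pool.Agent.MP_35f30a_al.C74.NDE

/-!
ROW XC.  Case B: a nonconstant leading coefficient.  Blueprint section 2.5 (CASE B).

`n0 := L M q0 ∈ ℤ`.  `ev (S.w c) (gQ (g j)) = c^j • ev (S.w 1) (gQ (g j))` (`con_smulR` with `r = C c ∈ k[X]`).  For `j ≥ 1` these are in
`lev n0` (est1, est3 with `i = 0`); let `Φ_j` be the residue of `S.gw 1 j` at level `n0`; `κ` the residue of
`gQ (g 0)` at level `M (L q0)`: `κ = C(κ0)`, `κ0 ≠ 0` (`DRes` of `g 0` is nonzero as `g 0` has exact size `q0`; `uRes_gQ`/`res_toQ`).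
`epsb Φ_j = 0` for `j ≥ 1`: `S.gw 1 j = tz (-n0) * ι q`, `πQ q = Φ_j`; `Fr.map eps` (scale `1`; `IsScale k 1 eps`) sends
`S.w 1` to `0`, so it sends `S.gw 1 j = ev ..` to `ev 0 (..) = 0` (`j ≥ 1`, `con_zero`, `map_ev`), so `ι (eps q) = 0`, `eps q = 0`,
`epsb Φ_j = πO (eps q) = 0`.  Hence a nonzero `Φ_j` is not in `range C` (`epsC`).
`¬ CaseA`: some `Φ_j ≠ 0`, so `∉ range C`.  `Φ(c) := κ + Σ_{j ≥ 1} c^j Φ_j`.  Modulo `range C` (a `k`-subspace; take a functional or work in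
the quotient) this is a polynomial in `c` with a nonzero coefficient of degree `≥ 1`, so it is nonzero for some `c ∈ k`,
`c ≠ 0` (`k` infinite: finitely many roots).  `epsb Φ(c) = κ0 ≠ 0`.
-/

set_option autoImplicit false

open scoped TensorProduct Polynomial

namespace C74

variable {k : Type} [Field k]


section xc

lemma XC_res_sum {A : Type} [Ring A] [Algebra k[X] A] {S' : Type} [CommRing S'] {π : A →+* S'}
    {n : ℤ} {ι : Type} (I : Finset ι) (y : ι → Fr k A) (s : ι → S')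
    (h : ∀ i ∈ I, Fr.Res π n (y i) (s i)) : Fr.Res π n (∑ i ∈ I, y i) (∑ i ∈ I, s i) := by
  classical
  induction I using Finset.induction_on with
  | empty => exact ⟨0, by simp, by simp⟩
  | insert a I ha ih =>
    rw [Finset.sum_insert ha, Finset.sum_insert ha]
    obtain ⟨u, hu, hs⟩ := h a (Finset.mem_insert_self _ _)
    obtain ⟨v, hv, hs'⟩ := ih fun i hi => h i (Finset.mem_insert_of_mem hi)
    exact ⟨u + v, by rw [hu, hv, map_add, mul_add], by rw [map_add, hs, hs']⟩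

lemma XC_uLev_zero {A : Type} [Ring A] [Algebra k[X] A] {n : ℤ} (T : TP k[X] (Fr k A) 0) :
    uLev k A n T ↔ TP.toA T ∈ Fr.lev k A n := by
  constructor
  · rintro ⟨T', hT'⟩
    exact ⟨TP.toA T', by rw [hT']; rfl⟩
  · rintro ⟨a, ha⟩
    exact ⟨TP.ofA a, ha⟩

variable {X : Obj k} {d : ℕ} {g : Fam X} {q0 r : ℚ} {N : ℕ} {δ : ℚ}
  (S : NDS X d g q0 r N δ)

lemma XC_scale {O Q : Type} [Ring Q] [Algebra k[X] Q] [Ring O] [Algebra k[X] O]
    (ε : Q →ₐ[k[X]] O) : IsScale k 1 (ε : Q →+* O) := by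
  intro r
  have h1 : sig k 1 r = r := Polynomial.expand_one r
  rw [h1]
  exact ε.commutes r

/-- the terms with `j ≥ 1` -/
lemma XC_term {n0 : ℤ} (hn0 : (n0 : ℚ) = X.L * S.M * q0) {j : ℕ} (hj : 1 ≤ j) (hjd : j ≤ d) :
    ∃ φ : MvPolynomial S.Λ X.Γ, Fr.Res S.πQ n0 (S.gw 1 j) φ ∧ S.epsb φ = 0 := by
  have hlev : S.gw 1 j ∈ Fr.lev k S.Q n0 := by
    have hfl : ⌊((X.L * S.M : ℕ) : ℚ) * (q0 - (0 : ℕ) * r)⌋ = n0 := by
      have : ((X.L * S.M : ℕ) : ℚ) * (q0 - (0 : ℕ) * r) = (n0 : ℚ) := by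
        rw [hn0]; push_cast; ring
      rw [this, Int.floor_intCast]
    have h : uQ k S.Q (X.L * S.M) (q0 - (0 : ℕ) * r)
        (TP.con (S.w 1) j 0 (gQ X S.f S.hf (g j))) := by
      by_cases hx : X.FTx (q0 - j * r) (g j)
      · exact S.est1 1 hj hjd (Nat.zero_le j) hx
      · refine uQ_mono ?_ (S.est3 1 hj hjd (Nat.zero_le j) hx)
        have := S.μ0pos
        linarith
    unfold uQ at h
    rw [hfl, XC_uLev_zero] at h
    exact h
  obtain ⟨q, hq⟩ := hlev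
  refine ⟨S.πQ q, ⟨q, hq, rfl⟩, ?_⟩
  rw [← S.epsr]
  have hE : IsScale k 1 (S.eps : S.Q →+* S.O) := XC_scale S.eps
  have h1 : Fr.map (S.eps : S.Q →+* S.O) hE (S.gw 1 j) = 0 := by
    have h2 := TP.map_ev (sig k 1) (Fr.map (S.eps : S.Q →+* S.O) hE)
      (fun r => Fr.map_algebraMap _ hE r) (S.w 1) j (gQ X S.f S.hf (g j))
    have h3 : Fr.map (S.eps : S.Q →+* S.O) hE (S.w 1) = 0 := by
      unfold NDS.w
      rw [map_mul, Fr.map_ι, map_mul]
      have : (S.eps : S.Q →+* S.O) S.w0 = 0 := S.epsw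
      rw [this, mul_zero, map_zero, mul_zero]
    rw [h3] at h2
    have h4 : ∀ T : TP k[X] (Fr k S.O) j, TP.ev (0 : Fr k S.O) T = 0 := by
      intro T
      unfold TP.ev
      rw [TP.con_zero _ _ (by omega)]; exact map_zero _
    rw [h4] at h2
    exact h2
  rw [hq, map_mul, map_tz, Fr.map_ι] at h1
  have h5 : (Fr.ι ((S.eps : S.Q →+* S.O) q) : Fr k S.O) = 0 := by
    have h6 := congrArg (fun z => (Fr.tz (((1 : ℕ) : ℤ) * n0) : Fr k S.O) * z) h1
    simp only [mul_zero] at h6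
    rw [← mul_assoc, ← Fr.tz_add, mul_neg, add_neg_cancel, Fr.tz_zero, one_mul] at h6
    exact h6
  have h7 : S.eps q = 0 := by
    apply Fr.ι_injective (k := k) (A := S.O) S.qcO.reg
    rw [map_zero]; exact h5
  rw [h7, map_zero]

/-- dependence on the scalar -/
lemma XC_gw (c : k) (j : ℕ) : S.gw c j = ((Polynomial.C c : k[X]) ^ j) • S.gw 1 j := by
  have h1 : S.w c = (Polynomial.C c : k[X]) • S.w 1 := by
    unfold NDS.w
    rw [map_one, map_one, one_mul, map_mul, AlgHom.commutes, Algebra.smul_def, ← mul_assoc,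
      ← mul_assoc, Fr.tz_comm]
  unfold NDS.gw TP.ev
  rw [h1, TP.con_smulR _ _ _ _ (Nat.zero_le j), TP.toA_smulR, Nat.sub_zero]

lemma XC_res_gw (c : k) {j : ℕ} {n0 : ℤ} {φ : MvPolynomial S.Λ X.Γ}
    (h : Fr.Res S.πQ n0 (S.gw 1 j) φ) :
    Fr.Res S.πQ n0 (S.gw c j) (MvPolynomial.C (algebraMap k X.Γ c ^ j) * φ) := by
  obtain ⟨q, hq, hφ⟩ := h
  refine ⟨((Polynomial.C c : k[X]) ^ j) • q, ?_, ?_⟩
  · rw [XC_gw, hq, map_smul, mul_smul_comm]
  · rw [← Polynomial.C_pow, Algebra.smul_def, map_mul, S.qcQ.scal, hφ, ← map_pow]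
    rfl

/-- the term `j = 0` -/
lemma XC_zero {e : ℕ} (hC : Crit X d g q0 r e) {n0 : ℤ} (hn0 : (n0 : ℚ) = X.L * S.M * q0) (c : k) :
    ∃ κ0 : X.Γ, κ0 ≠ 0 ∧ Fr.Res S.πQ n0 (S.gw c 0) (MvPolynomial.C κ0) := by
  have hL : (X.L : ℚ) ≠ 0 := by exact_mod_cast X.Lpos.ne'
  obtain ⟨n, hn, hkF, hkF'⟩ := FTx_iff.mp hC.zero
  have hn1 : q0 * X.L = n := (eq_div_iff hL).mp hn
  have hn0' : n0 = (S.M : ℤ) * n := by
    have : (n0 : ℚ) = (((S.M : ℤ) * n : ℤ) : ℚ) := by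
      rw [hn0]; push_cast; rw [← hn1]; ring
    exact_mod_cast this
  have hkF2 : (TP.toA (g 0) : X.D) ∈ Fr.lev k X.A n := hkF
  obtain ⟨b, hb⟩ := exists_res hkF2
  have hb0 : b ≠ 0 := by
    rintro rfl
    exact hkF' ((mem_lev_iff_res hb).mpr rfl)
  refine ⟨X.mon n b, ?_, ?_⟩
  · unfold Obj.mon
    intro h0
    have h1 : (LaurentPolynomial.C b * LaurentPolynomial.T n : LaurentPolynomial X.K) = 0 :=
      (map_eq_zero_iff _ (IsFractionRing.injective (LaurentPolynomial X.K) X.Γ)).mp h0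
    have h2 : b = 0 ∨ (LaurentPolynomial.T n : LaurentPolynomial X.K) = 0 := by simpa using h1
    rcases h2 with h2 | h2
    · exact hb0 h2
    · exact (LaurentPolynomial.isUnit_T n).ne_zero h2
  · rw [hn0']
    exact res_toQ X S.f S.hf hb (MvPolynomial.C : X.Γ →+* MvPolynomial S.Λ X.Γ) S.hfr

end xc

theorem NDS.exists_c [IsAlgClosed k] {X : Obj k} {d : ℕ} {g : Fam X} {q0 r : ℚ} {e N : ℕ} {δ : ℚ}
    (S : NDS X d g q0 r N δ) (hC : Crit X d g q0 r e) (hB : ¬ S.CaseA) :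
    ∃ (c : k) (n0 : ℤ) (Φ : MvPolynomial S.Λ X.Γ), c ≠ 0 ∧ (n0 : ℚ) = X.L * S.M * q0 ∧
      Fr.Res S.πQ n0 (∑ j ∈ Finset.range (d + 1), S.gw c j) Φ ∧
      Φ ∉ Set.range (MvPolynomial.C : X.Γ → MvPolynomial S.Λ X.Γ) ∧ S.epsb Φ ≠ 0 := by
  classical
  have hL : (X.L : ℚ) ≠ 0 := by exact_mod_cast X.Lpos.ne'
  obtain ⟨n, hn, -, -⟩ := FTx_iff.mp hC.zero
  have hn1 : q0 * X.L = n := (eq_div_iff hL).mp hn
  obtain ⟨n0, hn0⟩ : ∃ n0 : ℤ, (n0 : ℚ) = X.L * S.M * q0 := by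
    refine ⟨(S.M : ℤ) * n, ?_⟩
    push_cast; rw [← hn1]; ring
  have hex : ∀ j : ℕ, ∃ φ : MvPolynomial S.Λ X.Γ, 1 ≤ j → j ≤ d →
      Fr.Res S.πQ n0 (S.gw 1 j) φ ∧ S.epsb φ = 0 := by
    intro j
    by_cases h : 1 ≤ j ∧ j ≤ d
    · obtain ⟨φ, hφ⟩ := XC_term S hn0 h.1 h.2
      exact ⟨φ, fun _ _ => hφ⟩
    · exact ⟨0, fun h1 h2 => absurd ⟨h1, h2⟩ h⟩
  choose φ hφ using hex
  -- a nonzero term
  obtain ⟨j1, hj1, hj1d, hφ0⟩ : ∃ j1, 1 ≤ j1 ∧ j1 ≤ d ∧ φ j1 ≠ 0 := by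
    by_contra hcon
    push Not at hcon
    apply hB
    intro j n' hj hjd hn'
    have h1 : n' = n0 := by
      have : (n' : ℚ) = n0 := by rw [hn', hn0]
      exact_mod_cast this
    obtain ⟨⟨q, hq, hπ⟩, -⟩ := hφ j hj hjd
    rw [hcon j hj hjd] at hπ
    obtain ⟨b, hb⟩ := S.qcQ.ker _ hπ
    refine ⟨b, ?_⟩
    rw [h1, hq, hb, map_smul, Algebra.smul_def, ← Fr.tz_one, ← mul_assoc, ← Fr.tz_add]
    congr 2
    ring
  have hφC : φ j1 ∉ Set.range (MvPolynomial.C : X.Γ → MvPolynomial S.Λ X.Γ) := by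
    rintro ⟨x, hx⟩
    have h1 := (hφ j1 hj1 hj1d).2
    rw [← hx, S.epsC] at h1
    rw [h1, map_zero] at hx
    exact hφ0 hx.symm
  obtain ⟨m, hm, hmc⟩ : ∃ m : S.Λ →₀ ℕ, m ≠ 0 ∧ MvPolynomial.coeff m (φ j1) ≠ 0 := by
    by_contra hcon
    push Not at hcon
    apply hφC
    refine ⟨MvPolynomial.coeff 0 (φ j1), ?_⟩
    ext m
    rw [MvPolynomial.coeff_C]
    split_ifs with h
    · rw [h]
    · exact (hcon m (Ne.symm h)).symm
  -- the polynomial in `c`
  let p : Polynomial X.Γ := ∑ j ∈ Finset.range (d + 1),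
    if j = 0 then 0 else Polynomial.C (MvPolynomial.coeff m (φ j)) * Polynomial.X ^ j
  have hp0 : p ≠ 0 := by
    intro h0
    have h1 : p.coeff j1 = MvPolynomial.coeff m (φ j1) := by
      show (∑ j ∈ Finset.range (d + 1), if j = 0 then 0 else
        Polynomial.C (MvPolynomial.coeff m (φ j)) * Polynomial.X ^ j : Polynomial X.Γ).coeff j1 = _
      rw [Polynomial.finsetSum_coeff, Finset.sum_eq_single j1]
      · rw [if_neg (by omega), Polynomial.coeff_C_mul_X_pow, if_pos rfl]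
      · intro j _ hj
        split_ifs with h
        · simp
        · rw [Polynomial.coeff_C_mul_X_pow, if_neg (Ne.symm hj)]
      · intro h
        exact absurd (Finset.mem_range.mpr (Nat.lt_succ_of_le hj1d)) h
    rw [h0, Polynomial.coeff_zero] at h1
    exact hmc h1.symm
  obtain ⟨c, hc0, hcp⟩ : ∃ c : k, c ≠ 0 ∧ p.eval (algebraMap k X.Γ c) ≠ 0 := by
    by_contra hcon
    push Not at hcon
    have hinf : Set.Infinite {x | Polynomial.IsRoot (p * Polynomial.X) x} := by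
      refine Set.Infinite.mono ?_ (Set.infinite_range_of_injective (algebraMap k X.Γ).injective)
      rintro _ ⟨c, rfl⟩
      rw [Set.mem_ofPred_eq, Polynomial.IsRoot, Polynomial.eval_mul, Polynomial.eval_X]
      by_cases hc : c = 0
      · rw [hc, map_zero, mul_zero]
      · rw [hcon c hc, zero_mul]
    have h1 := Polynomial.eq_zero_of_infinite_isRoot _ hinf
    exact (mul_ne_zero hp0 Polynomial.X_ne_zero) h1
  obtain ⟨κ0, hκ, hκres⟩ := XC_zero S hC hn0 c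
  let ψ : ℕ → MvPolynomial S.Λ X.Γ := fun j =>
    if j = 0 then MvPolynomial.C κ0 else MvPolynomial.C (algebraMap k X.Γ c ^ j) * φ j
  refine ⟨c, n0, ∑ j ∈ Finset.range (d + 1), ψ j, hc0, hn0, ?_, ?_, ?_⟩
  · refine XC_res_sum _ _ _ ?_
    intro j hj
    rw [Finset.mem_range] at hj
    show Fr.Res S.πQ n0 (S.gw c j)
      (if j = 0 then MvPolynomial.C κ0 else MvPolynomial.C (algebraMap k X.Γ c ^ j) * φ j)
    split_ifs with h
    · rw [h]; exact hκres
    · exact XC_res_gw S c (hφ j (by omega) (by omega)).1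
  · rintro ⟨x, hx⟩
    apply hcp
    have h1 := congrArg (MvPolynomial.coeff m) hx
    rw [MvPolynomial.coeff_C, if_neg (Ne.symm hm), MvPolynomial.coeff_sum] at h1
    show (∑ j ∈ Finset.range (d + 1), if j = 0 then 0 else
        Polynomial.C (MvPolynomial.coeff m (φ j)) * Polynomial.X ^ j : Polynomial X.Γ).eval _ = 0
    rw [Polynomial.eval_finsetSum, h1]
    refine Finset.sum_congr rfl fun j _ => ?_
    show _ = MvPolynomial.coeff m
      (if j = 0 then MvPolynomial.C κ0 else MvPolynomial.C (algebraMap k X.Γ c ^ j) * φ j)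
    split_ifs with h
    · rw [MvPolynomial.coeff_C, if_neg (Ne.symm hm), Polynomial.eval_zero]
    · rw [MvPolynomial.coeff_C_mul, Polynomial.eval_mul, Polynomial.eval_C, Polynomial.eval_pow,
        Polynomial.eval_X, mul_comm]
  · have h1 : S.epsb (∑ j ∈ Finset.range (d + 1), ψ j) = κ0 := by
      rw [map_sum, Finset.sum_eq_single 0]
      · show S.epsb (MvPolynomial.C κ0) = κ0
        exact S.epsC κ0
      · intro j hj h
        rw [Finset.mem_range] at hj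
        show S.epsb (if j = 0 then MvPolynomial.C κ0 else
          MvPolynomial.C (algebraMap k X.Γ c ^ j) * φ j) = 0
        rw [if_neg h, map_mul, (hφ j (by omega) (by omega)).2, mul_zero]
      · intro h
        exact absurd (Finset.mem_range.mpr (Nat.succ_pos d)) h
    rw [h1]; exact hκ

end C74
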