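import Pool.Agent.MP_35f30a_al.C74.NDX
import Pool.Agent.MP_35f30a_al.C74.CA
import Pool.Agent.MP_35f30a_al.C74.XC
import Pool.Agent.MP_35f30a_al.C74.CB3

/-!
The ND lemma (assembled, no row).  Blueprint 2.2, 2.5.
-/

set_option autoImplicit false

open scoped TensorProduct Polynomial

namespace C74

variable {k : Type} [Field k]

/-- ND LEMMA (blueprint 2.2) -/
theorem nd_lemma [IsAlgClosed k] {X : Obj k} {d : ℕ} {g : Fam X} {q0 r : ℚ} {e : ℕ}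
    (hC : Crit X d g q0 r e) (hND : ¬ Drop X d g r e) {N : ℕ} {ne : ℤ}
    (hne : (ne : ℚ) = X.L * (q0 - e * r)) (hN : OJx X ne N (g e))
    {T1 : TP k X.D 1} {nT : ℤ} (hT1 : OJx X nT N T1) (E : Submodule k X.D) {δ : ℚ} (hδ : 0 < δ)
    (hstar : ∀ (X' : Obj k) (f : Ext X X') (w : X'.D), w ∈ X'.F (r + δ) →
      Small (f.st d w g) q0 r e →
        ∃ β ∈ E, X'.FTlt ((nT : ℚ) / X.L + r)
          (TP.ofA (TP.ev w (f.T 1 T1) - f.φ β) : TP k X'.D 0)) :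
    ∃ (X' : Obj k) (f : Ext X X') (w : X'.D), f.Good ∧ w ∈ X'.F (r + δ) ∧
      Small (f.st d w g) q0 r e ∧
        X'.FTx ((nT : ℚ) / X.L + r) (TP.ofA (TP.ev w (f.T 1 T1)) : TP k X'.D 0) := by
  obtain ⟨S⟩ := exists_NDS hC hne hN hδ
  by_cases hA : S.CaseA
  · exact absurd (S.case_A hC hA) hND
  · obtain ⟨c, n0, Φ, hc, hn0, h1, h2, h3⟩ := S.exists_c hC hA
    obtain ⟨Z⟩ := exists_NXB S Φ h2 h3
    have hS := Z.small hC hND hn0 h1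
    have hN0 := Z.N0_eq hC hne hN hS
    obtain ⟨hG, hx⟩ := Z.concl hN0 hδ hT1 E hstar hc hS
    exact ⟨Z.Y.obj, Z.Y.ext, Z.Y.w c 0, hG, Z.Y.w_Fδ hδ c (Nat.zero_le _), hS, hx⟩

end C74
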