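import Pool.Agent.MP_35f30a_al.C74.MC1
import Pool.Agent.MP_35f30a_al.C74.NDL

/-!
ROW MC2.  The ND step of the chain.  Blueprint 2.4 (Check (*)).

Apply `nd_lemma` to `X := s.X'`, the state `G := s.f.st d z g`, `q', r'`, index `e+1`, `T1 := s.f.T 1 c.T1`, `nT := M (ne - v)`,
`ne' := M ne` (`M := s.f.M`), `E' := c.E.map φ`, `δ := min (μ/2) ε0`.
* `q' - (e+1) r' = q0 - (e+1) r`: both are the exact size of `G (e+1)` (`hC.ex`; `CSt.top`, `c.crit.ex`, `FTx_add`, `Ext.FTx_iff`,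
  `FTx_unique`); so `ne' = X'.L (q' - (e+1) r')` and the orders are `CSt.orders`.  `¬ Drop`: `Drop.of_ext` (`ε0 ≤ 1`).
* `hstar`: given `f'`, `w ∈ F''(r' + δ)` with `Small (f'.st d w G) q' r' (e+1)`: let `s'' := s.push f'`, `z'' := f'.φ z`.
  `Small` at `i = e`: `s''.f.st d (z''+w) g e` (`Ext.st_st`) has size `< q' - e r'`, so
  `s''.H (z''+w)` has size `< q' - e r' - v/L = qT + r'`.  `s''.Near z'' ε` (`push_Near`), `ε < qT + r'`.  `H_add` with
  `t := r' + δ ≤ r + ε0`: error in `F (qT + r' + δ - μ)`, `< qT + r'`.  So `ev w (T1) ∈ φ(E) + FTlt (qT + r')`; `β' ∈ E'` must be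
  chosen in `c.E.map φ`, and `f'.φ (φ β) = (f'.comp φ) β`.
* Result: `h := f` good, `w ∈ F (r' + δ) ⊆ F (r' + ε0)`, `Small`, `FTx (qT + r') (ev w ..)`.  By `hstar` again `ev w .. = φ β + smaller`, so
  `φ β` and hence `β` has exact size `qT + r'` (first conclusion).  `s' := s.push h`, `F := s.pushHom h`.  `Near (φ z + w) m`: `H` has size
  `< qT + r'`, i.e. `H ∈ F m` with some `m < qT + r'`; take `β := 0`.
-/

set_option autoImplicit false

open scoped TensorProduct Polynomial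

namespace C74

variable {k : Type} [Field k]
variable {X : Obj k} {d : ℕ} {g : Fam X} {q0 r : ℚ} {e : ℕ}

private theorem MC2_L {c : Chain X d g q0 r e} (s : CSt c) :
    ((s.X'.L : ℕ) : ℚ) = (X.L : ℚ) * s.f.M := by
  rw [s.f.hL]
  push_cast
  rfl

private theorem MC2_Lne (X : Obj k) : (X.L : ℚ) ≠ 0 := by
  have := X.Lpos
  positivity

/-- `H` lowers sizes by `v / L` -/
private theorem MC2_H {c : Chain X d g q0 r e} (s : CSt c) {y : s.X'.D} {q : ℚ}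
    (h : s.X'.FTlt q (s.f.st d y g e)) :
    s.X'.FTlt (q - (c.v : ℚ) / X.L) (TP.ofA (s.H y) : TP k s.X'.D 0) := by
  rw [FTlt_iff_ceil] at h ⊢
  have h1 := s.fd.θ_kF h
  have h2 : ⌈((s.X'.L : ℕ) : ℚ) * (q - (c.v : ℚ) / X.L)⌉ - 1 =
      ⌈((s.X'.L : ℕ) : ℚ) * q⌉ - 1 - (s.f.M : ℤ) * c.v := by
    have h3 : ((s.X'.L : ℕ) : ℚ) * (q - (c.v : ℚ) / X.L) =
        ((s.X'.L : ℕ) : ℚ) * q - (((s.f.M : ℤ) * c.v : ℤ) : ℚ) := by
      rw [MC2_L s]
      have := MC2_Lne X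
      push_cast
      field_simp
    rw [h3, Int.ceil_sub_intCast]
    ring
  rw [h2]
  exact h1

private theorem MC2_add {Y : Obj k} {q : ℚ} {a b : Y.D}
    (ha : Y.FTlt q (TP.ofA a : TP k Y.D 0)) (hb : Y.FTlt q (TP.ofA b : TP k Y.D 0)) :
    Y.FTlt q (TP.ofA (a + b) : TP k Y.D 0) := by
  rw [map_add]
  exact FTlt_add ha hb

private theorem MC2_sub {Y : Obj k} {q : ℚ} {a b : Y.D}
    (ha : Y.FTlt q (TP.ofA a : TP k Y.D 0)) (hb : Y.FTlt q (TP.ofA b : TP k Y.D 0)) :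
    Y.FTlt q (TP.ofA (a - b) : TP k Y.D 0) := by
  rw [sub_eq_add_neg]
  refine MC2_add ha ?_
  rw [map_neg]
  exact FTlt_neg hb

private theorem MC2_of {Y : Obj k} {q q' : ℚ} (h : q < q') {a : Y.D} (ha : a ∈ Y.F q) :
    Y.FTlt q' (TP.ofA a : TP k Y.D 0) := FTlt_of_FT h (mem_F_iff.1 ha)

private theorem MC2_comb {Y : Obj k} {q : ℚ} {a b t p1 p2 : Y.D}
    (h1 : Y.FTlt q (TP.ofA a : TP k Y.D 0)) (h2 : Y.FTlt q (TP.ofA (b - p1) : TP k Y.D 0))
    (h3 : Y.FTlt q (TP.ofA (a - b - t - p2) : TP k Y.D 0)) :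
    Y.FTlt q (TP.ofA (t - -(p1 + p2)) : TP k Y.D 0) := by
  have h := MC2_sub (MC2_sub h1 h2) h3
  have e : a - (b - p1) - (a - b - t - p2) = t - -(p1 + p2) := by abel
  rw [e] at h
  exact h

/-- the ND step at a chain state -/
theorem CSt.ndStep [IsAlgClosed k] {c : Chain X d g q0 r e} (s : CSt c) (hg : s.f.Good)
    {z : s.X'.D} (hz : z ∈ s.X'.F (r + c.ε0)) {q' r' ε : ℚ} (hr : r' ≤ r)
    (hC : Crit s.X' d (s.f.st d z g) q' r' (e + 1)) (hN : s.Near z ε) (hε : ε < c.qT + r') :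
    (∃ β ∈ c.E, X.FTx (c.qT + r') (TP.ofA β : TP k X.D 0)) ∧
    ∃ (s' : CSt c) (F : CSt.Hom s s') (w : s'.X'.D) (m : ℚ),
      w ∈ s'.X'.F (r' + c.ε0) ∧ m < c.qT + r' ∧
      Small (s'.f.st d (F.h.φ z + w) g) q' r' (e + 1) ∧ s'.Near (F.h.φ z + w) m := by
  have hed : e + 1 ≤ d := c.crit.le_d
  have hXL := MC2_Lne X
  have hMne : (s.f.M : ℚ) ≠ 0 := by
    have := s.f.Mpos
    positivity
  set G : Fam s.X' := s.f.st d z g with hG
  -- exact size of the top component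
  have hsize : q' - (e + 1 : ℕ) * r' = q0 - (e + 1 : ℕ) * r := by
    have h1 : s.X'.FTx (q0 - (e + 1 : ℕ) * r) (s.f.T (e + 1) (g (e + 1))) :=
      (s.f.FTx_iff _ _).2 c.crit.ex
    have h2 := FTx_add h1 (s.top hz).1
    rw [add_sub_cancel] at h2
    exact FTx_unique hC.ex h2
  have hne : (((s.f.M : ℤ) * c.ne : ℤ) : ℚ) = s.X'.L * (q' - (e + 1 : ℕ) * r') := by
    rw [hsize, MC2_L s, mul_comm (X.L : ℚ), mul_assoc, ← c.hne]
    push_cast
    ring
  have hqT : ((((s.f.M : ℤ) * (c.ne - c.v) : ℤ) : ℚ)) / s.X'.L = c.qT := by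
    rw [MC2_L s, Chain.qT]
    push_cast
    field_simp
  have hqT' : q' - e * r' - (c.v : ℚ) / X.L = c.qT + r' := by
    have h1 : q' - e * r' = (c.ne : ℚ) / X.L + r' := by
      rw [c.hne, mul_div_cancel_left₀ _ hXL, ← hsize]
      push_cast
      ring
    rw [h1, Chain.qT, sub_div]
    ring
  have hε01 := c.ε0le
  have hε0 := c.ε0pos
  have hμ := c.μpos
  have hδ : 0 < min (c.μ / 2) c.ε0 := lt_min (by linarith) hε0
  have hND : ¬ Drop s.X' d G r' (e + 1) := by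
    intro hD
    exact c.nd (Drop.of_ext s.f z (F_mono (by linarith) hz) hr hD)
  -- values of `H` at small points
  have hHlt : ∀ (Y : Obj k) (f' : Ext s.X' Y) (w : Y.D),
      Small (f'.st d w G) q' r' (e + 1) →
        Y.FTlt (c.qT + r') (TP.ofA ((s.push f').H (f'.φ z + w)) : TP k Y.D 0) := by
    intro Y f' w hS
    have h1 := hS e (Nat.lt_succ_self e)
    rw [hG, Ext.st_st f' s.f d z w g e (by omega)] at h1
    have h2 := MC2_H (s.push f') h1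
    rw [hqT'] at h2
    exact h2
  have hstar : ∀ (X'' : Obj k) (f' : Ext s.X' X'') (w : X''.D),
      w ∈ X''.F (r' + min (c.μ / 2) c.ε0) →
      Small (f'.st d w G) q' r' (e + 1) →
        ∃ β ∈ c.E.map s.f.φ.toLinearMap,
          X''.FTlt (((((s.f.M : ℤ) * (c.ne - c.v) : ℤ) : ℚ)) / s.X'.L + r')
          (TP.ofA (TP.ev w (f'.T 1 (s.f.T 1 c.T1)) - f'.φ β) : TP k X''.D 0) := by
    intro Y f' w hw hS
    rw [hqT]
    obtain ⟨β1, hβ1, hβ1'⟩ := s.push_Near f' hN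
    have hz'' : f'.φ z ∈ Y.F (r + c.ε0) := (f'.F_iff _ _).2 hz
    have ht : r' + min (c.μ / 2) c.ε0 ≤ r + c.ε0 := by
      have := min_le_right (c.μ / 2) c.ε0
      linarith
    obtain ⟨β2, hβ2, hβ2'⟩ := CSt.H_add (s.push f') (z := f'.φ z) (w := w) hz'' hw ht
    have hlt := hHlt Y f' w hS
    have he1 := MC2_of hε hβ1'
    have hle : c.qT + (r' + min (c.μ / 2) c.ε0) - c.μ < c.qT + r' := by
      have := min_le_left (c.μ / 2) c.ε0
      linarith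
    have he2 := MC2_of hle hβ2'
    refine ⟨s.f.φ (-(β1 + β2)), Submodule.mem_map_of_mem (neg_mem (add_mem hβ1 hβ2)), ?_⟩
    have h2 : (s.push f').f.T 1 c.T1 = f'.T 1 (s.f.T 1 c.T1) := Ext.comp_T f' s.f 1 c.T1
    rw [h2] at he2
    have h1 : Y.FTlt (c.qT + r') (TP.ofA (TP.ev w (f'.T 1 (s.f.T 1 c.T1)) -
        -(f'.φ (s.f.φ β1) + f'.φ (s.f.φ β2))) : TP k Y.D 0) := MC2_comb hlt he1 he2
    have h4 : f'.φ (s.f.φ (-(β1 + β2))) = -(f'.φ (s.f.φ β1) + f'.φ (s.f.φ β2)) := by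
      rw [map_neg, map_neg, map_add, map_add]
    rw [h4]
    exact h1
  obtain ⟨Y, h, w, hgood, hw, hS, hx⟩ := nd_lemma hC hND hne (s.orders hg hz).1 (s.orders hg hz).2
    (c.E.map s.f.φ.toLinearMap) hδ hstar
  refine ⟨?_, ?_⟩
  · obtain ⟨β', hβ', hlt⟩ := hstar Y h w hw hS
    obtain ⟨β, hβ, rfl⟩ := Submodule.mem_map.1 hβ'
    refine ⟨β, hβ, ?_⟩
    rw [hqT] at hx hlt
    have h1 := FTx_add hx (FTlt_neg hlt)
    rw [← map_neg, ← map_add] at h1
    have h2 : TP.ev w (h.T 1 (s.f.T 1 c.T1)) + -(TP.ev w (h.T 1 (s.f.T 1 c.T1)) -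
        h.φ (s.f.φ.toLinearMap β)) = h.φ (s.f.φ β) := by
      rw [neg_sub, add_sub_cancel]
      rfl
    rw [h2] at h1
    have h3 : (TP.ofA (h.φ (s.f.φ β)) : TP k Y.D 0) =
        (h.comp s.f).T 0 (TP.ofA β : TP k X.D 0) := by
      rw [Ext.T_ofA]
      rfl
    rw [h3, Ext.FTx_iff] at h1
    exact h1
  · have hlt := hHlt Y h w hS
    obtain ⟨m, hm, hmem⟩ := hlt
    refine ⟨s.push h, s.pushHom h hgood, w, m, ?_, hm, ?_, ?_⟩
    · refine F_mono ?_ hw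
      have := min_le_right (c.μ / 2) c.ε0
      linarith
    · intro i hi
      have h1 := hS i hi
      rw [hG, Ext.st_st h s.f d z w g i (by omega)] at h1
      exact h1
    · refine ⟨0, zero_mem _, ?_⟩
      rw [map_zero, sub_zero]
      exact mem_F_iff.2 hmem

end C74
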