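import Pool.Agent.MP_35f30a_al.C74.MK1
import Pool.Agent.MP_35f30a_al.C74.OR3
import Pool.Agent.MP_35f30a_al.C74.MAPX

/-!
ROW MK3.  `ρ` reflects the orders on `T_1`.  Blueprint section 6 (GOOD).

`specX_reflect`: let `map i s ∈ Dm k K' m 0`, a finite `k`-combination of `δ_{b1} ... δ_{bm} (a ⊗ c)`.  Let `Z ⊆ K'` be the finite set
of all `b`'s, `a`'s, `c`'s and the images under `i` of the components of `s`; `W, σ` from `SpecX`.  The relation takes place in
`W ⊗_k W` (note `k ⊆ W`, and `W ⊗_k W → K' ⊗_k K'` is injective over the field `k`); apply `σ ⊗ σ`: `s ∈ Dm k Γ m 0`.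
(Formal version: `Dm` for the commutative `k`-algebra `W`: `map i s` is the image of some `s_W ∈ Dm k W m 0` after
enlarging `W`; `Dm` is mapped to `Dm` by algebra homs.)
`rho_reflect`: choose any `τ0 ∈ kˣ` (e.g. `τ0 = 1`!  then no automorphism is needed) and specialise `τ' → τ0 = 1`:
`W' := ` the subring of `Γ' = K'(τ')` of fractions whose denominator does not vanish at `τ' = 1`, `e : W' → K'` evaluation.
`e ∘ ρ = i` on `Γ` (for `b ∈ K`: `ρ b = i b`; `ρ τ = i(τ) τ'^M ↦ i(τ)`; and `ρ(Γ) ⊆ W'` because for a nonzero Laurent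
polynomial `g`, `(ρ g)(τ' = 1) = i g ≠ 0`).  But a given relation in `Γ' ⊗ Γ'` may have denominators vanishing at `τ' = 1`;
so use a general `τ0 ∈ kˣ` outside the finitely many bad values (`k` is infinite): then `e ∘ ρ = i ∘ α`,
`α : Γ → Γ` the automorphism `τ ↦ τ0^M τ`, `b ↦ b`.  So `map (i ∘ α) s ∈ Dm k K' m 0`, hence `map α s ∈ Dm k Γ m 0` by
`specX_reflect`, hence `s ∈ Dm k Γ m 0` (apply `α⁻¹`).
-/

set_option autoImplicit false

open scoped TensorProduct Polynomial

namespace C74

variable {k : Type} [Field k]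

theorem MK3_map_id {Γ : Type} [CommRing Γ] [Algebra k Γ]
    (h : ∀ r, (RingHom.id Γ) (algebraMap k Γ r) = algebraMap k Γ ((RingHom.id k) r))
    (s : TP k Γ 1) : TP.map (RingHom.id k) (RingHom.id Γ) h 1 s = s := by
  induction s using TP.succ_induction with
  | h0 => exact map_zero _
  | hc a t =>
    rw [TP.map_cons, TP.map_zero_apply]; rfl
  | ha x y hx hy => rw [map_add, hx, hy]

theorem MK3_desc {L : Type} [CommRing L] [Algebra k L] (m : ℕ) (z : TP k L 1)
    (hz : z ∈ Dm k L m 0) :
    ∃ Z : Finset L, ∀ (W : Type) [CommRing W] [Algebra k W] (ι : W →+* L)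
      (hι : ∀ r, ι (algebraMap k W r) = algebraMap k L ((RingHom.id k) r)),
      (∀ x ∈ Z, ∃ w, ι w = x) → ∃ y ∈ Dm k W m 0, TP.map (RingHom.id k) ι hι 1 y = z := by
  classical
  induction m generalizing z with
  | zero =>
    clear hz
    induction z using TP.succ_induction with
    | h0 => exact ⟨∅, fun W _ _ ι hι _ => ⟨0, Submodule.zero_mem _, map_zero _⟩⟩
    | hc a t =>
      obtain ⟨b, hb⟩ : ∃ b, t = TP.ofA b := ⟨TP.toA t, rfl⟩
      rw [hb]
      refine ⟨{a, b}, fun W _ _ ι hι hW => ?_⟩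
      obtain ⟨a', ha'⟩ := hW a (by simp)
      obtain ⟨b', hb'⟩ := hW b (by simp)
      refine ⟨TP.cons a' (TP.ofA b'), Submodule.mem_top, ?_⟩
      rw [TP.map_cons, TP.map_zero_apply, TP.toA_ofA, ha', hb']
    | ha x y hx hy =>
      obtain ⟨Z1, h1⟩ := hx
      obtain ⟨Z2, h2⟩ := hy
      refine ⟨Z1 ∪ Z2, fun W _ _ ι hι hW => ?_⟩
      obtain ⟨x', hx', hx''⟩ := h1 W ι hι (fun w hw => hW w (Finset.mem_union_left _ hw))
      obtain ⟨y', hy', hy''⟩ := h2 W ι hι (fun w hw => hW w (Finset.mem_union_right _ hw))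
      exact ⟨x' + y', Submodule.add_mem _ hx' hy', by rw [map_add, hx'', hy'']⟩
  | succ m ih =>
    have hz' : z ∈ Submodule.span k {z | ∃ (b : L) (y : TP k L (0 + 1)),
      y ∈ Dm k L m 0 ∧ z = TP.del b 0 y} := hz
    clear hz
    induction hz' using Submodule.span_induction with
    | mem z hz =>
      obtain ⟨b, y, hy, rfl⟩ := hz
      obtain ⟨Z1, h1⟩ := ih y hy
      refine ⟨insert b Z1, fun W _ _ ι hι hW => ?_⟩
      obtain ⟨y', hy', hy''⟩ := h1 W ι hι (fun w hw => hW w (Finset.mem_insert_of_mem hw))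
      obtain ⟨b', hb'⟩ := hW b (Finset.mem_insert_self _ _)
      refine ⟨TP.del b' 0 y', Submodule.subset_span ⟨b', y', hy', rfl⟩, ?_⟩
      rw [TP.map_del, hb']
      exact congrArg _ hy''
    | zero => exact ⟨∅, fun W _ _ ι hι _ => ⟨0, Submodule.zero_mem _, map_zero _⟩⟩
    | add x y _ _ hx hy =>
      obtain ⟨Z1, h1⟩ := hx
      obtain ⟨Z2, h2⟩ := hy
      refine ⟨Z1 ∪ Z2, fun W _ _ ι hι hW => ?_⟩
      obtain ⟨x', hx', hx''⟩ := h1 W ι hι (fun w hw => hW w (Finset.mem_union_left _ hw))
      obtain ⟨y', hy', hy''⟩ := h2 W ι hι (fun w hw => hW w (Finset.mem_union_right _ hw))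
      exact ⟨x' + y', Submodule.add_mem _ hx' hy', by rw [map_add, hx'', hy'']⟩
    | smul c x _ hx =>
      obtain ⟨Z1, h1⟩ := hx
      refine ⟨Z1, fun W _ _ ι hι hW => ?_⟩
      obtain ⟨x', hx', hx''⟩ := h1 W ι hι hW
      exact ⟨c • x', Submodule.smul_mem _ c hx', by
        rw [LinearMap.map_smulₛₗ, hx'', RingHom.id_apply]⟩

theorem MK3_nat {W E : Type} [CommRing W] [Algebra k W] [CommRing E] [Algebra k E] (e : W →+* E)
    (he : ∀ r, e (algebraMap k W r) = algebraMap k E ((RingHom.id k) r)) (m : ℕ) (y : TP k W 1)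
    (hy : y ∈ Dm k W m 0) : TP.map (RingHom.id k) e he 1 y ∈ Dm k E m 0 := by
  induction m generalizing y with
  | zero => exact Submodule.mem_top
  | succ m ih =>
    have hy' : y ∈ Submodule.span k {z | ∃ (b : W) (y : TP k W (0 + 1)),
      y ∈ Dm k W m 0 ∧ z = TP.del b 0 y} := hy
    clear hy
    induction hy' using Submodule.span_induction with
    | mem z hz =>
      obtain ⟨b, y, hy, rfl⟩ := hz
      refine Submodule.subset_span ⟨e b, TP.map (RingHom.id k) e he 1 y, ih y hy, ?_⟩
      exact TP.map_del (RingHom.id k) e he b 0 y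
    | zero => rw [map_zero]; exact Submodule.zero_mem _
    | add x y _ _ hx hy => rw [map_add]; exact Submodule.add_mem _ hx hy
    | smul c x _ hx =>
      rw [LinearMap.map_smulₛₗ]; exact Submodule.smul_mem _ _ hx

theorem MK3_core {Γ L : Type} [CommRing Γ] [Algebra k Γ] [CommRing L] [Algebra k L]
    (ρ : Γ →+* L) (hρ : ∀ r, ρ (algebraMap k Γ r) = algebraMap k L ((RingHom.id k) r))
    (m : ℕ) (s : TP k Γ 1) (h : TP.map (RingHom.id k) ρ hρ 1 s ∈ Dm k L m 0) :
    ∃ Z : Finset L, ∀ (W : Type) [CommRing W] [Algebra k W] (ι : W →+* L)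
      (_ : ∀ r, ι (algebraMap k W r) = algebraMap k L ((RingHom.id k) r))
      (_ : Function.Injective ι) (_ : ∀ x ∈ Z, ∃ w, ι w = x) (ρW : Γ →+* W)
      (hρW : ∀ r, ρW (algebraMap k Γ r) = algebraMap k W ((RingHom.id k) r))
      (_ : ∀ x, ι (ρW x) = ρ x), TP.map (RingHom.id k) ρW hρW 1 s ∈ Dm k W m 0 := by
  obtain ⟨Z, hZ⟩ := MK3_desc m _ h
  refine ⟨Z, fun W _ _ ι hι hinj hW ρW hρW hc => ?_⟩
  obtain ⟨y, hy, hy'⟩ := hZ W ι hι hW
  have h1 : TP.map (RingHom.id k) ι hι 1 (TP.map (RingHom.id k) ρW hρW 1 s) =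
      TP.map (RingHom.id k) ρ hρ 1 s := by
    have h'' : ∀ r, (ι.comp ρW) (algebraMap k Γ r) =
        algebraMap k L (((RingHom.id k).comp (RingHom.id k)) r) := by
      intro r
      show ι (ρW (algebraMap k Γ r)) = _
      rw [hc, hρ]; rfl
    rw [TP.map_map (RingHom.id k) ρW hρW (RingHom.id k) ι hι h'' 1 s]
    exact TP.map_congr _ _ _ _ _ _ (fun r => rfl) (fun a => hc a) 1 s
  have h2 : TP.map (RingHom.id k) ρW hρW 1 s = y := by
    apply TP.map_injective_field ι hι hinj 1
    rw [h1, hy']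
  rw [h2]; exact hy

theorem specX_reflect {Γ K' : Type} [Field Γ] [Algebra k Γ] [Field K'] [Algebra k K'] (i : Γ →+* K')
    (hi : ∀ r, i (algebraMap k Γ r) = algebraMap k K' ((RingHom.id k) r)) (hs : SpecX i)
    (m : ℕ) (s : TP k Γ 1) (h : TP.map (RingHom.id k) i hi 1 s ∈ Dm k K' m 0) :
    s ∈ Dm k Γ m 0 := by
  obtain ⟨Z, hZ⟩ := MK3_core i hi m s h
  obtain ⟨W, σ, hiW, hZW, hσ⟩ := hs Z
  let ρW : Γ →+* W := i.codRestrict W hiW
  let _ : Algebra k W := (ρW.comp (algebraMap k Γ)).toAlgebra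
  have hρW : ∀ r, ρW (algebraMap k Γ r) = algebraMap k W ((RingHom.id k) r) := fun r => rfl
  have h1 := hZ W W.subtype (fun r => by
      show i (algebraMap k Γ r) = _
      exact hi r) Subtype.val_injective (fun x hx => ⟨⟨x, hZW x hx⟩, rfl⟩) ρW hρW (fun x => rfl)
  have hσk : ∀ r, σ (algebraMap k W r) = algebraMap k Γ ((RingHom.id k) r) := by
    intro r
    show σ (⟨i (algebraMap k Γ r), _⟩) = _
    rw [hσ]; rfl
  have h2 := MK3_nat σ hσk m _ h1
  have h3 : TP.map (RingHom.id k) σ hσk 1 (TP.map (RingHom.id k) ρW hρW 1 s) = s := by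
    have h'' : ∀ r, (σ.comp ρW) (algebraMap k Γ r) =
        algebraMap k Γ (((RingHom.id k).comp (RingHom.id k)) r) := by
      intro r
      show σ (ρW (algebraMap k Γ r)) = _
      rw [hρW, hσk]; rfl
    rw [TP.map_map (RingHom.id k) ρW hρW (RingHom.id k) σ hσk h'' 1 s]
    rw [TP.map_congr _ _ h'' (RingHom.id k) (RingHom.id Γ) (fun r => rfl) (fun r => rfl)
      (fun a => hσ a) 1 s]
    exact MK3_map_id _ s
  rw [← h3]; exact h2

section laurent

open LaurentPolynomial in
/-- evaluation of Laurent polynomials with prescribed values of `T n` -/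
noncomputable def MK3_ev {K S : Type} [Field K] [CommRing S] (f : K →+* S)
    (g : Multiplicative ℤ →* S) : LaurentPolynomial K →+* S :=
  LaurentPolynomial.eval₂ f (g.toHomUnits (Multiplicative.ofAdd 1))

lemma MK3_ev_apply {K S : Type} [Field K] [CommRing S] (f : K →+* S)
    (g : Multiplicative ℤ →* S) (b : K) (n : ℤ) :
    MK3_ev f g (LaurentPolynomial.C b * LaurentPolynomial.T n) =
      f b * g (Multiplicative.ofAdd n) := by
  rw [MK3_ev, LaurentPolynomial.eval₂_C_mul_T, ← map_zpow, ← ofAdd_zsmul, smul_eq_mul, mul_one,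
    MonoidHom.coe_toHomUnits]

lemma MK3_ext {K S : Type} [Field K] [CommRing S] {f g : LaurentPolynomial K →+* S}
    (h : ∀ (n : ℤ) (b : K), f (LaurentPolynomial.C b * LaurentPolynomial.T n) =
      g (LaurentPolynomial.C b * LaurentPolynomial.T n)) (p : LaurentPolynomial K) : f p = g p := by
  induction p using LaurentPolynomial.induction_on' with
  | add p q hp hq => rw [map_add, map_add, hp, hq]
  | C_mul_T n b => exact h n b

/-- the monoid hom `n ↦ C (c^n) T n` -/
noncomputable def MK3_gα {K : Type} [Field K] (c : Kˣ) :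
    Multiplicative ℤ →* LaurentPolynomial K where
  toFun n := LaurentPolynomial.C ((c ^ (Multiplicative.toAdd n) : Kˣ) : K) *
    LaurentPolynomial.T (Multiplicative.toAdd n)
  map_one' := by simp
  map_mul' m n := by
    rw [toAdd_mul, zpow_add, Units.val_mul, map_mul, LaurentPolynomial.T_add]
    ring

/-- `τ ↦ c τ` on Laurent polynomials -/
noncomputable def MK3_α0 {K : Type} [Field K] (c : Kˣ) :
    LaurentPolynomial K →+* LaurentPolynomial K := MK3_ev LaurentPolynomial.C (MK3_gα c)

lemma MK3_α0_apply {K : Type} [Field K] (c : Kˣ) (n : ℤ) (b : K) :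
    MK3_α0 c (LaurentPolynomial.C b * LaurentPolynomial.T n) =
      LaurentPolynomial.C (b * ((c ^ n : Kˣ) : K)) * LaurentPolynomial.T n := by
  rw [MK3_α0, MK3_ev_apply, map_mul, mul_assoc]
  rfl

lemma MK3_α0_inv {K : Type} [Field K] (c : Kˣ) (p : LaurentPolynomial K) :
    MK3_α0 c⁻¹ (MK3_α0 c p) = p := by
  have h1 := MK3_ext (f := (MK3_α0 c⁻¹).comp (MK3_α0 c)) (g := RingHom.id _) (by
    intro n b
    rw [RingHom.comp_apply, MK3_α0_apply, MK3_α0_apply, RingHom.id_apply, mul_assoc,
      ← Units.val_mul, ← mul_zpow, mul_inv_cancel, one_zpow, Units.val_one, mul_one]) p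
  exact h1

lemma MK3_α0_inj {K : Type} [Field K] (c : Kˣ) : Function.Injective (MK3_α0 (K := K) c) :=
  Function.LeftInverse.injective (MK3_α0_inv c)

/-- `τ ↦ c τ` on `K(τ)` -/
noncomputable def MK3_α {K : Type} [Field K] (c : Kˣ) :
    FractionRing (LaurentPolynomial K) →+* FractionRing (LaurentPolynomial K) :=
  IsFractionRing.lift (A := LaurentPolynomial K)
    (g := (algebraMap (LaurentPolynomial K) (FractionRing (LaurentPolynomial K))).comp (MK3_α0 c))
    ((IsFractionRing.injective (LaurentPolynomial K) _).comp (MK3_α0_inj c))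

lemma MK3_α_apply {K : Type} [Field K] (c : Kˣ) (p : LaurentPolynomial K) :
    MK3_α c (algebraMap _ _ p) = algebraMap _ _ (MK3_α0 c p) := by
  rw [MK3_α, IsFractionRing.lift_algebraMap, RingHom.comp_apply]

lemma MK3_α_inv {K : Type} [Field K] (c : Kˣ) (x : FractionRing (LaurentPolynomial K)) :
    MK3_α c⁻¹ (MK3_α c x) = x := by
  have h1 : (MK3_α c⁻¹).comp (MK3_α c) = RingHom.id (FractionRing (LaurentPolynomial K)) := by
    apply IsLocalization.ringHom_ext (nonZeroDivisors (LaurentPolynomial K))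
    refine RingHom.ext fun p => ?_
    rw [RingHom.comp_apply, RingHom.comp_apply, RingHom.comp_apply, RingHom.id_apply,
      MK3_α_apply, MK3_α_apply, MK3_α0_inv]
  exact congrArg (fun f => f x) h1

lemma MK3_α_k {K : Type} [Field K] [Algebra k K] (c : Kˣ) (r : k) :
    MK3_α c (algebraMap k (FractionRing (LaurentPolynomial K)) r) =
      algebraMap k (FractionRing (LaurentPolynomial K)) r := by
  rw [IsScalarTower.algebraMap_apply k (LaurentPolynomial K)
    (FractionRing (LaurentPolynomial K)), MK3_α_apply, LaurentPolynomial.algebraMap_apply]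
  have h1 := MK3_α0_apply c 0 (algebraMap k K r)
  rw [LaurentPolynomial.T_zero, mul_one, zpow_zero, Units.val_one, mul_one, mul_one] at h1
  rw [h1]

/-- a nonzero Laurent polynomial over `K'` does not vanish at some `τ0 ∈ kˣ` -/
lemma MK3_exists_pt [Infinite k] {K' : Type} [Field K'] [Algebra k K'] (q : LaurentPolynomial K')
    (hq : q ≠ 0) : ∃ c : kˣ,
      LaurentPolynomial.eval₂ (RingHom.id K') (Units.map (algebraMap k K' : k →* K') c) q ≠ 0 := by
  obtain ⟨n, p, hp⟩ := LaurentPolynomial.exists_T_pow q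
  have hp0 : p ≠ 0 := by
    rintro rfl
    rw [map_zero] at hp
    apply hq
    have h1 : q * LaurentPolynomial.T n * LaurentPolynomial.T (-n) = 0 := by
      rw [← hp, zero_mul]
    rwa [mul_assoc, ← LaurentPolynomial.T_add, add_neg_cancel, LaurentPolynomial.T_zero,
      mul_one] at h1
  by_contra hcon
  push Not at hcon
  have h2 : p * Polynomial.X ≠ 0 := mul_ne_zero hp0 Polynomial.X_ne_zero
  apply h2
  apply Polynomial.eq_zero_of_infinite_isRoot
  refine Set.Infinite.mono ?_ (Set.infinite_range_of_injective (algebraMap k K').injective)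
  rintro _ ⟨r, rfl⟩
  show Polynomial.eval _ (p * Polynomial.X) = 0
  rw [Polynomial.eval_mul, Polynomial.eval_X]
  by_cases hr : r = 0
  · rw [hr, map_zero, mul_zero]
  · have h3 := hcon (Units.mk0 r hr)
    have h4 : LaurentPolynomial.eval₂ (RingHom.id K')
        (Units.map (algebraMap k K' : k →* K') (Units.mk0 r hr)) (Polynomial.toLaurent p) = 0 := by
      rw [hp, map_mul, h3, zero_mul]
    rw [LaurentPolynomial.eval₂_toLaurent, Polynomial.eval₂_id] at h4
    have h5 : Polynomial.eval (algebraMap k K' r) p = 0 := h4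
    rw [h5, zero_mul]

end laurent

section rho

variable {K K' : Type} [Field K] [Field K'] [Algebra k K] [Algebra k K']

/-- the monoid hom `n ↦ C (i τ^n) T (M n)` -/
noncomputable def MK3_gρ (i : FractionRing (LaurentPolynomial K) →+* K') (M : ℕ) :
    Multiplicative ℤ →* LaurentPolynomial K' where
  toFun n := LaurentPolynomial.C (i (algebraMap _ _
      (LaurentPolynomial.T (Multiplicative.toAdd n) : LaurentPolynomial K))) *
    LaurentPolynomial.T ((M : ℤ) * Multiplicative.toAdd n)
  map_one' := by simp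
  map_mul' m n := by
    rw [toAdd_mul, mul_add, LaurentPolynomial.T_add, LaurentPolynomial.T_add, map_mul, map_mul,
      map_mul]
    ring

/-- `ρ` on Laurent polynomials -/
noncomputable def MK3_ρ0 (i : FractionRing (LaurentPolynomial K) →+* K') (M : ℕ) :
    LaurentPolynomial K →+* LaurentPolynomial K' :=
  MK3_ev (LaurentPolynomial.C.comp (i.comp ((algebraMap (LaurentPolynomial K)
    (FractionRing (LaurentPolynomial K))).comp LaurentPolynomial.C))) (MK3_gρ i M)

lemma MK3_ρ0_apply (i : FractionRing (LaurentPolynomial K) →+* K') (M : ℕ) (n : ℤ) (b : K) :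
    MK3_ρ0 i M (LaurentPolynomial.C b * LaurentPolynomial.T n) =
      LaurentPolynomial.C (i (algebraMap _ _ (LaurentPolynomial.C b * LaurentPolynomial.T n))) *
        LaurentPolynomial.T ((M : ℤ) * n) := by
  rw [MK3_ρ0, MK3_ev_apply, map_mul, map_mul, map_mul, mul_assoc]
  rfl

lemma MK3_ev_ρ0 (i : FractionRing (LaurentPolynomial K) →+* K')
    (hik : ∀ r, i (algebraMap k (FractionRing (LaurentPolynomial K)) r) = algebraMap k K' r)
    (M : ℕ) (c : kˣ) (p : LaurentPolynomial K) :
    LaurentPolynomial.eval₂ (RingHom.id K') (Units.map (algebraMap k K' : k →* K') c)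
      (MK3_ρ0 i M p) =
    i (algebraMap _ _ (MK3_α0 (Units.map (algebraMap k K : k →* K) (c ^ M)) p)) := by
  have h1 := MK3_ext (f := (LaurentPolynomial.eval₂ (RingHom.id K')
    (Units.map (algebraMap k K' : k →* K') c)).comp (MK3_ρ0 i M))
    (g := (i.comp (algebraMap _ _)).comp
      (MK3_α0 (Units.map (algebraMap k K : k →* K) (c ^ M)))) (by
    intro n b
    rw [RingHom.comp_apply, RingHom.comp_apply, RingHom.comp_apply, MK3_ρ0_apply, MK3_α0_apply,
      LaurentPolynomial.eval₂_C_mul_T, RingHom.id_apply]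
    have h2 : (LaurentPolynomial.C (b * (((Units.map (algebraMap k K : k →* K) (c ^ M)) ^ n : Kˣ) :
        K)) * LaurentPolynomial.T n : LaurentPolynomial K) =
        (LaurentPolynomial.C b * LaurentPolynomial.T n) *
          algebraMap k (LaurentPolynomial K) ((((c ^ M) ^ n : kˣ)) : k) := by
      rw [LaurentPolynomial.algebraMap_apply, ← map_zpow, map_mul]
      rw [show ((Units.map (algebraMap k K : k →* K) ((c ^ M) ^ n) : Kˣ) : K) =
        algebraMap k K ((((c ^ M) ^ n : kˣ)) : k) from rfl]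
      ring
    have h3 : ∀ (y : LaurentPolynomial K) (r : k), i (algebraMap (LaurentPolynomial K)
        (FractionRing (LaurentPolynomial K)) (y * algebraMap k (LaurentPolynomial K) r)) =
        i (algebraMap _ _ y) * algebraMap k K' r := by
      intro y r
      rw [map_mul, map_mul, ← IsScalarTower.algebraMap_apply, hik]
    rw [h2, h3]
    congr 1
    rw [← map_zpow, zpow_mul, zpow_natCast]
    rfl) p
  exact h1

lemma MK3_i_inj (i : FractionRing (LaurentPolynomial K) →+* K') (c : Kˣ)
    (p : LaurentPolynomial K) (hp : p ≠ 0) : i (algebraMap _ _ (MK3_α0 c p)) ≠ 0 := by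
  intro h
  apply hp
  apply MK3_α0_inj c
  apply IsFractionRing.injective (LaurentPolynomial K) (FractionRing (LaurentPolynomial K))
  apply i.injective
  rw [h, map_zero, map_zero, map_zero]

lemma MK3_finish (i : FractionRing (LaurentPolynomial K) →+* K')
    (hi : ∀ r, i (algebraMap k (FractionRing (LaurentPolynomial K)) r) =
      algebraMap k K' ((RingHom.id k) r))
    (hs : SpecX i) (c : Kˣ) (β : FractionRing (LaurentPolynomial K) →+* K')
    (hβ : ∀ r, β (algebraMap k (FractionRing (LaurentPolynomial K)) r) =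
      algebraMap k K' ((RingHom.id k) r))
    (hc : ∀ x, β x = i (MK3_α c x)) (m : ℕ) (s : TP k (FractionRing (LaurentPolynomial K)) 1)
    (h : TP.map (RingHom.id k) β hβ 1 s ∈ Dm k K' m 0) :
    s ∈ Dm k (FractionRing (LaurentPolynomial K)) m 0 := by
  have h3 : TP.map (RingHom.id k) β hβ 1 s =
      TP.map (RingHom.id k) i hi 1 (TP.map (RingHom.id k) (MK3_α c) (fun r => MK3_α_k c r) 1 s) := by
    have hb : ∀ r, (i.comp (MK3_α c)) (algebraMap k (FractionRing (LaurentPolynomial K)) r) =
        algebraMap k K' (((RingHom.id k).comp (RingHom.id k)) r) := by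
      intro r
      show i (MK3_α c _) = _
      rw [MK3_α_k, hi]; rfl
    rw [TP.map_map (RingHom.id k) (MK3_α c) (fun r => MK3_α_k c r) (RingHom.id k) i hi hb 1 s]
    exact TP.map_congr _ _ _ _ _ _ (fun r => rfl) (fun a => hc a) 1 s
  rw [h3] at h
  have h4 := specX_reflect i hi hs m _ h
  have h5 := MK3_nat (MK3_α c⁻¹) (fun r => MK3_α_k c⁻¹ r) m _ h4
  have h6 : TP.map (RingHom.id k) (MK3_α c⁻¹) (fun r => MK3_α_k c⁻¹ r) 1
      (TP.map (RingHom.id k) (MK3_α c) (fun r => MK3_α_k c r) 1 s) = s := by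
    have ha : ∀ r, ((MK3_α c⁻¹).comp (MK3_α c))
        (algebraMap k (FractionRing (LaurentPolynomial K)) r) =
        algebraMap k (FractionRing (LaurentPolynomial K))
          (((RingHom.id k).comp (RingHom.id k)) r) := by
      intro r
      rw [RingHom.comp_apply, MK3_α_k, MK3_α_k]; rfl
    have hid : ∀ r, (RingHom.id (FractionRing (LaurentPolynomial K)))
        (algebraMap k (FractionRing (LaurentPolynomial K)) r) =
        algebraMap k (FractionRing (LaurentPolynomial K)) ((RingHom.id k) r) := fun r => rfl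
    rw [TP.map_map (RingHom.id k) (MK3_α c) (fun r => MK3_α_k c r) (RingHom.id k) (MK3_α c⁻¹)
      (fun r => MK3_α_k c⁻¹ r) ha 1 s]
    have h7 := TP.map_congr ((RingHom.id k).comp (RingHom.id k))
      ((MK3_α c⁻¹).comp (MK3_α c)) ha (RingHom.id k)
      (RingHom.id (FractionRing (LaurentPolynomial K))) hid (fun r => rfl)
      (fun a => MK3_α_inv c a) 1 s
    rw [h7, MK3_map_id]
  rw [h6] at h5
  exact h5

theorem MK3_rho_reflect [Infinite k] (M : ℕ) (i : FractionRing (LaurentPolynomial K) →+* K')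
    (hik : ∀ r, i (algebraMap k (FractionRing (LaurentPolynomial K)) r) = algebraMap k K' r)
    (hs : SpecX i)
    (ρ : FractionRing (LaurentPolynomial K) →+* FractionRing (LaurentPolynomial K'))
    (hρ : ∀ r, ρ (algebraMap k (FractionRing (LaurentPolynomial K)) r) =
      algebraMap k (FractionRing (LaurentPolynomial K')) ((RingHom.id k) r))
    (hρ' : ∀ (n : ℤ) (b : K), ρ (algebraMap _ _ (LaurentPolynomial.C b * LaurentPolynomial.T n)) =
      algebraMap _ _ (LaurentPolynomial.C (i (algebraMap _ _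
        (LaurentPolynomial.C b * LaurentPolynomial.T n))) * LaurentPolynomial.T ((M : ℤ) * n)))
    (m : ℕ) (s : TP k (FractionRing (LaurentPolynomial K)) 1)
    (h : TP.map (RingHom.id k) ρ hρ 1 s ∈ Dm k (FractionRing (LaurentPolynomial K')) m 0) :
    s ∈ Dm k (FractionRing (LaurentPolynomial K)) m 0 := by
  classical
  obtain ⟨Z, hZ⟩ := MK3_core ρ hρ m s h
  -- common denominator
  have hden : ∃ q : LaurentPolynomial K', q ≠ 0 ∧ ∀ z ∈ Z, ∃ a : LaurentPolynomial K',
      z * algebraMap _ (FractionRing (LaurentPolynomial K')) q =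
        algebraMap _ (FractionRing (LaurentPolynomial K')) a := by
    obtain ⟨b, hb⟩ := IsLocalization.exist_integer_multiples_of_finset
      (nonZeroDivisors (LaurentPolynomial K')) Z
    refine ⟨b, nonZeroDivisors.ne_zero b.2, fun z hz => ?_⟩
    obtain ⟨a, ha⟩ := hb z hz
    refine ⟨a, ?_⟩
    rw [ha, mul_comm, ← Algebra.smul_def]
  obtain ⟨q, hq, hqZ⟩ := hden
  obtain ⟨c, hc⟩ := MK3_exists_pt (k := k) q hq
  set ev : LaurentPolynomial K' →+* K' := LaurentPolynomial.eval₂ (RingHom.id K')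
    (Units.map (algebraMap k K' : k →* K') c) with hev
  let P : Ideal (LaurentPolynomial K') := RingHom.ker ev
  have hP : P.IsPrime := RingHom.ker_isPrime ev
  let W : Type := Localization.AtPrime P
  have hevu : ∀ y : P.primeCompl, IsUnit (ev y) := by
    intro y
    exact isUnit_iff_ne_zero.mpr (fun h => y.2 h)
  have hau : ∀ y : P.primeCompl, IsUnit (algebraMap (LaurentPolynomial K')
      (FractionRing (LaurentPolynomial K')) y) := by
    intro y
    apply isUnit_iff_ne_zero.mpr
    intro h0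
    have h1 : (y : LaurentPolynomial K') = 0 := by
      apply IsFractionRing.injective (LaurentPolynomial K') (FractionRing (LaurentPolynomial K'))
      rw [h0, map_zero]
    apply y.2
    rw [h1]; exact Ideal.zero_mem _
  let ι : W →+* FractionRing (LaurentPolynomial K') :=
    IsLocalization.lift (M := P.primeCompl) hau
  let e : W →+* K' := IsLocalization.lift (M := P.primeCompl) hevu
  have hιa : ∀ p, ι (algebraMap (LaurentPolynomial K') W p) = algebraMap _ _ p :=
    fun p => IsLocalization.lift_eq hau p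
  have hea : ∀ p, e (algebraMap (LaurentPolynomial K') W p) = ev p :=
    fun p => IsLocalization.lift_eq hevu p
  have hιinj : Function.Injective ι := by
    rw [injective_iff_map_eq_zero]
    intro x hx
    obtain ⟨a, t, rfl⟩ := IsLocalization.exists_mk'_eq P.primeCompl x
    have h1 : ι (IsLocalization.mk' W a t) * algebraMap _ _ (t : LaurentPolynomial K') =
        algebraMap _ _ a := by
      rw [← hιa, ← map_mul, IsLocalization.mk'_spec, hιa]
    rw [hx, zero_mul] at h1
    have h2 : a = 0 := by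
      apply IsFractionRing.injective (LaurentPolynomial K') (FractionRing (LaurentPolynomial K'))
      rw [← h1, map_zero]
    rw [h2, IsLocalization.mk'_zero]
  have hαq : ∀ p : LaurentPolynomial K, ev (MK3_ρ0 i M p) =
      i (algebraMap _ _ (MK3_α0 (Units.map (algebraMap k K : k →* K) (c ^ M)) p)) :=
    MK3_ev_ρ0 i hik M c
  have hunit : ∀ y : nonZeroDivisors (LaurentPolynomial K),
      IsUnit (((algebraMap (LaurentPolynomial K') W).comp (MK3_ρ0 i M)) y) := by
    intro y
    have h1 : MK3_ρ0 i M y ∈ P.primeCompl := by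
      intro h0
      have h2 : ev (MK3_ρ0 i M y) = 0 := h0
      rw [hαq] at h2
      exact MK3_i_inj i _ _ (nonZeroDivisors.ne_zero y.2) h2
    exact IsLocalization.map_units W (⟨_, h1⟩ : P.primeCompl)
  let ρW : FractionRing (LaurentPolynomial K) →+* W :=
    IsLocalization.lift (M := nonZeroDivisors (LaurentPolynomial K)) hunit
  have hρWa : ∀ p, ρW (algebraMap _ _ p) = algebraMap _ W (MK3_ρ0 i M p) :=
    fun p => IsLocalization.lift_eq hunit p
  have hιρ : ι.comp ρW = ρ := by
    apply IsLocalization.ringHom_ext (nonZeroDivisors (LaurentPolynomial K))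
    refine RingHom.ext fun p => ?_
    apply MK3_ext (f := (ι.comp ρW).comp (algebraMap _ _)) (g := ρ.comp (algebraMap _ _))
    intro n b
    rw [RingHom.comp_apply, RingHom.comp_apply, RingHom.comp_apply, hρWa, hιa, MK3_ρ0_apply, hρ']
  have heρ : e.comp ρW = i.comp (MK3_α (Units.map (algebraMap k K : k →* K) (c ^ M))) := by
    apply IsLocalization.ringHom_ext (nonZeroDivisors (LaurentPolynomial K))
    refine RingHom.ext fun p => ?_
    rw [RingHom.comp_apply, RingHom.comp_apply, RingHom.comp_apply, RingHom.comp_apply, hρWa,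
      hea, hαq, MK3_α_apply]
  have hιk : ∀ r, ι (algebraMap k W r) =
      algebraMap k (FractionRing (LaurentPolynomial K')) ((RingHom.id k) r) := by
    intro r
    rw [IsScalarTower.algebraMap_apply k (LaurentPolynomial K') W, hιa,
      ← IsScalarTower.algebraMap_apply]
    rfl
  have hρWk : ∀ r, ρW (algebraMap k (FractionRing (LaurentPolynomial K)) r) =
      algebraMap k W ((RingHom.id k) r) := by
    intro r
    apply hιinj
    rw [hιk]
    show (ι.comp ρW) _ = _
    rw [hιρ, hρ]; rfl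
  have hek : ∀ r, e (algebraMap k W r) = algebraMap k K' ((RingHom.id k) r) := by
    intro r
    have h1 : algebraMap k W r = ρW (algebraMap k (FractionRing (LaurentPolynomial K)) r) := by
      rw [hρWk]; rfl
    rw [h1]
    show (e.comp ρW) _ = _
    rw [heρ, RingHom.comp_apply, MK3_α_k, hik]; rfl
  have hZW : ∀ x ∈ Z, ∃ w, ι w = x := by
    intro z hz
    obtain ⟨a, ha⟩ := hqZ z hz
    have hqc : q ∈ P.primeCompl := fun h0 => hc h0
    refine ⟨IsLocalization.mk' W a ⟨q, hqc⟩, ?_⟩
    have h1 : ι (IsLocalization.mk' W a ⟨q, hqc⟩) * algebraMap _ _ q = algebraMap _ _ a := by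
      rw [← hιa, ← map_mul]
      have h2 := IsLocalization.mk'_spec W a (⟨q, hqc⟩ : P.primeCompl)
      rw [h2, hιa]
    rw [← ha] at h1
    exact mul_right_cancel₀ ((hau ⟨q, hqc⟩).ne_zero) h1
  have h1 := hZ W ι hιk hιinj hZW ρW hρWk (fun x => by rw [← hιρ]; rfl)
  have h2 := MK3_nat e hek m _ h1
  have ha : ∀ r, (e.comp ρW) (algebraMap k (FractionRing (LaurentPolynomial K)) r) =
      algebraMap k K' ((RingHom.id k) r) := by
    intro r
    show e (ρW _) = _
    rw [hρWk, hek]; rfl
  rw [TP.map_map (RingHom.id k) ρW hρWk (RingHom.id k) e hek ha 1 s] at h2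
  exact MK3_finish i (fun r => hik r) hs _ (e.comp ρW) ha (fun x => by rw [heρ]; rfl) m s h2

end rho

section

variable (X : Obj k) {A' : Type} [Ring A'] [Algebra k[X] A'] {K' : Type} [Field K']
    [Algebra k K'] {π' : A' →+* K'} (h1 : IsQC k π') (h2 : IsComp k A') (h3 : SG k K') (M : ℕ)
    (hM : 0 < M) (i : X.Γ →+* K')

/-- (GOOD), `j = 1`: if `i` has the specialisation property then `ρ` reflects the orders -/
theorem rho_reflect [IsAlgClosed k] (hik : ∀ r, i (algebraMap k X.Γ r) = algebraMap k K' r)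
    (hs : SpecX i) (ρ : X.Γ →+* (mkObj X h1 h2 h3 M hM).Γ)
    (hρ : ∀ r, ρ (algebraMap k X.Γ r) =
      algebraMap k (mkObj X h1 h2 h3 M hM).Γ ((RingHom.id k) r))
    (hρ' : ∀ (n : ℤ) (b : X.K), ρ (X.mon n b) =
      (mkObj X h1 h2 h3 M hM).mon ((M : ℤ) * n) (i (X.mon n b)))
    (m : ℕ) (s : TP k X.Γ 1)
    (h : TP.map (RingHom.id k) ρ hρ 1 s ∈ Dm k (mkObj X h1 h2 h3 M hM).Γ m 0) :
    s ∈ Dm k X.Γ m 0 := by
  exact MK3_rho_reflect M i hik hs ρ hρ hρ' m s h

end

end C74
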