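import Pool.Agent.MP_35f30a_al.C74.MK2
import Pool.Agent.MP_35f30a_al.C74.MK3
import Pool.Agent.MP_35f30a_al.C74.KF7

/-!
ROW MK4.  (GOOD).  Blueprint section 6.

`exists_rho`; `T ∈ kF n` has a decorated residue `s` (`exists_DRes`), `f.T T ∈ kF' (M n)` (`Ext.kF_iff`) has decorated
residue `map ρ s` (`DRes_mkExt`), unique.  `s ∈ JJ m j → map ρ s ∈ JJ m j` (`JJ_map`), and conversely by `JJ_reflect` with
`rho_reflect`.
-/

set_option autoImplicit false

open scoped TensorProduct Polynomial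

namespace C74

variable {k : Type} [Field k]

variable (X : Obj k) {A' : Type} [Ring A'] [Algebra k[X] A'] {K' : Type} [Field K']
    [Algebra k K'] {π' : A' →+* K'} (h1 : IsQC k π') (h2 : IsComp k A') (h3 : SG k K') (M : ℕ)
    (hM : 0 < M) (f : X.dd.A1 →+* A') (hf : IsScale k M f) (i : X.Γ →+* K')
    (hi : ∀ a, π' (f a) = i (X.dd.π1 a))

/-- (GOOD) -/
theorem mkExt_good [IsAlgClosed k] (hs : SpecX i) :
    (mkExt X h1 h2 h3 M hM f hf i hi).Good := by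
  have hik : ∀ r, i (algebraMap k X.Γ r) = algebraMap k K' r := fun r =>
    mk_i_k X h1 M f hf i hi r
  obtain ⟨ρ, hρ, hρ'⟩ := exists_rho X h1 h2 h3 M hM i hik
  intro j n m T hT
  obtain ⟨s, hsr⟩ := exists_DRes hT
  have hT' : (mkExt X h1 h2 h3 M hM f hf i hi).T j T ∈
      kF k (mkObj X h1 h2 h3 M hM).A j (((mkExt X h1 h2 h3 M hM f hf i hi).M : ℤ) * n) := by
    rw [Ext.kF_iff]
    have hM0 : ((mkExt X h1 h2 h3 M hM f hf i hi).M : ℤ) ≠ 0 := by
      have := (mkExt X h1 h2 h3 M hM f hf i hi).Mpos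
      exact_mod_cast this.ne'
    rw [Int.mul_ediv_cancel_left _ hM0]
    exact hT
  have hs' : DRes (mkObj X h1 h2 h3 M hM) (((mkExt X h1 h2 h3 M hM f hf i hi).M : ℤ) * n)
      ((mkExt X h1 h2 h3 M hM f hf i hi).T j T) (TP.map (RingHom.id k) ρ hρ j s) :=
    DRes_mkExt X h1 h2 h3 M hM f hf i hi ρ hρ hρ' hT hsr
  constructor
  · rintro ⟨-, s1, hs1, hJ⟩
    rw [DRes_unique hs1 hsr] at hJ
    exact ⟨hT', _, hs', JJ_map ρ hρ hJ⟩
  · rintro ⟨-, s1, hs1, hJ⟩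
    rw [DRes_unique hs1 hs'] at hJ
    exact ⟨hT, s, hsr, JJ_reflect ρ hρ
      (fun m s h => rho_reflect X h1 h2 h3 M hM i hik hs ρ hρ hρ' m s h) hJ⟩

end C74
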