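import Pool.Agent.MP_35f30a_al.C74.MK1
import Pool.Agent.MP_35f30a_al.C74.TPL3

/-!
ROW MK2.  Residues of transported tensors.  Blueprint sections 1, 6.

`uRes_mkExt`: `T` with `DRes X n T s`: `kX (algT dec T) = tz (-n) • ιT T'`, `resT T' = s`.  Functoriality (`TP.map_map`, `map_congr`):
`kX k A' j ((mkExt ..).T j T)` is the image of `kX k A1 j (algT dec T)` under `TP.map (sig k M) (Fr.map f hf)`, i.e.
`tz (-(M n)) • ιT (TP.map (sig k M) f T')` (`map_smulA`, `map_tz`), and `resT` of the last tensor is `TP.map i s`.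
`exists_rho`: ring hom `K[τ^{±1}] → K'[τ'^{±1}] → Γ'`, `b τ^n ↦ i (b τ^n) τ'^{M n}`; injective (coefficients of different powers of `τ'`,
`M > 0`, `i` injective), so extends to `Γ` (`IsFractionRing.lift`).
-/

set_option autoImplicit false

open scoped TensorProduct Polynomial

namespace C74

variable {k : Type} [Field k]

section

variable (X : Obj k) {A' : Type} [Ring A'] [Algebra k[X] A'] {K' : Type} [Field K']
    [Algebra k K'] {π' : A' →+* K'} (h1 : IsQC k π') (h2 : IsComp k A') (h3 : SG k K') (M : ℕ)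
    (hM : 0 < M) (f : X.dd.A1 →+* A') (hf : IsScale k M f) (i : X.Γ →+* K')
    (hi : ∀ a, π' (f a) = i (X.dd.π1 a))

lemma MK2_ev0_sig (M : ℕ) (hM : 0 < M) (r : k[X]) : ev0 k (sig k M r) = ev0 k r := by
  show Polynomial.constantCoeff (Polynomial.expand k M r) = Polynomial.constantCoeff r
  rw [Polynomial.constantCoeff_apply, Polynomial.constantCoeff_apply, Polynomial.coeff_expand hM]
  simp

/-- general form of two composites of functorialities -/
lemma MK2_map4 {R R1 R2 R' : Type} [CommRing R] [CommRing R1] [CommRing R2] [CommRing R']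
    {A0 A1 A2 A3 : Type} [Ring A0] [Ring A1] [Ring A2] [Ring A3] [Algebra R A0] [Algebra R1 A1]
    [Algebra R2 A2] [Algebra R' A3] (σ1 : R →+* R1) (φ1 : A0 →+* A1)
    (g1 : ∀ r, φ1 (algebraMap R A0 r) = algebraMap R1 A1 (σ1 r))
    (σ2 : R1 →+* R') (φ2 : A1 →+* A3)
    (g2 : ∀ r, φ2 (algebraMap R1 A1 r) = algebraMap R' A3 (σ2 r))
    (σ3 : R →+* R2) (φ3 : A0 →+* A2)
    (g3 : ∀ r, φ3 (algebraMap R A0 r) = algebraMap R2 A2 (σ3 r))
    (σ4 : R2 →+* R') (φ4 : A2 →+* A3)
    (g4 : ∀ r, φ4 (algebraMap R2 A2 r) = algebraMap R' A3 (σ4 r))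
    (hσ : ∀ r, σ2 (σ1 r) = σ4 (σ3 r)) (hφ : ∀ a, φ2 (φ1 a) = φ4 (φ3 a)) (n : ℕ)
    (T : TP R A0 n) :
    TP.map σ2 φ2 g2 n (TP.map σ1 φ1 g1 n T) = TP.map σ4 φ4 g4 n (TP.map σ3 φ3 g3 n T) := by
  rw [TP.map_map (h'' := fun r => by simp only [RingHom.comp_apply]; rw [g1, g2]),
    TP.map_map (h'' := fun r => by simp only [RingHom.comp_apply]; rw [g3, g4])]
  exact TP.map_congr _ _ _ _ _ _ hσ hφ n T

lemma MK2_kX {j : ℕ} (T : TP k X.D j) :
    kX k A' j ((mkExt X h1 h2 h3 M hM f hf i hi).T j T) =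
      TP.map (sig k M) (Fr.map f hf) (Fr.map_algebraMap f hf) j
        (kX k X.dd.A1 j (algT X.dd.dec j T)) := by
  have e1 : kX k X.dd.A1 j (algT X.dd.dec j T) =
      TP.map ((Polynomial.C : k →+* k[X]))
        ((X.dd.dec : X.D →+* Fr k X.dd.A1))
        (fun r => (X.dd.dec.commutes r)) j T := by
    refine (TP.map_map _ _ _ _ _ _ (fun r => ?_) j T).trans
      (TP.map_congr _ _ _ _ _ _ ?_ ?_ j T)
    · exact (X.dd.dec.commutes r)
    · intro r; rfl
    · intro r; rfl
  rw [e1]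
  refine MK2_map4 _ _ _ _ _ _ _ _ _ _ _ _ ?_ ?_ j T
  · intro r
    show Polynomial.C r = sig k M (Polynomial.C r)
    rw [Fr.sig_C]
  · intro a; rfl

/-- the `u`-residue of a transported `k`-tensor: for `T` of decorated residue `s` at level `n`, the
image of `T` in `T_j^{k[X]}(Fr A')` has level `M n` and residue `T_j(i) s` -/
theorem uRes_mkExt {j : ℕ} {n : ℤ} {T : TP k X.D j} {s : TP k X.Γ j} (h : DRes X n T s) :
    uRes h1 ((M : ℤ) * n) (kX k A' j ((mkExt X h1 h2 h3 M hM f hf i hi).T j T))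
      (TP.map (RingHom.id k) i (mk_i_k X h1 M f hf i hi) j s) := by
  obtain ⟨T', hT', hs⟩ := h
  refine ⟨TP.map (sig k M) f hf j T', ?_, ?_⟩
  · rw [MK2_kX, hT', TP.map_smulA, map_tz]
    have : (M : ℤ) * -n = -((M : ℤ) * n) := by ring
    rw [this]
    congr 1
    unfold ιT
    refine MK2_map4 _ _ _ _ _ _ _ _ _ _ _ _ ?_ ?_ j T'
    · intro r; rfl
    · intro a
      show Fr.map f hf (Fr.ι a) = Fr.ι (f a)
      rw [Fr.map_ι]
  · rw [← hs]
    unfold resT
    refine MK2_map4 _ _ _ _ _ _ _ _ _ _ _ _ ?_ ?_ j T'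
    · intro r
      simp only [RingHom.id_apply]
      rw [MK2_ev0_sig M hM]
    · intro a
      exact hi a

lemma MK2_mon_mul (X : Obj k) (m n : ℤ) (a b : X.K) :
    X.mon (m + n) (a * b) = X.mon m a * X.mon n b := by
  unfold Obj.mon
  rw [← map_mul]
  congr 1
  rw [LaurentPolynomial.T_add, map_mul]
  ring

lemma MK2_mon_zero (X : Obj k) (n : ℤ) : X.mon n 0 = 0 := by
  unfold Obj.mon
  rw [map_zero, zero_mul, map_zero]

lemma MK2_mon_one (X : Obj k) : X.mon 0 1 = 1 := by
  unfold Obj.mon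
  rw [map_one, LaurentPolynomial.T_zero, one_mul, map_one]

lemma MK2_mon_eq_zero (X : Obj k) {n : ℤ} {b : X.K} (h : X.mon n b = 0) : b = 0 := by
  unfold Obj.mon at h
  have h1 : (LaurentPolynomial.C b * LaurentPolynomial.T n : LaurentPolynomial X.K) = 0 :=
    (IsFractionRing.injective (LaurentPolynomial X.K) X.Γ) (by rw [h, map_zero])
  rw [← LaurentPolynomial.single_eq_C_mul_T] at h1
  have h2 := congrArg (fun p : LaurentPolynomial X.K => p.coeff n) h1
  simp only [AddMonoidAlgebra.coeff_single, Finsupp.single_eq_same] at h2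
  rw [h2]; rfl

lemma MK2_mon_algebraMap (X : Obj k) (r : k) :
    X.mon 0 (algebraMap k X.K r) = algebraMap k X.Γ r := by
  unfold Obj.mon
  rw [LaurentPolynomial.T_zero, mul_one, ← LaurentPolynomial.algebraMap_apply,
    ← IsScalarTower.algebraMap_apply]

/-- the ring hom `b τ^n ↦ i (b τ^n) τ'^{M n}` -/
noncomputable def MK2_g (X : Obj k) {K' : Type} [Field K'] (M : ℕ) (i : X.Γ →+* K') :
    LaurentPolynomial X.K →+* LaurentPolynomial K' :=
  AddMonoidAlgebra.liftNCRingHom
    ((LaurentPolynomial.C : K' →+* LaurentPolynomial K').comp (i.comp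
      { toFun := fun b => X.mon 0 b
        map_one' := MK2_mon_one X
        map_mul' := fun a b => by rw [← MK2_mon_mul, add_zero]
        map_zero' := MK2_mon_zero X 0
        map_add' := fun a b => by
          unfold Obj.mon; rw [map_add, add_mul, map_add] }))
    { toFun := fun n => LaurentPolynomial.C (i (X.mon (Multiplicative.toAdd n) 1)) *
        LaurentPolynomial.T ((M : ℤ) * Multiplicative.toAdd n)
      map_one' := by
        rw [toAdd_one, mul_zero, LaurentPolynomial.T_zero, MK2_mon_one, map_one, map_one, mul_one]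
      map_mul' := fun a b => by
        rw [toAdd_mul, mul_add, LaurentPolynomial.T_add]
        have := MK2_mon_mul X (Multiplicative.toAdd a) (Multiplicative.toAdd b) 1 1
        rw [mul_one] at this
        rw [this, map_mul, map_mul]
        ring }
    (fun _ _ => mul_comm _ _)

lemma MK2_g_apply (X : Obj k) {K' : Type} [Field K'] (M : ℕ) (i : X.Γ →+* K') (n : ℤ) (b : X.K) :
    MK2_g X M i (LaurentPolynomial.C b * LaurentPolynomial.T n) =
      LaurentPolynomial.C (i (X.mon n b)) * LaurentPolynomial.T ((M : ℤ) * n) := by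
  rw [← LaurentPolynomial.single_eq_C_mul_T]
  unfold MK2_g
  have h := AddMonoidAlgebra.liftNC_single
    (((LaurentPolynomial.C : K' →+* LaurentPolynomial K').comp (i.comp
      { toFun := fun b => X.mon 0 b
        map_one' := MK2_mon_one X
        map_mul' := fun a b => by rw [← MK2_mon_mul, add_zero]
        map_zero' := MK2_mon_zero X 0
        map_add' := fun a b => by
          unfold Obj.mon; rw [map_add, add_mul, map_add] }) : X.K →+* LaurentPolynomial K') :
            X.K →+ LaurentPolynomial K')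
    (fun n : Multiplicative ℤ => LaurentPolynomial.C (i (X.mon (Multiplicative.toAdd n) 1)) *
        LaurentPolynomial.T ((M : ℤ) * Multiplicative.toAdd n)) n b
  refine Eq.trans h ?_
  show LaurentPolynomial.C (i (X.mon 0 b)) * (LaurentPolynomial.C (i (X.mon n 1)) *
        LaurentPolynomial.T ((M : ℤ) * n)) = _
  rw [← mul_assoc, ← map_mul, ← map_mul, ← MK2_mon_mul, zero_add, mul_one]

lemma MK2_g_coeff (X : Obj k) {K' : Type} [Field K'] (M : ℕ) (hM : 0 < M) (i : X.Γ →+* K')
    (p : LaurentPolynomial X.K) (n : ℤ) :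
    (MK2_g X M i p).coeff ((M : ℤ) * n) = i (X.mon n (p.coeff n)) := by
  induction p using LaurentPolynomial.induction_on' with
  | add p q hp hq =>
    rw [map_add]
    show (MK2_g X M i p).coeff ((M : ℤ) * n) + (MK2_g X M i q).coeff ((M : ℤ) * n) = _
    rw [hp, hq, ← map_add]
    congr 1
    show _ = X.mon n (p.coeff n + q.coeff n)
    unfold Obj.mon
    rw [map_add, add_mul, map_add]
  | C_mul_T m a =>
    rw [MK2_g_apply, ← LaurentPolynomial.single_eq_C_mul_T,
      ← LaurentPolynomial.single_eq_C_mul_T]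
    by_cases hmn : m = n
    · subst hmn
      rw [AddMonoidAlgebra.coeff_single, AddMonoidAlgebra.coeff_single, Finsupp.single_eq_same,
        Finsupp.single_eq_same]
    · have h1 : (M : ℤ) * m ≠ (M : ℤ) * n := by
        intro h
        apply hmn
        have : (M : ℤ) ≠ 0 := by exact_mod_cast hM.ne'
        exact mul_left_cancel₀ this h
      have h2 : (AddMonoidAlgebra.single ((M : ℤ) * m) (i (X.mon m a)) :
          LaurentPolynomial K').coeff ((M : ℤ) * n) = 0 := by
        rw [AddMonoidAlgebra.coeff_single, Finsupp.single_apply, if_neg h1]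
      have h3 : (AddMonoidAlgebra.single m a : LaurentPolynomial X.K).coeff n = 0 := by
        rw [AddMonoidAlgebra.coeff_single, Finsupp.single_apply, if_neg hmn]
      rw [h2, h3, MK2_mon_zero, map_zero]

lemma MK2_g_inj (X : Obj k) {K' : Type} [Field K'] (M : ℕ) (hM : 0 < M) (i : X.Γ →+* K') :
    Function.Injective (MK2_g X M i) := by
  rw [injective_iff_map_eq_zero]
  intro p hp
  ext n
  have h := MK2_g_coeff X M hM i p n
  rw [hp] at h
  have h0 : i (X.mon n (p.coeff n)) = 0 := by rw [← h]; simp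
  rw [map_eq_zero] at h0
  rw [MK2_mon_eq_zero X h0]
  simp

/-- the map `ρ : Γ = K(τ) → Γ' = K'(τ')`, `b ↦ i(b)`, `τ ↦ i(τ) τ'^M` -/
theorem exists_rho (hik : ∀ r, i (algebraMap k X.Γ r) = algebraMap k K' r) :
    ∃ ρ : X.Γ →+* (mkObj X h1 h2 h3 M hM).Γ,
    (∀ r, ρ (algebraMap k X.Γ r) =
      algebraMap k (mkObj X h1 h2 h3 M hM).Γ ((RingHom.id k) r)) ∧
    ∀ (n : ℤ) (b : X.K), ρ (X.mon n b) =
      (mkObj X h1 h2 h3 M hM).mon ((M : ℤ) * n) (i (X.mon n b)) := by
  have hρ0 : ∃ ρ : X.Γ →+* FractionRing (LaurentPolynomial K'), ∀ (n : ℤ) (b : X.K),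
      ρ (X.mon n b) = algebraMap (LaurentPolynomial K') (FractionRing (LaurentPolynomial K'))
        (LaurentPolynomial.C (i (X.mon n b)) * LaurentPolynomial.T ((M : ℤ) * n)) := by
    refine ⟨IsFractionRing.map (A := LaurentPolynomial X.K) (B := LaurentPolynomial K')
      (K := X.Γ) (L := FractionRing (LaurentPolynomial K')) (MK2_g_inj X M hM i), fun n b => ?_⟩
    rw [← MK2_g_apply]
    exact IsLocalization.map_eq _ _
  obtain ⟨ρ, hρ⟩ := hρ0
  have hρ' : ∀ (n : ℤ) (b : X.K), (ρ : X.Γ →+* (mkObj X h1 h2 h3 M hM).Γ) (X.mon n b) =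
      (mkObj X h1 h2 h3 M hM).mon ((M : ℤ) * n) (i (X.mon n b)) := hρ
  refine ⟨ρ, fun r => ?_, hρ'⟩
  rw [← MK2_mon_algebraMap, RingHom.id_apply, ← MK2_mon_algebraMap (mkObj X h1 h2 h3 M hM)]
  refine (hρ' 0 (algebraMap k X.K r)).trans ?_
  rw [MK2_mon_algebraMap, hik, mul_zero]
  rfl

/-- residues of transported elements: `φ d` has residue `i (mon n b)` at level `M n` -/
theorem res_mkExt {n : ℤ} {d : X.D} {b : X.K} (h : Fr.Res X.π n d b) :
    Fr.Res π' ((M : ℤ) * n) ((mkExt X h1 h2 h3 M hM f hf i hi).φ d) (i (X.mon n b)) := by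
  obtain ⟨a1, ha1, hr⟩ := X.dd.dec_res n d b h
  refine ⟨f a1, ?_, ?_⟩
  · show Fr.map f hf (X.dd.dec d) = _
    rw [ha1, map_mul, Fr.map_ι, map_tz]
    congr 2
    ring
  · rw [hi, hr]

/-- decorated residues of transported tensors.  Induction on `j` and `Submodule.span_induction` over
`kF`: for `cons a u`, `a ∈ lev m`, `u ∈ kF (n-m)`: `DRes_cons` on both sides, `res_mkExt`, `hρ'`; then additivity and
uniqueness of decorated residues. -/
theorem DRes_mkExt (ρ : X.Γ →+* (mkObj X h1 h2 h3 M hM).Γ)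
    (hρ : ∀ r, ρ (algebraMap k X.Γ r) =
      algebraMap k (mkObj X h1 h2 h3 M hM).Γ ((RingHom.id k) r))
    (hρ' : ∀ (n : ℤ) (b : X.K), ρ (X.mon n b) =
      (mkObj X h1 h2 h3 M hM).mon ((M : ℤ) * n) (i (X.mon n b)))
    {j : ℕ} {n : ℤ} {T : TP k X.D j} {s : TP k X.Γ j} (hT : T ∈ kF k X.A j n) (h : DRes X n T s) :
    DRes (mkObj X h1 h2 h3 M hM) ((M : ℤ) * n) ((mkExt X h1 h2 h3 M hM f hf i hi).T j T)
      (TP.map (RingHom.id k) ρ hρ j s) := by
  induction j generalizing n with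
  | zero =>
    obtain ⟨b, hb⟩ := exists_res (X := X) (n := n) (d := TP.toA T) hT
    have e1 := DRes_ofA hb
    rw [TP.ofA_toA] at e1
    rw [DRes_unique h e1]
    have e2 : Fr.Res (mkObj X h1 h2 h3 M hM).π ((M : ℤ) * n)
        ((mkExt X h1 h2 h3 M hM f hf i hi).φ (TP.toA T)) (i (X.mon n b)) :=
      res_mkExt X h1 h2 h3 M hM f hf i hi hb
    have e3 := DRes_ofA e2
    rw [← hρ'] at e3
    exact e3
  | succ j ih =>
    have key : ∀ s, DRes X n T s → DRes (mkObj X h1 h2 h3 M hM) ((M : ℤ) * n)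
        ((mkExt X h1 h2 h3 M hM f hf i hi).T (j + 1) T)
        (TP.map (RingHom.id k) ρ hρ (j + 1) s) := by
      change T ∈ Submodule.span k _ at hT
      refine (Submodule.span_induction (p := fun T _ => T ∈ kF k X.A (j + 1) n ∧
        ∀ s, DRes X n T s → DRes (mkObj X h1 h2 h3 M hM) ((M : ℤ) * n)
        ((mkExt X h1 h2 h3 M hM f hf i hi).T (j + 1) T)
        (TP.map (RingHom.id k) ρ hρ (j + 1) s)) ?_ ?_ ?_ ?_ hT).2
      · rintro z ⟨m, a, u, ha, hu, rfl⟩
        refine ⟨Submodule.subset_span ⟨m, a, u, ha, hu, rfl⟩, ?_⟩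
        intro s hs
        obtain ⟨b, hb⟩ := exists_res ha
        obtain ⟨su, hsu⟩ := exists_DRes hu
        have e1 := DRes_cons hb hsu
        rw [add_sub_cancel] at e1
        rw [DRes_unique hs e1, TP.map_cons, hρ']
        have e2 : Fr.Res (mkObj X h1 h2 h3 M hM).π ((M : ℤ) * m)
          ((mkExt X h1 h2 h3 M hM f hf i hi).φ a) (i (X.mon m b)) :=
          res_mkExt X h1 h2 h3 M hM f hf i hi hb
        have e3 := DRes_cons e2 (ih hu hsu)
        have e4 : (M : ℤ) * m + (M : ℤ) * (n - m) = (M : ℤ) * n := by ring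
        rw [e4] at e3
        have e5 : (mkExt X h1 h2 h3 M hM f hf i hi).T (j + 1) (TP.cons a u) =
            TP.cons ((mkExt X h1 h2 h3 M hM f hf i hi).φ a)
              ((mkExt X h1 h2 h3 M hM f hf i hi).T j u) := TP.map_cons _ _ _ _ _ _
        rw [e5]
        exact e3
      · refine ⟨Submodule.zero_mem _, fun s hs => ?_⟩
        have e0 : DRes X n (0 : TP k X.D (j + 1)) 0 := DRes_of_lt (Submodule.zero_mem _)
        rw [DRes_unique hs e0, map_zero, map_zero]
        exact DRes_of_lt (Submodule.zero_mem _)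
      · rintro x y - - ⟨hx, hx'⟩ ⟨hy, hy'⟩
        refine ⟨Submodule.add_mem _ hx hy, fun s hs => ?_⟩
        obtain ⟨sx, hsx⟩ := exists_DRes hx
        obtain ⟨sy, hsy⟩ := exists_DRes hy
        rw [DRes_unique hs (DRes_add hsx hsy), map_add, map_add]
        exact DRes_add (hx' _ hsx) (hy' _ hsy)
      · rintro c x - ⟨hx, hx'⟩
        refine ⟨Submodule.smul_mem _ _ hx, fun s hs => ?_⟩
        obtain ⟨sx, hsx⟩ := exists_DRes hx
        rw [DRes_unique hs (DRes_smul c hsx), LinearMap.map_smulₛₗ, LinearMap.map_smulₛₗ]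
        exact DRes_smul c (hx' _ hsx)
    exact key s h

end

end C74
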