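import Pool.Agent.MP_35f30a_al.C74.NQ
import Pool.Agent.MP_35f30a_al.C74.RES3
import Pool.Agent.MP_35f30a_al.C74.MK2
import Pool.Agent.MP_35f30a_al.C74.TPL2

/-!
ROW NL2.  Transfer along a scale `M'` ring hom `χ : Q → A'`; comparison with the new object.  Blueprint section 2.5.

`trT` maps `tz (-p) • ιT T'` to `tz (-(M' p)) • ιT (mapX χ T')` (`TP.map_smulA`, `map_tz`, functoriality), so levels and
residues transfer.  `con_trT`: `TP.map_con`, `con_tz`.
`kX_mkExt`: for the composite `f' = χ.comp f` (scale `M * M'`): `kX k A' j ((mkExt ..).T j T) = trT χ (gQ X f T)`: functoriality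
(`TP.map_map`, `TP.map_congr`; `Fr.map (χ.comp f) = (Fr.map χ).comp (Fr.map f)` by `Fr.hom_ext`).
`kX_st`: `kX` commutes with `TP.tay` (`TP.map_tay`) and is the identity on `D`.
-/

set_option autoImplicit false

open scoped TensorProduct Polynomial

namespace C74

variable {k : Type} [Field k]

section transfer
variable {Q : Type} [Ring Q] [Algebra k[X] Q] {A' : Type} [Ring A'] [Algebra k[X] A'] {M' : ℕ}
  (χ : Q →+* A') (hχ : IsScale k M' χ)

lemma NL2_tr_smul (j : ℕ) (a : Fr k Q) (T : TP k[X] (Fr k Q) j) :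
    trT χ hχ j (a • T) = Fr.map χ hχ a • trT χ hχ j T :=
  TP.map_smulA (sig k M') (Fr.map χ hχ) (fun r => Fr.map_algebraMap χ hχ r) j a T

lemma NL2_tr_con (w : Fr k Q) (j i : ℕ) (T : TP k[X] (Fr k Q) j) :
    trT χ hχ i (TP.con w j i T) = TP.con (Fr.map χ hχ w) j i (trT χ hχ j T) :=
  TP.map_con (sig k M') (Fr.map χ hχ) (fun r => Fr.map_algebraMap χ hχ r) w j i T

lemma NL2_tr_ι (j : ℕ) (T : TP k[X] Q j) :
    trT χ hχ j (ιT k Q j T) = ιT k A' j (mapX χ hχ j T) := by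
  have e1 : trT χ hχ j (ιT k Q j T) = TP.map ((sig k M').comp (RingHom.id k[X]))
      ((Fr.map χ hχ).comp ((Fr.ι : Q →ₐ[k[X]] Fr k Q) : Q →+* Fr k Q))
      (fun r => by
        show Fr.map χ hχ ((Fr.ι : Q →ₐ[k[X]] Fr k Q) (algebraMap k[X] Q r)) = _
        rw [AlgHom.commutes, Fr.map_algebraMap]; rfl) j T :=
    TP.map_map (RingHom.id k[X]) ((Fr.ι : Q →ₐ[k[X]] Fr k Q) : Q →+* Fr k Q)
      (fun r => (Fr.ι : Q →ₐ[k[X]] Fr k Q).commutes r) (sig k M') (Fr.map χ hχ)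
      (fun r => Fr.map_algebraMap χ hχ r) _ j T
  have e2 : ιT k A' j (mapX χ hχ j T) = TP.map ((RingHom.id k[X]).comp (sig k M'))
      (((Fr.ι : A' →ₐ[k[X]] Fr k A') : A' →+* Fr k A').comp χ)
      (fun r => by
        show (Fr.ι : A' →ₐ[k[X]] Fr k A') (χ (algebraMap k[X] Q r)) = _
        rw [hχ, AlgHom.commutes]; rfl) j T :=
    TP.map_map (sig k M') χ hχ (RingHom.id k[X]) ((Fr.ι : A' →ₐ[k[X]] Fr k A') : A' →+* Fr k A')
      (fun r => (Fr.ι : A' →ₐ[k[X]] Fr k A').commutes r) _ j T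
  rw [e1, e2]
  apply TP.map_congr
  · intro r; rfl
  · intro a
    exact Fr.map_ι χ hχ a

lemma NL2_res {S S' : Type} [CommRing S] [Algebra k S] [CommRing S'] [Algebra k S']
    {πQ : Q →+* S} {π' : A' →+* S'} (hQ : IsQC k πQ) (hA : IsQC k π') (i : S →+* S')
    (hi : ∀ q, π' (χ q) = i (πQ q))
    (hik : ∀ r, i (algebraMap k S r) = algebraMap k S' ((RingHom.id k) r)) (j : ℕ)
    (T : TP k[X] Q j) :
    resT hA j (mapX χ hχ j T) = TP.map (RingHom.id k) i hik j (resT hQ j T) := by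
  induction j with
  | zero => exact hi _
  | succ j ih =>
    induction T using TP.succ_induction with
    | h0 => rw [map_zero, map_zero, map_zero, map_zero]
    | hc a t =>
      have e1 : mapX χ hχ (j + 1) (TP.cons a t) = TP.cons (χ a) (mapX χ hχ j t) :=
        TP.map_cons _ _ _ j a t
      have e2 : resT hQ (j + 1) (TP.cons a t) = TP.cons (πQ a) (resT hQ j t) :=
        TP.map_cons _ _ _ j a t
      have e3 : resT hA (j + 1) (TP.cons (χ a) (mapX χ hχ j t)) =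
          TP.cons (π' (χ a)) (resT hA j (mapX χ hχ j t)) := TP.map_cons _ _ _ j _ _
      rw [e1, e2, e3, TP.map_cons, ih, hi]
    | ha x y hx hy => rw [map_add, map_add, map_add, map_add, hx, hy]

theorem uLev_tr {j : ℕ} {p : ℤ} {T : TP k[X] (Fr k Q) j} (h : uLev k Q p T) :
    uLev k A' ((M' : ℤ) * p) (trT χ hχ j T) := by
  obtain ⟨T', hT'⟩ := h
  refine ⟨mapX χ hχ j T', ?_⟩
  rw [hT', NL2_tr_smul, map_tz, NL2_tr_ι, mul_neg]

theorem uRes_tr {S S' : Type} [CommRing S] [Algebra k S] [CommRing S'] [Algebra k S']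
    {πQ : Q →+* S} {π' : A' →+* S'} (hQ : IsQC k πQ) (hA : IsQC k π') (i : S →+* S')
    (hi : ∀ q, π' (χ q) = i (πQ q))
    (hik : ∀ r, i (algebraMap k S r) = algebraMap k S' ((RingHom.id k) r))
    {j : ℕ} {p : ℤ} {T : TP k[X] (Fr k Q) j} {s : TP k S j} (h : uRes hQ p T s) :
    uRes hA ((M' : ℤ) * p) (trT χ hχ j T) (TP.map (RingHom.id k) i hik j s) := by
  obtain ⟨T', hT', hs⟩ := h
  refine ⟨mapX χ hχ j T', ?_, ?_⟩
  · rw [hT', NL2_tr_smul, map_tz, NL2_tr_ι, mul_neg]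
  · rw [NL2_res χ hχ hQ hA i hi hik, hs]

/-- levels of contractions by `X^{-a} χ(w)` after transfer -/
theorem uLev_con_tr (a : ℤ) (w : Fr k Q) {j i : ℕ} (hij : i ≤ j) {p : ℤ}
    {T : TP k[X] (Fr k Q) j} (h : uLev k Q p (TP.con w j i T)) :
    uLev k A' ((M' : ℤ) * p + (j - i : ℕ) * a)
      (TP.con ((Fr.tz (-a) : Fr k A') * Fr.map χ hχ w) j i (trT χ hχ j T)) := by
  rw [con_tz _ _ _ _ hij, ← NL2_tr_con]
  have h1 := uLev_tz (-a * ((j - i : ℕ) : ℤ)) (uLev_tr χ hχ h)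
  have h2 : (M' : ℤ) * p - -a * ((j - i : ℕ) : ℤ) = (M' : ℤ) * p + ((j - i : ℕ) : ℤ) * a := by ring
  rwa [h2] at h1

theorem uRes_con_tr {S S' : Type} [CommRing S] [Algebra k S] [CommRing S'] [Algebra k S']
    {πQ : Q →+* S} {π' : A' →+* S'} (hQ : IsQC k πQ) (hA : IsQC k π') (i0 : S →+* S')
    (hi : ∀ q, π' (χ q) = i0 (πQ q))
    (hik : ∀ r, i0 (algebraMap k S r) = algebraMap k S' ((RingHom.id k) r))
    (a : ℤ) (w : Fr k Q) {j i : ℕ} (hij : i ≤ j) {p : ℤ} {s : TP k S i}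
    {T : TP k[X] (Fr k Q) j} (h : uRes hQ p (TP.con w j i T) s) :
    uRes hA ((M' : ℤ) * p + (j - i : ℕ) * a)
      (TP.con ((Fr.tz (-a) : Fr k A') * Fr.map χ hχ w) j i (trT χ hχ j T))
      (TP.map (RingHom.id k) i0 hik i s) := by
  rw [con_tz _ _ _ _ hij, ← NL2_tr_con]
  have h1 := uRes_tz hA (-a * ((j - i : ℕ) : ℤ)) (uRes_tr χ hχ hQ hA i0 hi hik h)
  have h2 : (M' : ℤ) * p - -a * ((j - i : ℕ) : ℤ) = (M' : ℤ) * p + ((j - i : ℕ) : ℤ) * a := by ring
  rwa [h2] at h1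

end transfer

theorem isScale_comp {A Q A' : Type} [Ring A] [Algebra k[X] A] [Ring Q] [Algebra k[X] Q]
    [Ring A'] [Algebra k[X] A'] {M M' : ℕ} {f : A →+* Q} {χ : Q →+* A'} (hf : IsScale k M f)
    (hχ : IsScale k M' χ) : IsScale k (M * M') (χ.comp f) := by
  intro r
  show χ (f (algebraMap k[X] A r)) = _
  rw [hf, hχ]
  congr 1
  show Polynomial.expand k M' (Polynomial.expand k M r) = Polynomial.expand k (M * M') r
  rw [mul_comm, Polynomial.expand_mul]

lemma NL2_map_comp {A Q A' : Type} [Ring A] [Algebra k[X] A] [Ring Q] [Algebra k[X] Q]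
    [Ring A'] [Algebra k[X] A'] {M M' : ℕ} (f : A →+* Q) (hf : IsScale k M f) (χ : Q →+* A')
    (hχ : IsScale k M' χ) (a : Fr k A) :
    Fr.map (χ.comp f) (isScale_comp hf hχ) a = Fr.map χ hχ (Fr.map f hf a) := by
  have h : Fr.map (χ.comp f) (isScale_comp hf hχ) = (Fr.map χ hχ).comp (Fr.map f hf) := by
    apply Fr.hom_ext
    intro b
    rw [RingHom.comp_apply, Fr.map_ι, Fr.map_ι, Fr.map_ι]; rfl
  rw [h]; rfl

section
variable (X : Obj k) {Q : Type} [Ring Q] [Algebra k[X] Q] {M : ℕ} (f : X.dd.A1 →+* Q)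
  (hf : IsScale k M f) {A' : Type} [Ring A'] [Algebra k[X] A'] {M' : ℕ} (χ : Q →+* A')
  (hχ : IsScale k M' χ) {K' : Type} [Field K'] [Algebra k K'] {π' : A' →+* K'} (h1 : IsQC k π')
  (h2 : IsComp k A') (h3 : SG k K') (hM : 0 < M * M') (i : X.Γ →+* K')
  (hi : ∀ a, π' ((χ.comp f) a) = i (X.dd.π1 a))

/-- images of `k`-tensors in the new object through `Fr Q` -/
theorem kX_mkExt {j : ℕ} (T : TP k X.D j) :
    kX k A' j ((mkExt X h1 h2 h3 (M * M') hM (χ.comp f) (isScale_comp hf hχ) i hi).T j T) =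
      trT χ hχ j (gQ X f hf T) := by
  have e1 : kX k A' j ((mkExt X h1 h2 h3 (M * M') hM (χ.comp f) (isScale_comp hf hχ) i hi).T j T) =
      TP.map ((Polynomial.C : k →+* k[X]).comp (RingHom.id k))
        ((RingHom.id (Fr k A')).comp
          (((Fr.mapk (χ.comp f) (isScale_comp hf hχ)).comp X.dd.dec : X.D →ₐ[k] Fr k A') :
            X.D →+* Fr k A'))
        (fun r => by
          show ((Fr.mapk (χ.comp f) (isScale_comp hf hχ)).comp X.dd.dec : X.D →ₐ[k] Fr k A')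
            (algebraMap k X.D r) = _
          rw [AlgHom.commutes]; rfl) j T :=
    TP.map_map (RingHom.id k)
      (((Fr.mapk (χ.comp f) (isScale_comp hf hχ)).comp X.dd.dec : X.D →ₐ[k] Fr k A') :
            X.D →+* Fr k A')
      (fun r => ((Fr.mapk (χ.comp f) (isScale_comp hf hχ)).comp X.dd.dec :
        X.D →ₐ[k] Fr k A').commutes r)
      (Polynomial.C : k →+* k[X]) (RingHom.id (Fr k A')) (fun _ => rfl) _ j T
  have e2 : gQ X f hf T = TP.map ((Polynomial.C : k →+* k[X]).comp (RingHom.id k))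
        ((RingHom.id (Fr k Q)).comp (toQ X f hf : X.D →+* Fr k Q))
        (fun r => by
          show toQ X f hf (algebraMap k X.D r) = _
          rw [AlgHom.commutes]; rfl) j T :=
    TP.map_map (RingHom.id k) (toQ X f hf : X.D →+* Fr k Q) (fun r => (toQ X f hf).commutes r)
      (Polynomial.C : k →+* k[X]) (RingHom.id (Fr k Q)) (fun _ => rfl) _ j T
  have e3 : trT χ hχ j (gQ X f hf T) =
      TP.map ((sig k M').comp ((Polynomial.C : k →+* k[X]).comp (RingHom.id k)))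
        ((Fr.map χ hχ).comp ((RingHom.id (Fr k Q)).comp (toQ X f hf : X.D →+* Fr k Q)))
        (fun r => by
          show Fr.map χ hχ (toQ X f hf (algebraMap k X.D r)) = _
          rw [AlgHom.commutes, Fr.algebraMap_k, Fr.map_algebraMap]; rfl) j T := by
    rw [e2]
    exact TP.map_map _ _ _ (sig k M') (Fr.map χ hχ) (fun r => Fr.map_algebraMap χ hχ r) _ j T
  rw [e1, e3]
  apply TP.map_congr
  · intro r
    exact (Fr.sig_C M' r).symm
  · intro a
    exact NL2_map_comp f hf χ hχ (X.dd.dec a)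

theorem φ_mkExt (d : X.D) :
    (mkExt X h1 h2 h3 (M * M') hM (χ.comp f) (isScale_comp hf hχ) i hi).φ d =
      Fr.map χ hχ (toQ X f hf d) := by
  exact NL2_map_comp f hf χ hχ (X.dd.dec d)

/-- `kX` of a Taylor shift -/
theorem kX_st (d : ℕ) (w : Fr k A') (g : Fam X) (i' : ℕ) :
    kX k A' i' ((mkExt X h1 h2 h3 (M * M') hM (χ.comp f) (isScale_comp hf hχ) i hi).st d w g i') =
      ∑ j ∈ Finset.range (d + 1), TP.con w j i' (trT χ hχ j (gQ X f hf (g j))) := by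
  have e1 := TP.map_tay (Polynomial.C : k →+* k[X]) (RingHom.id (Fr k A')) (fun _ => rfl) d w
    (fun j => (mkExt X h1 h2 h3 (M * M') hM (χ.comp f) (isScale_comp hf hχ) i hi).T j (g j)) i'
  refine Eq.trans e1 ?_
  unfold TP.tay
  refine Finset.sum_congr rfl fun j _ => ?_
  have e2 := kX_mkExt X f hf χ hχ h1 h2 h3 hM i hi (g j)
  rw [← e2]
  rfl

end

/-- in `T_0` the `u`-level is the level -/
theorem uLev_zero_iff {A : Type} [Ring A] [Algebra k[X] A] {n : ℤ} (d : Fr k A) :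
    uLev k A n (kX k A 0 (TP.ofA d)) ↔ d ∈ Fr.lev k A n := by
  constructor
  · rintro ⟨T', hT'⟩
    exact ⟨TP.toA T', hT'⟩
  · rintro ⟨a, ha⟩
    exact ⟨TP.ofA a, ha⟩

end C74
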