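import Pool.Agent.MP_35f30a_al.C74.MAPX

/-!
ROW PSF2.  The specialisation property.  Blueprint section 6 (GOOD, SPEC).

`specX_of_points`: `Z` finite, common denominator `D ≠ 0`; `W :=` the subring `R0[1/D]` of `FractionRing R0` (image of
`Localization.Away D`), `e` extends to it as `e D ≠ 0`.
`points_mvPoly`: `Γ` infinite: a nonzero polynomial has a point where it does not vanish (`MvPolynomial.funext`).
`points_linear`: `P = Σ a_λ X_λ + b`, some `a_{λ0} ≠ 0`; the `Γ`-algebra hom `Γ[Λ] → Γ[Λ]`,
`X_{λ0} ↦ X_{λ0} - P / a_{λ0}` (which does not involve `λ0` any more), `X_λ ↦ X_λ` has kernel `(P)`, so `Γ[Λ]/P` embeds as a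
`Γ`-algebra into `Γ[Λ]` (and `(Γ[Λ]/P)[Y]` into `Γ[Λ][Y] ≅` a polynomial ring); use `points_mvPoly` for the image of `D`.
-/

set_option autoImplicit false

open scoped TensorProduct Polynomial

namespace C74

theorem specX_of_points {Γ : Type} [Field Γ] {R0 : Type} [CommRing R0] [IsDomain R0] [Algebra Γ R0]
    (h : ∀ D : R0, D ≠ 0 → ∃ e : R0 →ₐ[Γ] Γ, e D ≠ 0) :
    SpecX (algebraMap Γ (FractionRing R0)) := by
  intro Z
  obtain ⟨D, hD⟩ := IsLocalization.exist_integer_multiples_of_finset (nonZeroDivisors R0) Z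
  obtain ⟨e, he⟩ := h D (nonZeroDivisors.ne_zero D.2)
  set S : Submonoid R0 := (nonZeroDivisors Γ).comap (e : R0 →+* Γ) with hS
  have hle : S ≤ nonZeroDivisors R0 := by
    intro x hx
    rw [mem_nonZeroDivisors_iff_ne_zero]
    rintro rfl
    have h1 : (e : R0 →+* Γ) 0 ∈ nonZeroDivisors Γ := hx
    rw [map_zero] at h1
    exact zero_notMem_nonZeroDivisors h1
  set W := Localization.subalgebra.ofField (FractionRing R0) S hle with hW
  have hunit : ∀ y : S, IsUnit ((e : R0 →+* Γ) y) := fun y =>
    isUnit_iff_ne_zero.2 (nonZeroDivisors.ne_zero y.2)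
  have hmem : ∀ x : FractionRing R0, x ∈ W ↔ ∃ (a s : R0) (_ : s ∈ S),
      x = algebraMap R0 (FractionRing R0) a * (algebraMap R0 (FractionRing R0) s)⁻¹ := fun x => Iff.rfl
  have hi : ∀ γ, algebraMap Γ (FractionRing R0) γ ∈ W.toSubring := by
    intro γ
    change algebraMap Γ (FractionRing R0) γ ∈ W
    rw [IsScalarTower.algebraMap_apply Γ R0 (FractionRing R0)]
    exact W.algebraMap_mem _
  refine ⟨W.toSubring, (IsLocalization.lift (M := S) (S := W) hunit : W →+* Γ), hi, ?_, ?_⟩
  · intro z hz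
    change z ∈ W
    obtain ⟨a, ha⟩ := hD z hz
    rw [hmem]
    refine ⟨a, D, ?_, ?_⟩
    · change (e : R0 →+* Γ) D ∈ nonZeroDivisors Γ
      exact mem_nonZeroDivisors_of_ne_zero he
    · rw [ha, Algebra.smul_def]
      have hD0 : algebraMap R0 (FractionRing R0) D ≠ 0 := by
        rw [Ne, map_eq_zero_iff _ (IsFractionRing.injective R0 (FractionRing R0))]
        exact nonZeroDivisors.ne_zero D.2
      field_simp
  · intro γ
    have h1 : (⟨algebraMap Γ (FractionRing R0) γ, hi γ⟩ : W) = algebraMap R0 W (algebraMap Γ R0 γ) := by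
      apply Subtype.ext
      change algebraMap Γ (FractionRing R0) γ = algebraMap R0 (FractionRing R0) (algebraMap Γ R0 γ)
      rw [IsScalarTower.algebraMap_apply Γ R0 (FractionRing R0)]
    change (IsLocalization.lift (M := S) (S := W) hunit : W →+* Γ)
      (⟨algebraMap Γ (FractionRing R0) γ, hi γ⟩ : W) = γ
    rw [h1, IsLocalization.lift_eq]
    exact e.commutes γ

theorem points_mvPoly {Γ : Type} [Field Γ] [Infinite Γ] {Λ : Type} (D : MvPolynomial Λ Γ)
    (hD : D ≠ 0) : ∃ e : MvPolynomial Λ Γ →ₐ[Γ] Γ, e D ≠ 0 := by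
  by_contra hcon
  push Not at hcon
  apply hD
  apply MvPolynomial.funext
  intro x
  rw [map_zero, ← hcon (MvPolynomial.aeval x), MvPolynomial.aeval_eq_eval]

/-- a linear polynomial `P` is killed by the substitution `X_{λ0} ↦ X_{λ0} - a⁻¹ P` -/
lemma PSF2_kill {Γ : Type} [Field Γ] {Λ : Type} (P : MvPolynomial Λ Γ) (hP : P.totalDegree = 1) :
    ∃ φ : MvPolynomial Λ Γ →ₐ[Γ] MvPolynomial Λ Γ, φ P = 0 ∧
      ∀ f, f - φ f ∈ Ideal.span {P} := by
  classical
  -- a variable that occurs
  have hdeg : ∀ d ∈ P.support, d.sum (fun _ n => n) ≤ 1 := by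
    intro d hd
    rw [← hP]
    exact MvPolynomial.le_totalDegree hd
  obtain ⟨v, hv⟩ : ∃ v, P.coeff (Finsupp.single v 1) ≠ 0 := by
    have hne : P.support.Nonempty := by
      rw [MvPolynomial.support_nonempty]
      rintro rfl
      simp at hP
    obtain ⟨d, hd, hd1⟩ := Finset.exists_mem_eq_sup P.support hne (fun s => s.sum fun _ e => e)
    have h1 : d.sum (fun _ n => n) = 1 := by
      rw [← hd1, ← hP]; rfl
    obtain ⟨v, rfl⟩ := (Finsupp.sum_eq_one_iff d).1 h1
    exact ⟨v, MvPolynomial.mem_support_iff.1 hd⟩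
  set a := P.coeff (Finsupp.single v 1) with ha
  refine ⟨MvPolynomial.aeval fun i => if i = v then MvPolynomial.X v - MvPolynomial.C a⁻¹ * P
    else MvPolynomial.X i, ?_, ?_⟩
  · set φ : MvPolynomial Λ Γ →ₐ[Γ] MvPolynomial Λ Γ :=
      MvPolynomial.aeval fun i => if i = v then MvPolynomial.X v - MvPolynomial.C a⁻¹ * P
        else MvPolynomial.X i with hφ
    have hterm : ∀ d ∈ P.support, φ (MvPolynomial.monomial d (P.coeff d)) =
        MvPolynomial.monomial d (P.coeff d) -
          (if d = Finsupp.single v 1 then MvPolynomial.C (P.coeff d) * (MvPolynomial.C a⁻¹ * P) else 0) := by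
      intro d hd
      have hd1 := hdeg d hd
      rcases Nat.lt_or_ge (d.sum (fun _ n => n)) 1 with h0 | h0
      · have hd0 : d = 0 := by
          have h2 : d.sum (fun _ n => n) = 0 := by omega
          ext i
          by_contra hne
          have h3 : d i ≤ d.sum (fun _ n => n) :=
            Finset.single_le_sum (f := fun j => d j) (fun _ _ => Nat.zero_le _)
              (Finsupp.mem_support_iff.2 (by simpa using hne))
          simp at hne
          omega
        subst hd0
        have hne : (0 : Λ →₀ ℕ) ≠ Finsupp.single v 1 := by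
          intro h
          have := congrArg (fun f => f v) h
          simp at this
        rw [if_neg hne, sub_zero]
        change φ (MvPolynomial.C _) = MvPolynomial.C _
        rw [hφ, MvPolynomial.aeval_C]; rfl
      · obtain ⟨w, rfl⟩ := (Finsupp.sum_eq_one_iff d).1 (le_antisymm hd1 h0)
        have hX : MvPolynomial.monomial (Finsupp.single w 1) (P.coeff (Finsupp.single w 1)) =
            MvPolynomial.C (P.coeff (Finsupp.single w 1)) * MvPolynomial.X w := by
          rw [MvPolynomial.X, MvPolynomial.C_mul_monomial, mul_one]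
        rw [hX, map_mul]
        have hC : φ (MvPolynomial.C (P.coeff (Finsupp.single w 1))) =
            MvPolynomial.C (P.coeff (Finsupp.single w 1)) := by
          rw [hφ, MvPolynomial.aeval_C]; rfl
        have hXw : φ (MvPolynomial.X w) = if w = v then MvPolynomial.X v - MvPolynomial.C a⁻¹ * P
            else MvPolynomial.X w := by
          rw [hφ, MvPolynomial.aeval_X]
        rw [hC, hXw]
        by_cases hwv : w = v
        · subst hwv
          rw [if_pos rfl, if_pos rfl, mul_sub]
        · have hne : (Finsupp.single w 1 : Λ →₀ ℕ) ≠ Finsupp.single v 1 := by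
            intro h
            exact hwv (Finsupp.single_left_injective one_ne_zero h)
          rw [if_neg hwv, if_neg hne, sub_zero]
    have hsum : φ P = ∑ d ∈ P.support, φ (MvPolynomial.monomial d (P.coeff d)) := by
      conv_lhs => rw [MvPolynomial.as_sum P]
      rw [map_sum]
    rw [hsum, Finset.sum_congr rfl hterm, Finset.sum_sub_distrib, ← MvPolynomial.as_sum,
      Finset.sum_ite_eq', if_pos (MvPolynomial.mem_support_iff.2 hv), ← ha, ← mul_assoc,
      ← MvPolynomial.C_mul, mul_inv_cancel₀ hv, MvPolynomial.C_1, one_mul, sub_self]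
  · intro f
    induction f using MvPolynomial.induction_on with
    | C r => rw [MvPolynomial.aeval_C]; simp
    | add p q hp hq =>
      rw [map_add, add_sub_add_comm]
      exact add_mem hp hq
    | mul_X p n hp =>
      rw [map_mul, MvPolynomial.aeval_X]
      set ψ := (MvPolynomial.aeval fun i => if i = v then MvPolynomial.X v - MvPolynomial.C a⁻¹ * P
        else MvPolynomial.X i : MvPolynomial Λ Γ →ₐ[Γ] MvPolynomial Λ Γ) with hψ
      by_cases hn : n = v
      · subst hn
        rw [if_pos rfl]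
        have : p * MvPolynomial.X n - ψ p * (MvPolynomial.X n - MvPolynomial.C a⁻¹ * P) =
            MvPolynomial.X n * (p - ψ p) + (ψ p * MvPolynomial.C a⁻¹) * P := by ring
        rw [this]
        exact add_mem (Ideal.mul_mem_left _ _ hp)
          (Ideal.mul_mem_left _ _ (Ideal.mem_span_singleton_self P))
      · rw [if_neg hn, ← sub_mul, mul_comm]
        exact Ideal.mul_mem_left _ _ hp

theorem points_linear {Γ : Type} [Field Γ] [Infinite Γ] {Λ : Type} (P : MvPolynomial Λ Γ)
    (hP : P.totalDegree = 1)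
    (D : Polynomial (MvPolynomial Λ Γ ⧸ (Ideal.span {P} : Ideal (MvPolynomial Λ Γ)))) (hD : D ≠ 0) :
    ∃ e : Polynomial (MvPolynomial Λ Γ ⧸ (Ideal.span {P} : Ideal (MvPolynomial Λ Γ))) →ₐ[Γ] Γ,
      e D ≠ 0 := by
  classical
  obtain ⟨φ, hφP, hφ⟩ := PSF2_kill P hP
  obtain ⟨n, hn⟩ : ∃ n, D.coeff n ≠ 0 := by
    by_contra hcon
    push Not at hcon
    exact hD (Polynomial.ext (by simpa using hcon))
  obtain ⟨g, hg⟩ := Ideal.Quotient.mk_surjective (D.coeff n)
  have hφg : φ g ≠ 0 := by
    intro h0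
    apply hn
    rw [← hg, Ideal.Quotient.eq_zero_iff_mem]
    have := hφ g
    rwa [h0, sub_zero] at this
  obtain ⟨e0, he0⟩ := points_mvPoly (φ g) hφg
  have hker : ∀ x ∈ (Ideal.span {P} : Ideal (MvPolynomial Λ Γ)), (e0.comp φ) x = 0 := by
    intro x hx
    obtain ⟨y, rfl⟩ := Ideal.mem_span_singleton'.1 hx
    rw [map_mul, AlgHom.comp_apply, AlgHom.comp_apply, hφP, map_zero, mul_zero]
  set f : (MvPolynomial Λ Γ ⧸ (Ideal.span {P} : Ideal (MvPolynomial Λ Γ))) →ₐ[Γ] Γ :=
    Ideal.Quotient.liftₐ _ (e0.comp φ) hker with hf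
  have hfD : D.map (f.toRingHom) ≠ 0 := by
    intro h0
    have h1 := congrArg (fun q => q.coeff n) h0
    simp only [Polynomial.coeff_map, Polynomial.coeff_zero] at h1
    rw [← hg] at h1
    exact he0 h1
  obtain ⟨y, hy⟩ : ∃ y, (D.map (f.toRingHom)).eval y ≠ 0 := by
    by_contra hcon
    push Not at hcon
    exact hfD (Polynomial.funext (by simpa using hcon))
  refine ⟨{ Polynomial.eval₂RingHom (f.toRingHom) y with
    commutes' := fun r => ?_ }, ?_⟩
  · change Polynomial.eval₂ (f.toRingHom) y (algebraMap Γ _ r) = r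
    rw [IsScalarTower.algebraMap_apply Γ
      (MvPolynomial Λ Γ ⧸ (Ideal.span {P} : Ideal (MvPolynomial Λ Γ)))]
    change Polynomial.eval₂ (f.toRingHom) y (Polynomial.C _) = r
    rw [Polynomial.eval₂_C]
    exact f.commutes r
  · change Polynomial.eval₂ (f.toRingHom) y D ≠ 0
    rwa [← Polynomial.eval_map]

end C74
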