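import Pool.Agent.MP_35f30a_al.C74.Ord

/-!
ROW RAM.  Ramification `X ↦ X^M`.  Blueprint section 3 (RAM).

Take `R' := k[X]` as an algebra over `R = k[X]` through `sig k M` (a type synonym; it is free over `R`
with basis `1, X, ..., X^{M-1}`), and `A' := R' ⊗[R] A` with its ring structure
(`Algebra.TensorProduct`), as a `k[X]`-algebra through the left factor; `ram a = 1 ⊗ a`.  Or take
`A' := Fin M → A` / `AdjoinRoot`-like quotient of `Polynomial A`: any construction is fine.
* `π'`: `r ⊗ a ↦ ev0 r • π a`.   Kernel: `a' = Σ_{i<M} X^i ram(c_i)`, `π' a' = π (c_0)`; if `0` then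
  `c_0 = X • c`, `ram c_0 = X^M • ram c`.
* Gap: commutators of elements `X^i ram a` are `X^{i+j} ram [a,b]`, `[a,b] ∈ X A` as `A` is QC.
* Completeness: `u n` given; in `A'`, `X^M • ram a = ram (X • a)`; group the terms `M q + s`,
  `v q := Σ_{s<M} X^s u(Mq+s)` and take limits of the `M` coordinates in `A`.
  Separated: all coordinates lie in `⋂ X^n A = 0`.
-/

set_option autoImplicit false

open scoped TensorProduct Polynomial

namespace C74

/-- `k[X]` as an algebra over `k[X]` through `X ↦ X^M` -/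
def RAM_R (k : Type) [Field k] (_M : ℕ) : Type := k[X]

noncomputable instance RAM_commRing (k : Type) [Field k] (M : ℕ) : CommRing (RAM_R k M) :=
  inferInstanceAs (CommRing k[X])

noncomputable instance RAM_algR (k : Type) [Field k] (M : ℕ) : Algebra k[X] (RAM_R k M) :=
  (sig k M).toAlgebra

/-- identification -/
noncomputable def RAM_of (k : Type) [Field k] (M : ℕ) : k[X] ≃+* RAM_R k M := RingEquiv.refl _

lemma RAM_algMap (k : Type) [Field k] (M : ℕ) (r : k[X]) :
    algebraMap k[X] (RAM_R k M) r = RAM_of k M (sig k M r) := rfl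

lemma RAM_smul (k : Type) [Field k] (M : ℕ) (r s : k[X]) :
    r • RAM_of k M s = RAM_of k M (sig k M r * s) := by
  rw [Algebra.smul_def, RAM_algMap, map_mul]

lemma RAM_sig_apply (k : Type) [Field k] (M : ℕ) (r : k[X]) :
    sig k M r = Polynomial.expand k M r := rfl

lemma RAM_sig_X (k : Type) [Field k] (M : ℕ) : sig k M (tX k) = (tX k) ^ M := by
  simp [RAM_sig_apply, tX]

lemma RAM_coeff (k : Type) [Field k] {M : ℕ} (hM : 0 < M) (r : k[X]) (i j : Fin M) (n : ℕ) :
    (sig k M r * (tX k) ^ (j : ℕ)).coeff (n * M + i) = if i = j then r.coeff n else 0 := by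
  rw [RAM_sig_apply, Polynomial.coeff_mul_X_pow']
  have hi := i.2
  have hj := j.2
  by_cases hij : i = j
  · subst hij
    rw [if_pos (Nat.le_add_left _ _), Nat.add_sub_cancel, Polynomial.coeff_expand hM,
      if_pos (Dvd.intro_left _ rfl), Nat.mul_div_cancel _ hM, if_pos rfl]
  · rw [if_neg hij]
    split_ifs with h
    · rw [Polynomial.coeff_expand hM, if_neg]
      rintro ⟨c, hc⟩
      apply hij
      have h1 : n * M + (i : ℕ) = M * c + j := by omega
      have h2 : (n * M + (i : ℕ)) % M = (M * c + j) % M := by rw [h1]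
      rw [Nat.mul_comm, Nat.mul_add_mod, Nat.mul_add_mod, Nat.mod_eq_of_lt hi,
        Nat.mod_eq_of_lt hj] at h2
      exact Fin.ext h2
    · rfl

/-- the basis `1, X, ..., X^{M-1}` -/
noncomputable def RAM_basis (k : Type) [Field k] (M : ℕ) (hM : 0 < M) :
    Module.Basis (Fin M) k[X] (RAM_R k M) :=
  Module.Basis.mk (v := fun i : Fin M => RAM_of k M ((tX k) ^ (i : ℕ)))
    (by
      rw [Fintype.linearIndependent_iff]
      intro g hg i
      ext n
      have h1 : (RAM_of k M).symm (∑ i : Fin M, g i • RAM_of k M ((tX k) ^ (i : ℕ))) = 0 := by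
        rw [hg, map_zero]
      simp only [RAM_smul, map_sum, RingEquiv.symm_apply_apply] at h1
      have h2 := congrArg (fun p : k[X] => p.coeff (n * M + i)) h1
      simp only [Polynomial.finsetSum_coeff, RAM_coeff k hM, Polynomial.coeff_zero] at h2
      rw [Finset.sum_ite_eq Finset.univ i (fun j => (g j).coeff n)] at h2
      simpa using h2)
    (by
      rintro x -
      obtain ⟨p, rfl⟩ := (RAM_of k M).surjective x
      induction p using Polynomial.induction_on' with
      | add p q hp hq => rw [map_add]; exact Submodule.add_mem _ hp hq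
      | monomial n a =>
        have h1 : RAM_of k M (Polynomial.monomial n a) =
            (Polynomial.monomial (n / M) a : k[X]) •
              RAM_of k M ((tX k) ^ (((⟨n % M, Nat.mod_lt _ hM⟩ : Fin M)) : ℕ)) := by
          rw [RAM_smul, RAM_sig_apply, Polynomial.expand_monomial, Polynomial.monomial_mul_X_pow]
          congr 2
          exact congrArg _ (Nat.div_add_mod' n M).symm
        rw [h1]
        exact Submodule.smul_mem _ _ (Submodule.subset_span ⟨_, rfl⟩))

lemma RAM_basis_apply (k : Type) [Field k] (M : ℕ) (hM : 0 < M) (i : Fin M) :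
    RAM_basis k M hM i = RAM_of k M ((tX k) ^ (i : ℕ)) := by
  simp [RAM_basis]

variable {k : Type} [Field k]

/-- the ramified algebra -/
def RAM_A (k : Type) [Field k] (M : ℕ) (A : Type) [Ring A] [Algebra k[X] A] : Type :=
  RAM_R k M ⊗[k[X]] A

section
variable (M : ℕ) {A : Type} [Ring A] [Algebra k[X] A]

noncomputable instance RAM_ring : Ring (RAM_A k M A) :=
  inferInstanceAs (Ring (RAM_R k M ⊗[k[X]] A))

/-- pure tensors -/
noncomputable def RAM_t (r : k[X]) (a : A) : RAM_A k M A :=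
  (RAM_of k M r ⊗ₜ[k[X]] a : RAM_R k M ⊗[k[X]] A)

/-- the left inclusion -/
noncomputable def RAM_l : k[X] →+* RAM_A k M A :=
  ((Algebra.TensorProduct.includeLeftRingHom : RAM_R k M →+* RAM_R k M ⊗[k[X]] A).comp
    (RAM_of k M : k[X] →+* RAM_R k M))

lemma RAM_l_apply (r : k[X]) : RAM_l M r = (RAM_t M r (1 : A)) := rfl

lemma RAM_t_mul (r s : k[X]) (a b : A) :
    RAM_t M r a * RAM_t M s b = RAM_t M (r * s) (a * b) := by
  unfold RAM_t
  show (RAM_of k M r ⊗ₜ[k[X]] a : RAM_R k M ⊗[k[X]] A) * (RAM_of k M s ⊗ₜ[k[X]] b) = _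
  rw [Algebra.TensorProduct.tmul_mul_tmul, map_mul]

lemma RAM_ind {P : RAM_A k M A → Prop} (x : RAM_A k M A) (h0 : P 0)
    (ht : ∀ r a, P (RAM_t M r a)) (ha : ∀ x y, P x → P y → P (x + y)) : P x := by
  have : ∀ y : RAM_R k M ⊗[k[X]] A, P y := by
    intro y
    induction y using TensorProduct.induction_on with
    | zero => exact h0
    | tmul r a => exact ht ((RAM_of k M).symm r) a
    | add x y hx hy => exact ha x y hx hy
  exact this x

noncomputable instance RAM_alg : Algebra k[X] (RAM_A k M A) :=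
  (RAM_l M : k[X] →+* RAM_A k M A).toAlgebra' (by
    intro c x
    refine RAM_ind M (P := fun x => RAM_l M c * x = x * RAM_l M c) x (by simp) ?_ ?_
    · intro r a
      rw [RAM_l_apply, RAM_t_mul, RAM_t_mul, mul_comm, one_mul, mul_one]
    · intro x y hx hy
      rw [mul_add, add_mul, hx, hy])

lemma RAM_algebraMap (r : k[X]) : algebraMap k[X] (RAM_A k M A) r = RAM_t M r (1 : A) := rfl

lemma RAM_smul_t (r s : k[X]) (a : A) : r • RAM_t M s a = RAM_t M (r * s) a := by
  rw [Algebra.smul_def, RAM_algebraMap, RAM_t_mul, one_mul]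

/-- the ramification map -/
noncomputable def RAM_ram : A →+* RAM_A k M A :=
  ((Algebra.TensorProduct.includeRight : A →ₐ[k[X]] RAM_R k M ⊗[k[X]] A) :
    A →+* RAM_R k M ⊗[k[X]] A)

lemma RAM_ram_apply (a : A) : RAM_ram M a = RAM_t (k := k) M 1 a := rfl

lemma RAM_t_eq (r : k[X]) (a : A) : RAM_t M r a = r • RAM_ram M a := by
  rw [RAM_ram_apply, RAM_smul_t, mul_one]

lemma RAM_t_smul (r s : k[X]) (a : A) : RAM_t M (sig k M r * s) a = RAM_t M s (r • a) := by
  unfold RAM_t
  rw [← RAM_smul]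
  exact TensorProduct.smul_tmul _ _ _

lemma RAM_isScale : IsScale k M (RAM_ram M : A →+* RAM_A k M A) := by
  intro r
  rw [RAM_ram_apply, RAM_algebraMap, Algebra.algebraMap_eq_smul_one, ← RAM_t_smul, mul_one]

lemma RAM_ram_smul (r : k[X]) (a : A) :
    RAM_ram M (r • a) = sig k M r • (RAM_ram M a : RAM_A k M A) := by
  rw [Algebra.smul_def, map_mul, RAM_isScale, Algebra.smul_def]

lemma RAM_ram_X_pow (n : ℕ) (a : A) :
    RAM_ram M ((tX k) ^ n • a) = (tX k) ^ (M * n) • (RAM_ram M a : RAM_A k M A) := by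
  rw [RAM_ram_smul, map_pow, RAM_sig_X, pow_mul]

lemma RAM_exists_unique (hM : 0 < M) (a' : RAM_A k M A) :
    ∃! c : Fin M → A, a' = ∑ i : Fin M, (tX k) ^ (i : ℕ) • RAM_ram M (c i) := by
  have key : ∀ c : Fin M → A, ∑ i : Fin M, (tX k) ^ (i : ℕ) • (RAM_ram M (c i) : RAM_A k M A) =
      (TensorProduct.equivFinsuppOfBasisLeft (RAM_basis k M hM)).symm
        (Finsupp.equivFunOnFinite.symm c) := by
    intro c
    rw [TensorProduct.equivFinsuppOfBasisLeft_symm_apply, Finsupp.sum_fintype]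
    · refine Finset.sum_congr rfl fun i _ => ?_
      rw [← RAM_t_eq, RAM_basis_apply]
      rfl
    · intro i; simp
  refine ⟨Finsupp.equivFunOnFinite
    (TensorProduct.equivFinsuppOfBasisLeft (RAM_basis k M hM) a'), ?_, ?_⟩
  · show a' = _
    rw [key]
    simp only [Equiv.symm_apply_apply]
    exact ((TensorProduct.equivFinsuppOfBasisLeft (RAM_basis k M hM)).symm_apply_apply a').symm
  · intro c hc
    have hc' : a' = ∑ i : Fin M, (tX k) ^ (i : ℕ) • RAM_ram M (c i) := hc
    rw [key] at hc'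
    rw [hc']
    simp only [LinearEquiv.apply_symm_apply]
    exact (Equiv.apply_symm_apply _ _).symm

/-- `B` as an algebra through `X ↦ X^M` -/
def RAM_B (k : Type) [Field k] (_M : ℕ) (B : Type) : Type := B

noncomputable instance RAM_B_ring (B : Type) [Ring B] : Ring (RAM_B k M B) :=
  inferInstanceAs (Ring B)

noncomputable instance RAM_B_alg (B : Type) [Ring B] [Algebra k[X] B] :
    Algebra k[X] (RAM_B k M B) :=
  Algebra.compHom B (sig k M)

/-- auxiliary -/
noncomputable def RAM_F (B : Type) [Ring B] [Algebra k[X] B] : RAM_R k M →ₐ[k[X]] RAM_B k M B :=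
  { toRingHom := (algebraMap k[X] B).comp ((RAM_of k M).symm : RAM_R k M →+* k[X])
    commutes' := fun _ => rfl }

/-- auxiliary -/
noncomputable def RAM_G {B : Type} [Ring B] [Algebra k[X] B] (f : A →+* B)
    (hf : IsScale k M f) : A →ₐ[k[X]] RAM_B k M B :=
  { toRingHom := f
    commutes' := fun r => hf r }

/-- auxiliary -/
noncomputable def RAM_H {B : Type} [Ring B] [Algebra k[X] B] (f : A →+* B)
    (hf : IsScale k M f) : RAM_R k M ⊗[k[X]] A →ₐ[k[X]] RAM_B k M B :=
  Algebra.TensorProduct.lift (RAM_F M B) (RAM_G M f hf)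
    (fun x y => Algebra.commutes (R := k[X]) (A := B) ((RAM_of k M).symm x) (f y))

lemma RAM_H_tmul {B : Type} [Ring B] [Algebra k[X] B] (f : A →+* B)
    (hf : IsScale k M f) (r : k[X]) (a : A) :
    RAM_H M f hf (RAM_of k M r ⊗ₜ[k[X]] a) = (algebraMap k[X] B r * f a : B) :=
  Algebra.TensorProduct.lift_tmul _ _ _ _ _

/-- universal property -/
noncomputable def RAM_lift {B : Type} [Ring B] [Algebra k[X] B] (f : A →+* B)
    (hf : IsScale k M f) : RAM_A k M A →ₐ[k[X]] B :=
  { toRingHom := (RAM_H M f hf : RAM_R k M ⊗[k[X]] A →+* RAM_B k M B)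
    commutes' := fun r => by
      show RAM_H M f hf (RAM_of k M r ⊗ₜ[k[X]] (1 : A)) = algebraMap k[X] B r
      rw [RAM_H_tmul, map_one, mul_one] }

lemma RAM_lift_t {B : Type} [Ring B] [Algebra k[X] B] (f : A →+* B)
    (hf : IsScale k M f) (r : k[X]) (a : A) :
    RAM_lift M f hf (RAM_t M r a) = algebraMap k[X] B r * f a := RAM_H_tmul M f hf r a

lemma RAM_lift_ram {B : Type} [Ring B] [Algebra k[X] B] (f : A →+* B)
    (hf : IsScale k M f) (a : A) :
    RAM_lift M f hf (RAM_ram M a) = f a := by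
  rw [RAM_ram_apply, RAM_lift_t, map_one, one_mul]

lemma RAM_ev0_sig (hM : 0 < M) (r : k[X]) : ev0 k (sig k M r) = ev0 k r := by
  have h : ∀ p : k[X], ev0 k p = p.coeff 0 := fun p => by
    simp [ev0, Polynomial.constantCoeff_apply]
  rw [h, h, RAM_sig_apply, Polynomial.coeff_expand hM, if_pos (dvd_zero _), Nat.zero_div]

section res
variable {S : Type} [CommRing S] [Algebra k S] {π : A →+* S}

/-- the residue map -/
noncomputable def RAM_pi (hM : 0 < M) (hπ : IsQC k π) : RAM_A k M A →+* S :=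
  letI : Algebra k[X] S := ((algebraMap k S).comp (ev0 k)).toAlgebra
  ((RAM_lift M π (by
    intro r
    rw [hπ.algMap, ← RAM_ev0_sig M hM r]
    rfl) : RAM_A k M A →ₐ[k[X]] S) : RAM_A k M A →+* S)

lemma RAM_pi_t (hM : 0 < M) (hπ : IsQC k π) (r : k[X]) (a : A) :
    RAM_pi M hM hπ (RAM_t M r a) = algebraMap k S (ev0 k r) * π a := by
  let _ : Algebra k[X] S := ((algebraMap k S).comp (ev0 k)).toAlgebra
  exact RAM_lift_t M π _ r a

lemma RAM_pi_ram (hM : 0 < M) (hπ : IsQC k π) (a : A) :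
    RAM_pi M hM hπ (RAM_ram M a) = π a := by
  rw [RAM_ram_apply, RAM_pi_t, map_one, map_one, one_mul]

lemma RAM_pi_smul (hM : 0 < M) (hπ : IsQC k π) (r : k[X]) (x : RAM_A k M A) :
    RAM_pi M hM hπ (r • x) = algebraMap k S (ev0 k r) * RAM_pi M hM hπ x := by
  rw [Algebra.smul_def, map_mul, RAM_algebraMap, RAM_pi_t, map_one, mul_one]

lemma RAM_pi_X (hM : 0 < M) (hπ : IsQC k π) (x : RAM_A k M A) :
    RAM_pi M hM hπ (tX k • x) = 0 := by
  rw [RAM_pi_smul]
  simp [ev0]

lemma RAM_unique (hM : 0 < M) {c c' : Fin M → A}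
    (h : ∑ i : Fin M, (tX k) ^ (i : ℕ) • (RAM_ram M (c i) : RAM_A k M A) =
      ∑ i : Fin M, (tX k) ^ (i : ℕ) • RAM_ram M (c' i)) : c = c' := by
  obtain ⟨d, _, hd⟩ := RAM_exists_unique (k := k) M hM
    (∑ i : Fin M, (tX k) ^ (i : ℕ) • (RAM_ram M (c i) : RAM_A k M A))
  rw [hd c rfl, hd c' h]

lemma RAM_X_pow_sum (n : ℕ) (c : Fin M → A) :
    (tX k) ^ (M * n) • (∑ i : Fin M, (tX k) ^ (i : ℕ) • (RAM_ram M (c i) : RAM_A k M A)) =
      ∑ i : Fin M, (tX k) ^ (i : ℕ) • RAM_ram M ((tX k) ^ n • c i) := by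
  rw [Finset.smul_sum]
  refine Finset.sum_congr rfl fun i _ => ?_
  rw [RAM_ram_X_pow, smul_smul, smul_smul, mul_comm]

lemma RAM_reg (hM : 0 < M) (hπ : IsQC k π) (x : RAM_A k M A) (h : tX k • x = 0) : x = 0 := by
  obtain ⟨c, hc, _⟩ := RAM_exists_unique (k := k) M hM x
  have h1 : (tX k) ^ (M * 1) • x = 0 := by
    obtain ⟨m, rfl⟩ : ∃ m, M = m + 1 := ⟨M - 1, by omega⟩
    rw [mul_one, pow_succ, mul_smul, h, smul_zero]
  have hc' : x = ∑ i : Fin M, (tX k) ^ (i : ℕ) • RAM_ram M (c i) := hc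
  rw [hc', RAM_X_pow_sum] at h1
  have h2 : (fun i => (tX k) ^ 1 • c i) = fun _ => (0 : A) := by
    apply RAM_unique (k := k) M hM
    rw [h1]
    simp
  have h3 : ∀ i, c i = 0 := fun i => hπ.reg _ (by simpa using congrFun h2 i)
  rw [hc']
  simp [h3]

lemma RAM_isQC (hM : 0 < M) (hπ : IsQC k π) : IsQC k (RAM_pi M hM hπ) where
  reg := RAM_reg M hM hπ
  surj := fun s => by
    obtain ⟨a, ha⟩ := hπ.surj s
    exact ⟨RAM_ram M a, by rw [RAM_pi_ram, ha]⟩
  ker := fun x hx => by
    obtain ⟨c, hc, _⟩ := RAM_exists_unique (k := k) M hM x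
    have hc' : x = ∑ i : Fin M, (tX k) ^ (i : ℕ) • RAM_ram M (c i) := hc
    obtain ⟨m, rfl⟩ : ∃ m, M = m + 1 := ⟨M - 1, by omega⟩
    rw [Fin.sum_univ_succ] at hc'
    have h0 : π (c 0) = 0 := by
      have h1 := hx
      rw [hc', map_add, map_sum] at h1
      have h2 : ∀ i : Fin m, RAM_pi (m + 1) hM hπ ((tX k) ^ ((Fin.succ i : Fin (m + 1)) : ℕ) •
          RAM_ram (m + 1) (c i.succ)) = 0 := by
        intro i
        rw [Fin.val_succ, pow_succ', mul_smul, RAM_pi_X]
      rw [Finset.sum_eq_zero (fun i _ => h2 i), add_zero, Fin.val_zero, pow_zero, one_smul,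
        RAM_pi_ram] at h1
      exact h1
    obtain ⟨b, hb⟩ := hπ.ker _ h0
    refine ⟨(tX k) ^ m • RAM_ram (m + 1) b +
      ∑ i : Fin m, (tX k) ^ (i : ℕ) • RAM_ram (m + 1) (c i.succ), ?_⟩
    rw [hc', smul_add, smul_smul, ← pow_succ', Fin.val_zero, pow_zero, one_smul, hb,
      Finset.smul_sum]
    congr 1
    · have := RAM_ram_X_pow (k := k) (m + 1) 1 b
      rw [pow_one, mul_one] at this
      exact this
    · refine Finset.sum_congr rfl fun i _ => ?_
      rw [smul_smul, ← pow_succ', Fin.val_succ]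
  kerX := RAM_pi_X M hM hπ
  scal := fun c => by
    rw [RAM_algebraMap, RAM_pi_t, map_one, mul_one]
    simp [ev0]

lemma RAM_gap (hπ : IsQC k π) : Gap k M (RAM_A k M A) := by
  have h1 : ∀ (r s : k[X]) (a b : A), ∃ c : RAM_A k M A,
      RAM_t M r a * RAM_t M s b - RAM_t M s b * RAM_t M r a = (tX k) ^ M • c := by
    intro r s a b
    have hab : π (a * b - b * a) = 0 := by
      rw [map_sub, map_mul, map_mul, mul_comm, sub_self]
    obtain ⟨c, hc⟩ := hπ.ker _ hab
    refine ⟨RAM_t M (r * s) c, ?_⟩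
    have h2 : (RAM_ram M (a * b) : RAM_A k M A) - RAM_ram M (b * a) =
        (tX k) ^ M • RAM_ram M c := by
      rw [← map_sub, hc]
      have := RAM_ram_X_pow (k := k) M 1 c
      rw [pow_one, mul_one] at this
      exact this
    rw [RAM_t_mul, RAM_t_mul, mul_comm s r, RAM_t_eq, RAM_t_eq M (r * s) (b * a), ← smul_sub, h2,
      RAM_t_eq, smul_smul, smul_smul, mul_comm]
  intro x y
  refine RAM_ind M (P := fun x => ∃ c : RAM_A k M A, x * y - y * x = (tX k) ^ M • c) x
    ⟨0, by simp⟩ ?_ ?_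
  · intro r a
    refine RAM_ind M (P := fun y => ∃ c : RAM_A k M A, RAM_t M r a * y - y * RAM_t M r a =
      (tX k) ^ M • c) y ⟨0, by simp⟩ ?_ ?_
    · intro s b
      exact h1 r s a b
    · rintro y z ⟨c, hc⟩ ⟨c', hc'⟩
      refine ⟨c + c', ?_⟩
      rw [smul_add, ← hc, ← hc', mul_add, add_mul]
      abel
  · rintro x z ⟨c, hc⟩ ⟨c', hc'⟩
    refine ⟨c + c', ?_⟩
    rw [smul_add, ← hc, ← hc', mul_add, add_mul]
    abel

lemma RAM_isComp (hM : 0 < M) (hc : IsComp k A) : IsComp k (RAM_A k M A) where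
  sep := fun m hm => by
    obtain ⟨c, hcm, _⟩ := RAM_exists_unique (k := k) M hM m
    have hcm' : m = ∑ i : Fin M, (tX k) ^ (i : ℕ) • RAM_ram M (c i) := hcm
    have h0 : ∀ i, c i = 0 := by
      intro i
      apply hc.sep
      intro n
      obtain ⟨b, hb⟩ := hm (M * n)
      obtain ⟨c', hc', _⟩ := RAM_exists_unique (k := k) M hM b
      have hc'' : b = ∑ i : Fin M, (tX k) ^ (i : ℕ) • RAM_ram M (c' i) := hc'
      rw [hc'', RAM_X_pow_sum, hcm'] at hb
      have := RAM_unique (k := k) M hM hb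
      exact ⟨c' i, congrFun this i⟩
    rw [hcm']
    simp [h0]
  lim := fun u => by
    have h1 : ∀ q : ℕ, ∃ c : Fin M → A,
        ∑ s ∈ Finset.range M, (tX k) ^ s • u (M * q + s) =
          ∑ i : Fin M, (tX k) ^ (i : ℕ) • RAM_ram M (c i) := fun q =>
      (RAM_exists_unique (k := k) M hM _).exists
    choose c hcq using h1
    have h2 : ∀ i : Fin M, ∃ m : A, ∀ n : ℕ, ∃ b : A,
        m = ∑ q ∈ Finset.range n, (tX k) ^ q • c q i + (tX k) ^ n • b := fun i =>
      hc.lim (fun q => c q i)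
    choose m hm using h2
    choose b hb using hm
    have h3 : ∀ n : ℕ, (∑ i : Fin M, (tX k) ^ (i : ℕ) • RAM_ram M (m i) : RAM_A k M A) =
        ∑ q ∈ Finset.range (M * n), (tX k) ^ q • u q +
          (tX k) ^ (M * n) • (∑ i : Fin M, (tX k) ^ (i : ℕ) • RAM_ram M (b i n)) := by
      intro n
      have h4 : ∀ n, ∑ q ∈ Finset.range (M * n), (tX k) ^ q • u q =
          ∑ q ∈ Finset.range n, (tX k) ^ (M * q) •
            (∑ i : Fin M, (tX k) ^ (i : ℕ) • (RAM_ram M (c q i) : RAM_A k M A)) := by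
        intro n
        induction n with
        | zero => simp
        | succ n ih =>
          rw [Finset.sum_range_succ, ← ih, ← hcq, Nat.mul_succ, Finset.sum_range_add]
          congr 1
          rw [Finset.smul_sum]
          refine Finset.sum_congr rfl fun s _ => ?_
          rw [smul_smul, pow_add]
      rw [h4]
      simp only [RAM_X_pow_sum]
      rw [Finset.sum_comm, ← Finset.sum_add_distrib]
      refine Finset.sum_congr rfl fun i _ => ?_
      rw [← Finset.smul_sum, ← smul_add, ← map_sum, ← map_add]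
      conv_lhs => rw [hb i n]
    refine ⟨∑ i : Fin M, (tX k) ^ (i : ℕ) • RAM_ram M (m i), fun n => ?_⟩
    obtain ⟨l, hl⟩ : ∃ l, M * n = n + l := ⟨M * n - n, by
      have : n ≤ M * n := Nat.le_mul_of_pos_left n hM
      omega⟩
    refine ⟨∑ q ∈ Finset.range l, (tX k) ^ q • u (n + q) + (tX k) ^ l •
      (∑ i : Fin M, (tX k) ^ (i : ℕ) • RAM_ram M (b i n)), ?_⟩
    have h5 : ∑ s ∈ Finset.range l, (tX k) ^ (n + s) • u (n + s) =
        (tX k) ^ n • ∑ s ∈ Finset.range l, (tX k) ^ s • u (n + s) := by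
      rw [Finset.smul_sum]
      refine Finset.sum_congr rfl fun s _ => ?_
      rw [smul_smul, ← pow_add]
    rw [h3 n, hl, Finset.sum_range_add, smul_add, smul_smul, ← pow_add, h5, add_assoc]

end res

end

variable {A : Type} [Ring A] [Algebra k[X] A] {S : Type} [CommRing S] [Algebra k S] {π : A →+* S}

/-- RAM(A,M) -/
theorem exists_ram (M : ℕ) (hM : 0 < M) (hπ : IsQC k π) :
    ∃ (A' : Type) (_ : Ring A') (_ : Algebra k[X] A') (π' : A' →+* S) (ram : A →+* A'),
      IsQC k π' ∧ IsScale k M ram ∧ (∀ a, π' (ram a) = π a) ∧ Gap k M A' ∧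
      (IsComp k A → IsComp k A') ∧
      (∀ a' : A', ∃! c : Fin M → A, a' = ∑ i : Fin M, (tX k) ^ (i : ℕ) • ram (c i)) ∧
      (∀ (B : Type) [Ring B] [Algebra k[X] B] (f : A →+* B), IsScale k M f →
        ∃ f' : A' →ₐ[k[X]] B, ∀ a, f' (ram a) = f a) :=
  ⟨RAM_A k M A, inferInstance, inferInstance, RAM_pi M hM hπ, RAM_ram M, RAM_isQC M hM hπ,
    RAM_isScale M, RAM_pi_ram M hM hπ, RAM_gap M hπ, RAM_isComp M hM,
    RAM_exists_unique M hM, fun _ _ _ f hf => ⟨RAM_lift M f hf, RAM_lift_ram M f hf⟩⟩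

end C74
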