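import Pool.Agent.MP_35f30a_al.C74.PSF1
import Pool.Agent.MP_35f30a_al.C74.PSF2
import Pool.Agent.MP_35f30a_al.C74.RAM
import Pool.Agent.MP_35f30a_al.C74.BL1
import Pool.Agent.MP_35f30a_al.C74.LOC3

/-!
ROW PST.  PSTEP and FRAC.  Blueprint section 5.

PSTEP: `Q2 := RAM(Q, 2)` (gap 2, residue ring `S' = MvPolynomial Λ Γ`), `p ∈ Q2` a lift of `P`, `BL1`: residue ring
`Polynomial (S' ⧸ (P))`, a domain; then `exists_loc` at all nonzero elements (`nonZeroDivisors`), `T := FractionRing ..`.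
`χ := ` composite (scale `2`), `π' (χ q) = algebraMap (C [πQ q])`, which is `0` iff `P ∣ πQ q`.  `i := algebraMap Γ K'`.
`SG`: `SG_primeQuot`.  `SpecX`: `specX_of_points`, `points_linear` (`Γ ⊇ k` is infinite).
FRAC: `RAM(Q, M')`, then `exists_loc` at all nonzero elements with `T := FractionRing (MvPolynomial Λ Γ)`; `SG_mvPoly`,
`points_mvPoly`.
-/

set_option autoImplicit false

open scoped TensorProduct Polynomial

namespace C74

variable {k : Type} [Field k] [IsAlgClosed k]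
variable {Γ : Type} [Field Γ] [Algebra k Γ] {Λ : Type} {Q : Type} [Ring Q] [Algebra k[X] Q]
  {πQ : Q →+* MvPolynomial Λ Γ}

lemma PST_infinite (k : Type) [Field k] [IsAlgClosed k] (Γ : Type) [Field Γ] [Algebra k Γ] : Infinite Γ :=
  Infinite.of_injective (algebraMap k Γ) (algebraMap k Γ).injective

/-- PSTEP(Q,P) -/
theorem exists_pstep (hπ : IsQC k πQ) (hc : IsComp k Q) (hsg : SG k Γ) (P : MvPolynomial Λ Γ)
    (hP : Prime P) :
    ∃ (A' : Type) (_ : Ring A') (_ : Algebra k[X] A') (K' : Type) (_ : Field K')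
      (_ : Algebra k K') (π' : A' →+* K') (χ : Q →+* A') (i : Γ →+* K'),
      IsQC k π' ∧ IsComp k A' ∧ SG k K' ∧ IsScale k 2 χ ∧
      (∀ q, π' (χ q) = 0 ↔ P ∣ πQ q) ∧
      (∀ q γ, πQ q = MvPolynomial.C γ → π' (χ q) = i γ) ∧
      (P.totalDegree = 1 → SpecX i) := by
  have : Infinite Γ := PST_infinite k Γ
  obtain ⟨A1, _, _, π1, ram, hπ1, hram, hπram, hgap, hcomp, -, -⟩ := exists_ram 2 (by norm_num) hπ
  obtain ⟨p, hp⟩ := hπ1.surj P
  subst hp
  obtain ⟨A2, _, _, π2, c2, y, emb, hπ2, hπc2, -, -, -, -, -⟩ := exists_bl1 hπ1 hgap p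
    (mem_nonZeroDivisors_of_ne_zero hP.ne_zero)
  have hprime : (Ideal.span {π1 p} : Ideal (MvPolynomial Λ Γ)).IsPrime :=
    (Ideal.span_singleton_prime hP.ne_zero).2 hP
  obtain ⟨A3, _, _, π3, c3, hπ3, hcomp3, hπc3, -⟩ := exists_loc hπ2
    (nonZeroDivisors (Polynomial (MvPolynomial Λ Γ ⧸ (Ideal.span {π1 p} : Ideal (MvPolynomial Λ Γ)))))
    (zero_notMem_nonZeroDivisors)
    (FractionRing (Polynomial (MvPolynomial Λ Γ ⧸ (Ideal.span {π1 p} : Ideal (MvPolynomial Λ Γ)))))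
  refine ⟨A3, inferInstance, inferInstance,
    FractionRing (Polynomial (MvPolynomial Λ Γ ⧸ (Ideal.span {π1 p} : Ideal (MvPolynomial Λ Γ)))),
    inferInstance, inferInstance, π3,
    (c3 : A2 →+* A3).comp ((c2 : A1 →+* A2).comp ram),
    algebraMap Γ _, hπ3, hcomp3, SG_primeQuot hsg _ hP, ?_, ?_, ?_, ?_⟩
  · intro r
    change c3 (c2 (ram (algebraMap k[X] Q r))) = _
    rw [hram, AlgHom.commutes, AlgHom.commutes]
  · intro q
    change π3 (c3 (c2 (ram q))) = 0 ↔ _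
    rw [hπc3, hπc2, hπram, map_eq_zero_iff _ (IsFractionRing.injective
      (Polynomial (MvPolynomial Λ Γ ⧸ (Ideal.span {π1 p} : Ideal (MvPolynomial Λ Γ))))
      (FractionRing (Polynomial (MvPolynomial Λ Γ ⧸ (Ideal.span {π1 p} : Ideal (MvPolynomial Λ Γ)))))),
      Polynomial.C_eq_zero,
      Ideal.Quotient.eq_zero_iff_mem, Ideal.mem_span_singleton]
  · intro q γ hq
    change π3 (c3 (c2 (ram q))) = _
    rw [hπc3, hπc2, hπram, hq, IsScalarTower.algebraMap_apply Γ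
      (Polynomial (MvPolynomial Λ Γ ⧸ (Ideal.span {π1 p} : Ideal (MvPolynomial Λ Γ))))]
    rfl
  · intro hdeg
    exact specX_of_points fun D hD => points_linear _ hdeg D hD

/-- FRAC(Q,M') -/
theorem exists_frac (hπ : IsQC k πQ) (hc : IsComp k Q) (hsg : SG k Γ) (M' : ℕ) (hM' : 0 < M') :
    ∃ (A' : Type) (_ : Ring A') (_ : Algebra k[X] A') (K' : Type) (_ : Field K')
      (_ : Algebra k K') (π' : A' →+* K') (χ : Q →+* A') (i : MvPolynomial Λ Γ →+* K'),
      IsQC k π' ∧ IsComp k A' ∧ SG k K' ∧ IsScale k M' χ ∧ Function.Injective i ∧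
      (∀ q, π' (χ q) = i (πQ q)) ∧ SpecX (i.comp MvPolynomial.C) := by
  have : Infinite Γ := PST_infinite k Γ
  obtain ⟨A1, _, _, π1, ram, hπ1, hram, hπram, hgap, hcomp, -, -⟩ := exists_ram M' hM' hπ
  obtain ⟨A3, _, _, π3, c3, hπ3, hcomp3, hπc3, -⟩ := exists_loc hπ1
    (nonZeroDivisors (MvPolynomial Λ Γ)) (zero_notMem_nonZeroDivisors)
    (FractionRing (MvPolynomial Λ Γ))
  refine ⟨A3, inferInstance, inferInstance, FractionRing (MvPolynomial Λ Γ),
    inferInstance, inferInstance, π3, (c3 : A1 →+* A3).comp ram,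
    algebraMap (MvPolynomial Λ Γ) (FractionRing (MvPolynomial Λ Γ)), hπ3, hcomp3, SG_mvPoly (K := Γ) (Λ := Λ) hsg, ?_, IsFractionRing.injective _ _, ?_, ?_⟩
  · intro r
    change c3 (ram (algebraMap k[X] Q r)) = _
    rw [hram, AlgHom.commutes]
  · intro q
    change π3 (c3 (ram q)) = _
    rw [hπc3, hπram]
  · exact specX_of_points fun D hD => points_mvPoly D hD

end C74
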