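import Pool.Agent.MP_35f30a_al.C74.SQ1
import Pool.Agent.MP_35f30a_al.C74.ND3
import Pool.Agent.MP_35f30a_al.C74.FRE6
import Pool.Agent.MP_35f30a_al.C74.MAPX

/-!
ROW SQ2.  SOLVE at the level of QC rings.  Blueprint section 5.

`exists_ndr`; `jT T = X^N • B'` with `πP B' ≠ 0` (by `h2`); `x0 := ram x`; `exists_solN`, `exists_free`.
`f := cO ∘ ram`, `w0 := cN (q (0,1))`.  `ev w0 (mapX f T) = cN (q (0, jT T)) = X^N • cN (q (0, B'))`, and
`q (0, B') = q (x0, 0)` (take `C = 1`), `q (x0, 0) = h.L x0 h.e`, `cN (h.L x0 h.e) = cO x0 = f x`.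
-/

set_option autoImplicit false

open scoped TensorProduct Polynomial
open MulOpposite (op)

namespace C74

variable {k : Type} [Field k] [IsAlgClosed k]
variable {A : Type} [Ring A] [Algebra k[X] A] {Γ : Type} [Field Γ] [Algebra k Γ] {π : A →+* Γ}

/-- SOLVE at the level of QC rings -/
theorem exists_solveQ (hπ : IsQC k π) (hc : IsComp k A) (hsg : SG k Γ) (M : ℕ) (hM : 4 ≤ M)
    (N : ℕ) (hN : N < M) (T : TP k[X] A 1) (h1 : resT hπ 1 T ∈ Dm k Γ N 0)
    (h2 : resT hπ 1 T ∉ Dm k Γ (N + 1) 0) (x : A) :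
    ∃ (Λ : Type) (Q : Type) (_ : Ring Q) (_ : Algebra k[X] Q) (πQ : Q →+* MvPolynomial Λ Γ)
      (f : A →+* Q) (hf : IsScale k M f) (w0 : Q),
      IsQC k πQ ∧ IsComp k Q ∧ (∀ a, πQ (f a) = MvPolynomial.C (π a)) ∧
      TP.ev w0 (mapX f hf 1 T) = (tX k) ^ N • f x := by
  obtain ⟨B, hB, hB'⟩ := hsg
  obtain ⟨O, _, _, πO, ram, P, _, _, πP, l, r, jT, act, hO, hcO, hram, hπram, hP, hcP, hlr, hl, hr,
    hjT, hord, hal, har, hact⟩ := exists_ndr hπ hc M hM B hB hB'
  obtain ⟨u, hu, _, hu0⟩ := hord N hN T h1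
  have hune : πP u ≠ 0 := fun h => h2 (hu0.1 h)
  obtain ⟨N', _, _, Λ0, h, q, hqL, hqR, he, hrel⟩ :=
    exists_solN hO hcO hP hcP l r hlr hl hr act hal har hact u hune (ram x)
  obtain ⟨Λ, j, Q, _, _, πQ, cO, cN, _, hQ, hcQ, hcOπ, hcL, hcR, hce, _, _⟩ :=
    exists_free hO hcO N' Λ0 h
  have hf : IsScale k M ((cO : O →+* Q).comp ram) := by
    intro p
    have h3 : ((cO : O →+* Q).comp ram) (algebraMap k[X] A p) = cO (ram (algebraMap k[X] A p)) := rfl
    rw [h3, hram, AlgHom.commutes]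
  refine ⟨Λ, Q, _, _, πQ, (cO : O →+* Q).comp ram, hf, cN (q (0, 1)), hQ, hcQ, ?_, ?_⟩
  · intro a
    have h3 : ((cO : O →+* Q).comp ram) a = cO (ram a) := rfl
    rw [h3, hcOπ, hπram]
  · -- the value at `w0`
    have hval : ∀ T : TP k[X] A 1,
        TP.ev (cN (q (0, 1))) (mapX ((cO : O →+* Q).comp ram) hf 1 T) = cN (q (0, jT T)) := by
      intro T
      induction T using TP.succ_induction with
      | h0 =>
        rw [map_zero, map_zero, Prod.mk_zero_zero, map_zero, map_zero]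
        simp [TP.ev]
      | ha T T' hT hT' =>
        have h3 : ((0 : O), jT (T + T')) = ((0 : O), jT T) + ((0 : O), jT T') := by
          rw [map_add]; simp
        rw [map_add, h3, map_add, map_add, ← hT, ← hT']
        simp [TP.ev]
      | hc a t =>
        obtain ⟨b, hb⟩ : ∃ b : A, t = TP.ofA b := ⟨TP.toA t, (TP.ofA_toA t).symm⟩
        rw [hb, hjT]
        have h3 : mapX ((cO : O →+* Q).comp ram) hf 1 (TP.cons a (TP.ofA b)) =
            TP.cons (cO (ram a)) (TP.ofA (cO (ram b))) :=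
          TP.map_cons (sig k M) ((cO : O →+* Q).comp ram) hf 0 a (TP.ofA b)
        rw [h3, TP.ev, TP.con_succ_zero, TP.con_zero_zero, TP.toA_smul, TP.toA_ofA,
          ← hcL, ← hcR, ← hqL, ← hqR]
        congr 3
        · simp
        · simp [hlr]
    rw [hval, hu]
    have h4 : ((0 : O), (tX k) ^ N • u) = (tX k) ^ N • ((0 : O), u) := by
      simp
    rw [h4, map_smul, map_smul]
    congr 1
    have h5 := hrel 1
    have h6 : q (ram x, -u) = 0 := by
      have : act 1 (ram x) = ram x := by rw [map_one]; rfl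
      rw [this, one_mul] at h5
      exact h5
    have h7 : q (0, u) = q (ram x, 0) := by
      have h8 : (ram x, -u) = (ram x, (0 : P)) - ((0 : O), u) := by simp
      rw [h8, map_sub, sub_eq_zero] at h6
      exact h6.symm
    have h9 : q (ram x, 0) = h.L (ram x) h.e := by
      have := hqL (ram x) (1, 0)
      rw [he, ← this]
      simp
    rw [h7, h9, hcL, hce, mul_one]
    rfl

end C74
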