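import Pool.Agent.MP_35f30a_al.C74.NL1
import Pool.Agent.MP_35f30a_al.C74.NL2
import Pool.Agent.MP_35f30a_al.C74.SQ2
import Pool.Agent.MP_35f30a_al.C74.PST
import Pool.Agent.MP_35f30a_al.C74.MK4
import Pool.Agent.MP_35f30a_al.C74.SZ2

/-!
ROW SV.  SOLVE (blueprint 2.3, 5).

`A := X.dd.A1`.  `T1` has a decorated residue `s` at level `nT`, `s ∈ Dm N 0`, `s ∉ Dm (N+1) 0` (`JJ_one`):
`kX (algT dec T1) = tz (-nT) • ιT T'`, `resT T' = s`.  `dec x = tz (-m) * ι x1` (`dec_lev`).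
Choose `M` with `M ≥ 4`, `M > N`, `N/(L M) ≤ δ`.  `exists_solveQ` for `T'` and `- x1`: `Q, f, w0`,
`ev w0 (mapX f T') = X^N • f (- x1)`.  `exists_frac` with `M' = 1`: `χ : Q → A'`; `mkExt` with `χ.comp f` (scale `M * 1`),
`i := i0 ∘ C`; good by `mkExt_good` (`SpecX`).
`sv := M (m - nT) + N`, `v := tz (-sv) * ι (χ w0)`.  `T1` transported is `tz (-(M nT)) • ιT (mapX (χ f) T')` (`gQ_eq`, `kX_mkExt`);
`ev v (..) = tz (-(M nT) - sv) * ι (χ (ev w0 (mapX f T'))) = tz (-(M nT) - sv + N) * ι (χ (f (-x1))) = - tz (-(M m)) * ι (χ (f x1))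
= - φ x` (`con_tz`; on `D = Fr A'` itself `kX k A' 0` is the identity, and `kX` commutes with `ev`).
`v ∈ lev sv`, `sv/(L M) = (m - nT)/L + N/(L M)`.
-/

set_option autoImplicit false

open scoped TensorProduct Polynomial

namespace C74

variable {k : Type} [Field k]

/-- the image of a `k`-tensor with a given representation under `Fr.map g ∘ dec` -/
theorem SV_kX (X : Obj k) {A' : Type} [Ring A'] [Algebra k[X] A'] {M : ℕ} (g : X.dd.A1 →+* A')
    (hg : IsScale k M g) {j : ℕ} (T : TP k X.D j) (n : ℤ) (T' : TP k[X] X.dd.A1 j)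
    (h : kX k X.dd.A1 j (algT X.dd.dec j T) = (Fr.tz (-n) : Fr k X.dd.A1) • ιT k X.dd.A1 j T') :
    kX k A' j (algT ((Fr.mapk g hg).comp X.dd.dec) j T) =
      (Fr.tz (-((M : ℤ) * n)) : Fr k A') • ιT k A' j (mapX g hg j T') := by
  have hm : ∀ r, Fr.map g hg (algebraMap k[X] (Fr k X.dd.A1) r) =
      algebraMap k[X] (Fr k A') (sig k M r) := fun r => Fr.map_algebraMap g hg r
  have e1 : kX k A' j (algT ((Fr.mapk g hg).comp X.dd.dec) j T) =
      TP.map (sig k M) (Fr.map g hg) hm j (kX k X.dd.A1 j (algT X.dd.dec j T)) := by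
    have hc1 : ∀ r : k, (((RingHom.id (Fr k A')).comp
        (((Fr.mapk g hg).comp X.dd.dec : X.D →ₐ[k] Fr k A') : X.D →+* Fr k A')))
        (algebraMap k X.D r) = algebraMap k[X] (Fr k A')
          (((Polynomial.C : k →+* k[X]).comp (RingHom.id k)) r) := by
      intro r
      exact ((Fr.mapk g hg).comp X.dd.dec).commutes r
    have hc2 : ∀ r : k, (((RingHom.id (Fr k X.dd.A1)).comp (X.dd.dec : X.D →+* Fr k X.dd.A1)))
        (algebraMap k X.D r) = algebraMap k[X] (Fr k X.dd.A1)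
          (((Polynomial.C : k →+* k[X]).comp (RingHom.id k)) r) := by
      intro r
      exact X.dd.dec.commutes r
    have hc3 : ∀ r : k, ((Fr.map g hg).comp ((RingHom.id (Fr k X.dd.A1)).comp
        (X.dd.dec : X.D →+* Fr k X.dd.A1))) (algebraMap k X.D r) = algebraMap k[X] (Fr k A')
          (((sig k M).comp ((Polynomial.C : k →+* k[X]).comp (RingHom.id k))) r) := by
      intro r
      rw [RingHom.comp_apply, hc2, hm]
      rfl
    have s1 : kX k A' j (algT ((Fr.mapk g hg).comp X.dd.dec) j T) = TP.map _ _ hc1 j T :=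
      TP.map_map _ _ _ _ _ _ hc1 j T
    have s2 : kX k X.dd.A1 j (algT X.dd.dec j T) = TP.map _ _ hc2 j T :=
      TP.map_map _ _ _ _ _ _ hc2 j T
    have s3 : TP.map (sig k M) (Fr.map g hg) hm j (TP.map _ _ hc2 j T) = TP.map _ _ hc3 j T :=
      TP.map_map _ _ _ _ _ _ hc3 j T
    rw [s1, s2, s3]
    exact TP.map_congr _ _ _ _ _ _ (fun r => (Fr.sig_C M r).symm) (fun a => rfl) j T
  rw [e1, h, TP.map_smulA, map_tz]
  have e2 : TP.map (sig k M) (Fr.map g hg) hm j (ιT k X.dd.A1 j T') =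
      ιT k A' j (mapX g hg j T') := by
    have hc1 : ∀ r : k[X], ((Fr.map g hg).comp ((Fr.ι : X.dd.A1 →ₐ[k[X]] Fr k X.dd.A1) :
        X.dd.A1 →+* Fr k X.dd.A1)) (algebraMap k[X] X.dd.A1 r) =
        algebraMap k[X] (Fr k A') (((sig k M).comp (RingHom.id k[X])) r) := by
      intro r
      change Fr.map g hg (Fr.ι (algebraMap k[X] X.dd.A1 r)) = _
      rw [AlgHom.commutes, hm]
      rfl
    have hc2 : ∀ r : k[X], (((Fr.ι : A' →ₐ[k[X]] Fr k A') : A' →+* Fr k A').comp g)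
        (algebraMap k[X] X.dd.A1 r) =
        algebraMap k[X] (Fr k A') (((RingHom.id k[X]).comp (sig k M)) r) := by
      intro r
      change Fr.ι (g (algebraMap k[X] X.dd.A1 r)) = _
      rw [hg, AlgHom.commutes]
      rfl
    have s1 : TP.map (sig k M) (Fr.map g hg) hm j (ιT k X.dd.A1 j T') = TP.map _ _ hc1 j T' :=
      TP.map_map _ _ _ _ _ _ hc1 j T'
    have s2 : ιT k A' j (mapX g hg j T') = TP.map _ _ hc2 j T' :=
      TP.map_map _ _ _ _ _ _ hc2 j T'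
    rw [s1, s2]
    exact TP.map_congr _ _ _ _ _ _ (fun r => rfl) (fun a => Fr.map_ι g hg a) j T'
  rw [e2, mul_neg]

theorem SV_ev {A' : Type} [Ring A'] [Algebra k[X] A'] (v : Fr k A') (W : TP k (Fr k A') 1) :
    TP.ev v W = TP.ev v (kX k A' 1 W) :=
  TP.map_ev (R := k) (A := Fr k A') (R' := k[X]) (A' := Fr k A') (Polynomial.C : k →+* k[X])
    (RingHom.id (Fr k A')) (fun _ => rfl) v 1 W

/-- SOLVE (blueprint 2.3) -/
theorem solve [IsAlgClosed k] {X : Obj k} {T1 : TP k X.D 1} {nT : ℤ} {N : ℕ}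
    (hT1 : OJx X nT N T1) {m : ℤ} {x : X.D} (hx : x ∈ Fr.lev k X.A m) {δ : ℚ} (hδ : 0 < δ) :
    ∃ (X' : Obj k) (f : Ext X X') (v : X'.D), f.Good ∧
      v ∈ X'.F (((m : ℚ) - nT) / X.L + δ) ∧ TP.ev v (f.T 1 T1) = - f.φ x := by
  obtain ⟨⟨hkF, s, hs, hsJ⟩, hnot⟩ := hT1
  have hs1 : s ∈ Dm k X.Γ N 0 := by rwa [JJ_one] at hsJ
  have hs2 : s ∉ Dm k X.Γ (N + 1) 0 := by
    intro h
    exact hnot ⟨hkF, s, hs, by rwa [JJ_one]⟩
  obtain ⟨T', hT', hres⟩ := hs
  obtain ⟨x1, hx1⟩ := (dec_lev x m).mpr hx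
  have hL : (0 : ℚ) < X.L := by exact_mod_cast X.Lpos
  obtain ⟨M0, hM0⟩ := exists_nat_gt ((N : ℚ) / (X.L * δ))
  let M : ℕ := M0 + N + 4
  have hM4 : 4 ≤ M := by omega
  have hNM : N < M := by omega
  have hMpos : 0 < M := by omega
  have hMδ : (N : ℚ) ≤ X.L * M * δ := by
    have h1 : (N : ℚ) < M0 * (X.L * δ) := by
      rwa [div_lt_iff₀ (by positivity)] at hM0
    have h2 : (M0 : ℚ) ≤ M := by
      have : M0 ≤ M := by omega
      exact_mod_cast this
    have h3 : (M0 : ℚ) * (X.L * δ) ≤ M * (X.L * δ) := by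
      apply mul_le_mul_of_nonneg_right h2; positivity
    linarith
  obtain ⟨Λ, Q, _, _, πQ, f0, hf0, w0, hQ, hcQ, hfr, hev⟩ :=
    exists_solveQ X.dd.qc1 X.dd.comp1 (SG_laurent X) M hM4 N hNM T' (by rwa [hres])
      (by rwa [hres]) (-x1)
  obtain ⟨A', _, _, K', _, _, π', χ, i0, hA', hcA', hsg', hχ, hinj, hπχ, hspec⟩ :=
    exists_frac hQ hcQ (SG_laurent X) 1 one_pos
  let g : X.dd.A1 →+* A' := χ.comp f0
  have hg : IsScale k M g := by
    have := isScale_comp hf0 hχ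
    rwa [mul_one] at this
  let i : X.Γ →+* K' := i0.comp MvPolynomial.C
  have hi : ∀ a, π' (g a) = i (X.dd.π1 a) := by
    intro a
    change π' (χ (f0 a)) = i0 (MvPolynomial.C (X.dd.π1 a))
    rw [hπχ, hfr]
  let sv : ℤ := M * (m - nT) + N
  let v : Fr k A' := Fr.tz (-sv) * Fr.ι (χ w0)
  refine ⟨mkObj X hA' hcA' hsg' M hMpos, mkExt X hA' hcA' hsg' M hMpos g hg i hi, v,
    mkExt_good X hA' hcA' hsg' M hMpos g hg i hi hspec, ?_, ?_⟩
  · have h1 : v ∈ Fr.lev k A' sv := ⟨χ w0, rfl⟩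
    refine lev_mono ?_ h1
    rw [Int.le_floor]
    change ((M * (m - nT) + N : ℤ) : ℚ) ≤ ((X.L * M : ℕ) : ℚ) * (((m : ℚ) - nT) / X.L + δ)
    have h2 : ((X.L * M : ℕ) : ℚ) * (((m : ℚ) - nT) / X.L + δ) =
        M * ((m : ℚ) - nT) + X.L * M * δ := by
      push_cast
      field_simp
    rw [h2]
    push_cast
    linarith
  · have hW := SV_kX X g hg T1 nT T' hT'
    have h2 : ∀ (a : Fr k A') (Y : TP k[X] (Fr k A') 1), TP.ev v (a • Y) = a * TP.ev v Y := by
      intro a Y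
      unfold TP.ev
      rw [TP.con_smul, TP.toA_smul]
    have h3 : ∀ Y : TP k[X] A' 1, TP.ev v (ιT k A' 1 Y) = Fr.tz (-sv) * Fr.ι (TP.ev (χ w0) Y) := by
      intro Y
      have e := TP.map_ev (RingHom.id k[X]) ((Fr.ι : A' →ₐ[k[X]] Fr k A') : A' →+* Fr k A')
        (fun r => (Fr.ι : A' →ₐ[k[X]] Fr k A').commutes r) (χ w0) 1 Y
      have e' : (Fr.ι (TP.ev (χ w0) Y) : Fr k A') = TP.ev (Fr.ι (χ w0)) (ιT k A' 1 Y) := e
      rw [e']
      unfold TP.ev
      rw [con_tz _ _ _ _ (by omega), TP.toA_smul]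
      simp
    have h4 : TP.ev (χ w0) (mapX g hg 1 T') = (tX k) ^ N • g (-x1) := by
      have e1 : mapX g hg 1 T' = mapX χ hχ 1 (mapX f0 hf0 1 T') := by
        have hc1 : ∀ r : k[X], (χ.comp f0) (algebraMap k[X] X.dd.A1 r) =
            algebraMap k[X] A' (((sig k 1).comp (sig k M)) r) := by
          intro r
          rw [RingHom.comp_apply, hf0, hχ]
          rfl
        have s1 : mapX χ hχ 1 (mapX f0 hf0 1 T') = TP.map _ _ hc1 1 T' :=
          TP.map_map _ _ _ _ _ _ hc1 1 T'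
        rw [s1]
        exact TP.map_congr _ _ _ _ _ _ (fun r => (Polynomial.expand_one _).symm) (fun a => rfl) 1 T'
      have e2 := TP.map_ev (sig k 1) χ hχ w0 1 (mapX f0 hf0 1 T')
      rw [e1]
      refine e2.symm.trans ?_
      rw [hev, Algebra.smul_def, map_mul, hχ, Algebra.smul_def]
      congr 2
      simp [sig]
    have h5 : (mkExt X hA' hcA' hsg' M hMpos g hg i hi).φ x =
        (Fr.tz (-((M : ℤ) * m)) * Fr.ι (g x1) : Fr k A') := by
      change Fr.mapk g hg (X.dd.dec x) = _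
      rw [hx1, map_mul, Fr.mapk_ι]
      congr 1
      have := map_tz g hg (-m)
      rw [mul_neg] at this
      exact this
    refine (SV_ev (A' := A') v (algT ((Fr.mapk g hg).comp X.dd.dec) 1 T1)).trans ?_
    refine Eq.trans ?_ (congrArg (fun z : Fr k A' => -z) h5.symm)
    rw [hW, h2, h3, h4, Algebra.smul_def, map_mul, AlgHom.commutes, ← Fr.tz_nat, map_neg,
      map_neg, mul_neg, mul_neg, mul_neg, ← mul_assoc, ← mul_assoc, ← Fr.tz_add, ← Fr.tz_add]
    congr 3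
    simp only [sv]
    ring

end C74
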