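import Pool.Agent.MP_35f30a_al.C74.MC1
import Pool.Agent.MP_35f30a_al.C74.SV

/-!
ROW MC3.  SOLVE steps.  Blueprint 2.4.

`solveStep`: `s.H z = φ β + x`, `x ∈ F m`, i.e. `x ∈ lev m'` with `m' = ⌊X'.L m⌋`.  `solve` for `s.f.T 1 c.T1` (exact order `N` at level
`nT = M (ne - v)`, `CSt.orders`; `nT / X'.L = qT`) and `x`, with `δ' > 0`, `δ' < r' + qT - m`, `δ' ≤ μ/2`: `h` good, `v ∈ F (m - qT + δ')`,
`ev v (..) = - h.φ x`.  `t := m - qT + δ' < r'`.  `s' := s.push h`.  `H_add` at `h.φ z` (`t ≤ r ≤ r + ε0`; `h.φ z ∈ F (r+ε0)`):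
`H (h.φ z + v) = h.φ (H z) + ev v (..) + φ β' + err = φ (β + β') + err`, `err ∈ F (qT + t - μ) = F (m + δ' - μ) ⊆ F (m - μ/2)`.
(`(m' - nT)/X'.L ≤ m - qT`, use `F_mono`.)
`correct`: iterate `⌈(m - ε)/(μ/2)⌉` times; if `m ≤ ε` take `s' = s`, `Hom.refl`, `v = 0`, `t := r' - 1`.  After a step: the new base point
`h.φ z + v ∈ F (r + ε0)`, the new `m - μ/2 < qT + r'`; the total `v` is `h'.φ v1 + v2` with size `≤ max t1 t2 < r'`.
-/

set_option autoImplicit false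

open scoped TensorProduct Polynomial

namespace C74

variable {k : Type} [Field k]
variable {X : Obj k} {d : ℕ} {g : Fam X} {q0 r : ℚ} {e : ℕ}

/-- one SOLVE step: the error decreases by `μ/2` -/
theorem CSt.solveStep [IsAlgClosed k] {c : Chain X d g q0 r e} (s : CSt c) (hg : s.f.Good)
    {z : s.X'.D} (hz : z ∈ s.X'.F (r + c.ε0)) {r' m : ℚ} (hr : r' ≤ r) (hm : m < c.qT + r')
    (hN : s.Near z m) :
    ∃ (s' : CSt c) (F : CSt.Hom s s') (v : s'.X'.D) (t : ℚ), t < r' ∧ v ∈ s'.X'.F t ∧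
      s'.Near (F.h.φ z + v) (m - c.μ / 2) := by
  obtain ⟨β, hβ, hx⟩ := hN
  obtain ⟨-, hT1⟩ := s.orders hg hz
  have hμ := c.μpos
  have hε := c.ε0pos
  set δ : ℚ := min ((r' + c.qT - m) / 2) (c.μ / 2) with hδ
  have hδ1 : δ ≤ (r' + c.qT - m) / 2 := min_le_left _ _
  have hδ2 : δ ≤ c.μ / 2 := min_le_right _ _
  have hδ0 : 0 < δ := lt_min (by linarith) (by linarith)
  have hx' : s.H z - s.f.φ β ∈ Fr.lev k s.X'.A ⌊(s.X'.L : ℚ) * m⌋ := hx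
  obtain ⟨Y, h, v, hgood, hv, hev⟩ := solve hT1 hx' hδ0
  have hL : (0 : ℚ) < s.X'.L := by exact_mod_cast s.X'.Lpos
  have hXL : (0 : ℚ) < X.L := by exact_mod_cast X.Lpos
  have hM : (0 : ℚ) < s.f.M := by exact_mod_cast s.f.Mpos
  have hLM : (s.X'.L : ℚ) = X.L * s.f.M := by exact_mod_cast s.f.hL
  have hq : (((s.f.M : ℤ) * (c.ne - c.v) : ℤ) : ℚ) / s.X'.L = c.qT := by
    rw [hLM, Chain.qT]
    push_cast
    field_simp
  have hle : ((⌊(s.X'.L : ℚ) * m⌋ : ℚ) - (((s.f.M : ℤ) * (c.ne - c.v) : ℤ) : ℚ)) / s.X'.L ≤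
      m - c.qT := by
    rw [sub_div, hq]
    have h1 : (⌊(s.X'.L : ℚ) * m⌋ : ℚ) / s.X'.L ≤ m := by
      rw [div_le_iff₀ hL, mul_comm m]
      exact Int.floor_le _
    linarith
  have hv' : v ∈ Y.F (m - c.qT + δ) := F_mono (by linarith) hv
  have hz' : h.φ z ∈ Y.F (r + c.ε0) := (h.F_iff _ _).2 hz
  obtain ⟨β', hβ', hadd⟩ := CSt.H_add (s.push h) (z := h.φ z) (w := v) (t := m - c.qT + δ) hz' hv'
    (by linarith)
  refine ⟨s.push h, s.pushHom h hgood, v, m - c.qT + δ, by linarith, hv', β + β',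
    c.E.add_mem hβ hβ', ?_⟩
  have e1 : h.T 1 (s.f.T 1 c.T1) = (s.push h).f.T 1 c.T1 := (Ext.comp_T h s.f 1 c.T1).symm
  have key : ∀ (H0 H1 T φβ' : (s.push h).X'.D), H0 = h.φ (s.H z) →
      T = -h.φ (s.H z - s.f.φ β) → φβ' = (s.push h).f.φ β' →
      H1 - H0 - T - φβ' ∈ (s.push h).X'.F (c.qT + (m - c.qT + δ) - c.μ) →
      H1 - (s.push h).f.φ (β + β') ∈ (s.push h).X'.F (m - c.μ / 2) := by
    intro H0 H1 T φβ' h1 h2 h3 h4
    have e2 : H1 - H0 - T - φβ' = H1 - (s.push h).f.φ (β + β') := by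
      have e3 : (s.push h).f.φ β = h.φ (s.f.φ β) := rfl
      have h2' : T = -(H0 - (s.push h).f.φ β) := by rw [h1, e3, h2, map_sub]; rfl
      rw [h2', h3, map_add]
      abel
    rw [e2] at h4
    exact F_mono (by linarith) h4
  refine key _ _ _ _ (CSt.push_H s h z) ?_ rfl hadd
  exact (congrArg (fun T => TP.ev (A := Y.D) v T) e1.symm).trans hev

theorem MC3_iter [IsAlgClosed k] {c : Chain X d g q0 r e} (n : ℕ) : ∀ (s : CSt c) (_ : s.f.Good)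
    {z : s.X'.D} (_ : z ∈ s.X'.F (r + c.ε0)) {r' ε m : ℚ} (_ : r' ≤ r) (_ : m < c.qT + r')
    (_ : s.Near z m) (_ : m - n * (c.μ / 2) ≤ ε),
    ∃ (s' : CSt c) (F : CSt.Hom s s') (v : s'.X'.D) (t : ℚ), t < r' ∧ v ∈ s'.X'.F t ∧
      s'.Near (F.h.φ z + v) ε := by
  have base : ∀ (s : CSt c) {z : s.X'.D} {r' ε m : ℚ} (_ : s.Near z m) (_ : m ≤ ε),
      ∃ (s' : CSt c) (F : CSt.Hom s s') (v : s'.X'.D) (t : ℚ), t < r' ∧ v ∈ s'.X'.F t ∧
      s'.Near (F.h.φ z + v) ε := by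
    intro s z r' ε m hN hm
    refine ⟨s, CSt.Hom.refl s, 0, r' - 1, by linarith, Submodule.zero_mem _, ?_⟩
    obtain ⟨β, hβ, hx⟩ := hN
    have e1 : (CSt.Hom.refl s).h.φ z + 0 = z := by rw [add_zero]; rfl
    rw [e1]
    exact ⟨β, hβ, F_mono hm hx⟩
  induction n with
  | zero =>
    intro s hg z hz r' ε m hr hm hN hn
    refine base s hN ?_
    simpa using hn
  | succ n ih =>
    intro s hg z hz r' ε m hr hm hN hn
    obtain ⟨s1, F1, v1, t1, ht1, hv1, hN1⟩ := s.solveStep hg hz hr hm hN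
    have hε := c.ε0pos
    have hμ := c.μpos
    have hz1 : F1.h.φ z + v1 ∈ s1.X'.F (r + c.ε0) :=
      Submodule.add_mem _ ((F1.h.F_iff _ _).2 hz) (F_mono (by linarith) hv1)
    obtain ⟨s2, F2, v2, t2, ht2, hv2, hN2⟩ := ih s1 (F1.good_f hg) hz1 (r' := r') (ε := ε)
      (m := m - c.μ / 2) hr (by linarith) hN1 (by push_cast at hn; linarith)
    refine ⟨s2, F1.trans F2, F2.h.φ v1 + v2, max t1 t2, max_lt ht1 ht2,
      Submodule.add_mem _ (F_mono (le_max_left _ _) ((F2.h.F_iff _ _).2 hv1))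
        (F_mono (le_max_right _ _) hv2), ?_⟩
    have e1 : (F1.trans F2).h.φ z + (F2.h.φ v1 + v2) = F2.h.φ (F1.h.φ z + v1) + v2 := by
      rw [map_add, add_assoc]
      rfl
    rw [e1]
    exact hN2

/-- finitely many SOLVE steps -/
theorem CSt.correct [IsAlgClosed k] {c : Chain X d g q0 r e} (s : CSt c) (hg : s.f.Good)
    {z : s.X'.D} (hz : z ∈ s.X'.F (r + c.ε0)) {r' ε m : ℚ} (hr : r' ≤ r) (hm : m < c.qT + r')
    (hN : s.Near z m) :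
    ∃ (s' : CSt c) (F : CSt.Hom s s') (v : s'.X'.D) (t : ℚ), t < r' ∧ v ∈ s'.X'.F t ∧
      s'.Near (F.h.φ z + v) ε := by
  have hμ : 0 < c.μ / 2 := half_pos c.μpos
  obtain ⟨n, hn⟩ := exists_nat_ge ((m - ε) / (c.μ / 2))
  rw [div_le_iff₀ hμ] at hn
  exact MC3_iter n s hg hz hr hm hN (by linarith)

end C74
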