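import Pool.Agent.MP_35f30a_al.C74.MC2
import Pool.Agent.MP_35f30a_al.C74.MC3

/-!
ROW MC4.  One full step of the chain.  Blueprint 2.4.

`ndStep`: `s1, F1, w, m`; `z1 := F1.h.φ z + w ∈ F (r + ε0)`.  `correct` from `m` to `ε`: `s2, F2, v, t < r'`; `z' := F2.h.φ z1 + v`.
The `0`-component: `G := s1.f.st d z1 g` transported to `s2` (exactly `F2.h.T (G j)`), `st d z' g 0 = T(G 0) + Σ_{j ≥ 1} con v j 0 (T (G j))`.
Sizes: `G 0`: `< q'` (`Small`).  `G j ∈ FT (q' - j r')` for `j ≥ 1`: `j ≤ e`: `Small`; `j = e+1`: exact size `q' - (e+1) r'` (`top`, as in MC2);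
`j > e+1`: `top`: `FT (q0 - j r - μ)`, and `q' - j r' = q0 - (e+1) r - (j-e-1) r' ≥ q0 - j r`.  So `con v j 0` has size
`≤ q' - j r' + j t < q'`.  Total `< q'`.
If it is `0`: done.  Else exact size `q'' < q'`; `r'' := (q'' - (q0 - (e+1) r))/(e+1) < r'` (`r' = (q' - (q0-(e+1)r))/(e+1)`).
`Crit .. q'' r'' (e+1)`: `ex`: `top`; `lt` for `j > e+1`: `q'' - j r'' = q0 - (e+1) r - (j-e-1) r'' ≥ q0 - j r`.  `le` for `1 ≤ j ≤ e`: if
`st .. j ∉ FT (q'' - j r'')`, `idx` (with `q0 := q''`, `r := r''`, both last hypotheses hold) gives `Crit` with slope `≤ r'' ≤ r` and smaller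
index: `Drop X d g r (e+1)` (`z' ∈ F (r + ε0) ⊆ F (r + 1)`), contradiction to `c.nd`.
-/

set_option autoImplicit false

open scoped TensorProduct Polynomial

namespace C74

variable {k : Type} [Field k]
variable {X : Obj k} {d : ℕ} {g : Fam X} {q0 r : ℚ} {e : ℕ}

/-- exact size of the component `e + 1` -/
theorem MC4_top_FTx {c : Chain X d g q0 r e} (s : CSt c) {z : s.X'.D}
    (hz : z ∈ s.X'.F (r + c.ε0)) :
    s.X'.FTx (q0 - (e + 1 : ℕ) * r) (s.f.st d z g (e + 1)) := by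
  have h1 := (s.top hz).1
  have h2 : s.X'.FTx (q0 - (e + 1 : ℕ) * r) (s.f.T (e + 1) (g (e + 1))) :=
    (Ext.FTx_iff s.f _ _).mpr c.crit.ex
  have h3 := FTx_add h2 h1
  rwa [add_sub_cancel] at h3

/-- relation between the sizes -/
theorem MC4_q_eq {c : Chain X d g q0 r e} (s : CSt c) {z : s.X'.D}
    (hz : z ∈ s.X'.F (r + c.ε0)) {q' r' : ℚ}
    (hC : Crit s.X' d (s.f.st d z g) q' r' (e + 1)) :
    q' - (e + 1 : ℕ) * r' = q0 - (e + 1 : ℕ) * r :=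
  FTx_unique hC.ex (MC4_top_FTx s hz)

/-- elementary inequality -/
theorem MC4_ineq {q q1 r1 r2 : ℚ} {e j : ℕ} (h : q1 - (e + 1 : ℕ) * r2 = q - (e + 1 : ℕ) * r1)
    (hr : r2 ≤ r1) (hj : e + 1 ≤ j) : q - j * r1 ≤ q1 - j * r2 := by
  have hj' : ((e + 1 : ℕ) : ℚ) ≤ j := by exact_mod_cast hj
  have h1 : (0 : ℚ) ≤ (j - (e + 1 : ℕ)) * (r1 - r2) :=
    mul_nonneg (sub_nonneg.mpr hj') (sub_nonneg.mpr hr)
  nlinarith

/-- one full step of the chain -/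
theorem CSt.step [IsAlgClosed k] {c : Chain X d g q0 r e} (s : CSt c) (hg : s.f.Good)
    {z : s.X'.D} (hz : z ∈ s.X'.F (r + c.ε0)) {q' r' ε : ℚ} (hr : r' ≤ r)
    (hC : Crit s.X' d (s.f.st d z g) q' r' (e + 1)) (hN : s.Near z ε) (hε : ε < c.qT + r') :
    (∃ β ∈ c.E, X.FTx (c.qT + r') (TP.ofA β : TP k X.D 0)) ∧
    ∃ (s' : CSt c) (F : CSt.Hom s s') (z' : s'.X'.D), z' ∈ s'.X'.F (r + c.ε0) ∧
      s'.Near z' ε ∧ (s'.f.st d z' g 0 = 0 ∨
        ∃ q'' r'' : ℚ, r'' < r' ∧ Crit s'.X' d (s'.f.st d z' g) q'' r'' (e + 1)) := by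
  obtain ⟨hβ, s1, F1, w, m, hw, hm, hsm, hN1⟩ := s.ndStep hg hz hr hC hN hε
  refine ⟨hβ, ?_⟩
  have hz1 : F1.h.φ z + w ∈ s1.X'.F (r + c.ε0) :=
    add_mem ((Ext.F_iff F1.h _ _).mpr hz) (F_mono (by linarith) hw)
  obtain ⟨s2, F2, v, t, ht, hv, hN2⟩ := s1.correct (ε := ε) (F1.good_f hg) hz1 hr hm hN1
  have hz2 : F2.h.φ (F1.h.φ z + w) + v ∈ s2.X'.F (r + c.ε0) :=
    add_mem ((Ext.F_iff F2.h _ _).mpr hz1) (F_mono (by have := c.ε0pos; linarith) hv)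
  refine ⟨s2, F1.trans F2, F2.h.φ (F1.h.φ z + w) + v, hz2, hN2, ?_⟩
  have hq := MC4_q_eq s hz hC
  -- sizes of the components over `s1`
  have hG : ∀ j, 1 ≤ j → j ≤ d →
      s1.f.st d (F1.h.φ z + w) g j ∈ s1.X'.FT j (q' - j * r') := by
    intro j hj1 hjd
    rcases lt_trichotomy j (e + 1) with h | h | h
    · exact FTlt_FT (hsm j h)
    · subst h
      rw [hq]
      exact (MC4_top_FTx s1 hz1).1
    · have h1 := (s1.top hz1).2 j h hjd
      have h2 := MC4_ineq hq hr h.le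
      have h3 := c.μpos
      exact FT_mono (by linarith) h1
  have h0 : s2.X'.FTlt q' (s2.f.st d (F2.h.φ (F1.h.φ z + w) + v) g 0) := by
    rw [← F2.st_eq (F1.h.φ z + w) v 0 (Nat.zero_le _)]
    show s2.X'.FTlt q' (TP.tay d v (fun j => F2.h.T j (s1.f.st d (F1.h.φ z + w) g j)) 0)
    unfold TP.tay
    apply FTlt_sum
    intro j hj
    have hjd : j ≤ d := by have := Finset.mem_range.mp hj; omega
    rcases Nat.eq_zero_or_pos j with h | h
    · subst h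
      rw [TP.con_zero_zero]
      have h1 := hsm 0 (Nat.succ_pos e)
      rw [Nat.cast_zero, zero_mul, sub_zero] at h1
      exact (Ext.FTlt_iff F2.h _ _).mpr h1
    · have h1 : F2.h.T j (s1.f.st d (F1.h.φ z + w) g j) ∈ s2.X'.FT j (q' - j * r') :=
        (Ext.FT_iff F2.h _ _).mpr (hG j h hjd)
      have h2 := FT_con (Nat.zero_le j) hv h1
      refine FTlt_of_FT ?_ h2
      rw [Nat.sub_zero]
      have h3 : (0 : ℚ) < (j : ℚ) := by exact_mod_cast h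
      nlinarith
  by_cases hzero : s2.f.st d (F2.h.φ (F1.h.φ z + w) + v) g 0 = 0
  · exact Or.inl hzero
  right
  obtain ⟨q'', hq''⟩ := exists_FTx hzero
  have hlt : q'' < q' := (FTx.lt_iff hq'').mp h0
  have hpos : (0 : ℚ) < ((e + 1 : ℕ) : ℚ) := by exact_mod_cast Nat.succ_pos e
  obtain ⟨r'', hr''⟩ : ∃ r'' : ℚ, q'' - (e + 1 : ℕ) * r'' = q0 - (e + 1 : ℕ) * r := by
    refine ⟨(q'' - (q0 - (e + 1 : ℕ) * r)) / (e + 1 : ℕ), ?_⟩
    rw [mul_div_cancel₀ _ hpos.ne']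
    ring
  have hrr : r'' < r' := by
    by_contra hcon
    push Not at hcon
    have : ((e + 1 : ℕ) : ℚ) * r' ≤ (e + 1 : ℕ) * r'' := mul_le_mul_of_nonneg_left hcon hpos.le
    linarith
  have hrr' : r'' ≤ r := by linarith
  have hex : s2.X'.FTx (q'' - (e + 1 : ℕ) * r'')
      (s2.f.st d (F2.h.φ (F1.h.φ z + w) + v) g (e + 1)) := by
    rw [hr'']
    exact MC4_top_FTx s2 hz2
  have hlt' : ∀ j, e + 1 < j → j ≤ d → s2.X'.FTlt (q'' - j * r'')
      (s2.f.st d (F2.h.φ (F1.h.φ z + w) + v) g j) := by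
    intro j hj hjd
    have h1 := (s2.top hz2).2 j hj hjd
    have h2 := MC4_ineq hr'' hrr' hj.le
    have h3 := c.μpos
    exact FTlt_of_FT (by linarith) h1
  refine ⟨q'', r'', hrr, Nat.succ_le_succ (Nat.zero_le e), c.crit.le_d, hq'', ?_, hex, hlt'⟩
  intro j hj1 hjd
  rcases lt_trichotomy j (e + 1) with h | h | h
  · by_contra hcon
    obtain ⟨r3, e3, hr3, he3, hC3⟩ := idx (Nat.succ_le_succ (Nat.zero_le e)) c.crit.le_d hq''
      le_rfl hex.1 hlt' j hj1 h (fun h' => hcon (FTlt_FT h')) (fun _ => hcon)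
    refine c.nd ⟨s2.X', s2.f, F2.h.φ (F1.h.φ z + w) + v, ?_, Or.inr ⟨q'', r3, e3, ?_, he3, hC3⟩⟩
    · exact F_mono (by have := c.ε0le; linarith) hz2
    · linarith
  · subst h
    exact hex.1
  · exact FTlt_FT (hlt' j h hjd)

end C74
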