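import Pool.Agent.MP_35f30a_al.C74.SZ3

/-!
ROW SZ4.  (IDX).  Blueprint section 2 (IDX).

For `1 ≤ j ≤ d` with `g j ≠ 0` let `v_j` be the exact size of `g j` (`exists_FTx`).  `r'' := min_j (q'' - v_j)/j` over these `j`, `e'' := ` the
largest `j` where the minimum is attained.  By `hi`, `g i ≠ 0`, `v_i ≥ q0 - i r`, and `(q'' - v_i)/i ≤ (q'' - q0 + i r)/i ≤ r`, with
`<` overall: either `q'' < q0`, or `q'' = q0` and `v_i > q0 - i r` (`hi'`).  So `r'' < r`.
`e'' < e`: suppose `j := e'' ≥ e`.  `v_j ≤ q0 - j r` (`hee`, `hlt`), so `q'' = v_j + j r'' ≤ q0 - j (r - r'')`, and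
`q'' ≥ v_i + i r'' ≥ q0 - i (r - r'')`; so `j (r-r'') ≤ i (r-r'')`, `j ≤ i < e`, contradiction.
`Crit`: `le`: `v_j ≤ q'' - j r''`; `ex` at `e''`; `lt` for `j > e''`: not a minimiser.
-/

set_option autoImplicit false

open scoped TensorProduct Polynomial

namespace C74

variable {k : Type} [Field k]

/-- (IDX) -/
theorem idx {X : Obj k} {d : ℕ} {g : Fam X} {q0 q'' r : ℚ} {e : ℕ} (he : 1 ≤ e) (hed : e ≤ d)
    (h0 : X.FTx q'' (g 0)) (hq : q'' ≤ q0) (hee : g e ∈ X.FT e (q0 - e * r))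
    (hlt : ∀ j, e < j → j ≤ d → X.FTlt (q0 - j * r) (g j))
    (i : ℕ) (hi1 : 1 ≤ i) (hie : i < e) (hi : ¬ X.FTlt (q0 - i * r) (g i))
    (hi' : q'' = q0 → g i ∉ X.FT i (q0 - i * r)) :
    ∃ (r'' : ℚ) (e'' : ℕ), r'' ≤ r ∧ e'' < e ∧ Crit X d g q'' r'' e'' := by
  classical
  -- exact sizes
  have hv : ∀ j, ∃ v : ℚ, g j ≠ 0 → X.FTx v (g j) := by
    intro j
    by_cases hj : g j = 0
    · exact ⟨0, fun h => absurd hj h⟩
    · obtain ⟨v, hv⟩ := exists_FTx hj
      exact ⟨v, fun _ => hv⟩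
  choose v hv using hv
  have hgi : g i ≠ 0 := fun h => hi (by rw [h]; exact FTlt_zero)
  set J : Finset ℕ := (Finset.Icc 1 d).filter (fun j => g j ≠ 0) with hJ
  have hiJ : i ∈ J := by
    rw [hJ, Finset.mem_filter, Finset.mem_Icc]
    exact ⟨⟨hi1, by omega⟩, hgi⟩
  -- slopes
  set s : ℕ → ℚ := fun j => (q'' - v j) / j with hs
  obtain ⟨j0, hj0J, hj0⟩ := J.exists_min_image s ⟨i, hiJ⟩
  set r'' : ℚ := s j0 with hr
  set J' : Finset ℕ := J.filter (fun j => s j = r'') with hJ'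
  have hj0J' : j0 ∈ J' := by
    rw [hJ', Finset.mem_filter]
    exact ⟨hj0J, rfl⟩
  obtain ⟨e'', heJ', hemax⟩ := J'.exists_max_image (fun j => j) ⟨j0, hj0J'⟩
  have heJ : e'' ∈ J := (Finset.mem_filter.mp heJ').1
  have hse : s e'' = r'' := (Finset.mem_filter.mp heJ').2
  have mem : ∀ j, j ∈ J ↔ (1 ≤ j ∧ j ≤ d) ∧ g j ≠ 0 := by
    intro j
    rw [hJ, Finset.mem_filter, Finset.mem_Icc]
  have pos : ∀ j : ℕ, 1 ≤ j → (0 : ℚ) < j := fun j hj => by exact_mod_cast hj
  -- v j ≤ q'' - j r''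
  have hvle : ∀ j ∈ J, v j ≤ q'' - j * r'' := by
    intro j hj
    have h1 := hj0 j hj
    have h2 := pos j ((mem j).1 hj).1.1
    have h3 : r'' ≤ (q'' - v j) / j := h1
    rw [le_div_iff₀ h2] at h3
    linarith [mul_comm r'' (j : ℚ)]
  have hve : v e'' = q'' - e'' * r'' := by
    have h2 := pos e'' ((mem e'').1 heJ).1.1
    have h3 : (q'' - v e'') / e'' = r'' := hse
    rw [div_eq_iff h2.ne'] at h3
    linarith [mul_comm r'' (e'' : ℚ)]
  -- v i ≥ q0 - i r
  have hvi : q0 - i * r ≤ v i := by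
    by_contra hcon
    rw [not_le] at hcon
    exact hi ((FTx.lt_iff (hv i hgi)).mpr hcon)
  have hi0 := pos i hi1
  -- r'' < r
  have hrlt : r'' < r := by
    have h1 := hvle i hiJ
    rcases lt_or_eq_of_le hq with hlt' | heq
    · nlinarith
    · have h2 : q0 - i * r < v i := by
        rcases lt_or_eq_of_le hvi with h | h
        · exact h
        · exact absurd ((FTx.mem_iff (hv i hgi)).mpr (le_of_eq h.symm)) (hi' heq)
      nlinarith
  -- e'' < e
  have hee'' : e'' < e := by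
    by_contra hcon
    rw [not_lt] at hcon
    have hge : g e'' ≠ 0 := ((mem e'').1 heJ).2
    have h1 : v e'' ≤ q0 - e'' * r := by
      rcases lt_or_eq_of_le hcon with h | h
      · exact le_of_lt ((FTx.lt_iff (hv e'' hge)).mp (hlt e'' h ((mem e'').1 heJ).1.2))
      · subst h
        exact (FTx.mem_iff (hv e hge)).mp hee
    have h2 := hvle i hiJ
    have h3 : (i : ℚ) < e'' := by
      have : i < e'' := by omega
      exact_mod_cast this
    nlinarith
  refine ⟨r'', e'', le_of_lt hrlt, hee'', ((mem e'').1 heJ).1.1, ((mem e'').1 heJ).1.2, h0, ?_, ?_, ?_⟩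
  · intro j hj1 hjd
    by_cases hj : g j = 0
    · rw [hj]; exact Submodule.zero_mem _
    · exact (FTx.mem_iff (hv j hj)).mpr (hvle j ((mem j).2 ⟨⟨hj1, hjd⟩, hj⟩))
  · rw [← hve]
    exact hv e'' ((mem e'').1 heJ).2
  · intro j hej hjd
    by_cases hj : g j = 0
    · rw [hj]; exact FTlt_zero
    · have hjJ : j ∈ J := (mem j).2 ⟨⟨by omega, hjd⟩, hj⟩
      have h1 := hvle j hjJ
      have h2 : v j ≠ q'' - j * r'' := by
        intro h
        have h3 : s j = r'' := by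
          have h4 := pos j (by omega)
          show (q'' - v j) / j = r''
          rw [div_eq_iff h4.ne']
          linarith [mul_comm r'' (j : ℚ)]
        have h4 : j ∈ J' := by
          rw [hJ', Finset.mem_filter]
          exact ⟨hjJ, h3⟩
        have h5 := hemax j h4
        omega
      exact (FTx.lt_iff (hv j hj)).mpr (lt_of_le_of_ne h1 h2)

end C74
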