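import Pool.Agent.MP_35f30a_al.C74.FD1
import Pool.Agent.MP_35f30a_al.C74.FD2
import Pool.Agent.MP_35f30a_al.C74.FD3
import Pool.Agent.MP_35f30a_al.C74.SZ4

/-!
ROW MCD.  Chain: definitions and formal properties.  Blueprint 2.4.

`TE_map`: induction (`Ext.T_cons`).   `hΘ2`, `hθ` of `init`: `Ext.id_T`; of `push`: `Ext.comp_T`.
`push_H`: `s.push h` evaluates `θ'` on `(h.comp s.f).st d (h.φ z) g e = h.T e (s.f.st d z g e)` (`Ext.st_map`) and
`θ' (h.T e T) = h.T 0 (s.θ T)`.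
`init_Near`: `H(0) = θ (g e) ∈ E` (`IsFD.θ_TE`, `Ext.st_id`; `e ≤ d` from `crit.le_d`).
-/

set_option autoImplicit false

open scoped TensorProduct Polynomial

namespace C74

variable {k : Type} [Field k]

/-- extensions with the same homomorphism and the same scale are equal -/
theorem MCD_ext {X X' : Obj k} {f g : Ext X X'} (h1 : f.φ = g.φ) (h2 : f.M = g.M) : f = g := by
  cases f
  cases g
  cases h1
  cases h2
  rfl

/-- components over an extension -/
theorem TE_map {X X' : Obj k} (f : Ext X X') (E : Submodule k X.D) {j : ℕ} {T : TP k X.D j}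
    (hT : T ∈ TE E j) : f.T j T ∈ TE (E.map f.φ.toLinearMap) j := by
  induction j with
  | zero =>
    have h1 : TP.toA (f.T 0 T) = f.φ (TP.toA T) := congrArg TP.toA (f.T_ofA (TP.toA T))
    have h2 : TP.toA (f.T 0 T) ∈ E.map f.φ.toLinearMap := by
      rw [h1]
      exact Submodule.mem_map_of_mem (f := f.φ.toLinearMap) hT
    exact h2
  | succ j ih =>
    refine Submodule.span_induction (p := fun T _ => f.T (j + 1) T ∈
      TE (E.map f.φ.toLinearMap) (j + 1)) ?_ ?_ ?_ ?_ hT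
    · rintro _ ⟨a, ha, u, hu, rfl⟩
      rw [f.T_cons]
      exact Submodule.subset_span ⟨f.φ a, Submodule.mem_map_of_mem ha, f.T j u, ih hu, rfl⟩
    · rw [map_zero]
      exact Submodule.zero_mem _
    · intro x y _ _ hx hy
      rw [map_add]
      exact Submodule.add_mem _ hx hy
    · intro r x _ hx
      rw [LinearMap.map_smulₛₗ]
      exact Submodule.smul_mem _ _ hx

/-- the fixed data of a chain at `X`; the critical index is `e + 1` -/
structure Chain (X : Obj k) (d : ℕ) (g : Fam X) (q0 r : ℚ) (e : ℕ) where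
  crit : Crit X d g q0 r (e + 1)
  nd : ¬ Drop X d g r (e + 1)
  E : Submodule k X.D
  fin : Module.Finite k E
  hE : ∀ j, g j ∈ TE E j
  N : ℕ
  ne : ℤ
  hne : (ne : ℚ) = X.L * (q0 - (e + 1 : ℕ) * r)
  hN : OJx X ne N (g (e + 1))
  v : ℤ
  Θ2 : TP k X.D (e + 1) →ₗ[k] TP k X.D 1
  θ : TP k X.D e →ₗ[k] TP k X.D 0
  fd : IsFD X e v Θ2 θ
  hT : OJx X (ne - v) N (Θ2 (g (e + 1)))
  μ : ℚ
  μpos : 0 < μ
  ε0 : ℚ
  ε0pos : 0 < ε0
  ε0le : ε0 ≤ 1
  ε0μ : ε0 ≤ μ / 4
  gap : ∀ j, e + 1 < j → j ≤ d →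
    g j ∈ X.FT j (q0 - j * r - (j - (e + 1) : ℕ) * ε0 - μ)

section chain
variable {X : Obj k} {d : ℕ} {g : Fam X} {q0 r : ℚ} {e : ℕ}

/-- the size of `T1` : `q_T = (ne - v)/L` -/
noncomputable def Chain.qT (c : Chain X d g q0 r e) : ℚ := ((c.ne : ℚ) - c.v) / X.L

/-- the fixed tensor `T1` -/
noncomputable def Chain.T1 (c : Chain X d g q0 r e) : TP k X.D 1 := c.Θ2 (g (e + 1))

/-- a state of the chain: an extension of `X` with the functional data extended to it -/
structure CSt (c : Chain X d g q0 r e) where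
  X' : Obj k
  f : Ext X X'
  Θ2 : TP k X'.D (e + 1) →ₗ[k] TP k X'.D 1
  θ : TP k X'.D e →ₗ[k] TP k X'.D 0
  fd : IsFD X' e ((f.M : ℤ) * c.v) Θ2 θ
  hΘ2 : ∀ T, Θ2 (f.T (e + 1) T) = f.T 1 (c.Θ2 T)
  hθ : ∀ T, θ (f.T e T) = f.T 0 (c.θ T)

/-- the initial state -/
noncomputable def Chain.init (c : Chain X d g q0 r e) : CSt c where
  X' := X
  f := Ext.id X
  Θ2 := c.Θ2
  θ := c.θ
  fd := by simpa [Ext.id] using c.fd
  hΘ2 := fun T => by rw [Ext.id_T, Ext.id_T]
  hθ := fun T => by rw [Ext.id_T, Ext.id_T]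

/-- `H(z) = θ(g^{(z)}_e)` -/
noncomputable def CSt.H {c : Chain X d g q0 r e} (s : CSt c) (z : s.X'.D) : s.X'.D :=
  TP.toA (s.θ (s.f.st d z g e))

/-- `H(z) ∈ E + F(ε)` -/
def CSt.Near {c : Chain X d g q0 r e} (s : CSt c) (z : s.X'.D) (ε : ℚ) : Prop :=
  ∃ β ∈ c.E, s.H z - s.f.φ β ∈ s.X'.F ε

/-- pushing a state along an extension (functional data extended by choice) -/
noncomputable def CSt.push {c : Chain X d g q0 r e} (s : CSt c) {Y : Obj k} (h : Ext s.X' Y) :
    CSt c where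
  X' := Y
  f := h.comp s.f
  Θ2 := (s.fd.extend h).choose
  θ := (s.fd.extend h).choose_spec.choose
  fd := by
    have := (s.fd.extend h).choose_spec.choose_spec.1
    have h2 : (((h.comp s.f).M : ℕ) : ℤ) * c.v = (h.M : ℤ) * ((s.f.M : ℤ) * c.v) := by
      simp only [Ext.comp, Nat.cast_mul]; ring
    rw [h2]; exact this
  hΘ2 := fun T => by
    rw [Ext.comp_T, Ext.comp_T, ← s.hΘ2]
    exact (s.fd.extend h).choose_spec.choose_spec.2.1 _
  hθ := fun T => by
    rw [Ext.comp_T, Ext.comp_T, ← s.hθ]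
    exact (s.fd.extend h).choose_spec.choose_spec.2.2 _

/-- morphisms of chain states along good extensions -/
structure CSt.Hom {c : Chain X d g q0 r e} (s s' : CSt c) where
  h : Ext s.X' s'.X'
  good : h.Good
  comp : s'.f = h.comp s.f
  hθ : ∀ T, s'.θ (h.T e T) = h.T 0 (s.θ T)

/-- pushing along a good extension is a morphism -/
noncomputable def CSt.pushHom {c : Chain X d g q0 r e} (s : CSt c) {Y : Obj k} (h : Ext s.X' Y)
    (hg : h.Good) : CSt.Hom s (s.push h) where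
  h := h
  good := hg
  comp := rfl
  hθ := (s.fd.extend h).choose_spec.choose_spec.2.2

/-- identity -/
noncomputable def CSt.Hom.refl {c : Chain X d g q0 r e} (s : CSt c) : CSt.Hom s s where
  h := Ext.id s.X'
  good := Ext.Good.id _
  comp := MCD_ext rfl (Nat.mul_one _).symm
  hθ := fun T => by rw [Ext.id_T, Ext.id_T]

/-- composition -/
noncomputable def CSt.Hom.trans {c : Chain X d g q0 r e} {s s' s'' : CSt c} (F : CSt.Hom s s')
    (G : CSt.Hom s' s'') : CSt.Hom s s'' where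
  h := G.h.comp F.h
  good := G.good.comp F.good
  comp := by
    rw [G.comp, F.comp]
    exact MCD_ext rfl (Nat.mul_assoc _ _ _)
  hθ := fun T => by rw [Ext.comp_T, Ext.comp_T, G.hθ, F.hθ]

/-- a state reached by a good morphism from a good state is good -/
theorem CSt.Hom.good_f {c : Chain X d g q0 r e} {s s' : CSt c} (F : CSt.Hom s s')
    (hg : s.f.Good) : s'.f.Good := by
  rw [F.comp]
  exact F.good.comp hg

theorem CSt.push_H {c : Chain X d g q0 r e} (s : CSt c) {Y : Obj k} (h : Ext s.X' Y)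
    (z : s.X'.D) : (s.push h).H (h.φ z) = h.φ (s.H z) := by
  have h1 : (h.comp s.f).st d (h.φ z) g e = h.T e (s.f.st d z g e) := (Ext.st_map h s.f d z g e).symm
  have h2 : (s.push h).θ (h.T e (s.f.st d z g e)) = h.T 0 (s.θ (s.f.st d z g e)) :=
    (s.fd.extend h).choose_spec.choose_spec.2.2 _
  have h3 : (s.push h).H (h.φ z) = TP.toA ((s.push h).θ ((h.comp s.f).st d (h.φ z) g e)) := rfl
  rw [h3, h1, h2]
  exact congrArg TP.toA (h.T_ofA (TP.toA (s.θ (s.f.st d z g e))))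

theorem CSt.push_Near {c : Chain X d g q0 r e} (s : CSt c) {Y : Obj k} (h : Ext s.X' Y)
    {z : s.X'.D} {ε : ℚ} (hz : s.Near z ε) : (s.push h).Near (h.φ z) ε := by
  obtain ⟨β, hβ, hb⟩ := hz
  refine ⟨β, hβ, ?_⟩
  have h1 : (s.push h).f.φ β = h.φ (s.f.φ β) := rfl
  have h2 : (s.push h).H (h.φ z) - (s.push h).f.φ β = h.φ (s.H z - s.f.φ β) := by
    rw [s.push_H, h1]
    exact (map_sub h.φ _ _).symm
  rw [h2]
  exact (h.F_iff ε _).2 hb

theorem CSt.Hom.st_eq {c : Chain X d g q0 r e} {s s' : CSt c} (F : CSt.Hom s s') (z : s.X'.D)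
    (w : s'.X'.D) (i : ℕ) (hi : i ≤ d) :
    F.h.st d w (s.f.st d z g) i = s'.f.st d (F.h.φ z + w) g i := by
  rw [F.comp]
  exact Ext.st_st F.h s.f d z w g i hi

theorem Chain.init_Near (c : Chain X d g q0 r e) (ε : ℚ) : c.init.Near 0 ε := by
  have hed : e + 1 ≤ d := c.crit.le_d
  have h1 : c.init.H 0 = TP.toA (c.θ (g e)) := by
    have h2 : c.init.H 0 = TP.toA (c.θ ((Ext.id X).st d 0 g e)) := rfl
    rw [h2, Ext.st_id d g e (by omega)]
  refine ⟨TP.toA (c.θ (g e)), c.fd.θ_TE c.E (c.hE e), ?_⟩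
  have h3 : c.init.f.φ (TP.toA (c.θ (g e))) = TP.toA (c.θ (g e)) := rfl
  rw [h1, h3, sub_self]
  exact Submodule.zero_mem _

end chain

end C74
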