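import Pool.Agent.MP_35f30a_al.C74.KF4
import Pool.Agent.MP_35f30a_al.C74.SGM

/-!
ROW MK1.  From a scale `M` ring hom `f : A1 → A'` (A1 the decorated ring of `X`) to an extension of objects.
Blueprint sections 1, 2.5.

`mk_iso`: for `d ≠ 0` of exact level `n` (`lev_sep`, `lev_exhaust`; residue `s ≠ 0`): `dec d` has residue `mon n s ≠ 0` at level `n`,
`Fr.mapk f (dec d)` has residue `i (mon n s) ≠ 0` at level `M n` (`dec d = tz (-n) * ι a1`, `Fr.map f (tz (-n)) = tz (-M n)`), so it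
is in `lev m` iff `M n ≤ m` iff `n ≤ m / M`.
`mk_i_k`: apply `hi` to `algebraMap k[X] A1 (C r)`.
-/

set_option autoImplicit false

open scoped TensorProduct Polynomial

namespace C74

variable {k : Type} [Field k]

theorem MK1_map_tz {A A' : Type} [Ring A] [Algebra k[X] A] [Ring A'] [Algebra k[X] A'] {M : ℕ}
    (f : A →+* A') (hf : IsScale k M f) (n : ℤ) :
    Fr.mapk f hf (Fr.tz n) = Fr.tz ((M : ℤ) * n) := by
  have hnat : ∀ m : ℕ, Fr.mapk f hf (Fr.tz (m : ℤ)) = Fr.tz ((M : ℤ) * m) := by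
    intro m
    have h1 : Fr.mapk f hf (algebraMap k[X] (Fr k A) ((tX k) ^ m)) =
        algebraMap k[X] (Fr k A') (sig k M ((tX k) ^ m)) := Fr.map_algebraMap f hf _
    rw [Fr.tz_nat, h1, map_pow]
    have h2 : sig k M (tX k) = (tX k) ^ M := Polynomial.expand_X M
    rw [h2, ← pow_mul, ← Fr.tz_nat]
    push_cast
    rfl
  cases n with
  | ofNat m => exact hnat m
  | negSucc m =>
    have h0 : Int.negSucc m = -((m + 1 : ℕ) : ℤ) := Int.negSucc_eq m
    rw [h0]
    have h1 : Fr.mapk f hf (Fr.tz (-((m + 1 : ℕ) : ℤ))) * Fr.tz ((M : ℤ) * ((m + 1 : ℕ) : ℤ)) = 1 := by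
      rw [← hnat, ← map_mul, Fr.tz_neg_mul, map_one]
    have h2 : (Fr.tz ((M : ℤ) * ((m + 1 : ℕ) : ℤ)) : Fr k A') *
        Fr.tz (-((M : ℤ) * ((m + 1 : ℕ) : ℤ))) = 1 := Fr.tz_mul_neg _
    have h3 : (M : ℤ) * -((m + 1 : ℕ) : ℤ) = -((M : ℤ) * ((m + 1 : ℕ) : ℤ)) := by ring
    rw [h3]
    exact left_inv_eq_right_inv h1 h2

/-- levels of images under ring homs of scale `M` with injective residue map -/
theorem MK1_lev {A A' : Type} [Ring A] [Algebra k[X] A] [Ring A'] [Algebra k[X] A']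
    {S S' : Type} [CommRing S] [Algebra k S] [CommRing S'] [Algebra k S'] {π : A →+* S}
    {π' : A' →+* S'} (h0 : IsQC k π) (h1 : IsQC k π') {M : ℕ} (hM : 0 < M) (f : A →+* A')
    (hf : IsScale k M f) (i : S →+* S') (hinj : Function.Injective i)
    (hi : ∀ a, π' (f a) = i (π a)) (e : Fr k A) (m : ℤ) :
    Fr.mapk f hf e ∈ Fr.lev k A' m ↔ e ∈ Fr.lev k A (m / (M : ℤ)) := by
  have hM' : (0 : ℤ) < M := by exact_mod_cast hM
  constructor
  · intro hm
    by_contra hcon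
    -- an exact level
    obtain ⟨N, hN⟩ := lev_exhaust e
    have hdesc : ∀ r : ℕ, ¬ e ∈ Fr.lev k A (m / (M : ℤ)) → e ∈ Fr.lev k A (m / (M : ℤ) + r) →
        ∃ n : ℤ, m / (M : ℤ) < n ∧ e ∈ Fr.lev k A n ∧ ¬ e ∈ Fr.lev k A (n - 1) := by
      intro r hr
      induction r with
      | zero => intro h; exact absurd (by simpa using h) hr
      | succ r ih =>
        intro h
        by_cases hc : e ∈ Fr.lev k A (m / (M : ℤ) + r)
        · exact ih hc
        · refine ⟨m / (M : ℤ) + ((r + 1 : ℕ) : ℤ), ?_, h, ?_⟩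
          · push_cast; omega
          · have : m / (M : ℤ) + ((r + 1 : ℕ) : ℤ) - 1 = m / (M : ℤ) + r := by push_cast; ring
            rw [this]; exact hc
    have hge : m / (M : ℤ) ≤ N := by
      by_contra hlt
      exact hcon (lev_mono (le_of_not_ge hlt) hN)
    obtain ⟨r, hr⟩ := Int.le.dest hge
    obtain ⟨n, hn, hen, hen'⟩ := hdesc r hcon (by rw [hr]; exact hN)
    obtain ⟨a, ha⟩ := Fr.mem_lev.1 hen
    -- the residue is nonzero
    have hπa : π a ≠ 0 := by
      intro h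
      obtain ⟨b, hb⟩ := h0.ker a h
      apply hen'
      refine Fr.mem_lev.2 ⟨b, ?_⟩
      rw [ha, hb, Algebra.smul_def, map_mul, AlgHom.commutes, ← Fr.tz_one, ← mul_assoc,
        ← Fr.tz_add]
      congr 2
      ring
    have himg : Fr.mapk f hf e = Fr.tz (-((M : ℤ) * n)) * Fr.ι (f a) := by
      rw [ha, map_mul, MK1_map_tz, Fr.mapk_ι]
      congr 2
      ring
    have hlt : m < (M : ℤ) * n := by
      have h1 : m < (M : ℤ) * (m / (M : ℤ) + 1) := by
        have := Int.lt_mul_ediv_self_add (x := m) hM'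
        linarith [this]
      have h2 : (M : ℤ) * (m / (M : ℤ) + 1) ≤ (M : ℤ) * n :=
        mul_le_mul_of_nonneg_left (by omega) hM'.le
      omega
    have hm' : Fr.mapk f hf e ∈ Fr.lev k A' ((M : ℤ) * n - 1) := lev_mono (by omega) hm
    obtain ⟨b, hb⟩ := Fr.mem_lev.1 hm'
    have hfa : (Fr.ι (f a) : Fr k A') = Fr.ι (tX k • b) := by
      have h2 : Fr.tz (-((M : ℤ) * n)) * Fr.ι (f a) =
          Fr.tz (-((M : ℤ) * n)) * (Fr.ι (tX k • b) : Fr k A') := by
        rw [← himg, hb, Algebra.smul_def, map_mul, AlgHom.commutes, ← Fr.tz_one, ← mul_assoc,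
          ← Fr.tz_add]
        congr 2
        ring
      have h3 := congrArg (fun z => (Fr.tz ((M : ℤ) * n) : Fr k A') * z) h2
      simpa only [← mul_assoc, Fr.tz_mul_neg, one_mul] using h3
    have hfa' : f a = tX k • b := Fr.ι_injective h1.reg hfa
    have h4 : i (π a) = 0 := by rw [← hi, hfa', h1.kerX]
    exact hπa (hinj (by rw [h4, map_zero]))
  · intro he
    obtain ⟨a, ha⟩ := Fr.mem_lev.1 he
    have himg : Fr.mapk f hf e = Fr.tz (-((M : ℤ) * (m / (M : ℤ)))) * Fr.ι (f a) := by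
      rw [ha, map_mul, MK1_map_tz, Fr.mapk_ι]
      congr 2
      ring
    have h1 : Fr.mapk f hf e ∈ Fr.lev k A' ((M : ℤ) * (m / (M : ℤ))) := Fr.mem_lev.2 ⟨_, himg⟩
    exact lev_mono (Int.mul_ediv_self_le hM'.ne') h1

/-- the new object -/
noncomputable def mkObj (X : Obj k) {A' : Type} [Ring A'] [Algebra k[X] A'] {K' : Type} [Field K']
    [Algebra k K'] {π' : A' →+* K'} (h1 : IsQC k π') (h2 : IsComp k A') (h3 : SG k K') (M : ℕ)
    (hM : 0 < M) : Obj k where
  A := A'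
  K := K'
  π := π'
  qc := h1
  comp := h2
  sg := h3
  L := X.L * M
  Lpos := Nat.mul_pos X.Lpos hM

section

variable (X : Obj k) {A' : Type} [Ring A'] [Algebra k[X] A'] {K' : Type} [Field K']
    [Algebra k K'] {π' : A' →+* K'} (h1 : IsQC k π') (h2 : IsComp k A') (h3 : SG k K') (M : ℕ)
    (hM : 0 < M) (f : X.dd.A1 →+* A') (hf : IsScale k M f) (i : X.Γ →+* K')
    (hi : ∀ a, π' (f a) = i (X.dd.π1 a))

include h1 hM hi in
theorem mk_iso (d : X.D) (m : ℤ) : Fr.mapk f hf (X.dd.dec d) ∈ Fr.lev k A' m ↔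
    d ∈ Fr.lev k X.A (m / (M : ℤ)) := by
  rw [MK1_lev X.dd.qc1 h1 hM f hf i i.injective hi, dec_lev]

/-- the extension `X → mkObj X ...`, `φ = Fr(f) ∘ dec` -/
noncomputable def mkExt : Ext X (mkObj X h1 h2 h3 M hM) where
  φ := (Fr.mapk f hf).comp X.dd.dec
  M := M
  Mpos := hM
  hL := rfl
  iso d m := mk_iso X h1 M hM f hf i hi d m

include hf hi h1 in
theorem mk_i_k (r : k) : i (algebraMap k X.Γ r) = algebraMap k K' ((RingHom.id k) r) := by
  rw [← X.dd.qc1.scal r, ← hi, hf, Fr.sig_C, h1.scal]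
  rfl

end

end C74
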