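import Pool.Agent.MP_35f30a_al.C74.Ord
import Pool.Agent.MP_35f30a_al.C74.FLT

/-!
ROW TENS.  `A ⊗[k[X]] Aᵐᵒᵖ` is QC.  Blueprint section 3 (TENS).

`X` regular: `A` is flat (`flat_of_comp`), multiplication by `X` on `A ⊗ Aᵐᵒᵖ` is `id ⊗ (X ·)`.
`πU (a ⊗ op b) = π a ⊗ π b` (`Γ` commutative); kernel: right exactness, kernels of `π` and of the second
`π` are `X A`, and `(A ⊗_{k[X]} Aᵐᵒᵖ)/X = (A/X) ⊗_k (Aᵐᵒᵖ/X)`: construct the inverse map
`Γ ⊗[k] Γ → (A ⊗ Aᵐᵒᵖ)/X`, `π a ⊗ π b ↦ [a ⊗ op b]`.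
-/

set_option autoImplicit false

open scoped TensorProduct Polynomial

namespace C74

variable {k : Type} [Field k]
variable {A : Type} [Ring A] [Algebra k[X] A] {Γ : Type} [Field Γ] [Algebra k Γ] {π : A →+* Γ}

/-- `mk (a ⊗ op b)` modulo `X` depends only on `π a`, `π b` -/
theorem TENS_mk (hπ : IsQC k π) {a a' b b' : A} (ha : π a = π a') (hb : π b = π b') :
    Submodule.Quotient.mk (p := LinearMap.range
      (LinearMap.lsmul k[X] (A ⊗[k[X]] Aᵐᵒᵖ) (tX k))) (a ⊗ₜ[k[X]] MulOpposite.op b) =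
    Submodule.Quotient.mk (a' ⊗ₜ[k[X]] MulOpposite.op b') := by
  obtain ⟨c, hc⟩ := hπ.ker (a - a') (by rw [map_sub, ha, sub_self])
  obtain ⟨d, hd⟩ := hπ.ker (b - b') (by rw [map_sub, hb, sub_self])
  have h1 : a = a' + tX k • c := by rw [← hc]; abel
  have h2 : b = b' + tX k • d := by rw [← hd]; abel
  rw [Submodule.Quotient.eq, LinearMap.mem_range]
  refine ⟨c ⊗ₜ MulOpposite.op b + a' ⊗ₜ MulOpposite.op d, ?_⟩
  rw [LinearMap.lsmul_apply, smul_add, TensorProduct.smul_tmul', ← TensorProduct.tmul_smul,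
    ← MulOpposite.op_smul, h1]
  nth_rewrite 2 [h2]
  rw [MulOpposite.op_add, TensorProduct.tmul_add, TensorProduct.add_tmul, TensorProduct.add_tmul]
  rw [h2, MulOpposite.op_add, TensorProduct.tmul_add]
  abel

/-- TENS: `A ⊗[k[X]] Aᵐᵒᵖ` is a QC ring with residue ring `Γ ⊗[k] Γ` -/
theorem exists_tens (hπ : IsQC k π) (hc : IsComp k A) :
    ∃ πU : (A ⊗[k[X]] Aᵐᵒᵖ) →+* (Γ ⊗[k] Γ), IsQC k πU ∧
      ∀ a b, πU (a ⊗ₜ MulOpposite.op b) = π a ⊗ₜ π b := by
  let i1 : Algebra k[X] (Γ ⊗[k] Γ) := ((algebraMap k (Γ ⊗[k] Γ)).comp (ev0 k)).toAlgebra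
  have hT : ∀ r : k[X], algebraMap k[X] (Γ ⊗[k] Γ) r = algebraMap k (Γ ⊗[k] Γ) (ev0 k r) :=
    fun r => rfl
  let f : A →ₐ[k[X]] Γ ⊗[k] Γ :=
    { (Algebra.TensorProduct.includeLeftRingHom : Γ →+* Γ ⊗[k] Γ).comp π with
      commutes' := by
        intro r
        change (Algebra.TensorProduct.includeLeftRingHom : Γ →+* Γ ⊗[k] Γ)
          (π (algebraMap k[X] A r)) = _
        rw [hπ.algMap, hT]
        rfl }
  have hf : ∀ a, f a = π a ⊗ₜ 1 := fun a => rfl
  let g : Aᵐᵒᵖ →ₐ[k[X]] Γ ⊗[k] Γ :=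
    { ((Algebra.TensorProduct.includeRight : Γ →ₐ[k] Γ ⊗[k] Γ) : Γ →+* Γ ⊗[k] Γ).comp
        (RingHom.fromOpposite π (fun x y => mul_comm (π x) (π y))) with
      commutes' := by
        intro r
        change (Algebra.TensorProduct.includeRight : Γ →ₐ[k] Γ ⊗[k] Γ)
          (π (algebraMap k[X] A r)) = _
        rw [hπ.algMap, hT, AlgHom.commutes] }
  have hg : ∀ b, g (MulOpposite.op b) = 1 ⊗ₜ π b := fun b => rfl
  have hcm : ∀ x y, Commute (f x) (g y) := fun x y => Commute.all _ _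
  let F : (A ⊗[k[X]] Aᵐᵒᵖ) →ₐ[k[X]] Γ ⊗[k] Γ := Algebra.TensorProduct.lift f g hcm
  have hF : ∀ a b, F (a ⊗ₜ MulOpposite.op b) = π a ⊗ₜ π b := by
    intro a b
    change Algebra.TensorProduct.lift f g hcm (a ⊗ₜ MulOpposite.op b) = _
    rw [Algebra.TensorProduct.lift_tmul, hf, hg, Algebra.TensorProduct.tmul_mul_tmul, mul_one,
      one_mul]
  have hX : ∀ x : Γ ⊗[k] Γ, tX k • x = 0 := by
    intro x
    rw [Algebra.smul_def, hT]
    have : ev0 k (tX k) = 0 := by simp [ev0]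
    rw [this, map_zero, zero_mul]
  refine ⟨F.toRingHom, ⟨?_, ?_, ?_, ?_, ?_⟩, hF⟩
  · -- regularity
    intro x hx
    have hfl : Module.Flat k[X] A := flat_of_comp hπ.reg hc
    have hinj : Function.Injective (LinearMap.lsmul k[X] Aᵐᵒᵖ (tX k)) := by
      rw [injective_iff_map_eq_zero]
      intro y hy
      rw [LinearMap.lsmul_apply] at hy
      apply MulOpposite.unop_injective
      apply hπ.reg
      rw [← MulOpposite.unop_smul, hy, MulOpposite.unop_zero]
    have h2 := Module.Flat.lTensor_preserves_injective_linearMap (M := A) _ hinj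
    have h3 : ∀ z : A ⊗[k[X]] Aᵐᵒᵖ,
        LinearMap.lTensor A (LinearMap.lsmul k[X] Aᵐᵒᵖ (tX k)) z = tX k • z := by
      intro z
      induction z using TensorProduct.induction_on with
      | zero => rw [map_zero, smul_zero]
      | tmul a b => rw [LinearMap.lTensor_tmul, LinearMap.lsmul_apply, TensorProduct.tmul_smul]
      | add x y hx hy => rw [map_add, hx, hy, smul_add]
    apply h2
    rw [h3, hx, map_zero]
  · intro t
    induction t using TensorProduct.induction_on with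
    | zero => exact ⟨0, map_zero _⟩
    | tmul x y =>
      obtain ⟨a, rfl⟩ := hπ.surj x
      obtain ⟨b, rfl⟩ := hπ.surj y
      exact ⟨a ⊗ₜ MulOpposite.op b, hF a b⟩
    | add x y hx hy =>
      obtain ⟨u, rfl⟩ := hx
      obtain ⟨v, rfl⟩ := hy
      exact ⟨u + v, map_add _ _ _⟩
  · intro u hu
    have hu' : F u = 0 := hu
    let N : Submodule k[X] (A ⊗[k[X]] Aᵐᵒᵖ) :=
      LinearMap.range (LinearMap.lsmul k[X] (A ⊗[k[X]] Aᵐᵒᵖ) (tX k))
    let i2 : Module k ((A ⊗[k[X]] Aᵐᵒᵖ) ⧸ N) :=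
      Module.compHom _ (Polynomial.C : k →+* k[X])
    have hsm : ∀ (c : k) (x : (A ⊗[k[X]] Aᵐᵒᵖ) ⧸ N), c • x = (Polynomial.C c : k[X]) • x :=
      fun _ _ => rfl
    choose s hs using hπ.surj
    have hkey : ∀ a a' b b' : A, π a = π a' → π b = π b' →
        (Submodule.Quotient.mk (a ⊗ₜ[k[X]] MulOpposite.op b) : (A ⊗[k[X]] Aᵐᵒᵖ) ⧸ N) =
          Submodule.Quotient.mk (a' ⊗ₜ[k[X]] MulOpposite.op b') :=
      fun a a' b b' h h' => TENS_mk hπ h h'
    have hpc : ∀ (c : k) (a : A), π ((Polynomial.C c : k[X]) • a) = c • π a := by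
      intro c a
      rw [Algebra.smul_def, map_mul, hπ.scal, Algebra.smul_def]
    let L : Γ ⊗[k] Γ →ₗ[k] ((A ⊗[k[X]] Aᵐᵒᵖ) ⧸ N) := TensorProduct.lift
      (LinearMap.mk₂ k
        (fun x y => (Submodule.Quotient.mk (s x ⊗ₜ[k[X]] MulOpposite.op (s y)) :
          (A ⊗[k[X]] Aᵐᵒᵖ) ⧸ N))
        (fun x x' y => by
          rw [← Submodule.Quotient.mk_add, ← TensorProduct.add_tmul]
          exact hkey _ _ _ _ (by rw [map_add, hs, hs, hs]) rfl)
        (fun c x y => by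
          rw [hsm, ← Submodule.Quotient.mk_smul, TensorProduct.smul_tmul']
          exact hkey _ _ _ _ (by rw [hpc, hs, hs]) rfl)
        (fun x y y' => by
          rw [← Submodule.Quotient.mk_add, ← TensorProduct.tmul_add, ← MulOpposite.op_add]
          exact hkey _ _ _ _ rfl (by rw [map_add, hs, hs, hs]))
        (fun c x y => by
          rw [hsm, ← Submodule.Quotient.mk_smul, ← TensorProduct.tmul_smul,
            ← MulOpposite.op_smul]
          exact hkey _ _ _ _ rfl (by rw [hpc, hs, hs])))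
    have hL : ∀ a b, L (π a ⊗ₜ π b) = Submodule.Quotient.mk (a ⊗ₜ[k[X]] MulOpposite.op b) := by
      intro a b
      change TensorProduct.lift _ (π a ⊗ₜ π b) = _
      rw [TensorProduct.lift.tmul, LinearMap.mk₂_apply]
      exact hkey _ _ _ _ (hs _) (hs _)
    have hLF : ∀ v, L (F v) = Submodule.Quotient.mk v := by
      intro v
      induction v using TensorProduct.induction_on with
      | zero => rw [map_zero, map_zero, Submodule.Quotient.mk_zero]
      | tmul a b =>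
        obtain ⟨b, rfl⟩ := MulOpposite.op_surjective b
        rw [hF, hL]
      | add x y hx hy => rw [map_add, map_add, hx, hy, Submodule.Quotient.mk_add]
    have h5 : (Submodule.Quotient.mk u : (A ⊗[k[X]] Aᵐᵒᵖ) ⧸ N) = 0 := by
      rw [← hLF, hu', map_zero]
    rw [Submodule.Quotient.mk_eq_zero, LinearMap.mem_range] at h5
    obtain ⟨v, hv⟩ := h5
    exact ⟨v, by rw [← hv, LinearMap.lsmul_apply]⟩
  · intro b
    change F (tX k • b) = 0
    rw [map_smul, hX]
  · intro c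
    change F (algebraMap k[X] _ (Polynomial.C c)) = _
    rw [AlgHom.commutes, hT]
    have : ev0 k (Polynomial.C c) = c := by simp [ev0]
    rw [this]

end C74
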