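import Pool.Agent.MP_35f30a_al.C74.BRG
import Pool.Agent.MP_35f30a_al.C74.DOM
import Pool.Agent.MP_35f30a_al.C74.UNI
import Pool.Agent.MP_35f30a_al.C74.TENS
import Pool.Agent.MP_35f30a_al.C74.LOC3

/-!
ROW ND1.  The local ring of the diagonal over `A ⊗ Aᵒᵖ`.  Blueprint section 3.1.

`U0 := A ⊗[k[X]] Aᵐᵒᵖ` is QC over the domain `Γ ⊗ Γ` (`exists_tens`, `isDomain_tensor`).
`U := LOC(U0, complement of dI)` (`exists_loc` with `T = SI k Γ`).
`U0` acts on `A`: `(a ⊗ op b) · c = a c b`; for `u ∈ U0`: `π (u · c) = μ(πU0 u) π c`.  If `πU0 u ∉ dI` then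
`μ(πU0 u) ≠ 0` and `u` acts bijectively (`bij_of_mod`), i.e. is a unit in `End_{k[X]}(A)`, which is `X`-regular and
complete (`End_reg`, `End_comp`).  The universal property gives `act`.
`actres`: given `C ∈ U`, `πU C = [u]/[s]` with `u, s ∈ U0`; `c(s) C - c(u) ∈ X U`; apply `act` and `π`.
-/

set_option autoImplicit false

open scoped TensorProduct Polynomial
open MulOpposite (op)

namespace C74

/-- the local ring of the diagonal over `A ⊗ Aᵒᵖ`, acting on `A` -/
structure NDA (k : Type) [Field k] {A : Type} [Ring A] [Algebra k[X] A] {Γ : Type} [Field Γ]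
    [Algebra k Γ] (π : A →+* Γ) where
  U : Type
  [rU : Ring U]
  [aU : Algebra k[X] U]
  πU : U →+* SI k Γ
  l : A →ₐ[k[X]] U
  r : Aᵐᵒᵖ →ₐ[k[X]] U
  act : U →ₐ[k[X]] Module.End k[X] A
  qc : IsQC k πU
  comp : IsComp k U
  comm : ∀ a b, l a * r b = r b * l a
  resl : ∀ a, πU (l a) = algebraMap (Γ ⊗[k] Γ) (SI k Γ) (π a ⊗ₜ 1)
  resr : ∀ a, πU (r (op a)) = algebraMap (Γ ⊗[k] Γ) (SI k Γ) (1 ⊗ₜ π a)
  actl : ∀ a c, act (l a) c = a * c
  actr : ∀ a c, act (r (op a)) c = c * a
  actres : ∀ C c, π (act C c) = epsI k Γ (πU C) * π c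

attribute [instance] NDA.rU NDA.aU

variable {k : Type} [Field k]
variable {A : Type} [Ring A] [Algebra k[X] A] {Γ : Type} [Field Γ] [Algebra k Γ] {π : A →+* Γ}

theorem ND1_eps (z : Γ ⊗[k] Γ) :
    epsI k Γ (algebraMap (Γ ⊗[k] Γ) (SI k Γ) z) = Algebra.TensorProduct.lmul' k (S := Γ) z :=
  IsLocalization.lift_eq _ z

/-- `(a ⊗ op b) · c = a c b` -/
noncomputable def ND1_act0 (k : Type) [Field k] (A : Type) [Ring A] [Algebra k[X] A] :
    (A ⊗[k[X]] Aᵐᵒᵖ) →ₐ[k[X]] Module.End k[X] A := AlgHom.mulLeftRight k[X] A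

theorem ND1_act0_tmul (a b c : A) : ND1_act0 k A (a ⊗ₜ op b) c = a * c * b :=
  AlgHom.mulLeftRight_apply k[X] A a (op b) c

theorem ND1_act0_res (πU0 : (A ⊗[k[X]] Aᵐᵒᵖ) →+* (Γ ⊗[k] Γ))
    (ht : ∀ a b, πU0 (a ⊗ₜ op b) = π a ⊗ₜ π b) (u : A ⊗[k[X]] Aᵐᵒᵖ) (c : A) :
    π (ND1_act0 k A u c) = Algebra.TensorProduct.lmul' k (S := Γ) (πU0 u) * π c := by
  induction u using TensorProduct.induction_on with
  | zero => rw [map_zero, LinearMap.zero_apply, map_zero, map_zero, map_zero, zero_mul]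
  | tmul a b =>
    obtain ⟨b, rfl⟩ := MulOpposite.op_surjective b
    rw [ND1_act0_tmul, ht, Algebra.TensorProduct.lmul'_apply_tmul, map_mul, map_mul]
    ring
  | add x y hx hy =>
    rw [map_add, LinearMap.add_apply, map_add, hx, hy, map_add, map_add, add_mul]

theorem exists_nda [IsAlgClosed k] (hπ : IsQC k π) (hc : IsComp k A) : Nonempty (NDA k π) := by
  have hDom : IsDomain (Γ ⊗[k] Γ) := isDomain_tensor Γ Γ
  obtain ⟨πU0, hU0, ht⟩ := exists_tens hπ hc
  have h0 : (0 : Γ ⊗[k] Γ) ∉ (dI k Γ).primeCompl := fun h => h (Ideal.zero_mem _)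
  obtain ⟨U, _, _, πU, c, hqc, hcomp, hres, huniv⟩ :=
    exists_loc hU0 (dI k Γ).primeCompl h0 (SI k Γ)
  have hμ : ∀ u : A ⊗[k[X]] Aᵐᵒᵖ, πU0 u ∈ (dI k Γ).primeCompl →
      Algebra.TensorProduct.lmul' k (S := Γ) (πU0 u) ≠ 0 := fun u hu h =>
    hu ((mem_dI k Γ _).2 h)
  obtain ⟨act, hact⟩ := huniv (Module.End k[X] A) (End_reg hπ.reg) (End_comp hπ.reg hc)
    (ND1_act0 k A) (by
      intro u hu
      rw [Module.End.isUnit_iff]
      refine bij_of_mod hπ.reg hc _ ?_ ?_
      · intro x y hxy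
        apply hπ.ker
        have h1 : π (ND1_act0 k A u x) = 0 := by rw [hxy, hπ.kerX]
        rw [ND1_act0_res πU0 ht] at h1
        exact (mul_eq_zero.1 h1).resolve_left (hμ u hu)
      · intro y
        obtain ⟨x, hx⟩ := hπ.surj
          ((Algebra.TensorProduct.lmul' k (S := Γ) (πU0 u))⁻¹ * π y)
        obtain ⟨z, hz⟩ := hπ.ker (y - ND1_act0 k A u x) (by
          rw [map_sub, ND1_act0_res πU0 ht, hx, ← mul_assoc, mul_inv_cancel₀ (hμ u hu), one_mul,
            sub_self])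
        exact ⟨x, z, by rw [← hz]; abel⟩)
  refine ⟨{ U := U
            πU := πU
            l := c.comp Algebra.TensorProduct.includeLeft
            r := c.comp Algebra.TensorProduct.includeRight
            act := act
            qc := hqc
            comp := hcomp
            comm := ?_
            resl := ?_
            resr := ?_
            actl := ?_
            actr := ?_
            actres := ?_ }⟩
  · intro a b
    rw [AlgHom.comp_apply, AlgHom.comp_apply, ← map_mul, ← map_mul]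
    congr 1
    rw [Algebra.TensorProduct.includeLeft_apply, Algebra.TensorProduct.includeRight_apply,
      Algebra.TensorProduct.tmul_mul_tmul, Algebra.TensorProduct.tmul_mul_tmul, mul_one, one_mul,
      one_mul, mul_one]
  · intro a
    rw [AlgHom.comp_apply, hres, Algebra.TensorProduct.includeLeft_apply]
    have := ht a 1
    rw [MulOpposite.op_one, map_one] at this
    rw [this]
  · intro a
    rw [AlgHom.comp_apply, hres, Algebra.TensorProduct.includeRight_apply, ht, map_one]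
  · intro a d
    rw [AlgHom.comp_apply, hact, Algebra.TensorProduct.includeLeft_apply, ← MulOpposite.op_one,
      ND1_act0_tmul, mul_one]
  · intro a d
    rw [AlgHom.comp_apply, hact, Algebra.TensorProduct.includeRight_apply, ND1_act0_tmul, one_mul]
  · intro C y
    obtain ⟨⟨x, s⟩, hxs⟩ := IsLocalization.surj (dI k Γ).primeCompl (πU C)
    obtain ⟨u', hu'⟩ := hU0.surj x
    obtain ⟨s', hs'⟩ := hU0.surj (s : Γ ⊗[k] Γ)
    have hsm : πU0 s' ∈ (dI k Γ).primeCompl := by rw [hs']; exact s.2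
    have hxs' : πU C * algebraMap _ (SI k Γ) (s : Γ ⊗[k] Γ) = algebraMap _ (SI k Γ) x := hxs
    obtain ⟨D, hD⟩ := hqc.ker (c s' * C - c u') (by
      rw [map_sub, map_mul, hres, hres, hs', hu', mul_comm, hxs', sub_self])
    have h1 : c s' * C = c u' + tX k • D := by rw [← hD]; abel
    have h2 := congrArg act h1
    rw [map_mul, map_add, hact, hact, map_smul] at h2
    have h3 := congrArg π (LinearMap.congr_fun h2 y)
    rw [Module.End.mul_apply, LinearMap.add_apply, LinearMap.smul_apply, map_add, hπ.kerX,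
      add_zero, ND1_act0_res πU0 ht, ND1_act0_res πU0 ht, hs', hu'] at h3
    have h4 := congrArg (epsI k Γ) hxs'
    rw [map_mul, ND1_eps, ND1_eps] at h4
    have h5 : Algebra.TensorProduct.lmul' k (S := Γ) (s : Γ ⊗[k] Γ) ≠ 0 := by
      rw [← hs']; exact hμ s' hsm
    apply mul_left_cancel₀ h5
    rw [h3, ← h4]
    ring

end C74
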