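import Pool.Agent.MP_35f30a_al.C74.NREG

/-!
ROW NET.  Locally the diagonal ideal is generated by the `δ x`, `x ∈ B`.  Blueprint section 3.1.

`b ∈ Γ` separable over `k(B)`, minimal polynomial `f = Σ c_i Z^i`.  Modulo `J := (δ x : x ∈ B)` we have
`c ⊗ 1 = 1 ⊗ c` for `c ∈ k(B)` (`dl_adjoin`), so
`0 = f(b) ⊗ 1 - 1 ⊗ f(b) ≡ Σ (c_i ⊗ 1)(b^i ⊗ 1 - 1 ⊗ b^i) = s · δ b`,
`s = Σ_i (c_i ⊗ 1) Σ_{u+v=i-1} b^u ⊗ b^v`, and `μ(s) = f'(b) ≠ 0`, i.e. `s ∉ dI`.
-/

set_option autoImplicit false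

open scoped TensorProduct Polynomial

namespace C74

variable {k : Type} [Field k] {Γ : Type} [Field Γ] [Algebra k Γ]

theorem NET_derivative {E : Type} [Field E] [Algebra E Γ] (f : E[X]) (b : Γ) :
    Polynomial.aeval b (Polynomial.derivative f) =
      ∑ i ∈ Finset.range (f.natDegree + 1), algebraMap E Γ (f.coeff i) * (i * b ^ (i - 1)) := by
  conv_lhs => rw [f.as_sum_range_C_mul_X_pow]
  rw [map_sum, map_sum]
  refine Finset.sum_congr rfl fun i _ => ?_
  rw [Polynomial.derivative_C_mul_X_pow]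
  simp [mul_assoc]

theorem dl_etale (B : Set Γ) (hB' : Algebra.IsSeparable (IntermediateField.adjoin k B) Γ) (b : Γ) :
    ∃ s : Γ ⊗[k] Γ, s ∉ dI k Γ ∧
      s * dl k b ∈ Ideal.span (Set.range fun x : B => dl k (x : Γ)) := by
  classical
  have hsep : IsSeparable (IntermediateField.adjoin k B) b :=
    Algebra.IsSeparable.isSeparable (IntermediateField.adjoin k B) b
  set E := IntermediateField.adjoin k B with hE
  set f := minpoly E b with hf
  have hder : Polynomial.aeval b (Polynomial.derivative f) ≠ 0 :=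
    Polynomial.Separable.aeval_derivative_ne_zero hsep (minpoly.aeval E b)
  let x1 : Γ ⊗[k] Γ := b ⊗ₜ 1
  let y1 : Γ ⊗[k] Γ := 1 ⊗ₜ b
  let cc : ℕ → Γ := fun i => algebraMap E Γ (f.coeff i)
  refine ⟨∑ i ∈ Finset.range (f.natDegree + 1), (cc i ⊗ₜ[k] (1 : Γ)) *
    ∑ j ∈ Finset.range i, x1 ^ j * y1 ^ (i - 1 - j), ?_, ?_⟩
  · rw [mem_dI, map_sum]
    have h1 : ∀ i ∈ Finset.range (f.natDegree + 1),
        Algebra.TensorProduct.lmul' k (S := Γ) ((cc i ⊗ₜ[k] (1 : Γ)) *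
          ∑ j ∈ Finset.range i, x1 ^ j * y1 ^ (i - 1 - j)) = cc i * (i * b ^ (i - 1)) := by
      intro i _
      rw [map_mul, map_sum]
      have e1 : Algebra.TensorProduct.lmul' k (S := Γ) (cc i ⊗ₜ[k] (1 : Γ)) = cc i := by
        simp
      rw [e1]
      congr 1
      have e2 : ∀ j ∈ Finset.range i, Algebra.TensorProduct.lmul' k (S := Γ)
          (x1 ^ j * y1 ^ (i - 1 - j)) = b ^ (i - 1) := by
        intro j hj
        rw [Finset.mem_range] at hj
        rw [map_mul, map_pow, map_pow]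
        have e3 : Algebra.TensorProduct.lmul' k (S := Γ) x1 = b := by simp [x1]
        have e4 : Algebra.TensorProduct.lmul' k (S := Γ) y1 = b := by simp [y1]
        rw [e3, e4, ← pow_add]
        congr 1
        omega
      rw [Finset.sum_congr rfl e2, Finset.sum_const, Finset.card_range, nsmul_eq_mul]
    rw [Finset.sum_congr rfl h1, ← NET_derivative]
    exact hder
  · rw [Finset.sum_mul]
    have h1 : ∀ i ∈ Finset.range (f.natDegree + 1), (cc i ⊗ₜ[k] (1 : Γ)) *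
        (∑ j ∈ Finset.range i, x1 ^ j * y1 ^ (i - 1 - j)) * dl k b =
        ((cc i * b ^ i) ⊗ₜ[k] (1 : Γ)) - ((1 : Γ) ⊗ₜ[k] (cc i * b ^ i)) -
          dl k (cc i) * ((1 : Γ) ⊗ₜ[k] (b ^ i)) := by
      intro i _
      have e1 : (∑ j ∈ Finset.range i, x1 ^ j * y1 ^ (i - 1 - j)) * dl k b = x1 ^ i - y1 ^ i :=
        (Commute.all x1 y1).geom_sum₂_mul i
      have e2 : x1 ^ i = (b ^ i) ⊗ₜ[k] (1 : Γ) := by
        simp [x1, Algebra.TensorProduct.tmul_pow]
      have e3 : y1 ^ i = (1 : Γ) ⊗ₜ[k] (b ^ i) := by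
        simp [y1, Algebra.TensorProduct.tmul_pow]
      rw [mul_assoc, e1, e2, e3]
      unfold dl
      rw [mul_sub, sub_mul]
      simp only [Algebra.TensorProduct.tmul_mul_tmul, one_mul, mul_one]
      abel
    rw [Finset.sum_congr rfl h1, Finset.sum_sub_distrib, Finset.sum_sub_distrib,
      ← TensorProduct.sum_tmul, ← TensorProduct.tmul_sum]
    have h2 : ∑ i ∈ Finset.range (f.natDegree + 1), cc i * b ^ i = 0 := by
      have e1 := minpoly.aeval E b
      rw [← hf, Polynomial.aeval_eq_sum_range] at e1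
      rw [← e1]
      refine Finset.sum_congr rfl fun i _ => ?_
      rw [Algebra.smul_def]
    rw [h2, TensorProduct.zero_tmul, TensorProduct.tmul_zero, sub_self, zero_sub, neg_mem_iff]
    refine Submodule.sum_mem _ fun i _ => Ideal.mul_mem_right _ _ ?_
    have h3 := dl_adjoin (k := k) B (cc i) (f.coeff i).2
    have h4 : ((fun y : Γ => dl k y) '' B) = Set.range fun x : B => dl k (x : Γ) := by
      ext z
      simp
    rw [h4] at h3
    exact h3

/-- in the local ring of the diagonal the ideal is generated by the `δ x` -/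
theorem map_dI_eq (B : Set Γ) (hB' : Algebra.IsSeparable (IntermediateField.adjoin k B) Γ) :
    Ideal.map (algebraMap (Γ ⊗[k] Γ) (SI k Γ)) (dI k Γ) =
      Ideal.span (Set.range fun x : B => algebraMap (Γ ⊗[k] Γ) (SI k Γ) (dl k (x : Γ))) := by
  have hJ : Ideal.span (Set.range fun x : B => algebraMap (Γ ⊗[k] Γ) (SI k Γ) (dl k (x : Γ))) =
      Ideal.map (algebraMap (Γ ⊗[k] Γ) (SI k Γ)) (Ideal.span (Set.range fun x : B => dl k (x : Γ))) := by
    rw [Ideal.map_span, ← Set.range_comp]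
    rfl
  rw [hJ]
  apply le_antisymm
  · have h0 : Ideal.map (algebraMap (Γ ⊗[k] Γ) (SI k Γ)) (dI k Γ) =
        Ideal.span (algebraMap (Γ ⊗[k] Γ) (SI k Γ) '' Set.range (dl k : Γ → Γ ⊗[k] Γ)) :=
      (congrArg (Ideal.map (algebraMap (Γ ⊗[k] Γ) (SI k Γ))) (dI_eq_span k Γ)).trans
        (Ideal.map_span _ _)
    rw [h0, Ideal.span_le]
    rintro _ ⟨_, ⟨b, rfl⟩, rfl⟩
    obtain ⟨s, hs, hsb⟩ := dl_etale B hB' b
    have hu : IsUnit (algebraMap (Γ ⊗[k] Γ) (SI k Γ) s) :=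
      IsLocalization.map_units (SI k Γ) (⟨s, hs⟩ : (dI k Γ).primeCompl)
    have h1 := Ideal.mem_map_of_mem (algebraMap (Γ ⊗[k] Γ) (SI k Γ)) hsb
    rw [map_mul] at h1
    exact (Ideal.unit_mul_mem_iff_mem _ hu).1 h1
  · apply Ideal.map_mono
    rw [Ideal.span_le, dI_eq_span]
    rintro _ ⟨x, rfl⟩
    exact Ideal.subset_span ⟨(x : Γ), rfl⟩

end C74
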