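import Pool.Agent.MP_35f30a_al.C74.ND2A
import Pool.Agent.MP_35f30a_al.C74.CPR
import Pool.Agent.MP_35f30a_al.C74.BLT2
import Pool.Agent.MP_35f30a_al.C74.NET

/-!
ROW ND2.  The near-diagonal ring.  Blueprint section 3.1.

From `exists_ndm`: `E : NDM D M`.
* `U3 := BLt(E.U2, p_x)` (`exists_blt`, gap `M ≥ 4`), `p_x := E.κ (D.l (xh x) - D.r (op (xh x)))`, residues `[δ x] ∈ SI k Γ`
  (regular: `dl_reg_loc`); residue ring `MvPolynomial B (SI ⧸ (δ x))`, and `SI ⧸ (δ x) ≅ Γ` via `epsI`
  (`map_dI_eq`, `epsI_ker`; `epsI` is onto); compose with the induced iso `MvPolynomial B (SI ⧸ (δ x)) ≅ MvPolynomial B Γ`.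
* `act3 : U3 →ₐ End(O)`: `E.act (p_x)` is `c ↦ ram (xh x) * c - c * ram (xh x)`, divisible by `X^M` (`gapO`), so `= X • z_x` with
  `z_x = X^(M-1) • _` (`End_div`; `End_reg`).
* `P := COMPL(U3)` (`exists_compl`), `act` extends (`End_comp`); `l, r, κ, y` composed with `U2 → U3 → P`.
* `actres`: every `C ∈ P` is mod `X` a sum of products of elements of the image of `U2` and `y x` (monomials
  `c(u) y_{x1} ... y_{xn}`; `πP` of these span `MvPolynomial B Γ`, kernel `X P`); `act (y x)` is divisible by `X`, so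
  `πO (act (c(u) y ... ) c) = 0 = constantCoeff ..` for `n ≥ 1`; for `n = 0` it is `E.actres`.
-/

set_option autoImplicit false

open scoped TensorProduct Polynomial
open MulOpposite (op)

namespace C74

/-- the near-diagonal ring over `O = RAM(A,M)` -/
structure NDP {k : Type} [Field k] {A : Type} [Ring A] [Algebra k[X] A] {Γ : Type} [Field Γ]
    [Algebra k Γ] {π : A →+* Γ} (D : NDA k π) (M : ℕ) (B : Set Γ) (xh : B → A) where
  O : Type
  [rO : Ring O]
  [aO : Algebra k[X] O]
  πO : O →+* Γ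
  ram : A →+* O
  P : Type
  [rP : Ring P]
  [aP : Algebra k[X] P]
  πP : P →+* MvPolynomial B Γ
  l : O →ₐ[k[X]] P
  r : Oᵐᵒᵖ →ₐ[k[X]] P
  act : P →ₐ[k[X]] Module.End k[X] O
  κ : D.U →+* P
  y : B → P
  qcO : IsQC k πO
  compO : IsComp k O
  scram : IsScale k M ram
  resram : ∀ a, πO (ram a) = π a
  qcP : IsQC k πP
  compP : IsComp k P
  comm : ∀ a b, l a * r b = r b * l a
  resl : ∀ a, πP (l a) = MvPolynomial.C (πO a)
  resr : ∀ a, πP (r (op a)) = MvPolynomial.C (πO a)
  actl : ∀ a c, act (l a) c = a * c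
  actr : ∀ a c, act (r (op a)) c = c * a
  actres : ∀ C c, πO (act C c) = MvPolynomial.constantCoeff (πP C) * πO c
  scκ : IsScale k M κ
  κl : ∀ a, κ (D.l a) = l (ram a)
  κr : ∀ a, κ (D.r (op a)) = r (op (ram a))
  resκ : ∀ u, πP (κ u) = MvPolynomial.C (epsI k Γ (D.πU u))
  Xy : ∀ x, tX k • y x = κ (D.l (xh x) - D.r (op (xh x)))
  resy : ∀ x, πP (y x) = MvPolynomial.X x

attribute [instance] NDP.rO NDP.aO NDP.rP NDP.aP

variable {k : Type} [Field k]
variable {A : Type} [Ring A] [Algebra k[X] A] {Γ : Type} [Field Γ] [Algebra k Γ] {π : A →+* Γ}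

/-- the residue equivalence `SI ⧸ (δ x) ≅ Γ` -/
theorem ND2_exists_equiv (B : Set Γ) (hB' : Algebra.IsSeparable (IntermediateField.adjoin k B) Γ)
    (J : Ideal (SI k Γ))
    (hJ : J = Ideal.span (Set.range fun x : B =>
      algebraMap (Γ ⊗[k] Γ) (SI k Γ) (dl k (x : Γ)))) :
    ∃ e : (SI k Γ ⧸ J) ≃+* Γ, ∀ s, e (Ideal.Quotient.mk J s) = epsI k Γ s := by
  have hJ' : J = RingHom.ker (epsI k Γ) := by
    ext s
    rw [RingHom.mem_ker, epsI_ker, map_dI_eq B hB', hJ]
  have hsurj : Function.Surjective (epsI k Γ) := by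
    intro a
    refine ⟨algebraMap (Γ ⊗[k] Γ) (SI k Γ) (a ⊗ₜ 1), ?_⟩
    rw [epsI_tmul, mul_one]
  refine ⟨(Ideal.quotEquivOfEq hJ').trans (RingHom.quotientKerEquivOfSurjective hsurj), ?_⟩
  intro s
  simp [RingHom.quotientKerEquivOfSurjective]

theorem ND2_gap {U : Type} [Ring U] [Algebra k[X] U] {M : ℕ} (hM : 4 ≤ M) (h : Gap k M U) :
    Gap k 4 U := by
  intro a b
  obtain ⟨c, hc⟩ := h a b
  refine ⟨(tX k) ^ (M - 4) • c, ?_⟩
  rw [hc, smul_smul, ← pow_add]
  congr 2
  omega

theorem exists_ndp (hπ : IsQC k π) (hc : IsComp k A) (D : NDA k π) (M : ℕ) (hM : 4 ≤ M) (B : Set Γ)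
    (hB : AlgebraicIndependent k ((↑) : B → Γ))
    (hB' : Algebra.IsSeparable (IntermediateField.adjoin k B) Γ) (xh : B → A)
    (hxh : ∀ x, π (xh x) = (x : Γ)) : Nonempty (NDP D M B xh) := by
  obtain ⟨E⟩ := exists_ndm hπ hc D M (by omega)
  let p : B → E.U2 := fun x => E.κ (D.l (xh x) - D.r (op (xh x)))
  have hp : (fun y => E.π2 (p y)) = fun y : B => algebraMap (Γ ⊗[k] Γ) (SI k Γ) (dl k (y : Γ)) := by
    funext y
    show E.π2 (E.κ (D.l (xh y) - D.r (op (xh y)))) = _
    rw [E.resκ, map_sub, D.resl, D.resr, hxh, ← map_sub]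
    rfl
  have hreg : ∀ (F : Finset B) (x : B), x ∉ F → ∀ s : SI k Γ,
      s * E.π2 (p x) ∈ Ideal.span ((fun y => E.π2 (p y)) '' (F : Set B)) →
        s ∈ Ideal.span ((fun y => E.π2 (p y)) '' (F : Set B)) := by
    intro F x hx s h
    have hx' : E.π2 (p x) = algebraMap (Γ ⊗[k] Γ) (SI k Γ) (dl k (x : Γ)) := congrFun hp x
    rw [hx', hp] at h
    rw [hp]
    exact dl_reg_loc B hB F x hx s h
  obtain ⟨U3, rU3, aU3, π3, c3, y3, qc3, res3, Xy3, resy3, univ3⟩ :=
    exists_blt (B := B) E.qc2 (ND2_gap hM E.gap2) p hreg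
  obtain ⟨e, he⟩ := ND2_exists_equiv B hB' (Ideal.span (Set.range fun y => E.π2 (p y)))
    (by rw [hp])
  let m : MvPolynomial B (SI k Γ ⧸ Ideal.span (Set.range fun y => E.π2 (p y))) ≃+*
    MvPolynomial B Γ := MvPolynomial.mapEquiv B e
  have hmC : ∀ s, m (MvPolynomial.C (Ideal.Quotient.mk _ s)) = MvPolynomial.C (epsI k Γ s) := by
    intro s
    show MvPolynomial.map _ (MvPolynomial.C _) = _
    rw [MvPolynomial.map_C]
    congr 1
    exact he s
  have hmX : ∀ x, m (MvPolynomial.X x) = MvPolynomial.X x := by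
    intro x
    show MvPolynomial.map _ (MvPolynomial.X x) = _
    rw [MvPolynomial.map_X]
  let π3' : U3 →+* MvPolynomial B Γ := (m : _ →+* MvPolynomial B Γ).comp π3
  have hπ3' : ∀ u, π3' u = m (π3 u) := fun u => rfl
  have hres3 : ∀ u, π3' (c3 u) = MvPolynomial.C (epsI k Γ (E.π2 u)) := by
    intro u
    rw [hπ3', res3, hmC]
  have qc3' : IsQC k π3' := by
    refine ⟨qc3.reg, ?_, ?_, ?_, ?_⟩
    · intro q
      obtain ⟨u, hu⟩ := qc3.surj (m.symm q)
      exact ⟨u, by rw [hπ3', hu, m.apply_symm_apply]⟩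
    · intro a ha
      rw [hπ3'] at ha
      exact qc3.ker a (m.injective (ha.trans (map_zero m).symm))
    · intro b
      rw [hπ3', qc3.kerX, map_zero]
    · intro c
      have h1 : algebraMap k[X] U3 (Polynomial.C c) = c3 (algebraMap k[X] E.U2 (Polynomial.C c)) :=
        (c3.commutes _).symm
      rw [h1, hres3, E.qc2.scal]
      have h2 : algebraMap k (SI k Γ) c =
          algebraMap (Γ ⊗[k] Γ) (SI k Γ) ((algebraMap k Γ c) ⊗ₜ 1) := by
        rw [IsScalarTower.algebraMap_apply k (Γ ⊗[k] Γ) (SI k Γ)]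
        rfl
      rw [h2, epsI_tmul, mul_one]
      rfl
  -- the action
  have hact : ∀ x c, ∃ y, E.act (p x) c = (tX k) ^ M • y := by
    intro x c
    obtain ⟨y, hy⟩ := E.gapO (E.ram (xh x)) c
    refine ⟨y, ?_⟩
    rw [← hy]
    show E.act (E.κ (D.l (xh x) - D.r (op (xh x)))) c = _
    rw [map_sub, E.κl, E.κr, map_sub, LinearMap.sub_apply, E.actl, E.actr]
  have hregO : XReg k E.O := E.qcO.reg
  have hz : ∀ x, ∃ q : Module.End k[X] E.O, E.act (p x) = (tX k) ^ M • q := fun x =>
    End_div hregO (E.act (p x)) M (hact x)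
  choose q hq using hz
  let z : B → Module.End k[X] E.O := fun x => (tX k) ^ (M - 1) • q x
  have hzq : ∀ x, tX k • z x = E.act (p x) := by
    intro x
    show tX k • (tX k) ^ (M - 1) • q x = _
    rw [hq, smul_smul, ← pow_succ']
    congr 2
    omega
  have hz0 : ∀ x c, E.πO (z x c) = 0 := by
    intro x c
    have h1 : z x c = tX k • ((tX k) ^ (M - 2) • q x c) := by
      show ((tX k) ^ (M - 1) • q x) c = _
      rw [LinearMap.smul_apply, smul_smul, ← pow_succ']
      congr 2
      omega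
    rw [h1]
    exact E.qcO.kerX _
  obtain ⟨act3, hact3, hact3y⟩ := univ3 (Module.End k[X] E.O) (End_reg hregO) E.act z hzq
  obtain ⟨P, rP, aP, πP, cP, qcP, compP, resP, univP⟩ := exists_compl qc3'
  obtain ⟨act, hactP⟩ := univP (Module.End k[X] E.O) (End_comp hregO E.compO) act3
  have hresU : ∀ u, πP (cP (c3 u)) = MvPolynomial.C (epsI k Γ (E.π2 u)) := by
    intro u
    rw [resP, hres3]
  have hactU : ∀ u, act (cP (c3 u)) = E.act u := by
    intro u
    rw [hactP, hact3]
  have hactres : ∀ C c, E.πO (act C c) = MvPolynomial.constantCoeff (πP C) * E.πO c := by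
    have hlift : ∀ q : MvPolynomial B Γ, ∃ C : P, πP C = q ∧
        ∀ c, E.πO (act C c) = MvPolynomial.constantCoeff (πP C) * E.πO c := by
      intro q
      induction q using MvPolynomial.induction_on with
      | C a =>
        obtain ⟨u, hu⟩ := E.qc2.surj (algebraMap (Γ ⊗[k] Γ) (SI k Γ) (a ⊗ₜ 1))
        have h1 : epsI k Γ (E.π2 u) = a := by rw [hu, epsI_tmul, mul_one]
        refine ⟨cP (c3 u), by rw [hresU, h1], fun c => ?_⟩
        rw [hresU, hactU, E.actres, MvPolynomial.constantCoeff_C]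
      | add q1 q2 h1 h2 =>
        obtain ⟨C1, hC1, hC1'⟩ := h1
        obtain ⟨C2, hC2, hC2'⟩ := h2
        refine ⟨C1 + C2, by rw [map_add, hC1, hC2], fun c => ?_⟩
        rw [map_add, LinearMap.add_apply, map_add, hC1', hC2', map_add, map_add, add_mul]
      | mul_X q i h =>
        obtain ⟨C1, hC1, hC1'⟩ := h
        have hyi : πP (cP (y3 i)) = MvPolynomial.X i := by
          rw [resP, hπ3', resy3, hmX]
        refine ⟨C1 * cP (y3 i), by rw [map_mul, hC1, hyi], fun c => ?_⟩
        rw [map_mul, Module.End.mul_apply, hC1', hactP, hact3y, hz0, mul_zero, map_mul, hyi,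
          map_mul, MvPolynomial.constantCoeff_X, mul_zero, zero_mul]
    intro C c
    obtain ⟨C', hC', hC''⟩ := hlift (πP C)
    obtain ⟨b, hb⟩ := qcP.ker (C - C') (by rw [map_sub, hC', sub_self])
    have h1 : C = C' + tX k • b := by rw [← hb]; abel
    have h2 : E.πO (act C c) = E.πO (act C' c) := by
      rw [h1, map_add, LinearMap.add_apply, map_add, map_smul, LinearMap.smul_apply,
        E.qcO.kerX, add_zero]
    rw [h2, hC'', hC']
  refine ⟨{ O := E.O, πO := E.πO, ram := E.ram, P := P, πP := πP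
            l := cP.comp (c3.comp E.l)
            r := cP.comp (c3.comp E.r)
            act := act
            κ := (cP : U3 →+* P).comp ((c3 : E.U2 →+* U3).comp E.κ)
            y := fun x => cP (y3 x)
            qcO := E.qcO
            compO := E.compO
            scram := E.scram
            resram := E.resram
            qcP := qcP
            compP := compP
            comm := ?_
            resl := ?_
            resr := ?_
            actl := ?_
            actr := ?_
            actres := hactres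
            scκ := ?_
            κl := ?_
            κr := ?_
            resκ := ?_
            Xy := ?_
            resy := ?_ }⟩
  · intro a b
    show cP (c3 (E.l a)) * cP (c3 (E.r b)) = cP (c3 (E.r b)) * cP (c3 (E.l a))
    rw [← map_mul, ← map_mul, E.comm, map_mul, map_mul]
  · intro a
    show πP (cP (c3 (E.l a))) = _
    rw [hresU, E.resl, epsI_tmul, mul_one]
  · intro a
    show πP (cP (c3 (E.r (op a)))) = _
    rw [hresU, E.resr, epsI_tmul, one_mul]
  · intro a c
    show act (cP (c3 (E.l a))) c = _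
    rw [hactU, E.actl]
  · intro a c
    show act (cP (c3 (E.r (op a)))) c = _
    rw [hactU, E.actr]
  · intro t
    show cP (c3 (E.κ (algebraMap k[X] D.U t))) = _
    rw [E.scκ, c3.commutes, cP.commutes]
  · intro a
    show cP (c3 (E.κ (D.l a))) = cP (c3 (E.l (E.ram a)))
    rw [E.κl]
  · intro a
    show cP (c3 (E.κ (D.r (op a)))) = cP (c3 (E.r (op (E.ram a))))
    rw [E.κr]
  · intro u
    show πP (cP (c3 (E.κ u))) = _
    rw [hresU, E.resκ]
  · intro x
    show tX k • cP (y3 x) = cP (c3 (p x))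
    rw [← map_smul, Xy3]
  · intro x
    show πP (cP (y3 x)) = _
    rw [resP, hπ3', resy3, hmX]

end C74
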