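import Pool.Agent.MP_35f30a_al.C74.ND1
import Pool.Agent.MP_35f30a_al.C74.RAM

/-!
ROW ND2A.  The near-diagonal ring, ramified level.  Blueprint section 3.1.

`O := RAM(A, M)`, `U2 := RAM(D.U, M)` (`exists_ram`).
* `l : O →ₐ U2`: extend the scale `M` hom `a ↦ ram (D.l a)`.  `r : Oᵐᵒᵖ →ₐ U2`: the scale `M` ring hom
  `A →+* U2ᵐᵒᵖ`, `a ↦ op (ram (D.r (op a)))` extends to `O →ₐ U2ᵐᵒᵖ`; take opposites.  They commute (check on the
  elements `X^i ram a`, using `exists_ram`'s representation).  Residues: same check (`πO (X • _) = 0`).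
* `act : U2 →ₐ End_{k[X]}(O)`: for `q ∈ End_{k[X]}(A)` let `q̃ (Σ_{i<M} X^i ram (c_i)) := Σ X^i ram (q c_i)` (the
  representation is unique); it is `k[X]`-linear (`X^M • ram a = ram (X • a)`), and `q ↦ q̃` is a ring hom of scale `M`; compose
  with `D.act` and extend by the universal property of `RAM(D.U, M)`.
* `actres`: `C = Σ X^i ram (u_i)`: mod `X` only `u_0` matters; `D.actres`.
-/

set_option autoImplicit false

open scoped TensorProduct Polynomial
open MulOpposite (op)

namespace C74

/-- the ramified level of the near-diagonal ring -/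
structure NDM {k : Type} [Field k] {A : Type} [Ring A] [Algebra k[X] A] {Γ : Type} [Field Γ]
    [Algebra k Γ] {π : A →+* Γ} (D : NDA k π) (M : ℕ) where
  O : Type
  [rO : Ring O]
  [aO : Algebra k[X] O]
  πO : O →+* Γ
  ram : A →+* O
  U2 : Type
  [rU2 : Ring U2]
  [aU2 : Algebra k[X] U2]
  π2 : U2 →+* SI k Γ
  l : O →ₐ[k[X]] U2
  r : Oᵐᵒᵖ →ₐ[k[X]] U2
  act : U2 →ₐ[k[X]] Module.End k[X] O
  κ : D.U →+* U2
  qcO : IsQC k πO
  compO : IsComp k O
  gapO : Gap k M O
  scram : IsScale k M ram
  resram : ∀ a, πO (ram a) = π a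
  qc2 : IsQC k π2
  gap2 : Gap k M U2
  comm : ∀ a b, l a * r b = r b * l a
  resl : ∀ a, π2 (l a) = algebraMap (Γ ⊗[k] Γ) (SI k Γ) (πO a ⊗ₜ 1)
  resr : ∀ a, π2 (r (op a)) = algebraMap (Γ ⊗[k] Γ) (SI k Γ) (1 ⊗ₜ πO a)
  actl : ∀ a c, act (l a) c = a * c
  actr : ∀ a c, act (r (op a)) c = c * a
  actres : ∀ C c, πO (act C c) = epsI k Γ (π2 C) * πO c
  scκ : IsScale k M κ
  κl : ∀ a, κ (D.l a) = l (ram a)
  κr : ∀ a, κ (D.r (op a)) = r (op (ram a))
  resκ : ∀ u, π2 (κ u) = D.πU u

attribute [instance] NDM.rO NDM.aO NDM.rU2 NDM.aU2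

variable {k : Type} [Field k]
variable {A : Type} [Ring A] [Algebra k[X] A] {Γ : Type} [Field Γ] [Algebra k Γ] {π : A →+* Γ}

section ram

variable {A' : Type} [Ring A'] [Algebra k[X] A'] {O : Type} [Ring O] [Algebra k[X] O]
  {M : ℕ} {ram : A' →+* O}

theorem ND2A_ram_smul (hs : IsScale k M ram) (p : k[X]) (a : A') :
    ram (p • a) = sig k M p • ram a := by
  rw [Algebra.smul_def, map_mul, hs, ← Algebra.smul_def]

theorem ND2A_sig_X : sig k M (tX k) = (tX k) ^ M := Polynomial.expand_X M

theorem ND2A_ram_pow (hs : IsScale k M ram) (n : ℕ) (a : A') :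
    ram ((tX k) ^ n • a) = (tX k) ^ (M * n) • ram a := by
  rw [ND2A_ram_smul hs, map_pow, ND2A_sig_X, ← pow_mul]

theorem ND2A_pow_eq (hs : IsScale k M ram) (n : ℕ) (a : A') :
    (tX k) ^ n • ram a = (tX k) ^ (n % M) • ram ((tX k) ^ (n / M) • a) := by
  rw [ND2A_ram_pow hs, smul_smul, ← pow_add, Nat.mod_add_div]

omit [Algebra k[X] A'] in
theorem ND2A_ext (hrep : ∀ o : O, ∃! c : Fin M → A', o = ∑ i : Fin M, (tX k) ^ (i : ℕ) • ram (c i))
    {N : Type} [AddCommGroup N] [Module k[X] N] {f g : O →ₗ[k[X]] N}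
    (h : ∀ a, f (ram a) = g (ram a)) : f = g := by
  ext o
  obtain ⟨c, hc, -⟩ := hrep o
  have hc' : o = ∑ i : Fin M, (tX k) ^ (i : ℕ) • ram (c i) := hc
  rw [hc', map_sum, map_sum]
  refine Finset.sum_congr rfl fun i _ => ?_
  rw [map_smul, map_smul, h]

theorem ND2A_decomp (hM : 0 < M) (hs : IsScale k M ram)
    (hrep : ∀ o : O, ∃! c : Fin M → A', o = ∑ i : Fin M, (tX k) ^ (i : ℕ) • ram (c i)) (o : O) :
    ∃ (a : A') (b : O), o = ram a + tX k • b := by
  obtain ⟨c, hc, -⟩ := hrep o
  have hc' : o = ∑ i : Fin M, (tX k) ^ (i : ℕ) • ram (c i) := hc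
  obtain ⟨m, rfl⟩ : ∃ m, M = m + 1 := ⟨M - 1, by omega⟩
  refine ⟨c 0, ∑ i : Fin m, (tX k) ^ (i : ℕ) • ram (c i.succ), ?_⟩
  rw [hc', Fin.sum_univ_succ, Finset.smul_sum]
  congr 1
  · simp
  · refine Finset.sum_congr rfl fun i _ => ?_
    rw [smul_smul, ← pow_succ', Fin.val_succ]

theorem ND2A_exists (hM : 0 < M) (hs : IsScale k M ram)
    (hrep : ∀ o : O, ∃! c : Fin M → A', o = ∑ i : Fin M, (tX k) ^ (i : ℕ) • ram (c i))
    (q : Module.End k[X] A') : ∃ q' : Module.End k[X] O, ∀ a, q' (ram a) = ram (q a) := by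
  have hrep' := hrep
  choose rep hr1 hr2 using hrep'
  have hr1' : ∀ o, o = ∑ i : Fin M, (tX k) ^ (i : ℕ) • ram (rep o i) := hr1
  have hr2' : ∀ o (c : Fin M → A'), o = ∑ i : Fin M, (tX k) ^ (i : ℕ) • ram (c i) → c = rep o :=
    hr2
  have hadd : ∀ o o', rep (o + o') = rep o + rep o' := by
    intro o o'
    symm
    apply hr2'
    conv_lhs => rw [hr1' o, hr1' o']
    rw [← Finset.sum_add_distrib]
    refine Finset.sum_congr rfl fun i _ => ?_
    rw [← smul_add, ← map_add]
    rfl
  have hsingle : ∀ (n : ℕ) (a : A') (Q : A' → A'), Q 0 = 0 →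
      ∑ i : Fin M, (tX k) ^ (i : ℕ) • ram (Q ((Pi.single (⟨n % M, Nat.mod_lt n hM⟩ : Fin M)
        a : Fin M → A') i)) = (tX k) ^ (n % M) • ram (Q a) := by
    intro n a Q hQ
    rw [Finset.sum_eq_single (⟨n % M, Nat.mod_lt n hM⟩ : Fin M)]
    · rw [Pi.single_eq_same]
    · intro j _ hj
      rw [Pi.single_eq_of_ne hj, hQ, map_zero, smul_zero]
    · intro h
      exact absurd (Finset.mem_univ _) h
  have hpow : ∀ (n : ℕ) (a : A'), rep ((tX k) ^ n • ram a) =
      Pi.single (⟨n % M, Nat.mod_lt n hM⟩ : Fin M) ((tX k) ^ (n / M) • a) := by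
    intro n a
    symm
    apply hr2'
    exact (ND2A_pow_eq hs n a).trans (hsingle n _ id rfl).symm
  let F : O →+ O :=
    { toFun := fun o => ∑ i : Fin M, (tX k) ^ (i : ℕ) • ram (q (rep o i))
      map_zero' := by
        have h0 : rep 0 = 0 := by
          have := hadd 0 0
          rw [add_zero] at this
          exact left_eq_add.mp this
        simp [h0]
      map_add' := by
        intro o o'
        rw [hadd, ← Finset.sum_add_distrib]
        refine Finset.sum_congr rfl fun i _ => ?_
        rw [← smul_add, ← map_add, ← map_add]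
        rfl }
  have hF : ∀ (n : ℕ) (a : A'), F ((tX k) ^ n • ram a) = (tX k) ^ n • ram (q a) := by
    intro n a
    show ∑ i : Fin M, (tX k) ^ (i : ℕ) • ram (q (rep ((tX k) ^ n • ram a) i)) = _
    rw [hpow, hsingle n _ q (map_zero q), map_smul, ← ND2A_pow_eq hs]
  have hsmul : ∀ (p : k[X]) (o : O), F (p • o) = p • F o := by
    intro p o
    induction p using Polynomial.induction_on' with
    | add p1 p2 h1 h2 => rw [add_smul, map_add, h1, h2, add_smul]
    | monomial n c =>
      conv_lhs => rw [hr1' o]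
      conv_rhs => rw [hr1' o]
      rw [Finset.smul_sum, map_sum, map_sum, Finset.smul_sum]
      refine Finset.sum_congr rfl fun i _ => ?_
      have h1 : ∀ b : A', (Polynomial.monomial n c : k[X]) • (tX k) ^ (i : ℕ) • ram b =
          (tX k) ^ (n + i : ℕ) • ram (Polynomial.C c • b) := by
        intro b
        have h2 : sig k M (Polynomial.C c) = Polynomial.C c := Fr.sig_C M c
        rw [ND2A_ram_smul hs, h2, smul_smul, smul_smul, ← Polynomial.C_mul_X_pow_eq_monomial]
        congr 1
        show _ = (Polynomial.X : k[X]) ^ (n + (i : ℕ)) * _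
        rw [pow_add]
        ring
      rw [h1, hF, hF, h1, map_smul]
  exact ⟨{ toFun := F, map_add' := F.map_add, map_smul' := fun p o => hsmul p o }, fun a => by
    have := hF 0 a
    rw [pow_zero, one_smul, one_smul] at this
    exact this⟩

/-- the ring hom `End A → End O` -/
theorem ND2A_endHom (hM : 0 < M) (hs : IsScale k M ram)
    (hrep : ∀ o : O, ∃! c : Fin M → A', o = ∑ i : Fin M, (tX k) ^ (i : ℕ) • ram (c i)) :
    ∃ Φ : Module.End k[X] A' →+* Module.End k[X] O, IsScale k M Φ ∧
      ∀ q a, Φ q (ram a) = ram (q a) := by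
  choose Φ hΦ using fun q => ND2A_exists (k := k) hM hs hrep q
  refine ⟨{ toFun := Φ, map_one' := ?_, map_mul' := ?_, map_zero' := ?_, map_add' := ?_ }, ?_, hΦ⟩
  · apply ND2A_ext hrep
    intro a
    rw [hΦ]
    rfl
  · intro q q'
    apply ND2A_ext hrep
    intro a
    rw [hΦ, Module.End.mul_apply, Module.End.mul_apply, hΦ, hΦ]
  · apply ND2A_ext hrep
    intro a
    rw [hΦ]
    simp
  · intro q q'
    apply ND2A_ext hrep
    intro a
    rw [hΦ, LinearMap.add_apply, LinearMap.add_apply, hΦ, hΦ, map_add]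
  · intro p
    apply ND2A_ext hrep
    intro a
    show Φ _ (ram a) = _
    rw [hΦ, Module.algebraMap_end_apply, Module.algebraMap_end_apply, ND2A_ram_smul hs]

end ram

theorem exists_ndm (hπ : IsQC k π) (hc : IsComp k A) (D : NDA k π) (M : ℕ) (hM : 0 < M) :
    Nonempty (NDM D M) := by
  obtain ⟨O, rO, aO, πO, ram, qcO, scO, resO, gapO, compO, repO, univO⟩ := exists_ram M hM hπ
  obtain ⟨U2, rU2, aU2, π2, κ, qc2, sc2, res2, gap2, comp2, rep2, univ2⟩ := exists_ram M hM D.qc
  obtain ⟨Φ, hΦs, hΦ⟩ := ND2A_endHom hM scO repO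
  -- `l`
  obtain ⟨l, hl⟩ := univO U2 (κ.comp (D.l : A →+* D.U)) (by
    intro p
    show κ (D.l (algebraMap k[X] A p)) = _
    rw [D.l.commutes, sc2])
  have hl' : ∀ a, l (ram a) = κ (D.l a) := hl
  -- `r`
  let r0 : A →+* U2ᵐᵒᵖ :=
    { toFun := fun a => op (κ (D.r (op a)))
      map_one' := by rw [MulOpposite.op_one, map_one, map_one, MulOpposite.op_one]
      map_mul' := fun a b => by
        rw [MulOpposite.op_mul, map_mul, map_mul, MulOpposite.op_mul]
      map_zero' := by rw [MulOpposite.op_zero, map_zero, map_zero, MulOpposite.op_zero]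
      map_add' := fun a b => by
        rw [MulOpposite.op_add, map_add, map_add, MulOpposite.op_add] }
  obtain ⟨r1, hr1⟩ := univO U2ᵐᵒᵖ r0 (by
    intro p
    show op (κ (D.r (op (algebraMap k[X] A p)))) = _
    have h1 : (op (algebraMap k[X] A p) : Aᵐᵒᵖ) = algebraMap k[X] Aᵐᵒᵖ p := rfl
    rw [h1, D.r.commutes, sc2]
    rfl)
  let r : Oᵐᵒᵖ →ₐ[k[X]] U2 := AlgHom.opComm r1
  have hr : ∀ a, r (op (ram a)) = κ (D.r (op a)) := by
    intro a
    show MulOpposite.unop (r1 (ram a)) = _
    rw [hr1]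
    rfl
  -- `act`
  obtain ⟨act, hact⟩ := univ2 (Module.End k[X] O) (Φ.comp (D.act : D.U →+* Module.End k[X] A)) (by
    intro p
    show Φ (D.act (algebraMap k[X] D.U p)) = _
    rw [D.act.commutes, hΦs])
  have hact' : ∀ u a, act (κ u) (ram a) = ram (D.act u a) := by
    intro u a
    rw [hact]
    exact hΦ _ _
  -- linear version of `r`
  let rl : O →ₗ[k[X]] U2 := r.toLinearMap.comp (MulOpposite.opLinearEquiv k[X]).toLinearMap
  have hrl : ∀ o, rl o = r (op o) := fun o => rfl
  refine ⟨{ O := O, πO := πO, ram := ram, U2 := U2, π2 := π2, l := l, r := r, act := act, κ := κ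
            qcO := qcO
            compO := compO hc
            gapO := gapO
            scram := scO
            resram := resO
            qc2 := qc2
            gap2 := gap2
            comm := ?_
            resl := ?_
            resr := ?_
            actl := ?_
            actr := ?_
            actres := ?_
            scκ := sc2
            κl := fun a => (hl' a).symm
            κr := fun a => (hr a).symm
            resκ := res2 }⟩
  · intro a b
    have h1 : ∀ b : Oᵐᵒᵖ, (LinearMap.mulRight k[X] (r b)).comp l.toLinearMap =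
        (LinearMap.mulLeft k[X] (r b)).comp l.toLinearMap := by
      intro b
      apply ND2A_ext repO
      intro a
      have h2 : (LinearMap.mulLeft k[X] (l (ram a))).comp rl =
          (LinearMap.mulRight k[X] (l (ram a))).comp rl := by
        apply ND2A_ext repO
        intro b'
        show l (ram a) * r (op (ram b')) = r (op (ram b')) * l (ram a)
        rw [hl', hr, ← map_mul, ← map_mul, D.comm]
      exact LinearMap.congr_fun h2 (MulOpposite.unop b)
    exact LinearMap.congr_fun (h1 b) a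
  · intro a
    obtain ⟨a0, b, rfl⟩ := ND2A_decomp hM scO repO a
    rw [map_add, map_add, map_smul, qc2.kerX, add_zero, hl', res2, D.resl, map_add, qcO.kerX,
      add_zero, resO]
  · intro a
    obtain ⟨a0, b, rfl⟩ := ND2A_decomp hM scO repO a
    rw [MulOpposite.op_add, MulOpposite.op_smul, map_add, map_add, map_smul, qc2.kerX, add_zero,
      hr, res2, D.resr, map_add, qcO.kerX, add_zero, resO]
  · intro a c
    have h1 : act.toLinearMap.comp l.toLinearMap = LinearMap.mul k[X] O := by
      apply ND2A_ext repO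
      intro a
      apply ND2A_ext repO
      intro c
      show act (l (ram a)) (ram c) = ram a * ram c
      rw [hl', hact', D.actl, map_mul]
    exact LinearMap.congr_fun (LinearMap.congr_fun h1 a) c
  · intro a c
    have h1 : act.toLinearMap.comp rl = (LinearMap.mul k[X] O).flip := by
      apply ND2A_ext repO
      intro a
      apply ND2A_ext repO
      intro c
      show act (r (op (ram a))) (ram c) = ram c * ram a
      rw [hr, hact', D.actr, map_mul]
    exact LinearMap.congr_fun (LinearMap.congr_fun h1 a) c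
  · intro C c
    obtain ⟨u, C', rfl⟩ := ND2A_decomp hM sc2 rep2 C
    obtain ⟨a, c', rfl⟩ := ND2A_decomp hM scO repO c
    have h1 : act (κ u + tX k • C') (ram a + tX k • c') =
        ram (D.act u a) + tX k • (act (κ u) c' + act C' (ram a + tX k • c')) := by
      have hA : act (κ u + tX k • C') = act (κ u) + tX k • act C' := by rw [map_add, map_smul]
      rw [hA, LinearMap.add_apply, LinearMap.smul_apply, map_add (act (κ u)), hact',
        map_smul (act (κ u)), smul_add, add_assoc]
    rw [h1, map_add, qcO.kerX, add_zero, resO, D.actres, map_add, qc2.kerX, add_zero, res2,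
      map_add, qcO.kerX, add_zero, resO]

end C74
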