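import Pool.Agent.MP_35f30a_al.C74.NQ
import Pool.Agent.MP_35f30a_al.C74.RES3
import Pool.Agent.MP_35f30a_al.C74.J1X
import Pool.Agent.MP_35f30a_al.C74.KF4
import Pool.Agent.MP_35f30a_al.C74.KF2
import Pool.Agent.MP_35f30a_al.C74.FD4

/-!
ROW NL1.  `u`-levels and `u`-residues in `Fr Q`.  Blueprint section 2.5.

`gQ_eq`: for `T ∈ kF n` with `DRes X n T s`: `kX (algT dec T) = tz (-n) • ιT T'`, `resT T' = s`; by functoriality
(`TP.map_map`, `TP.map_congr`, `map_smulA`, `map_tz`) `gQ T = tz (-(M n)) • ιT (mapX f T')`.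
`con (tz (-s) * ι w0) j i` of this is `tz (-(M n) - (j-i) s) • ιT (con w0 j i (mapX f T'))` (`con_tz`, `con_smul`, `map_con` for `ι`).
So `uLev_crude` is immediate; `uLev_J1`: `J1`; `uRes_J1x`: `J1x`; `uRes_gQ`: `resT (mapX f T') = map i (resT T')`.
`gQ_ev_zero`: for the trivial contraction.
-/

set_option autoImplicit false

open scoped TensorProduct Polynomial

namespace C74

variable {k : Type} [Field k]

/-- composite of two functorial maps, with the compatibility proof supplied -/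
theorem NL1_map_map {R A R' A' R'' A'' : Type} [CommRing R] [Ring A] [Algebra R A] [CommRing R']
    [Ring A'] [Algebra R' A'] [CommRing R''] [Ring A''] [Algebra R'' A'']
    (σ : R →+* R') (φ : A →+* A') (h : ∀ r, φ (algebraMap R A r) = algebraMap R' A' (σ r))
    (σ' : R' →+* R'') (φ' : A' →+* A'')
    (h' : ∀ r, φ' (algebraMap R' A' r) = algebraMap R'' A'' (σ' r)) (n : ℕ) (T : TP R A n) :
    TP.map σ' φ' h' n (TP.map σ φ h n T) = TP.map (σ'.comp σ) (φ'.comp φ)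
      (fun r => by rw [RingHom.comp_apply, h, h', RingHom.comp_apply]) n T :=
  TP.map_map σ φ h σ' φ' h' _ n T

/-- two composites with the same underlying maps agree -/
theorem NL1_comm {R A R1 A1 R2 A2 R'' A'' : Type} [CommRing R] [Ring A] [Algebra R A] [CommRing R1]
    [Ring A1] [Algebra R1 A1] [CommRing R2] [Ring A2] [Algebra R2 A2] [CommRing R''] [Ring A'']
    [Algebra R'' A'']
    (σ : R →+* R1) (φ : A →+* A1) (h : ∀ r, φ (algebraMap R A r) = algebraMap R1 A1 (σ r))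
    (σ' : R1 →+* R'') (φ' : A1 →+* A'')
    (h' : ∀ r, φ' (algebraMap R1 A1 r) = algebraMap R'' A'' (σ' r))
    (τ : R →+* R2) (ψ : A →+* A2) (g : ∀ r, ψ (algebraMap R A r) = algebraMap R2 A2 (τ r))
    (τ' : R2 →+* R'') (ψ' : A2 →+* A'')
    (g' : ∀ r, ψ' (algebraMap R2 A2 r) = algebraMap R'' A'' (τ' r))
    (e1 : ∀ r, σ' (σ r) = τ' (τ r)) (e2 : ∀ a, φ' (φ a) = ψ' (ψ a)) (n : ℕ) (T : TP R A n) :
    TP.map σ' φ' h' n (TP.map σ φ h n T) = TP.map τ' ψ' g' n (TP.map τ ψ g n T) := by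
  rw [NL1_map_map, NL1_map_map]
  exact TP.map_congr _ _ _ _ _ _ (fun r => e1 r) (fun a => e2 a) n T

theorem NL1_sig {M : ℕ} (hM : 0 < M) (r : k[X]) : ev0 k (sig k M r) = ev0 k r := by
  have h1 : sig k M r = Polynomial.expand k M r := rfl
  rw [h1]
  unfold ev0
  rw [Polynomial.constantCoeff_apply, Polynomial.constantCoeff_apply,
    Polynomial.coeff_expand hM]
  simp

theorem NL1_triv {S : Type} [CommRing S] [Algebra k S] (h : (1 : S) = 0) {j : ℕ}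
    (t t' : TP k S j) : t = t' := by
  rw [← one_smul S t, ← one_smul S t', h, zero_smul, zero_smul]

section Q
variable (X : Obj k) {Q : Type} [Ring Q] [Algebra k[X] Q] {S : Type} [CommRing S] [Algebra k S]
  {πQ : Q →+* S} {M : ℕ} (f : X.dd.A1 →+* Q) (hf : IsScale k M f)

theorem NL1_gQ_map {j : ℕ} (T : TP k X.D j) :
    gQ X f hf T = TP.map (sig k M) (Fr.map f hf : Fr k X.dd.A1 →+* Fr k Q)
      (fun r => Fr.map_algebraMap f hf r) j (kX k X.dd.A1 j (algT X.dd.dec j T)) := by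
  have e1 := NL1_map_map (RingHom.id k) (X.dd.dec : X.D →+* Fr k X.dd.A1)
    (fun r => X.dd.dec.commutes r) (Polynomial.C : k →+* k[X]) (RingHom.id (Fr k X.dd.A1))
    (fun _ => rfl) j T
  have e2 := NL1_map_map (RingHom.id k) (toQ X f hf : X.D →+* Fr k Q)
    (fun r => (toQ X f hf).commutes r) (Polynomial.C : k →+* k[X]) (RingHom.id (Fr k Q))
    (fun _ => rfl) j T
  have e3 := NL1_map_map ((Polynomial.C : k →+* k[X]).comp (RingHom.id k))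
    ((RingHom.id (Fr k X.dd.A1)).comp (X.dd.dec : X.D →+* Fr k X.dd.A1))
    (fun r => X.dd.dec.commutes r) (sig k M) (Fr.map f hf : Fr k X.dd.A1 →+* Fr k Q)
    (fun r => Fr.map_algebraMap f hf r) j T
  have e4 := TP.map_congr ((Polynomial.C : k →+* k[X]).comp (RingHom.id k))
    ((RingHom.id (Fr k Q)).comp (toQ X f hf : X.D →+* Fr k Q))
    (fun r => (toQ X f hf).commutes r)
    ((sig k M).comp ((Polynomial.C : k →+* k[X]).comp (RingHom.id k)))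
    ((Fr.map f hf : Fr k X.dd.A1 →+* Fr k Q).comp
      ((RingHom.id (Fr k X.dd.A1)).comp (X.dd.dec : X.D →+* Fr k X.dd.A1)))
    (fun r => by
      rw [RingHom.comp_apply, RingHom.comp_apply, RingHom.comp_apply, RingHom.comp_apply]
      have := X.dd.dec.commutes r
      exact (congrArg (Fr.map f hf) this).trans (Fr.map_algebraMap f hf (Polynomial.C r)))
    (fun r => (Fr.sig_C M r).symm) (fun a => rfl) j T
  exact e2.trans (e4.trans (e3.symm.trans (congrArg _ e1.symm)))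

theorem NL1_map_ιT {j : ℕ} (T' : TP k[X] X.dd.A1 j) :
    TP.map (sig k M) (Fr.map f hf : Fr k X.dd.A1 →+* Fr k Q)
      (fun r => Fr.map_algebraMap f hf r) j (ιT k X.dd.A1 j T') =
      ιT k Q j (mapX f hf j T') :=
  NL1_comm (RingHom.id k[X]) ((Fr.ι : X.dd.A1 →ₐ[k[X]] Fr k X.dd.A1) : X.dd.A1 →+* Fr k X.dd.A1)
    (fun r => (Fr.ι : X.dd.A1 →ₐ[k[X]] Fr k X.dd.A1).commutes r)
    (sig k M) (Fr.map f hf : Fr k X.dd.A1 →+* Fr k Q) (fun r => Fr.map_algebraMap f hf r)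
    (sig k M) f hf (RingHom.id k[X]) ((Fr.ι : Q →ₐ[k[X]] Fr k Q) : Q →+* Fr k Q)
    (fun r => (Fr.ι : Q →ₐ[k[X]] Fr k Q).commutes r)
    (fun r => rfl) (fun a => Fr.map_ι f hf a) j T'

theorem NL1_gQ_of {j : ℕ} {n : ℤ} {T : TP k X.D j} {T' : TP k[X] X.dd.A1 j}
    (h : kX k X.dd.A1 j (algT X.dd.dec j T) = (Fr.tz (-n) : Fr k X.dd.A1) • ιT k X.dd.A1 j T') :
    gQ X f hf T = (Fr.tz (-((M : ℤ) * n)) : Fr k Q) • ιT k Q j (mapX f hf j T') := by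
  rw [NL1_gQ_map, h, TP.map_smulA, NL1_map_ιT, map_tz, mul_neg]

theorem gQ_eq {j : ℕ} {n : ℤ} {T : TP k X.D j} {s : TP k X.Γ j} (h : DRes X n T s) :
    ∃ T' : TP k[X] X.dd.A1 j, resT X.dd.qc1 j T' = s ∧
      gQ X f hf T = (Fr.tz (-((M : ℤ) * n)) : Fr k Q) • ιT k Q j (mapX f hf j T') := by
  obtain ⟨T', h1, h2⟩ := h
  exact ⟨T', h2, NL1_gQ_of X f hf h1⟩

theorem con_gQ {j i : ℕ} (hij : i ≤ j) {n : ℤ} (s : ℤ) {T : TP k X.D j}
    {T' : TP k[X] X.dd.A1 j}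
    (h : gQ X f hf T = (Fr.tz (-((M : ℤ) * n)) : Fr k Q) • ιT k Q j (mapX f hf j T')) (w0 : Q) :
    TP.con ((Fr.tz (-s) : Fr k Q) * Fr.ι w0) j i (gQ X f hf T) =
      (Fr.tz (-((M : ℤ) * n + (j - i : ℕ) * s)) : Fr k Q) •
        ιT k Q i (TP.con w0 j i (mapX f hf j T')) := by
  have h0 : ((Fr.tz (-((M : ℤ) * n + (j - i : ℕ) * s)) : Fr k Q)) =
      Fr.tz (-s * ((j - i : ℕ) : ℤ)) * Fr.tz (-((M : ℤ) * n)) := by
    rw [← Fr.tz_add]; congr 1; ring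
  have h1 : ιT k Q i (TP.con w0 j i (mapX f hf j T')) =
      TP.con (Fr.ι w0 : Fr k Q) j i (ιT k Q j (mapX f hf j T')) := by
    unfold ιT
    exact TP.map_con _ _ _ _ _ _ _
  rw [con_tz _ _ _ _ hij, h, TP.con_smul, smul_smul, h0, h1]

theorem gQ_add {j : ℕ} (T T' : TP k X.D j) :
    gQ X f hf (T + T') = gQ X f hf T + gQ X f hf T' := by
  unfold gQ
  rw [map_add, map_add]

/-- crude bound in `Fr Q` -/
theorem uLev_crude {j i : ℕ} (hij : i ≤ j) {n s : ℤ} {T : TP k X.D j} (hT : T ∈ kF k X.A j n)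
    (w0 : Q) : uLev k Q ((M : ℤ) * n + (j - i : ℕ) * s)
      (TP.con ((Fr.tz (-s) : Fr k Q) * Fr.ι w0) j i (gQ X f hf T)) := by
  obtain ⟨s0, hs0⟩ := exists_DRes hT
  obtain ⟨T', -, h⟩ := gQ_eq X f hf hs0
  exact ⟨_, con_gQ X f hf hij s h w0⟩

/-- (J1) in `Fr Q` -/
theorem uLev_J1 (hQ : IsQC k πQ) {j i : ℕ} (hij : i ≤ j) {n s : ℤ} {m : ℕ}
    (hM : (j - i) * m ≤ M) {T : TP k X.D j} (hT : OJ X n m T) (w0 : Q) :
    uLev k Q ((M : ℤ) * n + (j - i : ℕ) * (s - m))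
      (TP.con ((Fr.tz (-s) : Fr k Q) * Fr.ι w0) j i (gQ X f hf T)) := by
  obtain ⟨-, s0, hs0, hs1⟩ := hT
  obtain ⟨T', h2, h⟩ := gQ_eq X f hf hs0
  obtain ⟨V, hV⟩ := J1 X.dd.qc1 hQ f hf m j i hij hM T' (by rw [h2]; exact hs1) w0
  refine ⟨V, ?_⟩
  rw [con_gQ X f hf hij s h w0, hV, LinearMap.map_smulₛₗ, RingHom.id_apply,
    ← algebraMap_smul (Fr k Q) ((tX k) ^ ((j - i) * m)), ← Fr.tz_nat, smul_smul, ← Fr.tz_add]
  congr 2
  push_cast
  ring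

/-- residue of `gQ T` -/
theorem uRes_gQ (hQ : IsQC k πQ) {j : ℕ} {n : ℤ} {T : TP k X.D j} {s : TP k X.Γ j}
    (h : DRes X n T s) (i : X.Γ →+* S) (hi : ∀ a, πQ (f a) = i (X.dd.π1 a))
    (hik : ∀ r, i (algebraMap k X.Γ r) = algebraMap k S ((RingHom.id k) r)) :
    uRes hQ ((M : ℤ) * n) (gQ X f hf T) (TP.map (RingHom.id k) i hik j s) := by
  obtain ⟨T', h1, h2⟩ := h
  refine ⟨mapX f hf j T', NL1_gQ_of X f hf h1, ?_⟩
  rw [← h2]
  rcases Nat.eq_zero_or_pos M with hM | hM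
  · apply NL1_triv
    have h3 := hi (algebraMap k[X] X.dd.A1 (tX k))
    have h4 : X.dd.π1 (algebraMap k[X] X.dd.A1 (tX k)) = 0 := by
      rw [Algebra.algebraMap_eq_smul_one]; exact X.dd.qc1.kerX _
    have h5 : sig k M (tX k) = 1 := by
      subst hM
      have : sig k 0 (tX k) = (tX k) ^ 0 := Polynomial.expand_X 0
      rw [this, pow_zero]
    rw [hf, h5, map_one, map_one, h4, map_zero] at h3
    exact h3
  · exact NL1_comm (sig k M) f hf (ev0 k) πQ hQ.algMap (ev0 k) X.dd.π1 X.dd.qc1.algMap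
      (RingHom.id k) i hik (fun r => NL1_sig hM r) (fun a => hi a) j T'

/-- residue of elements in `Fr Q` -/
theorem res_toQ {n : ℤ} {d : X.D} {b : X.K} (h : Fr.Res X.π n d b) (i : X.Γ →+* S)
    (hi : ∀ a, πQ (f a) = i (X.dd.π1 a)) :
    Fr.Res πQ ((M : ℤ) * n) (toQ X f hf d) (i (X.mon n b)) := by
  obtain ⟨a, h1, h2⟩ := X.dd.dec_res n d b h
  refine ⟨f a, ?_, ?_⟩
  · show Fr.map f hf (X.dd.dec d) = _
    rw [h1, map_mul, map_tz, Fr.map_ι, mul_neg]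
  · rw [hi, h2]

end Q

/-- (J1x) in `Fr Q` -/
theorem uRes_J1x (X : Obj k) {Q : Type} [Ring Q] [Algebra k[X] Q] {Λ : Type}
    {πQ : Q →+* MvPolynomial Λ X.Γ} {M : ℕ} (f : X.dd.A1 →+* Q) (hf : IsScale k M f)
    (hQ : IsQC k πQ) (hcQ : IsComp k Q) (hfr : ∀ a, πQ (f a) = MvPolynomial.C (X.dd.π1 a))
    (w0 : Q) (m : ℕ) (hm : m < M)
    (hlin : ∀ T : TP k[X] X.dd.A1 1, resT X.dd.qc1 1 T ∈ Dm k X.Γ m 0 →
        ∃ u : Q, TP.ev w0 (mapX f hf 1 T) = (tX k) ^ m • u ∧ (πQ u).IsHomogeneous 1 ∧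
          (πQ u = 0 ↔ resT X.dd.qc1 1 T ∈ Dm k X.Γ (m + 1) 0))
    {j : ℕ} {n s : ℤ} {T : TP k X.D (j + 1)} (hT : OJx X n m T) :
    ∃ V : TP k (MvPolynomial Λ X.Γ) j, V ≠ 0 ∧
      uRes hQ ((M : ℤ) * n + (s - m)) (TP.con ((Fr.tz (-s) : Fr k Q) * Fr.ι w0) (j + 1) j
        (gQ X f hf T)) V := by
  obtain ⟨⟨hk, s0, hs0, hs1⟩, hT2⟩ := hT
  have hs2 : s0 ∉ JJ k X.Γ (m + 1) (j + 1) := fun hc => hT2 ⟨hk, s0, hs0, hc⟩
  obtain ⟨T', h2, h⟩ := gQ_eq X f hf hs0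
  obtain ⟨V, hV, hV0⟩ := J1x X.dd.qc1 hQ hcQ f hf hfr w0 m hm hlin j T' (by rw [h2]; exact hs1)
    (by rw [h2]; exact hs2)
  refine ⟨resT hQ j V, hV0, V, ?_, rfl⟩
  rw [con_gQ X f hf (Nat.le_succ j) s h w0, hV, LinearMap.map_smulₛₗ, RingHom.id_apply,
    ← algebraMap_smul (Fr k Q) ((tX k) ^ m), ← Fr.tz_nat, smul_smul, ← Fr.tz_add]
  congr 2
  have : (j + 1 - j : ℕ) = 1 := by omega
  rw [this]
  push_cast
  ring

end C74
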