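import Pool.Agent.MP_35f30a_al.C74.NDS
import Pool.Agent.MP_35f30a_al.C74.NL1
import Pool.Agent.MP_35f30a_al.C74.NL2

/-!
ROW NDE.  Estimates for the contractions `C_{j,i}(w) g_j` in `Fr Q`.  Blueprint section 2.5.

`L' := X.L * S.M`.  For `j ∈ Js`: `n_j := L (q0 - j r) ∈ ℤ` (`FTx_iff`), `s = L' r + N0`.
est1: `uLev_J1` with `m = N0`: `M n_j + (j-i)(s - N0) = L' (q0 - i r)`.
est2: `uLev_J1` with `m = N0 + 1`: `L' (q0 - i r) - (j-i)`.
est3: `j ∉ Js`: `uLev_crude`, `g j ∈ kF ⌊L (q0 - j r - μ0)⌋`, `(j-i) s = (j-i)(L' r + N0)`; `(j-i) N0 / L' ≤ μ0/4` (`small1`).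
est4: `uRes_J1x`.
The scalar `c`: `S.w c = tz (-s) * ι (c w0)`, and `c w0` is as good as `w0` for est1-3 (they hold for every element of `Q`);
for est4 `c ≠ 0` (`con_smulR`; the residue is multiplied by `c`).
-/

set_option autoImplicit false

open scoped TensorProduct Polynomial

namespace C74

variable {k : Type} [Field k]

section nds
variable {X : Obj k} {d : ℕ} {g : Fam X} {q0 r : ℚ} {N : ℕ} {δ : ℚ}
  (S : NDS X d g q0 r N δ)

lemma NDE_LMpos : (0 : ℚ) < (X.L : ℚ) * S.M := by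
  have h1 : 0 < X.L := X.Lpos
  have h2 : 0 < S.M := lt_of_lt_of_le (by norm_num) S.hM4
  positivity

lemma NDE_mul_le {j i m : ℕ} (hjd : j ≤ d) (hm : m ≤ N + 2) : (j - i) * m ≤ S.M := by
  refine le_trans ?_ S.hMN
  exact Nat.mul_le_mul (by omega) hm

lemma NDE_floor (L : ℕ) (q : ℚ) (n : ℤ) (h : (n : ℚ) = L * q) : ⌊(L : ℚ) * q⌋ = n := by
  rw [← h, Int.floor_intCast]

theorem NDS.est1 (c : k) {j i : ℕ} (hj : 1 ≤ j) (hjd : j ≤ d) (hij : i ≤ j)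
    (hx : X.FTx (q0 - j * r) (g j)) :
    uQ k S.Q (X.L * S.M) (q0 - i * r) (TP.con (S.w c) j i (gQ X S.f S.hf (g j))) := by
  obtain ⟨n, hn, -, -⟩ := FTx_iff.mp hx
  have hL : (X.L : ℚ) ≠ 0 := by exact_mod_cast X.Lpos.ne'
  have hn' : (n : ℚ) = X.L * (q0 - j * r) := by rw [hn]; field_simp
  have ho := S.ord j n hj hjd hx hn'
  have h := uLev_J1 X S.f S.hf S.qcQ hij (s := S.s)
    (NDE_mul_le S (i := i) hjd (le_trans S.hN0 (Nat.le_add_right N 2))) ho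
    (algebraMap k[X] S.Q (Polynomial.C c) * S.w0)
  unfold uQ
  rw [NDE_floor (X.L * S.M) (q0 - i * r) ((S.M : ℤ) * n + (j - i : ℕ) * (S.s - S.N0))]
  · exact h
  · push_cast [Nat.cast_sub hij]
    rw [hn', S.hs]
    ring

theorem NDS.est2 (c : k) {j i : ℕ} (hj : 1 ≤ j) (hjd : j ≤ d) (hij : i ≤ j)
    (hx : X.FTx (q0 - j * r) (g j))
    (ho : ∀ n : ℤ, (n : ℚ) = X.L * (q0 - j * r) → OJ X n (S.N0 + 1) (g j)) :
    uQ k S.Q (X.L * S.M) (q0 - i * r - (j - i : ℕ) / (X.L * S.M))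
      (TP.con (S.w c) j i (gQ X S.f S.hf (g j))) := by
  obtain ⟨n, hn, -, -⟩ := FTx_iff.mp hx
  have hL : (X.L : ℚ) ≠ 0 := by exact_mod_cast X.Lpos.ne'
  have hLM := (NDE_LMpos S).ne'
  have hn' : (n : ℚ) = X.L * (q0 - j * r) := by rw [hn]; field_simp
  have h := uLev_J1 X S.f S.hf S.qcQ hij (s := S.s)
    (NDE_mul_le S (i := i) (m := S.N0 + 1) hjd (by have := S.hN0; omega)) (ho n hn')
    (algebraMap k[X] S.Q (Polynomial.C c) * S.w0)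
  unfold uQ
  rw [NDE_floor (X.L * S.M) (q0 - i * r - (j - i : ℕ) / (X.L * S.M))
    ((S.M : ℤ) * n + (j - i : ℕ) * (S.s - (S.N0 + 1 : ℕ)))]
  · exact h
  · push_cast [Nat.cast_sub hij]
    have h5 : (X.L : ℚ) * S.M * (q0 - i * r - ((j : ℚ) - i) / (X.L * S.M)) =
        X.L * S.M * (q0 - i * r) - ((j : ℚ) - i) := by
      rw [mul_sub, mul_div_cancel₀ _ hLM]
    rw [h5, hn', S.hs]
    ring

theorem NDS.est3 (c : k) {j i : ℕ} (hj : 1 ≤ j) (hjd : j ≤ d) (hij : i ≤ j)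
    (hx : ¬ X.FTx (q0 - j * r) (g j)) :
    uQ k S.Q (X.L * S.M) (q0 - i * r - 3 / 4 * S.μ0)
      (TP.con (S.w c) j i (gQ X S.f S.hf (g j))) := by
  have hg := S.gap j hj hjd hx
  have h := uLev_crude X S.f S.hf hij (s := S.s) hg
    (algebraMap k[X] S.Q (Polynomial.C c) * S.w0)
  have hLM := NDE_LMpos S
  refine uLev_mono ?_ h
  rw [Int.le_floor]
  have h1 : ((⌊(X.L : ℚ) * (q0 - j * r - S.μ0)⌋ : ℤ) : ℚ) ≤ (X.L : ℚ) * (q0 - j * r - S.μ0) :=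
    Int.floor_le _
  have h2 := S.small1
  rw [div_le_iff₀ hLM] at h2
  have h3 : (((j - i : ℕ) : ℚ)) * S.N0 ≤ ((d + 1 : ℕ) * (N + 2 : ℕ) : ℚ) := by
    have : (j - i) * S.N0 ≤ (d + 1) * (N + 2) :=
      Nat.mul_le_mul (by omega) (by have := S.hN0; omega)
    exact_mod_cast this
  have hMnn : (0 : ℚ) ≤ S.M := Nat.cast_nonneg _
  have h4 := mul_le_mul_of_nonneg_left h1 hMnn
  push_cast [Nat.cast_sub hij] at h3 ⊢
  rw [S.hs]
  push_cast at h2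
  nlinarith [h4, h3, h2]

theorem NDS.est4 {c : k} (hc : c ≠ 0) {i : ℕ} (hjd : i + 1 ≤ d)
    (hx : X.FTx (q0 - (i + 1 : ℕ) * r) (g (i + 1))) {n : ℤ}
    (hn : (n : ℚ) = X.L * (q0 - (i + 1 : ℕ) * r)) (ho : ¬ OJ X n (S.N0 + 1) (g (i + 1))) :
    ∃ (V : TP k (MvPolynomial S.Λ X.Γ) i) (p : ℤ), V ≠ 0 ∧
      (p : ℚ) = X.L * S.M * (q0 - i * r) ∧
      uRes S.qcQ p (TP.con (S.w c) (i + 1) i (gQ X S.f S.hf (g (i + 1)))) V := by
  have hord := S.ord (i + 1) n (by omega) hjd hx hn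
  have hM0 : S.N0 < S.M := by
    have h1 := S.hMN
    have h2 := S.hN0
    nlinarith [Nat.zero_le d, Nat.zero_le N]
  obtain ⟨V, hV, hres⟩ := uRes_J1x X S.f S.hf S.qcQ S.compQ S.hfr S.w0 S.N0 hM0
    (S.lin S.N0 hM0) (s := S.s) ⟨hord, ho⟩
  refine ⟨c • V, (S.M : ℤ) * n + (S.s - S.N0), smul_ne_zero hc hV, ?_, ?_⟩
  · push_cast
    rw [hn, S.hs]
    push_cast
    ring
  · have hw : S.w c = (Polynomial.C c : k[X]) • ((Fr.tz (-S.s) : Fr k S.Q) * Fr.ι S.w0) := by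
      rw [NDS.w, map_mul, AlgHom.commutes, Algebra.smul_def, ← mul_assoc, ← mul_assoc,
        Fr.tz_comm]
    rw [hw, TP.con_smulR _ _ _ _ (Nat.le_succ i)]
    have hone : i + 1 - i = 1 := by omega
    rw [hone, pow_one]
    obtain ⟨T', hT', hs⟩ := hres
    refine ⟨(Polynomial.C c : k[X]) • T', ?_, ?_⟩
    · rw [hT', LinearMap.map_smulₛₗ, RingHom.id_apply, smul_comm]
    · rw [LinearMap.map_smulₛₗ, hs]
      congr 1
      simp [ev0]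

/-- size of `w` after transfer: `χ(w) ∈ F(r + N0/(L M))` -/
theorem NDS.w_lev (c : k) : S.w c ∈ Fr.lev k S.Q S.s := ⟨_, rfl⟩

/-- transfer of rational `u`-levels -/
theorem uQ_con_tr {Q A' : Type} [Ring Q] [Algebra k[X] Q] [Ring A'] [Algebra k[X] A'] {M' : ℕ}
    (hM' : 0 < M') (χ : Q →+* A') (hχ : IsScale k M' χ) (L : ℕ) (hL : 0 < L) (a : ℕ)
    (w : Fr k Q) {j i : ℕ} (hij : i ≤ j) {q : ℚ} {T : TP k[X] (Fr k Q) j}
    (h : uQ k Q L q (TP.con w j i T)) :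
    uQ k A' (L * M') (q + (j - i : ℕ) * a / (L * M'))
      (TP.con ((Fr.tz (-(a : ℤ)) : Fr k A') * Fr.map χ hχ w) j i (trT χ hχ j T)) := by
  have h1 := uLev_con_tr χ hχ (a : ℤ) w hij h
  refine uLev_mono ?_ h1
  rw [Int.le_floor]
  have h2 : ((⌊(L : ℚ) * q⌋ : ℤ) : ℚ) ≤ (L : ℚ) * q := Int.floor_le _
  have hMnn : (0 : ℚ) ≤ M' := Nat.cast_nonneg _
  have h3 := mul_le_mul_of_nonneg_left h2 hMnn
  have hLM : ((L : ℚ) * M') ≠ 0 := by
    have h4 : (0 : ℚ) < M' := by exact_mod_cast hM'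
    have h5 : (0 : ℚ) < L := by exact_mod_cast hL
    positivity
  push_cast
  rw [mul_add, mul_div_cancel₀ _ hLM]
  linarith [h3]

theorem uQ_mono {A : Type} [Ring A] [Algebra k[X] A] {L j : ℕ} {q q' : ℚ} (h : q ≤ q')
    {T : TP k[X] (Fr k A) j} (hT : uQ k A L q T) : uQ k A L q' T :=
  uLev_mono (Int.floor_le_floor (mul_le_mul_of_nonneg_left h (Nat.cast_nonneg _))) hT

/-- `k`-tensor size bounds the `u`-size, rational version -/
theorem uQ_of_FT {X' : Obj k} {j : ℕ} {q : ℚ} {T : TP k X'.D j} (hT : T ∈ X'.FT j q) :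
    uQ k X'.A X'.L q (kX k X'.A j T) := uLev_of_kF hT

end nds

end C74
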