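import Pool.Agent.MP_35f30a_al.C74.SZ2
import Pool.Agent.MP_35f30a_al.C74.FD4

set_option autoImplicit false

open scoped TensorProduct Polynomial

namespace C74

variable {k : Type} [Field k]

theorem SZ3_map_tay {X X' X'' : Obj k} (f' : Ext X' X'') (f : Ext X X') (d : ℕ) (w : X'.D)
    (g : Fam X) (i : ℕ) :
    f'.T i (f.st d w g i) = (f'.comp f).st d (f'.φ w) g i := by
  have e1 := TP.map_tay (RingHom.id k) (f'.φ : X'.D →+* X''.D) (fun r => f'.φ.commutes r) d w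
    (fun j => f.T j (g j)) i
  refine Eq.trans e1 ?_
  refine TP.tay_congr d _ _ _ (fun j _ => ?_) i
  exact (Ext.comp_T f' f j (g j)).symm

/-- `g^{(w)}` transported and shifted again -/
theorem Ext.st_st {X X' X'' : Obj k} (f' : Ext X' X'') (f : Ext X X') (d : ℕ) (w : X'.D)
    (w' : X''.D) (g : Fam X) (i : ℕ) (hi : i ≤ d) :
    f'.st d w' (f.st d w g) i = (f'.comp f).st d (f'.φ w + w') g i := by
  unfold Ext.st
  rw [← TP.tay_tay d _ _ _ i hi]
  refine TP.tay_congr d _ _ _ (fun j _ => ?_) i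
  exact SZ3_map_tay f' f d w g j

/-- `st` with base point `0` for the identity extension -/
theorem Ext.st_id {X : Obj k} (d : ℕ) (g : Fam X) (i : ℕ) (hi : i ≤ d) :
    (Ext.id X).st d 0 g i = g i := by
  unfold Ext.st
  rw [TP.tay_zero d _ i hi, Ext.id_T]

theorem Ext.st_map {X X' X'' : Obj k} (f' : Ext X' X'') (f : Ext X X') (d : ℕ) (w : X'.D)
    (g : Fam X) (i : ℕ) :
    f'.T i (f.st d w g i) = (f'.comp f).st d (f'.φ w) g i :=
  SZ3_map_tay f' f d w g i

/-- nothing above `d` -/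
theorem Ext.st_gt {X X' : Obj k} (f : Ext X X') (d : ℕ) (w : X'.D) (g : Fam X) (i : ℕ)
    (hi : d < i) : f.st d w g i = 0 :=
  TP.tay_gt d w _ i hi

/-- `Crit` only depends on `g_0, ..., g_d` -/
theorem Crit.congr {X : Obj k} {d : ℕ} {g g' : Fam X} {q0 r : ℚ} {e : ℕ}
    (h : Crit X d g q0 r e) (hg : ∀ i ≤ d, g i = g' i) : Crit X d g' q0 r e where
  one_le := h.one_le
  le_d := h.le_d
  zero := by rw [← hg 0 (Nat.zero_le _)]; exact h.zero
  le j h1 h2 := by rw [← hg j h2]; exact h.le j h1 h2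
  ex := by rw [← hg e h.le_d]; exact h.ex
  lt j h1 h2 := by rw [← hg j h2]; exact h.lt j h1 h2

/-- `Crit` is preserved by extensions (base point `0`) -/
theorem Crit.ext {X X' : Obj k} (f : Ext X X') {d : ℕ} {g : Fam X} {q0 r : ℚ} {e : ℕ}
    (h : Crit X d g q0 r e) : Crit X' d (fun j => f.T j (g j)) q0 r e where
  one_le := h.one_le
  le_d := h.le_d
  zero := (Ext.FTx_iff f _ _).2 h.zero
  le j h1 h2 := (Ext.FT_iff f _ _).2 (h.le j h1 h2)
  ex := (Ext.FTx_iff f _ _).2 h.ex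
  lt j h1 h2 := (Ext.FTlt_iff f _ _).2 (h.lt j h1 h2)

/-- inheritance of no drop -/
theorem Drop.of_ext {X X' : Obj k} (f : Ext X X') {d : ℕ} {g : Fam X} {r r' : ℚ} {e : ℕ}
    (z : X'.D) (hz : z ∈ X'.F (r + 1)) (hr : r' ≤ r) (h : Drop X' d (f.st d z g) r' e) :
    Drop X d g r e := by
  obtain ⟨X'', f', w, hw, h⟩ := h
  refine ⟨X'', f'.comp f, f'.φ z + w, Submodule.add_mem _ ((Ext.F_iff f' _ _).2 hz)
    (F_mono (by linarith) hw), ?_⟩
  rcases h with h | ⟨q', r'', e', h1, h2, h3⟩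
  · left
    rw [← h]
    exact (Ext.st_st f' f d z w g 0 (Nat.zero_le _)).symm
  · right
    exact ⟨q', r'', e', h1.trans hr, h2, h3.congr fun i hi => Ext.st_st f' f d z w g i hi⟩

/-- condition (b): `g_i` has size `< q0 - i r` for `i < e` -/
def Small {X : Obj k} (g : Fam X) (q0 r : ℚ) (e : ℕ) : Prop :=
  ∀ i < e, X.FTlt (q0 - i * r) (g i)

end C74
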