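import Pool.Agent.MP_35f30a_al.C74.NQ
import Pool.Agent.MP_35f30a_al.C74.SZ3

/-!
Definitions (no row): the setup of the ND lemma.  Blueprint section 2.5.
-/

set_option autoImplicit false

open scoped TensorProduct Polynomial

namespace C74

variable {k : Type} [Field k]

/-- the data of blueprint 2.5 (all numerical choices and the output of GEN).
`Js = {j | 1 ≤ j ≤ d, v(g_j) = q0 - j r}` -/
structure NDS (X : Obj k) (d : ℕ) (g : Fam X) (q0 r : ℚ) (N : ℕ) (δ : ℚ) where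
  M : ℕ
  N0 : ℕ
  s : ℤ
  μ0 : ℚ
  hM4 : 4 ≤ M
  hN0 : N0 ≤ N
  hMN : (d + 1) * (N + 2) ≤ M
  hs : (s : ℚ) = X.L * M * r + N0
  μ0pos : 0 < μ0
  gap : ∀ j, 1 ≤ j → j ≤ d → ¬ X.FTx (q0 - j * r) (g j) → g j ∈ X.FT j (q0 - j * r - μ0)
  small1 : ((d + 1 : ℕ) * (N + 2 : ℕ) : ℚ) / (X.L * M) ≤ μ0 / 4
  small2 : ((d + 1 : ℕ) * (N + 2 : ℕ) : ℚ) / (X.L * M) ≤ δ / 4
  small3 : ((d + 1 : ℕ) * (N + 2 : ℕ) : ℚ) / (X.L * M) ≤ 1 / 4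
  ord : ∀ (j : ℕ) (n : ℤ), 1 ≤ j → j ≤ d → X.FTx (q0 - j * r) (g j) →
    (n : ℚ) = X.L * (q0 - j * r) → OJ X n N0 (g j)
  ord' : ∃ (j : ℕ) (n : ℤ), 1 ≤ j ∧ j ≤ d ∧ X.FTx (q0 - j * r) (g j) ∧
    (n : ℚ) = X.L * (q0 - j * r) ∧ ¬ OJ X n (N0 + 1) (g j)
  Λ : Type
  Q : Type
  [rQ : Ring Q]
  [aQ : Algebra k[X] Q]
  πQ : Q →+* MvPolynomial Λ X.Γ
  f : X.dd.A1 →+* Q
  hf : IsScale k M f
  w0 : Q
  O : Type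
  [rO : Ring O]
  [aO : Algebra k[X] O]
  πO : O →+* X.Γ
  ram : X.dd.A1 →+* O
  eps : Q →ₐ[k[X]] O
  epsb : MvPolynomial Λ X.Γ →+* X.Γ
  qcQ : IsQC k πQ
  compQ : IsComp k Q
  hfr : ∀ a, πQ (f a) = MvPolynomial.C (X.dd.π1 a)
  lin : ∀ (m : ℕ), m < M → ∀ T : TP k[X] X.dd.A1 1, resT X.dd.qc1 1 T ∈ Dm k X.Γ m 0 →
        ∃ u : Q, TP.ev w0 (mapX f hf 1 T) = (tX k) ^ m • u ∧ (πQ u).IsHomogeneous 1 ∧
          (πQ u = 0 ↔ resT X.dd.qc1 1 T ∈ Dm k X.Γ (m + 1) 0)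
  qcO : IsQC k πO
  compO : IsComp k O
  hram : IsScale k M ram
  hramr : ∀ a, πO (ram a) = X.dd.π1 a
  epsf : ∀ a, eps (f a) = ram a
  epsw : eps w0 = 0
  epsC : ∀ x, epsb (MvPolynomial.C x) = x
  epsr : ∀ q, πO (eps q) = epsb (πQ q)

attribute [instance] NDS.rQ NDS.aQ NDS.rO NDS.aO

section nds
variable {X : Obj k} {d : ℕ} {g : Fam X} {q0 r : ℚ} {N : ℕ} {δ : ℚ}
  (S : NDS X d g q0 r N δ)

/-- `w = c X^{-s} w0 ∈ Fr Q` -/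
noncomputable def NDS.w (c : k) : Fr k S.Q :=
  (Fr.tz (-S.s) : Fr k S.Q) * Fr.ι (algebraMap k[X] S.Q (Polynomial.C c) * S.w0)

/-- `g_j(w)` -/
noncomputable def NDS.gw (c : k) (j : ℕ) : Fr k S.Q := TP.ev (S.w c) (gQ X S.f S.hf (g j))

/-- Case A: all `g_j(w)`, `1 ≤ j ≤ d`, have size `< q0` -/
def NDS.CaseA : Prop :=
  ∀ (j : ℕ) (n0 : ℤ), 1 ≤ j → j ≤ d → (n0 : ℚ) = X.L * S.M * q0 →
    S.gw 1 j ∈ Fr.lev k S.Q (n0 - 1)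

end nds

end C74
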