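import Pool.Agent.MP_35f30a_al.C74.NDS
import Pool.Agent.MP_35f30a_al.C74.GEN2
import Pool.Agent.MP_35f30a_al.C74.SGM

/-!
ROW NDX.  The setup of the ND lemma exists.  Blueprint section 2.5.

`r = (q0 - (q0 - e r))/e` with `L q0, L (q0 - e r) ∈ ℤ` (`FTx_iff`), so `L e r ∈ ℤ`: choose `M` a multiple of `e`.
`μ0`: for `j` with `¬ FTx`, `g j ∈ FT (q0 - j r)` (`Crit.le`) so `FTlt` (`FTlt_or_FTx`), i.e. `g j ∈ FT q'` with
`q' < q0 - j r`; take the minimum of the differences (and `1`).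
`N0 := ` the largest `m ≤ N` with `OJ X n_j m (g j)` for all `j ∈ Js` (`m = 0` works: `OJ_zero`).  `ord'`: if `N0 < N`
maximality; if `N0 = N` take `j = e` (`hN`: not `OJ (N+1)`).
`M`: a large multiple of `e`.  Then `exists_gen` for `A := X.dd.A1` (`SG_laurent`).
-/

set_option autoImplicit false

open scoped TensorProduct Polynomial

namespace C74

variable {k : Type} [Field k]

theorem NDX_mu {X : Obj k} {d : ℕ} {g : Fam X} {q0 r : ℚ} {e : ℕ} (hC : Crit X d g q0 r e) :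
    ∃ μ0 : ℚ, 0 < μ0 ∧ ∀ j, 1 ≤ j → j ≤ d → ¬ X.FTx (q0 - j * r) (g j) →
      g j ∈ X.FT j (q0 - j * r - μ0) := by
  have h1 : ∀ j : ℕ, ∃ μ : ℚ, 0 < μ ∧ (1 ≤ j → j ≤ d → ¬ X.FTx (q0 - j * r) (g j) →
      g j ∈ X.FT j (q0 - j * r - μ)) := by
    intro j
    by_cases h : 1 ≤ j ∧ j ≤ d ∧ ¬ X.FTx (q0 - j * r) (g j)
    · obtain ⟨ha, hb, hc⟩ := h
      rcases FTlt_or_FTx (hC.le j ha hb) with h | h
      · obtain ⟨q', hq', hm⟩ := h
        refine ⟨q0 - j * r - q', by linarith, fun _ _ _ => ?_⟩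
        have h2 : q0 - j * r - (q0 - j * r - q') = q' := by ring
        rw [h2]; exact hm
      · exact absurd h hc
    · exact ⟨1, one_pos, fun a b c => absurd ⟨a, b, c⟩ h⟩
  choose μ hμ hμ' using h1
  obtain ⟨j0, hj0, hmin⟩ := Finset.exists_min_image (Finset.range (d + 1)) μ ⟨0, by simp⟩
  refine ⟨μ j0, hμ j0, fun j hj hjd hn => ?_⟩
  have h2 := hmin j (Finset.mem_range.mpr (by omega))
  exact FT_mono (by linarith) (hμ' j hj hjd hn)

theorem NDX_N0 {X : Obj k} {d : ℕ} {g : Fam X} {q0 r : ℚ} {e : ℕ} (hC : Crit X d g q0 r e)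
    {N : ℕ} {ne : ℤ} (hne : (ne : ℚ) = X.L * (q0 - e * r)) (hN : OJx X ne N (g e)) :
    ∃ N0 : ℕ, N0 ≤ N ∧ (∀ (j : ℕ) (n : ℤ), 1 ≤ j → j ≤ d → X.FTx (q0 - j * r) (g j) →
      (n : ℚ) = X.L * (q0 - j * r) → OJ X n N0 (g j)) ∧
      (∃ (j : ℕ) (n : ℤ), 1 ≤ j ∧ j ≤ d ∧ X.FTx (q0 - j * r) (g j) ∧
        (n : ℚ) = X.L * (q0 - j * r) ∧ ¬ OJ X n (N0 + 1) (g j)) := by
  classical
  have hL : (X.L : ℚ) ≠ 0 := by exact_mod_cast X.Lpos.ne'
  let P : ℕ → Prop := fun m => ∀ (j : ℕ) (n : ℤ), 1 ≤ j → j ≤ d → X.FTx (q0 - j * r) (g j) →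
      (n : ℚ) = X.L * (q0 - j * r) → OJ X n m (g j)
  have h0 : P 0 := by
    intro j n hj hjd hx hn
    apply OJ_zero
    obtain ⟨n', hn', hm, -⟩ := FTx_iff.mp hx
    have h1 : n = n' := by
      have h2 : (n : ℚ) = (n' : ℚ) := by
        rw [hn, hn']; field_simp
      exact_mod_cast h2
    rw [h1]; exact hm
  refine ⟨Nat.findGreatest P N, Nat.findGreatest_le N, ?_, ?_⟩
  · exact Nat.findGreatest_spec (P := P) (Nat.zero_le N) h0
  · rcases (Nat.findGreatest_le (P := P) N).lt_or_eq with h | h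
    · have h1 := Nat.findGreatest_is_greatest (P := P) (Nat.lt_succ_self _) h
      by_contra hcon
      apply h1
      intro j n hj hjd hx hn
      by_contra hno
      exact hcon ⟨j, n, hj, hjd, hx, hn, hno⟩
    · rw [h]
      exact ⟨e, ne, hC.one_le, hC.le_d, hC.ex, hne, hN.2⟩

/-- the setup exists -/
theorem exists_NDS [IsAlgClosed k] {X : Obj k} {d : ℕ} {g : Fam X} {q0 r : ℚ} {e : ℕ}
    (hC : Crit X d g q0 r e) {N : ℕ} {ne : ℤ}
    (hne : (ne : ℚ) = X.L * (q0 - e * r)) (hN : OJx X ne N (g e)) {δ : ℚ} (hδ : 0 < δ) :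
    Nonempty (NDS X d g q0 r N δ) := by
  classical
  have hL : (0 : ℚ) < X.L := by exact_mod_cast X.Lpos
  have hL1 : (1 : ℚ) ≤ X.L := by exact_mod_cast X.Lpos
  have he : 1 ≤ e := hC.one_le
  obtain ⟨n0, hn0, -, -⟩ := FTx_iff.mp hC.zero
  have hLer : (X.L : ℚ) * (e * r) = ((n0 - ne : ℤ) : ℚ) := by
    push_cast
    rw [hne, hn0]
    field_simp
    ring
  obtain ⟨μ0, hμ0, hgap⟩ := NDX_mu hC
  obtain ⟨N0, hN0, hord, hord'⟩ := NDX_N0 hC hne hN
  set ε : ℚ := min (min μ0 δ) 1 with hε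
  have hεpos : 0 < ε := lt_min (lt_min hμ0 hδ) one_pos
  obtain ⟨K1, hK1⟩ := exists_nat_gt (((d + 1 : ℕ) * (N + 2 : ℕ) : ℚ) * 4 / ε)
  set K0 : ℕ := K1 + 4 + (d + 1) * (N + 2) with hK0
  set M : ℕ := e * K0 with hM
  have hMK : K0 ≤ M := by
    rw [hM]; exact Nat.le_mul_of_pos_left _ he
  have hM4 : 4 ≤ M := le_trans (by omega) hMK
  have hMN : (d + 1) * (N + 2) ≤ M := le_trans (by rw [hK0]; exact Nat.le_add_left _ _) hMK
  have hMpos : (0 : ℚ) < M := by exact_mod_cast (by omega : 0 < M)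
  have hsm : ((d + 1 : ℕ) * (N + 2 : ℕ) : ℚ) / (X.L * M) ≤ ε / 4 := by
    rw [div_le_iff₀ (mul_pos hL hMpos)]
    have h1 : ((d + 1 : ℕ) * (N + 2 : ℕ) : ℚ) * 4 / ε ≤ M := by
      refine le_trans hK1.le ?_
      exact_mod_cast le_trans (by omega : K1 ≤ K0) hMK
    rw [div_le_iff₀ hεpos] at h1
    have h2 : (M : ℚ) * ε ≤ X.L * M * ε := by
      nlinarith [mul_pos hMpos hεpos]
    nlinarith
  obtain ⟨Λ, Q, rQ, aQ, πQ, f, hf, w0, O, rO, aO, πO, ram, eps, epsb, hQ, hcQ, hfr, hlin,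
    hO, hcO, hram, hramr, hepsf, hepsw, hepsC, hepsr⟩ :=
    exists_gen X.dd.qc1 X.dd.comp1 (SG_laurent X) M hM4
  refine ⟨{
    M := M
    N0 := N0
    s := (K0 : ℤ) * (n0 - ne) + N0
    μ0 := μ0
    hM4 := hM4
    hN0 := hN0
    hMN := hMN
    hs := ?_
    μ0pos := hμ0
    gap := hgap
    small1 := ?_
    small2 := ?_
    small3 := ?_
    ord := hord
    ord' := hord'
    Λ := Λ
    Q := Q
    rQ := rQ
    aQ := aQ
    πQ := πQ
    f := f
    hf := hf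
    w0 := w0
    O := O
    rO := rO
    aO := aO
    πO := πO
    ram := ram
    eps := eps
    epsb := epsb
    qcQ := hQ
    compQ := hcQ
    hfr := hfr
    lin := hlin
    qcO := hO
    compO := hcO
    hram := hram
    hramr := hramr
    epsf := hepsf
    epsw := hepsw
    epsC := hepsC
    epsr := hepsr
  }⟩
  · have h1 : ((((K0 : ℤ) * (n0 - ne) + N0 : ℤ)) : ℚ) = K0 * ((n0 - ne : ℤ) : ℚ) + N0 := by
      push_cast; ring
    rw [h1, ← hLer, hM]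
    push_cast
    ring
  · refine le_trans hsm ?_
    have : ε ≤ μ0 := le_trans (min_le_left _ _) (min_le_left _ _)
    linarith
  · refine le_trans hsm ?_
    have : ε ≤ δ := le_trans (min_le_left _ _) (min_le_right _ _)
    linarith
  · refine le_trans hsm ?_
    have : ε ≤ 1 := min_le_right _ _
    linarith

end C74
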