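import Pool.Agent.MP_35f30a_al.C74.State
import Pool.Agent.MP_35f30a_al.C74.MAPX

/-!
Definitions (no row): `D → Fr Q`, transfer along a scale `M'` ring hom.
-/

set_option autoImplicit false

open scoped TensorProduct Polynomial

namespace C74

variable {k : Type} [Field k]

section Q
variable (X : Obj k) {Q : Type} [Ring Q] [Algebra k[X] Q] {M : ℕ} (f : X.dd.A1 →+* Q)
  (hf : IsScale k M f)

/-- `D → Fr Q` -/
noncomputable def toQ : X.D →ₐ[k] Fr k Q := (Fr.mapk f hf).comp X.dd.dec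

/-- `T_j^k(D) → T_j^{k[X]}(Fr Q)` -/
noncomputable def gQ {j : ℕ} (T : TP k X.D j) : TP k[X] (Fr k Q) j :=
  kX k Q j (algT (toQ X f hf) j T)

end Q

section transfer
variable {Q : Type} [Ring Q] [Algebra k[X] Q] {A' : Type} [Ring A'] [Algebra k[X] A'] {M' : ℕ}
  (χ : Q →+* A') (hχ : IsScale k M' χ)

/-- `T_j^{k[X]}(Fr Q) → T_j^{k[X]}(Fr A')` -/
noncomputable def trT (j : ℕ) : TP k[X] (Fr k Q) j →ₛₗ[sig k M'] TP k[X] (Fr k A') j :=
  TP.map (sig k M') (Fr.map χ hχ) (fun r => Fr.map_algebraMap χ hχ r) j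

end transfer

/-- rational `u`-level with total scale `L` -/
def uQ (k : Type) [Field k] (A : Type) [Ring A] [Algebra k[X] A] (L : ℕ) {j : ℕ} (q : ℚ)
    (T : TP k[X] (Fr k A) j) : Prop := uLev k A ⌊(L : ℚ) * q⌋ T

end C74
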