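import Pool.Agent.MP_35f30a_al.C74.BRG

/-!
ROW NREG.  The `δ x`, `x ∈ B`, form a regular family in every order.  Blueprint section 3.1 (Regularity).

Let `E := k(F) ⊆ Γ` (`IntermediateField.adjoin k (F)`).
(1) For `c ∈ E`: `δ c ∈ (δ y : y ∈ F)`: true for `c ∈ k[F]` (`δ(uv) = (u ⊗ 1) δ v + (1 ⊗ v) δ u`), and for
`c = u/v`: `δ(u/v) = (v⁻¹ ⊗ v⁻¹)(u ⊗ v - v ⊗ u)`, `u ⊗ v - v ⊗ u = (1 ⊗ v) δ u - (1 ⊗ u) δ v`.
(2) The kernel of `Γ ⊗_k Γ → Γ ⊗_E Γ` is generated by the `δ c`, `c ∈ E`; by (1) it is `(δ y : y ∈ F)`.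
(3) `δ x` is a nonzerodivisor on `Γ ⊗_E Γ`: if `(x ⊗ 1) T = (1 ⊗ x) T`, the `E`-span of the coordinates
(left factor) of `T` is finite dimensional and stable under `x`, which is transcendental over `E`.
-/

set_option autoImplicit false

open scoped TensorProduct Polynomial IntermediateField.algebraAdjoinAdjoin

namespace C74

variable {k : Type} [Field k] {Γ : Type} [Field Γ] [Algebra k Γ]

/-- step (1) -/
theorem dl_adjoin (F : Set Γ) (c : Γ) (hc : c ∈ IntermediateField.adjoin k F) :
    dl k c ∈ Ideal.span ((fun y : Γ => dl k y) '' F) := by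
  induction hc using IntermediateField.adjoin_induction with
  | mem x hx => exact Ideal.subset_span ⟨x, hx, rfl⟩
  | algebraMap r =>
    have h : dl k (algebraMap k Γ r) = 0 := by
      unfold dl
      rw [Algebra.algebraMap_eq_smul_one, TensorProduct.smul_tmul, sub_self]
    rw [h]
    exact Ideal.zero_mem _
  | add x y _ _ hx hy =>
    have h : dl k (x + y) = dl k x + dl k y := by
      unfold dl
      rw [TensorProduct.add_tmul, TensorProduct.tmul_add]
      ring
    rw [h]
    exact Ideal.add_mem _ hx hy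
  | inv x _ hx =>
    by_cases h0 : x = 0
    · subst h0
      rwa [inv_zero]
    · have h : dl k x⁻¹ = -((x⁻¹ ⊗ₜ[k] x⁻¹) * dl k x) := by
        unfold dl
        rw [mul_sub, Algebra.TensorProduct.tmul_mul_tmul, Algebra.TensorProduct.tmul_mul_tmul,
          inv_mul_cancel₀ h0, mul_one, neg_sub]
      rw [h]
      exact neg_mem (Ideal.mul_mem_left _ _ hx)
  | mul x y _ _ hx hy =>
    have h : dl k (x * y) = (x ⊗ₜ[k] 1) * dl k y + (1 ⊗ₜ[k] y) * dl k x := by
      unfold dl
      simp only [mul_sub, Algebra.TensorProduct.tmul_mul_tmul, mul_one, one_mul]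
      rw [mul_comm y]
      ring_nf
    rw [h]
    exact Ideal.add_mem _ (Ideal.mul_mem_left _ _ hy) (Ideal.mul_mem_left _ _ hx)

theorem NREG_smul (E : IntermediateField k Γ) (x : Γ) (T : Γ ⊗[E] Γ) :
    (x ⊗ₜ[E] (1 : Γ)) * T = x • T := by
  induction T using TensorProduct.induction_on with
  | zero => rw [mul_zero, smul_zero]
  | tmul a b =>
    rw [Algebra.TensorProduct.tmul_mul_tmul, one_mul, TensorProduct.smul_tmul', smul_eq_mul]
  | add a b ha hb => rw [mul_add, smul_add, ha, hb]

theorem NREG_smulE (E : IntermediateField k Γ) (c : E) (T : Γ ⊗[k] Γ) :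
    c • T = ((c : Γ) ⊗ₜ[k] (1 : Γ)) * T := by
  induction T using TensorProduct.induction_on with
  | zero => rw [mul_zero, smul_zero]
  | tmul a b =>
    rw [Algebra.TensorProduct.tmul_mul_tmul, one_mul]
    rfl
  | add a b ha hb => rw [mul_add, smul_add, ha, hb]

/-- step (3) -/
theorem NREG_reg (E : IntermediateField k Γ) (x : Γ) (hx : Transcendental E x) (T : Γ ⊗[E] Γ)
    (h : (x ⊗ₜ[E] (1 : Γ)) * T = ((1 : Γ) ⊗ₜ[E] x) * T) : T = 0 := by
  classical
  by_contra hT
  let b := Module.Basis.ofVectorSpace E Γ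
  let bb := Algebra.TensorProduct.basis Γ b
  let a := bb.repr T
  have ha : a ≠ 0 := by
    intro h0
    exact hT (bb.repr.map_eq_zero_iff.mp h0)
  let V : Submodule E Γ := Submodule.span E (a.support.image a : Finset Γ)
  have hmem : ∀ i, a i ∈ V := by
    intro i
    by_cases hi : i ∈ a.support
    · exact Submodule.subset_span (Finset.mem_coe.mpr (Finset.mem_image_of_mem _ hi))
    · rw [Finsupp.notMem_support_iff.mp hi]
      exact V.zero_mem
  have hT' : T = a.sum fun j c => c • bb j := (bb.linearCombination_repr T).symm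
  have key : ∀ i, x * a i ∈ V := by
    intro i
    have h1 : bb.repr ((x ⊗ₜ[E] (1 : Γ)) * T) i = x * a i := by
      rw [NREG_smul, map_smul]
      rfl
    have h2 : bb.repr (((1 : Γ) ⊗ₜ[E] x) * T) i =
        a.sum fun j c => c * algebraMap E Γ (b.repr (x * b j) i) := by
      have h3 : ((1 : Γ) ⊗ₜ[E] x) * T = a.sum fun j c => c • ((1 : Γ) ⊗ₜ[E] (x * b j)) := by
        conv_lhs => rw [hT']
        rw [Finsupp.sum, Finsupp.sum, Finset.mul_sum]
        refine Finset.sum_congr rfl fun j _ => ?_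
        rw [mul_smul_comm]
        congr 1
        rw [Algebra.TensorProduct.basis_apply, Algebra.TensorProduct.tmul_mul_tmul, one_mul]
      rw [h3, Finsupp.sum, Finsupp.sum, map_sum, Finsupp.finsetSum_apply]
      refine Finset.sum_congr rfl fun j _ => ?_
      rw [map_smul, Finsupp.smul_apply, Algebra.TensorProduct.basis_repr_tmul]
      simp
    rw [← h1, h, h2, Finsupp.sum]
    refine Submodule.sum_mem _ fun j _ => ?_
    rw [mul_comm, ← Algebra.smul_def]
    exact V.smul_mem _ (hmem j)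
  have hV : V ≠ ⊥ := by
    intro h0
    apply ha
    ext i
    have := hmem i
    rw [h0, Submodule.mem_bot] at this
    exact this
  have hint : IsIntegral E x := by
    refine isIntegral_of_smul_mem_submodule (A := Γ) V hV ⟨_, rfl⟩ x ?_
    intro n hn
    induction hn using Submodule.span_induction with
    | mem y hy =>
      obtain ⟨i, _, rfl⟩ := Finset.mem_image.mp (Finset.mem_coe.mp hy)
      exact key i
    | zero => rw [smul_zero]; exact V.zero_mem
    | add y z _ _ hy hz => rw [smul_add]; exact V.add_mem hy hz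
    | smul c y _ hy => rw [smul_comm]; exact V.smul_mem _ hy
  exact hx hint.isAlgebraic

theorem dl_reg (B : Set Γ) (hB : AlgebraicIndependent k ((↑) : B → Γ)) (F : Finset B) (x : B)
    (hx : x ∉ F) (s : Γ ⊗[k] Γ)
    (h : s * dl k (x : Γ) ∈ Ideal.span ((fun y : B => dl k (y : Γ)) '' (F : Set B))) :
    s ∈ Ideal.span ((fun y : B => dl k (y : Γ)) '' (F : Set B)) := by
  have himg : (fun y : B => dl k (y : Γ)) '' (F : Set B) =
      (fun y : Γ => dl k y) '' (((↑) : B → Γ) '' (F : Set B)) := by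
    rw [Set.image_image]
  rw [himg] at h ⊢
  set F' : Set Γ := ((↑) : B → Γ) '' (F : Set B) with hF'
  let E : IntermediateField k Γ := IntermediateField.adjoin k F'
  have htr : Transcendental E (x : Γ) := by
    have h1 : Transcendental (Algebra.adjoin k F') (x : Γ) :=
      hB.transcendental_adjoin (s := (F : Set B)) (i := x) (by simpa using hx)
    intro h2
    apply h1
    exact (IsFractionRing.isAlgebraic_iff (Algebra.adjoin k F') E Γ).mpr h2
  let p : Γ ⊗[k] Γ →ₐ[k] Γ ⊗[E] Γ := Algebra.TensorProduct.mapOfCompatibleSMul E k k Γ Γ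
  have hpt : ∀ a b : Γ, p (a ⊗ₜ b) = a ⊗ₜ b := fun a b => rfl
  have hp0 : ∀ T ∈ Ideal.span ((fun y : Γ => dl k y) '' F'), p T = 0 := by
    have : Ideal.span ((fun y : Γ => dl k y) '' F') ≤ RingHom.ker (p : Γ ⊗[k] Γ →+* Γ ⊗[E] Γ) := by
      rw [Ideal.span_le]
      rintro _ ⟨y, hy, rfl⟩
      show p (dl k y) = 0
      unfold dl
      rw [map_sub, hpt, hpt]
      have hyE : y ∈ E := IntermediateField.subset_adjoin k F' hy
      have h1 : y = (⟨y, hyE⟩ : E) • (1 : Γ) := by
        rw [Algebra.smul_def, mul_one]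
        rfl
      rw [h1, TensorProduct.smul_tmul, sub_self]
    intro T hT
    exact this hT
  have hps : p s = 0 := by
    apply NREG_reg E (x : Γ) htr
    have h1 := hp0 _ h
    rw [map_mul] at h1
    unfold dl at h1
    rw [map_sub, hpt, hpt, mul_sub, sub_eq_zero, mul_comm (p s), mul_comm (p s)] at h1
    exact h1
  have hker : s ∈ (TensorProduct.mapOfCompatibleSMul E k E Γ Γ).ker := hps
  rw [TensorProduct.AlgebraTensorModule.ker_mapOfCompatibleSMul] at hker
  clear hps h
  induction hker using Submodule.span_induction with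
  | mem y hy =>
    obtain ⟨a, m, n, rfl⟩ := hy
    have h1 : (a • m) ⊗ₜ[k] n - m ⊗ₜ[k] (a • n) = (m ⊗ₜ[k] n) * dl k (a : Γ) := by
      unfold dl
      rw [mul_sub, Algebra.TensorProduct.tmul_mul_tmul, Algebra.TensorProduct.tmul_mul_tmul,
        mul_one, mul_one, mul_comm m, mul_comm n]
      rfl
    rw [h1]
    exact Ideal.mul_mem_left _ _ (dl_adjoin F' _ a.2)
  | zero => exact Ideal.zero_mem _
  | add y z _ _ hy hz => exact Ideal.add_mem _ hy hz
  | smul c y _ hy =>
    have h1 := Ideal.mul_mem_left _ ((c : Γ) ⊗ₜ[k] (1 : Γ)) hy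
    rw [← NREG_smulE] at h1
    exact h1

/-- the same in the local ring of the diagonal (localisation is exact) -/
theorem dl_reg_loc (B : Set Γ) (hB : AlgebraicIndependent k ((↑) : B → Γ)) (F : Finset B) (x : B)
    (hx : x ∉ F) (s : SI k Γ)
    (h : s * algebraMap (Γ ⊗[k] Γ) (SI k Γ) (dl k (x : Γ)) ∈
      Ideal.span ((fun y : B => algebraMap (Γ ⊗[k] Γ) (SI k Γ) (dl k (y : Γ))) '' (F : Set B))) :
    s ∈ Ideal.span ((fun y : B => algebraMap (Γ ⊗[k] Γ) (SI k Γ) (dl k (y : Γ))) ''
      (F : Set B)) := by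
  have himg : Ideal.span ((fun y : B => algebraMap (Γ ⊗[k] Γ) (SI k Γ) (dl k (y : Γ))) ''
      (F : Set B)) = Ideal.map (algebraMap (Γ ⊗[k] Γ) (SI k Γ))
        (Ideal.span ((fun y : B => dl k (y : Γ)) '' (F : Set B))) := by
    rw [Ideal.map_span, Set.image_image]
  rw [himg] at h ⊢
  obtain ⟨a, t, rfl⟩ := IsLocalization.exists_mk'_eq (dI k Γ).primeCompl s
  rw [mul_comm, IsLocalization.mul_mk'_eq_mk'_of_mul,
    IsLocalization.mk'_mem_map_algebraMap_iff] at h
  obtain ⟨u, hu, h⟩ := h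
  rw [IsLocalization.mk'_mem_map_algebraMap_iff]
  refine ⟨u, hu, dl_reg B hB F x hx _ ?_⟩
  have : u * a * dl k (x : Γ) = u * (dl k (x : Γ) * a) := by ring
  rw [this]
  exact h

end C74
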