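import Pool.Agent.MP_35f30a_al.C74.NDE
import Pool.Agent.MP_35f30a_al.C74.PST
import Pool.Agent.MP_35f30a_al.C74.MK4
import Pool.Agent.MP_35f30a_al.C74.SZ4

/-!
ROW NX.  Extensions of `X` through `χ : Q → A'`.  Blueprint section 2.5.

`NX.kX_st`: `kX_st`.   `NX.φ_eq`: `φ_mkExt`.
`NX.w_F`: `S.w_lev`; `Fr.map χ` multiplies levels by `M'`, `tz (-a)` adds `a`; `(M' s + a)/(L M M') = r + (N0 + a/M')/(L M)` and
`a ≤ M'`, so it is `≤ r + (N0+1)/(L M) ≤ r + δ/4, r + 1/4` (`small2`, `small3`).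
`NX.top`: `st .. j - T (g j) = Σ_{l > j} con w l j (T (g l))`, for `l > j ≥ e` we have `¬ FTx (q0 - l r) (g l)`, so
`g l ∈ FT (q0 - l r - μ0)` (`gap`) and `FT_con` with the bound for `w`:
`q0 - l r - μ0 + (l-j)(r + (N0+1)/(L M)) ≤ q0 - j r - μ0 + μ0/4`.
-/

set_option autoImplicit false

open scoped TensorProduct Polynomial

namespace C74

variable {k : Type} [Field k]

/-- a scale `M'` ring hom from `Q` to a complete QC ring with SG residue field -/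
structure NXt {X : Obj k} {d : ℕ} {g : Fam X} {q0 r : ℚ} {N : ℕ} {δ : ℚ}
    (S : NDS X d g q0 r N δ) where
  A' : Type
  [rA' : Ring A']
  [aA' : Algebra k[X] A']
  K' : Type
  [fK' : Field K']
  [aK' : Algebra k K']
  π' : A' →+* K'
  M' : ℕ
  hM' : 0 < M'
  χ : S.Q →+* A'
  i : X.Γ →+* K'
  qc : IsQC k π'
  comp : IsComp k A'
  sg : SG k K'
  hχ : IsScale k M' χ
  hi : ∀ q γ, S.πQ q = MvPolynomial.C γ → π' (χ q) = i γ

attribute [instance] NXt.rA' NXt.aA' NXt.fK' NXt.aK'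

section
variable {X : Obj k} {d : ℕ} {g : Fam X} {q0 r : ℚ} {N : ℕ} {δ : ℚ}
    {S : NDS X d g q0 r N δ} (Y : NXt S)

lemma NX_bound' (S : NDS X d g q0 r N δ) {m : ℕ} (hm : m ≤ d + 1) :
    ((m : ℕ) : ℚ) * ((S.N0 + 1) / (X.L * S.M)) ≤
      ((d + 1 : ℕ) * (N + 2 : ℕ) : ℚ) / (X.L * S.M) := by
  have hL : (0 : ℚ) < X.L := by exact_mod_cast X.Lpos
  have hM : (0 : ℚ) < S.M := by
    have := S.hM4
    have h : 0 < S.M := by omega
    exact_mod_cast h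
  rw [← mul_div_assoc]
  apply div_le_div_of_nonneg_right _ (by positivity)
  have h1 : ((m : ℕ) : ℚ) ≤ ((d + 1 : ℕ) : ℚ) := by exact_mod_cast hm
  have h2 : ((S.N0 : ℚ) + 1) ≤ ((N + 2 : ℕ) : ℚ) := by
    have := S.hN0
    have h : S.N0 + 1 ≤ N + 2 := by omega
    exact_mod_cast h
  exact mul_le_mul h1 h2 (by positivity) (by positivity)

lemma NX_bound (S : NDS X d g q0 r N δ) :
    ((S.N0 : ℚ) + 1) / (X.L * S.M) ≤ ((d + 1 : ℕ) * (N + 2 : ℕ) : ℚ) / (X.L * S.M) := by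
  have := NX_bound' S (m := 1) (by omega)
  rwa [Nat.cast_one, one_mul] at this

lemma NXt.hMM : 0 < S.M * Y.M' := Nat.mul_pos (lt_of_lt_of_le (by norm_num) S.hM4) Y.hM'

/-- the new object -/
noncomputable def NXt.obj : Obj k := mkObj X Y.qc Y.comp Y.sg (S.M * Y.M') Y.hMM

/-- the extension -/
noncomputable def NXt.ext : Ext X Y.obj :=
  mkExt X Y.qc Y.comp Y.sg (S.M * Y.M') Y.hMM (Y.χ.comp S.f) (isScale_comp S.hf Y.hχ) Y.i
    (fun a => Y.hi _ _ (S.hfr a))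

/-- `X^{-a} χ(w)` -/
noncomputable def NXt.w (c : k) (a : ℕ) : Y.obj.D :=
  ((Fr.tz (-(a : ℤ)) : Fr k Y.A') * Fr.map Y.χ Y.hχ (S.w c) : Fr k Y.A')

theorem NXt.kX_st (c : k) (a : ℕ) (i' : ℕ) :
    kX k Y.A' i' (Y.ext.st d (Y.w c a) g i') =
      ∑ j ∈ Finset.range (d + 1),
        TP.con ((Fr.tz (-(a : ℤ)) : Fr k Y.A') * Fr.map Y.χ Y.hχ (S.w c)) j i'
          (trT Y.χ Y.hχ j (gQ X S.f S.hf (g j))) := by
  exact C74.kX_st X S.f S.hf Y.χ Y.hχ Y.qc Y.comp Y.sg Y.hMM Y.i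
    (fun a => Y.hi _ _ (S.hfr a)) d (Y.w c a) g i'

theorem NXt.w_F (c : k) {a : ℕ} (ha : a ≤ Y.M') :
    Y.w c a ∈ Y.obj.F (r + (S.N0 + 1) / (X.L * S.M)) := by
  have hL : (0 : ℚ) < X.L := by exact_mod_cast X.Lpos
  have hM : (0 : ℚ) < S.M := by
    have := S.hM4
    have h : 0 < S.M := by omega
    exact_mod_cast h
  obtain ⟨u, hu⟩ := S.w_lev c
  have h1 : Y.w c a = (Fr.tz (-((Y.M' : ℤ) * S.s + a)) : Fr k Y.A') * Fr.ι (Y.χ u) := by
    unfold NXt.w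
    rw [hu, map_mul, map_tz, Fr.map_ι, ← mul_assoc, ← Fr.tz_add]
    congr 2
    ring
  have h2 : (Y.w c a : Fr k Y.A') ∈ Fr.lev k Y.A' ((Y.M' : ℤ) * S.s + a) := ⟨_, h1⟩
  refine lev_mono ?_ h2
  rw [Int.le_floor]
  have hobj : ((Y.obj.L : ℕ) : ℚ) = X.L * S.M * Y.M' := by
    have : Y.obj.L = X.L * (S.M * Y.M') := rfl
    rw [this]; push_cast; ring
  rw [hobj]
  have h3 : (X.L : ℚ) * S.M * Y.M' * (r + (S.N0 + 1) / (X.L * S.M)) =
      Y.M' * (X.L * S.M * r + S.N0) + Y.M' := by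
    field_simp
    ring
  rw [h3, ← S.hs]
  push_cast
  have : (a : ℚ) ≤ Y.M' := by exact_mod_cast ha
  linarith

theorem NXt.w_F1 (c : k) {a : ℕ} (ha : a ≤ Y.M') : Y.w c a ∈ Y.obj.F (r + 1) := by
  refine F_mono ?_ (Y.w_F c ha)
  have h1 := NX_bound S
  have h2 := S.small3
  linarith

theorem NXt.w_Fδ (hδ : 0 < δ) (c : k) {a : ℕ} (ha : a ≤ Y.M') : Y.w c a ∈ Y.obj.F (r + δ) := by
  refine F_mono ?_ (Y.w_F c ha)
  have h1 := NX_bound S
  have h2 := S.small2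
  linarith

theorem NXt.top {e : ℕ} (hC : Crit X d g q0 r e) (c : k) {a : ℕ} (ha : a ≤ Y.M') {j : ℕ}
    (hej : e ≤ j) (hjd : j ≤ d) :
    Y.obj.FTlt (q0 - j * r) (Y.ext.st d (Y.w c a) g j - Y.ext.T j (g j)) := by
  have hj : j ∈ Finset.range (d + 1) := Finset.mem_range.mpr (Nat.lt_succ_of_le hjd)
  have h1 : Y.ext.st d (Y.w c a) g j - Y.ext.T j (g j) =
      ∑ l ∈ (Finset.range (d + 1)).erase j, TP.con (Y.w c a) l j (Y.ext.T l (g l)) := by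
    have h2 : Y.ext.st d (Y.w c a) g j =
        ∑ l ∈ Finset.range (d + 1), TP.con (Y.w c a) l j (Y.ext.T l (g l)) := rfl
    rw [h2, ← Finset.add_sum_erase _ _ hj, TP.con_self]
    abel
  rw [h1]
  refine FTlt_sum _ _ ?_
  intro l hl
  rw [Finset.mem_erase, Finset.mem_range] at hl
  have hld : l ≤ d := Nat.lt_succ_iff.mp hl.2
  rcases lt_or_gt_of_ne hl.1 with hlj | hlj
  · rw [TP.con_lt _ _ _ hlj]
    exact FTlt_zero
  · have hl1 : 1 ≤ l := by omega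
    have hx : ¬ X.FTx (q0 - l * r) (g l) := fun h => h.2 (hC.lt l (by omega) hld)
    have h3 := (Y.ext.FT_iff _ _).mpr (S.gap l hl1 hld hx)
    have h4 := FT_con hlj.le (Y.w_F c ha) h3
    refine FTlt_of_FT ?_ h4
    have h6 : ((l - j : ℕ) : ℚ) * ((S.N0 + 1) / (X.L * S.M)) ≤
        ((d + 1 : ℕ) * (N + 2 : ℕ) : ℚ) / (X.L * S.M) := NX_bound' S (by omega)
    have h7 := S.small1
    have h8 := S.μ0pos
    have h9 : ((l - j : ℕ) : ℚ) = (l : ℚ) - j := by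
      rw [Nat.cast_sub hlj.le]
    have h10 : q0 - l * r - S.μ0 + ((l - j : ℕ) : ℚ) * (r + (S.N0 + 1) / (X.L * S.M)) =
        q0 - j * r - S.μ0 + ((l - j : ℕ) : ℚ) * ((S.N0 + 1) / (X.L * S.M)) := by
      rw [mul_add, h9]; ring
    rw [h10]
    linarith

/-- consequences for `idx`: the top part of the shifted state -/
theorem NXt.top_e {e : ℕ} (hC : Crit X d g q0 r e) (c : k) {a : ℕ} (ha : a ≤ Y.M') :
    Y.ext.st d (Y.w c a) g e ∈ Y.obj.FT e (q0 - e * r) ∧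
    ∀ j, e < j → j ≤ d → Y.obj.FTlt (q0 - j * r) (Y.ext.st d (Y.w c a) g j) := by
  constructor
  · have h1 := Y.top hC c ha le_rfl hC.le_d
    have h2 := (Y.ext.FT_iff _ _).mpr hC.ex.1
    have h3 := Submodule.add_mem _ (FTlt_FT h1) h2
    rwa [sub_add_cancel] at h3
  · intro j hj hjd
    have h1 := Y.top hC c ha hj.le hjd
    have h2 := (Y.ext.FTlt_iff _ _).mpr (hC.lt j hj hjd)
    have h3 := FTlt_add h1 h2
    rwa [sub_add_cancel] at h3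

/-- if the `u`-size of a component is `> q` then its size is `> q` -/
theorem NXt.not_FT {j : ℕ} {q : ℚ} {T : TP k Y.obj.D j}
    (h : ¬ uQ k Y.A' (X.L * (S.M * Y.M')) q (kX k Y.A' j T)) : T ∉ Y.obj.FT j q := by
  exact fun hT => h (uQ_of_FT hT)

/-- `T_0`: `u`-level and size -/
theorem NXt.FT_zero_iff {q : ℚ} (T : TP k Y.obj.D 0) :
    T ∈ Y.obj.FT 0 q ↔ uQ k Y.A' (X.L * (S.M * Y.M')) q (kX k Y.A' 0 T) := by
  have h := uLev_zero_iff (k := k) (A := Y.A') (n := ⌊((X.L * (S.M * Y.M') : ℕ) : ℚ) * q⌋)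
    (@TP.toA k _ (Fr k Y.A') _ _ T)
  exact h.symm

end

end C74
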