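import Pool.Agent.MP_35f30a_al.C74.TP

/-!
ROW TPL1.  Tensor calculus I.  Blueprint section 0.
All by induction on `n` (`TP.succ_induction` for `T_{n+1}`, `con_succ_zero`, `con_succ_succ`).
-/

set_option autoImplicit false

open scoped TensorProduct Polynomial

namespace C74
namespace TP

section
variable {R : Type} [CommRing R] {A : Type} [Ring A] [Algebra R A]

/-- `a ⊗ t ↦ (a v) • C_{n,i}(w) t` : contraction of the first sign by `v`, of the others by `w` -/
noncomputable def con1 (v w : A) (n i : ℕ) : TP R A (n + 1) →ₗ[R] TP R A i :=
  lift (LinearMap.mk₂ R (fun a t => (a * v) • con w n i t)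
      (fun a a' t => by simp [add_mul, add_smul])
      (fun r a t => by rw [smul_mul_assoc, smul_assoc])
      (fun a t t' => by simp)
      (fun r a t => by rw [map_smul, smul_comm]))

/-- `a ⊗ t ↦ a ⊗ C_{n,i}(w) t` : the first sign is not contracted -/
noncomputable def con2 (w : A) (n i : ℕ) : TP R A (n + 1) →ₗ[R] TP R A (i + 1) :=
  lift (LinearMap.mk₂ R (fun a t => cons a (con w n i t))
      (fun a a' t => by rw [add_cons])
      (fun r a t => by rw [smulR_cons])
      (fun a t t' => by rw [map_add, cons_add])
      (fun r a t => by rw [map_smul, cons_smulR]))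

lemma con1_cons (v w : A) (n i : ℕ) (a : A) (t : TP R A n) :
    con1 v w n i (cons a t) = (a * v) • con w n i t := by
  rw [con1]; exact lift_cons _ _ _

lemma con2_cons (w : A) (n i : ℕ) (a : A) (t : TP R A n) :
    con2 w n i (cons a t) = cons a (con w n i t) := by
  rw [con2]; exact lift_cons _ _ _

/-- contractions are left `A`-linear (case `n+1`: check on `T = cons b t`, `a • cons b t = cons (a*b) t`) -/
theorem con_smul (w : A) (n i : ℕ) (a : A) (T : TP R A n) :
    con w n i (a • T) = a • con w n i T := by
  induction n generalizing i with
  | zero =>
    cases i with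
    | zero => rfl
    | succ i => rw [con_zero_succ, con_zero_succ, smul_zero]
  | succ n ih =>
    induction T using succ_induction with
    | h0 => rw [smul_zero, map_zero, smul_zero]
    | hc b t =>
      rw [smul_cons]
      cases i with
      | zero => rw [con_succ_zero, con_succ_zero, smul_smul, mul_assoc]
      | succ i => rw [con_succ_succ, con_succ_succ, smul_add, smul_cons, smul_smul, mul_assoc]
    | ha x y hx hy => rw [smul_add, map_add, map_add, smul_add, hx, hy]

theorem con_lt (w : A) (n i : ℕ) (h : n < i) (T : TP R A n) : con w n i T = 0 := by
  induction n generalizing i with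
  | zero =>
    cases i with
    | zero => omega
    | succ i => rfl
  | succ n ih =>
    cases i with
    | zero => omega
    | succ i =>
      induction T using succ_induction with
      | h0 => rw [map_zero]
      | hc b t => rw [con_succ_succ, ih i (by omega), ih (i + 1) (by omega), cons_zero, smul_zero,
          add_zero]
      | ha x y hx hy => rw [map_add, hx, hy, add_zero]

theorem con_self (w : A) (n : ℕ) (T : TP R A n) : con w n n T = T := by
  induction n with
  | zero => rfl
  | succ n ih =>
    induction T using succ_induction with
    | h0 => rw [map_zero]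
    | hc b t => rw [con_succ_succ, ih, con_lt w n (n + 1) (by omega), smul_zero, add_zero]
    | ha x y hx hy => rw [map_add, hx, hy]

/-- contraction by `0` -/
theorem con_zero (n i : ℕ) (h : i ≠ n) (T : TP R A n) : con (0 : A) n i T = 0 := by
  induction n generalizing i with
  | zero =>
    cases i with
    | zero => omega
    | succ i => rfl
  | succ n ih =>
    induction T using succ_induction with
    | h0 => rw [map_zero]
    | hc b t =>
      cases i with
      | zero => rw [con_succ_zero, mul_zero, zero_smul]
      | succ i => rw [con_succ_succ, ih i (by omega), cons_zero, mul_zero, zero_smul, add_zero]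
    | ha x y hx hy => rw [map_add, hx, hy, add_zero]

/-- `C_{n+1,n}` is additive in `w` -/
theorem con_one_add (w w' : A) (n : ℕ) (T : TP R A (n + 1)) :
    con (w + w') (n + 1) n T = con w (n + 1) n T + con w' (n + 1) n T := by
  induction n with
  | zero =>
    induction T using succ_induction with
    | h0 => rw [map_zero, map_zero, map_zero, add_zero]
    | hc b t =>
      rw [con_succ_zero, con_succ_zero, con_succ_zero, con_self, con_self, con_self, mul_add,
        add_smul]
    | ha x y hx hy => rw [map_add, map_add, map_add, hx, hy]; abel
  | succ n ih =>
    induction T using succ_induction with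
    | h0 => rw [map_zero, map_zero, map_zero, add_zero]
    | hc b t =>
      rw [con_succ_succ, con_succ_succ, con_succ_succ, ih, con_self, con_self, con_self, mul_add,
        add_smul, cons_add]
      abel
    | ha x y hx hy => rw [map_add, map_add, map_add, hx, hy]; abel

/-- base ring scalars: `C_{n,i}(r w) = r^{n-i} C_{n,i}(w)` -/
theorem con_smulR (r : R) (w : A) (n i : ℕ) (hi : i ≤ n) (T : TP R A n) :
    con (r • w) n i T = r ^ (n - i) • con w n i T := by
  induction n generalizing i with
  | zero =>
    obtain rfl : i = 0 := by omega
    rw [con_zero_zero, con_zero_zero, Nat.sub_self, pow_zero, one_smul]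
  | succ n ih =>
    induction T using succ_induction with
    | h0 => rw [map_zero, map_zero, smul_zero]
    | hc b t =>
      cases i with
      | zero =>
        rw [con_succ_zero, con_succ_zero, ih 0 (Nat.zero_le n), mul_smul_comm, smul_assoc,
          smul_comm (b * w) (r ^ (n - 0)) (con w n 0 t), smul_smul, ← pow_succ']
        congr 2
      | succ i =>
        rw [con_succ_succ, con_succ_succ, ih i (by omega), cons_smulR, Nat.add_sub_add_right,
          smul_add]
        congr 1
        rw [mul_smul_comm, smul_assoc]
        rcases Nat.lt_or_ge n (i + 1) with h1 | h1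
        · rw [con_lt _ n (i + 1) h1, con_lt _ n (i + 1) h1]
          simp only [smul_zero]
        · rw [ih (i + 1) h1, smul_comm (b * w) (r ^ (n - (i + 1))) (con w n (i + 1) t), smul_smul,
            ← pow_succ']
          congr 2
          omega
    | ha x y hx hy => rw [map_add, map_add, hx, hy, smul_add]

theorem con_eq_con1 (w : A) (n : ℕ) (T : TP R A (n + 1)) :
    con w (n + 1) 0 T = con1 w w n 0 T := by
  induction T using succ_induction with
  | h0 => rw [map_zero, map_zero]
  | hc b t => rw [con_succ_zero, con1_cons]
  | ha x y hx hy => rw [map_add, map_add, hx, hy]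

theorem con_eq_con12 (w : A) (n i : ℕ) (T : TP R A (n + 1)) :
    con w (n + 1) (i + 1) T = con2 w n i T + con1 w w n (i + 1) T := by
  induction T using succ_induction with
  | h0 => rw [map_zero, map_zero, map_zero, add_zero]
  | hc b t => rw [con_succ_succ, con1_cons, con2_cons]
  | ha x y hx hy => rw [map_add, map_add, map_add, hx, hy]; abel

/-- blueprint (0.1) -/
theorem con1_del (v w b : A) (n i : ℕ) (T : TP R A (n + 1)) :
    con1 v w n i (del b n T) = con1 (b * v - v * b) w n i T := by
  induction T using succ_induction with
  | h0 => rw [map_zero, map_zero, map_zero]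
  | hc a t =>
    rw [del_cons, map_sub, con1_cons, con1_cons, con1_cons, con_smul, smul_smul, mul_sub, sub_smul,
      mul_assoc, mul_assoc]
  | ha x y hx hy => rw [map_add, map_add, map_add, hx, hy]

/-- blueprint (0.1) -/
theorem con2_del (w b : A) (n i : ℕ) (T : TP R A (n + 1)) :
    con2 w n i (del b n T) = del b i (con2 w n i T) := by
  induction T using succ_induction with
  | h0 => rw [map_zero, map_zero, map_zero]
  | hc a t => rw [del_cons, map_sub, con2_cons, con2_cons, con2_cons, con_smul, del_cons]
  | ha x y hx hy => rw [map_add, map_add, map_add, map_add, hx, hy]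

/-- `delta_b` is left `A`-linear -/
theorem del_smul (b : A) (n : ℕ) (a : A) (T : TP R A (n + 1)) :
    del b n (a • T) = a • del b n T := by
  induction T using succ_induction with
  | h0 => rw [smul_zero, map_zero, smul_zero]
  | hc c t => rw [smul_cons, del_cons, del_cons, smul_sub, smul_cons, smul_cons, mul_assoc]
  | ha x y hx hy => rw [smul_add, map_add, map_add, smul_add, hx, hy]

end

end TP
end C74
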