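import Pool.Agent.MP_35f30a_al.C74.GLU
import Pool.Agent.MP_35f30a_al.C74.TPL1

/-!
ROW OR1.  Basic facts on the orders `Dm`, `JJ`.  Blueprint section 0.

`Dm` is decreasing in `m` (induction; `δ_b` of anything in `Dm 0 = ⊤` ...), stable under `a •` (`del_smul`) and under
`del b`.  `Dm_eq_glue`: `T_{j+2}` is spanned by `glue U y`, and `del b (j+1) (glue U y) = glue (del b 0 U) y` (check on
`U = a ⊗ c`: `δ_b(a ⊗ c ⊗ y) = ab ⊗ c ⊗ y - a ⊗ bc ⊗ y`).
-/

set_option autoImplicit false

open scoped TensorProduct Polynomial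

namespace C74

section comm
variable {k : Type} [Field k] {Γ : Type} [CommRing Γ] [Algebra k Γ]

theorem OR1_del_mem {m j : ℕ} (b : Γ) {y : TP k Γ (j + 1)} (h : y ∈ Dm k Γ m j) :
    TP.del b j y ∈ Dm k Γ (m + 1) j := by
  rw [Dm]
  exact Submodule.subset_span ⟨b, y, h, rfl⟩

theorem Dm_succ_le (m j : ℕ) : Dm k Γ (m + 1) j ≤ Dm k Γ m j := by
  induction m with
  | zero => exact le_top
  | succ m ih =>
    intro x hx
    rw [Dm] at hx
    refine (Submodule.span_le (p := Dm k Γ (m + 1) j)).2 ?_ hx
    rintro _ ⟨b, y, hy, rfl⟩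
    exact OR1_del_mem b (ih hy)

theorem Dm_anti {m m' : ℕ} (h : m ≤ m') (j : ℕ) : Dm k Γ m' j ≤ Dm k Γ m j := by
  induction h with
  | refl => exact le_refl _
  | step _ ih => exact le_trans (Dm_succ_le _ j) ih

theorem Dm_smul {m j : ℕ} (a : Γ) {y : TP k Γ (j + 1)} (h : y ∈ Dm k Γ m j) :
    a • y ∈ Dm k Γ m j := by
  cases m with
  | zero => rw [Dm]; trivial
  | succ m =>
    induction m generalizing y with
    | zero =>
      rw [Dm] at h ⊢
      induction h using Submodule.span_induction with
      | mem x hx =>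
        obtain ⟨b, y, _, rfl⟩ := hx
        rw [← TP.del_smul]
        refine Submodule.subset_span ⟨b, a • y, ?_, rfl⟩
        rw [Dm]; trivial
      | zero => rw [smul_zero]; exact zero_mem _
      | add x y _ _ hx hy => rw [smul_add]; exact add_mem hx hy
      | smul c x _ hx => rw [smul_comm]; exact Submodule.smul_mem _ c hx
    | succ m ih =>
      rw [Dm] at h ⊢
      induction h using Submodule.span_induction with
      | mem x hx =>
        obtain ⟨b, y, hy, rfl⟩ := hx
        rw [← TP.del_smul]
        exact Submodule.subset_span ⟨b, a • y, ih hy, rfl⟩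
      | zero => rw [smul_zero]; exact zero_mem _
      | add x y _ _ hx hy => rw [smul_add]; exact add_mem hx hy
      | smul c x _ hx => rw [smul_comm]; exact Submodule.smul_mem _ c hx

theorem OR1_span_top (j : ℕ) : Submodule.span k {z : TP k Γ (j + 1) |
    ∃ (a : Γ) (u : TP k Γ j), u ∈ (⊤ : Submodule k (TP k Γ j)) ∧ z = TP.cons a u} = ⊤ := by
  rw [eq_top_iff]
  intro x _
  induction x using TP.succ_induction with
  | h0 => exact zero_mem _
  | hc a t => exact Submodule.subset_span ⟨a, t, Submodule.mem_top, rfl⟩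
  | ha x y hx hy => exact add_mem (hx Submodule.mem_top) (hy Submodule.mem_top)

theorem JJ_anti {m m' : ℕ} (h : m ≤ m') (j : ℕ) : JJ k Γ m' j ≤ JJ k Γ m j := by
  induction j with
  | zero => exact le_refl _
  | succ j ih =>
    rw [JJ, JJ]
    refine inf_le_inf (Dm_anti h j) (Submodule.span_mono ?_)
    rintro _ ⟨a, u, hu, rfl⟩
    exact ⟨a, u, ih hu, rfl⟩

theorem JJ_zero (j : ℕ) : JJ k Γ 0 j = ⊤ := by
  induction j with
  | zero => rw [JJ]
  | succ j ih => rw [JJ, ih, OR1_span_top, Dm, inf_top_eq]

theorem JJ_smul {m j : ℕ} (a : Γ) {y : TP k Γ j} (h : y ∈ JJ k Γ m j) : a • y ∈ JJ k Γ m j := by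
  cases j with
  | zero => rw [JJ]; trivial
  | succ j =>
    rw [JJ] at h ⊢
    refine ⟨Dm_smul a h.1, ?_⟩
    have h2 := h.2
    simp only [SetLike.mem_coe] at h2 ⊢
    clear h
    induction h2 using Submodule.span_induction with
    | mem x hx =>
      obtain ⟨c, u, hu, rfl⟩ := hx
      rw [TP.smul_cons]
      exact Submodule.subset_span ⟨a * c, u, hu, rfl⟩
    | zero => rw [smul_zero]; exact zero_mem _
    | add x y _ _ hx hy => rw [smul_add]; exact add_mem hx hy
    | smul c x _ hx => rw [smul_comm]; exact Submodule.smul_mem _ c hx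

theorem JJ_one (m : ℕ) : JJ k Γ m 1 = Dm k Γ m 0 := by
  rw [JJ, JJ, OR1_span_top, inf_top_eq]

theorem del_glue (b : Γ) (j : ℕ) (U : TP k Γ 1) (y : TP k Γ j) :
    TP.del b (j + 1) (glue j U y) = glue j (TP.del b 0 U) y := by
  induction U using TP.succ_induction with
  | h0 => simp
  | hc a t =>
    obtain ⟨c, hc⟩ : ∃ c : Γ, t = TP.ofA c := ⟨TP.toA t, rfl⟩
    rw [hc, glue_cons, TP.del_cons, TP.del_cons, map_sub, LinearMap.sub_apply, glue_cons,
      TP.smul_ofA, glue_cons, TP.smul_cons]
  | ha x z hx hz => rw [map_add, LinearMap.add_apply, map_add, map_add, map_add,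
      LinearMap.add_apply, hx, hz]

/-- `D_m(T_{j+2}) = I^m ⊗ T_j` -/
theorem Dm_eq_glue (m j : ℕ) : Dm k Γ m (j + 1) =
    Submodule.span k {z | ∃ U ∈ Dm k Γ m 0, ∃ y : TP k Γ j, z = glue j U y} := by
  induction m with
  | zero =>
    rw [Dm, eq_comm, eq_top_iff]
    intro x _
    induction x using TP.succ_induction with
    | h0 => exact zero_mem _
    | hc a t =>
      induction t using TP.succ_induction with
      | h0 => rw [TP.cons_zero]; exact zero_mem _
      | hc b y =>
        refine Submodule.subset_span ⟨TP.cons a (TP.ofA b), ?_, y, (glue_cons j a b y).symm⟩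
        rw [Dm]; trivial
      | ha x y hx hy =>
        rw [TP.cons_add]
        exact add_mem (hx Submodule.mem_top) (hy Submodule.mem_top)
    | ha x y hx hy => exact add_mem (hx Submodule.mem_top) (hy Submodule.mem_top)
  | succ m ih =>
    apply le_antisymm
    · intro x hx
      rw [Dm] at hx
      refine (Submodule.span_le (p := Submodule.span k
        {z | ∃ U ∈ Dm k Γ (m + 1) 0, ∃ y : TP k Γ j, z = glue j U y})).2 ?_ hx
      rintro _ ⟨b, z, hz, rfl⟩
      rw [ih] at hz
      simp only [SetLike.mem_coe]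
      induction hz using Submodule.span_induction with
      | mem x hx =>
        obtain ⟨U, hU, y, rfl⟩ := hx
        rw [del_glue]
        exact Submodule.subset_span ⟨_, OR1_del_mem b hU, y, rfl⟩
      | zero => rw [map_zero]; exact zero_mem _
      | add x y _ _ hx hy => rw [map_add]; exact add_mem hx hy
      | smul c x _ hx => rw [map_smul]; exact Submodule.smul_mem _ c hx
    · rw [Submodule.span_le]
      rintro _ ⟨U, hU, y, rfl⟩
      simp only [SetLike.mem_coe]
      rw [Dm] at hU
      induction hU using Submodule.span_induction with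
      | mem x hx =>
        obtain ⟨b, V, hV, rfl⟩ := hx
        rw [← del_glue]
        refine OR1_del_mem b ?_
        rw [ih]
        exact Submodule.subset_span ⟨V, hV, y, rfl⟩
      | zero => rw [map_zero, LinearMap.zero_apply]; exact zero_mem _
      | add x z _ _ hx hz => rw [map_add, LinearMap.add_apply]; exact add_mem hx hz
      | smul c x _ hx => rw [map_smul, LinearMap.smul_apply]; exact Submodule.smul_mem _ c hx

end comm

end C74
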