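import Pool.Agent.MP_35f30a_al.C74.Fr

/-!
# Residues of tensors, orders `D_m`, `J_j(m)`, levels of tensors, separably generated fields.
Blueprint sections 0, 1.
-/

set_option autoImplicit false

open scoped TensorProduct Polynomial

namespace C74

/-! ### Orders over a commutative `k`-algebra `Γ` -/

section orders
variable (k : Type) [Field k] (Γ : Type) [CommRing Γ] [Algebra k Γ]

/-- `D_m(T_{j+1}) = span of δ_{b1} ... δ_{bm} y` -/
noncomputable def Dm : (m j : ℕ) → Submodule k (TP k Γ (j + 1))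
  | 0, _ => ⊤
  | m + 1, j => Submodule.span k {z | ∃ (b : Γ) (y : TP k Γ (j + 1)), y ∈ Dm m j ∧ z = TP.del b j y}

/-- `J_0(m) = ⊤`, `J_{j+1}(m) = D_m(T_{j+1}) ⊓ span {a ⊗ u | u ∈ J_j(m)}` -/
noncomputable def JJ (m : ℕ) : (j : ℕ) → Submodule k (TP k Γ j)
  | 0 => ⊤
  | j + 1 => Dm k Γ m j ⊓ Submodule.span k {z | ∃ (a : Γ) (u : TP k Γ j), u ∈ JJ m j ∧ z = TP.cons a u}

end orders

/-! ### Residues of `k[X]`-tensors over QC rings -/

section res
variable {k : Type} [Field k] {A : Type} [Ring A] [Algebra k[X] A] {S : Type} [CommRing S]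
  [Algebra k S] {π : A →+* S}

lemma IsQC.algMap (hπ : IsQC k π) (r : k[X]) :
    π (algebraMap k[X] A r) = algebraMap k S (ev0 k r) := by
  obtain ⟨q, hq⟩ : ∃ q : k[X], r = Polynomial.C (r.coeff 0) + Polynomial.X * q :=
    ⟨r.divX, by rw [add_comm, ← Polynomial.X_mul_divX_add r]; simp⟩
  have h0 : ev0 k r = r.coeff 0 := by simp [ev0, Polynomial.constantCoeff_apply]
  rw [h0]
  conv_lhs => rw [hq]
  rw [map_add, map_add, hπ.scal, map_mul, ← Algebra.smul_def, hπ.kerX, add_zero]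

/-- the residue map `T_n^{k[X]}(A) → T_n^k(S)` -/
noncomputable def resT (hπ : IsQC k π) (n : ℕ) : TP k[X] A n →ₛₗ[ev0 k] TP k S n :=
  TP.map (ev0 k) π hπ.algMap n

/-- the inclusion `T_n^{k[X]}(A) → T_n^{k[X]}(A[1/X])` -/
noncomputable def ιT (k : Type) [Field k] (A : Type) [Ring A] [Algebra k[X] A] (n : ℕ) :
    TP k[X] A n →ₛₗ[RingHom.id k[X]] TP k[X] (Fr k A) n :=
  TP.map (RingHom.id k[X]) (Fr.ι : A →ₐ[k[X]] Fr k A)
    (fun r => (Fr.ι : A →ₐ[k[X]] Fr k A).commutes r) n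

/-- change of the base ring `T_n^k(D) → T_n^{k[X]}(D)`, `D = A[1/X]` -/
noncomputable def kX (k : Type) [Field k] (A : Type) [Ring A] [Algebra k[X] A] (n : ℕ) :
    TP k (Fr k A) n →ₛₗ[(Polynomial.C : k →+* k[X])] TP k[X] (Fr k A) n :=
  TP.map (Polynomial.C : k →+* k[X]) (RingHom.id (Fr k A)) (fun _ => rfl) n

/-- functoriality of `T_n^k(A[1/X])` for ring homs of scale `M` -/
noncomputable def mapkT {A' : Type} [Ring A'] [Algebra k[X] A'] {M : ℕ} (f : A →+* A')
    (hf : IsScale k M f) (n : ℕ) : TP k (Fr k A) n →ₛₗ[RingHom.id k] TP k (Fr k A') n :=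
  TP.map (RingHom.id k) (Fr.mapk f hf : Fr k A →+* Fr k A') (fun r => (Fr.mapk f hf).commutes r) n

/-- `k`-algebra homs induce maps of `k`-tensors -/
noncomputable def algT {D D' : Type} [Ring D] [Algebra k D] [Ring D'] [Algebra k D']
    (φ : D →ₐ[k] D') (n : ℕ) : TP k D n →ₛₗ[RingHom.id k] TP k D' n :=
  TP.map (RingHom.id k) (φ : D →+* D') (fun r => φ.commutes r) n

/-- `uRes hπ n T s`: the `k[X]`-tensor `T` over `A[1/X]` lies in `X^{-n} T(A)` and has residue `s` -/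
def uRes (hπ : IsQC k π) {j : ℕ} (n : ℤ) (T : TP k[X] (Fr k A) j) (s : TP k S j) : Prop :=
  ∃ T' : TP k[X] A j, T = (Fr.tz (-n) : Fr k A) • ιT k A j T' ∧ resT hπ j T' = s

/-- `T ∈ X^{-n} T(A)` -/
def uLev (k : Type) [Field k] (A : Type) [Ring A] [Algebra k[X] A] {j : ℕ} (n : ℤ)
    (T : TP k[X] (Fr k A) j) : Prop :=
  ∃ T' : TP k[X] A j, T = (Fr.tz (-n) : Fr k A) • ιT k A j T'

end res

/-! ### the slotwise filtration of `k`-tensors over `D = A[1/X]` -/

section kfilt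
variable (k : Type) [Field k] (A : Type) [Ring A] [Algebra k[X] A]

/-- `F_n T_0 = lev n`, `F_n T_{j+1} = span {a ⊗ u | a ∈ lev m, u ∈ F_{n-m} T_j}` -/
noncomputable def kF : (j : ℕ) → ℤ → Submodule k (TP k (Fr k A) j)
  | 0, n => Fr.lev k A n
  | j + 1, n => Submodule.span k {z | ∃ (m : ℤ) (a : Fr k A) (u : TP k (Fr k A) j),
      a ∈ Fr.lev k A m ∧ u ∈ kF j (n - m) ∧ z = TP.cons a u}

end kfilt

/-- separably generated field extensions (arbitrary transcendence degree) -/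
def SG (k K : Type) [Field k] [Field K] [Algebra k K] : Prop :=
  ∃ B : Set K, AlgebraicIndependent k ((↑) : B → K) ∧
    Algebra.IsSeparable (IntermediateField.adjoin k B) K

end C74
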