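import Pool.Agent.MP_35f30a_al.C74.SGM

/-!
ROW PSF1.  `Frac((Γ[Λ]/P)[Y])` is separably generated.  Blueprint section 6.

`P` is prime, so not a constant: it involves some variable `λ0`.  Let `Λ' := {λ // λ ≠ λ0}`, `S1 := MvPolynomial Λ' Γ ⊆ Γ[Λ]`.
`(P) ∩ S1 = 0` (degree in `λ0`), so `S1 → Γ[Λ]/P` is injective; `K1 := Frac S1` is SG (`SG_mvPoly`);
`Frac(Γ[Λ]/P) = K1(class of λ0)` is SG (`SG_adjoin`), and `K' = Frac(Γ[Λ]/P)(Y)` is SG (`SG_adjoin`).
(`MvPolynomial.optionEquivLeft` and `Equiv.optionSubtypeNe` help to single out `λ0`.)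
-/

set_option autoImplicit false

open scoped TensorProduct Polynomial

namespace C74

theorem PSF1_step {k : Type} [Field k] [IsAlgClosed k] {A B : Type} [CommRing A] [IsDomain A]
    [CommRing B] [IsDomain B] [Algebra k A] [Algebra k B] (g : A →ₐ[k] B)
    (hg : Function.Injective g) (b : B)
    (hgen : ∀ S : Subring B, (∀ a, g a ∈ S) → b ∈ S → ∀ x, x ∈ S)
    (hA : SG k (FractionRing A)) : SG k (FractionRing B) := by
  have hg' : Function.Injective ((algebraMap B (FractionRing B)).comp (g : A →+* B)) :=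
    (IsFractionRing.injective B (FractionRing B)).comp hg
  let F : FractionRing A →+* FractionRing B := IsFractionRing.lift hg'
  have hF : ∀ a, F (algebraMap A (FractionRing A) a) = algebraMap B (FractionRing B) (g a) :=
    fun a => IsFractionRing.lift_algebraMap hg' a
  let _ : Algebra (FractionRing A) (FractionRing B) := F.toAlgebra
  have hFa : ∀ x, algebraMap (FractionRing A) (FractionRing B) x = F x := fun _ => rfl
  have : IsScalarTower k (FractionRing A) (FractionRing B) :=
    IsScalarTower.of_algebraMap_eq (fun c => by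
      rw [hFa, IsScalarTower.algebraMap_apply k A (FractionRing A), hF, g.commutes,
        ← IsScalarTower.algebraMap_apply])
  refine SG_adjoin hA (algebraMap B (FractionRing B) b) ?_
  rw [eq_top_iff]
  intro z _
  let E := IntermediateField.adjoin (FractionRing A) {algebraMap B (FractionRing B) b}
  let S : Subring B := E.toSubfield.toSubring.comap (algebraMap B (FractionRing B))
  have hS : ∀ x : B, algebraMap B (FractionRing B) x ∈ E := by
    intro x
    refine hgen S (fun a => ?_) ?_ x
    · change algebraMap B (FractionRing B) (g a) ∈ E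
      rw [← hF, ← hFa]
      exact E.algebraMap_mem _
    · exact IntermediateField.mem_adjoin_simple_self _ _
  obtain ⟨x, y, -, rfl⟩ := IsFractionRing.div_surjective B z
  exact E.div_mem (hS x) (hS y)

theorem PSF1_vars {Γ Λ : Type} [Field Γ] (P : MvPolynomial Λ Γ) (hP : Prime P) :
    ∃ i, 0 < MvPolynomial.degreeOf i P := by
  classical
  by_contra hcon
  push Not at hcon
  have h1 : P.vars = ∅ := by
    rw [Finset.eq_empty_iff_forall_notMem]
    intro i hi
    have := hcon i
    rw [MvPolynomial.degreeOf_def] at this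
    rw [MvPolynomial.vars_def, Multiset.mem_toFinset] at hi
    have h2 := Multiset.count_pos.mpr hi
    omega
  rw [MvPolynomial.vars_eq_empty_iff_eq_C] at h1
  apply hP.not_isUnit
  rw [h1]
  apply IsUnit.map MvPolynomial.C
  rw [isUnit_iff_ne_zero]
  intro h0
  rw [h0, map_zero] at h1
  exact hP.ne_zero h1

theorem SG_primeQuot {k : Type} [Field k] [IsAlgClosed k] {Γ : Type} [Field Γ] [Algebra k Γ]
    (hsg : SG k Γ) {Λ : Type} (P : MvPolynomial Λ Γ) (hP : Prime P)
    [(Ideal.span {P} : Ideal (MvPolynomial Λ Γ)).IsPrime] :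
    SG k (FractionRing (Polynomial (MvPolynomial Λ Γ ⧸ (Ideal.span {P} : Ideal _)))) := by
  classical
  obtain ⟨i0, hi0⟩ := PSF1_vars P hP
  let I : Ideal (MvPolynomial Λ Γ) := Ideal.span {P}
  let Λ' := {i : Λ // i ≠ i0}
  let r : MvPolynomial Λ' Γ →ₐ[k] MvPolynomial Λ Γ :=
    (MvPolynomial.rename (Subtype.val : Λ' → Λ) : MvPolynomial Λ' Γ →ₐ[Γ] MvPolynomial Λ Γ).restrictScalars k
  let g : MvPolynomial Λ' Γ →ₐ[k] MvPolynomial Λ Γ ⧸ I := (Ideal.Quotient.mkₐ k I).comp r
  have hg : Function.Injective g := by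
    rw [injective_iff_map_eq_zero]
    intro q hq
    by_contra hq0
    have h1 : P ∣ MvPolynomial.rename (Subtype.val : Λ' → Λ) q := by
      rw [← Ideal.mem_span_singleton]
      exact Ideal.Quotient.eq_zero_iff_mem.mp hq
    obtain ⟨t, ht⟩ := h1
    have h2 : MvPolynomial.rename (Subtype.val : Λ' → Λ) q ≠ 0 := by
      intro h
      exact hq0 (MvPolynomial.rename_injective _ Subtype.val_injective (by rw [h, map_zero]))
    have ht0 : t ≠ 0 := by
      rintro rfl
      exact h2 (by rw [ht, mul_zero])
    have h3 : MvPolynomial.degreeOf i0 (MvPolynomial.rename (Subtype.val : Λ' → Λ) q) = 0 := by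
      by_contra h4
      have h5 : i0 ∈ (MvPolynomial.rename (Subtype.val : Λ' → Λ) q).vars := by
        rw [MvPolynomial.vars_def, Multiset.mem_toFinset]
        rw [MvPolynomial.degreeOf_def] at h4
        exact Multiset.count_pos.mp (Nat.pos_of_ne_zero h4)
      have h6 := MvPolynomial.vars_rename _ _ h5
      rw [Finset.mem_image] at h6
      obtain ⟨a, -, ha⟩ := h6
      exact a.2 ha
    rw [ht, MvPolynomial.degreeOf_mul_eq hP.ne_zero ht0] at h3
    omega
  have h1 : SG k (FractionRing (MvPolynomial Λ' Γ)) := SG_mvPoly (K := Γ) (Λ := Λ') hsg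
  have h2 : SG k (FractionRing (MvPolynomial Λ Γ ⧸ I)) := by
    refine PSF1_step g hg (Ideal.Quotient.mk I (MvPolynomial.X i0)) ?_ h1
    intro S hS hb x
    obtain ⟨x, rfl⟩ := Ideal.Quotient.mk_surjective x
    induction x using MvPolynomial.induction_on with
    | C c =>
      have := hS (MvPolynomial.C c)
      change Ideal.Quotient.mk I (MvPolynomial.rename _ (MvPolynomial.C c)) ∈ S at this
      rwa [MvPolynomial.rename_C] at this
    | add p q hp hq => rw [map_add]; exact S.add_mem hp hq
    | mul_X p i hp =>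
      rw [map_mul]
      refine S.mul_mem hp ?_
      by_cases hi : i = i0
      · rw [hi]; exact hb
      · have := hS (MvPolynomial.X ⟨i, hi⟩)
        change Ideal.Quotient.mk I (MvPolynomial.rename _ (MvPolynomial.X _)) ∈ S at this
        rwa [MvPolynomial.rename_X] at this
  refine PSF1_step (A := MvPolynomial Λ Γ ⧸ I) (B := Polynomial (MvPolynomial Λ Γ ⧸ I))
    ({ (Polynomial.C : (MvPolynomial Λ Γ ⧸ I) →+* Polynomial (MvPolynomial Λ Γ ⧸ I)) with
        commutes' := fun _ => rfl } : (MvPolynomial Λ Γ ⧸ I) →ₐ[k] Polynomial (MvPolynomial Λ Γ ⧸ I))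
    ?_ Polynomial.X ?_ h2
  · exact Polynomial.C_injective
  · intro S hS hb x
    induction x using Polynomial.induction_on with
    | C a => exact hS a
    | add p q hp hq => exact S.add_mem hp hq
    | monomial n a _ => exact S.mul_mem (hS a) (S.pow_mem hb _)

end C74
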