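import Pool.Agent.MP_35f30a_al.C74.TP

/-!
# Quasi-commutative rings over `k[X]`, completeness, the localisation `Fr A = A[1/X]`.
Blueprint section 0.
-/

set_option autoImplicit false

open scoped TensorProduct Polynomial

namespace C74

/-- the variable of `k[X]` -/
noncomputable abbrev tX (k : Type) [Field k] : k[X] := Polynomial.X

/-- `σ_M : k[X] → k[X]`, `X ↦ X^M` -/
noncomputable def sig (k : Type) [Field k] (M : ℕ) : k[X] →+* k[X] :=
  (Polynomial.expand k M : k[X] →ₐ[k] k[X]).toRingHom

/-- evaluation at `0`, `k[X] → k` -/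
noncomputable def ev0 (k : Type) [Field k] : k[X] →+* k := Polynomial.constantCoeff

section
variable (k : Type) [Field k]

/-- `(A, S, π)` is a QC ring: `X` is regular on `A`, `π : A → S` is onto the commutative ring `S`
with kernel `X A`, compatible with `k`. -/
structure IsQC {A : Type} [Ring A] [Algebra k[X] A] {S : Type} [CommRing S] [Algebra k S]
    (π : A →+* S) : Prop where
  reg : ∀ a : A, tX k • a = 0 → a = 0
  surj : Function.Surjective π
  ker : ∀ a : A, π a = 0 → ∃ b : A, a = tX k • b
  kerX : ∀ b : A, π (tX k • b) = 0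
  scal : ∀ c : k, π (algebraMap k[X] A (Polynomial.C c)) = algebraMap k S c

/-- `X` is regular on the module `M` -/
def XReg (M : Type) [AddCommGroup M] [Module k[X] M] : Prop := ∀ m : M, tX k • m = 0 → m = 0

/-- `X`-adically separated and complete -/
structure IsComp (M : Type) [AddCommGroup M] [Module k[X] M] : Prop where
  sep : ∀ m : M, (∀ n : ℕ, ∃ b : M, m = (tX k) ^ n • b) → m = 0
  lim : ∀ u : ℕ → M, ∃ m : M, ∀ n : ℕ, ∃ b : M,
    m = ∑ i ∈ Finset.range n, (tX k) ^ i • u i + (tX k) ^ n • b

/-- all commutators are divisible by `X ^ g` -/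
def Gap (g : ℕ) (A : Type) [Ring A] [Algebra k[X] A] : Prop :=
  ∀ a b : A, ∃ c : A, a * b - b * a = (tX k) ^ g • c

/-- `f : A → A'` has scale `M` -/
def IsScale {A A' : Type} [Ring A] [Algebra k[X] A] [Ring A'] [Algebra k[X] A'] (M : ℕ)
    (f : A →+* A') : Prop :=
  ∀ r : k[X], f (algebraMap k[X] A r) = algebraMap k[X] A' (sig k M r)

/-- `f` and the residue map `fb` are compatible -/
def ResComm {A A' S S' : Type} [Ring A] [Ring A'] [CommRing S] [CommRing S']
    (π : A →+* S) (π' : A' →+* S') (f : A →+* A') (fb : S →+* S') : Prop :=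
  ∀ a, π' (f a) = fb (π a)

/-- `Fr A = A[1/X]` -/
def Fr (A : Type) [Ring A] [Algebra k[X] A] : Type :=
  LocalizedModule (Submonoid.powers (tX k)) A

end

namespace Fr

variable {k : Type} [Field k] {A : Type} [Ring A] [Algebra k[X] A]

noncomputable instance : Ring (Fr k A) :=
  inferInstanceAs (Ring (LocalizedModule (Submonoid.powers (tX k)) A))
noncomputable instance : Algebra k[X] (Fr k A) :=
  inferInstanceAs (Algebra k[X] (LocalizedModule (Submonoid.powers (tX k)) A))
noncomputable instance instAlgk : Algebra k (Fr k A) :=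
  Algebra.compHom (Fr k A) (Polynomial.C : k →+* k[X])
instance : IsScalarTower k k[X] (Fr k A) := ⟨fun c p d => by
  show (c • p) • d = (Polynomial.C c : k[X]) • p • d
  rw [smul_smul, Polynomial.smul_eq_C_mul]⟩

end Fr

end C74
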