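import Pool.Agent.MP_35f30a_al.C74.NET
import Pool.Agent.MP_35f30a_al.C74.DOM

/-!
ROW SEP1.  Preparations for (Sep).  Blueprint section 6.

`krull_fg`: `Γ1` f.g. over `k` as a field, so `EssFiniteType k Γ1` (`IntermediateField.essFiniteType_iff`), so
`Γ1 ⊗[k] Γ1` is essentially of finite type over `Γ1`, noetherian; it is a domain (`isDomain_tensor`); `dI ≠ ⊤`;
`Ideal.iInf_pow_eq_bot_of_isDomain`.
`exists_subfield`: the components of `s` are finitely many elements `z` of `Γ`, each separable over `k(B)`; the coefficients of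
their minimal polynomials (over `k(B)`) lie in `k(B1)` for a finite `B1 ⊆ B`, so `z` is separable over `k(B1)`;
`Γ1 := k(B1)(z's)`.
-/

set_option autoImplicit false

open scoped TensorProduct Polynomial

namespace C74

variable {k : Type} [Field k]

theorem krull_fg [IsAlgClosed k] {Γ1 : Type} [Field Γ1] [Algebra k Γ1]
    (hfg : (⊤ : IntermediateField k Γ1).FG) (s : Γ1 ⊗[k] Γ1) (hs : s ≠ 0) :
    ∃ m, s ∉ (dI k Γ1) ^ m := by
  have h1 : Algebra.EssFiniteType k Γ1 := IntermediateField.fg_top_iff.1 hfg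
  have h2 : Algebra.EssFiniteType Γ1 (Γ1 ⊗[k] Γ1) := inferInstance
  have h3 : IsNoetherianRing (Γ1 ⊗[k] Γ1) := Algebra.EssFiniteType.isNoetherianRing Γ1 _
  have h4 : IsDomain (Γ1 ⊗[k] Γ1) := isDomain_tensor Γ1 Γ1
  have h5 : dI k Γ1 ≠ ⊤ := (dI_isPrime k Γ1).ne_top
  have h6 := Ideal.iInf_pow_eq_bot_of_isDomain (dI k Γ1) h5
  by_contra hcon
  push Not at hcon
  have h7 : s ∈ ⨅ i : ℕ, (dI k Γ1) ^ i := (Submodule.mem_iInf _).2 hcon
  rw [h6] at h7
  exact hs (by simpa using h7)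

/-- descent of separability to a subfield containing the coefficients of the minimal polynomial -/
lemma SEP1_sep {K Γ L : Type} [Field K] [Field Γ] [Algebra K Γ] [Field L] (i : L →+* Γ)
    {K' : Type} [Field K'] [Algebra K' L] (z' : L) (hz : IsSeparable K (i z'))
    (hc : ∀ n, ∃ c : K', i (algebraMap K' L c) = algebraMap K Γ ((minpoly K (i z')).coeff n)) :
    IsSeparable K' z' := by
  set f := minpoly K (i z') with hf
  have hlift : f.map (algebraMap K Γ) ∈ Polynomial.lifts (i.comp (algebraMap K' L)) := by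
    rw [Polynomial.lifts_iff_coeff_lifts]
    intro n
    obtain ⟨c, hc⟩ := hc n
    exact ⟨c, by rw [Polynomial.coeff_map, ← hc]; rfl⟩
  obtain ⟨g, hg⟩ := (Polynomial.mem_lifts _).1 hlift
  have hgsep : g.Separable := by
    rw [← Polynomial.separable_map (i.comp (algebraMap K' L)), hg]
    exact Polynomial.Separable.map hz
  have hroot : Polynomial.aeval z' g = 0 := by
    apply i.injective
    rw [map_zero, Polynomial.aeval_def, Polynomial.hom_eval₂, ← Polynomial.eval_map, hg,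
      Polynomial.eval_map_algebraMap, hf, minpoly.aeval]
  exact Polynomial.Separable.of_dvd hgsep (minpoly.dvd K' z' hroot)

lemma SEP1_tens {Γ : Type} [Field Γ] [Algebra k Γ] (s : Γ ⊗[k] Γ) :
    ∃ Z : Finset Γ, ∀ Γ1 : IntermediateField k Γ, (Z : Set Γ) ⊆ (Γ1 : Set Γ) →
      s ∈ Set.range (Algebra.TensorProduct.map Γ1.val Γ1.val : Γ1 ⊗[k] Γ1 →ₐ[k] Γ ⊗[k] Γ) := by
  classical
  induction s using TensorProduct.induction_on with
  | zero => exact ⟨∅, fun Γ1 _ => ⟨0, map_zero _⟩⟩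
  | tmul a b =>
    refine ⟨{a, b}, fun Γ1 h => ?_⟩
    have ha : a ∈ Γ1 := h (by simp)
    have hb : b ∈ Γ1 := h (by simp)
    exact ⟨(⟨a, ha⟩ : Γ1) ⊗ₜ[k] (⟨b, hb⟩ : Γ1), Algebra.TensorProduct.map_tmul _ _ _ _⟩
  | add x y hx hy =>
    obtain ⟨Z1, h1⟩ := hx
    obtain ⟨Z2, h2⟩ := hy
    refine ⟨Z1 ∪ Z2, fun Γ1 h => ?_⟩
    rw [Finset.coe_union, Set.union_subset_iff] at h
    obtain ⟨x1, hx1⟩ := h1 Γ1 h.1
    obtain ⟨y1, hy1⟩ := h2 Γ1 h.2
    exact ⟨x1 + y1, by rw [map_add, hx1, hy1]⟩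

lemma SEP1_coeff {Γ : Type} [Field Γ] [Algebra k Γ] (B : Set Γ)
    (f : Polynomial (IntermediateField.adjoin k B)) :
    ∃ T : Finset Γ, (T : Set Γ) ⊆ B ∧
      ∀ n, ((f.coeff n : IntermediateField.adjoin k B) : Γ) ∈
        IntermediateField.adjoin k (T : Set Γ) := by
  classical
  have h : ∀ n, ∃ T : Finset Γ, (T : Set Γ) ⊆ B ∧
      ((f.coeff n : IntermediateField.adjoin k B) : Γ) ∈
        IntermediateField.adjoin k (T : Set Γ) := fun n =>
    IntermediateField.exists_finset_of_mem_adjoin (f.coeff n).2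
  choose T hT hTc using h
  refine ⟨(Finset.range (f.natDegree + 1)).biUnion T, ?_, fun n => ?_⟩
  · intro x hx
    simp only [Finset.coe_biUnion, Set.mem_iUnion] at hx
    obtain ⟨n, -, hx⟩ := hx
    exact hT n hx
  · rcases le_or_gt n f.natDegree with hn | hn
    · refine IntermediateField.adjoin.mono _ _ _ ?_ (hTc n)
      intro x hx
      simp only [Finset.coe_biUnion, Set.mem_iUnion]
      exact ⟨n, by simpa [Nat.lt_succ_iff] using hn, hx⟩
    · rw [Polynomial.coeff_eq_zero_of_natDegree_lt hn]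
      exact zero_mem _


theorem exists_subfield {Γ : Type} [Field Γ] [Algebra k Γ] (B : Set Γ)
    (hB' : Algebra.IsSeparable (IntermediateField.adjoin k B) Γ) (s : Γ ⊗[k] Γ) :
    ∃ (Γ1 : IntermediateField k Γ) (B1 : Set Γ1), (⊤ : IntermediateField k Γ1).FG ∧ B1.Finite ∧
      (∀ x ∈ B1, (x : Γ) ∈ B) ∧ Algebra.IsSeparable (IntermediateField.adjoin k B1) Γ1 ∧
      s ∈ Set.range (Algebra.TensorProduct.map Γ1.val Γ1.val : Γ1 ⊗[k] Γ1 →ₐ[k] Γ ⊗[k] Γ) := by
  classical
  obtain ⟨Z, hZ⟩ := SEP1_tens s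
  choose T hTB hTc using fun z : Γ => SEP1_coeff (k := k) B (minpoly (IntermediateField.adjoin k B) z)
  set B0 : Finset Γ := Z.biUnion T with hB0
  have hB0B : (B0 : Set Γ) ⊆ B := by
    intro x hx
    simp only [hB0, Finset.coe_biUnion, Set.mem_iUnion] at hx
    obtain ⟨n, -, hx⟩ := hx
    exact hTB n hx
  set Γ1 : IntermediateField k Γ := IntermediateField.adjoin k ((B0 ∪ Z : Finset Γ) : Set Γ) with hΓ1
  have hsub : ((B0 ∪ Z : Finset Γ) : Set Γ) ⊆ Γ1 := IntermediateField.subset_adjoin k _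
  have hB0Γ : ∀ x ∈ B0, x ∈ Γ1 := fun x hx => hsub (by simp [hx])
  have hZΓ : ∀ x ∈ Z, x ∈ Γ1 := fun x hx => hsub (by simp [hx])
  set B1 : Set Γ1 := {x | (x : Γ) ∈ B0} with hB1
  have hB1im : (Γ1.val : Γ1 → Γ) '' B1 = (B0 : Set Γ) := by
    ext x
    constructor
    · rintro ⟨y, hy, rfl⟩; exact hy
    · intro hx; exact ⟨⟨x, hB0Γ x hx⟩, hx, rfl⟩
  have hmap : (IntermediateField.adjoin k B1).map Γ1.val = IntermediateField.adjoin k (B0 : Set Γ) := by
    rw [IntermediateField.adjoin_map, hB1im]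
  refine ⟨Γ1, B1, ?_, ?_, fun x hx => hB0B hx, ?_, hZ Γ1 (fun x hx => hZΓ x hx)⟩
  · rw [IntermediateField.fg_top_iff, IntermediateField.essFiniteType_iff]
    exact ⟨B0 ∪ Z, rfl⟩
  · exact Set.Finite.of_finite_image (f := (Γ1.val : Γ1 → Γ)) (by rw [hB1im]; exact B0.finite_toSet)
      (Γ1.val.toRingHom.injective.injOn)
  · set M := (separableClosure (IntermediateField.adjoin k B1) Γ1).restrictScalars k with hM
    have hle : Γ1 ≤ M.map Γ1.val := by
      conv_lhs => rw [hΓ1]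
      rw [IntermediateField.adjoin_le_iff]
      intro x hx
      rw [Finset.coe_union] at hx
      rcases hx with hx | hx
      · refine ⟨⟨x, hB0Γ x hx⟩, ?_, rfl⟩
        have h1 : (⟨x, hB0Γ x hx⟩ : Γ1) ∈ IntermediateField.adjoin k B1 :=
          IntermediateField.subset_adjoin k _ hx
        exact (separableClosure (IntermediateField.adjoin k B1) Γ1).algebraMap_mem ⟨_, h1⟩
      · refine ⟨⟨x, hZΓ x hx⟩, ?_, rfl⟩
        have h1 : (⟨x, hZΓ x hx⟩ : Γ1) ∈ separableClosure (IntermediateField.adjoin k B1) Γ1 := by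
          rw [mem_separableClosure_iff]
          refine SEP1_sep (K := IntermediateField.adjoin k B) (algebraMap Γ1 Γ) _
            (hB'.isSeparable' x) fun n => ?_
          have h2 : (((minpoly (IntermediateField.adjoin k B) x).coeff n :
              IntermediateField.adjoin k B) : Γ) ∈ (IntermediateField.adjoin k B1).map Γ1.val := by
            rw [hmap]
            refine IntermediateField.adjoin.mono _ _ _ ?_ (hTc x n)
            intro y hy
            simp only [hB0, Finset.coe_biUnion, Set.mem_iUnion]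
            exact ⟨x, hx, hy⟩
          obtain ⟨c, hc, hc'⟩ := h2
          exact ⟨⟨c, hc⟩, hc'⟩
        exact h1
    refine ⟨fun y => ?_⟩
    obtain ⟨y', hy', hyy⟩ := hle y.2
    have : y' = y := Γ1.val.toRingHom.injective hyy
    subst this
    exact mem_separableClosure_iff.1 hy'


end C74
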