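import Pool.Agent.MP_35f30a_al.C74.Ord

/-!
ROW SGA.  (SG-adj).  Blueprint section 6.

`K' = K(u)`, `B` a separating transcendence basis of `K/k`.
* `u` transcendental over `K`: `B ∪ {u}` works (`K'` is separable algebraic over `k(B)(u)` because `K` is over `k(B)`).
* `u` algebraic over `K`, hence over `k(B)`, hence over `k(B1)` for a finite `B1 ⊆ B`.  `K1 := k(B1)(u)` is a finitely
  generated extension of the perfect field `k`: it has a separating transcendence basis `B1'`
  (Mathlib: `exists_isTranscendenceBasis_and_isSeparable_of_perfectField`, see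
  Mathlib/FieldTheory/SeparablyGenerated.lean).  Then `B' := B1' ∪ (B \ B1)`: `K'` is generated by `K` and `K1`; `K1` is separable
  over `k(B1')`, `K` over `k(B) ⊆ k(B \ B1) K1`, so `K'/k(B')` is separable algebraic (transitivity);
  algebraic independence: `B \ B1` is algebraically independent over `k(B1)`, so over the algebraic extension `K1`, so over
  `k(B1')`.
-/

set_option autoImplicit false

open scoped TensorProduct Polynomial

namespace C74

/-- separability is transported along towers of images -/
theorem SGA_sep {k : Type} [Field k] {K K' : Type} [Field K] [Field K']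
    [Algebra k K] [Algebra k K'] [Algebra K K'] [IsScalarTower k K K'] (B : Set K)
    (hB : Algebra.IsSeparable (IntermediateField.adjoin k B) K) (F : IntermediateField k K')
    (hF : ∀ b ∈ B, IsSeparable F (algebraMap K K' b)) (x : K) :
    IsSeparable F (algebraMap K K' x) := by
  -- the ring hom `k(B) → separableClosure F K'`
  have h1 : ∀ y ∈ IntermediateField.adjoin k B, algebraMap K K' y ∈ separableClosure F K' := by
    intro y hy
    have hle : IntermediateField.adjoin k B ≤
        ((separableClosure F K').restrictScalars k).comap (IsScalarTower.toAlgHom k K K') := by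
      rw [IntermediateField.adjoin_le_iff]
      intro b hb
      change algebraMap K K' b ∈ separableClosure F K'
      rw [mem_separableClosure_iff]
      exact hF b hb
    exact hle hy
  let φ : IntermediateField.adjoin k B →+* separableClosure F K' :=
    ((algebraMap K K').comp (algebraMap (IntermediateField.adjoin k B) K)).codRestrict
      (separableClosure F K').toSubfield.toSubring (fun y => h1 y.1 y.2)
  have hφ : (algebraMap (separableClosure F K') K').comp φ =
      (algebraMap K K').comp (algebraMap (IntermediateField.adjoin k B) K) := by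
    ext y; rfl
  have hx : IsSeparable (IntermediateField.adjoin k B) x := hB.isSeparable _ x
  set p := minpoly (IntermediateField.adjoin k B) x with hp
  have hps : p.Separable := hx
  have hq : (p.map φ).Separable := hps.map
  have hq0 : Polynomial.aeval (algebraMap K K' x) (p.map φ) = 0 := by
    rw [Polynomial.aeval_def, Polynomial.eval₂_map, hφ, ← Polynomial.hom_eval₂]
    have : Polynomial.eval₂ (algebraMap (IntermediateField.adjoin k B) K) x p = 0 := by
      have := minpoly.aeval (IntermediateField.adjoin k B) x
      rwa [Polynomial.aeval_def] at this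
    rw [this, map_zero]
  have hxs : IsSeparable (separableClosure F K') (algebraMap K K' x) :=
    hq.of_dvd (minpoly.dvd _ _ hq0)
  exact IsSeparable.of_algebra_isSeparable_of_isSeparable F hxs

/-- criterion for separability of `K' = K(U)` over an intermediate field -/
theorem SGA_top {k : Type} [Field k] {K K' : Type} [Field K] [Field K']
    [Algebra k K] [Algebra k K'] [Algebra K K'] [IsScalarTower k K K'] (B : Set K)
    (hB : Algebra.IsSeparable (IntermediateField.adjoin k B) K) (F : IntermediateField k K')
    (hF : ∀ b ∈ B, IsSeparable F (algebraMap K K' b)) (U : Set K')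
    (hU : IntermediateField.adjoin K U = ⊤) (hUs : ∀ u ∈ U, IsSeparable F u) :
    Algebra.IsSeparable F K' := by
  rw [← separableClosure.eq_top_iff, eq_top_iff]
  intro x _
  have hx : x ∈ IntermediateField.adjoin K U := by rw [hU]; trivial
  induction hx using IntermediateField.adjoin_induction with
  | mem u hu => exact mem_separableClosure_iff.2 (hUs u hu)
  | algebraMap y => exact mem_separableClosure_iff.2 (SGA_sep B hB F hF y)
  | add x y _ _ hx hy => exact add_mem (hx trivial) (hy trivial)
  | inv x _ hx => exact inv_mem (hx trivial)
  | mul x y _ _ hx hy => exact mul_mem (hx trivial) (hy trivial)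

/-- algebraicity over `k(S)` only involves a finite part of `S` -/
theorem SGA_fin {k : Type} [Field k] {K' : Type} [Field K'] [Algebra k K'] (S : Set K') (u : K')
    (hu : IsAlgebraic (IntermediateField.adjoin k S) u) :
    ∃ T : Finset K', (T : Set K') ⊆ S ∧ IsAlgebraic (IntermediateField.adjoin k (T : Set K')) u := by
  classical
  obtain ⟨p, hp0, hp⟩ := hu
  have hc : ∀ n : ℕ, ∃ T : Finset K', (T : Set K') ⊆ S ∧
      ((p.coeff n : IntermediateField.adjoin k S) : K') ∈ IntermediateField.adjoin k (T : Set K') :=
    fun n => IntermediateField.exists_finset_of_mem_adjoin (p.coeff n).2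
  choose T hTS hT using hc
  refine ⟨p.support.biUnion T, ?_, ?_⟩
  · intro x hx
    simp only [Finset.coe_biUnion, Set.mem_iUnion] at hx
    obtain ⟨n, _, hn⟩ := hx
    exact hTS n hn
  · set L := IntermediateField.adjoin k ((p.support.biUnion T : Finset K') : Set K') with hL
    have hmem : ∀ n, ((p.coeff n : IntermediateField.adjoin k S) : K') ∈ L := by
      intro n
      by_cases hn : n ∈ p.support
      · refine IntermediateField.adjoin.mono k _ _ ?_ (hT n)
        intro x hx
        simp only [Finset.coe_biUnion, Set.mem_iUnion]
        exact ⟨n, hn, hx⟩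
      · rw [Polynomial.notMem_support_iff.1 hn]
        exact zero_mem _
    have hl : p.map (algebraMap (IntermediateField.adjoin k S) K') ∈
        Polynomial.lifts (algebraMap L K') := by
      rw [Polynomial.lifts_iff_coeff_lifts]
      intro n
      rw [Polynomial.coeff_map]
      exact ⟨⟨_, hmem n⟩, rfl⟩
    obtain ⟨q, hq⟩ := hl
    have hq' : q.map (algebraMap L K') = p.map (algebraMap (IntermediateField.adjoin k S) K') := hq
    refine ⟨q, ?_, ?_⟩
    · rintro rfl
      rw [Polynomial.map_zero] at hq'
      exact hp0 ((Polynomial.map_eq_zero _).1 hq'.symm)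
    · rw [Polynomial.aeval_def, Polynomial.eval₂_eq_eval_map, hq', ← Polynomial.eval₂_eq_eval_map,
        ← Polynomial.aeval_def, hp]

/-- algebraic independence passes to algebraic extensions of the ground field inside `K'` -/
theorem SGA_indep {k : Type} [Field k] {K' : Type} [Field K'] [Algebra k K'] (T D : Set K')
    (hD : AlgebraicIndependent k ((↑) : (T ∪ D : Set K') → K')) (hTD : Disjoint T D)
    (L : IntermediateField k K') (hL : ∀ x ∈ L, IsAlgebraic (IntermediateField.adjoin k T) x) :
    AlgebraicIndependent L ((↑) : D → K') := by
  -- over `Algebra.adjoin k T`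
  have h1 : AlgebraicIndependent (Algebra.adjoin k T) ((↑) : D → K') := by
    have h := hD.adjoin_of_disjoint (s := {x : (T ∪ D : Set K') | (x : K') ∈ T})
      (t := {x : (T ∪ D : Set K') | (x : K') ∈ D}) (by
        rw [Set.disjoint_left]
        rintro x hx hx'
        exact Set.disjoint_left.1 hTD hx hx')
    have him : ((↑) : (T ∪ D : Set K') → K') '' {x : (T ∪ D : Set K') | (x : K') ∈ T} = T := by
      ext x
      constructor
      · rintro ⟨y, hy, rfl⟩; exact hy
      · intro hx; exact ⟨⟨x, Or.inl hx⟩, hx, rfl⟩
    rw [him] at h
    exact h.comp (fun x : D => (⟨⟨x.1, Or.inr x.2⟩, x.2⟩ :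
      {x : (T ∪ D : Set K') | (x : K') ∈ D})) (by
        intro a b hab
        apply Subtype.ext
        have := congrArg (fun z : {x : (T ∪ D : Set K') | (x : K') ∈ D} => ((z : (T ∪ D : Set K')) : K')) hab
        exact this)
  have h2 : AlgebraicIndependent (Subalgebra.algebraicClosure (Algebra.adjoin k T) K')
      ((↑) : D → K') := h1.subalgebraAlgebraicClosure
  have hmem : ∀ x ∈ L, x ∈ Subalgebra.algebraicClosure (Algebra.adjoin k T) K' := by
    intro x hx
    rw [Subalgebra.mem_algebraicClosure]
    exact IntermediateField.isAlgebraic_adjoin_iff.1 (hL x hx)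
  let φ : L →+* Subalgebra.algebraicClosure (Algebra.adjoin k T) K' :=
    (algebraMap L K').codRestrict
      (Subalgebra.algebraicClosure (Algebra.adjoin k T) K').toSubring (fun y => hmem y.1 y.2)
  let _ : Algebra L (Subalgebra.algebraicClosure (Algebra.adjoin k T) K') := φ.toAlgebra
  have : IsScalarTower L (Subalgebra.algebraicClosure (Algebra.adjoin k T) K') K' :=
    IsScalarTower.of_algebraMap_eq (fun y => rfl)
  exact h2.restrictScalars (R := L) (RingHom.injective φ)

/-- (SG-adj) -/
theorem SG_adjoin {k : Type} [Field k] [IsAlgClosed k] {K K' : Type} [Field K] [Field K']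
    [Algebra k K] [Algebra k K'] [Algebra K K'] [IsScalarTower k K K'] (hK : SG k K) (u : K')
    (hu : IntermediateField.adjoin K {u} = ⊤) : SG k K' := by
  classical
  obtain ⟨B, hBi, hB⟩ := hK
  by_cases htr : Transcendental K u
  · -- `u` transcendental
    have hY : AlgebraicIndependent K (fun _ : Unit => u) := by
      rw [algebraicIndependent_unique_type_iff]; exact htr
    have hX : AlgebraicIndependent k (Sum.elim (fun _ : Unit => u) (algebraMap K K' ∘ ((↑) : B → K))) :=
      hBi.sumElim_comp hY
    refine ⟨_, hX.to_subtype_range, ?_⟩
    set B' : Set K' := Set.range (Sum.elim (fun _ : Unit => u) (algebraMap K K' ∘ ((↑) : B → K)))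
      with hB'
    have hmem : ∀ x ∈ B', IsSeparable (IntermediateField.adjoin k B') x := by
      intro x hx
      exact isSeparable_algebraMap (⟨x, IntermediateField.subset_adjoin k B' hx⟩ :
        IntermediateField.adjoin k B')
    refine SGA_top B hB _ ?_ {u} hu ?_
    · intro b hb
      exact hmem _ ⟨Sum.inr ⟨b, hb⟩, rfl⟩
    · intro v hv
      rw [Set.mem_singleton_iff.1 hv]
      exact hmem _ ⟨Sum.inl (), rfl⟩
  · -- `u` algebraic
    have halg : IsAlgebraic K u := by
      rw [Transcendental, not_not] at htr; exact htr
    -- everything inside `K'`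
    set S : Set K' := algebraMap K K' '' B with hS
    have hSi : AlgebraicIndependent k ((↑) : S → K') := by
      have h := (hBi.map' (f := IsScalarTower.toAlgHom k K K')
        (FaithfulSMul.algebraMap_injective K K')).to_subtype_range
      have hr : Set.range (⇑(IsScalarTower.toAlgHom k K K') ∘ ((↑) : B → K)) = S := by
        rw [Set.range_comp, Subtype.range_coe]; rfl
      rwa [hr] at h
    have hub : IsAlgebraic (IntermediateField.adjoin k S) u := by
      have : Algebra.IsAlgebraic (IntermediateField.adjoin k B) K := inferInstance
      obtain ⟨p, hp0, hp⟩ := halg.restrictScalars (IntermediateField.adjoin k B)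
      have h1 : ∀ y ∈ IntermediateField.adjoin k B,
          algebraMap K K' y ∈ IntermediateField.adjoin k S := by
        intro y hy
        have hle : IntermediateField.adjoin k B ≤
            (IntermediateField.adjoin k S).comap (IsScalarTower.toAlgHom k K K') := by
          rw [IntermediateField.adjoin_le_iff]
          intro b hb
          exact IntermediateField.subset_adjoin k S ⟨b, hb, rfl⟩
        exact hle hy
      let φ : IntermediateField.adjoin k B →+* IntermediateField.adjoin k S :=
        ((algebraMap K K').comp (algebraMap (IntermediateField.adjoin k B) K)).codRestrict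
          (IntermediateField.adjoin k S).toSubfield.toSubring (fun y => h1 y.1 y.2)
      have hφ : (algebraMap (IntermediateField.adjoin k S) K').comp φ =
          algebraMap (IntermediateField.adjoin k B) K' := by
        ext y; rfl
      refine ⟨p.map φ, (Polynomial.map_ne_zero_iff φ.injective).2 hp0, ?_⟩
      rw [Polynomial.aeval_def, Polynomial.eval₂_map, hφ, ← Polynomial.aeval_def, hp]
    obtain ⟨T, hTS, hT⟩ := SGA_fin S u hub
    set K1 : IntermediateField k K' := IntermediateField.adjoin k ((T : Set K') ∪ {u}) with hK1
    have hfg : Algebra.EssFiniteType k K1 := by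
      rw [IntermediateField.essFiniteType_iff]
      exact ⟨T ∪ {u}, by simp [hK1]⟩
    obtain ⟨s, hsi, hss⟩ := exists_isTranscendenceBasis_and_isSeparable_of_perfectField k K1
    have hDi : AlgebraicIndependent K1 ((↑) : (S \ (T : Set K') : Set K') → K') := by
      refine SGA_indep (T : Set K') _ ?_ Set.disjoint_sdiff_right K1 ?_
      · have : (T : Set K') ∪ (S \ T) = S := Set.union_sdiff_cancel hTS
        rw [this]; exact hSi
      · intro x hx
        have hle : K1 ≤ (algebraicClosure (IntermediateField.adjoin k (T : Set K')) K').restrictScalars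
            k := by
          rw [hK1, IntermediateField.adjoin_le_iff]
          rintro y (hy | hy)
          · change y ∈ algebraicClosure (IntermediateField.adjoin k (T : Set K')) K'
            rw [mem_algebraicClosure_iff]
            exact isAlgebraic_algebraMap (⟨y, IntermediateField.subset_adjoin k _ hy⟩ :
              IntermediateField.adjoin k (T : Set K'))
          · change y ∈ algebraicClosure (IntermediateField.adjoin k (T : Set K')) K'
            rw [mem_algebraicClosure_iff, Set.mem_singleton_iff.1 hy]
            exact hT
        exact mem_algebraicClosure_iff.1 (hle hx)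
    have hX := hsi.1.sumElim_comp hDi
    refine ⟨_, hX.to_subtype_range, ?_⟩
    set B' : Set K' := Set.range (Sum.elim ((↑) : (S \ (T : Set K') : Set K') → K')
      (algebraMap K1 K' ∘ ((↑) : s → K1))) with hB'
    have hmem : ∀ x ∈ B', IsSeparable (IntermediateField.adjoin k B') x := by
      intro x hx
      exact isSeparable_algebraMap (⟨x, IntermediateField.subset_adjoin k B' hx⟩ :
        IntermediateField.adjoin k B')
    have hK1s : ∀ x : K1, IsSeparable (IntermediateField.adjoin k B') (algebraMap K1 K' x) := by
      intro x
      refine SGA_sep (s : Set K1) hss _ ?_ x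
      intro b hb
      exact hmem _ ⟨Sum.inr ⟨b, hb⟩, rfl⟩
    refine SGA_top B hB _ ?_ {u} hu ?_
    · intro b hb
      by_cases hbT : algebraMap K K' b ∈ (T : Set K')
      · exact hK1s ⟨algebraMap K K' b, IntermediateField.subset_adjoin k _ (Or.inl hbT)⟩
      · exact hmem _ ⟨Sum.inl ⟨algebraMap K K' b, ⟨b, hb, rfl⟩, hbT⟩, rfl⟩
    · intro v hv
      rw [Set.mem_singleton_iff.1 hv]
      exact hK1s ⟨u, IntermediateField.subset_adjoin k _ (Or.inr rfl)⟩

end C74
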