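import Pool.Agent.MP_35f30a_al.C74.FRD

/-!
ROW SQ1.  The quotient bimodule of SOLVE.  Blueprint section 5.

`N1 := O × P`, `K := {(act C x0, - C * B') | C ∈ P}`, a `k[X]`-submodule stable under
`x ↦ (b x.1, l b x.2)` (it sends the element of `C` to that of `l b * C`) and `x ↦ (x.1 b, r (op b) x.2)`.
`N := N1 ⧸ K`, `L, R` induced (`Submodule.mapQ`), `e := [(1,0)]`.
* saturated: `(act C x0, - C B') = X (y,z)` gives `πP C * πP B' = 0`, `πP C = 0` (`MvPolynomial B Γ` is a domain,
  `πP B' ≠ 0`), `C = X C'`, and `(y,z) = (act C' x0, - C' B')`.  Hence `N` is `X`-regular.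
* `C ↦ (act C x0, - C B')` is injective; `K` is complete, `K ∩ X^n N1 = X^n K`, so `N` is complete and separated.
* `N/X = (Γ ⊕ MvPolynomial B Γ) / {(ε(πC) π x0, - πC πB')}`; left and right `Γ`-structure agree (`nc`).  The class of `(1,0)`
  is nonzero: `(γ,0) = (ε(c) π x0, - c πB')` gives `c = 0`, `γ = 0`.  Extend it to a `Γ`-basis of `N/X`, index set
  `Λ0` of the remaining basis vectors, `m i` := lifts.  `gen`, `ind` say exactly this.
-/

set_option autoImplicit false

open scoped TensorProduct Polynomial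
open MulOpposite (op)

namespace C74

variable {k : Type} [Field k]


section aux

/-- an algebra action descends to a quotient by a stable submodule -/
noncomputable def actQ {R A N : Type} [CommRing R] [Ring A] [Algebra R A] [AddCommGroup N]
    [Module R N] (ρ : A →ₐ[R] Module.End R N) (K : Submodule R N)
    (h : ∀ a, K ≤ K.comap (ρ a)) : A →ₐ[R] Module.End R (N ⧸ K) where
  toFun a := K.mapQ K (ρ a) (h a)
  map_one' := by
    ext x
    simp
  map_mul' a b := by
    ext x
    simp
  map_zero' := by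
    ext x
    simp
  map_add' a b := by
    ext x
    simp
  commutes' r := by
    ext x
    simp [Module.algebraMap_end_apply]

lemma actQ_mk {R A N : Type} [CommRing R] [Ring A] [Algebra R A] [AddCommGroup N]
    [Module R N] (ρ : A →ₐ[R] Module.End R N) (K : Submodule R N)
    (h : ∀ a, K ≤ K.comap (ρ a)) (a : A) (n : N) :
    actQ ρ K h a (K.mkQ n) = K.mkQ (ρ a n) := rfl

variable {O : Type} [Ring O] [Algebra k[X] O] {P : Type} [Ring P] [Algebra k[X] P]

/-- the left action on `O × P` -/
noncomputable def sqL (l : O →ₐ[k[X]] P) : O →ₐ[k[X]] Module.End k[X] (O × P) where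
  toFun b := LinearMap.prodMap (LinearMap.mulLeft k[X] b) (LinearMap.mulLeft k[X] (l b))
  map_one' := by
    apply LinearMap.ext; intro x; simp
  map_mul' a b := by
    apply LinearMap.ext; intro x; simp
  map_zero' := by
    apply LinearMap.ext; intro x; simp
  map_add' a b := by
    apply LinearMap.ext; intro x; simp [add_mul]
  commutes' r := by
    apply LinearMap.ext; intro x
    rw [Module.algebraMap_end_apply]
    apply Prod.ext
    · change algebraMap k[X] O r * x.1 = r • x.1
      rw [Algebra.smul_def]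
    · change l (algebraMap k[X] O r) * x.2 = r • x.2
      rw [AlgHom.commutes, Algebra.smul_def]

lemma sqL_apply (l : O →ₐ[k[X]] P) (b : O) (x : O × P) :
    sqL l b x = (b * x.1, l b * x.2) := rfl

/-- the right action on `O × P` -/
noncomputable def sqR (r : Oᵐᵒᵖ →ₐ[k[X]] P) : Oᵐᵒᵖ →ₐ[k[X]] Module.End k[X] (O × P) where
  toFun b := LinearMap.prodMap (LinearMap.mulRight k[X] b.unop) (LinearMap.mulLeft k[X] (r b))
  map_one' := by
    apply LinearMap.ext; intro x; simp
  map_mul' a b := by
    apply LinearMap.ext; intro x; simp [mul_assoc]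
  map_zero' := by
    apply LinearMap.ext; intro x; simp
  map_add' a b := by
    apply LinearMap.ext; intro x; simp [add_mul, mul_add]
  commutes' s := by
    apply LinearMap.ext; intro x
    rw [Module.algebraMap_end_apply]
    apply Prod.ext
    · change x.1 * algebraMap k[X] O s = s • x.1
      rw [Algebra.smul_def, Algebra.commutes]
    · change r (algebraMap k[X] Oᵐᵒᵖ s) * x.2 = s • x.2
      rw [AlgHom.commutes, Algebra.smul_def]

lemma sqR_apply (r : Oᵐᵒᵖ →ₐ[k[X]] P) (b : O) (x : O × P) :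
    sqR r (op b) x = (x.1 * b, r (op b) * x.2) := rfl

/-- `C ↦ (act C x0, - C B')` -/
noncomputable def sqK (act : P →ₐ[k[X]] Module.End k[X] O) (B' : P) (x0 : O) :
    P →ₗ[k[X]] O × P where
  toFun C := (act C x0, -(C * B'))
  map_add' a b := by
    simp [add_mul, add_comm]
  map_smul' s a := by
    simp

lemma sqK_apply (act : P →ₐ[k[X]] Module.End k[X] O) (B' : P) (x0 : O) (C : P) :
    sqK act B' x0 C = (act C x0, -(C * B')) := rfl

lemma pow_reg {E : Type} [AddCommGroup E] [Module k[X] E] (h : XReg k E) (n : ℕ) (x : E)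
    (hx : (tX k) ^ n • x = 0) : x = 0 := by
  induction n with
  | zero => simpa using hx
  | succ n ih => rw [pow_succ', mul_smul] at hx; exact ih (h _ hx)

variable {Γ : Type} [Field Γ] [Algebra k Γ] {πO : O →+* Γ} {B : Type}
  {πP : P →+* MvPolynomial B Γ}

/-- saturation -/
lemma sqK_sat (hO : IsQC k πO) (hP : IsQC k πP) (act : P →ₐ[k[X]] Module.End k[X] O)
    (B' : P) (hB' : πP B' ≠ 0) (x0 : O) (C : P) (n : O × P)
    (h : tX k • n = sqK act B' x0 C) : ∃ C', C = tX k • C' ∧ n = sqK act B' x0 C' := by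
  rw [sqK_apply] at h
  have h1 : tX k • n.1 = act C x0 := congrArg Prod.fst h
  have h2 : tX k • n.2 = -(C * B') := congrArg Prod.snd h
  have h3 : πP C = 0 := by
    have : πP (C * B') = 0 := by
      have h4 : C * B' = tX k • (-n.2) := by rw [smul_neg, h2, neg_neg]
      rw [h4]; exact hP.kerX _
    rw [map_mul] at this
    exact (mul_eq_zero.mp this).resolve_right hB'
  obtain ⟨C', rfl⟩ := hP.ker C h3
  refine ⟨C', rfl, ?_⟩
  rw [sqK_apply]
  apply Prod.ext
  · have h5 : tX k • (n.1 - act C' x0) = 0 := by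
      rw [smul_sub, h1, map_smul, LinearMap.smul_apply, sub_self]
    exact sub_eq_zero.mp (hO.reg _ h5)
  · have h5 : tX k • (n.2 - -(C' * B')) = 0 := by
      rw [smul_sub, h2, smul_neg, smul_mul_assoc, sub_self]
    exact sub_eq_zero.mp (hP.reg _ h5)

lemma sqK_satn (hO : IsQC k πO) (hP : IsQC k πP) (act : P →ₐ[k[X]] Module.End k[X] O)
    (B' : P) (hB' : πP B' ≠ 0) (x0 : O) (j : ℕ) : ∀ (C : P) (n : O × P),
    (tX k) ^ j • n = sqK act B' x0 C → ∃ C', C = (tX k) ^ j • C' := by
  induction j with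
  | zero => intro C n _; exact ⟨C, by simp⟩
  | succ j ih =>
    intro C n h
    rw [pow_succ', mul_smul] at h
    obtain ⟨C', h1, h2⟩ := sqK_sat hO hP act B' hB' x0 C _ h
    obtain ⟨C'', h3⟩ := ih C' n h2
    exact ⟨C'', by rw [h1, h3, pow_succ', mul_smul]⟩

lemma prod_comp (hcO : IsComp k O) (hcP : IsComp k P) : IsComp k (O × P) where
  sep m h := by
    apply Prod.ext
    · refine hcO.sep _ (fun n => ?_)
      obtain ⟨b, hb⟩ := h n
      exact ⟨b.1, congrArg Prod.fst hb⟩
    · refine hcP.sep _ (fun n => ?_)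
      obtain ⟨b, hb⟩ := h n
      exact ⟨b.2, congrArg Prod.snd hb⟩
  lim u := by
    obtain ⟨m1, h1⟩ := hcO.lim (fun i => (u i).1)
    obtain ⟨m2, h2⟩ := hcP.lim (fun i => (u i).2)
    refine ⟨(m1, m2), fun n => ?_⟩
    obtain ⟨b1, hb1⟩ := h1 n
    obtain ⟨b2, hb2⟩ := h2 n
    refine ⟨(b1, b2), ?_⟩
    apply Prod.ext
    · rw [Prod.fst_add, Prod.fst_sum]
      exact hb1
    · rw [Prod.snd_add, Prod.snd_sum]
      exact hb2

/-- completeness of the quotient -/
lemma sqN_comp (hO : IsQC k πO) (hP : IsQC k πP) (hcO : IsComp k O) (hcP : IsComp k P)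
    (act : P →ₐ[k[X]] Module.End k[X] O)
    (B' : P) (hB' : πP B' ≠ 0) (x0 : O) :
    IsComp k ((O × P) ⧸ LinearMap.range (sqK act B' x0)) where
  sep m h := by
    obtain ⟨n, rfl⟩ := Submodule.mkQ_surjective _ m
    have h1 : ∀ j : ℕ, ∃ (C : P) (b : O × P), n = sqK act B' x0 C + (tX k) ^ j • b := by
      intro j
      obtain ⟨b, hb⟩ := h j
      obtain ⟨b', rfl⟩ := Submodule.mkQ_surjective _ b
      rw [← map_smul, ← sub_eq_zero, ← map_sub] at hb
      have h2 : n - (tX k) ^ j • b' ∈ LinearMap.range (sqK act B' x0) := by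
        rwa [← Submodule.ker_mkQ (LinearMap.range (sqK act B' x0)), LinearMap.mem_ker]
      obtain ⟨C, hC⟩ := h2
      exact ⟨C, b', by rw [hC]; abel⟩
    choose C b hCb using h1
    have h2 : ∀ j, ∃ D : P, C (j + 1) - C j = (tX k) ^ j • D := by
      intro j
      refine sqK_satn hO hP act B' hB' x0 j _ (b j - tX k • b (j + 1)) ?_
      have e1 := hCb j
      have e2 := hCb (j + 1)
      rw [map_sub, smul_sub]
      have e3 : sqK act B' x0 (C (j + 1)) + (tX k) ^ (j + 1) • b (j + 1) =
        sqK act B' x0 (C j) + (tX k) ^ j • b j := by rw [← e1, ← e2]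
      rw [pow_succ, mul_smul] at e3
      rw [sub_eq_sub_iff_add_eq_add, add_comm, ← e3]
    choose D hD using h2
    obtain ⟨m, hm⟩ := hcP.lim D
    have h3 : ∀ j, C j = C 0 + ∑ i ∈ Finset.range j, (tX k) ^ i • D i := by
      intro j
      induction j with
      | zero => simp
      | succ j ih =>
        rw [Finset.sum_range_succ, ← add_assoc, ← ih, ← hD j]; abel
    have h4 : n = sqK act B' x0 (C 0 + m) := by
      rw [← sub_eq_zero]
      refine (prod_comp hcO hcP).sep _ (fun j => ?_)
      obtain ⟨b1, hb1⟩ := hm j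
      refine ⟨b j - sqK act B' x0 b1, ?_⟩
      have h5 : C 0 + m = C j + (tX k) ^ j • b1 := by
        rw [h3 j, hb1]; abel
      rw [h5, map_add, map_smul, smul_sub]
      conv_lhs => rw [hCb j]
      abel
    rw [h4, ← LinearMap.mem_ker, Submodule.ker_mkQ]
    exact ⟨_, rfl⟩
  lim u := by
    choose v hv using fun i => Submodule.mkQ_surjective (LinearMap.range (sqK act B' x0)) (u i)
    obtain ⟨m, hm⟩ := (prod_comp hcO hcP).lim v
    refine ⟨Submodule.mkQ _ m, fun n => ?_⟩
    obtain ⟨b, hb⟩ := hm n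
    refine ⟨Submodule.mkQ _ b, ?_⟩
    conv_lhs => rw [hb]
    rw [map_add, map_sum, map_smul]
    congr 1
    refine Finset.sum_congr rfl (fun i _ => ?_)
    rw [map_smul, hv]

/-- the relations modulo `X` -/
noncomputable def sqW (γ : Γ) (f : MvPolynomial B Γ) :
    MvPolynomial B Γ →ₗ[Γ] Γ × MvPolynomial B Γ where
  toFun c := (MvPolynomial.constantCoeff c * γ, -(c * f))
  map_add' a b := by
    simp [add_mul, add_comm]
  map_smul' s a := by
    simp [MvPolynomial.smul_eq_C_mul, mul_assoc]

lemma sqW_apply (γ : Γ) (f : MvPolynomial B Γ) (c : MvPolynomial B Γ) :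
    sqW γ f c = (MvPolynomial.constantCoeff c * γ, -(c * f)) := rfl

omit [Algebra k Γ] in
/-- `(π, π)` is compatible with the relations -/
lemma sqK_res (act : P →ₐ[k[X]] Module.End k[X] O)
    (hact : ∀ C c, πO (act C c) = MvPolynomial.constantCoeff (πP C) * πO c)
    (B' : P) (x0 : O) (C : P) :
    (πO (sqK act B' x0 C).1, πP (sqK act B' x0 C).2) = sqW (πO x0) (πP B') (πP C) := by
  rw [sqK_apply, sqW_apply, hact, map_neg, map_mul]

end aux

theorem exists_solN {O : Type} [Ring O] [Algebra k[X] O] {Γ : Type} [Field Γ] [Algebra k Γ]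
    {πO : O →+* Γ} (hO : IsQC k πO) (hcO : IsComp k O) {B : Type} {P : Type} [Ring P]
    [Algebra k[X] P] {πP : P →+* MvPolynomial B Γ} (hP : IsQC k πP) (hcP : IsComp k P)
    (l : O →ₐ[k[X]] P) (r : Oᵐᵒᵖ →ₐ[k[X]] P) (hlr : ∀ a b, l a * r b = r b * l a)
    (hl : ∀ a, πP (l a) = MvPolynomial.C (πO a))
    (hr : ∀ a, πP (r (op a)) = MvPolynomial.C (πO a))
    (act : P →ₐ[k[X]] Module.End k[X] O) (hal : ∀ a c, act (l a) c = a * c)
    (har : ∀ a c, act (r (op a)) c = c * a)
    (hact : ∀ C c, πO (act C c) = MvPolynomial.constantCoeff (πP C) * πO c)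
    (B' : P) (hB' : πP B' ≠ 0) (x0 : O) :
    ∃ (N : Type) (_ : AddCommGroup N) (_ : Module k[X] N) (Λ0 : Type) (h : NCB k πO N Λ0)
      (q : (O × P) →ₗ[k[X]] N),
      (∀ b x, q (b * x.1, l b * x.2) = h.L b (q x)) ∧
      (∀ b x, q (x.1 * b, r (op b) * x.2) = h.R (op b) (q x)) ∧ h.e = q (1, 0) ∧
      ∀ C, q (act C x0, - (C * B')) = 0 := by
  classical
  let K : Submodule k[X] (O × P) := LinearMap.range (sqK act B' x0)
  have hKmem : ∀ C, sqK act B' x0 C ∈ K := fun C => ⟨C, rfl⟩
  have hL : ∀ b, K ≤ K.comap (sqL l b) := by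
    rintro b _ ⟨C, rfl⟩
    rw [Submodule.mem_comap]
    refine ⟨l b * C, ?_⟩
    rw [sqK_apply, sqK_apply, sqL_apply]
    simp only [map_mul, Module.End.mul_apply, hal, mul_neg, mul_assoc]
  have hR : ∀ b, K ≤ K.comap (sqR r b) := by
    rintro b _ ⟨C, rfl⟩
    rw [Submodule.mem_comap]
    obtain ⟨b, rfl⟩ := MulOpposite.op_surjective b
    refine ⟨r (op b) * C, ?_⟩
    rw [sqK_apply, sqK_apply, sqR_apply]
    simp only [map_mul, Module.End.mul_apply, har, mul_neg, mul_assoc]
  let N : Type := (O × P) ⧸ K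
  -- the vector space `N / X`
  let W : Submodule Γ (Γ × MvPolynomial B Γ) := LinearMap.range (sqW (πO x0) (πP B'))
  let V : Type := (Γ × MvPolynomial B Γ) ⧸ W
  let p1 : (O × P) →+ V := W.mkQ.toAddMonoidHom.comp (AddMonoidHom.prodMap πO.toAddMonoidHom
    πP.toAddMonoidHom)
  have hp1 : ∀ x : O × P, p1 x = W.mkQ (πO x.1, πP x.2) := fun x => rfl
  have hp1K : ∀ x ∈ K, p1 x = 0 := by
    rintro _ ⟨C, rfl⟩
    rw [hp1, sqK_res act hact, ← LinearMap.mem_ker, Submodule.ker_mkQ]
    exact ⟨_, rfl⟩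
  have hp1X : ∀ x : O × P, p1 (tX k • x) = 0 := by
    intro x
    rw [hp1]
    have e1 : πO (tX k • x).1 = 0 := hO.kerX _
    have e2 : πP (tX k • x).2 = 0 := hP.kerX _
    rw [e1, e2]
    exact map_zero _
  have hp1L : ∀ (b : O) (x : O × P), p1 (sqL l b x) = πO b • p1 x := by
    intro b x
    rw [hp1, hp1, sqL_apply, ← map_smul]
    congr 1
    apply Prod.ext
    · simp
    · simp [hl, MvPolynomial.smul_eq_C_mul]
  have hp1ker : ∀ x : O × P, p1 x = 0 → ∃ (C : P) (y : O × P), x = sqK act B' x0 C + tX k • y := by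
    intro x hx
    rw [hp1, ← LinearMap.mem_ker, Submodule.ker_mkQ] at hx
    obtain ⟨c, hc⟩ := hx
    obtain ⟨C, rfl⟩ := hP.surj c
    rw [← sqK_res act hact] at hc
    obtain ⟨y1, hy1⟩ := hO.ker (x.1 - (sqK act B' x0 C).1) (by
      rw [map_sub, sub_eq_zero]; exact (congrArg Prod.fst hc).symm)
    obtain ⟨y2, hy2⟩ := hP.ker (x.2 - (sqK act B' x0 C).2) (by
      rw [map_sub, sub_eq_zero]; exact (congrArg Prod.snd hc).symm)
    refine ⟨C, (y1, y2), ?_⟩
    apply Prod.ext
    · change x.1 = (sqK act B' x0 C).1 + tX k • y1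
      rw [← hy1]; abel
    · change x.2 = (sqK act B' x0 C).2 + tX k • y2
      rw [← hy2]; abel
  let p : N →+ V := QuotientAddGroup.lift K.toAddSubgroup p1 hp1K
  have hp : ∀ x : O × P, p (K.mkQ x) = p1 x := fun x => rfl
  have hpX : ∀ n : N, p (tX k • n) = 0 := by
    intro n
    obtain ⟨x, rfl⟩ := K.mkQ_surjective n
    rw [← map_smul, hp, hp1X]
  have hpL : ∀ (b : O) (n : N), p (actQ (sqL l) K hL b n) = πO b • p n := by
    intro b n
    obtain ⟨x, rfl⟩ := K.mkQ_surjective n
    rw [actQ_mk, hp, hp, hp1L]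
  have hpker : ∀ n : N, p n = 0 → ∃ n' : N, n = tX k • n' := by
    intro n hn
    obtain ⟨x, rfl⟩ := K.mkQ_surjective n
    obtain ⟨C, y, hy⟩ := hp1ker x hn
    refine ⟨K.mkQ y, ?_⟩
    rw [hy, map_add, map_smul]
    have : K.mkQ (sqK act B' x0 C) = 0 := by
      rw [← LinearMap.mem_ker, Submodule.ker_mkQ]; exact hKmem C
    rw [this, zero_add]
  let ebar : V := W.mkQ (1, 0)
  have hebar : ebar ≠ 0 := by
    intro h
    change W.mkQ (1, 0) = 0 at h
    rw [← LinearMap.mem_ker, Submodule.ker_mkQ] at h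
    obtain ⟨c, hc⟩ := h
    rw [sqW_apply] at hc
    have h1 : MvPolynomial.constantCoeff c * πO x0 = 1 := congrArg Prod.fst hc
    have h2 : -(c * πP B') = 0 := congrArg Prod.snd hc
    rw [neg_eq_zero] at h2
    rw [(mul_eq_zero.mp h2).resolve_right hB'] at h1
    simp at h1
  let V' : Type := V ⧸ (Submodule.span Γ {ebar})
  let bs := Module.Basis.ofVectorSpace Γ V'
  let Λ0 : Type := Module.Basis.ofVectorSpaceIndex Γ V'
  have hlift : ∀ i : Λ0, ∃ n : N, (Submodule.span Γ {ebar}).mkQ (p n) = bs i := by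
    intro i
    obtain ⟨v, hv⟩ := Submodule.mkQ_surjective _ (bs i)
    obtain ⟨⟨γ, f⟩, hw⟩ := W.mkQ_surjective v
    obtain ⟨a, ha⟩ := hO.surj γ
    obtain ⟨b, hb⟩ := hP.surj f
    refine ⟨K.mkQ (a, b), ?_⟩
    rw [hp, hp1, ha, hb, hw, hv]
  choose mm hmm using hlift
  have hsec : ∃ s : Γ → O, s 0 = 0 ∧ ∀ γ, πO (s γ) = γ := by
    refine ⟨fun γ => if γ = 0 then 0 else (hO.surj γ).choose, by simp, fun γ => ?_⟩
    by_cases h : γ = 0
    · simp [h]
    · simp only [h, if_false]
      exact (hO.surj γ).choose_spec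
  obtain ⟨s, hs0, hs⟩ := hsec
  have hsum : ∀ a : Λ0 →₀ O, p (a.sum (fun i c => actQ (sqL l) K hL c (mm i))) =
      a.sum (fun i c => πO c • p (mm i)) := by
    intro a
    rw [Finsupp.sum, Finsupp.sum, map_sum]
    exact Finset.sum_congr rfl (fun i _ => hpL _ _)
  let h : NCB k πO N Λ0 :=
    { L := actQ (sqL l) K hL
      R := actQ (sqR r) K hR
      comm := by
        intro a b
        obtain ⟨b, rfl⟩ := MulOpposite.op_surjective b
        apply LinearMap.ext
        intro n
        obtain ⟨x, rfl⟩ := K.mkQ_surjective n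
        rw [Module.End.mul_apply, Module.End.mul_apply, actQ_mk, actQ_mk, actQ_mk, actQ_mk,
          sqL_apply, sqR_apply, sqR_apply, sqL_apply]
        simp only [← mul_assoc, hlr]
      e := K.mkQ (1, 0)
      m := mm
      reg := by
        intro n hn
        obtain ⟨x, rfl⟩ := K.mkQ_surjective n
        rw [← map_smul, ← LinearMap.mem_ker, Submodule.ker_mkQ] at hn
        obtain ⟨C, hC⟩ := hn
        obtain ⟨C', _, h2⟩ := sqK_sat hO hP act B' hB' x0 C x hC.symm
        rw [h2, ← LinearMap.mem_ker, Submodule.ker_mkQ]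
        exact hKmem C'
      comp := sqN_comp hO hP hcO hcP act B' hB' x0
      he := by
        intro b
        rw [actQ_mk, actQ_mk, sqL_apply, sqR_apply]
        simp
      nc := by
        intro b n
        obtain ⟨x, rfl⟩ := K.mkQ_surjective n
        rw [actQ_mk, actQ_mk, sqL_apply, sqR_apply]
        obtain ⟨y1, hy1⟩ := hO.ker (b * x.1 - x.1 * b) (by
          rw [map_sub, map_mul, map_mul, mul_comm, sub_self])
        obtain ⟨y2, hy2⟩ := hP.ker (l b * x.2 - r (op b) * x.2) (by
          rw [map_sub, map_mul, map_mul, hl, hr, sub_self])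
        refine ⟨K.mkQ (y1, y2), ?_⟩
        rw [← map_sub, ← map_smul]
        congr 1
        exact Prod.ext hy1 hy2
      gen := by
        intro n
        let c := bs.repr ((Submodule.span Γ {ebar}).mkQ (p n))
        let a : Λ0 →₀ O := c.mapRange s hs0
        have h1 : (Submodule.span Γ {ebar}).mkQ
            (p n - p (a.sum (fun i c => actQ (sqL l) K hL c (mm i)))) = 0 := by
          rw [map_sub, hsum, Finsupp.sum_mapRange_index (by intro i; simp), Finsupp.sum, map_sum]
          simp only [hs, map_smul, hmm]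
          rw [sub_eq_zero]
          exact (bs.linearCombination_repr _).symm
        rw [← LinearMap.mem_ker, Submodule.ker_mkQ, Submodule.mem_span_singleton] at h1
        obtain ⟨γ, hγ⟩ := h1
        have h2 : p (n - a.sum (fun i c => actQ (sqL l) K hL c (mm i)) -
            actQ (sqL l) K hL (s γ) (K.mkQ (1, 0))) = 0 := by
          rw [map_sub, map_sub, ← hγ, hpL, hs, hp, hp1]
          simp only [map_one, map_zero]
          exact sub_self _
        obtain ⟨n', hn'⟩ := hpker _ h2
        refine ⟨s γ, a, n', ?_⟩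
        rw [← hn']
        abel
      ind := by
        intro a0 a n' hn
        have h1 := congrArg p hn
        rw [map_add, hsum, hpL, hpX, hp, hp1] at h1
        simp only [map_one, map_zero] at h1
        have h2 := congrArg (Submodule.span Γ {ebar}).mkQ h1
        rw [map_add, map_smul, map_zero] at h2
        have h3 : (Submodule.span Γ {ebar}).mkQ (W.mkQ (1, 0)) = 0 := by
          rw [← LinearMap.mem_ker, Submodule.ker_mkQ]
          exact Submodule.mem_span_singleton_self _
        rw [h3, smul_zero, zero_add, Finsupp.sum, map_sum] at h2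
        simp only [map_smul, hmm] at h2
        have h4 : ∀ i, πO (a i) = 0 := by
          have hli := bs.linearIndependent
          rw [linearIndependent_iff'] at hli
          have h5 := hli a.support (fun i => πO (a i)) h2
          intro i
          by_cases hi : i ∈ a.support
          · exact h5 i hi
          · rw [Finsupp.notMem_support_iff.mp hi, map_zero]
        refine ⟨?_, h4⟩
        have h6 : a.sum (fun i c => πO c • p (mm i)) = 0 :=
          Finset.sum_eq_zero (fun i _ => by
            change πO (a i) • p (mm i) = 0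
            rw [h4 i, zero_smul])
        rw [h6, add_zero] at h1
        exact (smul_eq_zero.mp h1).resolve_right hebar }
  refine ⟨N, inferInstance, inferInstance, Λ0, h, K.mkQ, fun b x => rfl, fun b x => rfl, rfl, ?_⟩
  intro C
  rw [← LinearMap.mem_ker, Submodule.ker_mkQ]
  exact hKmem C

end C74
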