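import Pool.Agent.MP_35f30a_al.C74.KF5
import Pool.Agent.MP_35f30a_al.C74.KF7

set_option autoImplicit false

open scoped TensorProduct Polynomial

namespace C74

variable {k : Type} [Field k] {X : Obj k}

theorem SZ1_Lpos (X : Obj k) : (0 : ℚ) < X.L := Nat.cast_pos.2 X.Lpos

theorem FT_mono {j : ℕ} {q q' : ℚ} (h : q ≤ q') : X.FT j q ≤ X.FT j q' := by
  unfold Obj.FT
  exact kF_mono (Int.floor_mono (mul_le_mul_of_nonneg_left h (SZ1_Lpos X).le))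

theorem FT_int {j : ℕ} (n : ℤ) : X.FT j ((n : ℚ) / X.L) = kF k X.A j n := by
  unfold Obj.FT
  rw [mul_div_cancel₀ _ (SZ1_Lpos X).ne', Int.floor_intCast]

theorem FTlt_iff_ceil {j : ℕ} {q : ℚ} {T : TP k X.D j} :
    X.FTlt q T ↔ T ∈ kF k X.A j (⌈(X.L : ℚ) * q⌉ - 1) := by
  have hL := SZ1_Lpos X
  constructor
  · rintro ⟨q', hq, hT⟩
    refine kF_mono ?_ hT
    have h1 : (X.L : ℚ) * q' < X.L * q := mul_lt_mul_of_pos_left hq hL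
    have h2 : ⌊(X.L : ℚ) * q'⌋ < ⌈(X.L : ℚ) * q⌉ :=
      Int.floor_lt.2 (lt_of_lt_of_le h1 (Int.le_ceil _))
    omega
  · intro hT
    refine ⟨((⌈(X.L : ℚ) * q⌉ - 1 : ℤ) : ℚ) / X.L, ?_, ?_⟩
    · rw [div_lt_iff₀ hL, mul_comm q]
      push_cast
      have := Int.ceil_lt_add_one ((X.L : ℚ) * q)
      linarith
    · rw [FT_int]
      exact hT

theorem FTlt_FT {j : ℕ} {q : ℚ} {T : TP k X.D j} (h : X.FTlt q T) : T ∈ X.FT j q := by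
  obtain ⟨q', hq, hT⟩ := h
  exact FT_mono hq.le hT

theorem FTlt_iff {j : ℕ} {n : ℤ} {T : TP k X.D j} :
    X.FTlt ((n : ℚ) / X.L) T ↔ T ∈ kF k X.A j (n - 1) := by
  rw [FTlt_iff_ceil, mul_div_cancel₀ _ (SZ1_Lpos X).ne', Int.ceil_intCast]

theorem FTx_iff {j : ℕ} {q : ℚ} {T : TP k X.D j} : X.FTx q T ↔
    ∃ n : ℤ, q = (n : ℚ) / X.L ∧ T ∈ kF k X.A j n ∧ T ∉ kF k X.A j (n - 1) := by
  have hL := SZ1_Lpos X
  constructor
  · rintro ⟨h1, h2⟩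
    rw [FTlt_iff_ceil] at h2
    have h3 : T ∈ kF k X.A j ⌊(X.L : ℚ) * q⌋ := h1
    have h4 : ¬ ⌊(X.L : ℚ) * q⌋ ≤ ⌈(X.L : ℚ) * q⌉ - 1 := fun h => h2 (kF_mono h h3)
    have h5 : ⌊(X.L : ℚ) * q⌋ ≤ ⌈(X.L : ℚ) * q⌉ := Int.floor_le_ceil _
    have h6 : ⌈(X.L : ℚ) * q⌉ = ⌊(X.L : ℚ) * q⌋ := by omega
    have h7 : ((⌊(X.L : ℚ) * q⌋ : ℤ) : ℚ) = X.L * q := by
      apply le_antisymm (Int.floor_le _)
      rw [← h6]
      exact Int.le_ceil _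
    refine ⟨⌊(X.L : ℚ) * q⌋, ?_, h3, ?_⟩
    · rw [h7, mul_comm, mul_div_cancel_right₀ _ hL.ne']
    · rw [← h6]
      exact h2
  · rintro ⟨n, rfl, h1, h2⟩
    refine ⟨?_, ?_⟩
    · rw [FT_int]
      exact h1
    · rw [FTlt_iff]
      exact h2

/-- every nonzero tensor has an exact size -/
theorem exists_FTx {j : ℕ} {T : TP k X.D j} (hT : T ≠ 0) : ∃ q : ℚ, X.FTx q T := by
  classical
  obtain ⟨n0, h0⟩ := kF_sep hT
  obtain ⟨n1, h1⟩ := kF_exhaust T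
  have hb : ∀ z : ℤ, T ∈ kF k X.A j z → n0 ≤ z := by
    intro z hz
    by_contra hlt
    exact h0 (kF_mono (by omega) hz)
  obtain ⟨n, hn, hmin⟩ := Int.exists_least_of_bdd (P := fun z => T ∈ kF k X.A j z) ⟨n0, hb⟩
    ⟨n1, h1⟩
  refine ⟨(n : ℚ) / X.L, FTx_iff.2 ⟨n, rfl, hn, fun h => ?_⟩⟩
  have := hmin _ h
  omega

theorem FTlt_zero {j : ℕ} {q : ℚ} : X.FTlt q (0 : TP k X.D j) := by
  rw [FTlt_iff_ceil]
  exact Submodule.zero_mem _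

theorem FTlt_mono {j : ℕ} {q q' : ℚ} (h : q ≤ q') {T : TP k X.D j} (hT : X.FTlt q T) :
    X.FTlt q' T := by
  obtain ⟨q'', hq, hT⟩ := hT
  exact ⟨q'', hq.trans_le h, hT⟩

theorem FTlt_of_FT {j : ℕ} {q q' : ℚ} (h : q < q') {T : TP k X.D j} (hT : T ∈ X.FT j q) :
    X.FTlt q' T := ⟨q, h, hT⟩

theorem FTlt_add {j : ℕ} {q : ℚ} {T T' : TP k X.D j} (h : X.FTlt q T) (h' : X.FTlt q T') :
    X.FTlt q (T + T') := by
  rw [FTlt_iff_ceil] at *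
  exact Submodule.add_mem _ h h'

theorem FTlt_neg {j : ℕ} {q : ℚ} {T : TP k X.D j} (h : X.FTlt q T) : X.FTlt q (-T) := by
  rw [FTlt_iff_ceil] at *
  exact Submodule.neg_mem _ h

theorem FTlt_sum {j : ℕ} {q : ℚ} {ι : Type} (s : Finset ι) (T : ι → TP k X.D j)
    (h : ∀ i ∈ s, X.FTlt q (T i)) : X.FTlt q (∑ i ∈ s, T i) := by
  rw [FTlt_iff_ceil]
  exact Submodule.sum_mem _ fun i hi => FTlt_iff_ceil.1 (h i hi)

theorem FTx_add {j : ℕ} {q : ℚ} {T T' : TP k X.D j} (h : X.FTx q T) (h' : X.FTlt q T') :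
    X.FTx q (T + T') := by
  refine ⟨Submodule.add_mem _ h.1 (FTlt_FT h'), fun hc => h.2 ?_⟩
  have := FTlt_add hc (FTlt_neg h')
  rwa [add_neg_cancel_right] at this

/-- `FTx` and `FT` -/
theorem FTx.mem_iff {j : ℕ} {q q' : ℚ} {T : TP k X.D j} (h : X.FTx q T) :
    T ∈ X.FT j q' ↔ q ≤ q' := by
  constructor
  · intro h1
    by_contra hlt
    exact h.2 ⟨q', not_le.1 hlt, h1⟩
  · intro h1
    exact FT_mono h1 h.1

theorem FTx.lt_iff {j : ℕ} {q q' : ℚ} {T : TP k X.D j} (h : X.FTx q T) :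
    X.FTlt q' T ↔ q < q' := by
  constructor
  · rintro ⟨q'', h1, h2⟩
    exact (FTx.mem_iff h |>.1 h2).trans_lt h1
  · intro h1
    exact ⟨q, h1, h.1⟩

theorem FTx_unique {j : ℕ} {q q' : ℚ} {T : TP k X.D j} (h : X.FTx q T) (h' : X.FTx q' T) :
    q = q' :=
  le_antisymm ((FTx.mem_iff h).1 h'.1) ((FTx.mem_iff h').1 h.1)

/-- a tensor in `FT q` that is not of exact size `q` has size `< q` -/
theorem FTlt_or_FTx {j : ℕ} {q : ℚ} {T : TP k X.D j} (h : T ∈ X.FT j q) :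
    X.FTlt q T ∨ X.FTx q T := by
  by_cases h1 : X.FTlt q T
  · exact Or.inl h1
  · exact Or.inr ⟨h, h1⟩

end C74
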