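import Pool.Agent.MP_35f30a_al.C74.DEC
import Pool.Agent.MP_35f30a_al.C74.TEF

/-!
# Decorated residues, orders of `k`-tensors, extensions, states.   Blueprint sections 1, 2.
-/

set_option autoImplicit false

open scoped TensorProduct Polynomial

namespace C74

variable {k : Type} [Field k]

/-- the chosen decoration -/
noncomputable def Obj.dd (X : Obj k) : DecData X := Classical.choice (exists_dec X)

/-- decorated residue of a `k`-tensor over `D` at level `n`: `dec T ∈ X^{-n} T_j(A1)` has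
residue `s ∈ T_j(Γ)` -/
def DRes (X : Obj k) {j : ℕ} (n : ℤ) (T : TP k X.D j) (s : TP k X.Γ j) : Prop :=
  uRes X.dd.qc1 n (kX k X.dd.A1 j (algT X.dd.dec j T)) s

/-- `T ∈ J(n,m)`: `T ∈ F_n T_j` and its decorated residue lies in `J_j(m)` -/
def OJ (X : Obj k) {j : ℕ} (n : ℤ) (m : ℕ) (T : TP k X.D j) : Prop :=
  T ∈ kF k X.A j n ∧ ∃ s, DRes X n T s ∧ s ∈ JJ k X.Γ m j

/-- exact order `m` at level `n` -/
def OJx (X : Obj k) {j : ℕ} (n : ℤ) (m : ℕ) (T : TP k X.D j) : Prop :=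
  OJ X n m T ∧ ¬ OJ X n (m + 1) T

/-- extensions of objects of scale `M` -/
structure Ext (X X' : Obj k) where
  φ : X.D →ₐ[k] X'.D
  M : ℕ
  Mpos : 0 < M
  hL : X'.L = X.L * M
  iso : ∀ (d : X.D) (m : ℤ), φ d ∈ Fr.lev k X'.A m ↔ d ∈ Fr.lev k X.A (m / (M : ℤ))

/-- the induced map of `k`-tensors -/
noncomputable def Ext.T {X X' : Obj k} (f : Ext X X') (j : ℕ) :
    TP k X.D j →ₛₗ[RingHom.id k] TP k X'.D j := algT f.φ j

/-- good extensions preserve orders -/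
def Ext.Good {X X' : Obj k} (f : Ext X X') : Prop :=
  ∀ (j : ℕ) (n : ℤ) (m : ℕ) (T : TP k X.D j), T ∈ kF k X.A j n →
    (OJ X n m T ↔ OJ X' ((f.M : ℤ) * n) m (f.T j T))

/-- the identity extension -/
noncomputable def Ext.id (X : Obj k) : Ext X X where
  φ := AlgHom.id k _
  M := 1
  Mpos := one_pos
  hL := by simp
  iso d m := by simp

/-- composition of extensions -/
noncomputable def Ext.comp {X X' X'' : Obj k} (g : Ext X' X'') (f : Ext X X') : Ext X X'' where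
  φ := g.φ.comp f.φ
  M := f.M * g.M
  Mpos := Nat.mul_pos f.Mpos g.Mpos
  hL := by rw [g.hL, f.hL, Nat.mul_assoc]
  iso d m := by
    rw [AlgHom.comp_apply, g.iso, f.iso, Int.ediv_ediv_of_nonneg (Int.natCast_nonneg _), mul_comm,
      Nat.cast_mul, mul_comm]

/-! rational sizes -/

/-- `F(q) = lev ⌊L q⌋` -/
noncomputable def Obj.F (X : Obj k) (q : ℚ) : Submodule k X.D := Fr.lev k X.A ⌊(X.L : ℚ) * q⌋

/-- `FT_j(q) = F_{⌊L q⌋} T_j` -/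
noncomputable def Obj.FT (X : Obj k) (j : ℕ) (q : ℚ) : Submodule k (TP k X.D j) :=
  kF k X.A j ⌊(X.L : ℚ) * q⌋

/-- size `< q` -/
def Obj.Flt (X : Obj k) (q : ℚ) (d : X.D) : Prop := ∃ q' < q, d ∈ X.F q'

/-- size `< q` for tensors -/
def Obj.FTlt (X : Obj k) {j : ℕ} (q : ℚ) (T : TP k X.D j) : Prop := ∃ q' < q, T ∈ X.FT j q'

/-- exact size `q` -/
def Obj.Fx (X : Obj k) (q : ℚ) (d : X.D) : Prop := d ∈ X.F q ∧ ¬ X.Flt q d

/-- exact size `q` for tensors -/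
def Obj.FTx (X : Obj k) {j : ℕ} (q : ℚ) (T : TP k X.D j) : Prop := T ∈ X.FT j q ∧ ¬ X.FTlt q T

/-- a family of `k`-tensors -/
abbrev Fam (X : Obj k) : Type := ∀ j, TP k X.D j

/-- transport and Taylor shift: `g^{(w)}` over `X'` -/
noncomputable def Ext.st {X X' : Obj k} (f : Ext X X') (d : ℕ) (w : X'.D) (g : Fam X) : Fam X' :=
  TP.tay d w (fun j => f.T j (g j))

/-- `Crit(X,g,q0,r,e)` -/
structure Crit (X : Obj k) (d : ℕ) (g : Fam X) (q0 r : ℚ) (e : ℕ) : Prop where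
  one_le : 1 ≤ e
  le_d : e ≤ d
  zero : X.FTx q0 (g 0)
  le : ∀ j, 1 ≤ j → j ≤ d → g j ∈ X.FT j (q0 - j * r)
  ex : X.FTx (q0 - e * r) (g e)
  lt : ∀ j, e < j → j ≤ d → X.FTlt (q0 - j * r) (g j)

/-- `DROP(X,g,r,e)` -/
def Drop (X : Obj k) (d : ℕ) (g : Fam X) (r : ℚ) (e : ℕ) : Prop :=
  ∃ (X' : Obj k) (f : Ext X X') (w : X'.D), w ∈ X'.F (r + 1) ∧
    (f.st d w g 0 = 0 ∨ ∃ (q' r' : ℚ) (e' : ℕ), r' ≤ r ∧ e' < e ∧ Crit X' d (f.st d w g) q' r' e')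

/-- `GOOD-STATE(X,g,r)` -/
def GoodSt (X : Obj k) (d : ℕ) (g : Fam X) (r : ℚ) : Prop :=
  ∀ B : ℚ, ∃ (X' : Obj k) (f : Ext X X') (z : X'.D), z ∈ X'.F (r + 1) ∧
    f.st d z g 0 ∈ X'.FT 0 (-B)

/-! functional data (blueprint 2.1) -/

/-- functional data of type `j+1` and level `v`: `Θ2 : T_{j+1} → T_1`, `θ : T_j → T_0` -/
inductive IsFD (X : Obj k) : (j : ℕ) → ℤ → (TP k X.D (j + 1) →ₗ[k] TP k X.D 1) →
    (TP k X.D j →ₗ[k] TP k X.D 0) → Prop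
  | base1 : IsFD X 0 0 LinearMap.id LinearMap.id
  | base2 (j : ℕ) (v : ℤ) (Ψ : TP k X.D j →ₗ[k] k) (hΨ : ∀ T ∈ kF k X.A j (v - 1), Ψ T = 0) :
      IsFD X (j + 1) v (psi2 j Ψ) (psi1 j Ψ)
  | left (j : ℕ) (v u : ℤ) (ψ : X.D →ₗ[k] k) (hψ : ∀ a ∈ Fr.lev k X.A (v - 1), ψ a = 0)
      (Θ2 : TP k X.D (j + 1) →ₗ[k] TP k X.D 1) (θ : TP k X.D j →ₗ[k] TP k X.D 0)
      (h : IsFD X j u Θ2 θ) :
      IsFD X (j + 1) (v + u) (Θ2 ∘ₗ peel (j + 1) ψ) (θ ∘ₗ peel j ψ)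

end C74
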