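import Mathlib

/-!
# Iterated tensor powers `A ⊗[R] (A ⊗[R] ...)` of a (noncommutative) algebra, contractions,
Taylor shifts.  Blueprint section 0.
-/

set_option autoImplicit false

open scoped TensorProduct Polynomial

namespace C74

/-- bundled left `A`-module with a compatible `R`-module structure -/
structure LMod (R : Type) [CommRing R] (A : Type) [Ring A] [Algebra R A] where
  M : Type
  [grp : AddCommGroup M]
  [modR : Module R M]
  [modA : Module A M]
  [tower : IsScalarTower R A M]

attribute [instance] LMod.grp LMod.modR LMod.modA LMod.tower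

section
variable (R : Type) [CommRing R] (A : Type) [Ring A] [Algebra R A]

/-- `T_0 = A`, `T_{n+1} = A ⊗[R] T_n` -/
noncomputable def TPo : ℕ → LMod R A
  | 0 => { M := A }
  | n + 1 => { M := A ⊗[R] (TPo n).M }

/-- `T_n = A ⊗ ... ⊗ A` (`n+1` factors) over `R`; a left `A`-module via slot `0` -/
def TP (n : ℕ) : Type := (TPo R A n).M

noncomputable instance (n : ℕ) : AddCommGroup (TP R A n) := (TPo R A n).grp
noncomputable instance (n : ℕ) : Module R (TP R A n) := (TPo R A n).modR
noncomputable instance (n : ℕ) : Module A (TP R A n) := (TPo R A n).modA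
instance (n : ℕ) : IsScalarTower R A (TP R A n) := (TPo R A n).tower

end

namespace TP

section
variable {R : Type} [CommRing R] {A : Type} [Ring A] [Algebra R A]

instance (n : ℕ) : SMulCommClass R A (TP R A n) := ⟨fun r a t => by
  have h1 : (algebraMap R A r) • a • t = r • a • t := by
    rw [algebraMap_smul]
  have h2 : a • (algebraMap R A r) • t = a • r • t := by
    rw [algebraMap_smul]
  rw [← h1, ← h2, smul_smul, smul_smul, Algebra.commutes]⟩

instance (n : ℕ) : SMulCommClass A R (TP R A n) := SMulCommClass.symm R A _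

/-- the identification `T_0 = A` -/
def ofA : A ≃+ TP R A 0 := AddEquiv.refl A

/-- the identification `T_0 = A` -/
def toA : TP R A 0 ≃+ A := AddEquiv.refl A

@[simp] lemma toA_ofA (a : A) : toA (R := R) (ofA a) = a := rfl
@[simp] lemma ofA_toA (a : TP R A 0) : ofA (toA a) = a := rfl
lemma toA_smul (a : A) (t : TP R A 0) : toA (a • t) = a * toA t := rfl
lemma smul_ofA (a b : A) : a • (ofA (R := R) b) = ofA (a * b) := rfl
lemma toA_smulR (r : R) (t : TP R A 0) : toA (r • t) = r • toA t := rfl
lemma smulR_ofA (r : R) (b : A) : r • (ofA (R := R) b) = ofA (r • b) := rfl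

/-- `cons a t = a ⊗ t` -/
noncomputable def cons {n : ℕ} (a : A) (t : TP R A n) : TP R A (n + 1) :=
  (TensorProduct.mk R A (TPo R A n).M a t : A ⊗[R] (TPo R A n).M)

lemma cons_add {n : ℕ} (a : A) (t t' : TP R A n) : cons a (t + t') = cons a t + cons a t' :=
  TensorProduct.tmul_add (R := R) a (t : (TPo R A n).M) t'
lemma add_cons {n : ℕ} (a a' : A) (t : TP R A n) : cons (a + a') t = cons a t + cons a' t :=
  TensorProduct.add_tmul (R := R) a a' (t : (TPo R A n).M)
lemma cons_smulR {n : ℕ} (a : A) (r : R) (t : TP R A n) : cons a (r • t) = r • cons a t :=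
  TensorProduct.tmul_smul (R := R) r a (t : (TPo R A n).M)
lemma smulR_cons {n : ℕ} (a : A) (r : R) (t : TP R A n) : cons (r • a) t = r • cons a t :=
  (TensorProduct.smul_tmul' (R := R) r a (t : (TPo R A n).M))
lemma smul_cons {n : ℕ} (b a : A) (t : TP R A n) : b • cons a t = cons (b * a) t :=
  TensorProduct.smul_tmul' (R := R) b a (t : (TPo R A n).M)
@[simp] lemma cons_zero {n : ℕ} (a : A) : cons a (0 : TP R A n) = 0 :=
  TensorProduct.tmul_zero (R := R) (TPo R A n).M a
@[simp] lemma zero_cons {n : ℕ} (t : TP R A n) : cons (0 : A) t = 0 :=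
  TensorProduct.zero_tmul (R := R) A (t : (TPo R A n).M)
lemma cons_neg {n : ℕ} (a : A) (t : TP R A n) : cons a (-t) = -cons a t :=
  TensorProduct.tmul_neg (R := R) a (t : (TPo R A n).M)
lemma neg_cons {n : ℕ} (a : A) (t : TP R A n) : cons (-a) t = -cons a t :=
  TensorProduct.neg_tmul (R := R) a (t : (TPo R A n).M)
lemma cons_sub {n : ℕ} (a : A) (t t' : TP R A n) : cons a (t - t') = cons a t - cons a t' := by
  rw [sub_eq_add_neg, sub_eq_add_neg, cons_add, cons_neg]
lemma sub_cons {n : ℕ} (a a' : A) (t : TP R A n) : cons (a - a') t = cons a t - cons a' t := by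
  rw [sub_eq_add_neg, sub_eq_add_neg, add_cons, neg_cons]

/-- induction principle for `T_{n+1}` -/
theorem succ_induction {n : ℕ} {P : TP R A (n + 1) → Prop} (h0 : P 0)
    (hc : ∀ a t, P (cons a t)) (ha : ∀ x y, P x → P y → P (x + y)) (x : TP R A (n + 1)) : P x :=
  TensorProduct.induction_on (R := R) (M := A) (N := (TPo R A n).M) (motive := P) x h0
    (fun a t => hc a t) (fun x y => ha x y)

/-- `R`-linear maps out of `T_{n+1}` -/
noncomputable def lift {n : ℕ} {P : Type} [AddCommGroup P] [Module R P]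
    (f : A →ₗ[R] TP R A n →ₗ[R] P) : TP R A (n + 1) →ₗ[R] P :=
  TensorProduct.lift (R := R) (M := A) (N := (TPo R A n).M) f

@[simp] lemma lift_cons {n : ℕ} {P : Type} [AddCommGroup P] [Module R P]
    (f : A →ₗ[R] TP R A n →ₗ[R] P) (a : A) (t : TP R A n) : lift f (cons a t) = f a t :=
  TensorProduct.lift.tmul (R := R) (M := A) (N := (TPo R A n).M) a t

/-- semilinear maps out of `T_{n+1}` -/
noncomputable def liftₛₗ {R' : Type} [CommRing R'] (σ : R →+* R') {n : ℕ} {P : Type}
    [AddCommGroup P] [Module R' P]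
    (f : A →ₛₗ[σ] TP R A n →ₛₗ[σ] P) : TP R A (n + 1) →ₛₗ[σ] P :=
  TensorProduct.lift (R := R) (M := A) (N := (TPo R A n).M) f

@[simp] lemma liftₛₗ_cons {R' : Type} [CommRing R'] (σ : R →+* R') {n : ℕ} {P : Type}
    [AddCommGroup P] [Module R' P]
    (f : A →ₛₗ[σ] TP R A n →ₛₗ[σ] P) (a : A) (t : TP R A n) : liftₛₗ σ f (cons a t) = f a t :=
  TensorProduct.lift.tmul' (R := R) (M := A) (N := (TPo R A n).M) a t

/-- `cons` as a bilinear map -/
noncomputable def consL (n : ℕ) : A →ₗ[R] TP R A n →ₗ[R] TP R A (n + 1) :=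
  LinearMap.mk₂ R cons (fun a a' t => add_cons a a' t) (fun r a t => smulR_cons a r t)
    (fun a t t' => cons_add a t t') (fun r a t => cons_smulR a r t)

/-- two `R`-linear maps on `T_{n+1}` that agree on pure tensors are equal -/
theorem hom_ext {n : ℕ} {P : Type} [AddCommGroup P] [Module R P]
    {f g : TP R A (n + 1) →ₗ[R] P} (h : ∀ a t, f (cons a t) = g (cons a t)) : f = g := by
  ext x
  induction x using succ_induction with
  | h0 => simp
  | hc a t => exact h a t
  | ha x y hx hy => rw [map_add, map_add, hx, hy]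

/-- left multiplication `t ↦ a • t` as an `R`-linear map -/
noncomputable def lsmul (n : ℕ) (a : A) : TP R A n →ₗ[R] TP R A n where
  toFun t := a • t
  map_add' := smul_add a
  map_smul' r t := by simp [smul_comm a r t]

@[simp] lemma lsmul_apply (n : ℕ) (a : A) (t : TP R A n) : lsmul n a t = a • t := rfl

/-- the contraction `C_{n,i}(w) : T_n → T_i`: the sum over all ways to replace `n-i` of the `n`
tensor signs by `w` -/
noncomputable def con (w : A) : (n i : ℕ) → TP R A n →ₗ[R] TP R A i
  | 0, 0 => LinearMap.id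
  | 0, _ + 1 => 0
  | n + 1, 0 => lift (LinearMap.mk₂ R (fun a t => (a * w) • con w n 0 t)
      (fun a a' t => by simp [add_mul, add_smul])
      (fun r a t => by rw [smul_mul_assoc, smul_assoc])
      (fun a t t' => by simp)
      (fun r a t => by rw [map_smul, smul_comm]))
  | n + 1, i + 1 => lift (LinearMap.mk₂ R (fun a t => cons a (con w n i t) + (a * w) • con w n (i + 1) t)
      (fun a a' t => by simp only [add_mul, add_smul, add_cons]; abel)
      (fun r a t => by rw [smul_mul_assoc, smul_assoc, smulR_cons, smul_add])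
      (fun a t t' => by simp only [map_add, cons_add, smul_add]; abel)
      (fun r a t => by rw [map_smul, map_smul, smul_comm, cons_smulR, smul_add]))

@[simp] lemma con_zero_zero (w : A) (t : TP R A 0) : con w 0 0 t = t := rfl
@[simp] lemma con_zero_succ (w : A) (i : ℕ) (t : TP R A 0) : con w 0 (i + 1) t = 0 := rfl
lemma con_succ_zero (w : A) (n : ℕ) (a : A) (t : TP R A n) :
    con w (n + 1) 0 (cons a t) = (a * w) • con w n 0 t := by
  rw [con]; exact lift_cons _ _ _
lemma con_succ_succ (w : A) (n i : ℕ) (a : A) (t : TP R A n) :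
    con w (n + 1) (i + 1) (cons a t) = cons a (con w n i t) + (a * w) • con w n (i + 1) t := by
  rw [con]; exact lift_cons _ _ _

/-- value `T(w) = C_{n,0}(w) T` -/
noncomputable def ev {n : ℕ} (w : A) (T : TP R A n) : A := toA (con w n 0 T)

/-- Taylor shift of a family `g_0, ..., g_d` -/
noncomputable def tay (d : ℕ) (w : A) (g : ∀ j, TP R A j) : ∀ i, TP R A i :=
  fun i => ∑ j ∈ Finset.range (d + 1), con w j i (g j)

/-- the value `g(w) = Σ_j C_{j,0}(w) g_j` -/
noncomputable def evF (d : ℕ) (w : A) (g : ∀ j, TP R A j) : A := toA (tay d w g 0)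

/-- `δ_b (a ⊗ t) = ab ⊗ t - a ⊗ b t` on `T_{n+1}` -/
noncomputable def del (b : A) (n : ℕ) : TP R A (n + 1) →ₗ[R] TP R A (n + 1) :=
  lift (LinearMap.mk₂ R (fun a t => cons (a * b) t - cons a (b • t))
      (fun a a' t => by simp only [add_mul, add_cons]; abel)
      (fun r a t => by rw [smul_mul_assoc, smulR_cons, smulR_cons, smul_sub])
      (fun a t t' => by simp only [cons_add, smul_add]; abel)
      (fun r a t => by rw [smul_comm b r t, cons_smulR, cons_smulR, smul_sub]))

lemma del_cons (b : A) (n : ℕ) (a : A) (t : TP R A n) :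
    del b n (cons a t) = cons (a * b) t - cons a (b • t) := lift_cons _ _ _

end

section map
variable {R : Type} [CommRing R] {A : Type} [Ring A] [Algebra R A]
variable {R' : Type} [CommRing R'] {A' : Type} [Ring A'] [Algebra R' A']

/-- functoriality: a ring hom `φ : A → A'` that is semilinear over `σ : R → R'` induces
`T_n(A) → T_n(A')`, `a_0 ⊗ ... ⊗ a_n ↦ φ a_0 ⊗ ... ⊗ φ a_n` -/
noncomputable def map (σ : R →+* R') (φ : A →+* A')
    (h : ∀ r, φ (algebraMap R A r) = algebraMap R' A' (σ r)) :
    (n : ℕ) → TP R A n →ₛₗ[σ] TP R' A' n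
  | 0 => { toFun := fun t => ofA (φ (toA t))
           map_add' := fun x y => by simp
           map_smul' := fun r t => by
             rw [toA_smulR, Algebra.smul_def, map_mul, h, smulR_ofA, Algebra.smul_def] }
  | n + 1 => liftₛₗ σ (LinearMap.mk₂'ₛₗ σ σ (fun a t => cons (φ a) (map σ φ h n t))
      (fun a a' t => by rw [map_add, add_cons])
      (fun r a t => by rw [Algebra.smul_def, map_mul, h, ← Algebra.smul_def, smulR_cons])
      (fun a t t' => by rw [map_add, cons_add])
      (fun r a t => by rw [LinearMap.map_smulₛₗ, cons_smulR]))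

variable (σ : R →+* R') (φ : A →+* A') (h : ∀ r, φ (algebraMap R A r) = algebraMap R' A' (σ r))

lemma map_zero_apply (t : TP R A 0) : map σ φ h 0 t = ofA (φ (toA t)) := rfl
lemma map_cons (n : ℕ) (a : A) (t : TP R A n) :
    map σ φ h (n + 1) (cons a t) = cons (φ a) (map σ φ h n t) := by
  rw [map]; exact liftₛₗ_cons _ _ _ _

end map

end TP

end C74
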